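import Pool.Agent.Q81.TF.Stm

open Set MeasureTheory Filter Topology

namespace Pool.Agent.Q81.TF

variable {n x0 x1 t1 t2 : ℝ} {W D : Set (ℝ × ℝ)} {s : ℝ → ℝ} {g h1 h2 h3 ht : ℝ × ℝ → ℝ}

theorem PK_split {n M Pm E κ : ℝ} (hE : 0 ≤ E) :
    PK n M Pm E κ = (1 + E) ^ ((1 : ℝ) / 4) * PK n M Pm 0 κ := by
  have h1 : 0 < 1 + E := by linarith
  unfold PK
  rw [Real.rpow_def_of_pos h1, ← Real.exp_add]
  congr 1
  simp only [add_zero, Real.log_one]
  ring

theorem PK_rpow {n M Pm E κ y p : ℝ} (hE : 0 ≤ E) (hy : 0 ≤ y) (hp : 0 ≤ p) (hp4 : p ≤ 4) :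
    (y * PK n M Pm E κ) ^ p ≤ (1 + E) * (y * PK n M Pm 0 κ) ^ p := by
  have h1 : 1 ≤ 1 + E := by linarith
  have h2 : 0 < PK n M Pm 0 κ := Real.exp_pos _
  have h3 : 0 ≤ (1 + E) ^ ((1 : ℝ) / 4) := Real.rpow_nonneg (by linarith) _
  rw [PK_split hE, show y * ((1 + E) ^ ((1 : ℝ) / 4) * PK n M Pm 0 κ) =
    (1 + E) ^ ((1 : ℝ) / 4) * (y * PK n M Pm 0 κ) by ring, Real.mul_rpow h3 (by positivity),
    ← Real.rpow_mul (by linarith)]
  apply mul_le_mul_of_nonneg_right _ (Real.rpow_nonneg (by positivity) _)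
  calc (1 + E) ^ (1 / 4 * p) ≤ (1 + E) ^ (1 : ℝ) :=
        Real.rpow_le_rpow_of_exponent_le h1 (by linarith)
    _ = 1 + E := Real.rpow_one _

/-- the height in the window -/
noncomputable def Hwin (n L M Pm E K : ℝ) : ℝ :=
  max (2 * hS n L K) (max (2 * thK K) (Real.sqrt (32 * PK n M Pm E (lamP * K) * muK n K)))

/-- its power -/
noncomputable def Hsum (n L M Pm K : ℝ) : ℝ :=
  (2 * hS n L K) ^ ((23 : ℝ) / 5) + (2 * thK K) ^ ((23 : ℝ) / 5) +
      (32 * PK n M Pm 0 (lamP * K) * muK n K) ^ ((23 : ℝ) / 10)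

theorem Hwin_pow {L M Pm E K : ℝ} (hL : 0 < L) (hE : 0 ≤ E) :
    Hwin n L M Pm E K ^ ((23 : ℝ) / 5) ≤ (1 + E) * Hsum n L M Pm K := by
  have h1 := hS_pos (n := n) (K := K) hL
  have h2 := thK_pos K
  have h3 := muK_pos n K
  have hp : 0 < PK n M Pm 0 (lamP * K) := Real.exp_pos _
  have hp' : 0 < PK n M Pm E (lamP * K) := Real.exp_pos _
  have q1 : 0 ≤ (2 * hS n L K) ^ ((23 : ℝ) / 5) := Real.rpow_nonneg (by positivity) _
  have q2 : 0 ≤ (2 * thK K) ^ ((23 : ℝ) / 5) := Real.rpow_nonneg (by positivity) _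
  have q3 : 0 ≤ (32 * PK n M Pm 0 (lamP * K) * muK n K) ^ ((23 : ℝ) / 10) :=
    Real.rpow_nonneg (by positivity) _
  have q4 : Real.sqrt (32 * PK n M Pm E (lamP * K) * muK n K) ^ ((23 : ℝ) / 5) ≤
      (1 + E) * (32 * PK n M Pm 0 (lamP * K) * muK n K) ^ ((23 : ℝ) / 10) := by
    have h5 := PK_rpow (n := n) (M := M) (Pm := Pm) (κ := lamP * K) (y := 32 * muK n K)
      (p := (23 : ℝ) / 10) hE (by positivity) (by norm_num) (by norm_num)
    rw [show 32 * PK n M Pm E (lamP * K) * muK n K = 32 * muK n K * PK n M Pm E (lamP * K) by ring,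
      show 32 * PK n M Pm 0 (lamP * K) * muK n K = 32 * muK n K * PK n M Pm 0 (lamP * K) by ring,
      Real.sqrt_eq_rpow, ← Real.rpow_mul (by positivity)]
    have e : (1 : ℝ) / 2 * (23 / 5) = 23 / 10 := by norm_num
    rw [e]
    exact h5
  unfold Hwin Hsum
  rcases max_choice (2 * hS n L K) (max (2 * thK K)
    (Real.sqrt (32 * PK n M Pm E (lamP * K) * muK n K))) with h | h
  · rw [h]
    nlinarith only [q3, q2, q1, hE]
  rw [h]
  rcases max_choice (2 * thK K)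
    (Real.sqrt (32 * PK n M Pm E (lamP * K) * muK n K)) with h' | h'
  · rw [h']
    nlinarith only [q3, q2, q1, hE]
  · rw [h']
    nlinarith only [q4, q2, q1, hE]

/-- the contact levels -/
noncomputable def cK (c κ : ℝ) : ℝ := c - κ ^ (-((1 : ℝ) / 4))

theorem cK_mono {c κ κ' : ℝ} (h0 : 0 < κ) (h : κ ≤ κ') : cK c κ ≤ cK c κ' := by
  unfold cK
  have := Real.rpow_le_rpow_of_nonpos h0 h (show -((1 : ℝ) / 4) ≤ 0 by norm_num)
  linarith

theorem cK_lt {c κ : ℝ} (h0 : 0 < κ) : cK c κ < c := by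
  unfold cK
  have := Real.rpow_pos_of_pos h0 (-((1 : ℝ) / 4))
  linarith

/-- the numerical conditions at the scale `K` -/
structure Num (n L M Pm Z B I K x0 c : ℝ) : Prop where
  hK : 0 < K
  n1 : 64 * muK n K ≤ nuK n K
  n2 : x0 < cK c K
  n3 : sC n * (Z / muK n K) ^ 4 * Hsum n L M Pm K * (4 * muK n K) * I ≤ SgK n K / 4
  n4 : Real.sqrt (kapK n M Pm B K) * I < K ^ (-((1 : ℝ) / 4)) - (lamP * K) ^ (-((1 : ℝ) / 4))
  n5 : (2 * hS n L K) ^ 2 ≤ 16 * PK n M Pm 0 (lamP * K) * (32 * muK n K) ∧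
      (2 * thK K) ^ 2 ≤ 16 * PK n M Pm 0 (lamP * K) * (32 * muK n K)

theorem int_mono_sub {t' t'' C : ℝ} {E : ℝ → ℝ} (hE : ∀ τ, 0 ≤ E τ) (hC : 0 ≤ C)
    (hi : IntegrableOn E (Ioc t1 t2)) (h1 : t1 ≤ t') (h2 : t'' ≤ t2) :
    IntegrableOn (fun τ => C * (1 + E τ)) (Ioc t' t'') ∧
      ∫ τ in Ioc t' t'', C * (1 + E τ) ≤ C * ∫ τ in Ioc t1 t2, (1 + E τ) := by
  have i0 : IntegrableOn (fun _ : ℝ => (1 : ℝ)) (Ioc t1 t2) :=
    integrableOn_const (by rw [Real.volume_Ioc]; exact ENNReal.ofReal_ne_top)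
  have i1 : IntegrableOn (fun τ => 1 + E τ) (Ioc t1 t2) := i0.add hi
  have i2 : IntegrableOn (fun τ => C * (1 + E τ)) (Ioc t1 t2) := i1.const_mul C
  have hsub : Ioc t' t'' ⊆ Ioc t1 t2 := Ioc_subset_Ioc h1 h2
  refine ⟨i2.mono_set hsub, ?_⟩
  rw [← integral_const_mul]
  apply setIntegral_mono_set i2
  · exact Eventually.of_forall (fun τ => mul_nonneg hC (by have := hE τ; linarith))
  · exact hsub.eventuallyLE

theorem chain_step (S : Sit n x0 x1 t1 t2 W D s g h1 h2 h3 ht) (hn9 : n ≤ 9)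
    {M c Pm Gm Hm Z B I K bl : ℝ}
    (Bd : Bds n x0 x1 t1 t2 g h1 h2 h3 M c Pm Gm Hm)
    (hZ0 : 0 ≤ Z) (hZ : ∀ b μ, 0 < μ → ∃ w0 w1 w2, WCut b μ Z w0 w1 w2)
    (hB1 : 1 ≤ B) (hB : ∀ b μ ν, 0 < μ → μ < ν → ∃ Ω ω, LCut B b μ ν Ω ω)
    (hI : I = ∫ τ in Ioc t1 t2, (1 + eV n x0 x1 D univ g h3 τ))
    (hbl : 0 ≤ bl) (Nm : Num n (x1 - x0) M Pm Z B I K x0 (s t1))
    (IH : ∀ κ, lamP * K ≤ κ → ∀ t ∈ Icc t1 t2, ∀ b, bl + 16 * nuK n κ ≤ b →
      Event n x0 x1 t1 t2 Z g κ b t → mF x0 x1 t1 t2 g (cK (s t1) κ, t) ≤ b + nuK n κ) :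
    ∀ t' ∈ Icc t1 t2, ∀ b, bl + 16 * nuK n K ≤ b → Event n x0 x1 t1 t2 Z g K b t' →
      mF x0 x1 t1 t2 g (cK (s t1) K, t') ≤ b + nuK n K := by
  intro t' ht' b hb hev
  obtain ⟨F, J, hDW, hn, hfin⟩ := S
  obtain ⟨hK, hn1, hn2, hn3, hn4, hn5⟩ := Nm
  by_contra hcon
  push Not at hcon
  obtain ⟨w0, w1, w2, WC, hSg⟩ := hev
  have hμ := muK_pos n K
  have hν := nuK_pos n K
  have hSg0 := SgK_pos n K
  have ht1m : t1 ∈ Icc t1 t2 := ⟨le_rfl, F.htt.le⟩
  have hst1 := F.s_mem t1 ht1m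
  have hL : 0 < x1 - x0 := by linarith [F.hx]
  have hκ0 : 0 < lamP * K := by unfold lamP; positivity
  have hKκ : K ≤ lamP * K := by unfold lamP; linarith
  obtain ⟨cc, hcc⟩ : ∃ cc, cc = cK (s t1) K := ⟨_, rfl⟩
  obtain ⟨c', hc'⟩ : ∃ c', c' = cK (s t1) (lamP * K) := ⟨_, rfl⟩
  rw [← hcc] at hcon hn2
  have hcc' : cc ≤ c' := by rw [hcc, hc']; exact cK_mono hK hKκ
  have hc's : c' < s t1 := by rw [hc']; exact cK_lt hκ0
  have hc'm : c' ∈ Icc x0 x1 := ⟨hn2.le.trans hcc', by linarith⟩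
  have hccm : cc ∈ Icc x0 x1 := ⟨hn2.le, hcc'.trans hc'm.2⟩
  have hdiff : c' - cc = K ^ (-((1 : ℝ) / 4)) - (lamP * K) ^ (-((1 : ℝ) / 4)) := by
    rw [hcc, hc']
    unfold cK
    ring
  have hFd : ∀ z ∈ D, 0 ≤ Fd n g h3 z := fun z hz =>
    mul_nonneg (Real.rpow_nonneg (F.g_pos z hz).le _) (sq_nonneg _)
  have hE0 : ∀ τ, 0 ≤ eV n x0 x1 D univ g h3 τ := fun τ =>
    eV_nonneg (n := n) (x0 := x0) (x1 := x1) hFd univ τ
  have hEi : IntegrableOn (eV n x0 x1 D univ g h3) (Ioc t1 t2) :=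
    tail_integrable F.D_open.measurableSet MeasurableSet.univ hfin
  -- no event to the left of `c'`
  have hNE : ∀ τ ∈ Icc t1 t2, NE n (s τ) x1 bl (mF x0 x1 t1 t2 g (c', τ)) (lamP * K)
      (fun x => g (x, τ)) (fun x => mF x0 x1 t1 t2 g (x, τ)) := by
    intro τ hτ
    apply F.ne_of hDW hn hZ hτ hκ0.le hbl
    intro κ hκ b'' hb'' hlt hEv
    have h1 := IH κ hκ τ hτ b'' hb'' hEv
    have h2 : c' ≤ cK (s t1) κ := by rw [hc']; exact cK_mono hκ0 hκ
    have h3 := F.mF_mono (τ := τ) hc'm.1 h2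
    linarith
  have hm0 : mF x0 x1 t1 t2 g (c', t1) = 0 := by
    apply F.mF_zero hc'm ht1m
    rw [F.D_iff _ hc'm t1 ht1m]
    linarith
  have hmt' : b + nuK n K < mF x0 x1 t1 t2 g (c', t') :=
    hcon.trans_le (F.mF_mono (τ := t') hccm.1 hcc')
  have hmc : Continuous (fun τ => mF x0 x1 t1 t2 g (c', τ)) :=
    F.mF_cont.comp (show Continuous fun τ : ℝ => (c', τ) by fun_prop)
  -- the last time
  obtain ⟨t0, ht0, hge, hor⟩ := split_left (u := fun τ => mF x0 x1 t1 t2 g (c', τ))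
    (κ := b + 32 * muK n K) ht'.1 hmc.continuousOn (by linarith)
  have ht0e : mF x0 x1 t1 t2 g (c', t0) = b + 32 * muK n K := by
    rcases hor with h | h
    · exfalso
      have h2 : b + 32 * muK n K ≤ mF x0 x1 t1 t2 g (c', t0) := hge t0 ⟨le_rfl, ht0.2⟩
      rw [h, hm0] at h2
      linarith
    · exact h
  have ht0m : t0 ∈ Icc t1 t2 := ⟨ht0.1, ht0.2.trans ht'.2⟩
  have ht0' : t0 < t' := by
    rcases eq_or_lt_of_le ht0.2 with h | h
    · exfalso
      rw [← h, ht0e] at hmt'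
      linarith
    · exact h
  have hbw : 0 < b - 2 * muK n K := by linarith
  have hAT : ∀ τ ∈ Icc t1 t2, IntegrableOn (fun x => D.indicator (Fd n g h3) (x, τ)) (Ioc x0 x1) →
      AtTime n x0 x1 t1 t2 D s g h1 h3 M Pm bl K c' τ := by
    intro τ hτ hint
    exact ⟨hτ, hint, Bd.hM1, fun x hx => Bd.hM x hx τ hτ, (le_abs_self _).trans (Bd.hPm τ hτ),
      hbl, hK.le, hc'm, hNE τ hτ⟩
  have hμν : 4 * muK n K ≤ nuK n K := by linarith
  have hsC := sC_nonneg hn
  have hHs : 0 ≤ Hsum n (x1 - x0) M Pm K := by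
    unfold Hsum
    have h1 := hS_pos (n := n) (K := K) hL
    have h2 := thK_pos K
    have hp : 0 < PK n M Pm 0 (lamP * K) := Real.exp_pos _
    have q1 : 0 ≤ (2 * hS n (x1 - x0) K) ^ ((23 : ℝ) / 5) := Real.rpow_nonneg (by positivity) _
    have q2 : 0 ≤ (2 * thK K) ^ ((23 : ℝ) / 5) := Real.rpow_nonneg (by positivity) _
    have q3 : 0 ≤ (32 * PK n M Pm 0 (lamP * K) * muK n K) ^ ((23 : ℝ) / 10) :=
      Real.rpow_nonneg (by positivity) _
    linarith
  obtain ⟨r, hr⟩ : ∃ r, r = sC n * (Z / muK n K) ^ 4 * Hsum n (x1 - x0) M Pm K * (4 * muK n K) :=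
    ⟨_, rfl⟩
  have hr0 : 0 ≤ r := by rw [hr]; positivity
  rw [← hr] at hn3
  -- the functional stays large
  have hSc := F.Sf_contT hDW WC hbw
  obtain ⟨z, hz, hzge, hzor⟩ := split_left (u := Sf n x0 x1 t1 t2 g w0) (κ := SgK n K / 2) ht0'.le
    (hSc.mono (Icc_subset_Icc ht0.1 ht'.2)) (by linarith)
  have hz0 : z = t0 := by
    rcases hzor with h | h
    · exact h
    exfalso
    have hzt : z < t' := by
      rcases eq_or_lt_of_le hz.2 with h4 | h4
      · exfalso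
        rw [h4] at h
        linarith
      · exact h4
    have i1 := int_mono_sub (t1 := t1) (t2 := t2) (t' := z) (t'' := t') (C := r) hE0 hr0 hEi
      (ht0.1.trans hz.1) ht'.2
    rw [← hI] at i1
    have h5 := F.S_evol J hDW hn hfin WC hbw (ht0.1.trans hz.1) hzt ht'.2 i1.1 (by
      have hae := tail_ae (n := n) (g := g) (h3 := h3) F.D_open.measurableSet hfin
      have hsub : Ioc z t' ⊆ Ioc t1 t2 := Ioc_subset_Ioc (ht0.1.trans hz.1) ht'.2
      have hae' := ae_mono (Measure.restrict_mono hsub le_rfl) hae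
      filter_upwards [hae', ae_restrict_mem measurableSet_Ioc] with τ g1 g2
      have hτ : τ ∈ Icc t1 t2 := ⟨(hsub g2).1.le, (hsub g2).2⟩
      have hA := hAT τ hτ g1
      have hmcτ : b + 32 * muK n K ≤ mF x0 x1 t1 t2 g (c', τ) :=
        hge τ ⟨hz.1.trans g2.1.le, g2.2⟩
      have hwin := F.win_sup J hDW hn hn9 hA hμν WC hb hmcτ (hzge τ ⟨g2.1.le, g2.2⟩)
      have hx1m := F.mF_mono (τ := τ) hc'm.1 hc'm.2
      have hst := F.S_time J hDW hn hμ hZ0 WC hbw hτ (by linarith)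
        (H := Hwin n (x1 - x0) M Pm (eV n x0 x1 D univ g h3 τ) K) (fun x hx hsx hm1 hm2 => by
          unfold Hwin
          rcases hwin x hx hsx hm1 hm2 with h6 | h6 | h6
          · exact h6.trans (le_max_left _ _)
          · exact h6.trans ((le_max_left _ _).trans (le_max_right _ _))
          · refine le_trans ?_ ((le_max_right _ _).trans (le_max_right _ _))
            exact Real.le_sqrt_of_sq_le h6)
      refine hst.trans ?_
      have hHw := Hwin_pow (n := n) (L := x1 - x0) (M := M) (Pm := Pm) (K := K) hL (hE0 τ)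
      calc sC n * (Z / muK n K) ^ 4 *
            Hwin n (x1 - x0) M Pm (eV n x0 x1 D univ g h3 τ) K ^ ((23 : ℝ) / 5) * (4 * muK n K) ≤
          sC n * (Z / muK n K) ^ 4 * ((1 + eV n x0 x1 D univ g h3 τ) *
            Hsum n (x1 - x0) M Pm K) * (4 * muK n K) := by
            apply mul_le_mul_of_nonneg_right _ (by positivity)
            exact mul_le_mul_of_nonneg_left hHw (by positivity)
        _ = r * (1 + eV n x0 x1 D univ g h3 τ) := by rw [hr]; ring)
    have h6 := h5.trans i1.2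
    rw [h] at h6
    linarith
  rw [hz0] at hzge
  -- the flux
  obtain ⟨Ω, ω, LC⟩ := hB b (32 * muK n K) (nuK n K) (by positivity) (by linarith)
  have hPK0 : 0 < PK n M Pm 0 (lamP * K) := Real.exp_pos _
  have hlog : 0 < Real.log (nuK n K / (32 * muK n K)) := by
    apply Real.log_pos
    rw [one_lt_div (by positivity)]
    linarith
  obtain ⟨kp, hkp⟩ : ∃ kp, kp = kapK n M Pm B K := ⟨_, rfl⟩
  have hkp0 : 0 < kp := by
    rw [hkp]
    unfold kapK
    have q1 : 0 < (16 * PK n M Pm 0 (lamP * K)) ^ ((n - 1) / 2) :=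
      Real.rpow_pos_of_pos (by positivity) _
    have q2 : 0 < nuK n K ^ ((n - 1) / 2 - 1) := Real.rpow_pos_of_pos hν _
    positivity
  rw [← hkp] at hn4
  have hskp : 0 < Real.sqrt kp := Real.sqrt_pos.2 hkp0
  have i2 := int_mono_sub (t1 := t1) (t2 := t2) (t' := t0) (t'' := t') (C := Real.sqrt kp) hE0
    hskp.le hEi ht0.1 ht'.2
  rw [← hI] at i2
  have hP := F.P_evol J hDW hn hfin (b := b) (μ := 32 * muK n K) (ν := nuK n K) (B := B)
    (by positivity) (by linarith) LC (c := c') ⟨hn2.trans_le hcc', hc'm.2⟩ ht0.1 ht0' ht'.2 i2.1 (by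
      have hae := tail_ae (n := n) (g := g) (h3 := h3) F.D_open.measurableSet hfin
      have hsub : Ioc t0 t' ⊆ Ioc t1 t2 := Ioc_subset_Ioc ht0.1 ht'.2
      have hae' := ae_mono (Measure.restrict_mono hsub le_rfl) hae
      filter_upwards [hae', ae_restrict_mem measurableSet_Ioc] with τ g1 g2
      have hτ : τ ∈ Icc t1 t2 := ⟨(hsub g2).1.le, (hsub g2).2⟩
      have hA := hAT τ hτ g1
      have hfl := F.flux_b J hDW hn hn9 hA hμν WC hb (hzge τ ⟨g2.1.le, g2.2⟩)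
      have hEτ := hE0 τ
      obtain ⟨E, hEe⟩ : ∃ E, E = eV n x0 x1 D univ g h3 τ := ⟨_, rfl⟩
      rw [← hEe] at hfl hEτ
      have hPKE : PK n M Pm 0 (lamP * K) ≤ PK n M Pm E (lamP * K) := by
        rw [PK_split hEτ]
        have : 1 ≤ (1 + E) ^ ((1 : ℝ) / 4) := Real.one_le_rpow (by linarith) (by norm_num)
        nlinarith only [this, hPK0]
      have hPKE0 : 0 < PK n M Pm E (lamP * K) := Real.exp_pos _
      obtain ⟨q, hq⟩ : ∃ q, q = (n - 1) / 2 := ⟨_, rfl⟩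
      have hq1 : 1 ≤ q := by rw [hq]; linarith
      have hq4 : q ≤ 4 := by rw [hq]; linarith
      have hQ0 : 0 ≤ (16 * PK n M Pm E (lamP * K)) ^ q := Real.rpow_nonneg (by positivity) _
      have hPt := F.P_time hDW (b := b) (μ := 32 * muK n K) (ν := nuK n K) (B := B)
        (Q := (16 * PK n M Pm E (lamP * K)) ^ q) (q := q) (l := Real.sqrt kp) (by positivity)
        (by linarith) (by linarith) hQ0 hq1 hskp LC hτ hc'm g1 (fun x hx hsx hm1 hm2 => by
          have hx' : x ∈ Icc x0 x1 := ⟨hx.1, hx.2.trans hc'm.2⟩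
          have hgx : 0 < g (x, τ) := F.g_pos _ ((F.D_iff x hx' τ hτ).2 hsx)
          have hmb : 32 * muK n K ≤ mF x0 x1 t1 t2 g (x, τ) - b := by linarith
          have hmb0 : 0 < mF x0 x1 t1 t2 g (x, τ) - b := by linarith
          have hsq : g (x, τ) ^ 2 ≤ 16 * PK n M Pm E (lamP * K) *
              (mF x0 x1 t1 t2 g (x, τ) - b) := by
            have hlow : 16 * PK n M Pm 0 (lamP * K) * (32 * muK n K) ≤
                16 * PK n M Pm E (lamP * K) * (mF x0 x1 t1 t2 g (x, τ) - b) := by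
              apply mul_le_mul _ hmb (by positivity) (by positivity)
              linarith
            rcases hfl x hx hsx hm1 hm2 with h6 | h6 | h6
            · exact (pow_le_pow_left₀ hgx.le h6 2).trans (hn5.1.trans hlow)
            · exact (pow_le_pow_left₀ hgx.le h6 2).trans (hn5.2.trans hlow)
            · exact h6
          have e1 : g (x, τ) ^ (n - 1) = (g (x, τ) ^ 2) ^ q := by
            rw [← Real.rpow_natCast (g (x, τ)) 2, ← Real.rpow_mul hgx.le]
            congr 1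
            rw [hq]
            push_cast
            ring
          rw [e1, ← Real.mul_rpow (by positivity) hmb0.le]
          exact Real.rpow_le_rpow (sq_nonneg _) hsq (by linarith))
      rw [← hEe] at hPt
      rw [← hEe]
      refine hPt.trans ?_
      have hQ := PK_rpow (n := n) (M := M) (Pm := Pm) (κ := lamP * K) (y := 16) (p := q) hEτ
        (by norm_num) (by linarith) hq4
      have hν1 : 0 ≤ nuK n K ^ (q - 1) := Real.rpow_nonneg hν.le _
      have h7 : B ^ 2 * (16 * PK n M Pm E (lamP * K)) ^ q * nuK n K ^ (q - 1) /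
          Real.log (nuK n K / (32 * muK n K)) ≤ (1 + E) * kp := by
        have e2 : (1 + E) * kp = B ^ 2 * ((1 + E) * (16 * PK n M Pm 0 (lamP * K)) ^ q) *
            nuK n K ^ (q - 1) / Real.log (nuK n K / (32 * muK n K)) := by
          rw [hkp]
          unfold kapK
          rw [← hq]
          ring
        rw [e2]
        gcongr
      have h8 : 1 / (2 * Real.sqrt kp) * ((1 + E) * kp) = Real.sqrt kp / 2 * (1 + E) := by
        have e3 : kp = Real.sqrt kp * Real.sqrt kp := (Real.mul_self_sqrt hkp0.le).symm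
        rw [e3]
        rw [Real.sqrt_mul_self hskp.le]
        field_simp
      have h9 : 1 / (2 * Real.sqrt kp) * (B ^ 2 * (16 * PK n M Pm E (lamP * K)) ^ q *
          nuK n K ^ (q - 1) / Real.log (nuK n K / (32 * muK n K))) ≤
          1 / (2 * Real.sqrt kp) * ((1 + E) * kp) :=
        mul_le_mul_of_nonneg_left h7 (by positivity)
      rw [h8] at h9
      nlinarith only [h9, hskp])
  have hP' := hP.trans i2.2
  -- the positions
  have hx0c : x0 ≤ c' := hc'm.1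
  have p1 : ∫ x in x0..c', Ω (mF x0 x1 t1 t2 g (x, t0)) = 0 := by
    have : ∫ x in x0..c', Ω (mF x0 x1 t1 t2 g (x, t0)) = ∫ _x in x0..c', (0 : ℝ) := by
      apply intervalIntegral.integral_congr
      intro x hx
      rw [uIcc_of_le hx0c] at hx
      simp only
      apply (LC.lo _ _).1
      rw [← ht0e]
      exact F.mF_mono hx.1 hx.2
    rw [this, intervalIntegral.integral_zero]
  have cΩ : Continuous Ω := continuous_iff_continuousAt.2 fun x => (LC.d0 x).continuousAt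
  have cΩm : Continuous (fun x => Ω (mF x0 x1 t1 t2 g (x, t'))) :=
    cΩ.comp (F.mF_cont.comp (show Continuous fun x : ℝ => (x, t') by fun_prop))
  have p2 : c' - cc ≤ ∫ x in x0..c', Ω (mF x0 x1 t1 t2 g (x, t')) := by
    rw [← intervalIntegral.integral_add_adjacent_intervals (cΩm.intervalIntegrable x0 cc)
      (cΩm.intervalIntegrable cc c')]
    have e1 : 0 ≤ ∫ x in x0..cc, Ω (mF x0 x1 t1 t2 g (x, t')) :=
      intervalIntegral.integral_nonneg hccm.1 (fun x _ => (LC.range _).1)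
    have e2 : ∫ x in cc..c', Ω (mF x0 x1 t1 t2 g (x, t')) = ∫ _x in cc..c', (1 : ℝ) := by
      apply intervalIntegral.integral_congr
      intro x hx
      rw [uIcc_of_le hcc'] at hx
      simp only
      apply (LC.hi _ _).1
      exact hcon.le.trans (F.mF_mono hccm.1 hx.1)
    rw [e2, intervalIntegral.integral_const, smul_eq_mul, mul_one]
    linarith
  rw [p1] at hP'
  linarith

end Pool.Agent.Q81.TF
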