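import Pool.Agent.Q81.TF.Flank

open Set MeasureTheory Filter Topology

namespace Pool.Agent.Q81.TF

/-- the exponents -/
noncomputable def rhoP (n : ℝ) : ℝ := 441 / 1000 + 441 / 2000 * (n - 3)
noncomputable def lamP : ℝ := 21 / 20
noncomputable def rhoQ (n : ℝ) : ℝ := lamP * rhoP n
noncomputable def sigP (n : ℝ) : ℝ := (4 * n - 10) / 5

/-- the mass scales and the threshold -/
noncomputable def muK (n K : ℝ) : ℝ := Real.exp (-(rhoQ n * K))
noncomputable def nuK (n K : ℝ) : ℝ := Real.exp (-(rhoP n * K))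
noncomputable def SgK (n K : ℝ) : ℝ := Real.exp (sigP n * K)
noncomputable def thK (K : ℝ) : ℝ := Real.exp (-(lamP * K))

theorem nu_lam (n K : ℝ) : nuK n (lamP * K) = muK n K := by
  unfold nuK muK rhoQ
  congr 1
  ring

theorem muK_pos (n K : ℝ) : 0 < muK n K := Real.exp_pos _
theorem nuK_pos (n K : ℝ) : 0 < nuK n K := Real.exp_pos _
theorem SgK_pos (n K : ℝ) : 0 < SgK n K := Real.exp_pos _
theorem thK_pos (K : ℝ) : 0 < thK K := Real.exp_pos _

theorem depth_le {n v : ℝ} (hn : 3 ≤ n) (hv : 0 < v) (hv1 : v ≤ 1) :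
    1 + depth n v ≤ Real.exp ((n - 3) * Real.log v⁻¹) * (1 + Real.log v⁻¹) := by
  have hl : 0 ≤ Real.log v⁻¹ := Real.log_nonneg (by rw [one_le_inv₀ hv]; exact hv1)
  have e1 : Real.exp ((n - 3) * Real.log v⁻¹) = v ^ (3 - n) := by
    rw [Real.rpow_def_of_pos hv, Real.log_inv]
    congr 1
    ring
  rw [e1]
  have h1 : 1 ≤ v ^ (3 - n) := Real.one_le_rpow_of_pos_of_le_one_of_nonpos hv hv1 (by linarith)
  have h2 : depth n v ≤ v ^ (3 - n) * Real.log v⁻¹ := by
    unfold depth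
    have h3 : ∫ u in v..1, u ^ (2 - n) ≤ ∫ u in v..1, v ^ (3 - n) * u⁻¹ := by
      apply intervalIntegral.integral_mono_on hv1 (rpow_ii hv one_pos)
      · apply IntervalIntegrable.const_mul
        apply ContinuousOn.intervalIntegrable
        rw [uIcc_of_le hv1]
        exact continuousOn_id.inv₀ (fun x hx => (hv.trans_le hx.1).ne')
      · intro u hu
        have hu0 : 0 < u := hv.trans_le hu.1
        have e2 : u ^ (2 - n) = u ^ (3 - n) * u⁻¹ := by
          rw [← Real.rpow_neg_one u, ← Real.rpow_add hu0]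
          congr 1
          ring
        rw [e2]
        apply mul_le_mul_of_nonneg_right _ (by positivity)
        exact Real.rpow_le_rpow_of_nonpos hv hu.1 (by linarith)
    refine h3.trans (le_of_eq ?_)
    rw [intervalIntegral.integral_const_mul, integral_inv_of_pos hv one_pos, one_div]
  nlinarith only [h2, h1]

/-- the constant of the slopes -/
noncomputable def cA (n M Pm : ℝ) : ℝ := Real.log (1 + |Pm| ^ 5 + 8192 * (n + M))

theorem lam_le {n M E v : ℝ} (Pm : ℝ) (hn : 3 ≤ n) (hM : 1 ≤ M) (hE : 0 ≤ E) (hv : 0 < v)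
    (hv1 : v ≤ 1) :
    max (Pm ^ 5) (lam n M E v) ≤ Real.exp (cA n M Pm + Real.log (1 + E) +
      (n - 3) * Real.log v⁻¹ + Real.log (1 + Real.log v⁻¹)) := by
  have hl : 0 ≤ Real.log v⁻¹ := Real.log_nonneg (by rw [one_le_inv₀ hv]; exact hv1)
  have hP : 0 ≤ |Pm| ^ 5 := by positivity
  have hnM : 0 ≤ n + M := by linarith
  have e1 : Real.exp (cA n M Pm + Real.log (1 + E) +
      (n - 3) * Real.log v⁻¹ + Real.log (1 + Real.log v⁻¹)) =
      (1 + |Pm| ^ 5 + 8192 * (n + M)) * ((1 + E) * (Real.exp ((n - 3) * Real.log v⁻¹) *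
        (1 + Real.log v⁻¹))) := by
    unfold cA
    rw [Real.exp_add, Real.exp_add, Real.exp_add, Real.exp_log (by positivity),
      Real.exp_log (by positivity), Real.exp_log (by positivity)]
    ring
  rw [e1]
  have h1 := depth_le hn hv hv1
  have h2 : 1 ≤ Real.exp ((n - 3) * Real.log v⁻¹) :=
    Real.one_le_exp (mul_nonneg (by linarith) hl)
  obtain ⟨Y, hY⟩ : ∃ Y, Y = Real.exp ((n - 3) * Real.log v⁻¹) * (1 + Real.log v⁻¹) := ⟨_, rfl⟩
  rw [← hY] at h1 ⊢
  have hY1 : 1 ≤ Y := by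
    rw [hY]
    exact one_le_mul_of_one_le_of_one_le h2 (by linarith)
  apply max_le
  · have h3 : Pm ^ 5 ≤ |Pm| ^ 5 := by
      rw [← abs_pow]
      exact le_abs_self _
    have h4 : 1 ≤ (1 + E) * Y := one_le_mul_of_one_le_of_one_le (by linarith) hY1
    have h5 : (1 + |Pm| ^ 5 + 8192 * (n + M)) * 1 ≤ (1 + |Pm| ^ 5 + 8192 * (n + M)) *
      ((1 + E) * Y) := mul_le_mul_of_nonneg_left h4 (by positivity)
    linarith
  · unfold lam
    have h3 : E * ((n + M) * (1 + depth n v)) ≤ (1 + E) * ((n + M) * Y) := by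
      have h6 : 0 ≤ (n + M) * (1 + depth n v) := by
        have := depth_nonneg (n := n) hv hv1
        positivity
      apply mul_le_mul (by linarith) _ h6 (by linarith)
      exact mul_le_mul_of_nonneg_left h1 hnM
    have h4 : 0 ≤ (1 + |Pm| ^ 5) * ((1 + E) * Y) := by positivity
    nlinarith only [h4, h3]

/-- the height of a neck which is not an event -/
theorem conv1 {n M E v κ d : ℝ} (Pm : ℝ) (hn : 3 ≤ n) (hn9 : n ≤ 9) (hM : 1 ≤ M) (hE : 0 ≤ E)
    (hv : 0 < v) (hv1 : v ≤ 1) (hκ : 0 ≤ κ) (hd : 0 ≤ d)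
    (h1 : v ^ 5 ≤ max (Pm ^ 5) (lam n M E v) * d ^ 5)
    (h2 : ∀ w, 0 ≤ w → w ≤ d → 2 * v * w ≤ muK n κ → w * (2 * v) ^ (-(n - 8 / 5)) ≤ SgK n κ) :
    (4 * n - 10) * (Real.log v⁻¹ - κ) ≤ (cA n M Pm + 5 * n) + Real.log (1 + E) +
      Real.log (1 + Real.log v⁻¹) := by
  obtain ⟨l, hl⟩ : ∃ l, l = Real.log v⁻¹ := ⟨_, rfl⟩
  have hl0 : 0 ≤ l := by rw [hl]; exact Real.log_nonneg (by rw [one_le_inv₀ hv]; exact hv1)
  have hlv : Real.log v = -l := by rw [hl, Real.log_inv, neg_neg]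
  have hL := lam_le Pm hn hM hE hv hv1
  have hcA : 0 ≤ cA n M Pm := by
    unfold cA
    apply Real.log_nonneg
    have : 0 ≤ |Pm| ^ 5 := by positivity
    linarith
  have hX : 0 ≤ Real.log (1 + E) := Real.log_nonneg (by linarith)
  have hY : 0 ≤ Real.log (1 + l) := Real.log_nonneg (by linarith)
  rw [← hl] at hL ⊢
  have hlog2 := Real.log_two_lt_d9
  have hlog2' := Real.log_two_gt_d9
  have h2v : 0 < 2 * v := by linarith
  have e2v : (2 * v) ^ (-(n - 8 / 5)) = Real.exp ((n - 8 / 5) * (l - Real.log 2)) := by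
    rw [Real.rpow_def_of_pos h2v, Real.log_mul (by norm_num) hv.ne', hlv]
    congr 1
    ring
  rw [e2v] at h2
  rcases le_or_gt (2 * v * d) (muK n κ) with hc | hc
  · have h3 := h2 d hd le_rfl hc
    have h4 : (d * Real.exp ((n - 8 / 5) * (l - Real.log 2))) ^ 5 ≤ SgK n κ ^ 5 :=
      pow_le_pow_left₀ (by positivity) h3 5
    have hv5 : v ^ 5 = Real.exp (-(5 * l)) := by
      rw [← Real.exp_log hv, hlv, ← Real.exp_nat_mul]
      congr 1
      push_cast
      ring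
    have hS5 : SgK n κ ^ 5 = Real.exp (5 * (sigP n * κ)) := by
      unfold SgK
      rw [← Real.exp_nat_mul]
      congr 1
    have hq5 : Real.exp ((n - 8 / 5) * (l - Real.log 2)) ^ 5 =
        Real.exp (5 * ((n - 8 / 5) * (l - Real.log 2))) := by
      rw [← Real.exp_nat_mul]
      congr 1
    rw [mul_pow, hS5, hq5] at h4
    obtain ⟨Λ, hΛ⟩ : ∃ Λ, Λ = cA n M Pm + Real.log (1 + E) + (n - 3) * l + Real.log (1 + l) :=
      ⟨_, rfl⟩
    rw [← hΛ] at hL
    have h5 : Real.exp (-(5 * l)) * Real.exp (5 * ((n - 8 / 5) * (l - Real.log 2))) ≤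
        Real.exp Λ * Real.exp (5 * (sigP n * κ)) := by
      rw [← hv5]
      calc v ^ 5 * Real.exp (5 * ((n - 8 / 5) * (l - Real.log 2))) ≤
          (max (Pm ^ 5) (lam n M E v) * d ^ 5) *
            Real.exp (5 * ((n - 8 / 5) * (l - Real.log 2))) :=
            mul_le_mul_of_nonneg_right h1 (Real.exp_pos _).le
        _ ≤ (Real.exp Λ * d ^ 5) * Real.exp (5 * ((n - 8 / 5) * (l - Real.log 2))) := by
            gcongr
        _ = Real.exp Λ * (d ^ 5 * Real.exp (5 * ((n - 8 / 5) * (l - Real.log 2)))) := by ring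
        _ ≤ _ := mul_le_mul_of_nonneg_left h4 (Real.exp_pos _).le
    rw [← Real.exp_add, ← Real.exp_add, Real.exp_le_exp, hΛ] at h5
    unfold sigP at h5
    nlinarith only [h5, hlog2, hn]
  · -- a wide neck
    obtain ⟨w, hw⟩ : ∃ w, w = muK n κ / (2 * v) := ⟨_, rfl⟩
    have hw0 : 0 < w := by
      rw [hw]
      exact div_pos (muK_pos _ _) h2v
    have hwd : w ≤ d := by
      rw [hw, div_le_iff₀ h2v]
      linarith
    have h3 := h2 w hw0.le hwd (by rw [hw, mul_div_cancel₀ _ h2v.ne'])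
    have ew : w = Real.exp (-(rhoQ n * κ) + (l - Real.log 2)) := by
      rw [hw, Real.exp_add]
      unfold muK
      rw [div_eq_mul_inv]
      congr 1
      rw [Real.exp_sub, Real.exp_log (by norm_num), mul_inv, hl, Real.exp_log (by positivity)]
      field_simp
    rw [ew, ← Real.exp_add] at h3
    unfold SgK at h3
    rw [Real.exp_le_exp] at h3
    unfold sigP rhoQ rhoP lamP at h3
    -- `(n - 3/5) (l - log 2) ≤ (σ + ρ') κ ≤ (n - 3/5) κ`
    have h4 : (n - 3 / 5) * (l - Real.log 2) ≤ (n - 3 / 5) * κ := by nlinarith only [h3, hκ, hn9]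
    have h5 : l - Real.log 2 ≤ κ := le_of_mul_le_mul_left h4 (by linarith)
    nlinarith only [h5, hlog2, hY, hX, hcA, hn]

/-- the bound of the slopes -/
theorem conv2 {n M E l κ : ℝ} (Pm : ℝ) (hn : 3 ≤ n) (hn9 : n ≤ 9) (hM : 1 ≤ M) (hE : 0 ≤ E)
    (hl : 0 ≤ l) (hκ : 0 ≤ κ)
    (h : (4 * n - 10) * (l - κ) ≤ (cA n M Pm + 5 * n) + Real.log (1 + E) + Real.log (1 + l)) :
    cA n M Pm + Real.log (1 + E) + (n - 3) * l + Real.log (1 + l) ≤
      (3 * (cA n M Pm + 5 * n) + 8) + 5 / 4 * Real.log (1 + E) + 5 / 4 * Real.log (1 + κ) +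
        (n - 3) * κ ∧ l ≤ 2 * κ + (cA n M Pm + 5 * n) + Real.log (1 + E) := by
  obtain ⟨C0, hC0⟩ : ∃ C0, C0 = cA n M Pm + 5 * n := ⟨_, rfl⟩
  obtain ⟨X, hX⟩ : ∃ X, X = Real.log (1 + E) := ⟨_, rfl⟩
  obtain ⟨y, hy⟩ : ∃ y, y = Real.log (1 + l) := ⟨_, rfl⟩
  have hcA : 0 ≤ cA n M Pm := by
    unfold cA
    apply Real.log_nonneg
    have : 0 ≤ |Pm| ^ 5 := by positivity
    linarith
  have hX0 : 0 ≤ X := by rw [hX]; exact Real.log_nonneg (by linarith)
  have hy0 : 0 ≤ y := by rw [hy]; exact Real.log_nonneg (by linarith)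
  have hyl : y ≤ l := by
    rw [hy]
    have := Real.log_le_sub_one_of_pos (show 0 < 1 + l by linarith)
    linarith
  rw [← hC0, ← hX, ← hy] at h ⊢
  have hcC : cA n M Pm ≤ C0 := by rw [hC0]; linarith
  have hC00 : 15 ≤ C0 := by rw [hC0]; linarith
  have hl2 : l ≤ 2 * κ + C0 + X := by
    by_contra hcon
    push Not at hcon
    have h1 : 2 * (l - κ) ≤ (4 * n - 10) * (l - κ) := by
      apply mul_le_mul_of_nonneg_right (by linarith)
      linarith
    linarith
  refine ⟨?_, hl2⟩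
  have hy2 : y ≤ C0 + 5 + Real.log (1 + κ) + X / 65 := by
    have h1 : 1 + l ≤ Real.exp C0 * ((1 + κ) * (65 * Real.exp (X / 65))) := by
      have e1 : 1 + C0 ≤ Real.exp C0 := by
        have := Real.add_one_le_exp C0
        linarith
      have e2 : 65 + X ≤ 65 * Real.exp (X / 65) := by
        have := Real.add_one_le_exp (X / 65)
        linarith
      have e3 : 1 + l ≤ (1 + C0) * ((1 + κ) * (65 + X)) := by nlinarith only [hyl, hy0, hX0, hcA, h, hC0, hκ, hn, mul_nonneg hκ hX0]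
      refine e3.trans ?_
      have : 0 ≤ 1 + C0 := by linarith
      gcongr
    rw [hy]
    have h2 := Real.log_le_log (show 0 < 1 + l by linarith) h1
    rw [Real.log_mul (Real.exp_pos _).ne' (by positivity), Real.log_exp,
      Real.log_mul (by positivity) (by positivity), Real.log_mul (by norm_num) (Real.exp_pos _).ne',
      Real.log_exp] at h2
    have h3 : Real.log 65 ≤ 5 := by
      rw [Real.log_le_iff_le_exp (by norm_num)]
      have e1 := Real.add_one_le_exp (1 : ℝ)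
      have e2 : Real.exp 5 = Real.exp 1 ^ 5 := by
        rw [← Real.exp_nat_mul]
        norm_num
      have e3 : (27 / 10 : ℝ) ≤ Real.exp 1 := by
        have := Real.exp_one_gt_d9
        linarith
      rw [e2]
      calc (65 : ℝ) ≤ (27 / 10) ^ 5 := by norm_num
        _ ≤ Real.exp 1 ^ 5 := pow_le_pow_left₀ (by norm_num) e3 5
    linarith
  have hδ : (n - 3) * (l - κ) ≤ 3 / 13 * (C0 + X + y) := by
    rcases le_or_gt l κ with h1 | h1
    · have : (n - 3) * (l - κ) ≤ 0 :=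
        mul_nonpos_of_nonneg_of_nonpos (by linarith) (by linarith)
      have : 0 ≤ 3 / 13 * (C0 + X + y) := by positivity
      linarith
    · have h2 : (n - 3) * (l - κ) ≤ 3 / 13 * ((4 * n - 10) * (l - κ)) := by
        have : n - 3 ≤ 3 / 13 * (4 * n - 10) := by linarith
        nlinarith only [this, h1]
      linarith
  have hlk : 0 ≤ Real.log (1 + κ) := Real.log_nonneg (by linarith)
  nlinarith only [hlk, hδ, hy2, hC00, hcC, hX0]

/-- the bound of the slopes at the scale `κ` -/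
noncomputable def PK (n M Pm E κ : ℝ) : ℝ :=
  Real.exp ((3 * (cA n M Pm + 5 * n) + 8) + 1 / 4 * Real.log (1 + E) + 1 / 4 * Real.log (1 + κ) +
    (n - 3) / 5 * κ)

theorem PK_pow {n M Pm E κ σ : ℝ} (hn : 3 ≤ n) (hM : 1 ≤ M)
    (h : σ ^ 5 ≤ Real.exp ((3 * (cA n M Pm + 5 * n) + 8) + 5 / 4 * Real.log (1 + E) +
      5 / 4 * Real.log (1 + κ) + (n - 3) * κ)) : σ ≤ PK n M Pm E κ := by
  have hcA : 0 ≤ cA n M Pm := by
    unfold cA
    apply Real.log_nonneg
    have : 0 ≤ |Pm| ^ 5 := by positivity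
    linarith
  by_contra hcon
  push Not at hcon
  have h1 : PK n M Pm E κ ^ 5 < σ ^ 5 := pow_lt_pow_left₀ hcon (Real.exp_pos _).le (by norm_num)
  have h2 : PK n M Pm E κ ^ 5 = Real.exp (5 * ((3 * (cA n M Pm + 5 * n) + 8) +
      1 / 4 * Real.log (1 + E) + 1 / 4 * Real.log (1 + κ) + (n - 3) / 5 * κ)) := by
    unfold PK
    rw [← Real.exp_nat_mul]
    norm_num
  rw [h2] at h1
  have h3 := h1.trans_le h
  rw [Real.exp_lt_exp] at h3
  nlinarith only [h3, hcA, hn]

theorem PK_Pm {n M Pm E κ : ℝ} (hn : 3 ≤ n) (hM : 1 ≤ M) (hE : 0 ≤ E) (hκ : 0 ≤ κ) :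
    Pm ≤ PK n M Pm E κ := by
  apply PK_pow hn hM
  have h1 : Pm ^ 5 ≤ Real.exp (cA n M Pm) := by
    unfold cA
    have hP : 0 ≤ |Pm| ^ 5 := by positivity
    rw [Real.exp_log (by positivity)]
    have : Pm ^ 5 ≤ |Pm| ^ 5 := by
      rw [← abs_pow]
      exact le_abs_self _
    linarith
  refine h1.trans ?_
  rw [Real.exp_le_exp]
  have hcA : 0 ≤ cA n M Pm := by
    unfold cA
    apply Real.log_nonneg
    have : 0 ≤ |Pm| ^ 5 := by positivity
    linarith
  have h2 : 0 ≤ Real.log (1 + E) := Real.log_nonneg (by linarith)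
  have h3 : 0 ≤ Real.log (1 + κ) := Real.log_nonneg (by linarith)
  have h4 : 0 ≤ (n - 3) * κ := mul_nonneg (by linarith) hκ
  linarith

/-- slopes out of a neck which is not an event -/
theorem PK_neck {n M Pm E v κ σ : ℝ} (hn : 3 ≤ n) (hn9 : n ≤ 9) (hM : 1 ≤ M) (hE : 0 ≤ E)
    (hv : 0 < v) (hv1 : v ≤ 1) (hκ : 0 ≤ κ) (hσ : σ ^ 5 ≤ lam n M E v)
    (h : (4 * n - 10) * (Real.log v⁻¹ - κ) ≤ (cA n M Pm + 5 * n) + Real.log (1 + E) +
      Real.log (1 + Real.log v⁻¹)) : σ ≤ PK n M Pm E κ := by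
  apply PK_pow hn hM
  refine hσ.trans ((le_max_right (Pm ^ 5) _).trans ((lam_le Pm hn hM hE hv hv1).trans ?_))
  rw [Real.exp_le_exp]
  exact (conv2 Pm hn hn9 hM hE (Real.log_nonneg (by rw [one_le_inv₀ hv]; exact hv1)) hκ h).1

/-- slopes at the threshold of the height -/
theorem PK_th {n M Pm E K σ : ℝ} (hn : 3 ≤ n) (hn9 : n ≤ 9) (hM : 1 ≤ M) (hE : 0 ≤ E)
    (hK : 0 ≤ K) (hσ : σ ^ 5 ≤ lam n M E (thK K / 2)) : σ ≤ PK n M Pm E (lamP * K) := by
  have hκ : 0 ≤ lamP * K := by unfold lamP; positivity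
  have hth : thK K ≤ 1 := by
    unfold thK
    rw [Real.exp_le_one_iff]
    linarith
  have hthp := thK_pos K
  have hv1 : thK K / 2 ≤ 1 := by linarith
  have hv : 0 < thK K / 2 := by positivity
  have hlog : Real.log (thK K / 2)⁻¹ = lamP * K + Real.log 2 := by
    rw [Real.log_inv, Real.log_div hthp.ne' (by norm_num)]
    unfold thK
    rw [Real.log_exp]
    ring
  have hlog2 := Real.log_two_lt_d9
  have hlog2' := Real.log_two_gt_d9
  apply PK_neck hn hn9 hM hE hv hv1 hκ hσ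
  rw [hlog]
  have hcA : 0 ≤ cA n M Pm := by
    unfold cA
    apply Real.log_nonneg
    have : 0 ≤ |Pm| ^ 5 := by positivity
    linarith
  have h2 : 0 ≤ Real.log (1 + E) := Real.log_nonneg (by linarith)
  have h3 : 0 ≤ Real.log (1 + (lamP * K + Real.log 2)) := Real.log_nonneg (by linarith)
  nlinarith only [h3, h2, hcA, hlog2, hn]

theorem PK_decay {n M Pm E κ κ0 : ℝ} (hn : 3 ≤ n) (hκ0 : 0 ≤ κ0) (hκ : κ0 ≤ κ) :
    PK n M Pm E κ * nuK n κ ≤ PK n M Pm E κ0 * nuK n κ0 := by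
  unfold PK nuK rhoP
  rw [← Real.exp_add, ← Real.exp_add, Real.exp_le_exp]
  have h1 : Real.log (1 + κ) ≤ Real.log (1 + κ0) + (κ - κ0) := by
    have e1 : 1 + κ ≤ (1 + κ0) * Real.exp (κ - κ0) := by
      have := Real.add_one_le_exp (κ - κ0)
      nlinarith only [this, hκ0, mul_nonneg hκ0 (sub_nonneg.2 hκ)]
    have e2 := Real.log_le_log (show 0 < 1 + κ by linarith) e1
    rw [Real.log_mul (by linarith) (Real.exp_pos _).ne', Real.log_exp] at e2
    exact e2
  nlinarith only [h1, hκ, hn]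

theorem PK_one {n M Pm E κ : ℝ} (hn : 3 ≤ n) (hM : 1 ≤ M) (hE : 0 ≤ E) (hκ : 0 ≤ κ) :
    1 ≤ PK n M Pm E κ := by
  unfold PK
  apply Real.one_le_exp
  have hcA : 0 ≤ cA n M Pm := by
    unfold cA
    apply Real.log_nonneg
    have : 0 ≤ |Pm| ^ 5 := by positivity
    linarith
  have h2 : 0 ≤ Real.log (1 + E) := Real.log_nonneg (by linarith)
  have h3 : 0 ≤ Real.log (1 + κ) := Real.log_nonneg (by linarith)
  have h4 : 0 ≤ (n - 3) / 5 * κ := mul_nonneg (by linarith) hκ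
  linarith

end Pool.Agent.Q81.TF
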