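import Pool.Agent.Q81.TF.Tail

open Set MeasureTheory Filter Topology

namespace Pool.Agent.Q81.TF

variable {n x0 x1 t1 t2 : ℝ} {W D : Set (ℝ × ℝ)} {s : ℝ → ℝ} {g h1 h3 ht : ℝ × ℝ → ℝ}

theorem Flow.mF_pos (F : Flow n x0 x1 t1 t2 W D s g h1 h3 ht) {x t : ℝ} (hx : x ∈ Icc x0 x1)
    (htm : t ∈ Icc t1 t2) (hst : s t < x) : 0 < mF x0 x1 t1 t2 g (x, t) := by
  have cG : Continuous (fun z => g (cl x0 x1 t1 t2 z)) := F.clCont F.g_cont
  have cg : Continuous (fun x => g (cl x0 x1 t1 t2 (x, t))) :=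
    cG.comp (show Continuous fun y : ℝ => (y, t) by fun_prop)
  have h1 : 0 < ∫ y in (s t)..x, g (cl x0 x1 t1 t2 (y, t)) := by
    apply intervalIntegral.intervalIntegral_pos_of_pos_on (cg.intervalIntegrable _ _) _ hst
    intro y hy
    have hy' : y ∈ Icc x0 x1 := ⟨(F.s_mem t htm).1.le.trans hy.1.le, hy.2.le.trans hx.2⟩
    rw [cl_eq hy' htm]
    exact F.g_pos _ ((F.D_iff y hy' t htm).2 hy.1)
  have h2 : 0 ≤ ∫ y in x0..(s t), g (cl x0 x1 t1 t2 (y, t)) :=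
    intervalIntegral.integral_nonneg (F.s_mem t htm).1.le (fun y _ => F.g_nonneg (F.cl_mem _))
  unfold mF prim
  simp only
  rw [← intervalIntegral.integral_add_adjacent_intervals (cg.intervalIntegrable x0 (s t))
    (cg.intervalIntegrable (s t) x)]
  linarith

theorem Flow.criterion (F : Flow n x0 x1 t1 t2 W D s g h1 h3 ht) (hDW : D ⊆ W)
    (hfin : IntegrableOn (Fd n g h3) (D ∩ Ioc x0 x1 ×ˢ Ioc t1 t2)) {K : ℝ → ℝ}
    (hK0 : ∀ τ, 0 ≤ K τ) (hKi : IntegrableOn K (Ioc t1 t2))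
    (hA2 : ∀ᵐ τ ∂(volume.restrict (Ioc t1 t2)), ∀ x ∈ Icc x0 x1, s τ < x →
      g (x, τ) ^ (n - 1) ≤ K τ *
        ((1 + |Real.log (mF x0 x1 t1 t2 g (x, τ))|) * mF x0 x1 t1 t2 g (x, τ)))
    (hA1 : ∀ B, 1 ≤ B → ∀ θ > 0, ∃ ε0 > 0, ∀ ε, 0 < ε → ε < ε0 → ∀ Fc φ1 φ2 : ℝ → ℝ,
      HCut B ε Fc φ1 φ2 → ∀ᵐ τ ∂(volume.restrict (Ioc t1 t2)),
        ∫ x in x0..x1, φ2 (g (cl x0 x1 t1 t2 (x, τ))) ^ 2 *
          (g (cl x0 x1 t1 t2 (x, τ)) ^ n * h1 (cl x0 x1 t1 t2 (x, τ)) ^ 2) ≤ θ * K τ) :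
    s t1 = s t2 := by
  by_contra hne
  have hd : 0 < |s t1 - s t2| := abs_pos.2 (sub_ne_zero.2 hne)
  have ht1 : t1 ∈ Icc t1 t2 := ⟨le_rfl, F.htt.le⟩
  have ht2 : t2 ∈ Icc t1 t2 := ⟨F.htt.le, le_rfl⟩
  have hs1 := F.s_mem t1 ht1
  have hs2 := F.s_mem t2 ht2
  have hD : MeasurableSet D := F.D_open.measurableSet
  have hL : 0 < x1 - x0 := by linarith [F.hx]
  obtain ⟨B, hB, hH, hM⟩ := exists_cuts
  obtain ⟨KI, hKI⟩ : ∃ KI, KI = ∫ τ in Ioc t1 t2, K τ := ⟨_, rfl⟩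
  have hKI0 : 0 ≤ KI := by
    rw [hKI]
    exact setIntegral_nonneg measurableSet_Ioc (fun τ _ => hK0 τ)
  -- the small parameter
  obtain ⟨θ, hθ, hθ1⟩ : ∃ θ, 0 < θ ∧ θ < min (|s t1 - s t2| / 5) (min (x1 - s t1) (x1 - s t2)) :=
    exists_between (lt_min (by positivity) (lt_min (by linarith) (by linarith)))
  have hθd : θ < |s t1 - s t2| / 5 := hθ1.trans_le (min_le_left _ _)
  have hθs1 : θ < x1 - s t1 := hθ1.trans_le ((min_le_right _ _).trans (min_le_left _ _))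
  have hθs2 : θ < x1 - s t2 := hθ1.trans_le ((min_le_right _ _).trans (min_le_right _ _))
  obtain ⟨l, hl⟩ : ∃ l, l = 24 * B ^ 4 * (KI + 1) / θ := ⟨_, rfl⟩
  have hl0 : 0 < l := by rw [hl]; positivity
  have hlθ : 24 * B ^ 4 / l * KI ≤ θ := by
    have h1 : 24 * B ^ 4 / l = θ / (KI + 1) := by
      rw [hl]
      field_simp
    rw [h1, div_mul_eq_mul_div, div_le_iff₀ (by linarith)]
    nlinarith only [hθ]
  -- bound of the total mass
  obtain ⟨M0, hM0⟩ := (isCompact_Icc (a := t1) (b := t2)).exists_bound_of_continuousOn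
    ((F.mF_cont.comp (show Continuous fun τ : ℝ => (x1, τ) by fun_prop)).continuousOn)
  obtain ⟨M1, hM1⟩ : ∃ M1, M1 = max M0 1 := ⟨_, rfl⟩
  have hM11 : 1 ≤ M1 := by rw [hM1]; exact le_max_right _ _
  have hM1b : ∀ τ ∈ Icc t1 t2, mF x0 x1 t1 t2 g (x1, τ) ≤ M1 := by
    intro τ hτ
    have h1 := hM0 τ hτ
    rw [Real.norm_eq_abs] at h1
    rw [hM1]
    exact (le_abs_self _).trans (h1.trans (le_max_left _ _))
  have hFd : ∀ z ∈ D, 0 ≤ Fd n g h3 z := fun z hz =>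
    mul_nonneg (Real.rpow_nonneg (F.g_pos z hz).le _) (sq_nonneg _)
  have hstrip : ∀ z ∈ D ∩ Ioc x0 x1 ×ˢ Ioc t1 t2, z.1 ∈ Icc x0 x1 ∧ z.2 ∈ Icc t1 t2 ∧
      s z.2 < z.1 := by
    rintro ⟨x, t⟩ ⟨h1, h2, h3⟩
    have e1 : x ∈ Icc x0 x1 := ⟨h2.1.le, h2.2⟩
    have e2 : t ∈ Icc t1 t2 := ⟨h3.1.le, h3.2⟩
    exact ⟨e1, e2, (F.D_iff x e1 t e2).1 h1⟩
  -- first smallness
  obtain ⟨a1, ha1, ha1'⟩ := tail_small hD hFd hfin F.mF_cont (fun z hz => by
    obtain ⟨e1, e2, e3⟩ := hstrip z hz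
    exact F.mF_pos (x := z.1) (t := z.2) e1 e2 e3) (show 0 < 2 * θ / l by positivity)
  have hp1 : 0 < mF x0 x1 t1 t2 g (s t1 + θ, t1) :=
    F.mF_pos ⟨by linarith, by linarith⟩ ht1 (by linarith)
  have hp2 : 0 < mF x0 x1 t1 t2 g (s t2 + θ, t2) :=
    F.mF_pos ⟨by linarith, by linarith⟩ ht2 (by linarith)
  obtain ⟨m0, hm0, hm0'⟩ : ∃ m0, 0 < m0 ∧ m0 < min (min (a1 / 2) (Real.exp (-1)))
      (min (1 / M1) (min (1 / 2) (min (mF x0 x1 t1 t2 g (s t1 + θ, t1) / 2)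
        (mF x0 x1 t1 t2 g (s t2 + θ, t2) / 2)))) := by
    apply exists_between
    refine lt_min (lt_min (by linarith) (Real.exp_pos _)) (lt_min (by positivity)
      (lt_min (by norm_num) (lt_min (by linarith) (by linarith))))
  have q1 : m0 < a1 / 2 := hm0'.trans_le ((min_le_left _ _).trans (min_le_left _ _))
  have q2 : m0 < Real.exp (-1) := hm0'.trans_le ((min_le_left _ _).trans (min_le_right _ _))
  have q3 : m0 < 1 / M1 := hm0'.trans_le ((min_le_right _ _).trans (min_le_left _ _))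
  have q4 : m0 < 1 / 2 := hm0'.trans_le ((min_le_right _ _).trans ((min_le_right _ _).trans
    (min_le_left _ _)))
  have q5 : m0 < mF x0 x1 t1 t2 g (s t1 + θ, t1) / 2 := hm0'.trans_le ((min_le_right _ _).trans
    ((min_le_right _ _).trans ((min_le_right _ _).trans (min_le_left _ _))))
  have q6 : m0 < mF x0 x1 t1 t2 g (s t2 + θ, t2) / 2 := hm0'.trans_le ((min_le_right _ _).trans
    ((min_le_right _ _).trans ((min_le_right _ _).trans (min_le_right _ _))))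
  obtain ⟨Λ, hΛ⟩ : ∃ Λ, Λ = -Real.log m0 := ⟨_, rfl⟩
  have hΛ1 : 1 ≤ Λ := by
    have := Real.log_lt_log hm0 q2
    rw [Real.log_exp] at this
    linarith
  have hΛM : Real.log M1 ≤ Λ := by
    have := Real.log_lt_log hm0 q3
    rw [Real.log_div one_ne_zero (by linarith), Real.log_one] at this
    linarith
  obtain ⟨μ, hμ⟩ : ∃ μ, μ = m0 ^ 2 := ⟨_, rfl⟩
  have hμ0 : 0 < μ := by rw [hμ]; positivity
  have hμm : μ < m0 := by rw [hμ]; nlinarith only [q4, hm0]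
  have hlogμ : Real.log μ = -(2 * Λ) := by
    rw [hμ, Real.log_pow, hΛ]
    push_cast
    ring
  have hlogr : Real.log (m0 / μ) = Λ := by
    rw [Real.log_div hm0.ne' hμ0.ne', hlogμ]
    linarith
  have hlogM : Real.log (M1 / μ) ≤ 3 * Λ := by
    rw [Real.log_div (by linarith) hμ0.ne', hlogμ]
    linarith
  obtain ⟨Ω, ω, MC⟩ := hM μ m0 hμ0 hμm
  obtain ⟨C2, hC2⟩ : ∃ C2, C2 = B / (Λ * μ) * (x1 - x0) := ⟨_, rfl⟩
  have hC20 : 0 < C2 := by rw [hC2]; positivity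
  -- second smallness
  have hgc : Continuous (fun z => g (cl x0 x1 t1 t2 z)) := F.clCont F.g_cont
  obtain ⟨a2, ha2, ha2'⟩ := tail_small hD hFd hfin hgc (fun z hz => by
    obtain ⟨e1, e2, e3⟩ := hstrip z hz
    rw [show z = (z.1, z.2) from rfl, cl_eq e1 e2]
    exact F.g_pos _ hz.1) (show 0 < θ / C2 by positivity)
  obtain ⟨ε0, hε0, hε0'⟩ := hA1 B hB (θ / (C2 * (KI + 1))) (by positivity)
  obtain ⟨ε, hε, hε'⟩ : ∃ ε, 0 < ε ∧ ε < min ε0 (min (a2 / 2) (μ / (2 * (x1 - x0)))) :=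
    exists_between (lt_min hε0 (lt_min (by linarith) (by positivity)))
  have r1 : ε < ε0 := hε'.trans_le (min_le_left _ _)
  have r2 : ε < a2 / 2 := hε'.trans_le ((min_le_right _ _).trans (min_le_left _ _))
  have r3 : ε < μ / (2 * (x1 - x0)) := hε'.trans_le ((min_le_right _ _).trans (min_le_right _ _))
  have hεμ : 2 * ε * (x1 - x0) ≤ μ := by
    rw [lt_div_iff₀ (by positivity)] at r3
    linarith
  obtain ⟨Fc, φ1, φ2, H⟩ := hH ε hε
  have hA1' := hε0' ε hε r1 Fc φ1 φ2 H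
  -- the integral inequality
  have hV1 : MeasurableSet {z : ℝ × ℝ | mF x0 x1 t1 t2 g z < 2 * m0} :=
    (isOpen_lt F.mF_cont continuous_const).measurableSet
  have hV2 : MeasurableSet {z : ℝ × ℝ | g (cl x0 x1 t1 t2 z) < 2 * ε} :=
    (isOpen_lt hgc continuous_const).measurableSet
  have j1 := tail_integrable hD hV1 hfin
  have j2 := tail_integrable hD hV2 hfin
  have k1 := ha1' (2 * m0) (by linarith)
  have k2 := ha2' (2 * ε) (by linarith)
  obtain ⟨e1, he1⟩ : ∃ e1, e1 = eV n x0 x1 D {z | mF x0 x1 t1 t2 g z < 2 * m0} g h3 := ⟨_, rfl⟩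
  obtain ⟨e2, he2⟩ : ∃ e2, e2 = eV n x0 x1 D {z | g (cl x0 x1 t1 t2 z) < 2 * ε} g h3 := ⟨_, rfl⟩
  rw [← he1] at j1 k1
  rw [← he2] at j2 k2
  have cw := F.wE_cont hDW hε H MC
  have c3 : Continuous (fun τ => ∫ x in x0..x1, |wE n x0 x1 t1 t2 Fc φ1 φ2 ω g h1 h3 (x, τ)|) := by
    apply intervalIntegral.continuous_parametric_intervalIntegral_of_continuous'
      (f := fun τ x => |wE n x0 x1 t1 t2 Fc φ1 φ2 ω g h1 h3 (x, τ)|)
    exact (cw.abs).comp (by fun_prop)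
  have hpt : ∀ᵐ τ ∂(volume.restrict (Ioc t1 t2)),
      ∫ x in x0..x1, |wE n x0 x1 t1 t2 Fc φ1 φ2 ω g h1 h3 (x, τ)| ≤
        l / 2 * e1 τ + 24 * B ^ 4 / l * K τ + (C2 / 2 * e2 τ + θ / (2 * (KI + 1)) * K τ) := by
    filter_upwards [tail_ae hD hfin, hA2, hA1', ae_restrict_mem measurableSet_Ioc] with τ g1 g2 g3 g4
    have hτ : τ ∈ Icc t1 t2 := ⟨g4.1.le, g4.2⟩
    have h1 := F.per_time hDW hε H MC hμ0 hμm (by linarith) (by linarith) hεμ hτ hl0 (hK0 τ) g1 g2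
      g3 (hM1b τ hτ) (by linarith)
    rw [hlogr, ← he1, ← he2] at h1
    refine h1.trans ?_
    have h2 : 1 / (2 * l) * ((2 * B * B / Λ) ^ 2 * (K τ * (1 - Real.log μ)) *
        (1 + Real.log (M1 / μ))) ≤ 24 * B ^ 4 / l * K τ := by
      have h3 : (1 - Real.log μ) * (1 + Real.log (M1 / μ)) ≤ (3 * Λ) * (4 * Λ) := by
        apply mul_le_mul
        · rw [hlogμ]; linarith
        · linarith
        · have : 0 ≤ Real.log (M1 / μ) := by
            apply Real.log_nonneg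
            rw [one_le_div hμ0]
            linarith
          linarith
        · linarith
      calc 1 / (2 * l) * ((2 * B * B / Λ) ^ 2 * (K τ * (1 - Real.log μ)) *
          (1 + Real.log (M1 / μ))) = (2 * B ^ 4 / (l * Λ ^ 2) * K τ) *
            ((1 - Real.log μ) * (1 + Real.log (M1 / μ))) := by
            field_simp
        _ ≤ (2 * B ^ 4 / (l * Λ ^ 2) * K τ) * ((3 * Λ) * (4 * Λ)) := by
            apply mul_le_mul_of_nonneg_left h3
            have := hK0 τ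
            positivity
        _ = 24 * B ^ 4 / l * K τ := by
            field_simp
            ring
    have h4 : B / (Λ * μ) * ((x1 - x0) * (1 / 2 * e2 τ +
        1 / 2 * (θ / (C2 * (KI + 1)) * K τ))) = C2 / 2 * e2 τ + θ / (2 * (KI + 1)) * K τ := by
      have h5 : B / (Λ * μ) * ((x1 - x0) * (1 / 2 * e2 τ +
        1 / 2 * (θ / (C2 * (KI + 1)) * K τ))) = C2 * (1 / 2 * e2 τ +
        1 / 2 * (θ / (C2 * (KI + 1)) * K τ)) := by
        rw [hC2]
        ring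
      rw [h5]
      field_simp
    linarith
  have hJ := F.J_diff hDW hε H MC
  have hint : ∫ τ in t1..t2, ∫ x in x0..x1, |wE n x0 x1 t1 t2 Fc φ1 φ2 ω g h1 h3 (x, τ)| ≤
      3 * θ := by
    rw [intervalIntegral.integral_of_le F.htt.le]
    have i1 : IntegrableOn (fun τ => l / 2 * e1 τ) (Ioc t1 t2) := j1.const_mul _
    have i2 : IntegrableOn (fun τ => 24 * B ^ 4 / l * K τ) (Ioc t1 t2) := hKi.const_mul _
    have i3 : IntegrableOn (fun τ => C2 / 2 * e2 τ) (Ioc t1 t2) := j2.const_mul _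
    have i4 : IntegrableOn (fun τ => θ / (2 * (KI + 1)) * K τ) (Ioc t1 t2) := hKi.const_mul _
    have i5 : IntegrableOn (fun τ => l / 2 * e1 τ + 24 * B ^ 4 / l * K τ) (Ioc t1 t2) := i1.add i2
    have i6 : IntegrableOn (fun τ => C2 / 2 * e2 τ + θ / (2 * (KI + 1)) * K τ) (Ioc t1 t2) :=
      i3.add i4
    have i7 : IntegrableOn (fun τ => l / 2 * e1 τ + 24 * B ^ 4 / l * K τ +
      (C2 / 2 * e2 τ + θ / (2 * (KI + 1)) * K τ)) (Ioc t1 t2) := i5.add i6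
    refine (integral_mono_ae c3.integrableOn_Ioc i7 hpt).trans ?_
    rw [integral_add i5 i6, integral_add i1 i2, integral_add i3 i4, integral_const_mul,
      integral_const_mul, integral_const_mul, integral_const_mul, ← hKI]
    have u1 : l / 2 * ∫ τ in Ioc t1 t2, e1 τ ≤ θ := by
      have := mul_le_mul_of_nonneg_left k1 (show 0 ≤ l / 2 by positivity)
      have e : l / 2 * (2 * θ / l) = θ := by field_simp
      linarith
    have u2 : C2 / 2 * ∫ τ in Ioc t1 t2, e2 τ ≤ θ / 2 := by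
      have := mul_le_mul_of_nonneg_left k2 (show 0 ≤ C2 / 2 by positivity)
      have e : C2 / 2 * (θ / C2) = θ / 2 := by field_simp
      linarith
    have u3 : θ / (2 * (KI + 1)) * KI ≤ θ / 2 := by
      rw [div_mul_eq_mul_div, div_le_div_iff₀ (by positivity) (by norm_num)]
      nlinarith only [hθ]
    linarith
  have n1 := F.J_near hε H MC hμ0 hεμ ht1 hθ (by linarith) (by linarith)
  have n2 := F.J_near hε H MC hμ0 hεμ ht2 hθ (by linarith) (by linarith)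
  have hfinal := hJ.trans hint
  rw [abs_le] at hfinal
  have hlast : |s t1 - s t2| ≤ 4 * θ := by
    rw [abs_le]
    constructor <;> linarith [n1.1, n1.2, n2.1, n2.2, hfinal.1, hfinal.2]
  linarith

end Pool.Agent.Q81.TF
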