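import Pool.Agent.Q81.TF.Small

open Set MeasureTheory Filter Topology

namespace Pool.Agent.Q81.TF

variable {n x0 x1 t1 t2 : ℝ} {W D : Set (ℝ × ℝ)} {s : ℝ → ℝ} {g h1 h2 h3 ht : ℝ × ℝ → ℝ}

theorem Flow.P_tail (F : Flow n x0 x1 t1 t2 W D s g h1 h3 ht)
    (hDW : D ⊆ W) {b μ ν B Q q l : ℝ} (hμ : 0 < μ) (hμν : μ < ν) (hb : 0 ≤ b)
    (hQ : 0 ≤ Q) (hq : 1 ≤ q) (hl : 0 < l) {V : Set (ℝ × ℝ)} (hVm : MeasurableSet V)
    {Ω ω : ℝ → ℝ} (LC : LCut B b μ ν Ω ω) {τ c : ℝ} (hτ : τ ∈ Icc t1 t2) (hc : c ∈ Icc x0 x1)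
    (hint : IntegrableOn (fun x => D.indicator (Fd n g h3) (x, τ)) (Ioc x0 x1))
    (hg : ∀ x ∈ Icc x0 c, s τ < x → b + μ ≤ mF x0 x1 t1 t2 g (x, τ) →
      mF x0 x1 t1 t2 g (x, τ) ≤ b + ν →
      g (x, τ) ^ (n - 1) ≤ Q * (mF x0 x1 t1 t2 g (x, τ) - b) ^ q)
    (hV : ∀ z, mF x0 x1 t1 t2 g z ≤ b + ν → z ∈ V) :
    ∫ x in x0..c, |ω (mF x0 x1 t1 t2 g (x, τ)) * Jx n g h3 (x, τ)| ≤
      l / 2 * eV n x0 x1 D V g h3 τ +
        1 / (2 * l) * (B ^ 2 * Q * ν ^ (q - 1) / Real.log (ν / μ)) := by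
  have hst := F.s_mem τ hτ
  have hx1m : x1 ∈ Icc x0 x1 := ⟨F.hx.le, le_rfl⟩
  have hx0m : x0 ∈ Icc x0 x1 := ⟨le_rfl, F.hx.le⟩
  have hFd : ∀ z ∈ D, 0 ≤ Fd n g h3 z := fun z hz =>
    mul_nonneg (Real.rpow_nonneg (F.g_pos z hz).le _) (sq_nonneg _)
  have hE0 := eV_nonneg (n := n) (x0 := x0) (x1 := x1) hFd V τ
  have hν0 : 0 < ν := hμ.trans hμν
  have hΛ : 0 < Real.log (ν / μ) := Real.log_pos ((one_lt_div hμ).2 hμν)
  have hν1 : 0 ≤ ν ^ (q - 1) := Real.rpow_nonneg hν0.le _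
  have hrhs : 0 ≤ 1 / (2 * l) * (B ^ 2 * Q * ν ^ (q - 1) / Real.log (ν / μ)) := by positivity
  have hcu := F.labCut (u := Jx n g h3) (show 0 < b + μ by linarith) LC.c1
    (fun v hv => (LC.lo v hv).2) (F.powCont hDW)
  have hca : ContinuousOn (fun x => |ω (mF x0 x1 t1 t2 g (x, τ)) * Jx n g h3 (x, τ)|)
      (Icc x0 x1) := (slice_c hcu hτ).abs
  have hi : ∀ p q, p ∈ Icc x0 x1 → q ∈ Icc x0 x1 →
      IntervalIntegrable (fun x => |ω (mF x0 x1 t1 t2 g (x, τ)) * Jx n g h3 (x, τ)|)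
        volume p q := by
    intro p q hp hq
    apply ContinuousOn.intervalIntegrable
    exact hca.mono (uIcc_subset_Icc hp hq)
  rcases lt_or_ge (mF x0 x1 t1 t2 g (c, τ)) (b + μ) with hlt | hge
  · have z1 : ∫ x in x0..c, |ω (mF x0 x1 t1 t2 g (x, τ)) * Jx n g h3 (x, τ)| =
        ∫ _x in x0..c, (0 : ℝ) := by
      apply intervalIntegral.integral_congr
      intro x hx
      rw [uIcc_of_le hc.1] at hx
      have h := F.mF_mono (τ := τ) hx.1 hx.2
      simp only [(LC.lo _ (h.trans hlt.le)).2, zero_mul, abs_zero]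
    rw [z1, intervalIntegral.integral_zero]
    positivity
  obtain ⟨u2, hu2, hm2, hout⟩ : ∃ u2 ∈ Ioc (s τ) c, (mF x0 x1 t1 t2 g (u2, τ) ≤ b + ν ∧
      b + μ ≤ mF x0 x1 t1 t2 g (u2, τ)) ∧
      ∀ x ∈ Icc u2 c, x ≠ u2 → ω (mF x0 x1 t1 t2 g (x, τ)) = 0 := by
    rcases le_total (b + ν) (mF x0 x1 t1 t2 g (c, τ)) with h | h
    · obtain ⟨u2, hu2, hm2⟩ := F.label_ex hτ hc (show 0 < b + ν by linarith) h
      refine ⟨u2, hu2, ⟨hm2.le, by rw [hm2]; linarith⟩, fun x hx _ => ?_⟩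
      apply (LC.hi _ _).2
      rw [← hm2]
      exact F.mF_mono (hst.1.le.trans hu2.1.le) hx.1
    · obtain ⟨u2, hu2, hm2⟩ := F.label_ex hτ hc (show 0 < b + μ by linarith) hge
      refine ⟨c, ⟨hu2.1.trans_le hu2.2, le_rfl⟩, ⟨h, hge⟩, fun x hx hne => ?_⟩
      exact absurd (le_antisymm hx.2 hx.1) hne
  have hu2m : u2 ∈ Icc x0 x1 := ⟨hst.1.le.trans hu2.1.le, hu2.2.trans hc.2⟩
  obtain ⟨u1, hu1, hm1⟩ := F.label_ex hτ hu2m (show 0 < b + μ by linarith) hm2.2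
  have hu1m : u1 ∈ Icc x0 x1 := ⟨hst.1.le.trans hu1.1.le, hu1.2.trans hu2m.2⟩
  rw [← intervalIntegral.integral_add_adjacent_intervals (hi x0 u1 hx0m hu1m)
    (hi u1 c hu1m hc), ← intervalIntegral.integral_add_adjacent_intervals (hi u1 u2 hu1m hu2m)
    (hi u2 c hu2m hc)]
  have z1 : ∫ x in x0..u1, |ω (mF x0 x1 t1 t2 g (x, τ)) * Jx n g h3 (x, τ)| =
      ∫ _x in x0..u1, (0 : ℝ) := by
    apply intervalIntegral.integral_congr
    intro x hx
    rw [uIcc_of_le hu1m.1] at hx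
    have h := F.mF_mono (τ := τ) hx.1 hx.2
    rw [hm1] at h
    simp only [(LC.lo _ h).2, zero_mul, abs_zero]
  have z2 : ∫ x in u2..c, |ω (mF x0 x1 t1 t2 g (x, τ)) * Jx n g h3 (x, τ)| = 0 := by
    rw [intervalIntegral.integral_of_le hu2.2]
    have : ∀ x ∈ Ioc u2 c, |ω (mF x0 x1 t1 t2 g (x, τ)) * Jx n g h3 (x, τ)| = 0 := by
      intro x hx
      rw [hout x ⟨hx.1.le, hx.2⟩ hx.1.ne', zero_mul, abs_zero]
    rw [setIntegral_congr_fun measurableSet_Ioc this]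
    simp
  rw [z1, z2, intervalIntegral.integral_zero, zero_add, add_zero]
  have hD := F.slD hτ hu1.1 hu2m.2
  have hsl : ∀ {u : ℝ × ℝ → ℝ}, ContinuousOn u D → ContinuousOn (fun y => u (y, τ)) (Icc u1 u2) :=
    fun hu => hu.comp (show Continuous fun y : ℝ => (y, τ) by fun_prop).continuousOn
      (fun y hy => hD y hy)
  have hmm : ∀ x ∈ Icc u1 u2, mF x0 x1 t1 t2 g (u1, τ) ≤ mF x0 x1 t1 t2 g (x, τ) ∧
      mF x0 x1 t1 t2 g (x, τ) ≤ mF x0 x1 t1 t2 g (u2, τ) := fun x hx =>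
    ⟨F.mF_mono (τ := τ) hu1m.1 hx.1, F.mF_mono (τ := τ) (hu1m.1.trans hx.1) hx.2⟩
  have cg : ContinuousOn (fun x => g (x, τ)) (Icc u1 u2) := hsl (F.g_cont.mono hDW)
  have key := flux_slice (n := n) (f := fun x => g (x, τ)) (m := fun x => mF x0 x1 t1 t2 g (x, τ))
    hμ hμν hQ hq LC hu1.2 (fun x hx => F.g_pos _ (hD x hx)) cg
    (fun x hx => F.label_dx ⟨hu1m.1.trans hx.1, hx.2.trans hu2m.2⟩ hτ) hm1 hm2.1 hmm
    (fun x hx => by
      have h := hmm x hx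
      rw [hm1] at h
      exact hg x ⟨hu1m.1.trans hx.1, hx.2.trans hu2.2⟩ (hu1.1.trans_le hx.1) h.1
        (h.2.trans hm2.1))
  -- the dissipation
  have hi3 : IntervalIntegrable (fun x => Fd n g h3 (x, τ)) volume u1 u2 := by
    apply ContinuousOn.intervalIntegrable
    rw [uIcc_of_le hu1.2]
    exact hsl ((F.uD_cont hDW n).mul (F.h3_cont.pow 2))
  have hen : ∫ x in u1..u2, Fd n g h3 (x, τ) ≤ eV n x0 x1 D V g h3 τ := by
    rw [intervalIntegral.integral_of_le hu1.2]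
    have e1 : ∫ x in Ioc u1 u2, Fd n g h3 (x, τ) =
        ∫ x in Ioc u1 u2, (D ∩ V).indicator (Fd n g h3) (x, τ) := by
      apply setIntegral_congr_fun measurableSet_Ioc
      intro x hx
      simp only
      have hxm : x ∈ Icc u1 u2 := ⟨hx.1.le, hx.2⟩
      rw [indicator_of_mem (show (x, τ) ∈ D ∩ V from ⟨hD x hxm, hV _ ((hmm x hxm).2.trans hm2.1)⟩)]
    rw [e1]
    unfold eV
    apply setIntegral_mono_set (indicator_int hVm hint)
    · exact Eventually.of_forall (fun x => indicator_nonneg (fun z hz => hFd z hz.1) _)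
    · exact (Eventually.of_forall (Ioc_subset_Ioc hu1m.1 hu2m.2))
  have hi4 : IntervalIntegrable (fun x => ω (mF x0 x1 t1 t2 g (x, τ)) ^ 2 * g (x, τ) ^ n)
      volume u1 u2 := by
    apply ContinuousOn.intervalIntegrable
    rw [uIcc_of_le hu1.2]
    have cm : ContinuousOn (fun x => mF x0 x1 t1 t2 g (x, τ)) (Icc u1 u2) :=
      (F.mF_cont.comp (show Continuous fun x : ℝ => (x, τ) by fun_prop)).continuousOn
    exact ((LC.c1.comp_continuousOn cm).pow 2).mul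
      (cg.rpow_const (fun x hx => Or.inl (F.g_pos _ (hD x hx)).ne'))
  have hpt : ∫ x in u1..u2, |ω (mF x0 x1 t1 t2 g (x, τ)) * Jx n g h3 (x, τ)| ≤
      ∫ x in u1..u2, (l / 2 * Fd n g h3 (x, τ) +
        1 / (2 * l) * (ω (mF x0 x1 t1 t2 g (x, τ)) ^ 2 * g (x, τ) ^ n)) := by
    apply intervalIntegral.integral_mono_on hu1.2 (hi u1 u2 hu1m hu2m)
      ((hi3.const_mul _).add (hi4.const_mul _))
    intro x hx
    have hgx := F.g_pos _ (hD x hx)
    have h := two_mul_le' (g (x, τ) ^ (n / 2) * h3 (x, τ))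
      (ω (mF x0 x1 t1 t2 g (x, τ)) * g (x, τ) ^ (n / 2)) l hl
    have e1 : g (x, τ) ^ (n / 2) * g (x, τ) ^ (n / 2) = g (x, τ) ^ n := by
      rw [← Real.rpow_add hgx]
      congr 1
      ring
    have e2 : (g (x, τ) ^ (n / 2)) ^ 2 = g (x, τ) ^ n := by rw [sq, e1]
    have e3 : g (x, τ) ^ (n / 2) * h3 (x, τ) * (ω (mF x0 x1 t1 t2 g (x, τ)) * g (x, τ) ^ (n / 2)) =
        ω (mF x0 x1 t1 t2 g (x, τ)) * Jx n g h3 (x, τ) := by
      unfold Jx
      rw [← e1]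
      ring
    rw [e3, mul_pow, mul_pow, e2] at h
    unfold Fd
    exact h
  rw [intervalIntegral.integral_add (hi3.const_mul _) (hi4.const_mul _),
    intervalIntegral.integral_const_mul, intervalIntegral.integral_const_mul] at hpt
  refine hpt.trans ?_
  gcongr


theorem t_CRIT : S_CRIT := by
  intro n x0 x1 t1 t2 W D s g h1 h2 h3 ht S K hK0 hKi hA2
  obtain ⟨F, J, hDW, hn, hfin⟩ := S
  have hle : s t2 ≤ s t1 := (F.mono_and_mass J hDW hn hfin).1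
  refine le_antisymm ?_ hle
  by_contra hcon
  push Not at hcon
  have ht1 : t1 ∈ Icc t1 t2 := ⟨le_rfl, F.htt.le⟩
  have ht2 : t2 ∈ Icc t1 t2 := ⟨F.htt.le, le_rfl⟩
  have hs1 := F.s_mem t1 ht1
  have hs2 := F.s_mem t2 ht2
  have hD : MeasurableSet D := F.D_open.measurableSet
  have hL : 0 < x1 - x0 := by linarith [F.hx]
  have hx1m : x1 ∈ Icc x0 x1 := ⟨F.hx.le, le_rfl⟩
  obtain ⟨B, hB, hLC⟩ := exists_lcut
  obtain ⟨KI, hKI⟩ : ∃ KI, KI = ∫ τ in Ioc t1 t2, K τ := ⟨_, rfl⟩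
  have hKI0 : 0 ≤ KI := by
    rw [hKI]
    exact setIntegral_nonneg measurableSet_Ioc (fun τ _ => hK0 τ)
  obtain ⟨θ, hθ, hθ1⟩ : ∃ θ, 0 < θ ∧ θ < min ((s t1 - s t2) / 4) (x1 - s t2) :=
    exists_between (lt_min (by linarith) (by linarith))
  have hθd : θ < (s t1 - s t2) / 4 := hθ1.trans_le (min_le_left _ _)
  have hθs2 : θ < x1 - s t2 := hθ1.trans_le (min_le_right _ _)
  obtain ⟨l, hl⟩ : ∃ l, l = 3 * B ^ 2 * (KI + 1) / θ := ⟨_, rfl⟩
  have hl0 : 0 < l := by rw [hl]; positivity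
  have hFd : ∀ z ∈ D, 0 ≤ Fd n g h3 z := fun z hz =>
    mul_nonneg (Real.rpow_nonneg (F.g_pos z hz).le _) (sq_nonneg _)
  obtain ⟨a1, ha1, ha1'⟩ := tail_small hD hFd hfin F.mF_cont (fun z hz => by
    have e1 : z.1 ∈ Icc x0 x1 := ⟨hz.2.1.1.le, hz.2.1.2⟩
    have e2 : z.2 ∈ Icc t1 t2 := ⟨hz.2.2.1.le, hz.2.2.2⟩
    exact F.mF_pos (x := z.1) (t := z.2) e1 e2 ((F.D_iff z.1 e1 z.2 e2).1 hz.1))
    (show 0 < 2 * θ / l by positivity)
  have hxs : s t2 + θ ∈ Icc x0 x1 := ⟨by linarith, by linarith⟩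
  have hp2 : 0 < mF x0 x1 t1 t2 g (s t2 + θ, t2) := F.mF_pos hxs ht2 (by linarith)
  obtain ⟨m0, hm0, hm0'⟩ : ∃ m0, 0 < m0 ∧ m0 < min (min (a1 / 2) (Real.exp (-1)))
      (mF x0 x1 t1 t2 g (s t2 + θ, t2)) :=
    exists_between (lt_min (lt_min (by linarith) (Real.exp_pos _)) hp2)
  have q1 : m0 < a1 / 2 := hm0'.trans_le ((min_le_left _ _).trans (min_le_left _ _))
  have q2 : m0 < Real.exp (-1) := hm0'.trans_le ((min_le_left _ _).trans (min_le_right _ _))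
  have q5 : m0 < mF x0 x1 t1 t2 g (s t2 + θ, t2) := hm0'.trans_le (min_le_right _ _)
  have hm01 : m0 < 1 := by
    refine q2.trans_le ?_
    rw [Real.exp_le_one_iff]
    norm_num
  obtain ⟨Λ, hΛ⟩ : ∃ Λ, Λ = -Real.log m0 := ⟨_, rfl⟩
  have hΛ1 : 1 ≤ Λ := by
    have := Real.log_lt_log hm0 q2
    rw [Real.log_exp] at this
    linarith
  obtain ⟨μ, hμ⟩ : ∃ μ, μ = m0 ^ 2 := ⟨_, rfl⟩
  have hμ0 : 0 < μ := by rw [hμ]; positivity
  have hμm : μ < m0 := by rw [hμ]; nlinarith only [hm01, hm0]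
  have hlogμ : Real.log μ = -(2 * Λ) := by
    rw [hμ, Real.log_pow, hΛ]
    push_cast
    ring
  have hlogr : Real.log (m0 / μ) = Λ := by
    rw [Real.log_div hm0.ne' hμ0.ne', hlogμ]
    linarith
  obtain ⟨Ω, ω, LC⟩ := hLC 0 μ m0 hμ0 hμm
  obtain ⟨V, hV⟩ : ∃ V : Set (ℝ × ℝ), V = {z | mF x0 x1 t1 t2 g z < 2 * m0} := ⟨_, rfl⟩
  have hVm : MeasurableSet V := by
    rw [hV]
    exact (isOpen_lt F.mF_cont continuous_const).measurableSet
  have j1 := tail_integrable hD hVm hfin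
  have k1 : ∫ τ in Ioc t1 t2, eV n x0 x1 D V g h3 τ ≤ 2 * θ / l := by
    rw [hV]
    exact ha1' (2 * m0) (by linarith)
  have i1 : IntegrableOn (fun τ => l / 2 * eV n x0 x1 D V g h3 τ) (Ioc t1 t2) := j1.const_mul _
  have i2 : IntegrableOn (fun τ => 3 * B ^ 2 / (2 * l) * K τ) (Ioc t1 t2) := hKi.const_mul _
  have hevol := F.P_evol J hDW hn hfin (b := 0) (μ := μ) (ν := m0) (B := B) hμ0 le_rfl LC
    (c := x1) ⟨F.hx, le_rfl⟩ le_rfl F.htt le_rfl (i1.add i2) (by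
      filter_upwards [tail_ae hD hfin, hA2, ae_restrict_mem measurableSet_Ioc] with τ g1 g2 g4
      have hτ : τ ∈ Icc t1 t2 := ⟨g4.1.le, g4.2⟩
      have hKτ := hK0 τ
      have h5 := F.P_tail hDW (b := 0) (μ := μ) (ν := m0) (B := B) (Q := K τ * (3 * Λ)) (q := 1)
        (l := l) hμ0 hμm le_rfl (by positivity) le_rfl hl0 hVm LC hτ hx1m g1
        (fun x hx hsx hm1 hm2 => by
          have h6 := g2 x hx hsx
          rw [zero_add] at hm1 hm2
          have hmx : 0 < mF x0 x1 t1 t2 g (x, τ) := hμ0.trans_le hm1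
          rw [sub_zero, Real.rpow_one]
          refine h6.trans ?_
          rw [mul_assoc]
          apply mul_le_mul_of_nonneg_left _ hKτ
          apply mul_le_mul_of_nonneg_right _ hmx.le
          have e1 : Real.log (mF x0 x1 t1 t2 g (x, τ)) ≤ 0 :=
            Real.log_nonpos hmx.le (hm2.trans hm01.le)
          have e2 := Real.log_le_log hμ0 hm1
          rw [hlogμ] at e2
          rw [abs_of_nonpos e1]
          linarith)
        (fun z hz => by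
          rw [hV]
          show mF x0 x1 t1 t2 g z < 2 * m0
          linarith)
      refine h5.trans ?_
      rw [hlogr]
      have e3 : 1 / (2 * l) * (B ^ 2 * (K τ * (3 * Λ)) * m0 ^ ((1 : ℝ) - 1) / Λ) =
          3 * B ^ 2 / (2 * l) * K τ := by
        rw [sub_self, Real.rpow_zero]
        field_simp
      rw [e3]
      exact le_rfl)
  have hint : ∫ τ in Ioc t1 t2, (l / 2 * eV n x0 x1 D V g h3 τ + 3 * B ^ 2 / (2 * l) * K τ) ≤
      2 * θ := by
    rw [integral_add i1 i2, integral_const_mul, integral_const_mul, ← hKI]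
    have u1 : l / 2 * ∫ τ in Ioc t1 t2, eV n x0 x1 D V g h3 τ ≤ θ := by
      have := mul_le_mul_of_nonneg_left k1 (show 0 ≤ l / 2 by positivity)
      have e : l / 2 * (2 * θ / l) = θ := by field_simp
      linarith
    have u2 : 3 * B ^ 2 / (2 * l) * KI ≤ θ := by
      rw [hl]
      have e : 3 * B ^ 2 / (2 * (3 * B ^ 2 * (KI + 1) / θ)) * KI = θ * KI / (2 * (KI + 1)) := by
        have hB0 : B ≠ 0 := by linarith
        field_simp
      rw [e, div_le_iff₀ (by positivity)]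
      nlinarith only [hθ, hKI0]
    linarith
  have hevol' := hevol.trans hint
  -- the end points
  have cΩ : Continuous Ω := continuous_iff_continuousAt.2 fun x => (LC.d0 x).continuousAt
  have cΩm : ∀ t, Continuous (fun x => Ω (mF x0 x1 t1 t2 g (x, t))) := fun t =>
    cΩ.comp (F.mF_cont.comp (show Continuous fun x : ℝ => (x, t) by fun_prop))
  have p1 : ∫ x in x0..x1, Ω (mF x0 x1 t1 t2 g (x, t1)) ≤ x1 - s t1 := by
    rw [← intervalIntegral.integral_add_adjacent_intervals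
      ((cΩm t1).intervalIntegrable x0 (s t1)) ((cΩm t1).intervalIntegrable (s t1) x1)]
    have e1 : ∫ x in x0..(s t1), Ω (mF x0 x1 t1 t2 g (x, t1)) = ∫ _x in x0..(s t1), (0 : ℝ) := by
      apply intervalIntegral.integral_congr
      intro x hx
      rw [uIcc_of_le hs1.1.le] at hx
      have hxm : x ∈ Icc x0 x1 := ⟨hx.1, hx.2.trans hs1.2.le⟩
      simp only
      apply (LC.lo _ _).1
      rw [F.mF_zero hxm ht1 (by rw [F.D_iff _ hxm t1 ht1]; exact not_lt.2 hx.2)]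
      linarith
    have e2 : ∫ x in (s t1)..x1, Ω (mF x0 x1 t1 t2 g (x, t1)) ≤ ∫ _x in (s t1)..x1, (1 : ℝ) := by
      apply intervalIntegral.integral_mono_on hs1.2.le ((cΩm t1).intervalIntegrable _ _)
        intervalIntegrable_const
      intro x _
      exact (LC.range _).2
    rw [intervalIntegral.integral_const, smul_eq_mul, mul_one] at e2
    rw [e1, intervalIntegral.integral_zero]
    linarith
  have p2 : x1 - s t2 - θ ≤ ∫ x in x0..x1, Ω (mF x0 x1 t1 t2 g (x, t2)) := by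
    rw [← intervalIntegral.integral_add_adjacent_intervals
      ((cΩm t2).intervalIntegrable x0 (s t2 + θ)) ((cΩm t2).intervalIntegrable (s t2 + θ) x1)]
    have e1 : 0 ≤ ∫ x in x0..(s t2 + θ), Ω (mF x0 x1 t1 t2 g (x, t2)) :=
      intervalIntegral.integral_nonneg hxs.1 (fun x _ => (LC.range _).1)
    have e2 : ∫ x in (s t2 + θ)..x1, Ω (mF x0 x1 t1 t2 g (x, t2)) =
        ∫ _x in (s t2 + θ)..x1, (1 : ℝ) := by
      apply intervalIntegral.integral_congr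
      intro x hx
      rw [uIcc_of_le hxs.2] at hx
      simp only
      apply (LC.hi _ _).1
      have := F.mF_mono (τ := t2) hxs.1 hx.1
      linarith
    rw [e2, intervalIntegral.integral_const, smul_eq_mul, mul_one]
    linarith
  linarith

end Pool.Agent.Q81.TF
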