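import Mathlib

open Set Filter Topology

namespace Pool.Agent.Q81.TF

theorem deriv_zero_left {f f' : ℝ → ℝ} (hf : ∀ x, HasDerivAt f (f' x) x) (hc : Continuous f')
    {a c : ℝ} (h : ∀ x, x ≤ a → f x = c) : ∀ x, x ≤ a → f' x = 0 := by
  have h1 : ∀ x ∈ Iio a, f' x = 0 := by
    intro x hx
    have h2 : f =ᶠ[𝓝 x] fun _ => c := by
      filter_upwards [Iio_mem_nhds hx] with y hy
      exact h y (le_of_lt hy)
    exact (hf x).unique ((hasDerivAt_const x c).congr_of_eventuallyEq h2)
  have h3 : closure (Iio a) ⊆ {x | f' x = 0} :=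
    closure_minimal (fun x hx => h1 x hx) (isClosed_eq hc continuous_const)
  intro x hx
  rw [closure_Iio] at h3
  exact h3 hx

theorem deriv_zero_right {f f' : ℝ → ℝ} (hf : ∀ x, HasDerivAt f (f' x) x) (hc : Continuous f')
    {a c : ℝ} (h : ∀ x, a ≤ x → f x = c) : ∀ x, a ≤ x → f' x = 0 := by
  have h1 : ∀ x ∈ Ioi a, f' x = 0 := by
    intro x hx
    have h2 : f =ᶠ[𝓝 x] fun _ => c := by
      filter_upwards [Ioi_mem_nhds hx] with y hy
      exact h y (le_of_lt hy)
    exact (hf x).unique ((hasDerivAt_const x c).congr_of_eventuallyEq h2)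
  have h3 : closure (Ioi a) ⊆ {x | f' x = 0} :=
    closure_minimal (fun x hx => h1 x hx) (isClosed_eq hc continuous_const)
  intro x hx
  rw [closure_Ioi] at h3
  exact h3 hx

theorem bdd_of_zero {f : ℝ → ℝ} (hc : Continuous f) (h0 : ∀ x, x ≤ 0 → f x = 0)
    (h1 : ∀ x, 1 ≤ x → f x = 0) : ∃ B, 1 ≤ B ∧ ∀ x, |f x| ≤ B := by
  obtain ⟨B, hB⟩ := (isCompact_Icc (a := (0 : ℝ)) (b := 1)).exists_bound_of_continuousOn
    hc.continuousOn
  refine ⟨max 1 B, le_max_left _ _, fun x => ?_⟩
  rcases le_or_gt x 0 with h | h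
  · rw [h0 x h, abs_zero]
    exact zero_le_one.trans (le_max_left _ _)
  rcases le_or_gt 1 x with h' | h'
  · rw [h1 x h', abs_zero]
    exact zero_le_one.trans (le_max_left _ _)
  · exact (hB x ⟨h.le, h'.le⟩).trans (le_max_right _ _)

/-- a smooth step with two derivatives -/
theorem exists_smooth_step : ∃ (B : ℝ) (S S1 S2 : ℝ → ℝ), 1 ≤ B ∧ Continuous S2 ∧
    (∀ x, HasDerivAt S (S1 x) x) ∧ (∀ x, HasDerivAt S1 (S2 x) x) ∧
    (∀ x, x ≤ 0 → S x = 0 ∧ S1 x = 0 ∧ S2 x = 0) ∧
    (∀ x, 1 ≤ x → S x = 1 ∧ S1 x = 0 ∧ S2 x = 0) ∧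
    (∀ x, 0 ≤ S x ∧ S x ≤ 1) ∧ (∀ x, |S1 x| ≤ B) ∧ (∀ x, |S2 x| ≤ B) := by
  have hS : ContDiff ℝ ((3 : ℕ) : ℕ∞) Real.smoothTransition := Real.smoothTransition.contDiff
  have hS' : ContDiff ℝ ((2 : ℕ) + 1) Real.smoothTransition := by
    exact_mod_cast hS
  have h1 := (contDiff_succ_iff_deriv.1 hS').2.2
  have hd0 : Differentiable ℝ Real.smoothTransition := (contDiff_succ_iff_deriv.1 hS').1
  have h1' : ContDiff ℝ ((1 : ℕ) + 1) (deriv Real.smoothTransition) := by
    exact_mod_cast h1
  have h2 := (contDiff_succ_iff_deriv.1 h1').2.2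
  have hd1 : Differentiable ℝ (deriv Real.smoothTransition) := (contDiff_succ_iff_deriv.1 h1').1
  have hc2 : Continuous (deriv (deriv Real.smoothTransition)) := h2.continuous
  have e1 : ∀ x, HasDerivAt Real.smoothTransition (deriv Real.smoothTransition x) x :=
    fun x => (hd0 x).hasDerivAt
  have e2 : ∀ x, HasDerivAt (deriv Real.smoothTransition)
      (deriv (deriv Real.smoothTransition) x) x := fun x => (hd1 x).hasDerivAt
  have z0 : ∀ x, x ≤ 0 → Real.smoothTransition x = 0 :=
    fun x hx => Real.smoothTransition.zero_of_nonpos hx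
  have z1 := deriv_zero_left e1 hd1.continuous z0
  have z2 := deriv_zero_left e2 hc2 z1
  have o0 : ∀ x, 1 ≤ x → Real.smoothTransition x = 1 :=
    fun x hx => Real.smoothTransition.one_of_one_le hx
  have o1 := deriv_zero_right e1 hd1.continuous o0
  have o2 := deriv_zero_right e2 hc2 o1
  obtain ⟨B1, hB1, hB1'⟩ := bdd_of_zero hd1.continuous z1 o1
  obtain ⟨B2, hB2, hB2'⟩ := bdd_of_zero hc2 z2 o2
  exact ⟨max B1 B2, _, _, _, hB1.trans (le_max_left _ _), hc2, e1, e2,
    fun x hx => ⟨z0 x hx, z1 x hx, z2 x hx⟩, fun x hx => ⟨o0 x hx, o1 x hx, o2 x hx⟩,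
    fun x => ⟨Real.smoothTransition.nonneg x, Real.smoothTransition.le_one x⟩,
    fun x => (hB1' x).trans (le_max_left _ _), fun x => (hB2' x).trans (le_max_right _ _)⟩

/-- the properties of the height cutoff `F` at the level `ε`, with derivatives `φ1`, `φ2` -/
structure HCut (B ε : ℝ) (F φ1 φ2 : ℝ → ℝ) : Prop where
  c2 : Continuous φ2
  d0 : ∀ v, HasDerivAt F (φ1 v) v
  d1 : ∀ v, HasDerivAt φ1 (φ2 v) v
  z : ∀ v, v ≤ ε → F v = 0 ∧ φ1 v = 0 ∧ φ2 v = 0
  z2 : ∀ v, 2 * ε ≤ v → φ2 v = 0
  b1 : ∀ v, |φ1 v| ≤ B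
  b2 : ∀ v, |φ2 v| ≤ B / ε
  lo : ∀ v, 0 ≤ v → 0 ≤ F v
  up : ∀ v, 0 ≤ v → F v ≤ v
  near : ∀ v, 0 ≤ v → v - 2 * ε ≤ F v

/-- the properties of the mass cutoff `Ω` between `μ` and `m0`, with derivative `ω` -/
structure MCut (B μ m0 : ℝ) (Ω ω : ℝ → ℝ) : Prop where
  c1 : ContinuousOn ω (Ici 0)
  d0 : ∀ m, 0 ≤ m → HasDerivAt Ω (ω m) m
  z : ∀ m, 0 ≤ m → m ≤ μ → Ω m = 0 ∧ ω m = 0
  one : ∀ m, m0 ≤ m → Ω m = 1 ∧ ω m = 0
  lo : ∀ m, 0 ≤ Ω m
  up : ∀ m, Ω m ≤ 1
  b1 : ∀ m, 0 < m → |ω m| ≤ B / (Real.log (m0 / μ) * m)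

theorem exists_cuts : ∃ B : ℝ, 1 ≤ B ∧ (∀ ε, 0 < ε → ∃ F φ1 φ2, HCut B ε F φ1 φ2) ∧
    ∀ μ m0, 0 < μ → μ < m0 → ∃ Ω ω, MCut B μ m0 Ω ω := by
  obtain ⟨B, S, S1, S2, hB, hc2, hd0, hd1, hz, ho, hS, hb1, hb2⟩ := exists_smooth_step
  have hcS1 : Continuous S1 := continuous_iff_continuousAt.2 fun x => (hd1 x).continuousAt
  refine ⟨4 * B, by linarith, ?_, ?_⟩
  · intro ε hε
    refine ⟨fun v => v * S (v / ε - 1), fun v => S (v / ε - 1) + v / ε * S1 (v / ε - 1),
      fun v => 2 / ε * S1 (v / ε - 1) + v / ε / ε * S2 (v / ε - 1), ?_⟩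
    have hin : ∀ v : ℝ, HasDerivAt (fun v => v / ε - 1) (1 / ε) v := fun v =>
      ((hasDerivAt_id v).div_const ε).sub_const 1
    have hle : ∀ v, v ≤ ε → v / ε - 1 ≤ 0 := fun v hv => by
      have : v / ε ≤ 1 := (div_le_one hε).2 hv
      linarith
    have hge : ∀ v, 2 * ε ≤ v → 1 ≤ v / ε - 1 := fun v hv => by
      have : 2 ≤ v / ε := (le_div_iff₀ hε).2 hv
      linarith
    constructor
    · fun_prop
    · intro v
      have h1 := (hasDerivAt_id v).mul ((hd0 (v / ε - 1)).comp v (hin v))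
      refine HasDerivAt.congr_deriv h1 ?_
      simp only [id, Function.comp]
      field_simp
    · intro v
      have h1 := (hd0 (v / ε - 1)).comp v (hin v)
      have h2 := ((hasDerivAt_id v).div_const ε).mul ((hd1 (v / ε - 1)).comp v (hin v))
      refine HasDerivAt.congr_deriv (h1.add h2) ?_
      simp only [id, Function.comp]
      field_simp
      ring
    · intro v hv
      obtain ⟨e0, e1, e2⟩ := hz _ (hle v hv)
      simp only [e0, e1, e2, mul_zero, add_zero, and_self]
    · intro v hv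
      obtain ⟨e0, e1, e2⟩ := ho _ (hge v hv)
      simp only [e1, e2, mul_zero, add_zero]
    · intro v
      rcases le_or_gt v ε with h | h
      · obtain ⟨e0, e1, e2⟩ := hz _ (hle v h)
        simp only [e0, e1, mul_zero, add_zero, abs_zero]
        linarith
      rcases le_or_gt (2 * ε) v with h' | h'
      · obtain ⟨e0, e1, e2⟩ := ho _ (hge v h')
        simp only [e0, e1, mul_zero, add_zero, abs_one]
        linarith
      · have e1 : |v / ε| ≤ 2 := by
          rw [abs_of_pos (div_pos (hε.trans h) hε), div_le_iff₀ hε]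
          exact h'.le
        have e2 := hb1 (v / ε - 1)
        have e3 : |S (v / ε - 1)| ≤ 1 := abs_le.2 ⟨by linarith [(hS (v / ε - 1)).1],
          (hS (v / ε - 1)).2⟩
        calc |S (v / ε - 1) + v / ε * S1 (v / ε - 1)| ≤ |S (v / ε - 1)| +
              |v / ε * S1 (v / ε - 1)| := abs_add_le _ _
          _ ≤ 1 + 2 * B := by
              rw [abs_mul]
              exact add_le_add e3 (mul_le_mul e1 e2 (abs_nonneg _) (by norm_num))
          _ ≤ 4 * B := by linarith
    · intro v
      rcases le_or_gt v ε with h | h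
      · obtain ⟨e0, e1, e2⟩ := hz _ (hle v h)
        simp only [e1, e2, mul_zero, add_zero, abs_zero]
        positivity
      rcases le_or_gt (2 * ε) v with h' | h'
      · obtain ⟨e0, e1, e2⟩ := ho _ (hge v h')
        simp only [e1, e2, mul_zero, add_zero, abs_zero]
        positivity
      · have e1 : |v / ε| ≤ 2 := by
          rw [abs_of_pos (div_pos (hε.trans h) hε), div_le_iff₀ hε]
          exact h'.le
        have e2 := hb1 (v / ε - 1)
        have e3 := hb2 (v / ε - 1)
        have e4 : 2 / ε * S1 (v / ε - 1) + v / ε / ε * S2 (v / ε - 1) =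
            (2 * S1 (v / ε - 1) + v / ε * S2 (v / ε - 1)) / ε := by
          field_simp
        rw [e4, abs_div, abs_of_pos hε]
        apply div_le_div_of_nonneg_right _ hε.le
        calc |2 * S1 (v / ε - 1) + v / ε * S2 (v / ε - 1)| ≤ |2 * S1 (v / ε - 1)| +
              |v / ε * S2 (v / ε - 1)| := abs_add_le _ _
          _ ≤ 2 * B + 2 * B := by
              rw [abs_mul, abs_mul, abs_of_pos (show (0 : ℝ) < 2 by norm_num)]
              exact add_le_add (mul_le_mul_of_nonneg_left e2 (by norm_num))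
                (mul_le_mul e1 e3 (abs_nonneg _) (by norm_num))
          _ = 4 * B := by ring
    · intro v hv
      exact mul_nonneg hv (hS _).1
    · intro v hv
      calc v * S (v / ε - 1) ≤ v * 1 := mul_le_mul_of_nonneg_left (hS _).2 hv
        _ = v := mul_one v
    · intro v hv
      rcases le_or_gt (2 * ε) v with h' | h'
      · obtain ⟨e0, e1, e2⟩ := ho _ (hge v h')
        simp only [e0, mul_one]
        linarith
      · have := mul_nonneg hv (hS (v / ε - 1)).1
        linarith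
  · intro μ m0 hμ hm0
    have hΛ : 0 < Real.log (m0 / μ) := Real.log_pos ((one_lt_div hμ).2 hm0)
    have hm0p : 0 < m0 := hμ.trans hm0
    refine ⟨fun m => S (Real.log (m / μ) / Real.log (m0 / μ)),
      fun m => S1 (Real.log (m / μ) / Real.log (m0 / μ)) * (1 / (Real.log (m0 / μ) * m)), ?_⟩
    have hle : ∀ m, 0 ≤ m → m ≤ μ → Real.log (m / μ) / Real.log (m0 / μ) ≤ 0 := by
      intro m h0 h1
      apply div_nonpos_of_nonpos_of_nonneg _ hΛ.le
      exact Real.log_nonpos (by positivity) ((div_le_one hμ).2 h1)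
    have hle' : ∀ m, |m| ≤ μ → Real.log (m / μ) / Real.log (m0 / μ) ≤ 0 := by
      intro m h1
      apply div_nonpos_of_nonpos_of_nonneg _ hΛ.le
      rw [← Real.log_abs]
      apply Real.log_nonpos (abs_nonneg _)
      rw [abs_div, abs_of_pos hμ]
      exact (div_le_one hμ).2 h1
    have hge : ∀ m, m0 ≤ m → 1 ≤ Real.log (m / μ) / Real.log (m0 / μ) := by
      intro m h1
      rw [one_le_div hΛ]
      exact Real.log_le_log (by positivity) (div_le_div_of_nonneg_right h1 hμ.le)
    constructor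
    · intro m hm
      rcases eq_or_lt_of_le (show (0 : ℝ) ≤ m from hm) with h | h
      · rw [← h]
        apply ContinuousAt.continuousWithinAt
        have h2 : (fun m => S1 (Real.log (m / μ) / Real.log (m0 / μ)) *
            (1 / (Real.log (m0 / μ) * m))) =ᶠ[𝓝 0] fun _ => 0 := by
          filter_upwards [Metric.ball_mem_nhds (0 : ℝ) hμ] with y hy
          rw [Metric.mem_ball, dist_zero_right, Real.norm_eq_abs] at hy
          rw [(hz _ (hle' y hy.le)).2.1, zero_mul]
        exact ContinuousAt.congr continuousAt_const h2.symm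
      · apply ContinuousAt.continuousWithinAt
        apply ContinuousAt.mul
        · apply hcS1.continuousAt.comp
          apply ContinuousAt.div_const
          exact (continuousAt_id.div_const μ).log (by simp only [id]; positivity)
        · apply ContinuousAt.div continuousAt_const (continuousAt_const.mul continuousAt_id)
          exact (mul_pos hΛ h).ne'
    · intro m hm
      rcases eq_or_lt_of_le hm with h | h
      · rw [← h]
        have h2 : (fun m => S (Real.log (m / μ) / Real.log (m0 / μ))) =ᶠ[𝓝 0] fun _ => 0 := by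
          filter_upwards [Metric.ball_mem_nhds (0 : ℝ) hμ] with y hy
          rw [Metric.mem_ball, dist_zero_right, Real.norm_eq_abs] at hy
          rw [(hz _ (hle' y hy.le)).1]
        refine ((hasDerivAt_const (0 : ℝ) (0 : ℝ)).congr_of_eventuallyEq h2).congr_deriv ?_
        rw [mul_zero, div_zero, mul_zero]
      · have h1 : HasDerivAt (fun m => Real.log (m / μ) / Real.log (m0 / μ))
            (1 / (Real.log (m0 / μ) * m)) m := by
          have h3 := (((hasDerivAt_id m).div_const μ).log (by simp only [id]; positivity)).div_const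
            (Real.log (m0 / μ))
          refine HasDerivAt.congr_deriv h3 ?_
          simp only [id_eq]
          field_simp
        exact (hd0 _).comp m h1
    · intro m h0 h1
      obtain ⟨e0, e1, e2⟩ := hz _ (hle m h0 h1)
      simp only [e0, e1, zero_mul, and_self]
    · intro m h1
      obtain ⟨e0, e1, e2⟩ := ho _ (hge m h1)
      simp only [e0, e1, zero_mul, and_self]
    · intro m
      exact (hS _).1
    · intro m
      exact (hS _).2
    · intro m hm
      rw [abs_mul, abs_of_pos (show 0 < 1 / (Real.log (m0 / μ) * m) by positivity), mul_one_div]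
      apply div_le_div_of_nonneg_right _ (by positivity)
      exact (hb1 _).trans (by linarith)

end Pool.Agent.Q81.TF
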