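import Pool.Agent.Q81.TF.FuncB

open Set MeasureTheory Filter Topology

namespace Pool.Agent.Q81.TF

/-- a smooth monotone step with two derivatives -/
theorem exists_mono_step : ∃ (B : ℝ) (S S1 S2 : ℝ → ℝ), 1 ≤ B ∧ Continuous S2 ∧
    (∀ x, HasDerivAt S (S1 x) x) ∧ (∀ x, HasDerivAt S1 (S2 x) x) ∧
    (∀ x, x ≤ 0 → S x = 0 ∧ S1 x = 0 ∧ S2 x = 0) ∧
    (∀ x, 1 ≤ x → S x = 1 ∧ S1 x = 0 ∧ S2 x = 0) ∧
    (∀ x, 0 ≤ S x ∧ S x ≤ 1) ∧ (∀ x, 0 ≤ S1 x ∧ S1 x ≤ B) ∧ (∀ x, |S2 x| ≤ B) := by
  have hS : ContDiff ℝ ((3 : ℕ) : ℕ∞) Real.smoothTransition := Real.smoothTransition.contDiff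
  have hS' : ContDiff ℝ ((2 : ℕ) + 1) Real.smoothTransition := by
    exact_mod_cast hS
  have h1 := (contDiff_succ_iff_deriv.1 hS').2.2
  have hd0 : Differentiable ℝ Real.smoothTransition := (contDiff_succ_iff_deriv.1 hS').1
  have h1' : ContDiff ℝ ((1 : ℕ) + 1) (deriv Real.smoothTransition) := by
    exact_mod_cast h1
  have h2 := (contDiff_succ_iff_deriv.1 h1').2.2
  have hd1 : Differentiable ℝ (deriv Real.smoothTransition) := (contDiff_succ_iff_deriv.1 h1').1
  have hc2 : Continuous (deriv (deriv Real.smoothTransition)) := h2.continuous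
  have e1 : ∀ x, HasDerivAt Real.smoothTransition (deriv Real.smoothTransition x) x :=
    fun x => (hd0 x).hasDerivAt
  have e2 : ∀ x, HasDerivAt (deriv Real.smoothTransition)
      (deriv (deriv Real.smoothTransition) x) x := fun x => (hd1 x).hasDerivAt
  have z0 : ∀ x, x ≤ 0 → Real.smoothTransition x = 0 :=
    fun x hx => Real.smoothTransition.zero_of_nonpos hx
  have z1 := deriv_zero_left e1 hd1.continuous z0
  have z2 := deriv_zero_left e2 hc2 z1
  have o0 : ∀ x, 1 ≤ x → Real.smoothTransition x = 1 :=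
    fun x hx => Real.smoothTransition.one_of_one_le hx
  have o1 := deriv_zero_right e1 hd1.continuous o0
  have o2 := deriv_zero_right e2 hc2 o1
  obtain ⟨B1, hB1, hB1'⟩ := bdd_of_zero hd1.continuous z1 o1
  obtain ⟨B2, hB2, hB2'⟩ := bdd_of_zero hc2 z2 o2
  exact ⟨max B1 B2, _, _, _, hB1.trans (le_max_left _ _), hc2, e1, e2,
    fun x hx => ⟨z0 x hx, z1 x hx, z2 x hx⟩, fun x hx => ⟨o0 x hx, o1 x hx, o2 x hx⟩,
    fun x => ⟨Real.smoothTransition.nonneg x, Real.smoothTransition.le_one x⟩,
    fun x => ⟨Real.smoothTransition.monotone.deriv_nonneg,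
      (le_abs_self _).trans ((hB1' x).trans (le_max_left _ _))⟩,
    fun x => (hB2' x).trans (le_max_right _ _)⟩

theorem exists_cuts2 : ∃ B : ℝ, 1 ≤ B ∧ (∀ N, 0 < N → ∃ Fr w w1, FCut B N Fr w w1) ∧
    ∀ c K M : ℝ, 0 < c → 1 ≤ K → 1 ≤ M → ∃ χ χ1 χ2 ψ1 ψ2 : ℝ → ℝ,
      XCut (8 * B * M) K M (c * Real.exp (-K)) χ χ1 χ2 ∧
      XCut (8 * B * M) K M (c * Real.exp (-K)) (fun v => v * χ v) ψ1 ψ2 ∧
      (∀ v, 0 ≤ χ v ∧ χ v ≤ 1) ∧ (∀ v, c ≤ v → χ v = 1 ∧ χ1 v = 0 ∧ ψ1 v = 1) ∧
      (∀ v, 0 < v → 1 - χ v ≤ B * |Real.log (v / c)| / K) := by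
  obtain ⟨B, S, S1, S2, hB, hc2, hd0, hd1, hz, ho, hS, hb1, hb2⟩ := exists_mono_step
  refine ⟨B, hB, ?_, ?_⟩
  · intro N hN
    refine ⟨fun r => 1 - S (r / N - 1), fun r => S1 (r / N - 1) / N,
      fun r => S2 (r / N - 1) / N / N, ?_⟩
    have hin : ∀ v : ℝ, HasDerivAt (fun v => v / N - 1) (1 / N) v := fun v =>
      ((hasDerivAt_id v).div_const N).sub_const 1
    have hle : ∀ v, v ≤ N → v / N - 1 ≤ 0 := fun v hv => by
      have : v / N ≤ 1 := (div_le_one hN).2 hv
      linarith
    have hge : ∀ v, 2 * N ≤ v → 1 ≤ v / N - 1 := fun v hv => by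
      have : 2 ≤ v / N := (le_div_iff₀ hN).2 hv
      linarith
    constructor
    · intro r
      have h1 := ((hd0 (r / N - 1)).comp r (hin r)).const_sub 1
      refine HasDerivAt.congr_deriv h1 ?_
      ring
    · intro r
      have h1 := ((hd1 (r / N - 1)).comp r (hin r)).div_const N
      refine HasDerivAt.congr_deriv h1 ?_
      ring
    · fun_prop
    · intro r hr
      obtain ⟨e0, e1, e2⟩ := hz _ (hle r hr)
      simp only [e0, e1, e2, sub_zero, zero_div, and_self]
    · intro r hr
      obtain ⟨e0, e1, e2⟩ := ho _ (hge r hr)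
      simp only [e0, e1, e2, sub_self, zero_div, and_self]
    · intro r
      have := hS (r / N - 1)
      constructor
      · show 0 ≤ 1 - S (r / N - 1)
        linarith
      · show 1 - S (r / N - 1) ≤ 1
        linarith
    · intro r
      exact div_nonneg (hb1 _).1 hN.le
    · intro r
      exact div_le_div_of_nonneg_right (hb1 _).2 hN.le
    · intro r
      show |S2 (r / N - 1) / N / N| ≤ B / N ^ 2
      rw [abs_div, abs_div, abs_of_pos hN, div_div, ← sq]
      exact div_le_div_of_nonneg_right (hb2 _) (by positivity)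
  · intro c K M hc hK hM
    have hK0 : 0 < K := by linarith
    obtain ⟨ε, hε⟩ : ∃ ε, ε = c * Real.exp (-K) := ⟨_, rfl⟩
    have hε0 : 0 < ε := by rw [hε]; positivity
    obtain ⟨l, hl⟩ : ∃ l : ℝ → ℝ, l = fun v => Real.log (v / c) / K + 1 := ⟨_, rfl⟩
    have hl0 : ∀ v, 0 < v → v ≤ ε → l v ≤ 0 := by
      intro v h0 h1
      rw [hl]
      simp only
      have h2 : Real.log (v / c) ≤ -K := by
        rw [Real.log_le_iff_le_exp (by positivity), div_le_iff₀ hc]
        linarith
      have h3 : Real.log (v / c) / K ≤ -1 := by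
        rw [div_le_iff₀ hK0]
        linarith
      linarith
    have hl1 : ∀ v, c ≤ v → 1 ≤ l v := by
      intro v h1
      rw [hl]
      simp only
      have h2 : 0 ≤ Real.log (v / c) := Real.log_nonneg ((one_le_div hc).2 h1)
      have := div_nonneg h2 hK0.le
      linarith
    have hld : ∀ v, 0 < v → HasDerivAt l (1 / (K * v)) v := by
      intro v hv
      rw [hl]
      have h3 := ((((hasDerivAt_id v).div_const c).log (by simp only [id]; positivity)).div_const
        K).add_const 1
      refine HasDerivAt.congr_deriv h3 ?_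
      simp only [id_eq]
      field_simp
    obtain ⟨χ, hχ⟩ : ∃ χ : ℝ → ℝ, χ = fun v => if v ≤ ε then 0 else S (l v) := ⟨_, rfl⟩
    obtain ⟨χ1, hχ1⟩ : ∃ χ1 : ℝ → ℝ, χ1 = fun v => if v ≤ ε then 0 else S1 (l v) / (K * v) :=
      ⟨_, rfl⟩
    obtain ⟨χ2, hχ2⟩ : ∃ χ2 : ℝ → ℝ, χ2 = fun v => if v ≤ ε then 0 else
      S2 (l v) / (K * v) ^ 2 - S1 (l v) / (K * v ^ 2) := ⟨_, rfl⟩
    have f0 : ∀ v, 0 < v → χ v = S (l v) := by
      intro v hv
      rw [hχ]
      simp only
      split_ifs with h
      · exact (hz _ (hl0 v hv h)).1.symm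
      · rfl
    have f1 : ∀ v, 0 < v → χ1 v = S1 (l v) / (K * v) := by
      intro v hv
      rw [hχ1]
      simp only
      split_ifs with h
      · rw [(hz _ (hl0 v hv h)).2.1, zero_div]
      · rfl
    have f2 : ∀ v, 0 < v → χ2 v = S2 (l v) / (K * v) ^ 2 - S1 (l v) / (K * v ^ 2) := by
      intro v hv
      rw [hχ2]
      simp only
      split_ifs with h
      · rw [(hz _ (hl0 v hv h)).2.1, (hz _ (hl0 v hv h)).2.2, zero_div, zero_div, sub_zero]
      · rfl
    have ze : ∀ v, v ≤ ε → χ v = 0 ∧ χ1 v = 0 ∧ χ2 v = 0 := by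
      intro v hv
      rw [hχ, hχ1, hχ2]
      simp only [if_pos hv, and_self]
    have hpos_ev : ∀ v : ℝ, 0 < v → ∀ᶠ u in 𝓝 v, 0 < u := fun v hv => Ioi_mem_nhds hv
    have hneg_ev : ∀ v : ℝ, v ≤ 0 → ∀ᶠ u in 𝓝 v, u ≤ ε := fun v hv => by
      filter_upwards [Iio_mem_nhds (lt_of_le_of_lt hv hε0)] with u hu
      exact le_of_lt hu
    have D0 : ∀ v, HasDerivAt χ (χ1 v) v := by
      intro v
      rcases lt_or_ge 0 v with hv | hv
      · have h1 := (hd0 (l v)).comp v (hld v hv)
        rw [f1 v hv]
        have h2 : HasDerivAt (S ∘ l) (S1 (l v) / (K * v)) v := h1.congr_deriv (by ring)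
        apply h2.congr_of_eventuallyEq
        filter_upwards [hpos_ev v hv] with u hu
        exact f0 u hu
      · rw [(ze v (hv.trans hε0.le)).2.1]
        apply (hasDerivAt_const v (0 : ℝ)).congr_of_eventuallyEq
        filter_upwards [hneg_ev v hv] with u hu
        exact (ze u hu).1
    have D1 : ∀ v, HasDerivAt χ1 (χ2 v) v := by
      intro v
      rcases lt_or_ge 0 v with hv | hv
      · have h1 := ((hd1 (l v)).comp v (hld v hv)).div ((hasDerivAt_id v).const_mul K)
          (show K * id v ≠ 0 by simp only [id]; positivity)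
        rw [f2 v hv]
        have h2 : HasDerivAt (fun u => S1 (l u) / (K * u)) (S2 (l v) / (K * v) ^ 2 -
            S1 (l v) / (K * v ^ 2)) v := by
          refine HasDerivAt.congr_deriv h1 ?_
          simp only [id, Function.comp]
          field_simp
        apply h2.congr_of_eventuallyEq
        filter_upwards [hpos_ev v hv] with u hu
        exact f1 u hu
      · rw [(ze v (hv.trans hε0.le)).2.2]
        apply (hasDerivAt_const v (0 : ℝ)).congr_of_eventuallyEq
        filter_upwards [hneg_ev v hv] with u hu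
        exact (ze u hu).2.1
    have hcS1 : Continuous S1 := continuous_iff_continuousAt.2 fun x => (hd1 x).continuousAt
    have D2 : Continuous χ2 := by
      rw [continuous_iff_continuousAt]
      intro v
      rcases lt_or_ge 0 v with hv | hv
      · have hlc : ContinuousAt l v := (hld v hv).continuousAt
        have h1 : ContinuousAt (fun u => S2 (l u) / (K * u) ^ 2 - S1 (l u) / (K * u ^ 2)) v := by
          apply ContinuousAt.sub
          · apply (hc2.continuousAt.comp hlc).div (by fun_prop)
            positivity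
          · apply (hcS1.continuousAt.comp hlc).div (by fun_prop)
            positivity
        apply h1.congr
        filter_upwards [hpos_ev v hv] with u hu
        exact (f2 u hu).symm
      · apply ContinuousAt.congr (continuousAt_const (y := (0 : ℝ)))
        filter_upwards [hneg_ev v hv] with u hu
        exact (ze u hu).2.2.symm
    have b0 : ∀ v, 0 ≤ χ v ∧ χ v ≤ 1 := by
      intro v
      rw [hχ]
      simp only
      split_ifs
      · exact ⟨le_rfl, zero_le_one⟩
      · exact hS _
    have b1 : ∀ v, 0 < v → |χ1 v| ≤ B / (K * v) := by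
      intro v hv
      rw [f1 v hv, abs_div, abs_of_pos (show 0 < K * v by positivity), abs_of_nonneg (hb1 _).1]
      exact div_le_div_of_nonneg_right (hb1 _).2 (by positivity)
    have b2 : ∀ v, 0 < v → |χ2 v| ≤ 2 * B / (K * v ^ 2) := by
      intro v hv
      rw [f2 v hv]
      refine (abs_sub _ _).trans ?_
      rw [abs_div, abs_div, abs_of_pos (show 0 < (K * v) ^ 2 by positivity),
        abs_of_pos (show 0 < K * v ^ 2 by positivity), abs_of_nonneg (hb1 (l v)).1]
      have e1 : |S2 (l v)| / (K * v) ^ 2 ≤ B / (K * v ^ 2) := by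
        apply div_le_div₀ (by linarith) (hb2 _) (by positivity)
        have : K * v ^ 2 * 1 ≤ K * v ^ 2 * K := mul_le_mul_of_nonneg_left hK (by positivity)
        nlinarith only [hK]
      have e2 : S1 (l v) / (K * v ^ 2) ≤ B / (K * v ^ 2) :=
        div_le_div_of_nonneg_right (hb1 _).2 (by positivity)
      have e3 : 2 * B / (K * v ^ 2) = B / (K * v ^ 2) + B / (K * v ^ 2) := by ring
      linarith
    have hBM : B ≤ B * M := le_mul_of_one_le_right (by linarith) hM
    have hMB : M ≤ B * M := le_mul_of_one_le_left (by linarith) hB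
    have hone : 1 ≤ B * M := hB.trans hBM
    refine ⟨χ, χ1, χ2, fun v => χ v + v * χ1 v, fun v => 2 * χ1 v + v * χ2 v, ?_, ?_, b0, ?_, ?_⟩
    · rw [← hε]
      refine ⟨D0, D1, D2, ze, fun v _ _ => ⟨(b0 v).1, (b0 v).2.trans (by linarith)⟩, ?_, ?_⟩
      · intro v hv _
        refine (b1 v hv).trans ?_
        have h1 : B / (K * v) = B * (1 / (K * v)) := by ring
        rw [h1]
        apply mul_le_mul (by linarith) (by linarith) (by positivity) (by positivity)
      · intro v hv _
        refine (b2 v hv).trans ?_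
        exact div_le_div_of_nonneg_right (by linarith) (by positivity)
    · rw [← hε]
      refine ⟨?_, ?_, ?_, ?_, ?_, ?_, ?_⟩
      · intro v
        have h1 := (hasDerivAt_id v).mul (D0 v)
        refine HasDerivAt.congr_deriv h1 ?_
        simp only [id]
        ring
      · intro v
        have h1 := (D0 v).add ((hasDerivAt_id v).mul (D1 v))
        refine HasDerivAt.congr_deriv h1 ?_
        simp only [id]
        ring
      · have c1 : Continuous χ1 := continuous_iff_continuousAt.2 fun x => (D1 x).continuousAt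
        fun_prop
      · intro v hv
        obtain ⟨e0, e1, e2⟩ := ze v hv
        simp only [e0, e1, e2, mul_zero, add_zero, and_self]
      · intro v hv hvM
        obtain ⟨e0, e1⟩ := b0 v
        refine ⟨mul_nonneg hv.le e0, ?_⟩
        have : v * χ v ≤ M * 1 := mul_le_mul hvM e1 e0 (by linarith)
        linarith
      · intro v hv hvM
        obtain ⟨e0, e1⟩ := b0 v
        have h1 : |v * χ1 v| ≤ B := by
          rw [abs_mul, abs_of_pos hv]
          calc v * |χ1 v| ≤ v * (B / (K * v)) := mul_le_mul_of_nonneg_left (b1 v hv) hv.le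
            _ = B / K := by field_simp
            _ ≤ B := div_le_self (by linarith) hK
        have h2 : |χ v| ≤ 1 := by rw [abs_of_nonneg e0]; exact e1
        refine (abs_add_le _ _).trans ?_
        have h3 : 0 ≤ 1 / (K * v) := by positivity
        have h4 : 0 ≤ 8 * B * M * (1 / (K * v)) := by positivity
        linarith
      · intro v hv hvM
        have h1 : |v * χ2 v| ≤ 2 * B / (K * v) := by
          rw [abs_mul, abs_of_pos hv]
          calc v * |χ2 v| ≤ v * (2 * B / (K * v ^ 2)) := mul_le_mul_of_nonneg_left (b2 v hv) hv.le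
            _ = 2 * B / (K * v) := by field_simp
        have h2 : |2 * χ1 v| ≤ 2 * B / (K * v) := by
          rw [abs_mul, abs_of_pos (show (0 : ℝ) < 2 by norm_num)]
          calc 2 * |χ1 v| ≤ 2 * (B / (K * v)) := mul_le_mul_of_nonneg_left (b1 v hv) (by norm_num)
            _ = _ := by ring
        refine (abs_add_le _ _).trans ?_
        have h3 : 2 * B / (K * v) + 2 * B / (K * v) = 4 * B * v / (K * v ^ 2) := by
          field_simp
          ring
        have h4 : 4 * B * v / (K * v ^ 2) ≤ 8 * B * M / (K * v ^ 2) := by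
          apply div_le_div_of_nonneg_right _ (by positivity)
          have : B * v ≤ B * M := mul_le_mul_of_nonneg_left hvM (by linarith)
          have h5 : 0 ≤ B * M := by positivity
          linarith
        linarith
    · intro v hv
      have hv0 : 0 < v := hc.trans_le hv
      obtain ⟨e0, e1, e2⟩ := ho _ (hl1 v hv)
      simp only [f0 v hv0, f1 v hv0, e0, e1, zero_div, mul_zero, add_zero, and_self]
    · intro v hv
      rcases le_or_gt c v with h | h
      · rw [f0 v hv, (ho _ (hl1 v h)).1, sub_self]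
        positivity
      · rw [f0 v hv]
        have h1 : l v < 1 := by
          rw [hl]
          simp only
          have h2 : Real.log (v / c) < 0 := Real.log_neg (by positivity) ((div_lt_one hc).2 h)
          have := div_neg_of_neg_of_pos h2 hK0
          linarith
        obtain ⟨y, hy1, hy2⟩ := exists_hasDerivAt_eq_slope S S1 h1
          (fun u _ => (hd0 u).continuousAt.continuousWithinAt) (fun u _ => hd0 u)
        have h3 := (hb1 y).2
        rw [hy2, div_le_iff₀ (by linarith), (ho 1 le_rfl).1] at h3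
        have h4 : 1 - l v = |Real.log (v / c)| / K := by
          rw [hl]
          simp only
          have h2 : Real.log (v / c) < 0 := Real.log_neg (by positivity) ((div_lt_one hc).2 h)
          rw [abs_of_neg h2]
          ring
        rw [h4] at h3
        calc 1 - S (l v) ≤ B * (|Real.log (v / c)| / K) := h3
          _ = _ := by ring

end Pool.Agent.Q81.TF
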