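import Pool.Agent.Q81.TF.Dep

open Set MeasureTheory Filter Topology

namespace Pool.Agent.Q81.TF

/-- the function `f' ^ 2 / 2 - f f''`, whose derivative is `- f f'''` -/
noncomputable def Gf (f f1 f2 : ℝ → ℝ) (x : ℝ) : ℝ := f1 x ^ 2 / 2 - f x * f2 x

variable {n a0 a E : ℝ} {f f1 f2 f3 : ℝ → ℝ}

theorem Prof.dG (P : Prof n a0 a E f f1 f2 f3) {x : ℝ} (hx : x ∈ Ioc a0 a) :
    HasDerivAt (Gf f f1 f2) (-(f x * f3 x)) x := by
  have h1 := (((P.d1 x hx).pow 2).div_const 2).sub ((P.d0 x hx).mul (P.d2 x hx))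
  apply HasDerivAt.congr_deriv h1
  simp only [Nat.cast_ofNat, pow_one, Nat.add_one_sub_one]
  ring

theorem Prof.cont (P : Prof n a0 a E f f1 f2 f3) {ξ η : ℝ} (h0 : a0 < ξ) (h2 : η ≤ a) :
    ContinuousOn f (Icc ξ η) ∧ ContinuousOn f1 (Icc ξ η) ∧ ContinuousOn f2 (Icc ξ η) ∧
      ContinuousOn f3 (Icc ξ η) ∧ ContinuousOn (Gf f f1 f2) (Icc ξ η) ∧
      ContinuousOn (fun x => f x ^ (2 - n)) (Icc ξ η) := by
  have hsub : Icc ξ η ⊆ Ioc a0 a := fun x hx => ⟨h0.trans_le hx.1, hx.2.trans h2⟩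
  have c0 : ContinuousOn f (Icc ξ η) :=
    fun x hx => (P.d0 x (hsub hx)).continuousAt.continuousWithinAt
  refine ⟨c0, fun x hx => (P.d1 x (hsub hx)).continuousAt.continuousWithinAt,
    fun x hx => (P.d2 x (hsub hx)).continuousAt.continuousWithinAt, P.c3.mono hsub,
    fun x hx => (P.dG (hsub hx)).continuousAt.continuousWithinAt, ?_⟩
  exact c0.rpow_const (fun x hx => Or.inl (P.pos x (hsub hx)).ne')

theorem Prof.ii (P : Prof n a0 a E f f1 f2 f3) {ξ η : ℝ} (h0 : a0 < ξ) (h1 : ξ ≤ η) (h2 : η ≤ a) :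
    IntervalIntegrable (fun x => f x ^ (2 - n)) volume ξ η := by
  apply ContinuousOn.intervalIntegrable
  rw [uIcc_of_le h1]
  exact (P.cont h0 h2).2.2.2.2.2

theorem Prof.Gdiff (P : Prof n a0 a E f f1 f2 f3) {ξ η : ℝ} (h0 : a0 < ξ) (h1 : ξ ≤ η)
    (h2 : η ≤ a) : (Gf f f1 f2 ξ - Gf f f1 f2 η) ^ 2 ≤ (∫ x in ξ..η, f x ^ (2 - n)) * E := by
  rcases eq_or_lt_of_le h1 with h | h
  · rw [h, sub_self, intervalIntegral.integral_same, zero_mul]
    norm_num
  have hsub : Icc ξ η ⊆ Ioc a0 a := fun x hx => ⟨h0.trans_le hx.1, hx.2.trans h2⟩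
  obtain ⟨c0, c1, c2, c3, cG, cw⟩ := P.cont h0 h2
  have cu : ContinuousOn (fun x => f x ^ (n / 2) * f3 x) (Icc ξ η) :=
    (c0.rpow_const (fun x hx => Or.inl (P.pos x (hsub hx)).ne')).mul c3
  have cv : ContinuousOn (fun x => f x ^ ((2 - n) / 2)) (Icc ξ η) :=
    c0.rpow_const (fun x hx => Or.inl (P.pos x (hsub hx)).ne')
  have hcs := cs_int2 h cu cv (fun x hx => Real.rpow_pos_of_pos (P.pos x (hsub hx)) _)
  have e1 : ∫ x in ξ..η, f x ^ ((2 - n) / 2) * (f x ^ (n / 2) * f3 x) =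
      Gf f f1 f2 ξ - Gf f f1 f2 η := by
    have h3 : ∫ x in ξ..η, -(f x * f3 x) = Gf f f1 f2 η - Gf f f1 f2 ξ := by
      apply intervalIntegral.integral_eq_sub_of_hasDerivAt
      · intro x hx
        rw [uIcc_of_le h1] at hx
        exact P.dG (hsub hx)
      · apply ContinuousOn.intervalIntegrable
        rw [uIcc_of_le h1]
        exact (c0.mul c3).neg
    rw [intervalIntegral.integral_neg] at h3
    have h4 : ∫ x in ξ..η, f x ^ ((2 - n) / 2) * (f x ^ (n / 2) * f3 x) =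
        ∫ x in ξ..η, f x * f3 x := by
      apply intervalIntegral.integral_congr
      intro x hx
      rw [uIcc_of_le h1] at hx
      simp only
      rw [← mul_assoc, ← Real.rpow_add (P.pos x (hsub hx))]
      have h5 : (2 - n) / 2 + n / 2 = 1 := by ring
      rw [h5, Real.rpow_one]
    rw [h4]
    linarith
  have e2 : ∫ x in ξ..η, (f x ^ ((2 - n) / 2)) ^ 2 = ∫ x in ξ..η, f x ^ (2 - n) := by
    apply intervalIntegral.integral_congr
    intro x hx
    rw [uIcc_of_le h1] at hx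
    simp only
    rw [← Real.rpow_natCast (f x ^ ((2 - n) / 2)) 2, ← Real.rpow_mul (P.pos x (hsub hx)).le]
    congr 1
    push_cast
    ring
  have e3 : ∫ x in ξ..η, (f x ^ (n / 2) * f3 x) ^ 2 ≤ E := by
    have h4 : ∫ x in ξ..η, (f x ^ (n / 2) * f3 x) ^ 2 = ∫ x in ξ..η, f x ^ n * f3 x ^ 2 := by
      apply intervalIntegral.integral_congr
      intro x hx
      rw [uIcc_of_le h1] at hx
      simp only
      rw [mul_pow, ← Real.rpow_natCast (f x ^ (n / 2)) 2, ← Real.rpow_mul (P.pos x (hsub hx)).le]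
      congr 2
      push_cast
      ring
    rw [h4]
    refine le_trans ?_ P.en
    rw [intervalIntegral.integral_of_le h1]
    apply setIntegral_mono_set P.int
    · rw [EventuallyLE, ae_restrict_iff' measurableSet_Ioc]
      exact Eventually.of_forall (fun x hx =>
        mul_nonneg (Real.rpow_nonneg (P.pos x hx).le _) (sq_nonneg _))
    · exact (Eventually.of_forall (fun x hx => ⟨h0.trans hx.1, hx.2.trans h2⟩))
  rw [e1, e2] at hcs
  refine hcs.trans (mul_le_mul_of_nonneg_left e3 ?_)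
  exact intervalIntegral.integral_nonneg h1
    (fun x hx => Real.rpow_nonneg (P.pos x (hsub hx)).le _)

/-- the cost of a steep branch -/
theorem Prof.phase (P : Prof n a0 a E f f1 f2 f3) {p q κ d M : ℝ} (hp : a0 < p)
    (hpq : p ≤ q) (hq : q ≤ a) (hd : 0 < d) (hdf : ∀ x ∈ Icc p q, d ≤ f x)
    (hM : ∀ x ∈ Icc p q, f x ≤ M)
    (hs : (∀ x ∈ Icc p q, κ ≤ f1 x) ∨ (∀ x ∈ Icc p q, f1 x ≤ -κ)) :
    κ * ∫ x in p..q, f x ^ (2 - n) ≤ depth n d - depth n M := by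
  have hsub : Icc p q ⊆ Ioc a0 a := fun x hx => ⟨hp.trans_le hx.1, hx.2.trans hq⟩
  obtain ⟨c0, c1, c2, c3, cG, cw⟩ := P.cont hp hq
  have hpm : p ∈ Icc p q := ⟨le_rfl, hpq⟩
  have hqm : q ∈ Icc p q := ⟨hpq, le_rfl⟩
  have hd' : ∀ x ∈ Icc p q, HasDerivAt (fun x => depth n (f x)) (-(f x ^ (2 - n)) * f1 x) x :=
    fun x hx => (hasDerivAt_depth (P.pos x (hsub hx))).comp x (P.d0 x (hsub hx))
  have hint : IntervalIntegrable (fun x => -(f x ^ (2 - n)) * f1 x) volume p q := by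
    apply ContinuousOn.intervalIntegrable
    rw [uIcc_of_le hpq]
    exact cw.neg.mul c1
  have hftc : ∫ x in p..q, -(f x ^ (2 - n)) * f1 x = depth n (f q) - depth n (f p) := by
    apply intervalIntegral.integral_eq_sub_of_hasDerivAt _ hint
    intro x hx
    rw [uIcc_of_le hpq] at hx
    exact hd' x hx
  have b1 : ∀ x ∈ Icc p q, depth n (f x) ≤ depth n d := fun x hx => depth_anti hd (hdf x hx)
  have b2 : ∀ x ∈ Icc p q, depth n M ≤ depth n (f x) := fun x hx =>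
    depth_anti (P.pos x (hsub hx)) (hM x hx)
  have b3 := b1 p hpm
  have b4 := b1 q hqm
  have b5 := b2 p hpm
  have b6 := b2 q hqm
  have hii := P.ii hp hpq hq
  rw [← intervalIntegral.integral_const_mul]
  rcases hs with hs | hs
  · have h1 : ∫ x in p..q, κ * f x ^ (2 - n) ≤ ∫ x in p..q, -(-(f x ^ (2 - n)) * f1 x) := by
      apply intervalIntegral.integral_mono_on hpq (hii.const_mul _) hint.neg
      intro x hx
      have h2 := hs x hx
      have h3 : 0 ≤ f x ^ (2 - n) := Real.rpow_nonneg (P.pos x (hsub hx)).le _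
      show κ * f x ^ (2 - n) ≤ -(-(f x ^ (2 - n)) * f1 x)
      nlinarith only [h3, h2]
    rw [intervalIntegral.integral_neg, hftc] at h1
    linarith
  · have h1 : ∫ x in p..q, κ * f x ^ (2 - n) ≤ ∫ x in p..q, -(f x ^ (2 - n)) * f1 x := by
      apply intervalIntegral.integral_mono_on hpq (hii.const_mul _) hint
      intro x hx
      have h2 := hs x hx
      have h3 : 0 ≤ f x ^ (2 - n) := Real.rpow_nonneg (P.pos x (hsub hx)).le _
      nlinarith only [h3, h2]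
    rw [hftc] at h1
    linarith

/-- the cost of a flat part with negative curvature -/
theorem Prof.band (P : Prof n a0 a E f f1 f2 f3) (hn : 3 ≤ n) {p q κ η d : ℝ} (hp : a0 < p)
    (hpq : p ≤ q) (hq : q ≤ a) (hd : 0 < d) (hdf : ∀ x ∈ Icc p q, d ≤ f x)
    (hb : ∀ x ∈ Icc p q, |f1 x| ≤ κ) (h2 : ∀ x ∈ Icc p q, f x * f2 x ≤ -η) (hη : 0 < η) :
    η * ∫ x in p..q, f x ^ (2 - n) ≤ d ^ (3 - n) * (2 * κ) := by
  have hsub : Icc p q ⊆ Ioc a0 a := fun x hx => ⟨hp.trans_le hx.1, hx.2.trans hq⟩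
  obtain ⟨c0, c1, c2, c3, cG, cw⟩ := P.cont hp hq
  have hint : IntervalIntegrable f2 volume p q := by
    apply ContinuousOn.intervalIntegrable
    rw [uIcc_of_le hpq]
    exact c2
  have hftc : ∫ x in p..q, f2 x = f1 q - f1 p := by
    apply intervalIntegral.integral_eq_sub_of_hasDerivAt _ hint
    intro x hx
    rw [uIcc_of_le hpq] at hx
    exact P.d1 x (hsub hx)
  have hii := P.ii hp hpq hq
  rw [← intervalIntegral.integral_const_mul]
  have h1 : ∫ x in p..q, η * f x ^ (2 - n) ≤ ∫ x in p..q, -(d ^ (3 - n)) * f2 x := by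
    apply intervalIntegral.integral_mono_on hpq (hii.const_mul _) (hint.const_mul _)
    intro x hx
    have hfx := P.pos x (hsub hx)
    have e1 : f x ^ (2 - n) = f x ^ (3 - n) / f x := by
      rw [← Real.rpow_sub_one hfx.ne']
      congr 1
      ring
    have e2 : f x ^ (3 - n) ≤ d ^ (3 - n) :=
      Real.rpow_le_rpow_of_nonpos hd (hdf x hx) (by linarith)
    have e3 : 0 ≤ f x ^ (3 - n) := Real.rpow_nonneg hfx.le _
    have e4 := h2 x hx
    rw [e1, ← mul_div_assoc, div_le_iff₀ hfx]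
    have e5 : η * f x ^ (3 - n) ≤ η * d ^ (3 - n) := mul_le_mul_of_nonneg_left e2 hη.le
    have e6 : 0 ≤ d ^ (3 - n) := Real.rpow_nonneg hd.le _
    have e7 : d ^ (3 - n) * (f x * f2 x) ≤ d ^ (3 - n) * (-η) := mul_le_mul_of_nonneg_left e4 e6
    nlinarith only [e6, e5, e4]
  have h1' : ∫ x in p..q, -(d ^ (3 - n)) * f2 x = -(d ^ (3 - n)) * (f1 q - f1 p) := by
    rw [intervalIntegral.integral_const_mul, hftc]
  rw [h1'] at h1
  have h3 := abs_le.1 (hb p ⟨le_rfl, hpq⟩)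
  have h4 := abs_le.1 (hb q ⟨hpq, le_rfl⟩)
  have h5 : 0 ≤ d ^ (3 - n) := Real.rpow_nonneg hd.le _
  have h6 : d ^ (3 - n) * (f1 p - f1 q) ≤ d ^ (3 - n) * (2 * κ) :=
    mul_le_mul_of_nonneg_left (by linarith) h5
  linarith

theorem Prof.inv_below (P : Prof n a0 a E f f1 f2 f3) {p q lev : ℝ} (hp : a0 < p)
    (hq : q ≤ a) (h0 : f1 p ≤ lev) (hb : ∀ x ∈ Icc p q, f1 x = lev → f2 x < 0) :
    ∀ x ∈ Icc p q, f1 x ≤ lev := by
  have hsub : Icc p q ⊆ Ioc a0 a := fun x hx => ⟨hp.trans_le hx.1, hx.2.trans hq⟩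
  obtain ⟨c0, c1, c2, c3, cG, cw⟩ := P.cont hp hq
  intro x hx
  exact image_le_of_deriv_right_lt_deriv_boundary (f := f1) (f' := f2) (B := fun _ => lev)
    (B' := fun _ => 0) c1
    (fun y hy => (P.d1 y (hsub ⟨hy.1, hy.2.le⟩)).hasDerivWithinAt) h0
    (fun y => hasDerivAt_const y lev) (fun y hy h => hb y ⟨hy.1, hy.2.le⟩ h) hx

/-- the cost of the region where `f' ^ 2 / 2 - f f''` is large -/
theorem Prof.region (P : Prof n a0 a E f f1 f2 f3) (hn : 3 ≤ n) {x z σ d M : ℝ} (hx : a0 < x)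
    (hxz : x ≤ z) (hz : z ≤ a) (hσ : 0 < σ) (hfx : |f1 x| = σ)
    (hG : ∀ y ∈ Icc x z, σ ^ 2 / 8 ≤ Gf f f1 f2 y) (hd : 0 < d) (hdf : ∀ y ∈ Icc x z, d ≤ f y)
    (hM : ∀ y ∈ Icc x z, f y ≤ M) :
    σ * ∫ y in x..z, f y ^ (2 - n) ≤ 8 * (depth n d - depth n M) + 6 * d ^ (3 - n) := by
  have hxm : x ∈ Icc x z := ⟨le_rfl, hxz⟩
  have he0 : 0 ≤ depth n d - depth n M := by
    have := depth_anti (n := n) hd ((hdf x hxm).trans (hM x hxm))
    linarith
  have hd3 : 0 ≤ d ^ (3 - n) := Real.rpow_nonneg hd.le _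
  have hsub : Icc x z ⊆ Ioc a0 a := fun y hy => ⟨hx.trans_le hy.1, hy.2.trans hz⟩
  have hband : ∀ y ∈ Icc x z, |f1 y| ≤ σ / 4 → f y * f2 y ≤ -(3 * σ ^ 2 / 32) := by
    intro y hy hle
    have h1 := hG y hy
    unfold Gf at h1
    have h2 : f1 y ^ 2 ≤ (σ / 4) ^ 2 := by
      rw [← sq_abs]
      exact pow_le_pow_left₀ (abs_nonneg _) hle 2
    nlinarith only [h2, h1]
  have hneg : ∀ y ∈ Icc x z, |f1 y| ≤ σ / 4 → f2 y < 0 := by
    intro y hy hle
    have h1 := hband y hy hle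
    have h2 := P.pos y (hsub hy)
    by_contra hcon
    push Not at hcon
    have h3 : 0 ≤ f y * f2 y := mul_nonneg h2.le hcon
    have h4 : 0 < σ ^ 2 := by positivity
    linarith
  -- the falling phase
  have hfall : ∀ p ∈ Icc x z, f1 p ≤ -(σ / 4) →
      σ / 4 * ∫ y in p..z, f y ^ (2 - n) ≤ depth n d - depth n M := by
    intro p hp hle
    apply P.phase (hx.trans_le hp.1) hp.2 hz hd (fun y hy => hdf y ⟨hp.1.trans hy.1, hy.2⟩)
      (fun y hy => hM y ⟨hp.1.trans hy.1, hy.2⟩)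
    right
    apply P.inv_below (hx.trans_le hp.1) hz hle
    intro y hy heq
    apply hneg y ⟨hp.1.trans hy.1, hy.2⟩
    rw [heq, abs_neg, abs_of_pos (by linarith)]
  rcases abs_choice (f1 x) with hpos | hneg'
  · -- rising at `x`
    have hfx' : f1 x = σ := by rw [← hpos, hfx]
    obtain ⟨c0, c1, c2, c3, cG, cw⟩ := P.cont hx hz
    obtain ⟨p, hp, hp1, hp2⟩ := split_right (κ := σ / 4) hxz c1 (by rw [hfx']; linarith)
    have i1 := P.phase (κ := σ / 4) hx hp.1 (hp.2.trans hz) hd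
      (fun y hy => hdf y ⟨hy.1, hy.2.trans hp.2⟩) (fun y hy => hM y ⟨hy.1, hy.2.trans hp.2⟩)
      (Or.inl hp1)
    rcases hp2 with hpz | hpe
    · rw [hpz] at i1
      linarith
    · obtain ⟨q, hq, hq1, hq2⟩ := split_right (u := f1) (a := p) (b := z) (κ := -(σ / 4)) hp.2
        (c1.mono (Icc_subset_Icc_left hp.1)) (by rw [hpe]; linarith)
      have hup := P.inv_below (p := p) (q := z) (lev := σ / 4) (hx.trans_le hp.1) hz hpe.le
        (fun y hy heq => hneg y ⟨hp.1.trans hy.1, hy.2⟩ (by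
          rw [heq, abs_of_pos (by linarith)]))
      have hab : ∀ y ∈ Icc p q, |f1 y| ≤ σ / 4 := fun y hy =>
        abs_le.2 ⟨hq1 y hy, hup y ⟨hy.1, hy.2.trans hq.2⟩⟩
      have i2 := P.band hn (p := p) (q := q) (κ := σ / 4) (η := 3 * σ ^ 2 / 32) (d := d)
        (hx.trans_le hp.1) hq.1 (hq.2.trans hz) hd
        (fun y hy => hdf y ⟨hp.1.trans hy.1, hy.2.trans hq.2⟩) hab
        (fun y hy => hband y ⟨hp.1.trans hy.1, hy.2.trans hq.2⟩ (hab y hy)) (by positivity)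
      have i2' : σ * ∫ y in p..q, f y ^ (2 - n) ≤ 6 * d ^ (3 - n) := by
        have h1 : 3 * σ ^ 2 / 32 * ∫ y in p..q, f y ^ (2 - n) =
            σ * (3 / 32 * (σ * ∫ y in p..q, f y ^ (2 - n))) := by ring
        have h2 : d ^ (3 - n) * (2 * (σ / 4)) = σ * (d ^ (3 - n) / 2) := by ring
        rw [h1, h2] at i2
        have h3 := le_of_mul_le_mul_left i2 hσ
        linarith
      have s1 : ∫ y in x..z, f y ^ (2 - n) = (∫ y in x..p, f y ^ (2 - n)) +
          ((∫ y in p..q, f y ^ (2 - n)) + ∫ y in q..z, f y ^ (2 - n)) := by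
        rw [intervalIntegral.integral_add_adjacent_intervals
          (P.ii (hx.trans_le hp.1) hq.1 (hq.2.trans hz))
          (P.ii (hx.trans_le (hp.1.trans hq.1)) hq.2 hz),
          intervalIntegral.integral_add_adjacent_intervals
          (P.ii hx hp.1 (hp.2.trans hz)) (P.ii (hx.trans_le hp.1) hp.2 hz)]
      have i3 : σ / 4 * ∫ y in q..z, f y ^ (2 - n) ≤ depth n d - depth n M := by
        rcases hq2 with hqz | hqe
        · rw [hqz, intervalIntegral.integral_same, mul_zero]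
          exact he0
        · exact hfall q ⟨hp.1.trans hq.1, hq.2⟩ hqe.le
      rw [s1]
      linarith
  · -- falling at `x`
    have hfx' : f1 x = -σ := by
      rw [hneg'] at hfx
      linarith
    have i1 := hfall x hxm (by rw [hfx']; linarith)
    linarith

theorem Prof.G4 (P : Prof n a0 a E f f1 f2 f3) (hn : 3 ≤ n) {x d M : ℝ} (hx : x ∈ Ioc a0 a)
    (hσ : 0 < |f1 x|) (hG : |f1 x| ^ 2 / 4 ≤ Gf f f1 f2 x) (hGa : Gf f f1 f2 a < |f1 x| ^ 2 / 8)
    (hd : 0 < d) (hd1 : d ≤ 1) (hdf : ∀ y ∈ Icc x a, d ≤ f y) (hM1 : 1 ≤ M)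
    (hM : ∀ y ∈ Icc x a, f y ≤ M) :
    |f1 x| ^ 5 ≤ 512 * (n + M) * E * (1 + depth n d) := by
  obtain ⟨σ, hσe⟩ : ∃ σ, σ = |f1 x| := ⟨_, rfl⟩
  rw [← hσe] at hσ hG hGa ⊢
  have hE := P.E_nonneg
  obtain ⟨c0, c1, c2, c3, cG, cw⟩ := P.cont hx.1 (le_refl a)
  have h4 : 0 < σ ^ 2 := by positivity
  obtain ⟨z, hz, hz1, hz2⟩ := split_right (u := Gf f f1 f2) (κ := σ ^ 2 / 8) hx.2 cG (by linarith)
  have hze : Gf f f1 f2 z = σ ^ 2 / 8 := by
    rcases hz2 with h | h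
    · have := hz1 z ⟨hz.1, le_rfl⟩
      rw [h] at this
      linarith
    · exact h
  have h1 := P.region hn hx.1 hz.1 hz.2 hσ hσe.symm hz1 hd
    (fun y hy => hdf y ⟨hy.1, hy.2.trans hz.2⟩) (fun y hy => hM y ⟨hy.1, hy.2.trans hz.2⟩)
  have h2 := P.Gdiff hx.1 hz.1 hz.2
  rw [hze] at h2
  have h3 : (σ ^ 2 / 8) ^ 2 ≤ (Gf f f1 f2 x - σ ^ 2 / 8) ^ 2 :=
    pow_le_pow_left₀ (by positivity) (by linarith) 2
  have h5 : (σ ^ 2 / 8) ^ 2 * σ ≤ (∫ y in x..z, f y ^ (2 - n)) * E * σ :=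
    mul_le_mul_of_nonneg_right (h3.trans h2) hσ.le
  have h6 : (∫ y in x..z, f y ^ (2 - n)) * E * σ ≤
      (8 * (depth n d - depth n M) + 6 * d ^ (3 - n)) * E := by
    calc (∫ y in x..z, f y ^ (2 - n)) * E * σ = σ * (∫ y in x..z, f y ^ (2 - n)) * E := by ring
      _ ≤ _ := mul_le_mul_of_nonneg_right h1 hE
  have h7 : 8 * (depth n d - depth n M) + 6 * d ^ (3 - n) ≤ 8 * ((n + M) * (1 + depth n d)) := by
    have e1 := depth_low (n := n) (M := M) (by linarith) hM1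
    have e2 := rpow_depth hn hd
    have e3 := depth_nonneg (n := n) hd hd1
    rw [e2]
    nlinarith only [e3, e1, hM1, hn]
  have h8 : (8 * (depth n d - depth n M) + 6 * d ^ (3 - n)) * E ≤
      8 * ((n + M) * (1 + depth n d)) * E := mul_le_mul_of_nonneg_right h7 hE
  have h9 : σ ^ 5 = 64 * ((σ ^ 2 / 8) ^ 2 * σ) := by ring
  rw [h9]
  nlinarith only [h8, h6, h5]

/-- the bound of the slope in terms of the depth of the necks -/
theorem Prof.slopeG (P : Prof n a0 a E f f1 f2 f3) (hn : 3 ≤ n) {α d M Pm : ℝ}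
    (hα : α ∈ Ioc a0 a) (hα1 : 0 ≤ f1 α) (hd : 0 < d) (hd1 : d ≤ 1)
    (hdf : ∀ y ∈ Icc α a, d ≤ f y) (hM1 : 1 ≤ M) (hM : ∀ y ∈ Icc α a, f y ≤ M)
    (hPm : |f1 a| ≤ Pm) (hGa : Gf f f1 f2 a ≤ Pm ^ 2 / 8) :
    ∀ x ∈ Icc α a, |f1 x| ≤ Pm ∨ |f1 x| ^ 5 ≤ 512 * (n + M) * E * (1 + depth n d) := by
  have hPm0 : 0 ≤ Pm := (abs_nonneg _).trans hPm
  have key : ∀ y ∈ Icc α a, Pm < |f1 y| → |f1 y| ^ 2 / 4 ≤ Gf f f1 f2 y →
      |f1 y| ^ 5 ≤ 512 * (n + M) * E * (1 + depth n d) := by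
    intro y hy h1 h2
    apply P.G4 hn ⟨hα.1.trans_le hy.1, hy.2⟩ (hPm0.trans_lt h1) h2 _ hd hd1
      (fun u hu => hdf u ⟨hy.1.trans hu.1, hu.2⟩) hM1 (fun u hu => hM u ⟨hy.1.trans hu.1, hu.2⟩)
    have h3 : Pm ^ 2 < |f1 y| ^ 2 := pow_lt_pow_left₀ h1 hPm0 (by norm_num)
    linarith
  intro x hx
  rcases le_or_gt (|f1 x|) Pm with h1 | h1
  · exact Or.inl h1
  right
  rcases le_or_gt (|f1 x| ^ 2 / 4) (Gf f f1 f2 x) with h2 | h2
  · exact key x hx h1 h2
  have hxs : a0 < x := hα.1.trans_le hx.1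
  rcases abs_choice (f1 x) with hpos | hneg'
  · -- rising
    rw [hpos] at h1 h2
    obtain ⟨c0, c1, c2, c3, cG, cw⟩ := P.cont hxs (le_refl a)
    obtain ⟨p, hp, hp1, hp2⟩ := split_right (u := fun y => f1 y ^ 2 / 4 - Gf f f1 f2 y) (κ := 0)
      hx.2 (((c1.pow 2).div_const 4).sub cG) (by linarith)
    have hmono : ∀ y ∈ Icc x p, 0 ≤ f2 y := by
      intro y hy
      have h3 := hp1 y hy
      unfold Gf at h3
      have h4 := P.pos y ⟨hxs.trans_le hy.1, hy.2.trans hp.2⟩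
      have h5 : 0 ≤ f y * f2 y := by nlinarith only [h3, sq_nonneg (f1 y)]
      exact nonneg_of_mul_nonneg_right h5 h4
    have hle : f1 x ≤ f1 p := by
      have hm : MonotoneOn f1 (Icc x p) := by
        apply monotoneOn_of_deriv_nonneg (convex_Icc x p)
          (c1.mono (Icc_subset_Icc_right hp.2))
        · intro y hy
          rw [interior_Icc] at hy
          exact (P.d1 y ⟨hxs.trans hy.1, hy.2.le.trans hp.2⟩).differentiableAt.differentiableWithinAt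
        · intro y hy
          rw [interior_Icc] at hy
          rw [(P.d1 y ⟨hxs.trans hy.1, hy.2.le.trans hp.2⟩).deriv]
          exact hmono y ⟨hy.1.le, hy.2.le⟩
      exact hm ⟨le_rfl, hp.1⟩ ⟨hp.1, le_rfl⟩ hp.1
    have habs : |f1 p| = f1 p := abs_of_nonneg (by linarith)
    rcases hp2 with hpa | hpe
    · rw [hpa] at hle
      have := (le_abs_self _).trans hPm
      linarith
    · have hpe' : f1 p ^ 2 / 4 - Gf f f1 f2 p = 0 := hpe
      have h6 := key p ⟨hx.1.trans hp.1, hp.2⟩ (by rw [habs]; linarith) (by rw [habs]; linarith)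
      refine le_trans ?_ h6
      rw [hpos, habs]
      exact pow_le_pow_left₀ (by linarith) hle 5
  · -- falling
    have hfx : f1 x = -|f1 x| := by linarith
    have h2' : f1 x ^ 2 / 4 - Gf f f1 f2 x > 0 := by
      rw [← sq_abs]
      linarith
    obtain ⟨c0, c1, c2, c3, cG, cw⟩ := P.cont hα.1 hx.2
    obtain ⟨p, hp, hp1, hp2⟩ := split_left (u := fun y => f1 y ^ 2 / 4 - Gf f f1 f2 y) (κ := 0)
      hx.1 (((c1.pow 2).div_const 4).sub cG) (by linarith)
    have hps : a0 < p := hα.1.trans_le hp.1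
    have hmono : ∀ y ∈ Icc p x, 0 ≤ f2 y := by
      intro y hy
      have h3 := hp1 y hy
      unfold Gf at h3
      have h4 := P.pos y ⟨hps.trans_le hy.1, hy.2.trans hx.2⟩
      have h5 : 0 ≤ f y * f2 y := by nlinarith only [h3, sq_nonneg (f1 y)]
      exact nonneg_of_mul_nonneg_right h5 h4
    have hle : f1 p ≤ f1 x := by
      have hm : MonotoneOn f1 (Icc p x) := by
        apply monotoneOn_of_deriv_nonneg (convex_Icc p x)
          (c1.mono (Icc_subset_Icc_left hp.1))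
        · intro y hy
          rw [interior_Icc] at hy
          exact (P.d1 y ⟨hps.trans hy.1, hy.2.le.trans hx.2⟩).differentiableAt.differentiableWithinAt
        · intro y hy
          rw [interior_Icc] at hy
          rw [(P.d1 y ⟨hps.trans hy.1, hy.2.le.trans hx.2⟩).deriv]
          exact hmono y ⟨hy.1.le, hy.2.le⟩
      exact hm ⟨le_rfl, hp.2⟩ ⟨hp.2, le_rfl⟩ hp.2
    have hneg2 : f1 p < 0 := by linarith
    have habs : |f1 p| = -f1 p := abs_of_neg hneg2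
    rcases hp2 with hpa | hpe
    · rw [hpa] at hneg2
      linarith
    · have hpe' : f1 p ^ 2 / 4 - Gf f f1 f2 p = 0 := hpe
      have h7 : |f1 p| ^ 2 = f1 p ^ 2 := sq_abs _
      have h6 := key p ⟨hp.1, hp.2.trans hx.2⟩ (by rw [habs]; linarith) (by rw [h7]; linarith)
      refine le_trans ?_ h6
      apply pow_le_pow_left₀ (abs_nonneg _)
      rw [habs]
      linarith

end Pool.Agent.Q81.TF
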