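import Pool.Agent.Q81.TF.Mass

open Set MeasureTheory Filter Topology

namespace Pool.Agent.Q81.TF

variable {n a0 a E : ℝ} {f f1 f2 f3 : ℝ → ℝ}

/-- the constant in the lower bound of the mass -/
noncomputable def massC (n κ β c P0 B0 M L : ℝ) : ℝ :=
  (M / c) ^ (n - 1) * (4 * slopeC n κ β P0 B0 * 2 ^ ((n * β - 3) / 5) *
    (2 + β * |Real.log (M * L / c)| - Real.log κ + β))

/-- a short interval before the first point of height `v` -/
theorem Prof.before (P : Prof n a0 a E f f1 f2 f3) {v xv p : ℝ} (hv : 0 < v)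
    (hxv : xv ∈ Ioc a0 a) (hfxv : f xv = v) (hva : v / 2 ≤ f a)
    (hlt : ∀ x ∈ Ioo a0 xv, f x < v)
    (hp : ∀ x ∈ Ioc a0 a, (∃ y ∈ Ioc a0 x, v / 2 ≤ f y) → |f1 x| ≤ p) :
    ∃ y, a0 < y ∧ y < xv ∧ (∀ u ∈ Icc y xv, v / 2 ≤ f u) ∧ v / 2 ≤ p * (xv - y) := by
  obtain ⟨xh, hxh, hfxh, hlth⟩ := P.first (show 0 < v / 2 by linarith) hva
  have hxhv : xh ≤ xv := by
    by_contra hcon
    push Not at hcon
    have := hlth xv ⟨hxv.1, hcon⟩
    linarith
  have hsub : Icc xh xv ⊆ Ioc a0 a := fun x hx => ⟨hxh.1.trans_le hx.1, hx.2.trans hxv.2⟩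
  have hcf : ContinuousOn f (Icc xh xv) :=
    fun x hx => (P.d0 x (hsub hx)).continuousAt.continuousWithinAt
  have hcomp : IsCompact (Icc xh xv ∩ f ⁻¹' Iic (v / 2)) :=
    (isCompact_Icc).of_isClosed_subset (hcf.preimage_isClosed_of_isClosed isClosed_Icc isClosed_Iic)
      inter_subset_left
  obtain ⟨y, hy1, hy2⟩ := hcomp.exists_isGreatest ⟨xh, ⟨le_rfl, hxhv⟩, hfxh.le⟩
  have hyv : y < xv := by
    rcases eq_or_lt_of_le hy1.1.2 with h | h
    · have h1 : f y ≤ v / 2 := hy1.2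
      rw [h, hfxv] at h1
      linarith
    · exact h
  have hgt : ∀ u ∈ Ioc y xv, v / 2 < f u := by
    intro u hu
    by_contra hcon
    have : u ≤ y := hy2 ⟨⟨hy1.1.1.trans hu.1.le, hu.2⟩, not_lt.1 hcon⟩
    exact absurd hu.1 (not_lt.2 this)
  have hfy : v / 2 ≤ f y := by
    have hca : ContinuousAt f y := (P.d0 y (hsub hy1.1)).continuousAt
    have ht : Tendsto f (𝓝[>] y) (𝓝 (f y)) := hca.tendsto.mono_left nhdsWithin_le_nhds
    refine ge_of_tendsto ht ?_
    have hmem : Ioc y xv ∈ 𝓝[>] y := Ioc_mem_nhdsGT hyv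
    filter_upwards [hmem] with x hx
    exact (hgt x hx).le
  refine ⟨y, (hsub hy1.1).1, hyv, ?_, ?_⟩
  · intro u hu
    rcases eq_or_lt_of_le hu.1 with h | h
    · rw [← h]
      exact hfy
    · exact (hgt u ⟨h, hu.2⟩).le
  · obtain ⟨c, hc1, hc2⟩ := exists_hasDerivAt_eq_slope f f1 hyv
      (fun x hx' => (P.d0 x (hsub ⟨hy1.1.1.trans hx'.1, hx'.2⟩)).continuousAt.continuousWithinAt)
      (fun x hx' => P.d0 x (hsub ⟨hy1.1.1.trans hx'.1.le, hx'.2.le⟩))
    have h1 : f1 c ≤ p := (le_abs_self _).trans (hp c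
      (hsub ⟨hy1.1.1.trans hc1.1.le, hc1.2.le⟩) ⟨xh, ⟨hxh.1, hy1.1.1.trans hc1.1.le⟩, hfxh.ge⟩)
    rw [hc2, div_le_iff₀ (by linarith)] at h1
    have h2 : f y ≤ v / 2 := hy1.2
    linarith

theorem Prof.mass (P : Prof n a0 a E f f1 f2 f3) (hn : 3 ≤ n) {κ β c P0 B0 M L : ℝ}
    (hκ : 0 < κ) (hκ1 : κ ≤ 1) (hβ : 1 ≤ β) (hnβ' : n * β ≤ 5 * n - 12)
    (hN : Neck κ β a0 a f)
    (hc : 0 < c) (hc1 : c ≤ 1) (hca : c ≤ f a) (hP : 0 ≤ P0) (hB : 0 ≤ B0)
    (hP0 : ∀ x ∈ Ioc a0 a, κ * c ^ β ≤ f x → |f1 x| ≤ P0) (hB0 : |f2 a| ≤ B0)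
    (hM : ∀ x ∈ Ioc a0 a, f x ≤ M) (hL : a - a0 ≤ L) {m : ℝ → ℝ}
    (hm1 : ∀ y z w, a0 < y → y ≤ z → z ≤ a → 0 ≤ w → (∀ u ∈ Icc y z, w ≤ f u) →
      w * (z - y) ≤ m z)
    (hm2 : ∀ x ∈ Ioc a0 a, ∀ w, 0 ≤ w → (∀ u ∈ Ioc a0 x, f u ≤ w) → m x ≤ w * (x - a0))
    (hm3 : ∀ x y, a0 < x → x ≤ y → y ≤ a → m x ≤ m y) :
    ∀ x ∈ Ioc a0 a, f x ^ (n - 1) ≤ massC n κ β c P0 B0 M L *
      ((1 + |Real.log (m x)|) * ((1 + E) * m x)) := by
  have hE := P.E_nonneg
  have hnβ : 3 ≤ n * β := by nlinarith only [hn, hβ]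
  intro x hx
  obtain ⟨v, hv⟩ : ∃ v, v = min (f x) c := ⟨_, rfl⟩
  have hfx := P.pos x hx
  have hv0 : 0 < v := by rw [hv]; exact lt_min hfx hc
  have hvc : v ≤ c := by rw [hv]; exact min_le_right _ _
  have hvf : v ≤ f x := by rw [hv]; exact min_le_left _ _
  have hv1 : v ≤ 1 := hvc.trans hc1
  have hcM : c ≤ M := hca.trans (hM a ⟨P.lt, le_rfl⟩)
  have hM0 : 0 < M := hc.trans_le hcM
  have hMc : 1 ≤ M / c := by rw [one_le_div hc]; exact hcM
  have hL0 : 0 < L := lt_of_lt_of_le (by linarith [P.lt]) hL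
  obtain ⟨xv, hxv, hfxv, hltv⟩ := P.first hv0 (hvc.trans hca)
  have hxvx : xv ≤ x := by
    by_contra hcon
    push Not at hcon
    have := hltv x ⟨hx.1, hcon⟩
    linarith
  have hsl := P.slope (by linarith) hκ hκ1 hβ hnβ hN hc hc1 hca hP hB hP0 hB0
    (show 0 < v / 2 by linarith) (by linarith)
  obtain ⟨γ, hγ⟩ : ∃ γ, γ = (n * β - 3) / 5 := ⟨_, rfl⟩
  obtain ⟨C0, hC0⟩ : ∃ C0, C0 = slopeC n κ β P0 B0 := ⟨_, rfl⟩
  have hC0p : 0 < C0 := by rw [hC0]; exact slopeC_pos hκ hP hB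
  rw [← hγ, ← hC0] at hsl
  obtain ⟨y, hy1, hy2, hy3, hy4⟩ := P.before hv0 hxv hfxv (by linarith) hltv hsl
  obtain ⟨p, hp⟩ : ∃ p, p = C0 * ((1 - Real.log (v / 2)) * (Real.sqrt (1 + E) *
    (v / 2) ^ (-γ))) := ⟨_, rfl⟩
  rw [← hp] at hy4
  have hlog2 : -Real.log (v / 2) ≤ 1 - Real.log v := by
    rw [Real.log_div hv0.ne' (by norm_num)]
    have := Real.log_two_lt_d9
    linarith
  have hlogv0 : 0 ≤ -Real.log v := by
    have := Real.log_nonpos hv0.le hv1
    linarith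
  have hlogv2 : 0 < 1 - Real.log (v / 2) := by
    have := Real.log_nonpos (show 0 ≤ v / 2 by linarith) (by linarith)
    linarith
  have hp0 : 0 < p := by
    rw [hp]
    have : 0 < Real.sqrt (1 + E) := Real.sqrt_pos.2 (by linarith)
    positivity
  have hmx : v / 2 * (xv - y) ≤ m x :=
    (hm1 y xv (v / 2) hy1 hy2.le hxv.2 (by linarith) hy3).trans
      (hm3 xv x hxv.1 hxvx hx.2)
  have h1 : v ^ 2 ≤ 4 * p * m x := by
    have h2 : v / 2 * (v / 2) ≤ v / 2 * (p * (xv - y)) :=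
      mul_le_mul_of_nonneg_left hy4 (by linarith)
    have h3 : p * (v / 2 * (xv - y)) ≤ p * m x := mul_le_mul_of_nonneg_left hmx hp0.le
    nlinarith only [h2, h3]
  have hm0 : 0 < m x := by
    have : 0 < v / 2 * (xv - y) := mul_pos (by linarith) (by linarith)
    linarith
  -- the height in terms of the mass
  have h4 : ∀ u ∈ Ioc a0 x, κ * (min (f u) c) ^ β ≤ v := by
    intro u hu
    have hfu := P.pos u ⟨hu.1, hu.2.trans hx.2⟩
    have h5 : (min (f u) c) ^ β ≤ c ^ β :=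
      Real.rpow_le_rpow (le_min hfu.le hc.le) (min_le_right _ _) (by linarith)
    have h6 : c ^ β ≤ c := by
      have := Real.rpow_le_rpow_of_exponent_ge hc hc1 hβ
      rwa [Real.rpow_one] at this
    have h7 : κ * (min (f u) c) ^ β ≤ c := by
      have h8 : 0 ≤ (min (f u) c) ^ β := Real.rpow_nonneg (le_min hfu.le hc.le) _
      nlinarith only [h5, h6, h8, hκ1]
    rw [hv]
    refine le_min ?_ h7
    rcases eq_or_lt_of_le hu.2 with h | h
    · rw [h]
      have h8 : (min (f x) c) ^ β ≤ min (f x) c := by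
        have := Real.rpow_le_rpow_of_exponent_ge (lt_min hfx hc)
          ((min_le_right (f x) c).trans hc1) hβ
        rwa [Real.rpow_one] at this
      have h9 : min (f x) c ≤ f x := min_le_left _ _
      have h10 : 0 ≤ (min (f x) c) ^ β := Real.rpow_nonneg (le_min hfx.le hc.le) _
      nlinarith only [h8, h9, h10, hκ1]
    rcases eq_or_lt_of_le hx.2 with h' | h'
    · rw [h']
      exact h7.trans hca
    · refine le_trans ?_ (hN u x a hu.1 h h' le_rfl)
      apply mul_le_mul_of_nonneg_left _ hκ.le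
      apply Real.rpow_le_rpow (le_min hfu.le hc.le) _ (by linarith)
      exact min_le_min le_rfl hca
  have h11 : ∀ u ∈ Ioc a0 x, f u ≤ M / c * (v / κ) ^ (1 / β) := by
    intro u hu
    have hfu := P.pos u ⟨hu.1, hu.2.trans hx.2⟩
    have h12 : min (f u) c ≤ (v / κ) ^ (1 / β) := by
      have h13 : (min (f u) c) ^ β ≤ v / κ := by
        rw [le_div_iff₀ hκ]
        linarith [h4 u hu]
      have h14 : ((min (f u) c) ^ β) ^ (1 / β) ≤ (v / κ) ^ (1 / β) :=
        Real.rpow_le_rpow (Real.rpow_nonneg (le_min hfu.le hc.le) _) h13 (by positivity)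
      rwa [← Real.rpow_mul (le_min hfu.le hc.le), mul_one_div_cancel (by linarith),
        Real.rpow_one] at h14
    have h15 : f u ≤ M / c * min (f u) c := by
      rcases le_total (f u) c with h | h
      · rw [min_eq_left h]
        nlinarith only [hMc, hfu]
      · rw [min_eq_right h, div_mul_cancel₀ _ hc.ne']
        exact hM u ⟨hu.1, hu.2.trans hx.2⟩
    exact h15.trans (mul_le_mul_of_nonneg_left h12 (by linarith))
  have h16 : m x ≤ M * L / c * (v / κ) ^ (1 / β) := by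
    have h17 := hm2 x hx _ (by positivity) h11
    refine h17.trans ?_
    have h18 : x - a0 ≤ L := by linarith [hx.2]
    calc M / c * (v / κ) ^ (1 / β) * (x - a0) ≤ M / c * (v / κ) ^ (1 / β) * L :=
          mul_le_mul_of_nonneg_left h18 (by positivity)
      _ = M * L / c * (v / κ) ^ (1 / β) := by ring
  have h19 : -Real.log v ≤ β * (|Real.log (m x)| + |Real.log (M * L / c)|) - Real.log κ := by
    have h20 := Real.log_le_log hm0 h16
    rw [Real.log_mul (by positivity) (by positivity), Real.log_rpow (by positivity),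
      Real.log_div hv0.ne' hκ.ne'] at h20
    have h21 : β * Real.log (m x) ≤ β * Real.log (M * L / c) + (Real.log v - Real.log κ) := by
      have h22 := mul_le_mul_of_nonneg_left h20 (show 0 ≤ β by linarith)
      have h23 : β * (1 / β * (Real.log v - Real.log κ)) = Real.log v - Real.log κ := by
        field_simp
      rw [mul_add, h23] at h22
      exact h22
    have h24 := neg_abs_le (Real.log (m x))
    have h25 := le_abs_self (Real.log (M * L / c))
    have h26 : β * -|Real.log (m x)| ≤ β * Real.log (m x) :=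
      mul_le_mul_of_nonneg_left h24 (by linarith)
    have h27 : β * Real.log (M * L / c) ≤ β * |Real.log (M * L / c)| :=
      mul_le_mul_of_nonneg_left h25 (by linarith)
    linarith
  have hκl : 0 ≤ -Real.log κ := by
    have := Real.log_nonpos hκ.le hκ1
    linarith
  obtain ⟨G, hG⟩ : ∃ G, G = 2 + β * |Real.log (M * L / c)| - Real.log κ + β := ⟨_, rfl⟩
  have h28 : 1 - Real.log (v / 2) ≤ G * (1 + |Real.log (m x)|) := by
    rw [hG]
    have e1 := abs_nonneg (Real.log (m x))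
    have e2 : 0 ≤ β * |Real.log (M * L / c)| := by positivity
    have e3 : 0 ≤ (2 + β * |Real.log (M * L / c)| - Real.log κ) * |Real.log (m x)| :=
      mul_nonneg (by linarith) e1
    have e4 : (2 + β * |Real.log (M * L / c)| - Real.log κ + β) * (1 + |Real.log (m x)|) =
        2 + β * |Real.log (M * L / c)| - Real.log κ + β + β * |Real.log (m x)| +
        (2 + β * |Real.log (M * L / c)| - Real.log κ) * |Real.log (m x)| := by ring
    rw [e4]
    linarith
  have hG0 : 0 < G := by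
    rw [hG]
    have e2 : 0 ≤ β * |Real.log (M * L / c)| := by positivity
    linarith
  -- assembling
  have h29 : v ^ (n - 1) ≤ 4 * C0 * 2 ^ γ * G * ((1 + |Real.log (m x)|) * ((1 + E) * m x)) := by
    have e1 : v ^ (n - 1) = v ^ (n - 3) * v ^ 2 := by
      rw [← Real.rpow_natCast v 2, ← Real.rpow_add hv0]
      congr 1
      norm_num
      ring
    have e2 : v ^ (n - 3) * (v / 2) ^ (-γ) ≤ 2 ^ γ := by
      rw [Real.div_rpow hv0.le (by norm_num), Real.rpow_neg (by norm_num : (0 : ℝ) ≤ 2)]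
      have e3 : v ^ (n - 3) * v ^ (-γ) ≤ 1 := by
        rw [← Real.rpow_add hv0]
        apply Real.rpow_le_one hv0.le hv1
        rw [hγ]
        linarith
      have e4 : (0 : ℝ) < 2 ^ γ := by positivity
      calc v ^ (n - 3) * (v ^ (-γ) / (2 ^ γ)⁻¹) = (v ^ (n - 3) * v ^ (-γ)) * 2 ^ γ := by
            field_simp
        _ ≤ 1 * 2 ^ γ := mul_le_mul_of_nonneg_right e3 e4.le
        _ = 2 ^ γ := one_mul _
    have e5 : Real.sqrt (1 + E) ≤ 1 + E := by
      rw [Real.sqrt_le_left (by linarith)]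
      nlinarith only [hE]
    have e6 : 0 ≤ v ^ (n - 3) := Real.rpow_nonneg hv0.le _
    have e7 : v ^ (n - 3) * p ≤ C0 * 2 ^ γ * G * ((1 + |Real.log (m x)|) * (1 + E)) := by
      rw [hp]
      calc v ^ (n - 3) * (C0 * ((1 - Real.log (v / 2)) * (Real.sqrt (1 + E) * (v / 2) ^ (-γ))))
          = C0 * ((v ^ (n - 3) * (v / 2) ^ (-γ)) *
            ((1 - Real.log (v / 2)) * Real.sqrt (1 + E))) := by ring
        _ ≤ C0 * (2 ^ γ * ((G * (1 + |Real.log (m x)|)) * (1 + E))) := by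
            apply mul_le_mul_of_nonneg_left _ hC0p.le
            apply mul_le_mul e2 _ (by positivity) (by positivity)
            exact mul_le_mul h28 e5 (by positivity) (by positivity)
        _ = _ := by ring
    rw [e1]
    calc v ^ (n - 3) * v ^ 2 ≤ v ^ (n - 3) * (4 * p * m x) :=
          mul_le_mul_of_nonneg_left h1 e6
      _ = 4 * (v ^ (n - 3) * p) * m x := by ring
      _ ≤ 4 * (C0 * 2 ^ γ * G * ((1 + |Real.log (m x)|) * (1 + E))) * m x := by
          apply mul_le_mul_of_nonneg_right _ hm0.le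
          linarith
      _ = _ := by ring
  have h30 : f x ^ (n - 1) ≤ (M / c) ^ (n - 1) * v ^ (n - 1) := by
    rw [← Real.mul_rpow (by linarith) hv0.le]
    apply Real.rpow_le_rpow hfx.le _ (by linarith)
    rw [hv]
    rcases le_total (f x) c with h | h
    · rw [min_eq_left h]
      nlinarith only [hMc, hfx]
    · rw [min_eq_right h, div_mul_cancel₀ _ hc.ne']
      exact hM x hx
  refine h30.trans ?_
  unfold massC
  rw [← hC0, ← hγ, ← hG]
  calc (M / c) ^ (n - 1) * v ^ (n - 1) ≤ (M / c) ^ (n - 1) *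
        (4 * C0 * 2 ^ γ * G * ((1 + |Real.log (m x)|) * ((1 + E) * m x))) :=
        mul_le_mul_of_nonneg_left h29 (Real.rpow_nonneg (by linarith) _)
    _ = _ := by ring

end Pool.Agent.Q81.TF
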