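import Pool.Agent.Q81.TF.Deep
import Pool.Agent.Q81.TF.MassB

open Set MeasureTheory Filter Topology

namespace Pool.Agent.Q81.TF

variable {n a0 a E : ℝ} {f f1 f2 f3 : ℝ → ℝ}

/-- the depth of the necks is bounded -/
def NeckD (n γ l a0 a : ℝ) (f : ℝ → ℝ) : Prop :=
  ∀ x y z, a0 < x → x < y → y < z → z ≤ a →
    depth n (f y) ≤ l * ((1 + |Real.log (min (f x) (f z))|) ^ 5 * (min (f x) (f z)) ^ (-γ))

/-- the bound of the slope at the height `v` -/
theorem Prof.slopeD (P : Prof n a0 a E f f1 f2 f3) (hn : 3 ≤ n) {γ l c M Pm : ℝ}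
    (hγ : n - 3 ≤ γ) (hl : 1 ≤ l) (hN : NeckD n γ l a0 a f) (hc1 : c ≤ 1)
    (hca : c ≤ f a) (hM1 : 1 ≤ M) (hM : ∀ x ∈ Ioc a0 a, f x ≤ M) (hPm : |f1 a| ≤ Pm)
    (hGa : Gf f f1 f2 a ≤ Pm ^ 2 / 8) {v : ℝ} (hv : 0 < v) (hvc : v ≤ c) :
    ∀ x ∈ Ioc a0 a, (∃ y ∈ Ioc a0 x, v ≤ f y) →
      |f1 x| ≤ (Pm + 1024 * (n + M)) * ((1 + (E * l) ^ ((1 : ℝ) / 5)) *
        ((1 + |Real.log v|) * v ^ (-(γ / 5)))) := by
  intro x hx hex
  have hE := P.E_nonneg
  have hPm0 : 0 ≤ Pm := (abs_nonneg _).trans hPm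
  have hv1 : v ≤ 1 := hvc.trans hc1
  have hγ0 : 0 ≤ γ := by linarith
  obtain ⟨xv, hxv, hfxv, hltv⟩ := P.first hv (hvc.trans hca)
  have hxvx : xv ≤ x := by
    obtain ⟨y, hy, hvy⟩ := hex
    by_contra hcon
    push Not at hcon
    have := hltv y ⟨hy.1, hy.2.trans_lt hcon⟩
    linarith
  have hsl := P.first_slope hxv hfxv hltv
  obtain ⟨c0, c1, c2, c3, cG, cw⟩ := P.cont hxv.1 (le_refl a)
  obtain ⟨y0, hy0, hmin⟩ := isCompact_Icc.exists_isMinOn (nonempty_Icc.2 hxv.2) c0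
  have hd : 0 < f y0 := P.pos y0 ⟨hxv.1.trans_le hy0.1, hy0.2⟩
  have hdv : f y0 ≤ v := by
    rw [← hfxv]
    exact hmin ⟨le_rfl, hxv.2⟩
  obtain ⟨R, hR⟩ : ∃ R, R = l * ((1 + |Real.log v|) ^ 5 * v ^ (-γ)) := ⟨_, rfl⟩
  have hlog : 1 ≤ 1 + |Real.log v| := by
    have := abs_nonneg (Real.log v)
    linarith
  have hvγ : 1 ≤ v ^ (-γ) := Real.one_le_rpow_of_pos_of_le_one_of_nonpos hv hv1 (by linarith)
  have hlog5 : 1 ≤ (1 + |Real.log v|) ^ 5 := one_le_pow₀ hlog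
  have hR1 : 1 ≤ R := by
    rw [hR]
    have h1 : 1 ≤ (1 + |Real.log v|) ^ 5 * v ^ (-γ) := one_le_mul_of_one_le_of_one_le hlog5 hvγ
    exact one_le_mul_of_one_le_of_one_le hl h1
  have hup : depth n v ≤ R := by
    rw [hR]
    refine (depth_up hn hγ hv hv1).trans ?_
    exact le_mul_of_one_le_left (by positivity) hl
  have hdep : depth n (f y0) ≤ R := by
    rcases eq_or_lt_of_le hy0.1 with h | h
    · rw [← h, hfxv]
      exact hup
    rcases eq_or_lt_of_le hy0.2 with h' | h'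
    · rw [h']
      exact (depth_anti hv (hvc.trans hca)).trans hup
    · have h1 := hN xv y0 a hxv.1 h h' le_rfl
      rw [hfxv, min_eq_left (hvc.trans hca), ← hR] at h1
      exact h1
  have hmain := P.slopeG hn hxv hsl hd (hdv.trans hv1) (fun y hy => hmin hy) hM1
    (fun y hy => hM y ⟨hxv.1.trans_le hy.1, hy.2⟩) hPm hGa x ⟨hxvx, hx.2⟩
  obtain ⟨A, hA⟩ : ∃ A, A = (E * l) ^ ((1 : ℝ) / 5) := ⟨_, rfl⟩
  have hEl : 0 ≤ E * l := mul_nonneg hE (by linarith)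
  have hA0 : 0 ≤ A := by rw [hA]; exact Real.rpow_nonneg hEl _
  have hA5 : A ^ 5 = E * l := by
    rw [hA, ← Real.rpow_natCast _ 5, ← Real.rpow_mul hEl]
    norm_num
  obtain ⟨w, hw⟩ : ∃ w, w = v ^ (-(γ / 5)) := ⟨_, rfl⟩
  have hw5 : w ^ 5 = v ^ (-γ) := by
    rw [hw, ← Real.rpow_natCast _ 5, ← Real.rpow_mul hv.le]
    congr 1
    push_cast
    ring
  have hw1 : 1 ≤ w := by
    rw [hw]
    exact Real.one_le_rpow_of_pos_of_le_one_of_nonpos hv hv1 (by linarith)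
  rw [← hA, ← hw]
  obtain ⟨Lv, hLv⟩ : ∃ Lv, Lv = 1 + |Real.log v| := ⟨_, rfl⟩
  rw [← hLv] at hlog ⊢
  have hC5 : 1 ≤ 1024 * (n + M) := by linarith
  have hLw : 1 ≤ Lv * w := one_le_mul_of_one_le_of_one_le hlog hw1
  rcases hmain with h1 | h1
  · have h2 : 1 ≤ (1 + A) * (Lv * w) := by nlinarith only [hLw, hA0]
    have h3 : Pm ≤ Pm + 1024 * (n + M) := by linarith
    calc |f1 x| ≤ Pm := h1
      _ ≤ (Pm + 1024 * (n + M)) * 1 := by linarith
      _ ≤ _ := mul_le_mul_of_nonneg_left h2 (by linarith)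
  · have h2 : |f1 x| ^ 5 ≤ (1024 * (n + M) * (A * (Lv * w))) ^ 5 := by
      have e1 : 512 * (n + M) * E * (1 + depth n (f y0)) ≤ 512 * (n + M) * E * (2 * R) := by
        apply mul_le_mul_of_nonneg_left (by linarith)
        have : 0 ≤ n + M := by linarith
        positivity
      have e2 : 512 * (n + M) * E * (2 * R) = 1024 * (n + M) * (A ^ 5 * (Lv ^ 5 * w ^ 5)) := by
        rw [hR, hA5, hw5, hLv]
        ring
      have e3 : 1024 * (n + M) * (A ^ 5 * (Lv ^ 5 * w ^ 5)) ≤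
          (1024 * (n + M)) ^ 5 * (A ^ 5 * (Lv ^ 5 * w ^ 5)) := by
        apply mul_le_mul_of_nonneg_right _ (by positivity)
        calc 1024 * (n + M) = (1024 * (n + M)) ^ 1 := (pow_one _).symm
          _ ≤ (1024 * (n + M)) ^ 5 := pow_le_pow_right₀ hC5 (by norm_num)
      calc |f1 x| ^ 5 ≤ (1024 * (n + M)) ^ 5 * (A ^ 5 * (Lv ^ 5 * w ^ 5)) := by linarith
        _ = _ := by ring
    have h3 : |f1 x| ≤ 1024 * (n + M) * (A * (Lv * w)) := by
      by_contra hcon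
      push Not at hcon
      have h4 : 0 ≤ 1024 * (n + M) * (A * (Lv * w)) := by positivity
      exact absurd h2 (not_le.2 (pow_lt_pow_left₀ hcon h4 (by norm_num)))
    refine h3.trans ?_
    apply mul_le_mul (by linarith) _ (by positivity) (by linarith)
    apply mul_le_mul_of_nonneg_right (by linarith) (by positivity)

/-- the constant in the bound of the height by the mass -/
noncomputable def massD (n γ c M Pm : ℝ) : ℝ :=
  (M / c) ^ (n - 1) * (8 * (Pm + 1024 * (n + M)) * 2 ^ (γ / 5))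

theorem Prof.massD (P : Prof n a0 a E f f1 f2 f3) (hn : 3 ≤ n) {γ l c M Pm : ℝ}
    (hγ : n - 3 ≤ γ) (hγ5 : γ ≤ 5 * (n - 3)) (hl : 1 ≤ l) (hN : NeckD n γ l a0 a f)
    (hc : 0 < c) (hc1 : c ≤ 1)
    (hca : c ≤ f a) (hM1 : 1 ≤ M) (hM : ∀ x ∈ Ioc a0 a, f x ≤ M) (hPm : |f1 a| ≤ Pm)
    (hGa : Gf f f1 f2 a ≤ Pm ^ 2 / 8) {m : ℝ → ℝ}
    (hm1 : ∀ y z w, a0 < y → y ≤ z → z ≤ a → 0 ≤ w → (∀ u ∈ Icc y z, w ≤ f u) →
      w * (z - y) ≤ m z)
    (hm3 : ∀ x y, a0 < x → x ≤ y → y ≤ a → m x ≤ m y) :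
    ∀ x ∈ Ioc a0 a, f x ^ (n - 1) ≤ Pool.Agent.Q81.TF.massD n γ c M Pm *
      ((1 + (E * l) ^ ((1 : ℝ) / 5)) * ((1 + |Real.log (m x)|) * m x)) := by
  have hE := P.E_nonneg
  have hPm0 : 0 ≤ Pm := (abs_nonneg _).trans hPm
  intro x hx
  obtain ⟨v, hv⟩ : ∃ v, v = min (f x) c := ⟨_, rfl⟩
  have hfx := P.pos x hx
  have hv0 : 0 < v := by rw [hv]; exact lt_min hfx hc
  have hvc : v ≤ c := by rw [hv]; exact min_le_right _ _
  have hvf : v ≤ f x := by rw [hv]; exact min_le_left _ _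
  have hv1 : v ≤ 1 := hvc.trans hc1
  have hcM : c ≤ M := hca.trans (hM a ⟨P.lt, le_rfl⟩)
  have hMc : 1 ≤ M / c := by rw [one_le_div hc]; exact hcM
  obtain ⟨xv, hxv, hfxv, hltv⟩ := P.first hv0 (hvc.trans hca)
  have hxvx : xv ≤ x := by
    by_contra hcon
    push Not at hcon
    have := hltv x ⟨hx.1, hcon⟩
    linarith
  have hsl := P.slopeD hn hγ hl hN hc1 hca hM1 hM hPm hGa (show 0 < v / 2 by linarith)
    (by linarith)
  obtain ⟨p, hp⟩ : ∃ p, p = (Pm + 1024 * (n + M)) * ((1 + (E * l) ^ ((1 : ℝ) / 5)) *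
        ((1 + |Real.log (v / 2)|) * (v / 2) ^ (-(γ / 5)))) := ⟨_, rfl⟩
  rw [← hp] at hsl
  obtain ⟨y, hy1, hy2, hy3, hy4⟩ := P.before hv0 hxv hfxv (by linarith) hltv hsl
  have hEl : 0 ≤ E * l := mul_nonneg hE (by linarith)
  obtain ⟨A, hA⟩ : ∃ A, A = (E * l) ^ ((1 : ℝ) / 5) := ⟨_, rfl⟩
  have hA0 : 0 ≤ A := by rw [hA]; exact Real.rpow_nonneg hEl _
  rw [← hA] at hp ⊢
  obtain ⟨C1, hC1⟩ : ∃ C1, C1 = Pm + 1024 * (n + M) := ⟨_, rfl⟩
  have hC11 : 1 ≤ C1 := by rw [hC1]; linarith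
  rw [← hC1] at hp
  have hγ0 : 0 ≤ γ := by linarith
  have h2γ : 1 ≤ (2 : ℝ) ^ (γ / 5) := Real.one_le_rpow (by norm_num) (by linarith)
  have hp0 : 0 < p := by
    rw [hp]
    have := abs_nonneg (Real.log (v / 2))
    positivity
  have hmx : v / 2 * (xv - y) ≤ m x :=
    (hm1 y xv (v / 2) hy1 hy2.le hxv.2 (by linarith) hy3).trans
      (hm3 xv x hxv.1 hxvx hx.2)
  have h1 : v ^ 2 ≤ 4 * p * m x := by
    have h2 : v / 2 * (v / 2) ≤ v / 2 * (p * (xv - y)) :=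
      mul_le_mul_of_nonneg_left hy4 (by linarith)
    have h3 : p * (v / 2 * (xv - y)) ≤ p * m x := mul_le_mul_of_nonneg_left hmx hp0.le
    nlinarith only [h3, h2]
  have hm0 : 0 < m x := by
    have : 0 < v / 2 * (xv - y) := mul_pos (by linarith) (by linarith)
    linarith
  -- `f x ^ (n - 1)` in terms of `v`
  have h5 : f x ^ (n - 1) ≤ (M / c) ^ (n - 1) * v ^ (n - 1) := by
    rw [← Real.mul_rpow (by positivity) hv0.le]
    apply Real.rpow_le_rpow hfx.le _ (by linarith)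
    rcases le_total (f x) c with h | h
    · rw [hv, min_eq_left h]
      nlinarith only [hMc, hfx]
    · rw [hv, min_eq_right h, div_mul_cancel₀ _ hc.ne']
      exact hM x hx
  have hMcn : 1 ≤ (M / c) ^ (n - 1) := Real.one_le_rpow hMc (by linarith)
  have hlm := abs_nonneg (Real.log (m x))
  have h6 : v ^ (n - 1) ≤ 8 * C1 * 2 ^ (γ / 5) * ((1 + A) * ((1 + |Real.log (m x)|) * m x)) := by
    have e1 : v ^ (n - 1) = v ^ (n - 3) * v ^ 2 := by
      rw [← Real.rpow_natCast v 2, ← Real.rpow_add hv0]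
      congr 1
      push_cast
      ring
    rcases le_or_gt (m x) v with hmv | hmv
    · have hlogv : |Real.log v| ≤ |Real.log (m x)| := by
        rw [abs_of_nonpos (Real.log_nonpos hv0.le hv1),
          abs_of_nonpos (Real.log_nonpos hm0.le (hmv.trans hv1))]
        have := Real.log_le_log hm0 hmv
        linarith
      have hlog2 : 1 + |Real.log (v / 2)| ≤ 2 * (1 + |Real.log (m x)|) := by
        have e2 : Real.log (v / 2) = Real.log v - Real.log 2 :=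
          Real.log_div hv0.ne' (by norm_num)
        have e3 := Real.log_two_lt_d9
        have e4 := Real.log_two_gt_d9
        have e5 : |Real.log (v / 2)| ≤ |Real.log v| + 1 := by
          rw [e2]
          refine (abs_sub _ _).trans ?_
          rw [abs_of_pos (show 0 < Real.log 2 by linarith)]
          linarith
        linarith
      have e6 : (v / 2) ^ (-(γ / 5)) = 2 ^ (γ / 5) * v ^ (-(γ / 5)) := by
        rw [Real.div_rpow hv0.le (by norm_num), Real.rpow_neg (by norm_num : (0 : ℝ) ≤ 2),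
          div_inv_eq_mul, mul_comm]
      have e7 : v ^ (n - 3) * v ^ (-(γ / 5)) ≤ 1 := by
        rw [← Real.rpow_add hv0]
        exact Real.rpow_le_one hv0.le hv1 (by linarith)
      have hvn : 0 ≤ v ^ (n - 3) := Real.rpow_nonneg hv0.le _
      have hvγ : 0 ≤ v ^ (-(γ / 5)) := Real.rpow_nonneg hv0.le _
      calc v ^ (n - 1) = v ^ (n - 3) * v ^ 2 := e1
        _ ≤ v ^ (n - 3) * (4 * p * m x) := mul_le_mul_of_nonneg_left h1 hvn
        _ = 4 * C1 * 2 ^ (γ / 5) * (v ^ (n - 3) * v ^ (-(γ / 5))) *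
            ((1 + A) * ((1 + |Real.log (v / 2)|) * m x)) := by
            rw [hp, e6]
            ring
        _ ≤ 4 * C1 * 2 ^ (γ / 5) * 1 * ((1 + A) * ((1 + |Real.log (v / 2)|) * m x)) := by
            apply mul_le_mul_of_nonneg_right
            · exact mul_le_mul_of_nonneg_left e7 (by positivity)
            · have := abs_nonneg (Real.log (v / 2))
              positivity
        _ ≤ 4 * C1 * 2 ^ (γ / 5) * 1 * ((1 + A) * ((2 * (1 + |Real.log (m x)|)) * m x)) := by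
            apply mul_le_mul_of_nonneg_left _ (by positivity)
            apply mul_le_mul_of_nonneg_left _ (by positivity)
            exact mul_le_mul_of_nonneg_right hlog2 hm0.le
        _ = _ := by ring
    · have e2 : v ^ (n - 3) ≤ 1 := Real.rpow_le_one hv0.le hv1 (by linarith)
      have e3 : v ^ (n - 1) ≤ m x := by
        rw [e1]
        have e4 : v ^ (n - 3) * v ^ 2 ≤ 1 * v ^ 2 := mul_le_mul_of_nonneg_right e2 (sq_nonneg _)
        nlinarith only [e2, hmv, hv1, hv0]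
      have e5 : 1 ≤ 8 * C1 * 2 ^ (γ / 5) * ((1 + A) * (1 + |Real.log (m x)|)) := by
        apply one_le_mul_of_one_le_of_one_le
        · apply one_le_mul_of_one_le_of_one_le _ h2γ
          linarith
        · apply one_le_mul_of_one_le_of_one_le <;> linarith
      calc v ^ (n - 1) ≤ 1 * m x := by linarith
        _ ≤ (8 * C1 * 2 ^ (γ / 5) * ((1 + A) * (1 + |Real.log (m x)|))) * m x :=
            mul_le_mul_of_nonneg_right e5 hm0.le
        _ = _ := by ring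
  unfold Pool.Agent.Q81.TF.massD
  rw [← hC1]
  calc f x ^ (n - 1) ≤ (M / c) ^ (n - 1) * v ^ (n - 1) := h5
    _ ≤ (M / c) ^ (n - 1) * (8 * C1 * 2 ^ (γ / 5) *
        ((1 + A) * ((1 + |Real.log (m x)|) * m x))) := mul_le_mul_of_nonneg_left h6 (by linarith)
    _ = _ := by ring

end Pool.Agent.Q81.TF
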