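import Pool.Agent.Q81.TF.Grad

open Set MeasureTheory Filter Topology

namespace Pool.Agent.Q81.TF

variable {n δ T : ℝ} {s : ℝ → ℝ} {h : ℝ → ℝ → ℝ}

/-- it suffices to prove that the contact point is constant on small rectangles -/
theorem IsClassicalSolution.const_of_rect (S : IsClassicalSolution n δ T s h) (hδ : 0 < δ)
    (H : ∀ t₀ ∈ Ioo 0 T, ∃ ρ > 0, ∃ r > 0, ∀ x0 x1 t1 t2, t1 < t2 → 0 < t1 → t2 < T →
      t₀ - r < t1 → t2 < t₀ + r →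
      (∀ t ∈ Icc t1 t2, x0 < s t ∧ s t < x1 ∧ x1 < s t + min ρ δ) → s t1 = s t2) :
    ∃ s₀, ∀ t ∈ Ioo 0 T, s t = s₀ := by
  apply const_of_local
  intro t₀ ht₀
  obtain ⟨ρ, hρ, r, hr, hN⟩ := H t₀ ht₀
  obtain ⟨ρ', hρ'⟩ : ∃ ρ', ρ' = min ρ δ := ⟨_, rfl⟩
  have hρ'0 : 0 < ρ' := by rw [hρ']; exact lt_min hρ hδ
  have hc : ContinuousAt s t₀ := S.contact_continuous.continuousAt (Ioo_mem_nhds ht₀.1 ht₀.2)
  obtain ⟨r1, hr1, hr1'⟩ := Metric.continuousAt_iff.1 hc (ρ' / 4) (by positivity)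
  refine ⟨min r r1, lt_min hr hr1, ?_⟩
  intro t1 t2 h1 h12 h2 h3 h4
  have hrr : min r r1 ≤ r := min_le_left _ _
  have hrr1 : min r r1 ≤ r1 := min_le_right _ _
  apply hN (s t₀ - ρ') (s t₀ + ρ' / 2) t1 t2 h12 h3 h4 (by linarith) (by linarith)
  intro t ht
  have e2 := hr1' (x := t) (by
    rw [Real.dist_eq, abs_lt]
    constructor <;> linarith [ht.1, ht.2])
  rw [Real.dist_eq, abs_lt] at e2
  rw [← hρ']
  refine ⟨by linarith [e2.1], by linarith [e2.2], by linarith [e2.1]⟩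

end Pool.Agent.Q81.TF
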