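import Pool.Agent.Q81.TF.DeepB
import Pool.Agent.Q81.TF.Rect

open Set MeasureTheory Filter Topology

namespace Pool.Agent.Q81.TF

theorem young_aux {E l : ℝ} (hE : 0 ≤ E) (hl : 0 ≤ l) :
    ((E * l) ^ ((1 : ℝ) / 5)) ^ 2 ≤ E + l ^ ((2 : ℝ) / 3) := by
  have h1 : ((E * l) ^ ((1 : ℝ) / 5)) ^ 2 =
      E ^ ((2 : ℝ) / 5) * (l ^ ((2 : ℝ) / 3)) ^ ((3 : ℝ) / 5) := by
    rw [← Real.rpow_natCast _ 2, ← Real.rpow_mul (mul_nonneg hE hl), Real.mul_rpow hE hl,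
      ← Real.rpow_mul hl]
    norm_num
  have hl' : 0 ≤ l ^ ((2 : ℝ) / 3) := Real.rpow_nonneg hl _
  have h2 := Real.geom_mean_le_arith_mean2_weighted (w₁ := 2 / 5) (w₂ := 3 / 5) (by norm_num)
    (by norm_num) hE hl' (by norm_num)
  rw [h1]
  linarith

variable {n δ T : ℝ} {s : ℝ → ℝ} {h : ℝ → ℝ → ℝ}

theorem IsClassicalSolution.local_deep (S : IsClassicalSolution n δ T s h) (hδ : 0 < δ)
    (hfin : FiniteDissipation n δ T s h) (hn : 3 ≤ n) {γ ρ : ℝ} (hγ : n - 3 ≤ γ)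
    (hγ5 : γ ≤ 5 * (n - 3)) (hγ2 : 2 * γ < 5 * (n - 2))
    (hρ : ρ ≤ δ) {x0 x1 t1 t2 : ℝ} (h12 : t1 < t2) (ht1 : 0 < t1) (ht2 : t2 < T)
    (hs : ∀ t ∈ Icc t1 t2, x0 < s t ∧ s t < x1 ∧ x1 < s t + ρ) {l : ℝ → ℝ}
    (hl : ∀ t, 1 ≤ l t) (hli : IntegrableOn (fun t => l t ^ ((2 : ℝ) / 3)) (Ioc t1 t2))
    (hN : ∀ t ∈ Icc t1 t2, ∀ x y z, s t < x → x < y → y < z → z < s t + ρ →
      depth n (h y t) ≤ l t * ((1 + |Real.log (min (h x t) (h z t))|) ^ 5 *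
        (min (h x t) (h z t)) ^ (-γ))) : s t1 = s t2 := by
  have hs' : ∀ t ∈ Icc t1 t2, x0 < s t ∧ s t < x1 ∧ x1 < s t + δ := fun t ht =>
    ⟨(hs t ht).1, (hs t ht).2.1, by linarith [(hs t ht).2.2]⟩
  have F := S.flow hδ h12 ht1 ht2 hs'
  obtain ⟨g, hg⟩ : ∃ g, g = gf s δ T h := ⟨_, rfl⟩
  rw [← hg] at F
  have hx := F.hx
  have hRc : IsCompact (Icc x0 x1 ×ˢ Icc t1 t2) := isCompact_Icc.prod isCompact_Icc
  have hRW : Icc x0 x1 ×ˢ Icc t1 t2 ⊆ domW s δ T := fun z hz => F.R_sub z.1 hz.1 z.2 hz.2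
  have hgR : ContinuousOn g (Icc x0 x1 ×ˢ Icc t1 t2) := F.g_cont.mono hRW
  -- the upper bound of the height
  obtain ⟨M0, hM0⟩ := hRc.exists_bound_of_continuousOn hgR
  obtain ⟨M, hMe⟩ : ∃ M, M = max 1 M0 := ⟨_, rfl⟩
  have hM1 : 1 ≤ M := by rw [hMe]; exact le_max_left _ _
  have hM : ∀ x ∈ Icc x0 x1, ∀ t ∈ Icc t1 t2, g (x, t) ≤ M := by
    intro x hx' t ht
    have := hM0 (x, t) ⟨hx', ht⟩
    rw [Real.norm_eq_abs] at this
    rw [hMe]
    exact (le_abs_self _).trans (this.trans (le_max_right _ _))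
  -- the height at the right end
  have hx1m : x1 ∈ Icc x0 x1 := ⟨hx.le, le_rfl⟩
  have c1 : Continuous fun t : ℝ => (x1, t) := by fun_prop
  have hend : ContinuousOn (fun t => g (x1, t)) (Icc t1 t2) :=
    ContinuousOn.comp (g := g) hgR c1.continuousOn (fun t ht => ⟨hx1m, ht⟩)
  obtain ⟨τ0, hτ0, hmin⟩ := isCompact_Icc.exists_isMinOn (nonempty_Icc.2 h12.le) hend
  have hc0 : 0 < g (x1, τ0) := F.g_pos _ ((F.D_iff x1 hx1m τ0 hτ0).2 (F.s_mem τ0 hτ0).2)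
  obtain ⟨c, hc⟩ : ∃ c, c = min 1 (g (x1, τ0)) := ⟨_, rfl⟩
  have hcp : 0 < c := by rw [hc]; exact lt_min one_pos hc0
  have hc1 : c ≤ 1 := by rw [hc]; exact min_le_left _ _
  have hca : ∀ t ∈ Icc t1 t2, c ≤ g (x1, t) := fun t ht => by
    rw [hc]
    exact (min_le_right _ _).trans (hmin ht)
  -- the derivatives at the right end
  have hendD : ∀ t ∈ Icc t1 t2, (x1, t) ∈ dom s δ T := fun t ht =>
    (F.D_iff x1 hx1m t ht).2 (F.s_mem t ht).2
  have he1 : ContinuousOn (fun t => dx 1 h (x1, t)) (Icc t1 t2) :=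
    ContinuousOn.comp (g := dx 1 h) (S.continuous_x 1 (by norm_num)) c1.continuousOn hendD
  have he2 : ContinuousOn (fun t => dx 2 h (x1, t)) (Icc t1 t2) :=
    ContinuousOn.comp (g := dx 2 h) (S.continuous_x 2 (by norm_num)) c1.continuousOn hendD
  obtain ⟨P1, hP1⟩ := isCompact_Icc.exists_bound_of_continuousOn he1
  obtain ⟨B1, hB1⟩ := isCompact_Icc.exists_bound_of_continuousOn he2
  have ht1m : t1 ∈ Icc t1 t2 := ⟨le_rfl, h12.le⟩
  have hP10 : 0 ≤ P1 := (norm_nonneg _).trans (hP1 t1 ht1m)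
  have hB10 : 0 ≤ B1 := (norm_nonneg _).trans (hB1 t1 ht1m)
  obtain ⟨Pm, hPm⟩ : ∃ Pm, Pm = 2 * P1 + (8 * (M * B1) + 1) := ⟨_, rfl⟩
  have hMB : 0 ≤ M * B1 := by positivity
  have hPmb : ∀ t ∈ Icc t1 t2, |dx 1 h (x1, t)| ≤ Pm := by
    intro t ht
    have := hP1 t ht
    rw [Real.norm_eq_abs] at this
    rw [hPm]
    linarith
  have hGb : ∀ t ∈ Icc t1 t2, Gf (fun x => g (x, t)) (fun x => dx 1 h (x, t))
      (fun x => dx 2 h (x, t)) x1 ≤ Pm ^ 2 / 8 := by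
    intro t ht
    have e1 := hP1 t ht
    have e2 := hB1 t ht
    rw [Real.norm_eq_abs] at e1 e2
    unfold Gf
    simp only
    have e3 : dx 1 h (x1, t) ^ 2 ≤ P1 ^ 2 := by
      rw [← sq_abs]
      exact pow_le_pow_left₀ (abs_nonneg _) e1 2
    have e4 : -(g (x1, t) * dx 2 h (x1, t)) ≤ M * B1 := by
      refine (neg_le_abs _).trans ?_
      rw [abs_mul]
      have e5 : 0 < g (x1, t) := F.g_pos _ (hendD t ht)
      rw [abs_of_pos e5]
      exact mul_le_mul (hM x1 hx1m t ht) e2 (abs_nonneg _) (by linarith)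
    rw [hPm]
    nlinarith only [e4, e3, hP10, sq_nonneg (8 * (M * B1) - 1), mul_nonneg hP10 hMB]
  -- necks
  have hneck : ∀ t ∈ Icc t1 t2, NeckD n γ (l t) (s t) x1 (fun x => g (x, t)) := by
    intro t ht x y z hxx hxy hyz hz
    have hst := hs t ht
    have hmem : ∀ u, s t < u → u ≤ x1 → g (u, t) = h u t := by
      intro u hu1 hu2
      have hD : (u, t) ∈ dom s δ T :=
        (F.D_iff u ⟨hst.1.le.trans hu1.le, hu2⟩ t ht).2 hu1
      rw [hg]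
      unfold gf
      rw [indicator_of_mem hD]
    show depth n (g (y, t)) ≤ l t * ((1 + |Real.log (min (g (x, t)) (g (z, t)))|) ^ 5 *
      (min (g (x, t)) (g (z, t))) ^ (-γ))
    rw [hmem x hxx (by linarith), hmem y (by linarith) (by linarith), hmem z (by linarith) hz]
    exact hN t ht x y z hxx hxy hyz (by linarith [hst.2.2])
  have hD := (dom_open S).measurableSet
  have hfin' := fin_dis hfin x0 x1 t1 t2 hD
  rw [← hg] at hfin'
  have hFd : ∀ z ∈ dom s δ T, 0 ≤ Fd n g (dx 3 h) z := fun z hz =>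
    mul_nonneg (Real.rpow_nonneg (F.g_pos z hz).le _) (sq_nonneg _)
  obtain ⟨E, hE⟩ : ∃ E : ℝ → ℝ, E = eV n x0 x1 (dom s δ T) univ g (dx 3 h) := ⟨_, rfl⟩
  have hE0 : ∀ τ, 0 ≤ E τ := fun τ => by
    rw [hE]
    exact eV_nonneg hFd _ _
  have hl0 : ∀ τ, 0 ≤ l τ := fun τ => by linarith [hl τ]
  have hl23 : ∀ τ, 0 ≤ l τ ^ ((2 : ℝ) / 3) := fun τ => Real.rpow_nonneg (hl0 τ) _
  obtain ⟨C3, hC3⟩ : ∃ C3, C3 = |massD n γ c M Pm| + 1 := ⟨_, rfl⟩
  have hC31 : 1 ≤ C3 := by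
    rw [hC3]
    have := abs_nonneg (massD n γ c M Pm)
    linarith
  obtain ⟨A, hA⟩ : ∃ A : ℝ → ℝ, A = fun τ => (E τ * l τ) ^ ((1 : ℝ) / 5) := ⟨_, rfl⟩
  have hA0 : ∀ τ, 0 ≤ A τ := fun τ => by
    rw [hA]
    exact Real.rpow_nonneg (mul_nonneg (hE0 τ) (hl0 τ)) _
  have hA2 : ∀ τ, (1 + A τ) ^ 2 ≤ 2 * (1 + E τ + l τ ^ ((2 : ℝ) / 3)) := by
    intro τ
    have h1 := young_aux (hE0 τ) (hl0 τ)
    have h2 : (1 + A τ) ^ 2 ≤ 2 * (1 + A τ ^ 2) := by nlinarith only [sq_nonneg (1 - A τ)]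
    have h3 : A τ ^ 2 ≤ E τ + l τ ^ ((2 : ℝ) / 3) := by
      rw [hA]
      exact h1
    linarith
  have hA1 : ∀ τ, 1 + A τ ≤ 2 * (1 + E τ + l τ ^ ((2 : ℝ) / 3)) := by
    intro τ
    have h1 := hA2 τ
    have h2 := hA0 τ
    nlinarith only [h2, h1]
  have hprof : ∀ᵐ τ ∂(volume.restrict (Ioc t1 t2)), τ ∈ Icc t1 t2 ∧
      Prof n (s τ) x1 (E τ) (fun x => g (x, τ)) (fun x => dx 1 h (x, τ))
        (fun x => dx 2 h (x, τ)) (fun x => dx 3 h (x, τ)) := by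
    filter_upwards [tail_ae hD hfin', ae_restrict_mem measurableSet_Ioc] with τ g1 g2
    have hτ : τ ∈ Icc t1 t2 := ⟨g2.1.le, g2.2⟩
    refine ⟨hτ, ?_⟩
    rw [hg] at g1
    have := S.prof hδ h12 ht1 ht2 hs' hτ g1
    rw [← hg, ← hE] at this
    exact this
  apply F.criterion (fun z hz => dom_sub hz) hfin'
    (K := fun τ => 2 * C3 * (1 + E τ + l τ ^ ((2 : ℝ) / 3)))
  · intro τ
    have h1 := hE0 τ
    have h2 := hl23 τ
    positivity
  · have i1 : IntegrableOn E (Ioc t1 t2) := by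
      rw [hE]
      exact tail_integrable hD MeasurableSet.univ hfin'
    have i2 : IntegrableOn (fun _ : ℝ => (1 : ℝ)) (Ioc t1 t2) :=
      integrableOn_const (by rw [Real.volume_Ioc]; exact ENNReal.ofReal_ne_top)
    exact ((i2.add i1).add hli).const_mul (2 * C3)
  · filter_upwards [hprof] with τ hτ
    obtain ⟨hτ, P⟩ := hτ
    intro x hxm hsx
    have hst := hs' τ hτ
    have hEτ := hE0 τ
    have h1 := P.massD hn hγ hγ5 (hl τ) (hneck τ hτ) hcp hc1 (hca τ hτ) hM1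
      (fun y hy => hM y ⟨hst.1.le.trans hy.1.le, hy.2⟩ τ hτ) (hPmb τ hτ) (hGb τ hτ)
      (m := fun x => mF x0 x1 t1 t2 g (x, τ))
      (fun y z w h3 h4 h5 _ h7 => F.mF_lower hτ (hst.1.le.trans h3.le) h4 h5 h7)
      (fun y z h3 h4 _ => F.mF_mono (hst.1.le.trans h3.le) h4) x ⟨hsx, hxm.2⟩
    refine h1.trans ?_
    have hm := F.mF_nonneg (z := (x, τ)) hxm.1
    have hlm := abs_nonneg (Real.log (mF x0 x1 t1 t2 g (x, τ)))
    have h2 : massD n γ c M Pm ≤ C3 := by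
      rw [hC3]
      have := le_abs_self (massD n γ c M Pm)
      linarith
    have h4 : (E τ * l τ) ^ ((1 : ℝ) / 5) = A τ := by rw [hA]
    rw [h4]
    have h5 := hA0 τ
    have h6 : 0 ≤ (1 + |Real.log (mF x0 x1 t1 t2 g (x, τ))|) * mF x0 x1 t1 t2 g (x, τ) := by
      positivity
    calc massD n γ c M Pm * ((1 + A τ) * ((1 + |Real.log (mF x0 x1 t1 t2 g (x, τ))|) *
        mF x0 x1 t1 t2 g (x, τ))) ≤ C3 * ((1 + A τ) *
        ((1 + |Real.log (mF x0 x1 t1 t2 g (x, τ))|) * mF x0 x1 t1 t2 g (x, τ))) := by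
          apply mul_le_mul_of_nonneg_right h2
          positivity
      _ ≤ C3 * ((2 * (1 + E τ + l τ ^ ((2 : ℝ) / 3))) *
        ((1 + |Real.log (mF x0 x1 t1 t2 g (x, τ))|) * mF x0 x1 t1 t2 g (x, τ))) := by
          apply mul_le_mul_of_nonneg_left _ (by linarith)
          exact mul_le_mul_of_nonneg_right (hA1 τ) h6
      _ = _ := by ring
  · intro B hB θ hθ
    obtain ⟨C0, hC0⟩ : ∃ C0, C0 = Pm + 1024 * (n + M) := ⟨_, rfl⟩
    obtain ⟨b, hb⟩ : ∃ b, b = n - 2 - 2 * (γ / 5) := ⟨_, rfl⟩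
    have hb0 : 0 < b := by rw [hb]; linarith
    obtain ⟨C1, hC1⟩ : ∃ C1, C1 = (x1 - x0) * (B ^ 2 * 2 ^ n * C0 ^ 2) := ⟨_, rfl⟩
    have ht := (tendsto_aux hb0).const_mul C1
    rw [mul_zero] at ht
    obtain ⟨e1, he1, he1'⟩ := mem_nhdsGT_iff_exists_Ioo_subset.1 (ht.eventually (Iio_mem_nhds hθ))
    have he1p : 0 < e1 := he1
    refine ⟨min e1 c, lt_min he1p hcp, ?_⟩
    intro ε hε hεlt Fc φ1 φ2 H
    have hεe : ε < e1 := hεlt.trans_le (min_le_left _ _)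
    have hεc : ε < c := hεlt.trans_le (min_le_right _ _)
    have hsmall : C1 * (ε ^ b * (1 - Real.log ε) ^ 2) < θ := he1' ⟨hε, hεe⟩
    filter_upwards [hprof] with τ hτ
    obtain ⟨hτ, P⟩ := hτ
    have hst := hs' τ hτ
    have hEτ := hE0 τ
    have hlogε0 : Real.log ε ≤ 0 := Real.log_nonpos hε.le (hεc.le.trans hc1)
    obtain ⟨Q, hQ⟩ : ∃ Q, Q = B ^ 2 * 2 ^ n * C0 ^ 2 * (ε ^ b * (1 - Real.log ε) ^ 2) *
      (1 + A τ) ^ 2 := ⟨_, rfl⟩
    have hQ0 : 0 ≤ Q := by rw [hQ]; positivity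
    have hpt : ∀ x ∈ Icc x0 x1, φ2 (g (cl x0 x1 t1 t2 (x, τ))) ^ 2 *
        (g (cl x0 x1 t1 t2 (x, τ)) ^ n * dx 1 h (cl x0 x1 t1 t2 (x, τ)) ^ 2) ≤ Q := by
      intro x hxm
      rw [cl_eq hxm hτ]
      rcases le_or_gt (g (x, τ)) ε with hle | hgt
      · rw [(H.z _ hle).2.2, zero_pow (by norm_num), zero_mul]
        exact hQ0
      rcases le_or_gt (2 * ε) (g (x, τ)) with hge | hlt
      · rw [H.z2 _ hge, zero_pow (by norm_num), zero_mul]
        exact hQ0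
      have hDx : (x, τ) ∈ dom s δ T := by
        by_contra hcon
        have h0 := F.g_zero _ (F.R_sub x hxm τ hτ) hcon
        rw [h0] at hgt
        linarith
      have hsx : s τ < x := (F.D_iff x hxm τ hτ).1 hDx
      have h1 := P.slopeD hn hγ (hl τ) (hneck τ hτ) hc1 (hca τ hτ) hM1
        (fun y hy => hM y ⟨hst.1.le.trans hy.1.le, hy.2⟩ τ hτ) (hPmb τ hτ) (hGb τ hτ)
        hε hεc.le x ⟨hsx, hxm.2⟩ ⟨x, ⟨hsx, le_rfl⟩, hgt.le⟩
      have h1' : |dx 1 h (x, τ)| ≤ C0 * ((1 + A τ) * ((1 - Real.log ε) * ε ^ (-(γ / 5)))) := by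
        rw [hC0, hA, sub_eq_add_neg, ← abs_of_nonpos hlogε0]
        exact h1
      have h2 : φ2 (g (x, τ)) ^ 2 ≤ (B / ε) ^ 2 := by
        rw [← sq_abs]
        exact pow_le_pow_left₀ (abs_nonneg _) (H.b2 _) 2
      have h3 : g (x, τ) ^ n ≤ (2 * ε) ^ n :=
        Real.rpow_le_rpow (by linarith) hlt.le (by linarith)
      have h4 : dx 1 h (x, τ) ^ 2 ≤ (C0 * ((1 + A τ) * ((1 - Real.log ε) *
          ε ^ (-(γ / 5))))) ^ 2 := by
        rw [← sq_abs]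
        exact pow_le_pow_left₀ (abs_nonneg _) h1' 2
      have hgn : 0 ≤ g (x, τ) ^ n := Real.rpow_nonneg (by linarith) _
      calc φ2 (g (x, τ)) ^ 2 * (g (x, τ) ^ n * dx 1 h (x, τ) ^ 2) ≤
          (B / ε) ^ 2 * ((2 * ε) ^ n * (C0 * ((1 + A τ) * ((1 - Real.log ε) *
          ε ^ (-(γ / 5))))) ^ 2) := by
            apply mul_le_mul h2 _ (by positivity) (by positivity)
            exact mul_le_mul h3 h4 (sq_nonneg _) (by positivity)
        _ = Q := by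
            have e2 : ε ^ b = ε ^ n * ε ^ (-(γ / 5)) * ε ^ (-(γ / 5)) / ε ^ 2 := by
              rw [hb, ← Real.rpow_natCast ε 2, ← Real.rpow_add hε, ← Real.rpow_add hε,
                ← Real.rpow_sub hε]
              congr 1
              push_cast
              ring
            rw [hQ, e2, Real.mul_rpow (by norm_num) hε.le]
            field_simp
    have cA : Continuous (fun x => φ2 (g (cl x0 x1 t1 t2 (x, τ))) ^ 2 *
        (g (cl x0 x1 t1 t2 (x, τ)) ^ n * dx 1 h (cl x0 x1 t1 t2 (x, τ)) ^ 2)) := by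
      have c1 : Continuous (fun z => φ2 (g (cl x0 x1 t1 t2 z)) ^ 2 *
          (g (cl x0 x1 t1 t2 z) ^ n * dx 1 h (cl x0 x1 t1 t2 z) ^ 2)) := by
        apply F.clCont (G := fun z => φ2 (g z) ^ 2 * (g z ^ n * dx 1 h z ^ 2))
        apply F.cutCont hε (φ := fun v => φ2 v ^ 2) (H.c2.pow 2)
        · intro v hv
          show φ2 v ^ 2 = 0
          rw [(H.z v hv).2.2]
          norm_num
        · apply ContinuousOn.mul _ (F.h1_cont.pow 2)
          apply (F.g_cont.mono dom_sub).rpow_const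
          exact fun z hz => Or.inl (F.g_pos z hz).ne'
      exact c1.comp (show Continuous fun y : ℝ => (y, τ) by fun_prop)
    have h5 : ∫ x in x0..x1, φ2 (g (cl x0 x1 t1 t2 (x, τ))) ^ 2 *
        (g (cl x0 x1 t1 t2 (x, τ)) ^ n * dx 1 h (cl x0 x1 t1 t2 (x, τ)) ^ 2) ≤
        ∫ _x in x0..x1, Q :=
      intervalIntegral.integral_mono_on hx.le (cA.intervalIntegrable _ _)
        intervalIntegrable_const hpt
    rw [intervalIntegral.integral_const, smul_eq_mul] at h5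
    refine h5.trans ?_
    have h6 : (x1 - x0) * Q = C1 * (ε ^ b * (1 - Real.log ε) ^ 2) * (1 + A τ) ^ 2 := by
      rw [hQ, hC1]
      ring
    rw [h6]
    have h7 : C1 * (ε ^ b * (1 - Real.log ε) ^ 2) * (1 + A τ) ^ 2 ≤ θ * (1 + A τ) ^ 2 :=
      mul_le_mul_of_nonneg_right hsmall.le (sq_nonneg _)
    have h8 : θ * (1 + A τ) ^ 2 ≤ θ * (2 * C3 * (1 + E τ + l τ ^ ((2 : ℝ) / 3))) := by
      apply mul_le_mul_of_nonneg_left _ hθ.le
      refine (hA2 τ).trans ?_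
      have h9 : 0 ≤ 1 + E τ + l τ ^ ((2 : ℝ) / 3) := by
        have := hl23 τ
        linarith
      nlinarith only [h9, hC31]
    exact h7.trans h8

end Pool.Agent.Q81.TF
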