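import Mathlib

open Set MeasureTheory

namespace Pool.Agent.Q81.TF

/-- The domain `D = {(x, t) : s(t) < x < s(t) + δ, 0 < t < T}`. -/
def dom (s : ℝ → ℝ) (δ T : ℝ) : Set (ℝ × ℝ) :=
  {z | (0 < z.2 ∧ z.2 < T) ∧ s z.2 < z.1 ∧ z.1 < s z.2 + δ}

/-- The partial derivative of order `k` in the first variable, at the point `z = (x, t)`. -/
noncomputable def dx (k : ℕ) (h : ℝ → ℝ → ℝ) (z : ℝ × ℝ) : ℝ :=
  iteratedDeriv k (fun x => h x z.2) z.1

/-- The partial derivative in the second variable, at the point `z = (x, t)`. -/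
noncomputable def dt (h : ℝ → ℝ → ℝ) (z : ℝ × ℝ) : ℝ := deriv (fun t => h z.1 t) z.2

/-- `(h, s)` is a classical solution, positive in `D`, of the thin-film equation
`h_t + (h ^ n h_xxx)_x = 0` in `D`, with `h = 0` on the contact line `x = s(t)`. -/
structure IsClassicalSolution (n δ T : ℝ) (s : ℝ → ℝ) (h : ℝ → ℝ → ℝ) : Prop where
  contact_continuous : ContinuousOn s (Ioo 0 T)
  continuous_closure : ContinuousOn (fun z : ℝ × ℝ => h z.1 z.2) (closure (dom s δ T))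
  positive : ∀ z ∈ dom s δ T, 0 < h z.1 z.2
  differentiable_t : ∀ z ∈ dom s δ T, DifferentiableAt ℝ (fun t => h z.1 t) z.2
  continuous_t : ContinuousOn (dt h) (dom s δ T)
  differentiable_x : ∀ k < 4, ∀ z ∈ dom s δ T,
    DifferentiableAt ℝ (iteratedDeriv k (fun x => h x z.2)) z.1
  continuous_x : ∀ k ≤ 4, ContinuousOn (dx k h) (dom s δ T)
  equation : ∀ z ∈ dom s δ T,
    dt h z + deriv (fun x => h x z.2 ^ n * dx 3 h (x, z.2)) z.1 = 0
  contact : ∀ t ∈ Ioo 0 T, h (s t) t = 0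

/-- The total dissipation of energy in `D` is finite. -/
def FiniteDissipation (n δ T : ℝ) (s : ℝ → ℝ) (h : ℝ → ℝ → ℝ) : Prop :=
  IntegrableOn (fun z : ℝ × ℝ => h z.1 z.2 ^ n * dx 3 h z ^ 2) (dom s δ T)

end Pool.Agent.Q81.TF
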