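import Mathlib

open Set MeasureTheory Filter Topology

namespace Pool.Agent.Q81.TF

/-- A positive profile on `(a0, a]` which vanishes at `a0`, three times differentiable, with energy
at most `E`. -/
structure Prof (n a0 a E : ℝ) (f f1 f2 f3 : ℝ → ℝ) : Prop where
  lt : a0 < a
  d0 : ∀ x ∈ Ioc a0 a, HasDerivAt f (f1 x) x
  d1 : ∀ x ∈ Ioc a0 a, HasDerivAt f1 (f2 x) x
  d2 : ∀ x ∈ Ioc a0 a, HasDerivAt f2 (f3 x) x
  c3 : ContinuousOn f3 (Ioc a0 a)
  pos : ∀ x ∈ Ioc a0 a, 0 < f x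
  lim : ∀ e > 0, ∃ r > a0, ∀ x ∈ Ioo a0 r, f x < e
  int : IntegrableOn (fun x => f x ^ n * f3 x ^ 2) (Ioc a0 a)
  en : ∫ x in Ioc a0 a, f x ^ n * f3 x ^ 2 ≤ E

variable {n a0 a E : ℝ} {f f1 f2 f3 : ℝ → ℝ}

theorem Prof.cs (P : Prof n a0 a E f f1 f2 f3) (hn : 0 ≤ n)
    {ξ η w : ℝ} (h0 : a0 < ξ) (h1 : ξ < η) (h2 : η ≤ a) (hw : 0 < w)
    (hf : ∀ x ∈ Icc ξ η, w ≤ f x) : (f2 η - f2 ξ) ^ 2 * w ^ n ≤ (η - ξ) * E := by
  have hsub : Icc ξ η ⊆ Ioc a0 a := fun x hx => ⟨h0.trans_le hx.1, hx.2.trans h2⟩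
  have hc : ContinuousOn f3 (uIcc ξ η) := by
    rw [uIcc_of_le h1.le]
    exact P.c3.mono hsub
  have hcf : ContinuousOn f (uIcc ξ η) := by
    rw [uIcc_of_le h1.le]
    exact fun x hx => (P.d0 x (hsub hx)).continuousAt.continuousWithinAt
  have hi : IntervalIntegrable f3 volume ξ η := hc.intervalIntegrable
  have hi2 : IntervalIntegrable (fun x => f3 x ^ 2) volume ξ η := (hc.pow 2).intervalIntegrable
  have e1 : ∫ x in ξ..η, f3 x = f2 η - f2 ξ :=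
    intervalIntegral.integral_eq_sub_of_hasDerivAt
      (fun x hx => P.d2 x (hsub (by rwa [uIcc_of_le h1.le] at hx))) hi
  obtain ⟨D, hD⟩ : ∃ D, D = f2 η - f2 ξ := ⟨_, rfl⟩
  obtain ⟨l, hl⟩ : ∃ l, l = η - ξ := ⟨_, rfl⟩
  have hl0 : 0 < l := by rw [hl]; linarith
  rw [← hD] at e1
  rw [← hD, ← hl]
  have e2 : 0 ≤ ∫ x in ξ..η, (f3 x - D / l) ^ 2 :=
    intervalIntegral.integral_nonneg h1.le (fun x _ => sq_nonneg _)
  have e3 : ∫ x in ξ..η, (f3 x - D / l) ^ 2 = (∫ x in ξ..η, f3 x ^ 2) - D ^ 2 / l := by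
    have h3 : ∀ x, (f3 x - D / l) ^ 2 = f3 x ^ 2 - (2 * (D / l)) * f3 x + (D / l) ^ 2 := by
      intro x
      ring
    simp_rw [h3]
    rw [intervalIntegral.integral_add (hi2.sub (hi.const_mul _)) intervalIntegrable_const,
      intervalIntegral.integral_sub hi2 (hi.const_mul _), intervalIntegral.integral_const_mul, e1,
      intervalIntegral.integral_const, ← hl, smul_eq_mul]
    field_simp
    ring
  have e4 : D ^ 2 ≤ l * ∫ x in ξ..η, f3 x ^ 2 := by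
    rw [e3] at e2
    have h4 : D ^ 2 / l ≤ ∫ x in ξ..η, f3 x ^ 2 := by linarith
    rw [div_le_iff₀ hl0] at h4
    linarith
  have hi3 : IntervalIntegrable (fun x => f x ^ n * f3 x ^ 2) volume ξ η := by
    apply ContinuousOn.intervalIntegrable
    apply ContinuousOn.mul _ (hc.pow 2)
    exact hcf.rpow_const (fun x hx => Or.inr hn)
  have e5 : w ^ n * ∫ x in ξ..η, f3 x ^ 2 ≤ ∫ x in ξ..η, f x ^ n * f3 x ^ 2 := by
    rw [← intervalIntegral.integral_const_mul]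
    apply intervalIntegral.integral_mono_on h1.le (hi2.const_mul _) hi3
    intro x hx
    exact mul_le_mul_of_nonneg_right (Real.rpow_le_rpow hw.le (hf x hx) hn) (sq_nonneg _)
  have e6 : ∫ x in ξ..η, f x ^ n * f3 x ^ 2 ≤ E := by
    refine le_trans ?_ P.en
    rw [intervalIntegral.integral_of_le h1.le]
    apply setIntegral_mono_set P.int
    · rw [EventuallyLE, ae_restrict_iff' measurableSet_Ioc]
      exact Eventually.of_forall (fun x hx =>
        mul_nonneg (Real.rpow_nonneg (P.pos x hx).le _) (sq_nonneg _))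
    · exact (Eventually.of_forall (fun x hx => ⟨h0.trans hx.1, hx.2.trans h2⟩))
  have hwn : 0 ≤ w ^ n := Real.rpow_nonneg hw.le _
  calc D ^ 2 * w ^ n ≤ (l * ∫ x in ξ..η, f3 x ^ 2) * w ^ n := mul_le_mul_of_nonneg_right e4 hwn
    _ = l * (w ^ n * ∫ x in ξ..η, f3 x ^ 2) := by ring
    _ ≤ l * E := mul_le_mul_of_nonneg_left (e5.trans e6) hl0.le

theorem Prof.E_nonneg (P : Prof n a0 a E f f1 f2 f3) : 0 ≤ E := by
  refine le_trans ?_ P.en
  apply setIntegral_nonneg measurableSet_Ioc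
  intro x hx
  exact mul_nonneg (Real.rpow_nonneg (P.pos x hx).le _) (sq_nonneg _)

/-- the first point at which the profile has the height `v` -/
theorem Prof.first (P : Prof n a0 a E f f1 f2 f3) {v : ℝ} (hv : 0 < v) (hva : v ≤ f a) :
    ∃ xv ∈ Ioc a0 a, f xv = v ∧ ∀ x ∈ Ioo a0 xv, f x < v := by
  obtain ⟨r, hr, hr'⟩ := P.lim v hv
  obtain ⟨r', h1, h2⟩ : ∃ r', a0 < r' ∧ r' < min r a := exists_between (lt_min hr P.lt)
  have h2r : r' < r := h2.trans_le (min_le_left _ _)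
  have h2a : r' < a := h2.trans_le (min_le_right _ _)
  have hsub : Icc r' a ⊆ Ioc a0 a := fun x hx => ⟨h1.trans_le hx.1, hx.2⟩
  have hcf : ContinuousOn f (Icc r' a) :=
    fun x hx => (P.d0 x (hsub hx)).continuousAt.continuousWithinAt
  have hcomp : IsCompact (Icc r' a ∩ f ⁻¹' Ici v) :=
    (isCompact_Icc).of_isClosed_subset (hcf.preimage_isClosed_of_isClosed isClosed_Icc isClosed_Ici)
      inter_subset_left
  obtain ⟨xv, hx1, hx2⟩ := hcomp.exists_isLeast ⟨a, ⟨h2a.le, le_rfl⟩, hva⟩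
  have hlt : ∀ x ∈ Ioo a0 xv, f x < v := by
    intro x hx
    by_cases hxr : x < r
    · exact hr' x ⟨hx.1, hxr⟩
    · by_contra hcon
      have : xv ≤ x := hx2 ⟨⟨by linarith, hx.2.le.trans hx1.1.2⟩, not_lt.1 hcon⟩
      exact absurd hx.2 (not_lt.2 this)
  refine ⟨xv, hsub hx1.1, ?_, hlt⟩
  apply le_antisymm _ hx1.2
  have hca : ContinuousAt f xv := (P.d0 xv (hsub hx1.1)).continuousAt
  have ht : Tendsto f (𝓝[<] xv) (𝓝 (f xv)) := hca.tendsto.mono_left nhdsWithin_le_nhds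
  refine le_of_tendsto ht ?_
  have hmem : Ioo a0 xv ∈ 𝓝[<] xv := Ioo_mem_nhdsLT (h1.trans_le hx1.1.1)
  filter_upwards [hmem] with x hx
  exact (hlt x hx).le

/-- necks are not too deep -/
def Neck (κ β a0 a : ℝ) (f : ℝ → ℝ) : Prop :=
  ∀ x y z, a0 < x → x < y → y < z → z ≤ a → κ * (min (f x) (f z)) ^ β ≤ f y

theorem Prof.low (P : Prof n a0 a E f f1 f2 f3) {κ β v xv : ℝ} (hκ : 0 < κ) (hκ1 : κ ≤ 1)
    (hβ : 1 ≤ β) (hN : Neck κ β a0 a f) (hv : 0 < v) (hv1 : v ≤ 1) (hva : v ≤ f a)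
    (hx : xv ∈ Ioc a0 a) (hfx : v ≤ f xv) : ∀ y ∈ Icc xv a, κ * v ^ β ≤ f y := by
  have h1 : κ * v ^ β ≤ v := by
    have h2 : v ^ β ≤ v ^ (1 : ℝ) := Real.rpow_le_rpow_of_exponent_ge hv hv1 hβ
    rw [Real.rpow_one] at h2
    have h3 : 0 ≤ v ^ β := Real.rpow_nonneg hv.le _
    nlinarith only [h3, h2, hκ1]
  intro y hy
  rcases eq_or_lt_of_le hy.1 with h | h
  · rw [← h]
    exact h1.trans hfx
  rcases eq_or_lt_of_le hy.2 with h' | h'
  · rw [h']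
    exact h1.trans hva
  refine le_trans ?_ (hN xv y a hx.1 h h' le_rfl)
  apply mul_le_mul_of_nonneg_left _ hκ.le
  exact Real.rpow_le_rpow hv.le (le_min hfx hva) (by linarith)

theorem Prof.first_slope (P : Prof n a0 a E f f1 f2 f3) {v xv : ℝ}
    (hx : xv ∈ Ioc a0 a) (hfx : f xv = v) (hlt : ∀ x ∈ Ioo a0 xv, f x < v) : 0 ≤ f1 xv := by
  by_contra hcon
  push Not at hcon
  have hc : ContinuousAt f1 xv := (P.d1 xv hx).continuousAt
  have hev : ∀ᶠ y in 𝓝 xv, f1 y < 0 := hc.eventually_lt continuousAt_const hcon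
  obtain ⟨l, hl, hl'⟩ := exists_Ioc_subset_of_mem_nhds hev ⟨a0, hx.1⟩
  obtain ⟨y, hy1, hy2⟩ : ∃ y, max a0 l < y ∧ y < xv := exists_between (max_lt hx.1 hl)
  have hya : a0 < y := (le_max_left _ _).trans_lt hy1
  have hyl : l < y := (le_max_right _ _).trans_lt hy1
  obtain ⟨c, hc1, hc2⟩ := exists_hasDerivAt_eq_slope f f1 hy2
    (fun x hx' => (P.d0 x ⟨hya.trans_le hx'.1, hx'.2.trans hx.2⟩).continuousAt.continuousWithinAt)
    (fun x hx' => P.d0 x ⟨hya.trans hx'.1, hx'.2.le.trans hx.2⟩)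
  have h3 : f1 c < 0 := hl' ⟨hyl.trans hc1.1, hc1.2.le⟩
  rw [hc2, hfx] at h3
  have h4 : 0 < xv - y := by linarith
  have h5 : v - f y < 0 := by
    by_contra h6
    push Not at h6
    exact absurd h3 (not_lt.2 (div_nonneg h6 h4.le))
  have h6 := hlt y ⟨hya, hy2⟩
  linarith

end Pool.Agent.Q81.TF
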