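import Pool.Agent.Q81.TF.Grad
import Pool.Agent.Q81.TF.Slope

open Set MeasureTheory Filter Topology

namespace Pool.Agent.Q81.TF

/-- the integral of `u ^ (2 - n)` from `y` to `1`: `log (1 / y)` if `n = 3`, and
`(y ^ (3 - n) - 1) / (n - 3)` if `n > 3` -/
noncomputable def depth (n y : ℝ) : ℝ := ∫ u in y..1, u ^ (2 - n)

theorem rpow_ii {n p q : ℝ} (hp : 0 < p) (hq : 0 < q) :
    IntervalIntegrable (fun u : ℝ => u ^ (2 - n)) volume p q := by
  apply ContinuousOn.intervalIntegrable
  intro u hu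
  have hu0 : 0 < u := lt_of_lt_of_le (lt_min hp hq) hu.1
  exact (Real.continuousAt_rpow_const u (2 - n) (Or.inl hu0.ne')).continuousWithinAt

theorem depth_sub {n p q : ℝ} (hp : 0 < p) (hq : 0 < q) :
    depth n p - depth n q = ∫ u in p..q, u ^ (2 - n) := by
  unfold depth
  rw [← intervalIntegral.integral_add_adjacent_intervals (rpow_ii hp hq)
    (rpow_ii hq one_pos)]
  ring

theorem depth_anti {n p q : ℝ} (hp : 0 < p) (hpq : p ≤ q) : depth n q ≤ depth n p := by
  have h1 := depth_sub (n := n) hp (hp.trans_le hpq)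
  have h2 : 0 ≤ ∫ u in p..q, u ^ (2 - n) :=
    intervalIntegral.integral_nonneg hpq (fun u hu => Real.rpow_nonneg (hp.le.trans hu.1) _)
  linarith

theorem depth_nonneg {n p : ℝ} (hp : 0 < p) (hp1 : p ≤ 1) : 0 ≤ depth n p :=
  intervalIntegral.integral_nonneg hp1 (fun _ hu => Real.rpow_nonneg (hp.le.trans hu.1) _)

theorem hasDerivAt_depth {n y : ℝ} (hy : 0 < y) : HasDerivAt (depth n) (-(y ^ (2 - n))) y := by
  have h1 : HasDerivAt (fun z => ∫ u in z..1, (fun u : ℝ => u ^ (2 - n)) u) (-(y ^ (2 - n))) y := by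
    apply intervalIntegral.integral_hasDerivAt_left (rpow_ii hy one_pos)
    · apply ContinuousOn.stronglyMeasurableAtFilter (s := Ioi 0) isOpen_Ioi
      · intro u hu
        exact (Real.continuousAt_rpow_const u (2 - n) (Or.inl (ne_of_gt hu))).continuousWithinAt
      · exact hy
    · exact Real.continuousAt_rpow_const y (2 - n) (Or.inl hy.ne')
  exact h1

theorem depth_low {n M : ℝ} (hn : 2 ≤ n) (hM : 1 ≤ M) : -M ≤ depth n M := by
  have h1 : ∫ u in (1 : ℝ)..M, u ^ (2 - n) ≤ ∫ _u in (1 : ℝ)..M, (1 : ℝ) := by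
    apply intervalIntegral.integral_mono_on hM (rpow_ii one_pos (by linarith))
      intervalIntegrable_const
    intro u hu
    exact Real.rpow_le_one_of_one_le_of_nonpos hu.1 (by linarith)
  rw [intervalIntegral.integral_const, smul_eq_mul, mul_one] at h1
  have h2 : depth n M = -∫ u in (1 : ℝ)..M, u ^ (2 - n) := by
    unfold depth
    rw [intervalIntegral.integral_symm]
  rw [h2]
  linarith

theorem rpow_depth {n d : ℝ} (hn : 3 ≤ n) (hd : 0 < d) : d ^ (3 - n) = 1 + (n - 3) * depth n d := by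
  rcases eq_or_lt_of_le hn with h | h
  · rw [← h]
    simp
  · unfold depth
    have h0 : (0 : ℝ) ∉ uIcc d 1 := by
      intro h0
      exact absurd (lt_of_lt_of_le (lt_min hd one_pos) h0.1) (lt_irrefl _)
    rw [integral_rpow (Or.inr ⟨by linarith, h0⟩), Real.one_rpow]
    have h1 : 2 - n + 1 = 3 - n := by ring
    have h2 : (3 - n) ≠ 0 := by linarith
    rw [h1]
    have h3 : (n - 3) * ((1 - d ^ (3 - n)) / (3 - n)) = -(1 - d ^ (3 - n)) := by
      rw [mul_div_assoc', div_eq_iff h2]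
      ring
    rw [h3]
    ring

theorem depth_up {n v γ : ℝ} (hn : 3 ≤ n) (hγ : n - 3 ≤ γ) (hv : 0 < v) (hv1 : v ≤ 1) :
    depth n v ≤ (1 + |Real.log v|) ^ 5 * v ^ (-γ) := by
  have h1 : depth n v ≤ ∫ u in v..1, v ^ (3 - n) * u⁻¹ := by
    unfold depth
    apply intervalIntegral.integral_mono_on hv1 (rpow_ii hv one_pos)
    · apply ContinuousOn.intervalIntegrable
      intro u hu
      have hu0 : 0 < u := lt_of_lt_of_le (lt_min hv one_pos) hu.1
      exact (continuousAt_const.mul (continuousAt_inv₀ hu0.ne')).continuousWithinAt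
    · intro u hu
      have hu0 : 0 < u := hv.trans_le hu.1
      have h2 : u ^ (2 - n) = u ^ (3 - n) * u⁻¹ := by
        rw [← Real.rpow_neg_one u, ← Real.rpow_add hu0]
        congr 1
        ring
      rw [h2]
      apply mul_le_mul_of_nonneg_right _ (inv_nonneg.2 hu0.le)
      exact Real.rpow_le_rpow_of_nonpos hv hu.1 (by linarith)
  have h0 : (0 : ℝ) ∉ uIcc v 1 := by
    intro h0
    exact absurd (lt_of_lt_of_le (lt_min hv one_pos) h0.1) (lt_irrefl _)
  rw [intervalIntegral.integral_const_mul, integral_inv h0, Real.log_div one_ne_zero hv.ne',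
    Real.log_one, zero_sub] at h1
  have h3 : -Real.log v = |Real.log v| := (abs_of_nonpos (Real.log_nonpos hv.le hv1)).symm
  rw [h3] at h1
  refine h1.trans ?_
  rw [mul_comm]
  have h4 : v ^ (3 - n) ≤ v ^ (-γ) :=
    Real.rpow_le_rpow_of_exponent_ge hv hv1 (by linarith)
  have h5 : |Real.log v| ≤ (1 + |Real.log v|) ^ 5 := by
    have h6 : 1 ≤ 1 + |Real.log v| := by
      have := abs_nonneg (Real.log v)
      linarith
    calc |Real.log v| ≤ 1 + |Real.log v| := by linarith
      _ = (1 + |Real.log v|) ^ 1 := (pow_one _).symm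
      _ ≤ (1 + |Real.log v|) ^ 5 := pow_le_pow_right₀ h6 (by norm_num)
  exact mul_le_mul h5 h4 (Real.rpow_nonneg hv.le _) (by positivity)

/-- the first point at which the value is `κ` -/
theorem split_right {u : ℝ → ℝ} {a b κ : ℝ} (hab : a ≤ b) (hu : ContinuousOn u (Icc a b))
    (ha : κ ≤ u a) : ∃ p ∈ Icc a b, (∀ y ∈ Icc a p, κ ≤ u y) ∧ (p = b ∨ u p = κ) := by
  by_cases hex : ∃ y ∈ Icc a b, u y ≤ κ
  · obtain ⟨y0, hy0, hy0'⟩ := hex
    have hcomp : IsCompact (Icc a b ∩ u ⁻¹' Iic κ) :=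
      isCompact_Icc.of_isClosed_subset (hu.preimage_isClosed_of_isClosed isClosed_Icc isClosed_Iic)
        inter_subset_left
    obtain ⟨p, hp, hmin⟩ := hcomp.exists_isLeast ⟨y0, hy0, hy0'⟩
    have hgt : ∀ y ∈ Ico a p, κ < u y := by
      intro y hy
      by_contra hcon
      have := hmin ⟨⟨hy.1, hy.2.le.trans hp.1.2⟩, not_lt.1 hcon⟩
      exact absurd hy.2 (not_lt.2 this)
    have hup : u p ≤ κ := hp.2
    have hpe : u p = κ := by
      rcases eq_or_lt_of_le hp.1.1 with h | h
      · rw [← h] at hup ⊢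
        exact le_antisymm hup ha
      · apply le_antisymm hup
        have hmem : Ico a p ∈ 𝓝[<] p := Ico_mem_nhdsLT h
        have ht : Tendsto u (𝓝[<] p) (𝓝 (u p)) := by
          apply (hu p hp.1).tendsto.mono_left
          apply le_inf nhdsWithin_le_nhds
          rw [le_principal_iff]
          filter_upwards [hmem] with y hy
          exact ⟨hy.1, hy.2.le.trans hp.1.2⟩
        refine ge_of_tendsto ht ?_
        filter_upwards [hmem] with y hy
        exact (hgt y hy).le
    refine ⟨p, hp.1, fun y hy => ?_, Or.inr hpe⟩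
    rcases eq_or_lt_of_le hy.2 with h | h
    · rw [h, hpe]
    · exact (hgt y ⟨hy.1, h⟩).le
  · push Not at hex
    exact ⟨b, ⟨hab, le_rfl⟩, fun y hy => (hex y hy).le, Or.inl rfl⟩

/-- the last point at which the value is `κ` -/
theorem split_left {u : ℝ → ℝ} {a b κ : ℝ} (hab : a ≤ b) (hu : ContinuousOn u (Icc a b))
    (hb : κ ≤ u b) : ∃ p ∈ Icc a b, (∀ y ∈ Icc p b, κ ≤ u y) ∧ (p = a ∨ u p = κ) := by
  by_cases hex : u a ≤ κ
  · obtain ⟨y, hy, h1, h2⟩ := last_point hab hu hex hb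
    exact ⟨y, hy, h2, Or.inr h1⟩
  · obtain ⟨p, hp, h1, h2⟩ := split_right (u := fun y => u (-y)) (a := -b) (b := -a) (κ := κ)
      (by linarith)
      (by
        apply hu.comp continuous_neg.continuousOn
        intro y hy
        exact ⟨by linarith [hy.2], by linarith [hy.1]⟩)
      (by simpa using hb)
    refine ⟨-p, ⟨by linarith [hp.2], by linarith [hp.1]⟩, ?_, ?_⟩
    · intro y hy
      have := h1 (-y) ⟨by linarith [hy.2], by linarith [hy.1]⟩
      simpa using this
    · rcases h2 with h | h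
      · exact Or.inl (by rw [h]; ring)
      · exact Or.inr h

theorem cs_int2 {u w : ℝ → ℝ} {a b : ℝ} (hab : a < b) (hu : ContinuousOn u (Icc a b))
    (hw : ContinuousOn w (Icc a b)) (hpos : ∀ x ∈ Icc a b, 0 < w x) :
    (∫ x in a..b, w x * u x) ^ 2 ≤ (∫ x in a..b, w x ^ 2) * ∫ x in a..b, u x ^ 2 := by
  have hu' : ContinuousOn u (uIcc a b) := by rwa [uIcc_of_le hab.le]
  have hw' : ContinuousOn w (uIcc a b) := by rwa [uIcc_of_le hab.le]
  have i1 : IntervalIntegrable (fun x => w x * u x) volume a b := (hw'.mul hu').intervalIntegrable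
  have i2 : IntervalIntegrable (fun x => w x ^ 2) volume a b := (hw'.pow 2).intervalIntegrable
  have i3 : IntervalIntegrable (fun x => u x ^ 2) volume a b := (hu'.pow 2).intervalIntegrable
  obtain ⟨I, hI⟩ : ∃ I, I = ∫ x in a..b, w x * u x := ⟨_, rfl⟩
  obtain ⟨Q, hQ⟩ : ∃ Q, Q = ∫ x in a..b, w x ^ 2 := ⟨_, rfl⟩
  have hQ0 : 0 < Q := by
    rw [hQ]
    apply intervalIntegral.intervalIntegral_pos_of_pos_on i2 _ hab
    intro x hx
    exact pow_pos (hpos x ⟨hx.1.le, hx.2.le⟩) 2
  have e2 : 0 ≤ ∫ x in a..b, (u x - I / Q * w x) ^ 2 :=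
    intervalIntegral.integral_nonneg hab.le (fun x _ => sq_nonneg _)
  have e3 : ∫ x in a..b, (u x - I / Q * w x) ^ 2 = (∫ x in a..b, u x ^ 2) - I ^ 2 / Q := by
    have h3 : ∀ x, (u x - I / Q * w x) ^ 2 =
        u x ^ 2 - (2 * (I / Q)) * (w x * u x) + (I / Q) ^ 2 * w x ^ 2 := by
      intro x
      ring
    simp_rw [h3]
    rw [intervalIntegral.integral_add (i3.sub (i1.const_mul _)) (i2.const_mul _),
      intervalIntegral.integral_sub i3 (i1.const_mul _), intervalIntegral.integral_const_mul,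
      intervalIntegral.integral_const_mul, ← hI, ← hQ]
    field_simp
    ring
  rw [← hI, ← hQ]
  rw [e3] at e2
  have h4 : I ^ 2 / Q ≤ ∫ x in a..b, u x ^ 2 := by linarith
  rw [div_le_iff₀ hQ0] at h4
  linarith

end Pool.Agent.Q81.TF
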