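import Pool.Agent.Q81.TF.Cut

open Set MeasureTheory Filter Topology

namespace Pool.Agent.Q81.TF

/-- a positive solution next to its contact line, on a rectangle -/
structure Flow (n x0 x1 t1 t2 : ℝ) (W D : Set (ℝ × ℝ)) (s : ℝ → ℝ) (g h1 h3 ht : ℝ × ℝ → ℝ) :
    Prop where
  hx : x0 < x1
  htt : t1 < t2
  W_open : IsOpen W
  D_open : IsOpen D
  R_sub : ∀ x ∈ Icc x0 x1, ∀ t ∈ Icc t1 t2, (x, t) ∈ W
  D_iff : ∀ x ∈ Icc x0 x1, ∀ t ∈ Icc t1 t2, ((x, t) ∈ D ↔ s t < x)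
  s_mem : ∀ t ∈ Icc t1 t2, x0 < s t ∧ s t < x1
  g_cont : ContinuousOn g W
  g_pos : ∀ z ∈ D, 0 < g z
  g_zero : ∀ z ∈ W, z ∉ D → g z = 0
  h1_cont : ContinuousOn h1 D
  h3_cont : ContinuousOn h3 D
  ht_cont : ContinuousOn ht D
  d_x : ∀ z ∈ D, HasDerivAt (fun x => g (x, z.2)) (h1 z) z.1
  d_t : ∀ z ∈ D, HasDerivAt (fun t => g (z.1, t)) (ht z) z.2
  d_q : ∀ z ∈ D, HasDerivAt (fun x => g (x, z.2) ^ n * h3 (x, z.2)) (-(ht z)) z.1

/-- the clamping map onto the rectangle -/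
noncomputable def cl (x0 x1 t1 t2 : ℝ) (z : ℝ × ℝ) : ℝ × ℝ :=
  (max x0 (min z.1 x1), max t1 (min z.2 t2))

theorem cl_cont (x0 x1 t1 t2 : ℝ) : Continuous (cl x0 x1 t1 t2) := by
  unfold cl
  fun_prop

theorem cl_eq {x0 x1 t1 t2 x t : ℝ} (hx : x ∈ Icc x0 x1) (ht : t ∈ Icc t1 t2) :
    cl x0 x1 t1 t2 (x, t) = (x, t) := by
  simp only [cl, min_eq_left hx.2, min_eq_left ht.2, max_eq_right hx.1, max_eq_right ht.1]

theorem cl_fst {x0 x1 t1 t2 : ℝ} (h : x0 < x1) (z : ℝ × ℝ) :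
    (cl x0 x1 t1 t2 z).1 ∈ Icc x0 x1 := ⟨le_max_left _ _, max_le h.le (min_le_right _ _)⟩

theorem cl_snd {x0 x1 t1 t2 : ℝ} (h : t1 < t2) (z : ℝ × ℝ) :
    (cl x0 x1 t1 t2 z).2 ∈ Icc t1 t2 := ⟨le_max_left _ _, max_le h.le (min_le_right _ _)⟩

/-- the primitive in the first variable -/
noncomputable def prim (x0 : ℝ) (G : ℝ × ℝ → ℝ) (z : ℝ × ℝ) : ℝ := ∫ y in x0..z.1, G (y, z.2)

theorem prim_cont {x0 : ℝ} {G : ℝ × ℝ → ℝ} (hG : Continuous G) : Continuous (prim x0 G) := by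
  unfold prim
  apply intervalIntegral.continuous_parametric_intervalIntegral_of_continuous
    (f := fun (z : ℝ × ℝ) (y : ℝ) => G (y, z.2)) _ continuous_fst
  exact hG.comp (by fun_prop)

section
variable {n x0 x1 t1 t2 : ℝ} {W D : Set (ℝ × ℝ)} {s : ℝ → ℝ} {g h1 h3 ht : ℝ × ℝ → ℝ}

theorem Flow.cl_mem (F : Flow n x0 x1 t1 t2 W D s g h1 h3 ht) (z : ℝ × ℝ) :
    cl x0 x1 t1 t2 z ∈ W :=
  F.R_sub _ (cl_fst (t1 := t1) (t2 := t2) F.hx z) _ (cl_snd (x0 := x0) (x1 := x1) F.htt z)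

theorem Flow.cutCont (F : Flow n x0 x1 t1 t2 W D s g h1 h3 ht) {ε : ℝ} (hε : 0 < ε) {φ : ℝ → ℝ}
    (hφ : Continuous φ) (hz : ∀ v, v ≤ ε → φ v = 0) {a : ℝ × ℝ → ℝ} (ha : ContinuousOn a D) :
    ContinuousOn (fun z => φ (g z) * a z) W := by
  intro z hzW
  have hgc : ContinuousAt g z := F.g_cont.continuousAt (F.W_open.mem_nhds hzW)
  apply ContinuousAt.continuousWithinAt
  by_cases h : z ∈ D
  · exact (hφ.continuousAt.comp hgc).mul (ha.continuousAt (F.D_open.mem_nhds h))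
  · have h0 : g z = 0 := F.g_zero z hzW h
    have hev : (fun z => φ (g z) * a z) =ᶠ[𝓝 z] fun _ => 0 := by
      have : ∀ᶠ y in 𝓝 z, g y < ε := hgc.eventually_lt continuousAt_const (by rw [h0]; exact hε)
      filter_upwards [this] with y hy
      rw [hz _ hy.le, zero_mul]
    exact ContinuousAt.congr continuousAt_const hev.symm

theorem Flow.clCont (F : Flow n x0 x1 t1 t2 W D s g h1 h3 ht) {G : ℝ × ℝ → ℝ}
    (hG : ContinuousOn G W) : Continuous (fun z => G (cl x0 x1 t1 t2 z)) :=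
  hG.comp_continuous (cl_cont x0 x1 t1 t2) F.cl_mem

variable {B ε : ℝ} {Fc φ1 φ2 : ℝ → ℝ}

theorem HCut.c1 (H : HCut B ε Fc φ1 φ2) : Continuous φ1 :=
  continuous_iff_continuousAt.2 fun x => (H.d1 x).continuousAt

theorem HCut.c0 (H : HCut B ε Fc φ1 φ2) : Continuous Fc :=
  continuous_iff_continuousAt.2 fun x => (H.d0 x).continuousAt

/-- the derivative in time of the cut height -/
theorem Flow.dt (F : Flow n x0 x1 t1 t2 W D s g h1 h3 ht) (hε : 0 < ε) (H : HCut B ε Fc φ1 φ2)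
    {x t : ℝ} (hW : (x, t) ∈ W) :
    HasDerivAt (fun τ => Fc (g (x, τ))) (φ1 (g (x, t)) * ht (x, t)) t := by
  by_cases h : (x, t) ∈ D
  · exact (H.d0 (g (x, t))).comp t (F.d_t (x, t) h)
  · have h0 : g (x, t) = 0 := F.g_zero _ hW h
    have hgc : ContinuousAt g (x, t) := F.g_cont.continuousAt (F.W_open.mem_nhds hW)
    have hgc' : ContinuousAt (fun τ => g (x, τ)) t :=
      ContinuousAt.comp (f := fun τ : ℝ => (x, τ)) hgc (by fun_prop)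
    have hev : (fun τ => Fc (g (x, τ))) =ᶠ[𝓝 t] fun _ => 0 := by
      have : ∀ᶠ τ in 𝓝 t, g (x, τ) < ε :=
        hgc'.eventually_lt continuousAt_const (by rw [h0]; exact hε)
      filter_upwards [this] with y hy
      exact (H.z _ hy.le).1
    rw [h0, (H.z 0 hε.le).2.1, zero_mul]
    exact (hasDerivAt_const t (0 : ℝ)).congr_of_eventuallyEq hev

/-- the derivative in space of the cut flux -/
theorem Flow.dq (F : Flow n x0 x1 t1 t2 W D s g h1 h3 ht) (hε : 0 < ε) (H : HCut B ε Fc φ1 φ2)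
    {x t : ℝ} (hW : (x, t) ∈ W) :
    HasDerivAt (fun y => φ1 (g (y, t)) * (g (y, t) ^ n * h3 (y, t)))
      (φ2 (g (x, t)) * (h1 (x, t) * (g (x, t) ^ n * h3 (x, t))) - φ1 (g (x, t)) * ht (x, t)) x := by
  by_cases h : (x, t) ∈ D
  · have e1 : HasDerivAt (fun y => φ1 (g (y, t))) (φ2 (g (x, t)) * h1 (x, t)) x :=
      (H.d1 (g (x, t))).comp x (F.d_x (x, t) h)
    have e2 := e1.mul (F.d_q (x, t) h)
    refine e2.congr_deriv ?_
    ring
  · have h0 : g (x, t) = 0 := F.g_zero _ hW h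
    have hgc : ContinuousAt g (x, t) := F.g_cont.continuousAt (F.W_open.mem_nhds hW)
    have hgc' : ContinuousAt (fun y => g (y, t)) x :=
      ContinuousAt.comp (f := fun y : ℝ => (y, t)) hgc (by fun_prop)
    have hev : (fun y => φ1 (g (y, t)) * (g (y, t) ^ n * h3 (y, t))) =ᶠ[𝓝 x] fun _ => 0 := by
      have : ∀ᶠ y in 𝓝 x, g (y, t) < ε :=
        hgc'.eventually_lt continuousAt_const (by rw [h0]; exact hε)
      filter_upwards [this] with y hy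
      rw [(H.z _ hy.le).2.1, zero_mul]
    rw [h0, (H.z 0 hε.le).2.1, (H.z 0 hε.le).2.2, zero_mul, zero_mul, sub_zero]
    exact (hasDerivAt_const x (0 : ℝ)).congr_of_eventuallyEq hev

/-- the cut mass to the left of a point -/
noncomputable def mE (x0 x1 t1 t2 : ℝ) (Fc : ℝ → ℝ) (g : ℝ × ℝ → ℝ) : ℝ × ℝ → ℝ :=
  prim x0 (fun z => Fc (g (cl x0 x1 t1 t2 z)))

/-- the error term -/
noncomputable def rE (n x0 x1 t1 t2 : ℝ) (φ2 : ℝ → ℝ) (g h1 h3 : ℝ × ℝ → ℝ) : ℝ × ℝ → ℝ :=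
  prim x0 (fun z => φ2 (g (cl x0 x1 t1 t2 z)) * (h1 (cl x0 x1 t1 t2 z) *
    (g (cl x0 x1 t1 t2 z) ^ n * h3 (cl x0 x1 t1 t2 z))))

/-- the cut flux -/
noncomputable def qE (n x0 x1 t1 t2 : ℝ) (φ1 : ℝ → ℝ) (g h3 : ℝ × ℝ → ℝ) (z : ℝ × ℝ) : ℝ :=
  φ1 (g (cl x0 x1 t1 t2 z)) * (g (cl x0 x1 t1 t2 z) ^ n * h3 (cl x0 x1 t1 t2 z))

theorem Flow.powCont (F : Flow n x0 x1 t1 t2 W D s g h1 h3 ht) (hDW : D ⊆ W) :
    ContinuousOn (fun z => g z ^ n * h3 z) D := by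
  apply ContinuousOn.mul _ F.h3_cont
  apply (F.g_cont.mono hDW).rpow_const
  exact fun z hz => Or.inl (F.g_pos z hz).ne'

theorem Flow.mE_cont (F : Flow n x0 x1 t1 t2 W D s g h1 h3 ht) (H : HCut B ε Fc φ1 φ2) :
    Continuous (mE x0 x1 t1 t2 Fc g) := by
  apply prim_cont
  exact F.clCont (G := fun z => Fc (g z)) (H.c0.comp_continuousOn F.g_cont)

theorem Flow.rE_cont (F : Flow n x0 x1 t1 t2 W D s g h1 h3 ht) (hDW : D ⊆ W) (hε : 0 < ε)
    (H : HCut B ε Fc φ1 φ2) : Continuous (rE n x0 x1 t1 t2 φ2 g h1 h3) := by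
  apply prim_cont
  exact F.clCont (G := fun z => φ2 (g z) * (h1 z * (g z ^ n * h3 z)))
    (F.cutCont hε H.c2 (fun v hv => (H.z v hv).2.2) (F.h1_cont.mul (F.powCont hDW)))

theorem Flow.qE_cont (F : Flow n x0 x1 t1 t2 W D s g h1 h3 ht) (hDW : D ⊆ W) (hε : 0 < ε)
    (H : HCut B ε Fc φ1 φ2) : Continuous (qE n x0 x1 t1 t2 φ1 g h3) :=
  F.clCont (G := fun z => φ1 (g z) * (g z ^ n * h3 z))
    (F.cutCont hε H.c1 (fun v hv => (H.z v hv).2.1) (F.powCont hDW))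

/-- the evolution of the cut mass -/
theorem Flow.mass_evol (F : Flow n x0 x1 t1 t2 W D s g h1 h3 ht) (hDW : D ⊆ W) (hε : 0 < ε)
    (H : HCut B ε Fc φ1 φ2) {x t : ℝ} (hx : x ∈ Icc x0 x1) (htm : t ∈ Icc t1 t2) :
    mE x0 x1 t1 t2 Fc g (x, t) = mE x0 x1 t1 t2 Fc g (x, t1) +
      ∫ τ in t1..t, (rE n x0 x1 t1 t2 φ2 g h1 h3 (x, τ) - qE n x0 x1 t1 t2 φ1 g h3 (x, τ)) := by
  have ht1 : t1 ∈ Icc t1 t2 := ⟨le_rfl, F.htt.le⟩
  have hx0 : x0 ∈ Icc x0 x1 := ⟨le_rfl, F.hx.le⟩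
  have cT : Continuous (fun z => φ1 (g (cl x0 x1 t1 t2 z)) * ht (cl x0 x1 t1 t2 z)) :=
    F.clCont (G := fun z => φ1 (g z) * ht z)
      (F.cutCont hε H.c1 (fun v hv => (H.z v hv).2.1) F.ht_cont)
  have cR : Continuous (fun z => φ2 (g (cl x0 x1 t1 t2 z)) * (h1 (cl x0 x1 t1 t2 z) *
      (g (cl x0 x1 t1 t2 z) ^ n * h3 (cl x0 x1 t1 t2 z)))) :=
    F.clCont (G := fun z => φ2 (g z) * (h1 z * (g z ^ n * h3 z)))
      (F.cutCont hε H.c2 (fun v hv => (H.z v hv).2.2) (F.h1_cont.mul (F.powCont hDW)))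
  have cF : Continuous (fun z => Fc (g (cl x0 x1 t1 t2 z))) :=
    F.clCont (G := fun z => Fc (g z)) (H.c0.comp_continuousOn F.g_cont)
  -- in time
  have e1 : ∀ y ∈ Icc x0 x, Fc (g (cl x0 x1 t1 t2 (y, t))) - Fc (g (cl x0 x1 t1 t2 (y, t1))) =
      ∫ τ in t1..t, φ1 (g (cl x0 x1 t1 t2 (y, τ))) * ht (cl x0 x1 t1 t2 (y, τ)) := by
    intro y hy
    have hy' : y ∈ Icc x0 x1 := ⟨hy.1, hy.2.trans hx.2⟩
    rw [cl_eq hy' htm, cl_eq hy' ht1]
    symm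
    apply intervalIntegral.integral_eq_sub_of_hasDerivAt (f := fun τ => Fc (g (y, τ)))
    · intro τ hτ
      rw [uIcc_of_le htm.1] at hτ
      have hτ' : τ ∈ Icc t1 t2 := ⟨hτ.1, hτ.2.trans htm.2⟩
      rw [cl_eq hy' hτ']
      exact F.dt hε H (F.R_sub y hy' τ hτ')
    · exact (cT.comp (show Continuous fun τ : ℝ => (y, τ) by fun_prop)).intervalIntegrable _ _
  -- in space
  have e2 : ∀ τ ∈ Icc t1 t2, ∫ y in x0..x, φ1 (g (cl x0 x1 t1 t2 (y, τ))) *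
      ht (cl x0 x1 t1 t2 (y, τ)) = rE n x0 x1 t1 t2 φ2 g h1 h3 (x, τ) -
        qE n x0 x1 t1 t2 φ1 g h3 (x, τ) := by
    intro τ hτ
    have e3 : ∫ y in x0..x, (φ2 (g (cl x0 x1 t1 t2 (y, τ))) * (h1 (cl x0 x1 t1 t2 (y, τ)) *
      (g (cl x0 x1 t1 t2 (y, τ)) ^ n * h3 (cl x0 x1 t1 t2 (y, τ)))) -
        φ1 (g (cl x0 x1 t1 t2 (y, τ))) * ht (cl x0 x1 t1 t2 (y, τ))) =
        φ1 (g (x, τ)) * (g (x, τ) ^ n * h3 (x, τ)) -
          φ1 (g (x0, τ)) * (g (x0, τ) ^ n * h3 (x0, τ)) := by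
      apply intervalIntegral.integral_eq_sub_of_hasDerivAt
        (f := fun y => φ1 (g (y, τ)) * (g (y, τ) ^ n * h3 (y, τ)))
      · intro y hy
        rw [uIcc_of_le hx.1] at hy
        have hy' : y ∈ Icc x0 x1 := ⟨hy.1, hy.2.trans hx.2⟩
        rw [cl_eq hy' hτ]
        exact F.dq hε H (F.R_sub y hy' τ hτ)
      · exact ((cR.comp (show Continuous fun y : ℝ => (y, τ) by fun_prop)).sub
          (cT.comp (show Continuous fun y : ℝ => (y, τ) by fun_prop))).intervalIntegrable _ _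
    have h0 : g (x0, τ) = 0 := by
      apply F.g_zero _ (F.R_sub x0 hx0 τ hτ)
      rw [F.D_iff x0 hx0 τ hτ]
      exact not_lt.2 (F.s_mem τ hτ).1.le
    have iR : IntervalIntegrable (fun y => φ2 (g (cl x0 x1 t1 t2 (y, τ))) *
        (h1 (cl x0 x1 t1 t2 (y, τ)) * (g (cl x0 x1 t1 t2 (y, τ)) ^ n *
          h3 (cl x0 x1 t1 t2 (y, τ))))) volume x0 x :=
      (cR.comp (show Continuous fun y : ℝ => (y, τ) by fun_prop)).intervalIntegrable _ _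
    have iT : IntervalIntegrable (fun y => φ1 (g (cl x0 x1 t1 t2 (y, τ))) *
        ht (cl x0 x1 t1 t2 (y, τ))) volume x0 x :=
      (cT.comp (show Continuous fun y : ℝ => (y, τ) by fun_prop)).intervalIntegrable _ _
    rw [h0, (H.z 0 hε.le).2.1, zero_mul, sub_zero, intervalIntegral.integral_sub iR iT] at e3
    unfold rE qE prim
    rw [cl_eq hx hτ]
    simp only
    linarith
  have e4 : mE x0 x1 t1 t2 Fc g (x, t) - mE x0 x1 t1 t2 Fc g (x, t1) =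
      ∫ y in x0..x, ∫ τ in t1..t, φ1 (g (cl x0 x1 t1 t2 (y, τ))) *
        ht (cl x0 x1 t1 t2 (y, τ)) := by
    unfold mE prim
    simp only
    have i1 : IntervalIntegrable (fun y => Fc (g (cl x0 x1 t1 t2 (y, t)))) volume x0 x :=
      (cF.comp (show Continuous fun y : ℝ => (y, t) by fun_prop)).intervalIntegrable _ _
    have i2 : IntervalIntegrable (fun y => Fc (g (cl x0 x1 t1 t2 (y, t1)))) volume x0 x :=
      (cF.comp (show Continuous fun y : ℝ => (y, t1) by fun_prop)).intervalIntegrable _ _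
    rw [← intervalIntegral.integral_sub i1 i2]
    apply intervalIntegral.integral_congr
    intro y hy
    rw [uIcc_of_le hx.1] at hy
    exact e1 y hy
  have e5 : ∫ y in x0..x, ∫ τ in t1..t, φ1 (g (cl x0 x1 t1 t2 (y, τ))) *
        ht (cl x0 x1 t1 t2 (y, τ)) = ∫ τ in t1..t, ∫ y in x0..x,
        φ1 (g (cl x0 x1 t1 t2 (y, τ))) * ht (cl x0 x1 t1 t2 (y, τ)) := by
    apply intervalIntegral_intervalIntegral_swap
      (F := fun y τ => φ1 (g (cl x0 x1 t1 t2 (y, τ))) * ht (cl x0 x1 t1 t2 (y, τ)))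
    apply IntegrableOn.mono_set (t := uIcc x0 x ×ˢ uIcc t1 t)
    · apply ContinuousOn.integrableOn_compact (isCompact_uIcc.prod isCompact_uIcc)
      exact cT.continuousOn
    · exact prod_mono uIoc_subset_uIcc uIoc_subset_uIcc
  have e6 : ∫ τ in t1..t, ∫ y in x0..x,
      φ1 (g (cl x0 x1 t1 t2 (y, τ))) * ht (cl x0 x1 t1 t2 (y, τ)) =
      ∫ τ in t1..t, (rE n x0 x1 t1 t2 φ2 g h1 h3 (x, τ) -
        qE n x0 x1 t1 t2 φ1 g h3 (x, τ)) := by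
    apply intervalIntegral.integral_congr
    intro τ hτ
    rw [uIcc_of_le htm.1] at hτ
    exact e2 τ ⟨hτ.1, hτ.2.trans htm.2⟩
  linarith

end

end Pool.Agent.Q81.TF
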