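import Pool.Agent.Q81.TF.SlopeR

open Set MeasureTheory Filter Topology

namespace Pool.Agent.Q81.TF

/-- the cutoff in the variable `R`, with derivatives `-w` and `-w1` -/
structure FCut (B N : ℝ) (Fr w w1 : ℝ → ℝ) : Prop where
  d0 : ∀ r, HasDerivAt Fr (-(w r)) r
  d1 : ∀ r, HasDerivAt w (w1 r) r
  c2 : Continuous w1
  lo : ∀ r, r ≤ N → Fr r = 1 ∧ w r = 0 ∧ w1 r = 0
  hi : ∀ r, 2 * N ≤ r → Fr r = 0 ∧ w r = 0 ∧ w1 r = 0
  F01 : ∀ r, 0 ≤ Fr r ∧ Fr r ≤ 1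
  w0 : ∀ r, 0 ≤ w r
  wB : ∀ r, w r ≤ B / N
  w1B : ∀ r, |w1 r| ≤ B / N ^ 2

/-- the cutoff in the height -/
structure XCut (A K M ε : ℝ) (χ χ1 χ2 : ℝ → ℝ) : Prop where
  d0 : ∀ v, HasDerivAt χ (χ1 v) v
  d1 : ∀ v, HasDerivAt χ1 (χ2 v) v
  c2 : Continuous χ2
  z : ∀ v, v ≤ ε → χ v = 0 ∧ χ1 v = 0 ∧ χ2 v = 0
  b0 : ∀ v, 0 < v → v ≤ M → 0 ≤ χ v ∧ χ v ≤ A
  b1 : ∀ v, 0 < v → v ≤ M → |χ1 v| ≤ A * (1 / (K * v) + 1)
  b2 : ∀ v, 0 < v → v ≤ M → |χ2 v| ≤ A / (K * v ^ 2)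

theorem XCut.c0 {A K M ε : ℝ} {χ χ1 χ2 : ℝ → ℝ} (H : XCut A K M ε χ χ1 χ2) : Continuous χ :=
  continuous_iff_continuousAt.2 fun x => (H.d0 x).continuousAt

theorem XCut.c1 {A K M ε : ℝ} {χ χ1 χ2 : ℝ → ℝ} (H : XCut A K M ε χ χ1 χ2) : Continuous χ1 :=
  continuous_iff_continuousAt.2 fun x => (H.d1 x).continuousAt

theorem FCut.c0 {B N : ℝ} {Fr w w1 : ℝ → ℝ} (H : FCut B N Fr w w1) : Continuous Fr :=
  continuous_iff_continuousAt.2 fun x => (H.d0 x).continuousAt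

theorem FCut.c1 {B N : ℝ} {Fr w w1 : ℝ → ℝ} (H : FCut B N Fr w w1) : Continuous w :=
  continuous_iff_continuousAt.2 fun x => (H.d1 x).continuousAt

/-- the pointwise bound of the error -/
theorem e_bound {n κ A B K M M3 ν Ha Hm W W1 FR X X1 X2 F p r a b m3 T2 T3 : ℝ}
    (hn : 3 ≤ n) (hκ : 0 ≤ κ) (hA : 0 ≤ A) (hB : 0 ≤ B) (hK : 1 ≤ K) (hν : 1 ≤ ν) (hM : 0 < F)
    (hFM : F ≤ M) (ha0 : 0 < a) (hb0 : 0 < b) (hab : a * b = F ^ 2) (hm30 : 0 ≤ m3)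
    (hm3 : m3 ≤ M3) (hb : b = m3 * F ^ 3) (hma : 1 / F = m3 * a)
    (hHa : |Ha| ≤ Hm) (hW0 : 0 ≤ W) (hW : W ≤ B / ν ^ 4) (hW1 : |W1| ≤ B / (ν ^ 4) ^ 2)
    (hF0 : 0 ≤ FR) (hF1 : FR ≤ 1) (hX0 : 0 ≤ X) (hX : X ≤ A) (hX1 : |X1| ≤ A * (1 / (K * F) + 1))
    (hX2 : |X2| ≤ A / (K * F ^ 2)) (hT2 : p ^ 2 ≤ T2) (hT3 : |p| ^ 3 ≤ T3) :
    |-(W * X * Ha) + (n - 2) * (W * X * (F * r)) + κ / 2 * (W1 * a * X * p ^ 2 - W * X1 * p ^ 3) +
      W * X1 * F ^ 2 * r + FR * X2 * p * b * r| ≤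
      (B * A * Hm / ν ^ 4 + κ / 2 * (B * A / ν ^ 4) * T3) +
      ((n - 2) * (B * A / ν ^ 4) * (1 / (2 * ν ^ 2)) + κ / 2 * (B * A / (ν ^ 4) ^ 2) * T2 +
        κ / 2 * (B * A / ν ^ 4) * (M3 / K) * T3 + B * A / ν ^ 4 * (1 + M) * (1 / (2 * ν ^ 2)) +
        A / K * M3 * (T2 / 2)) * a +
      ((n - 2) * (B * A / ν ^ 4) * (ν ^ 2 / 2) + B * A / ν ^ 4 * (1 + M) * (ν ^ 2 / 2) +
        A / K * M3 / 2) * (b * r ^ 2) := by
  have hK0 : 0 < K := by linarith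
  have hν0 : 0 < ν := by linarith
  have hr2 : (F * r) ^ 2 = a * (b * r ^ 2) := by
    calc (F * r) ^ 2 = F ^ 2 * r ^ 2 := by ring
      _ = a * (b * r ^ 2) := by rw [← hab]; ring
  have hbr : 0 ≤ b * r ^ 2 := mul_nonneg hb0.le (sq_nonneg r)
  -- arithmetic and geometric mean
  have hFr : |F * r| ≤ 1 / (2 * ν ^ 2) * a + ν ^ 2 / 2 * (b * r ^ 2) := by
    have h1 : |F * r| ^ 2 ≤ (1 / (2 * ν ^ 2) * a + ν ^ 2 / 2 * (b * r ^ 2)) ^ 2 := by
      rw [sq_abs, hr2]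
      have h2 : (1 / (2 * ν ^ 2) * a + ν ^ 2 / 2 * (b * r ^ 2)) ^ 2 - a * (b * r ^ 2) =
          (1 / (2 * ν ^ 2) * a - ν ^ 2 / 2 * (b * r ^ 2)) ^ 2 := by
        field_simp
        ring
      nlinarith only [h2, sq_nonneg (1 / (2 * ν ^ 2) * a - ν ^ 2 / 2 * (b * r ^ 2))]
    exact abs_le_of_sq_le_sq' (by simpa using h1) (by positivity) |>.2
  have hpFr : |p| * |F * r| ≤ T2 / 2 * a + 1 / 2 * (b * r ^ 2) := by
    have h1 : (|p| * |F * r|) ^ 2 = (p ^ 2 * a) * (b * r ^ 2) := by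
      rw [mul_pow, sq_abs, sq_abs, hr2]
      ring
    have h2 : |p| * |F * r| ≤ p ^ 2 / 2 * a + 1 / 2 * (b * r ^ 2) := by
      have h3 : (|p| * |F * r|) ^ 2 ≤ (p ^ 2 / 2 * a + 1 / 2 * (b * r ^ 2)) ^ 2 := by
        rw [h1]
        nlinarith only [sq_nonneg (p ^ 2 * a - b * r ^ 2)]
      exact abs_le_of_sq_le_sq' h3 (by positivity) |>.2
    have h4 : p ^ 2 / 2 * a ≤ T2 / 2 * a := mul_le_mul_of_nonneg_right (by linarith) ha0.le
    linarith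
  have hT30 : 0 ≤ T3 := (by positivity : (0:ℝ) ≤ |p| ^ 3).trans hT3
  have hT20 : 0 ≤ T2 := (sq_nonneg p).trans hT2
  have hM30 : 0 ≤ M3 := hm30.trans hm3
  have hWX : W * X ≤ B * A / ν ^ 4 := by
    calc W * X ≤ B / ν ^ 4 * A := mul_le_mul hW hX hX0 (by positivity)
      _ = _ := by ring
  have hWX0 : 0 ≤ W * X := mul_nonneg hW0 hX0
  -- the terms
  have t1 : |-(W * X * Ha)| ≤ B * A * Hm / ν ^ 4 := by
    rw [abs_neg, abs_mul, abs_of_nonneg hWX0]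
    calc W * X * |Ha| ≤ B * A / ν ^ 4 * Hm := mul_le_mul hWX hHa (abs_nonneg _) (by positivity)
      _ = _ := by ring
  have t2 : |(n - 2) * (W * X * (F * r))| ≤ (n - 2) * (B * A / ν ^ 4) *
      (1 / (2 * ν ^ 2) * a + ν ^ 2 / 2 * (b * r ^ 2)) := by
    rw [abs_mul, abs_mul, abs_of_nonneg hWX0, abs_of_nonneg (show 0 ≤ n - 2 by linarith)]
    calc (n - 2) * (W * X * |F * r|) ≤ (n - 2) * (B * A / ν ^ 4 *
          (1 / (2 * ν ^ 2) * a + ν ^ 2 / 2 * (b * r ^ 2))) := by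
          apply mul_le_mul_of_nonneg_left _ (by linarith)
          exact mul_le_mul hWX hFr (abs_nonneg _) (by positivity)
      _ = _ := by ring
  have t3 : |W1 * a * X * p ^ 2| ≤ B * A / (ν ^ 4) ^ 2 * T2 * a := by
    rw [abs_mul, abs_mul, abs_mul, abs_of_pos ha0, abs_of_nonneg hX0, abs_of_nonneg (sq_nonneg p)]
    calc |W1| * a * X * p ^ 2 ≤ B / (ν ^ 4) ^ 2 * a * A * T2 := by
          apply mul_le_mul _ hT2 (sq_nonneg _) (by positivity)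
          apply mul_le_mul _ hX hX0 (by positivity)
          exact mul_le_mul_of_nonneg_right hW1 ha0.le
      _ = _ := by ring
  have hX1' : |X1| ≤ A * (M3 / K * a + 1) := by
    refine hX1.trans (mul_le_mul_of_nonneg_left ?_ hA)
    have h1 : 1 / (K * F) = m3 / K * a := by
      have : 1 / (K * F) = 1 / F / K := by field_simp
      rw [this, hma]
      ring
    rw [h1]
    have h2 : m3 / K * a ≤ M3 / K * a :=
      mul_le_mul_of_nonneg_right (div_le_div_of_nonneg_right hm3 hK0.le) ha0.le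
    linarith
  have t4 : |W * X1 * p ^ 3| ≤ B * A / ν ^ 4 * (M3 / K * a + 1) * T3 := by
    rw [abs_mul, abs_mul, abs_of_nonneg hW0, abs_pow]
    calc W * |X1| * |p| ^ 3 ≤ B / ν ^ 4 * (A * (M3 / K * a + 1)) * T3 := by
          apply mul_le_mul _ hT3 (by positivity) (by positivity)
          exact mul_le_mul hW hX1' (abs_nonneg _) (by positivity)
      _ = _ := by ring
  have hX1F : |X1| * F ≤ A * (1 + M) := by
    calc |X1| * F ≤ A * (1 / (K * F) + 1) * F := mul_le_mul_of_nonneg_right hX1 hM.le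
      _ = A * (1 / K + F) := by field_simp
      _ ≤ A * (1 + M) := by
          apply mul_le_mul_of_nonneg_left _ hA
          have : 1 / K ≤ 1 := by rw [div_le_one hK0]; exact hK
          linarith
  have t5 : |W * X1 * F ^ 2 * r| ≤ B * A / ν ^ 4 * (1 + M) *
      (1 / (2 * ν ^ 2) * a + ν ^ 2 / 2 * (b * r ^ 2)) := by
    have h1 : W * X1 * F ^ 2 * r = W * (X1 * F) * (F * r) := by ring
    have hM0 : 0 ≤ M := hM.le.trans hFM
    rw [h1, abs_mul, abs_mul, abs_of_nonneg hW0, abs_mul X1, abs_of_pos hM]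
    calc W * (|X1| * F) * |F * r| ≤ B / ν ^ 4 * (A * (1 + M)) *
          (1 / (2 * ν ^ 2) * a + ν ^ 2 / 2 * (b * r ^ 2)) := by
          apply mul_le_mul _ hFr (abs_nonneg _) (by positivity)
          exact mul_le_mul hW hX1F (by positivity) (by positivity)
      _ = _ := by ring
  have t6 : |FR * X2 * p * b * r| ≤ A / K * M3 * (T2 / 2 * a + 1 / 2 * (b * r ^ 2)) := by
    have h1 : FR * X2 * p * b * r = FR * (X2 * F ^ 2) * m3 * (p * (F * r)) := by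
      rw [hb]
      ring
    have h2 : |X2| * F ^ 2 ≤ A / K := by
      calc |X2| * F ^ 2 ≤ A / (K * F ^ 2) * F ^ 2 := mul_le_mul_of_nonneg_right hX2 (by positivity)
        _ = A / K := by field_simp
    rw [h1, abs_mul, abs_mul, abs_mul, abs_of_nonneg hF0, abs_mul X2, abs_of_pos
      (show 0 < F ^ 2 by positivity), abs_of_nonneg hm30, abs_mul p]
    calc FR * (|X2| * F ^ 2) * m3 * (|p| * |F * r|) ≤ 1 * (A / K) * M3 *
          (T2 / 2 * a + 1 / 2 * (b * r ^ 2)) := by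
          apply mul_le_mul _ hpFr (by positivity) (by positivity)
          apply mul_le_mul _ hm3 hm30 (by positivity)
          exact mul_le_mul hF1 h2 (by positivity) (by norm_num)
      _ = _ := by ring
  have t34 : |κ / 2 * (W1 * a * X * p ^ 2 - W * X1 * p ^ 3)| ≤
      κ / 2 * (B * A / (ν ^ 4) ^ 2 * T2 * a + B * A / ν ^ 4 * (M3 / K * a + 1) * T3) := by
    rw [abs_mul, abs_of_nonneg (show 0 ≤ κ / 2 by positivity)]
    apply mul_le_mul_of_nonneg_left _ (by positivity)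
    exact (abs_sub _ _).trans (add_le_add t3 t4)
  calc |-(W * X * Ha) + (n - 2) * (W * X * (F * r)) + κ / 2 * (W1 * a * X * p ^ 2 - W * X1 * p ^ 3) +
      W * X1 * F ^ 2 * r + FR * X2 * p * b * r| ≤ |-(W * X * Ha)| + |(n - 2) * (W * X * (F * r))| +
      |κ / 2 * (W1 * a * X * p ^ 2 - W * X1 * p ^ 3)| + |W * X1 * F ^ 2 * r| +
      |FR * X2 * p * b * r| := by
        refine (abs_add_le _ _).trans (add_le_add_left ?_ _)
        refine (abs_add_le _ _).trans (add_le_add_left ?_ _)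
        refine (abs_add_le _ _).trans (add_le_add_left ?_ _)
        exact abs_add_le _ _
    _ ≤ _ := by
        refine (add_le_add (add_le_add (add_le_add (add_le_add t1 t2) t34) t5) t6).trans
          (le_of_eq ?_)
        ring

end Pool.Agent.Q81.TF
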