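import Pool.Agent.Q81.TF.ErrA

open Set MeasureTheory Filter Topology

namespace Pool.Agent.Q81.TF

theorem right_int_deriv {k : ℝ → ℝ} {a0 a x : ℝ} (hk : ContinuousOn k (Ioc a0 a))
    (hx : x ∈ Ioo a0 a) : HasDerivAt (fun x => ∫ y in x..a, k y) (-(k x)) x := by
  have hc : ContinuousAt k x := hk.continuousAt (Ioc_mem_nhds hx.1 hx.2)
  have hsub : Icc x a ⊆ Ioc a0 a := fun y hy => ⟨hx.1.trans_le hy.1, hy.2⟩
  apply intervalIntegral.integral_hasDerivAt_left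
  · apply ContinuousOn.intervalIntegrable
    rw [uIcc_of_le hx.2.le]
    exact hk.mono hsub
  · apply ContinuousOn.stronglyMeasurableAtFilter (s := Ioo a0 a) isOpen_Ioo
    · intro y hy
      exact (hk.continuousAt (Ioc_mem_nhds hy.1 hy.2)).continuousWithinAt
    · exact hx
  · exact hc

theorem right_int_cont {k : ℝ → ℝ} {a0 a ξ : ℝ} (hk : ContinuousOn k (Ioc a0 a))
    (h0 : a0 < ξ) (h1 : ξ ≤ a) : ContinuousOn (fun x => ∫ y in x..a, k y) (Icc ξ a) := by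
  have h2 : IntegrableOn k (uIcc ξ a) := by
    rw [uIcc_of_le h1]
    exact (hk.mono (fun y hy => ⟨h0.trans_le hy.1, hy.2⟩)).integrableOn_Icc
  have := intervalIntegral.continuousOn_primitive_interval_left h2
  rwa [uIcc_of_le h1] at this

variable {n a0 a E : ℝ} {f f1 f2 f3 ft : ℝ → ℝ}

/-- the function `(n - 2) f f''' + (n - 1) (n - 2) f' f''` -/
noncomputable def Hf (n : ℝ) (f f1 f2 f3 : ℝ → ℝ) (y : ℝ) : ℝ :=
  (n - 2) * (f y ^ (1 - n) * (f y ^ n * f3 y)) + (n - 1) * (n - 2) * (f1 y * f2 y)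

theorem Prof.Hf_eq (P : Prof n a0 a E f f1 f2 f3) {y : ℝ} (hy : y ∈ Ioc a0 a) :
    Hf n f f1 f2 f3 y = (n - 2) * (f y * f3 y) + (n - 1) * (n - 2) * (f1 y * f2 y) := by
  unfold Hf
  rw [← mul_assoc (f y ^ (1 - n)), ← Real.rpow_add (P.pos y hy)]
  have h5 : 1 - n + n = 1 := by ring
  rw [h5, Real.rpow_one]

/-- the evolution of `R` -/
theorem Prof.Rdot (P : Prof n a0 a E f f1 f2 f3)
    (hq : ∀ x ∈ Ioc a0 a, HasDerivAt (fun y => f y ^ n * f3 y) (-(ft x)) x)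
    (hct : ContinuousOn ft (Ioc a0 a)) {x : ℝ} (hx : x ∈ Ioc a0 a) :
    ∫ y in x..a, (2 - n) * (f y ^ (1 - n) * ft y) = Hf n f f1 f2 f3 a - Hf n f f1 f2 f3 x -
      (n - 1) * (n - 2) * ∫ y in x..a, f2 y ^ 2 := by
  have hsub : Icc x a ⊆ Ioc a0 a := fun y hy => ⟨hx.1.trans_le hy.1, hy.2⟩
  obtain ⟨c0, c1, c2, c3, cG, cw⟩ := P.cont hx.1 (le_refl a)
  have cr : ContinuousOn (fun y => f y ^ (1 - n)) (Icc x a) :=
    c0.rpow_const (fun y hy => Or.inl (P.pos y (hsub hy)).ne')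
  have ct := hct.mono hsub
  have i1 : IntervalIntegrable (fun y => (2 - n) * (f y ^ (1 - n) * ft y)) volume x a := by
    apply ContinuousOn.intervalIntegrable
    rw [uIcc_of_le hx.2]
    exact continuousOn_const.mul (cr.mul ct)
  have i2 : IntervalIntegrable (fun y => (n - 1) * (n - 2) * f2 y ^ 2) volume x a := by
    apply ContinuousOn.intervalIntegrable
    rw [uIcc_of_le hx.2]
    exact continuousOn_const.mul (c2.pow 2)
  have hd : ∀ y ∈ uIcc x a, HasDerivAt (Hf n f f1 f2 f3)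
      ((2 - n) * (f y ^ (1 - n) * ft y) + (n - 1) * (n - 2) * f2 y ^ 2) y := by
    intro y hy
    rw [uIcc_of_le hx.2] at hy
    have hy' := hsub hy
    have hp := P.pos y hy'
    have e1 := ((P.d0 y hy').rpow_const (p := 1 - n) (Or.inl hp.ne')).mul (hq y hy')
    have e2 := (P.d1 y hy').mul (P.d2 y hy')
    have e3 := (e1.const_mul (n - 2)).add (e2.const_mul ((n - 1) * (n - 2)))
    refine HasDerivAt.congr_deriv e3 ?_
    have e4 : f y ^ (1 - n - 1) * f y ^ n = 1 := by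
      rw [← Real.rpow_add hp]
      have : 1 - n - 1 + n = 0 := by ring
      rw [this, Real.rpow_zero]
    calc _ = (n - 2) * (1 - n) * (f y ^ (1 - n - 1) * f y ^ n) * (f1 y * f3 y) -
          (n - 2) * (f y ^ (1 - n) * ft y) + (n - 1) * (n - 2) * (f2 y * f2 y + f1 y * f3 y) := by
          ring
      _ = _ := by
          rw [e4]
          ring
  have h1 := intervalIntegral.integral_eq_sub_of_hasDerivAt hd (i1.add i2)
  rw [intervalIntegral.integral_add i1 i2] at h1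
  have h2 : ∫ y in x..a, (n - 1) * (n - 2) * f2 y ^ 2 = (n - 1) * (n - 2) * ∫ y in x..a, f2 y ^ 2 :=
    intervalIntegral.integral_const_mul _ _
  rw [h2] at h1
  linarith

/-- the constants of the error bound -/
noncomputable def erC1 (n L B A M Hm C0 : ℝ) : ℝ :=
  L * (B * A * Hm) + L * ((n - 1) * (n - 2) / 2 * (B * A) * C0) + 2 * ((n - 2) * (B * A)) +
    (n - 1) * (n - 2) * (B * A) * C0 + 2 * (B * A * (1 + M))

noncomputable def erC2 (n B A M3 C0 : ℝ) : ℝ :=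
  (n - 1) * (n - 2) * (B * A) * M3 * C0 + A * M3 * C0 + A * M3

/-- collecting the constants -/
theorem collect {n L B A Hm C0 M M3 κ E K ν : ℝ} (hν : 1 ≤ ν) (hK : 1 ≤ K) (hA : 0 ≤ A)
    (hB : 0 ≤ B) (hE : 0 ≤ E) (hκ0 : 0 ≤ κ) (hn2 : 0 ≤ n - 2) (hHm0 : 0 ≤ Hm) (hC00 : 0 ≤ C0)
    (hL0 : 0 ≤ L) (hM0 : 0 ≤ M) (hM30 : 0 ≤ M3) :
    (L * (B * A * Hm / ν ^ 4 + κ / 2 * (B * A / ν ^ 4) * (C0 * (ν ^ 3 * (1 + E)))) ≤
      (L * (B * A * Hm) + L * (κ / 2 * (B * A) * C0)) / ν * (1 + E)) ∧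
    (((n - 2) * (B * A / ν ^ 4) * (1 / (2 * ν ^ 2)) +
      κ / 2 * (B * A / (ν ^ 4) ^ 2) * (C0 * (ν ^ 2 * (1 + E))) +
      κ / 2 * (B * A / ν ^ 4) * (M3 / K) * (C0 * (ν ^ 3 * (1 + E))) +
      B * A / ν ^ 4 * (1 + M) * (1 / (2 * ν ^ 2)) + A / K * M3 * (C0 * (ν ^ 2 * (1 + E)) / 2)) *
      (2 * ν ^ 4) ≤ ((n - 2) * (B * A) + κ * (B * A) * C0 + B * A * (1 + M)) / ν *
      (1 + E) + (κ * (B * A) * M3 * C0 + A * M3 * C0) * ν ^ 6 / K * (1 + E)) ∧
    (((n - 2) * (B * A / ν ^ 4) * (ν ^ 2 / 2) +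
      B * A / ν ^ 4 * (1 + M) * (ν ^ 2 / 2) + A / K * M3 / 2) * E ≤
      ((n - 2) * (B * A) + B * A * (1 + M)) / ν * (1 + E) + A * M3 * ν ^ 6 / K * (1 + E)) := by
  have hν0 : 0 < ν := by linarith
  have hK0 : 0 < K := by linarith
  have hBA : 0 ≤ B * A := mul_nonneg hB hA
  have hν12 : 1 / ν ^ 2 ≤ 1 / ν := by
    apply one_div_le_one_div_of_le hν0
    calc ν = ν ^ 1 := (pow_one ν).symm
      _ ≤ ν ^ 2 := pow_le_pow_right₀ hν (by norm_num)
  refine ⟨?_, ?_, ?_⟩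
  · have e1 : B * A * Hm / ν ^ 4 ≤ B * A * Hm / ν * (1 + E) := by
      have : B * A * Hm / ν ^ 4 ≤ B * A * Hm / ν := by
        apply div_le_div_of_nonneg_left (by positivity) hν0
        calc ν = ν ^ 1 := (pow_one ν).symm
          _ ≤ ν ^ 4 := pow_le_pow_right₀ hν (by norm_num)
      have h0 : 0 ≤ B * A * Hm / ν := by positivity
      nlinarith only [h0, this, hE]
    have e2 : κ / 2 * (B * A / ν ^ 4) * (C0 * (ν ^ 3 * (1 + E))) =
        κ / 2 * (B * A) * C0 / ν * (1 + E) := by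
      field_simp
    rw [e2]
    calc L * (B * A * Hm / ν ^ 4 + κ / 2 * (B * A) * C0 / ν * (1 + E)) ≤
        L * (B * A * Hm / ν * (1 + E) + κ / 2 * (B * A) * C0 / ν * (1 + E)) :=
          mul_le_mul_of_nonneg_left (by linarith) hL0
      _ = _ := by ring
  · have e1 : ((n - 2) * (B * A / ν ^ 4) * (1 / (2 * ν ^ 2)) +
        κ / 2 * (B * A / (ν ^ 4) ^ 2) * (C0 * (ν ^ 2 * (1 + E))) +
        κ / 2 * (B * A / ν ^ 4) * (M3 / K) * (C0 * (ν ^ 3 * (1 + E))) +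
        B * A / ν ^ 4 * (1 + M) * (1 / (2 * ν ^ 2)) + A / K * M3 * (C0 * (ν ^ 2 * (1 + E)) / 2)) *
        (2 * ν ^ 4) = ((n - 2) * (B * A) + κ * (B * A) * C0 * (1 + E) + B * A * (1 + M)) *
        (1 / ν ^ 2) + (κ * (B * A) * M3 * C0 * ν ^ 3 + A * M3 * C0 * ν ^ 6) / K * (1 + E) := by
      field_simp
      ring
    rw [e1]
    have e2 : ((n - 2) * (B * A) + κ * (B * A) * C0 * (1 + E) + B * A * (1 + M)) * (1 / ν ^ 2) ≤
        ((n - 2) * (B * A) + κ * (B * A) * C0 + B * A * (1 + M)) / ν * (1 + E) := by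
      have q1 : (n - 2) * (B * A) + κ * (B * A) * C0 * (1 + E) + B * A * (1 + M) ≤
          ((n - 2) * (B * A) + κ * (B * A) * C0 + B * A * (1 + M)) * (1 + E) := by
        have z1 : 0 ≤ (n - 2) * (B * A) * E := by positivity
        have z2 : 0 ≤ B * A * (1 + M) * E := by positivity
        linarith
      calc ((n - 2) * (B * A) + κ * (B * A) * C0 * (1 + E) + B * A * (1 + M)) * (1 / ν ^ 2) ≤
          (((n - 2) * (B * A) + κ * (B * A) * C0 + B * A * (1 + M)) * (1 + E)) * (1 / ν) := by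
            apply mul_le_mul q1 hν12 (by positivity) (by positivity)
        _ = _ := by ring
    have e3 : (κ * (B * A) * M3 * C0 * ν ^ 3 + A * M3 * C0 * ν ^ 6) / K * (1 + E) ≤
        (κ * (B * A) * M3 * C0 + A * M3 * C0) * ν ^ 6 / K * (1 + E) := by
      apply mul_le_mul_of_nonneg_right _ (by linarith)
      apply div_le_div_of_nonneg_right _ hK0.le
      have q1 : ν ^ 3 ≤ ν ^ 6 := pow_le_pow_right₀ hν (by norm_num)
      have q2 : κ * (B * A) * M3 * C0 * ν ^ 3 ≤ κ * (B * A) * M3 * C0 * ν ^ 6 :=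
        mul_le_mul_of_nonneg_left q1 (by positivity)
      linarith
    linarith
  · have e1 : (n - 2) * (B * A / ν ^ 4) * (ν ^ 2 / 2) + B * A / ν ^ 4 * (1 + M) * (ν ^ 2 / 2) +
        A / K * M3 / 2 = ((n - 2) * (B * A) + B * A * (1 + M)) / 2 * (1 / ν ^ 2) +
        A * M3 / 2 / K := by
      field_simp
    rw [e1]
    have e2 : ((n - 2) * (B * A) + B * A * (1 + M)) / 2 * (1 / ν ^ 2) ≤
        ((n - 2) * (B * A) + B * A * (1 + M)) * (1 / ν) := by
      apply mul_le_mul _ hν12 (by positivity) (by positivity)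
      have : 0 ≤ (n - 2) * (B * A) + B * A * (1 + M) := by positivity
      linarith
    have e3 : A * M3 / 2 / K ≤ A * M3 * ν ^ 6 / K := by
      apply div_le_div_of_nonneg_right _ hK0.le
      have q1 : 1 ≤ ν ^ 6 := one_le_pow₀ hν
      have q2 : 0 ≤ A * M3 := by positivity
      nlinarith only [q2, q1]
    have e4 : 0 ≤ ((n - 2) * (B * A) + B * A * (1 + M)) * (1 / ν) := by positivity
    have e5 : 0 ≤ A * M3 * ν ^ 6 / K := by positivity
    calc (((n - 2) * (B * A) + B * A * (1 + M)) / 2 * (1 / ν ^ 2) + A * M3 / 2 / K) * E ≤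
        (((n - 2) * (B * A) + B * A * (1 + M)) * (1 / ν) + A * M3 * ν ^ 6 / K) * E :=
          mul_le_mul_of_nonneg_right (by linarith) hE
      _ ≤ (((n - 2) * (B * A) + B * A * (1 + M)) * (1 / ν) + A * M3 * ν ^ 6 / K) * (1 + E) :=
          mul_le_mul_of_nonneg_left (by linarith) (by linarith)
      _ = _ := by ring

/-- the rate of change of the functional at one time -/
noncomputable def phT (n a : ℝ) (f ft : ℝ → ℝ) (Fr w χ χ1 : ℝ → ℝ) (x : ℝ) : ℝ :=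
  -(w (∫ y in x..a, f y ^ (2 - n))) * (∫ y in x..a, (2 - n) * (f y ^ (1 - n) * ft y)) * χ (f x) +
    Fr (∫ y in x..a, f y ^ (2 - n)) * (χ1 (f x) * ft x)

theorem Prof.errT (P : Prof n a0 a E f f1 f2 f3) (hn : 3 ≤ n)
    (hq : ∀ x ∈ Ioc a0 a, HasDerivAt (fun y => f y ^ n * f3 y) (-(ft x)) x)
    (hct : ContinuousOn ft (Ioc a0 a)) {L B A K ν M ε c Pm Gm Hm : ℝ} {Fr w w1 χ χ1 χ2 : ℝ → ℝ}
    (hν : 1 ≤ ν) (hK : 1 ≤ K) (hA : 0 ≤ A) (hB : 0 ≤ B)
    (FC : FCut B (ν ^ 4) Fr w w1) (XC : XCut A K M ε χ χ1 χ2) {ξ : ℝ} (hξ : ξ ∈ Ioc a0 a)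
    (hξε : f ξ ≤ ε) (hL : a - a0 ≤ L) (hfM : ∀ x ∈ Ioc a0 a, f x ≤ M) (hc : 0 < c) (hca : c ≤ f a)
    (hPm : |f1 a| ≤ Pm) (hGm : |Gf f f1 f2 a| ≤ Gm) (hHm : |Hf n f f1 f2 f3 a| ≤ Hm) :
    |(∫ x in ξ..a, phT n a f ft Fr w χ χ1 x) + χ1 (f a) * (f a ^ n * f3 a) -
      (n - 1) * (n - 2) * ∫ x in ξ..a, w (∫ y in x..a, f y ^ (2 - n)) * χ (f x) *
        ∫ y in x..a, f2 y ^ 2| ≤
      (erC1 n L B A M Hm (1 + slC n c Pm Gm) / ν +
        erC2 n B A (M ^ (n - 3)) (1 + slC n c Pm Gm) * ν ^ 6 / K) * (1 + E) := by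
  have hE := P.E_nonneg
  have ha0a : a0 < a := P.lt
  have ham : a ∈ Ioc a0 a := ⟨ha0a, le_rfl⟩
  have hM0 : 0 < M := (P.pos a ham).trans_le (hfM a ham)
  have hν0 : 0 < ν := by linarith
  have hK0 : 0 < K := by linarith
  have hsub : Icc ξ a ⊆ Ioc a0 a := fun y hy => ⟨hξ.1.trans_le hy.1, hy.2⟩
  obtain ⟨c0, c1, c2, c3, cG, cw⟩ := P.cont hξ.1 (le_refl a)
  -- the functions
  have cwO : ContinuousOn (fun y => f y ^ (2 - n)) (Ioc a0 a) := by
    intro y hy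
    exact ((P.d0 y hy).continuousAt.rpow_const (Or.inl (P.pos y hy).ne')).continuousWithinAt
  have c2O : ContinuousOn (fun y => f2 y ^ 2) (Ioc a0 a) := by
    intro y hy
    exact ((P.d2 y hy).continuousAt.pow 2).continuousWithinAt
  have ctO : ContinuousOn (fun y => (2 - n) * (f y ^ (1 - n) * ft y)) (Ioc a0 a) := by
    apply continuousOn_const.mul
    apply ContinuousOn.mul _ hct
    intro y hy
    exact ((P.d0 y hy).continuousAt.rpow_const (Or.inl (P.pos y hy).ne')).continuousWithinAt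
  obtain ⟨R, hR⟩ : ∃ R : ℝ → ℝ, R = fun x => ∫ y in x..a, f y ^ (2 - n) := ⟨_, rfl⟩
  obtain ⟨Q, hQ⟩ : ∃ Q : ℝ → ℝ, Q = fun x => ∫ y in x..a, f2 y ^ 2 := ⟨_, rfl⟩
  obtain ⟨Rd, hRd⟩ : ∃ Rd : ℝ → ℝ, Rd = fun x => ∫ y in x..a, (2 - n) * (f y ^ (1 - n) * ft y) :=
    ⟨_, rfl⟩
  have cR : ContinuousOn R (Icc ξ a) := by rw [hR]; exact right_int_cont cwO hξ.1 hξ.2
  have cQ : ContinuousOn Q (Icc ξ a) := by rw [hQ]; exact right_int_cont c2O hξ.1 hξ.2
  have cRd : ContinuousOn Rd (Icc ξ a) := by rw [hRd]; exact right_int_cont ctO hξ.1 hξ.2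
  have dR : ∀ x ∈ Ioo a0 a, HasDerivAt R (-(f x ^ (2 - n))) x := fun x hx => by
    rw [hR]; exact right_int_deriv cwO hx
  have hRa : R a = 0 := by rw [hR]; exact intervalIntegral.integral_same
  have hRdot : ∀ x ∈ Icc ξ a, Rd x = Hf n f f1 f2 f3 a - Hf n f f1 f2 f3 x -
      (n - 1) * (n - 2) * Q x := fun x hx => by
    rw [hRd, hQ]
    exact P.Rdot hq hct (hsub hx)
  have ct := hct.mono hsub
  have cb : ContinuousOn (fun y => f y ^ n) (Icc ξ a) :=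
    c0.rpow_const (fun y hy => Or.inl (P.pos y (hsub hy)).ne')
  have hph : ∀ x, phT n a f ft Fr w χ χ1 x = -(w (R x)) * Rd x * χ (f x) +
      Fr (R x) * (χ1 (f x) * ft x) := fun x => by
    rw [hR, hRd]
    rfl
  have cFr := FC.c0
  have cWw := FC.c1
  have cW1 := FC.c2
  have cX := XC.c0
  have cX1 := XC.c1
  have cX2 := XC.c2
  obtain ⟨κ, hκ⟩ : ∃ κ, κ = (n - 1) * (n - 2) := ⟨_, rfl⟩
  have hκ0 : 0 ≤ κ := by
    rw [hκ]
    exact mul_nonneg (by linarith) (by linarith)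
  -- the error density
  obtain ⟨e, he⟩ : ∃ e : ℝ → ℝ, e = fun x => -(w (R x) * χ (f x) * Hf n f f1 f2 f3 a) +
    (n - 2) * (w (R x) * χ (f x) * (f x * f3 x)) + κ / 2 * (w1 (R x) * f x ^ (2 - n) * χ (f x) *
      f1 x ^ 2 - w (R x) * χ1 (f x) * f1 x ^ 3) + w (R x) * χ1 (f x) * f x ^ 2 * f3 x +
      Fr (R x) * χ2 (f x) * f1 x * f x ^ n * f3 x := ⟨_, rfl⟩
  have ce : ContinuousOn e (Icc ξ a) := by
    rw [he]
    have k1 := cFr.comp_continuousOn cR
    have k2 := cWw.comp_continuousOn cR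
    have k3 := cW1.comp_continuousOn cR
    have k4 := cX.comp_continuousOn c0
    have k5 := cX1.comp_continuousOn c0
    have k6 := cX2.comp_continuousOn c0
    simp only [Function.comp_def] at k1 k2 k3 k4 k5 k6
    fun_prop
  obtain ⟨Ψ, hΨ⟩ : ∃ Ψ : ℝ → ℝ, Ψ = fun x => κ / 2 * (w (R x) * χ (f x) * f1 x ^ 2) -
    Fr (R x) * χ1 (f x) * (f x ^ n * f3 x) := ⟨_, rfl⟩
  have cΨ : ContinuousOn Ψ (Icc ξ a) := by
    rw [hΨ]
    have k1 := cFr.comp_continuousOn cR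
    have k2 := cWw.comp_continuousOn cR
    have k4 := cX.comp_continuousOn c0
    have k5 := cX1.comp_continuousOn c0
    simp only [Function.comp_def] at k1 k2 k4 k5
    fun_prop
  have cg : ContinuousOn (fun x => w (R x) * χ (f x) * Q x) (Icc ξ a) := by
    have k2 := cWw.comp_continuousOn cR
    have k4 := cX.comp_continuousOn c0
    simp only [Function.comp_def] at k2 k4
    fun_prop
  have cph : ContinuousOn (phT n a f ft Fr w χ χ1) (Icc ξ a) := by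
    have k1 := cFr.comp_continuousOn cR
    have k2 := cWw.comp_continuousOn cR
    have k4 := cX.comp_continuousOn c0
    have k5 := cX1.comp_continuousOn c0
    simp only [Function.comp_def] at k1 k2 k4 k5
    have h1 : ContinuousOn (fun x => -(w (R x)) * Rd x * χ (f x) +
      Fr (R x) * (χ1 (f x) * ft x)) (Icc ξ a) := by fun_prop
    exact h1.congr (fun x _ => hph x)
  have ii : ∀ {u : ℝ → ℝ} {p q : ℝ}, ContinuousOn u (Icc ξ a) → ξ ≤ p → p ≤ q → q ≤ a →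
      IntervalIntegrable u volume p q := by
    intro u p q hu h1 h2 h3
    apply ContinuousOn.intervalIntegrable
    rw [uIcc_of_le h2]
    exact hu.mono (Icc_subset_Icc h1 h3)
  have hdΨ : ∀ x ∈ Ioo ξ a, HasDerivAt Ψ (phT n a f ft Fr w χ χ1 x -
      κ * (w (R x) * χ (f x) * Q x) - e x) x := by
    intro x hx
    have hx' : x ∈ Ioc a0 a := ⟨hξ.1.trans hx.1, hx.2.le⟩
    have hp := P.pos x hx'
    have g1 := (FC.d1 (R x)).comp x (dR x ⟨hξ.1.trans hx.1, hx.2⟩)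
    have g0 := (FC.d0 (R x)).comp x (dR x ⟨hξ.1.trans hx.1, hx.2⟩)
    have g2 := (XC.d0 (f x)).comp x (P.d0 x hx')
    have g3 := (XC.d1 (f x)).comp x (P.d0 x hx')
    have g4 := (((g1.mul g2).mul ((P.d1 x hx').pow 2)).const_mul (κ / 2)).sub
      ((g0.mul g3).mul (hq x hx'))
    rw [hΨ]
    refine HasDerivAt.congr_deriv g4 ?_
    have hbb : f x ^ (2 - n) * f x ^ n = f x ^ 2 := by
      rw [← Real.rpow_add hp]
      have : 2 - n + n = (2 : ℕ) := by push_cast; ring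
      rw [this, Real.rpow_natCast]
    rw [hph, he, hRdot x ⟨hx.1.le, hx.2.le⟩, P.Hf_eq hx']
    simp only [Function.comp_apply, Nat.cast_ofNat, Nat.add_one_sub_one, pow_one]
    rw [← hκ]
    have hX : w (R x) * χ1 (f x) * f x ^ 2 * f3 x =
        w (R x) * χ1 (f x) * (f x ^ (2 - n) * f x ^ n) * f3 x := by rw [hbb]
    rw [hX]
    simp only [Pi.mul_apply, Pi.pow_apply, Function.comp_apply]
    ring
  have hftc : ∫ x in ξ..a, (phT n a f ft Fr w χ χ1 x - κ * (w (R x) * χ (f x) * Q x) - e x) =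
      Ψ a - Ψ ξ := by
    apply intervalIntegral.integral_eq_sub_of_hasDerivAt_of_le hξ.2 cΨ hdΨ
    exact ((ii cph le_rfl hξ.2 le_rfl).sub ((ii cg le_rfl hξ.2 le_rfl).const_mul κ)).sub
      (ii ce le_rfl hξ.2 le_rfl)
  have hΨa : Ψ a = -(χ1 (f a) * (f a ^ n * f3 a)) := by
    have h0 := FC.lo 0 (by positivity)
    rw [hΨ]
    simp only [hRa, h0.1, h0.2.1]
    ring
  have hΨξ : Ψ ξ = 0 := by
    have h0 := XC.z (f ξ) hξε
    rw [hΨ]
    simp only [h0.1, h0.2.1]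
    ring
  rw [intervalIntegral.integral_sub ((ii cph le_rfl hξ.2 le_rfl).sub
    ((ii cg le_rfl hξ.2 le_rfl).const_mul κ)) (ii ce le_rfl hξ.2 le_rfl),
    intervalIntegral.integral_sub (ii cph le_rfl hξ.2 le_rfl)
    ((ii cg le_rfl hξ.2 le_rfl).const_mul κ), intervalIntegral.integral_const_mul, hΨa, hΨξ] at hftc
  have hgoal : (∫ x in ξ..a, phT n a f ft Fr w χ χ1 x) + χ1 (f a) * (f a ^ n * f3 a) -
      (n - 1) * (n - 2) * ∫ x in ξ..a, w (∫ y in x..a, f y ^ (2 - n)) * χ (f x) *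
        ∫ y in x..a, f2 y ^ 2 = ∫ x in ξ..a, e x := by
    have h1 : ∫ x in ξ..a, w (∫ y in x..a, f y ^ (2 - n)) * χ (f x) *
        ∫ y in x..a, f2 y ^ 2 = ∫ x in ξ..a, w (R x) * χ (f x) * Q x := by rw [hR, hQ]
    rw [h1, ← hκ]
    linarith
  rw [hgoal]
  -- the cut at `R = 2 N`
  obtain ⟨ζ, hζ, hζ1, hζ2⟩ := split_left (u := fun y => -R y) (κ := -(2 * ν ^ 4)) hξ.2
    cR.neg (by
      show -(2 * ν ^ 4) ≤ -R a
      rw [hRa]
      have : 0 < ν ^ 4 := by positivity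
      linarith)
  have hζR : ∀ y ∈ Icc ζ a, R y ≤ 2 * ν ^ 4 := fun y hy => by
    have := hζ1 y hy
    linarith
  have hζm : ζ ∈ Ioc a0 a := hsub hζ
  have hzero : ∫ x in ξ..ζ, e x = 0 := by
    rcases hζ2 with h | h
    · rw [h, intervalIntegral.integral_same]
    · have hζe : R ζ = 2 * ν ^ 4 := by linarith
      have h1 : ∫ x in ξ..ζ, e x = ∫ _x in ξ..ζ, (0 : ℝ) := by
        apply intervalIntegral.integral_congr
        intro x hx
        rw [uIcc_of_le hζ.1] at hx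
        have h2 : 2 * ν ^ 4 ≤ R x := by
          rw [← hζe, hR]
          simp only
          rw [← intervalIntegral.integral_add_adjacent_intervals
            (P.ii (hξ.1.trans_le hx.1) hx.2 hζ.2) (P.ii hζm.1 hζ.2 (le_refl a))]
          have : 0 ≤ ∫ y in x..ζ, f y ^ (2 - n) := intervalIntegral.integral_nonneg hx.2
            (fun y hy => Real.rpow_nonneg (P.pos y ⟨(hξ.1.trans_le hx.1).trans_le hy.1,
              hy.2.trans hζ.2⟩).le _)
          linarith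
        obtain ⟨z1, z2, z3⟩ := FC.hi _ h2
        rw [he]
        simp only [z1, z2, z3]
        ring
      rw [h1, intervalIntegral.integral_zero]
  rw [← intervalIntegral.integral_add_adjacent_intervals (ii ce le_rfl hζ.1 hζ.2)
    (ii ce hζ.1 hζ.2 le_rfl), hzero, zero_add]
  -- the bounds of the slopes
  obtain ⟨C0, hC0⟩ : ∃ C0, C0 = 1 + slC n c Pm Gm := ⟨_, rfl⟩
  have hC02 : 2 ≤ C0 := by
    rw [hC0]
    have := slC_one (n := n) (Pm := Pm) (Gm := Gm) hc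
    linarith
  rw [← hC0]
  have hν4 : 1 ≤ ν ^ 4 := one_le_pow₀ hν
  have hY : ∀ x ∈ Icc ζ a, |f1 x| ^ 4 ≤ (C0 - 1) * (ν ^ 4 * (1 + E)) := by
    intro x hx
    have hR' : ∫ y in x..a, f y ^ (2 - n) ≤ 2 * ν ^ 4 := by
      have := hζR x hx
      rw [hR] at this
      exact this
    have h1 := P.slopeR hn ⟨hζm.1.trans_le hx.1, hx.2⟩ hν4 hR' hc hca hPm hGm
    refine h1.trans ?_
    have h2 : slC n c Pm Gm = C0 - 1 := by rw [hC0]; ring
    rw [h2]
    apply mul_le_mul_of_nonneg_left _ (by linarith)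
    nlinarith only [hν4]
  obtain ⟨T2, hT2⟩ : ∃ T2, T2 = C0 * (ν ^ 2 * (1 + E)) := ⟨_, rfl⟩
  obtain ⟨T3, hT3⟩ : ∃ T3, T3 = C0 * (ν ^ 3 * (1 + E)) := ⟨_, rfl⟩
  have hT2b : ∀ x ∈ Icc ζ a, f1 x ^ 2 ≤ T2 := by
    intro x hx
    have h1 := hY x hx
    have h2 : |f1 x| ^ 4 = (f1 x ^ 2) ^ 2 := by
      rw [← sq_abs (f1 x)]
      ring
    rw [h2] at h1
    have hν2 : 0 < ν ^ 2 := by positivity
    by_contra hcon
    push Not at hcon
    have h3 : T2 * T2 < (f1 x ^ 2) ^ 2 := by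
      have h4 : 0 ≤ T2 := by rw [hT2]; positivity
      nlinarith only [h4, hcon]
    have h5 : (C0 - 1) * (ν ^ 4 * (1 + E)) ≤ T2 * T2 := by
      rw [hT2]
      have h6 : C0 * (ν ^ 2 * (1 + E)) * (C0 * (ν ^ 2 * (1 + E))) =
          (C0 * C0 * (1 + E)) * (ν ^ 4 * (1 + E)) := by ring
      rw [h6]
      apply mul_le_mul_of_nonneg_right _ (by positivity)
      nlinarith only [hC02, hE]
    linarith
  have hT3b : ∀ x ∈ Icc ζ a, |f1 x| ^ 3 ≤ T3 := by
    intro x hx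
    have h1 := hY x hx
    have hp := abs_nonneg (f1 x)
    have hν3 : 0 < ν ^ 3 := by positivity
    have h3 : |f1 x| ^ 3 * ν ≤ ν ^ 4 + |f1 x| ^ 4 := by
      rcases le_total (|f1 x|) ν with h | h
      · have := pow_le_pow_left₀ hp h 3
        nlinarith only [this, h, hp, pow_nonneg hp 4]
      · have h4 : |f1 x| ^ 3 * ν ≤ |f1 x| ^ 3 * |f1 x| :=
          mul_le_mul_of_nonneg_left h (by positivity)
        have h5 : |f1 x| ^ 3 * |f1 x| = |f1 x| ^ 4 := by ring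
        nlinarith only [h4, pow_nonneg hν0.le 4]
    have h4 : |f1 x| ^ 3 * ν ≤ T3 * ν := by
      refine h3.trans ?_
      rw [hT3]
      have h5 : C0 * (ν ^ 3 * (1 + E)) * ν = ν ^ 4 * (1 + E) + (C0 - 1) * (ν ^ 4 * (1 + E)) := by
        ring
      rw [h5]
      have h6 : ν ^ 4 * 1 ≤ ν ^ 4 * (1 + E) :=
        mul_le_mul_of_nonneg_left (by linarith) (by positivity)
      linarith
    exact le_of_mul_le_mul_right h4 hν0
  obtain ⟨M3, hM3⟩ : ∃ M3, M3 = M ^ (n - 3) := ⟨_, rfl⟩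
  have hM30 : 0 ≤ M3 := by rw [hM3]; exact Real.rpow_nonneg hM0.le _
  rw [← hM3]
  obtain ⟨α1, hα1⟩ : ∃ α1, α1 = B * A * Hm / ν ^ 4 + κ / 2 * (B * A / ν ^ 4) * T3 := ⟨_, rfl⟩
  obtain ⟨α2, hα2⟩ : ∃ α2, α2 = (n - 2) * (B * A / ν ^ 4) * (1 / (2 * ν ^ 2)) +
    κ / 2 * (B * A / (ν ^ 4) ^ 2) * T2 + κ / 2 * (B * A / ν ^ 4) * (M3 / K) * T3 +
    B * A / ν ^ 4 * (1 + M) * (1 / (2 * ν ^ 2)) + A / K * M3 * (T2 / 2) := ⟨_, rfl⟩
  obtain ⟨α3, hα3⟩ : ∃ α3, α3 = (n - 2) * (B * A / ν ^ 4) * (ν ^ 2 / 2) +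
    B * A / ν ^ 4 * (1 + M) * (ν ^ 2 / 2) + A / K * M3 / 2 := ⟨_, rfl⟩
  have hT20 : 0 ≤ T2 := by rw [hT2]; positivity
  have hT30 : 0 ≤ T3 := by rw [hT3]; positivity
  have hHm0 : 0 ≤ Hm := (abs_nonneg _).trans hHm
  have hn2 : 0 ≤ n - 2 := by linarith
  have hα10 : 0 ≤ α1 := by rw [hα1]; positivity
  have hα20 : 0 ≤ α2 := by rw [hα2]; positivity
  have hα30 : 0 ≤ α3 := by rw [hα3]; positivity
  have hpt : ∀ x ∈ Icc ζ a, |e x| ≤ α1 + α2 * f x ^ (2 - n) + α3 * (f x ^ n * f3 x ^ 2) := by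
    intro x hx
    have hx' : x ∈ Ioc a0 a := ⟨hζm.1.trans_le hx.1, hx.2⟩
    have hp := P.pos x hx'
    have hfx := hfM x hx'
    rw [he, hα1, hα2, hα3]
    apply e_bound (m3 := f x ^ (n - 3)) hn hκ0 hA hB hK hν hp hfx (Real.rpow_pos_of_pos hp _)
      (Real.rpow_pos_of_pos hp _)
    · rw [← Real.rpow_add hp]
      have : 2 - n + n = (2 : ℕ) := by push_cast; ring
      rw [this, Real.rpow_natCast]
    · exact Real.rpow_nonneg hp.le _
    · rw [hM3]
      exact Real.rpow_le_rpow hp.le hfx (by linarith)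
    · rw [← Real.rpow_natCast (f x) 3, ← Real.rpow_add hp]
      congr 1
      push_cast
      ring
    · rw [← Real.rpow_add hp, one_div, ← Real.rpow_neg_one]
      congr 1
      ring
    · exact hHm
    · exact FC.w0 _
    · exact FC.wB _
    · exact FC.w1B _
    · exact (FC.F01 _).1
    · exact (FC.F01 _).2
    · exact (XC.b0 _ hp hfx).1
    · exact (XC.b0 _ hp hfx).2
    · exact XC.b1 _ hp hfx
    · exact XC.b2 _ hp hfx
    · exact hT2b x hx
    · exact hT3b x hx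
  have i1 : IntervalIntegrable (fun x => f x ^ (2 - n)) volume ζ a := P.ii hζm.1 hζ.2 le_rfl
  have i2 : IntervalIntegrable (fun x => f x ^ n * f3 x ^ 2) volume ζ a := by
    apply ii _ hζ.1 hζ.2 le_rfl
    exact cb.mul (c3.pow 2)
  have h1 : |∫ x in ζ..a, e x| ≤ ∫ x in ζ..a, (α1 + α2 * f x ^ (2 - n) +
      α3 * (f x ^ n * f3 x ^ 2)) := by
    refine (intervalIntegral.abs_integral_le_integral_abs hζ.2).trans ?_
    apply intervalIntegral.integral_mono_on hζ.2 (ii ce.abs hζ.1 hζ.2 le_rfl)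
      ((intervalIntegrable_const.add (i1.const_mul _)).add (i2.const_mul _))
    exact hpt
  rw [intervalIntegral.integral_add (intervalIntegrable_const.add (i1.const_mul _))
    (i2.const_mul _), intervalIntegral.integral_add intervalIntegrable_const (i1.const_mul _),
    intervalIntegral.integral_const, intervalIntegral.integral_const_mul,
    intervalIntegral.integral_const_mul, smul_eq_mul] at h1
  have h2 : ∫ x in ζ..a, f x ^ (2 - n) ≤ 2 * ν ^ 4 := by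
    have := hζR ζ ⟨le_rfl, hζ.2⟩
    rw [hR] at this
    exact this
  have h3 : ∫ x in ζ..a, f x ^ n * f3 x ^ 2 ≤ E := by
    refine le_trans ?_ P.en
    rw [intervalIntegral.integral_of_le hζ.2]
    apply setIntegral_mono_set P.int
    · rw [EventuallyLE, ae_restrict_iff' measurableSet_Ioc]
      exact Eventually.of_forall (fun x hx =>
        mul_nonneg (Real.rpow_nonneg (P.pos x hx).le _) (sq_nonneg _))
    · exact (Eventually.of_forall (fun x hx => ⟨hζm.1.trans hx.1, hx.2⟩))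
  have h4 : (a - ζ) * α1 ≤ L * α1 :=
    mul_le_mul_of_nonneg_right (by linarith [hζm.1]) hα10
  have h5 : α2 * ∫ x in ζ..a, f x ^ (2 - n) ≤ α2 * (2 * ν ^ 4) :=
    mul_le_mul_of_nonneg_left h2 hα20
  have h6 : α3 * ∫ x in ζ..a, f x ^ n * f3 x ^ 2 ≤ α3 * E := mul_le_mul_of_nonneg_left h3 hα30
  have hL0 : 0 ≤ L := by linarith
  have hBA : 0 ≤ B * A := mul_nonneg hB hA
  obtain ⟨k1, k2, k3⟩ := collect (L := L) (B := B) (A := A) (Hm := Hm) (C0 := C0) (M := M)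
    (M3 := M3) (κ := κ) (E := E) (K := K) (ν := ν) (n := n) hν hK hA hB hE hκ0 hn2 hHm0
    (by linarith) hL0 hM0.le hM30
  rw [← hT2, ← hT3, ← hα2] at k2
  rw [← hT3, ← hα1] at k1
  rw [← hα3] at k3
  refine h1.trans ?_
  have k4 : (erC1 n L B A M Hm C0 / ν + erC2 n B A M3 C0 * ν ^ 6 / K) * (1 + E) =
      (L * (B * A * Hm) + L * (κ / 2 * (B * A) * C0)) / ν * (1 + E) +
      (((n - 2) * (B * A) + κ * (B * A) * C0 + B * A * (1 + M)) / ν *
      (1 + E) + (κ * (B * A) * M3 * C0 + A * M3 * C0) * ν ^ 6 / K * (1 + E)) +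
      (((n - 2) * (B * A) + B * A * (1 + M)) / ν * (1 + E) + A * M3 * ν ^ 6 / K * (1 + E)) := by
    unfold erC1 erC2
    rw [hκ]
    ring
  rw [k4]
  linarith

end Pool.Agent.Q81.TF
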