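import Pool.Agent.Q81.TF.Slice

open Set MeasureTheory Filter Topology

namespace Pool.Agent.Q81.TF

variable {n x0 x1 t1 t2 : ℝ} {W D : Set (ℝ × ℝ)} {s : ℝ → ℝ} {g h1 h2 h3 ht : ℝ × ℝ → ℝ}

/-- a deep neck at the label `b` -/
def Event (n x0 x1 t1 t2 Z : ℝ) (g : ℝ × ℝ → ℝ) (K b t : ℝ) : Prop :=
  ∃ w0 w1 w2, WCut b (muK n K) Z w0 w1 w2 ∧ SgK n K ≤ Sf n x0 x1 t1 t2 g w0 t

theorem mu_le_nu {n K : ℝ} (hn : 3 ≤ n) (hK : 0 ≤ K) : muK n K ≤ nuK n K := by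
  unfold muK nuK rhoQ lamP
  rw [Real.exp_le_exp]
  have : 0 ≤ rhoP n * K := mul_nonneg (by unfold rhoP; linarith) hK
  linarith

theorem Flow.ne_of (F : Flow n x0 x1 t1 t2 W D s g h1 h3 ht) (hDW : D ⊆ W) (hn : 3 ≤ n) {Z : ℝ}
    (hZ : ∀ b μ, 0 < μ → ∃ w0 w1 w2, WCut b μ Z w0 w1 w2) {τ bl mc κ0 : ℝ} (hτ : τ ∈ Icc t1 t2)
    (hκ0 : 0 ≤ κ0) (hbl : 0 ≤ bl)
    (hev : ∀ κ, κ0 ≤ κ → ∀ b, bl + 16 * nuK n κ ≤ b → b + nuK n κ < mc →
      ¬ Event n x0 x1 t1 t2 Z g κ b τ) :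
    NE n (s τ) x1 bl mc κ0 (fun x => g (x, τ)) (fun x => mF x0 x1 t1 t2 g (x, τ)) := by
  intro κ hκ b hb1 hb2 u1 u2 V hu1 hu12 hu2 hV h
  have hst := F.s_mem τ hτ
  have hμ := muK_pos n κ
  have hμν := mu_le_nu hn (hκ0.trans hκ)
  obtain ⟨w0, w1, w2, WC⟩ := hZ b (muK n κ) hμ
  have hno := hev κ hκ b hb1 hb2
  have h3 : Sf n x0 x1 t1 t2 g w0 τ < SgK n κ := by
    by_contra hcon
    push Not at hcon
    exact hno ⟨w0, w1, w2, WC, hcon⟩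
  refine le_trans ?_ h3.le
  have hb : 0 < b - 2 * muK n κ := by linarith
  have hc := slice_c (F.Sf_cont hDW WC hb) hτ
  have hx0m : x0 ∈ Icc x0 x1 := ⟨le_rfl, F.hx.le⟩
  have hx1m : x1 ∈ Icc x0 x1 := ⟨F.hx.le, le_rfl⟩
  have hu1m : u1 ∈ Icc x0 x1 := ⟨hst.1.le.trans hu1.le, hu12.trans hu2⟩
  have hu2m : u2 ∈ Icc x0 x1 := ⟨hst.1.le.trans (hu1.le.trans hu12), hu2⟩
  have hi : ∀ p q, p ∈ Icc x0 x1 → q ∈ Icc x0 x1 → IntervalIntegrable
      (fun x => w0 (mF x0 x1 t1 t2 g (x, τ)) * g (x, τ) ^ (8 / 5 - n)) volume p q := by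
    intro p q hp hq
    apply ContinuousOn.intervalIntegrable
    exact hc.mono (uIcc_subset_Icc hp hq)
  have hnn : ∀ x ∈ Icc x0 x1, 0 ≤ w0 (mF x0 x1 t1 t2 g (x, τ)) * g (x, τ) ^ (8 / 5 - n) :=
    fun x hx => mul_nonneg (WC.range _).1 (Real.rpow_nonneg (F.g_nonneg (F.R_sub x hx τ hτ)) _)
  unfold Sf
  rw [← intervalIntegral.integral_add_adjacent_intervals (hi x0 u1 hx0m hu1m)
    (hi u1 x1 hu1m hx1m), ← intervalIntegral.integral_add_adjacent_intervals (hi u1 u2 hu1m hu2m)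
    (hi u2 x1 hu2m hx1m)]
  have e1 : 0 ≤ ∫ x in x0..u1, w0 (mF x0 x1 t1 t2 g (x, τ)) * g (x, τ) ^ (8 / 5 - n) :=
    intervalIntegral.integral_nonneg hu1m.1 (fun x hx => hnn x ⟨hx.1, hx.2.trans hu1m.2⟩)
  have e2 : 0 ≤ ∫ x in u2..x1, w0 (mF x0 x1 t1 t2 g (x, τ)) * g (x, τ) ^ (8 / 5 - n) :=
    intervalIntegral.integral_nonneg hu2 (fun x hx => hnn x ⟨hu2m.1.trans hx.1, hx.2⟩)
  have e3 : (∫ _x in u1..u2, V ^ (-(n - 8 / 5))) ≤
      ∫ x in u1..u2, w0 (mF x0 x1 t1 t2 g (x, τ)) * g (x, τ) ^ (8 / 5 - n) := by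
    apply intervalIntegral.integral_mono_on hu12 intervalIntegrable_const (hi u1 u2 hu1m hu2m)
    intro x hx
    have h4 := h x hx
    have hgx : 0 < g (x, τ) := F.g_pos _ (F.slD hτ hu1 hu2 x hx)
    rw [WC.one _ h4.2, one_mul]
    have e : (-(n - 8 / 5) : ℝ) = 8 / 5 - n := by ring
    rw [e]
    exact Real.rpow_le_rpow_of_nonpos hgx h4.1 (by linarith)
  rw [intervalIntegral.integral_const, smul_eq_mul] at e3
  linarith

/-- the height of the neck of an event -/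
noncomputable def hS (n L K : ℝ) : ℝ := (4 * L / SgK n K) ^ (1 / (n - 8 / 5))

theorem hS_pos {n L K : ℝ} (hL : 0 < L) : 0 < hS n L K :=
  Real.rpow_pos_of_pos (div_pos (by positivity) (SgK_pos _ _)) _

theorem hS_pow {n L K : ℝ} (hn : 3 ≤ n) (hL : 0 < L) :
    hS n L K ^ (8 / 5 - n) = SgK n K / (4 * L) := by
  have h1 := SgK_pos n K
  have h2 : 0 < 4 * L / SgK n K := by positivity
  unfold hS
  rw [← Real.rpow_mul h2.le]
  have e : 1 / (n - 8 / 5) * (8 / 5 - n) = -1 := by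
    have : n - 8 / 5 ≠ 0 := by linarith
    rw [div_mul_eq_mul_div, one_mul, div_eq_iff this]
    ring
  rw [e, Real.rpow_neg_one, inv_div]

theorem Flow.neck_ex (F : Flow n x0 x1 t1 t2 W D s g h1 h3 ht) (hDW : D ⊆ W) (hn : 3 ≤ n)
    {Z K b : ℝ} {w0 w1 w2 : ℝ → ℝ} (WC : WCut b (muK n K) Z w0 w1 w2)
    (hb : 0 < b - 2 * muK n K) {τ : ℝ} (hτ : τ ∈ Icc t1 t2)
    (hS' : SgK n K / 2 ≤ Sf n x0 x1 t1 t2 g w0 τ) :
    ∃ y, s τ < y ∧ y ≤ x1 ∧ |mF x0 x1 t1 t2 g (y, τ) - b| ≤ 2 * muK n K ∧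
      g (y, τ) ≤ hS n (x1 - x0) K := by
  have hst := F.s_mem τ hτ
  have hL : 0 < x1 - x0 := by linarith [F.hx]
  have hSg := SgK_pos n K
  by_contra hcon
  push Not at hcon
  have hle : Sf n x0 x1 t1 t2 g w0 τ ≤ ∫ _x in x0..x1, SgK n K / (4 * (x1 - x0)) := by
    unfold Sf
    apply intervalIntegral.integral_mono_on F.hx.le
    · apply ContinuousOn.intervalIntegrable
      rw [uIcc_of_le F.hx.le]
      exact slice_c (F.Sf_cont hDW WC hb) hτ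
    · exact intervalIntegrable_const
    · intro x hx
      have hpos : 0 ≤ SgK n K / (4 * (x1 - x0)) := by positivity
      rcases le_or_gt (mF x0 x1 t1 t2 g (x, τ)) (b - 2 * muK n K) with h | h
      · rw [(WC.lo _ h).1, zero_mul]
        exact hpos
      rcases le_or_gt (b + 2 * muK n K) (mF x0 x1 t1 t2 g (x, τ)) with h' | h'
      · rw [(WC.hi _ h').1, zero_mul]
        exact hpos
      have hsx : s τ < x := by
        by_contra hc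
        have : mF x0 x1 t1 t2 g (x, τ) = 0 := by
          apply F.mF_zero hx hτ
          rw [F.D_iff x hx τ hτ]
          exact hc
        linarith
      have h3 := hcon x hsx hx.2 (by rw [abs_le]; constructor <;> linarith)
      rw [← hS_pow hn hL]
      have hgx : 0 < g (x, τ) := F.g_pos _ ((F.D_iff x hx τ hτ).2 hsx)
      have h4 : g (x, τ) ^ (8 / 5 - n) ≤ hS n (x1 - x0) K ^ (8 / 5 - n) :=
        Real.rpow_le_rpow_of_nonpos (hS_pos hL) h3.le (by linarith)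
      calc w0 (mF x0 x1 t1 t2 g (x, τ)) * g (x, τ) ^ (8 / 5 - n) ≤
          1 * g (x, τ) ^ (8 / 5 - n) :=
            mul_le_mul_of_nonneg_right (WC.range _).2 (Real.rpow_nonneg hgx.le _)
        _ ≤ _ := by rw [one_mul]; exact h4
  rw [intervalIntegral.integral_const, smul_eq_mul] at hle
  have e : (x1 - x0) * (SgK n K / (4 * (x1 - x0))) = SgK n K / 4 := by
    field_simp
  linarith

/-- data at one time -/
structure AtTime (n x0 x1 t1 t2 : ℝ) (D : Set (ℝ × ℝ)) (s : ℝ → ℝ) (g h1 h3 : ℝ × ℝ → ℝ)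
    (M Pm bl K c τ : ℝ) : Prop where
  hτ : τ ∈ Icc t1 t2
  hint : IntegrableOn (fun x => D.indicator (Fd n g h3) (x, τ)) (Ioc x0 x1)
  hM1 : 1 ≤ M
  hM : ∀ x ∈ Icc x0 x1, g (x, τ) ≤ M
  hPm : h1 (x1, τ) ≤ Pm
  hbl : 0 ≤ bl
  hK : 0 ≤ K
  hc : c ∈ Icc x0 x1
  ne : NE n (s τ) x1 bl (mF x0 x1 t1 t2 g (c, τ)) (lamP * K) (fun x => g (x, τ))
    (fun x => mF x0 x1 t1 t2 g (x, τ))

section
variable {M Pm bl K c τ Z b : ℝ} {w0 w1 w2 : ℝ → ℝ}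

theorem Flow.mlim (F : Flow n x0 x1 t1 t2 W D s g h1 h3 ht) (hτ : τ ∈ Icc t1 t2) :
    ∀ e > 0, ∃ r > s τ, ∀ x ∈ Ioo (s τ) r, mF x0 x1 t1 t2 g (x, τ) < e := by
  intro e he
  have hst := F.s_mem τ hτ
  have hsm : s τ ∈ Icc x0 x1 := ⟨hst.1.le, hst.2.le⟩
  have h0 : mF x0 x1 t1 t2 g (s τ, τ) = 0 := by
    apply F.mF_zero hsm hτ
    rw [F.D_iff _ hsm τ hτ]
    exact lt_irrefl _
  have hc : Continuous (fun x => mF x0 x1 t1 t2 g (x, τ)) :=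
    F.mF_cont.comp (show Continuous fun x : ℝ => (x, τ) by fun_prop)
  have hev : ∀ᶠ x in 𝓝 (s τ), mF x0 x1 t1 t2 g (x, τ) < e :=
    hc.continuousAt.eventually_lt continuousAt_const (by rw [h0]; exact he)
  obtain ⟨l, u, hlu, hsub'⟩ := mem_nhds_iff_exists_Ioo_subset.1 hev
  exact ⟨u, hlu.2, fun x hx => hsub' ⟨hlu.1.trans hx.1, hx.2⟩⟩

theorem Flow.win_sup (F : Flow n x0 x1 t1 t2 W D s g h1 h3 ht) (J : Jet D h1 h2 h3)
    (hDW : D ⊆ W) (hn : 3 ≤ n) (hn9 : n ≤ 9)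
    (A : AtTime n x0 x1 t1 t2 D s g h1 h3 M Pm bl K c τ) (hμν : 4 * muK n K ≤ nuK n K)
    (WC : WCut b (muK n K) Z w0 w1 w2) (hb : bl + 16 * nuK n K ≤ b)
    (hbc : b + 32 * muK n K ≤ mF x0 x1 t1 t2 g (c, τ))
    (hS' : SgK n K / 2 ≤ Sf n x0 x1 t1 t2 g w0 τ) :
    ∀ x ∈ Icc x0 x1, s τ < x → b - 2 * muK n K ≤ mF x0 x1 t1 t2 g (x, τ) →
      mF x0 x1 t1 t2 g (x, τ) ≤ b + 2 * muK n K → g (x, τ) ≤ 2 * hS n (x1 - x0) K ∨
        g (x, τ) ≤ 2 * thK K ∨ g (x, τ) ^ 2 ≤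
          32 * PK n M Pm (eV n x0 x1 D univ g h3 τ) (lamP * K) * muK n K := by
  intro x hx hsx hmx1 hmx2
  obtain ⟨hτ, hint, hM1, hM, hPm, hbl, hK, hc, ne⟩ := A
  have hst := F.s_mem τ hτ
  have P := F.prof J hτ hint
  have hE := P.E_nonneg
  have hμ := muK_pos n K
  have hν := nuK_pos n K
  obtain ⟨y, hy1, hy2, hy3, hy4⟩ := F.neck_ex hDW hn WC (by linarith) hτ hS'
  have dm : ∀ x ∈ Ioc (s τ) x1, HasDerivAt (fun x => mF x0 x1 t1 t2 g (x, τ)) (g (x, τ)) x :=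
    fun x hx => F.label_dx ⟨hst.1.le.trans hx.1.le, hx.2⟩ hτ
  have hM' : ∀ u ∈ Ioc (s τ) x1, g (u, τ) ≤ M := fun u hu => hM u ⟨hst.1.le.trans hu.1.le, hu.2⟩
  have hy3' := abs_le.1 hy3
  have hPK0 : 0 < PK n M Pm (eV n x0 x1 D univ g h3 τ) (lamP * K) := Real.exp_pos _
  have hlt : ∀ u, u ∈ Icc x0 x1 → mF x0 x1 t1 t2 g (u, τ) ≤ b + 2 * muK n K → u ≤ c := by
    intro u hu h
    by_contra hcon
    push Not at hcon
    have := F.mF_mono (τ := τ) hc.1 hcon.le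
    linarith
  rcases le_total y x with h | h
  · have h5 := P.heightR hn hn9 hE hM' hM1 hPm dm (F.mlim hτ) hK hμν ne hbl hb (c := c) hc.2 rfl
      hy1 hy3 h (hlt x hx hmx2) (by linarith)
    rcases h5 with h5 | h5 | h5
    · left
      linarith
    · right; left
      exact h5
    · right; right
      refine h5.trans ?_
      have h6 : max (mF x0 x1 t1 t2 g (x, τ) - mF x0 x1 t1 t2 g (y, τ)) (muK n K) ≤
          4 * muK n K := by
        apply max_le <;> linarith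
      have h7 := mul_le_mul_of_nonneg_left h6 (show 0 ≤ 8 * PK n M Pm
        (eV n x0 x1 D univ g h3 τ) (lamP * K) by positivity)
      linarith
  · have hym : y ∈ Icc x0 x1 := ⟨hst.1.le.trans hy1.le, hy2⟩
    have h5 := P.heightL hn hn9 (Pm := Pm) hE hM' hM1 dm hK hμν ne hb (c := c) hc.2 rfl hbc hsx hy3
      (by rw [abs_le]; constructor <;> linarith) h (hlt y hym (by linarith))
    rcases h5 with h5 | h5 | h5
    · left
      linarith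
    · right; left
      exact h5
    · right; right
      refine h5.trans ?_
      have : 0 ≤ PK n M Pm (eV n x0 x1 D univ g h3 τ) (lamP * K) * muK n K := by positivity
      linarith

theorem Flow.flux_b (F : Flow n x0 x1 t1 t2 W D s g h1 h3 ht) (J : Jet D h1 h2 h3)
    (hDW : D ⊆ W) (hn : 3 ≤ n) (hn9 : n ≤ 9)
    (A : AtTime n x0 x1 t1 t2 D s g h1 h3 M Pm bl K c τ) (hμν : 4 * muK n K ≤ nuK n K)
    (WC : WCut b (muK n K) Z w0 w1 w2) (hb : bl + 16 * nuK n K ≤ b)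
    (hS' : SgK n K / 2 ≤ Sf n x0 x1 t1 t2 g w0 τ) :
    ∀ x ∈ Icc x0 c, s τ < x → b + 32 * muK n K ≤ mF x0 x1 t1 t2 g (x, τ) →
      mF x0 x1 t1 t2 g (x, τ) ≤ b + nuK n K → g (x, τ) ≤ 2 * hS n (x1 - x0) K ∨
        g (x, τ) ≤ 2 * thK K ∨ g (x, τ) ^ 2 ≤
          16 * PK n M Pm (eV n x0 x1 D univ g h3 τ) (lamP * K) *
            (mF x0 x1 t1 t2 g (x, τ) - b) := by
  intro x hx hsx hmx1 hmx2
  obtain ⟨hτ, hint, hM1, hM, hPm, hbl, hK, hc, ne⟩ := A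
  have hst := F.s_mem τ hτ
  have P := F.prof J hτ hint
  have hE := P.E_nonneg
  have hμ := muK_pos n K
  have hν := nuK_pos n K
  obtain ⟨y, hy1, hy2, hy3, hy4⟩ := F.neck_ex hDW hn WC (by linarith) hτ hS'
  have dm : ∀ x ∈ Ioc (s τ) x1, HasDerivAt (fun x => mF x0 x1 t1 t2 g (x, τ)) (g (x, τ)) x :=
    fun x hx => F.label_dx ⟨hst.1.le.trans hx.1.le, hx.2⟩ hτ
  have hM' : ∀ u ∈ Ioc (s τ) x1, g (u, τ) ≤ M := fun u hu => hM u ⟨hst.1.le.trans hu.1.le, hu.2⟩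
  have hy3' := abs_le.1 hy3
  have hPK0 : 0 < PK n M Pm (eV n x0 x1 D univ g h3 τ) (lamP * K) := Real.exp_pos _
  have hyx : y ≤ x := by
    by_contra hcon
    push Not at hcon
    have := F.mF_mono (τ := τ) hx.1 hcon.le
    linarith
  have h5 := P.heightR hn hn9 hE hM' hM1 hPm dm (F.mlim hτ) hK hμν ne hbl hb (c := c) hc.2 rfl
    hy1 hy3 hyx hx.2 hmx2
  rcases h5 with h5 | h5 | h5
  · left
    linarith
  · right; left
    exact h5
  · right; right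
    refine h5.trans ?_
    have h6 : max (mF x0 x1 t1 t2 g (x, τ) - mF x0 x1 t1 t2 g (y, τ)) (muK n K) ≤
        2 * (mF x0 x1 t1 t2 g (x, τ) - b) := by
      apply max_le <;> linarith
    have h7 := mul_le_mul_of_nonneg_left h6 (show 0 ≤ 8 * PK n M Pm
      (eV n x0 x1 D univ g h3 τ) (lamP * K) by positivity)
    linarith

end

end Pool.Agent.Q81.TF
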