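import Pool.Agent.Q81.TF.Seg

open Set MeasureTheory Filter Topology

namespace Pool.Agent.Q81.TF

variable {n a0 a E : ℝ} {f f1 f2 f3 : ℝ → ℝ}

/-- the bound of the slopes in terms of the depth -/
noncomputable def lam (n M E v : ℝ) : ℝ := 8192 * (E * ((n + M) * (1 + depth n v)))

theorem lam_ge {n M E v : ℝ} (hn : 3 ≤ n) (hM : 1 ≤ M) (hE : 0 ≤ E) (hv : 0 < v) (hv1 : v ≤ 1) :
    8192 * E * (depth n v + M) ≤ lam n M E v ∧ 683 * E * v ^ (3 - n) ≤ lam n M E v := by
  have h1 := depth_nonneg (n := n) hv hv1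
  have h2 := rpow_depth hn hv
  unfold lam
  constructor
  · have : depth n v + M ≤ (n + M) * (1 + depth n v) := by nlinarith only [h1, hM, hn]
    have := mul_le_mul_of_nonneg_left this (show 0 ≤ 8192 * E by positivity)
    linarith
  · rw [h2]
    have : 1 + (n - 3) * depth n v ≤ (n + M) * (1 + depth n v) := by nlinarith only [h1, hM, hn]
    have h3 := mul_le_mul_of_nonneg_left this hE
    have h4 : 0 ≤ E * ((n + M) * (1 + depth n v)) := by
      have : 0 ≤ n + M := by linarith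
      positivity
    nlinarith only [h4, h3]

theorem Seg.mono_m (P : Seg n a0 a E f f1 f2 f3) {m : ℝ → ℝ}
    (dm : ∀ x ∈ Icc a0 a, HasDerivAt m (f x) x) : MonotoneOn m (Icc a0 a) := by
  apply monotoneOn_of_deriv_nonneg (convex_Icc a0 a)
  · intro u hu
    exact (dm u hu).continuousAt.continuousWithinAt
  · intro u hu
    rw [interior_Icc] at hu
    exact (dm u ⟨hu.1.le, hu.2.le⟩).differentiableAt.differentiableWithinAt
  · intro u hu
    rw [interior_Icc] at hu
    rw [(dm u ⟨hu.1.le, hu.2.le⟩).deriv]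
    exact (P.pos u ⟨hu.1.le, hu.2.le⟩).le

theorem Seg.flank (P : Seg n a0 a E f f1 f2 f3) (hn : 3 ≤ n) {M θ Pm : ℝ}
    (hM : ∀ u ∈ Icc a0 a, f u ≤ M) (hM1 : 1 ≤ M) (hθ : 0 < θ) (hθ1 : θ ≤ 1)
    {m : ℝ → ℝ} (dm : ∀ x ∈ Icc a0 a, HasDerivAt m (f x) x) {y x : ℝ} (hy : a0 ≤ y)
    (hyx : y ≤ x) (hx : x ≤ a) (hyf : 2 * f y ≤ f x) (hxθ : 2 * θ ≤ f x)
    (hR : f1 a ≤ Pm ∨ f a < θ) (hp : 4 * (m x - m y) < m y - m a0) :
    ∃ σ > 0, f x ^ 2 ≤ 4 * σ * (m x - m y) ∧ (σ ≤ Pm ∨ σ ^ 5 ≤ lam n M E (θ / 2) ∨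
      ∃ z z2, a0 ≤ z ∧ z ≤ z2 ∧ z2 ≤ x ∧ f z < θ / 2 ∧ (∀ u ∈ Icc z z2, f u ≤ 2 * f z) ∧
        m y - 4 * (m x - m y) ≤ m z ∧ f x ^ 2 ≤ 4 * σ * (m x - m z) ∧
        σ ^ 5 ≤ lam n M E (f z) ∧ f z ^ 5 ≤ lam n M E (f z) * (z2 - z) ^ 5) := by
  have hE := P.E_nonneg
  have hsub : Icc y x ⊆ Icc a0 a := Icc_subset_Icc hy hx
  have hmm := P.mono_m dm
  obtain ⟨c0, c1, c2, c3, cG, cw⟩ := P.cont (le_refl a0) (le_refl a)
  obtain ⟨α, hα, hmax⟩ := isCompact_Icc.exists_isMaxOn (nonempty_Icc.2 hyx) (c0.mono hsub)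
  have hfx := P.pos x ⟨hy.trans hyx, hx⟩
  have hfy := P.pos y ⟨hy, hyx.trans hx⟩
  have hαx : f x ≤ f α := hmax ⟨hyx, le_rfl⟩
  obtain ⟨ξ, hξ, hfξ, hξα⟩ := last_point (f := f) (c := f α / 2) hα.1
    (c0.mono (Icc_subset_Icc hy (hα.2.trans hx))) (by linarith) (by linarith)
  have hξ0 : a0 ≤ ξ := hy.trans hξ.1
  have hαa : α ≤ a := hα.2.trans hx
  have hξltα : ξ < α := by
    rcases eq_or_lt_of_le hξ.2 with h | h
    · exfalso
      rw [h] at hfξ
      linarith
    · exact h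
  have hsub2 : Icc ξ α ⊆ Icc a0 a := Icc_subset_Icc hξ0 hαa
  obtain ⟨p, hp', hpmax⟩ := isCompact_Icc.exists_isMaxOn (nonempty_Icc.2 hξltα.le) (c1.mono hsub2)
  obtain ⟨σ, hσ⟩ : ∃ σ, σ = f1 p := ⟨_, rfl⟩
  have hp0 : a0 ≤ p := hξ0.trans hp'.1
  have hpa : p ≤ a := hp'.2.trans hαa
  -- the mean values
  obtain ⟨r, hr, hr'⟩ := exists_hasDerivAt_eq_slope f f1 hξltα (c0.mono hsub2)
    (fun u hu => P.d0 u (hsub2 ⟨hu.1.le, hu.2.le⟩))
  have cm : ContinuousOn m (Icc ξ α) := fun u hu => (dm u (hsub2 hu)).continuousAt.continuousWithinAt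
  obtain ⟨r2, hr2, hr2'⟩ := exists_hasDerivAt_eq_slope m f hξltα cm
    (fun u hu => dm u (hsub2 ⟨hu.1.le, hu.2.le⟩))
  have hrσ : f1 r ≤ σ := by
    rw [hσ]
    exact hpmax ⟨hr.1.le, hr.2.le⟩
  have hl : 0 < α - ξ := by linarith
  have e1 : f α / 2 ≤ σ * (α - ξ) := by
    rw [eq_div_iff hl.ne'] at hr'
    have := mul_le_mul_of_nonneg_right hrσ hl.le
    linarith
  have hσ0' : 0 < σ := by
    by_contra hcon
    push Not at hcon
    have := mul_nonpos_of_nonpos_of_nonneg hcon hl.le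
    linarith
  have e2 : f α / 2 * (α - ξ) ≤ m α - m ξ := by
    rw [eq_div_iff hl.ne'] at hr2'
    have := mul_le_mul_of_nonneg_right (hξα r2 ⟨hr2.1.le, hr2.2.le⟩) hl.le
    linarith
  have e3 : f α ^ 2 ≤ 4 * σ * (m α - m ξ) := by
    have h1 : f α / 2 * (f α / 2) ≤ f α / 2 * (σ * (α - ξ)) :=
      mul_le_mul_of_nonneg_left e1 (by linarith)
    have h2 := mul_le_mul_of_nonneg_left e2 hσ0'.le
    nlinarith only [h2, h1]
  have e4 : f x ^ 2 ≤ f α ^ 2 := pow_le_pow_left₀ hfx.le hαx 2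
  have mα : m α ≤ m x := hmm ⟨hy.trans hα.1, hαa⟩ ⟨hy.trans hyx, hx⟩ hα.2
  have mξ : m y ≤ m ξ := hmm ⟨hy, hyx.trans hx⟩ ⟨hξ0, hξ.2.trans hαa⟩ hξ.1
  have hxy2 : f x ^ 2 ≤ 4 * σ * (m x - m y) := by
    refine (e4.trans e3).trans ?_
    apply mul_le_mul_of_nonneg_left _ (by linarith)
    linarith
  have hloss : 4 * f y ^ 2 / σ ≤ 4 * (m x - m y) := by
    rw [div_le_iff₀ hσ0']
    nlinarith only [hxy2, hfy, hyf]
  refine ⟨σ, hσ0', hxy2, ?_⟩
  rcases le_or_gt σ Pm with hsP | hsP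
  · exact Or.inl hsP
  have hfp : θ ≤ f p := by
    have := hξα p hp'
    linarith
  right
  have hθ2 : 0 < θ / 2 := by linarith
  have hL := lam_ge (M := M) hn hM1 hE hθ2 (by linarith)
  have hlow : -M ≤ depth n (f p) := by
    refine (depth_low (n := n) (by linarith) hM1).trans ?_
    exact depth_anti (P.pos p ⟨hp0, hpa⟩) (hM p ⟨hp0, hpa⟩)
  rcases P.rise hn ⟨hp0, hpa⟩ (by rw [← hσ]; exact hσ0') with h | h | h
  · -- the branch reaches the right end
    exfalso
    rw [← hσ] at h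
    have h1 := h a ⟨hpa, le_rfl⟩
    have hmono := P.mono_up hp0 (le_refl a) (fun u hu => hσ0'.le.trans (h u hu))
    have h2 := hmono ⟨le_rfl, hpa⟩ ⟨hpa, le_rfl⟩ hpa
    rcases hR with h3 | h3 <;> linarith
  · rw [← hσ] at h
    obtain ⟨z, hz, hz1, hz2⟩ := P.rise_left (α := a0) (le_refl a0) hp0 hpa
      (by rw [← hσ]; exact hσ0') (by rw [← hσ]; exact h)
    rw [← hσ] at hz1 hz2
    have hyp : y ≤ p := hξ.1.trans hp'.1
    rcases hz2 with hz2 | ⟨hGz, hdep⟩
    · exfalso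
      have h1 := P.mass_below dm (z := a0) (y := y) (σ := σ) (le_refl a0) hy (hyx.trans hx) hσ0'
        (fun u hu => (hz1 u ⟨by rw [hz2]; exact hu.1, hu.2.trans hyp⟩).1)
      linarith
    · rcases le_or_gt (θ / 2) (f z) with hzθ | hzθ
      · left
        refine le_trans ?_ hL.1
        refine hdep.trans ?_
        apply mul_le_mul_of_nonneg_left _ (by positivity)
        have := depth_anti (n := n) hθ2 hzθ
        linarith
      · right
        have hza : z ≤ a := hz.2.trans hpa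
        have hzp := P.pos z ⟨hz.1, hza⟩
        have hzξ : z ≤ ξ := by
          by_contra hcon
          push Not at hcon
          have := hξα z ⟨hcon.le, hz.2.trans hp'.2⟩
          linarith
        have hmz : m y - 4 * (m x - m y) ≤ m z := by
          rcases le_or_gt y z with h1 | h1
          · have h2 := hmm ⟨hy, hyx.trans hx⟩ ⟨hz.1, hza⟩ h1
            have h3 := hmm ⟨hy, hyx.trans hx⟩ ⟨hy.trans hyx, hx⟩ hyx
            linarith
          · have h1' := P.mass_below dm (z := z) (y := y) (σ := σ) hz.1 h1.le (hyx.trans hx) hσ0'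
              (fun u hu => (hz1 u ⟨hu.1, hu.2.trans hyp⟩).1)
            linarith
        have hLz := lam_ge (M := M) hn hM1 hE hzp (show f z ≤ 1 by linarith)
        have hσ5 : σ ^ 5 ≤ lam n M E (f z) := by
          refine le_trans ?_ hLz.1
          refine hdep.trans ?_
          apply mul_le_mul_of_nonneg_left _ (by positivity)
          linarith
        have mz : m z ≤ m ξ := hmm ⟨hz.1, hza⟩ ⟨hξ0, hξ.2.trans hαa⟩ hzξ
        -- the point of twice the height
        obtain ⟨z2, hz2, hz2a, hz2b⟩ := split_right (u := fun u => -f u) (κ := -(2 * f z)) hz.2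
          ((c0.mono (Icc_subset_Icc hz.1 hpa)).neg) (by linarith)
        have hfz2 : f z2 = 2 * f z := by
          rcases hz2b with h1 | h1
          · exfalso
            have := hz2a z2 ⟨hz2.1, le_rfl⟩
            rw [h1] at this
            linarith
          · linarith
        have hzz2 : z < z2 := by
          rcases eq_or_lt_of_le hz2.1 with h1 | h1
          · exfalso
            rw [← h1] at hfz2
            linarith
          · exact h1
        have hsub3 : Icc z z2 ⊆ Icc a0 a := Icc_subset_Icc hz.1 (hz2.2.trans hpa)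
        have hmono := P.mono_up hz.1 hpa (fun u hu =>
          (by positivity : (0 : ℝ) ≤ σ / 8).trans (hz1 u hu).1)
        have hge : ∀ u ∈ Icc z z2, f z ≤ f u := fun u hu =>
          hmono ⟨le_rfl, hz.2⟩ ⟨hu.1, hu.2.trans hz2.2⟩ hu.1
        obtain ⟨q, hq, hqmax⟩ := isCompact_Icc.exists_isMaxOn (nonempty_Icc.2 hzz2.le)
          (c1.mono hsub3)
        obtain ⟨τ, hτ⟩ : ∃ τ, τ = f1 q := ⟨_, rfl⟩
        obtain ⟨r3, hr3, hr3'⟩ := exists_hasDerivAt_eq_slope f f1 hzz2 (c0.mono hsub3)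
          (fun u hu => P.d0 u (hsub3 ⟨hu.1.le, hu.2.le⟩))
        have hl2 : 0 < z2 - z := by linarith
        have k1 : f z ≤ τ * (z2 - z) := by
          rw [eq_div_iff hl2.ne'] at hr3'
          have h1 : f1 r3 ≤ τ := by
            rw [hτ]
            exact hqmax ⟨hr3.1.le, hr3.2.le⟩
          have := mul_le_mul_of_nonneg_right h1 hl2.le
          linarith
        have hτ0 : 0 < τ := by
          by_contra hcon
          push Not at hcon
          have := mul_nonpos_of_nonpos_of_nonneg hcon hl2.le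
          linarith
        have hqa : q ∈ Icc a0 a := hsub3 hq
        have hτ5 : τ ^ 5 ≤ lam n M E (f z) := by
          rcases le_or_gt τ σ with h1 | h1
          · exact (pow_le_pow_left₀ hτ0.le h1 5).trans hσ5
          rcases P.rise hn hqa (by rw [← hτ]; exact hτ0) with h2 | h2 | h2
          · exfalso
            rw [← hτ] at h2
            have := h2 p ⟨hq.2.trans hz2.2, hpa⟩
            rw [← hσ] at this
            linarith
          · rw [← hτ] at h2
            obtain ⟨z', hz', hz1', hz2'⟩ := P.rise_left (α := z) hz.1 hq.1 hqa.2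
              (by rw [← hτ]; exact hτ0) (by rw [← hτ]; exact h2)
            rw [← hτ] at hz1' hz2'
            rcases hz2' with h3 | ⟨h3, h4⟩
            · exfalso
              have h5 := (hz1' z ⟨by rw [h3], hq.1⟩).2
              rw [hGz] at h5
              have h6 : σ ^ 2 < τ ^ 2 := pow_lt_pow_left₀ h1 hσ0'.le (by norm_num)
              linarith
            · refine le_trans ?_ hLz.1
              refine h4.trans ?_
              apply mul_le_mul_of_nonneg_left _ (by positivity)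
              have h5 : depth n (f z') ≤ depth n (f z) :=
                depth_anti hzp (hge z' ⟨hz'.1, hz'.2.trans hq.2⟩)
              have h6 : -M ≤ depth n (f q) := by
                refine (depth_low (n := n) (by linarith) hM1).trans ?_
                exact depth_anti (P.pos q hqa) (hM q hqa)
              linarith
          · rw [← hτ] at h2
            refine le_trans ?_ hLz.2
            refine h2.trans ?_
            apply mul_le_mul_of_nonneg_left _ (by positivity)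
            exact Real.rpow_le_rpow_of_nonpos hzp (hge q hq) (by linarith)
        refine ⟨z, z2, hz.1, hz2.1, ?_, hzθ, fun u hu => ?_, hmz, ?_, hσ5, ?_⟩
        · exact hz2.2.trans (hp'.2.trans hα.2)
        · have := hz2a u hu
          linarith
        · refine (e4.trans e3).trans ?_
          apply mul_le_mul_of_nonneg_left _ (by linarith)
          linarith
        · calc f z ^ 5 ≤ (τ * (z2 - z)) ^ 5 := pow_le_pow_left₀ hzp.le k1 5
            _ = τ ^ 5 * (z2 - z) ^ 5 := by ring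
            _ ≤ _ := mul_le_mul_of_nonneg_right hτ5 (by positivity)
  · left
    rw [← hσ] at h
    refine le_trans ?_ hL.2
    refine h.trans ?_
    apply mul_le_mul_of_nonneg_left _ (by positivity)
    exact Real.rpow_le_rpow_of_nonpos hθ2 (by linarith) (by linarith)

/-- the bottom of a neck, seen from the right -/
theorem Seg.neck_right (P : Seg n a0 a E f f1 f2 f3) (hn : 3 ≤ n) {M Pm : ℝ}
    (hM : ∀ u ∈ Icc a0 a, f u ≤ M) (hM1 : 1 ≤ M) {y x : ℝ} (hy : a0 ≤ y)
    (hyx : y ≤ x) (hx : x ≤ a) (hmin : ∀ u ∈ Icc y x, f y ≤ f u) (hf1 : f1 y = 0)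
    (hfy : f y ≤ 1) (hyf : 2 * f y ≤ f x) (hR : f1 a ≤ Pm ∨ f a < f y) :
    ∃ z2 ∈ Icc y x, (∀ u ∈ Icc y z2, f u ≤ 2 * f y) ∧
      f y ^ 5 ≤ max (Pm ^ 5) (lam n M E (f y)) * (z2 - y) ^ 5 := by
  have hE := P.E_nonneg
  obtain ⟨c0, c1, c2, c3, cG, cw⟩ := P.cont (le_refl a0) (le_refl a)
  have hya : y ≤ a := hyx.trans hx
  have hfyp := P.pos y ⟨hy, hya⟩
  obtain ⟨z2, hz2, hz2a, hz2b⟩ := split_right (u := fun u => -f u) (κ := -(2 * f y)) hyx
    ((c0.mono (Icc_subset_Icc hy hx)).neg) (by linarith)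
  have hfz2 : f z2 = 2 * f y := by
    rcases hz2b with h1 | h1
    · have := hz2a z2 ⟨hz2.1, le_rfl⟩
      rw [h1] at this ⊢
      linarith
    · linarith
  have hzz2 : y < z2 := by
    rcases eq_or_lt_of_le hz2.1 with h1 | h1
    · exfalso
      rw [← h1] at hfz2
      linarith
    · exact h1
  have hsub3 : Icc y z2 ⊆ Icc a0 a := Icc_subset_Icc hy (hz2.2.trans hx)
  refine ⟨z2, hz2, fun u hu => by linarith [hz2a u hu], ?_⟩
  obtain ⟨q, hq, hqmax⟩ := isCompact_Icc.exists_isMaxOn (nonempty_Icc.2 hzz2.le) (c1.mono hsub3)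
  obtain ⟨τ, hτ⟩ : ∃ τ, τ = f1 q := ⟨_, rfl⟩
  obtain ⟨r3, hr3, hr3'⟩ := exists_hasDerivAt_eq_slope f f1 hzz2 (c0.mono hsub3)
    (fun u hu => P.d0 u (hsub3 ⟨hu.1.le, hu.2.le⟩))
  have hl2 : 0 < z2 - y := by linarith
  have k1 : f y ≤ τ * (z2 - y) := by
    rw [eq_div_iff hl2.ne'] at hr3'
    have h1 : f1 r3 ≤ τ := by
      rw [hτ]
      exact hqmax ⟨hr3.1.le, hr3.2.le⟩
    have := mul_le_mul_of_nonneg_right h1 hl2.le
    linarith
  have hτ0 : 0 < τ := by
    by_contra hcon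
    push Not at hcon
    have := mul_nonpos_of_nonpos_of_nonneg hcon hl2.le
    linarith
  have hqa : q ∈ Icc a0 a := hsub3 hq
  have hL := lam_ge (M := M) hn hM1 hE hfyp hfy
  have hge : ∀ u ∈ Icc y z2, f y ≤ f u := fun u hu => hmin u ⟨hu.1, hu.2.trans hz2.2⟩
  have hτ5 : τ ^ 5 ≤ max (Pm ^ 5) (lam n M E (f y)) := by
    rcases P.rise hn hqa (by rw [← hτ]; exact hτ0) with h2 | h2 | h2
    · rw [← hτ] at h2
      have h3 := h2 a ⟨hqa.2, le_rfl⟩
      have hmono := P.mono_up hqa.1 (le_refl a) (fun u hu => hτ0.le.trans (h2 u hu))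
      have h4 := hmono ⟨le_rfl, hqa.2⟩ ⟨hqa.2, le_rfl⟩ hqa.2
      have h5 := hge q hq
      rcases hR with h6 | h6
      · refine le_trans ?_ (le_max_left _ _)
        exact pow_le_pow_left₀ hτ0.le (h3.trans h6) 5
      · exfalso
        linarith
    · rw [← hτ] at h2
      refine le_trans ?_ (le_max_right _ _)
      obtain ⟨z', hz', hz1', hz2'⟩ := P.rise_left (α := y) hy hq.1 hqa.2
        (by rw [← hτ]; exact hτ0) (by rw [← hτ]; exact h2)
      rw [← hτ] at hz1' hz2'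
      rcases hz2' with h3 | ⟨h3, h4⟩
      · exfalso
        have h5 := (hz1' y ⟨by rw [h3], hq.1⟩).1
        rw [hf1] at h5
        linarith
      · refine le_trans ?_ hL.1
        refine h4.trans ?_
        apply mul_le_mul_of_nonneg_left _ (by positivity)
        have h5 : depth n (f z') ≤ depth n (f y) :=
          depth_anti hfyp (hge z' ⟨hz'.1, hz'.2.trans hq.2⟩)
        have h6 : -M ≤ depth n (f q) := by
          refine (depth_low (n := n) (by linarith) hM1).trans ?_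
          exact depth_anti (P.pos q hqa) (hM q hqa)
        linarith
    · rw [← hτ] at h2
      refine le_trans ?_ (le_max_right _ _)
      refine le_trans ?_ hL.2
      refine h2.trans ?_
      apply mul_le_mul_of_nonneg_left _ (by positivity)
      exact Real.rpow_le_rpow_of_nonpos hfyp (hge q hq) (by linarith)
  calc f y ^ 5 ≤ (τ * (z2 - y)) ^ 5 := pow_le_pow_left₀ hfyp.le k1 5
    _ = τ ^ 5 * (z2 - y) ^ 5 := by ring
    _ ≤ _ := mul_le_mul_of_nonneg_right hτ5 (by positivity)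

/-- the mass on the side of a neck -/
theorem Seg.neck_mass (P : Seg n a0 a E f f1 f2 f3) (hn : 3 ≤ n) {M Pm v : ℝ}
    (hM : ∀ u ∈ Icc a0 a, f u ≤ M) (hM1 : 1 ≤ M) {m : ℝ → ℝ}
    (dm : ∀ x ∈ Icc a0 a, HasDerivAt m (f x) x) {y x : ℝ} (hy : a0 ≤ y)
    (hyx : y ≤ x) (hx : x ≤ a) (hmin : ∀ u ∈ Icc y x, f y ≤ f u) (hf1 : f1 y = 0)
    (hfy : f y ≤ 1) (hv : 0 < v) (hyv : 2 * f y ≤ v) (hxv : v ≤ f x)
    (hR : f1 a ≤ Pm ∨ f a < f y) :
    ∃ σ > 0, v ^ 2 ≤ 4 * σ * (m x - m y) ∧ σ ^ 5 ≤ max (Pm ^ 5) (lam n M E (f y)) := by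
  have hE := P.E_nonneg
  obtain ⟨c0, c1, c2, c3, cG, cw⟩ := P.cont (le_refl a0) (le_refl a)
  have hmm := P.mono_m dm
  have hya : y ≤ a := hyx.trans hx
  have hfyp := P.pos y ⟨hy, hya⟩
  -- the first point with height `v`
  obtain ⟨α, hα, hα1, hα2⟩ := split_right (u := fun u => -f u) (κ := -v) hyx
    ((c0.mono (Icc_subset_Icc hy hx)).neg) (by linarith)
  have hfα : f α = v := by
    rcases hα2 with h1 | h1
    · have := hα1 α ⟨hα.1, le_rfl⟩
      rw [h1] at this ⊢
      linarith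
    · linarith
  have hαa : α ≤ a := hα.2.trans hx
  obtain ⟨ξ, hξ, hfξ, hξα⟩ := last_point (f := f) (c := v / 2) hα.1
    (c0.mono (Icc_subset_Icc hy hαa)) (by linarith) (by linarith)
  have hξltα : ξ < α := by
    rcases eq_or_lt_of_le hξ.2 with h | h
    · exfalso
      rw [h] at hfξ
      linarith
    · exact h
  have hξ0 : a0 ≤ ξ := hy.trans hξ.1
  have hsub2 : Icc ξ α ⊆ Icc a0 a := Icc_subset_Icc hξ0 hαa
  obtain ⟨q, hq, hqmax⟩ := isCompact_Icc.exists_isMaxOn (nonempty_Icc.2 hξltα.le) (c1.mono hsub2)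
  obtain ⟨τ, hτ⟩ : ∃ τ, τ = f1 q := ⟨_, rfl⟩
  have hl : 0 < α - ξ := by linarith
  obtain ⟨r, hr, hr'⟩ := exists_hasDerivAt_eq_slope f f1 hξltα (c0.mono hsub2)
    (fun u hu => P.d0 u (hsub2 ⟨hu.1.le, hu.2.le⟩))
  have cm : ContinuousOn m (Icc ξ α) := fun u hu => (dm u (hsub2 hu)).continuousAt.continuousWithinAt
  obtain ⟨r2, hr2, hr2'⟩ := exists_hasDerivAt_eq_slope m f hξltα cm
    (fun u hu => dm u (hsub2 ⟨hu.1.le, hu.2.le⟩))
  have e1 : v / 2 ≤ τ * (α - ξ) := by
    rw [eq_div_iff hl.ne'] at hr'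
    have h1 : f1 r ≤ τ := by
      rw [hτ]
      exact hqmax ⟨hr.1.le, hr.2.le⟩
    have := mul_le_mul_of_nonneg_right h1 hl.le
    linarith
  have hτ0 : 0 < τ := by
    by_contra hcon
    push Not at hcon
    have := mul_nonpos_of_nonpos_of_nonneg hcon hl.le
    linarith
  have e2 : v / 2 * (α - ξ) ≤ m α - m ξ := by
    rw [eq_div_iff hl.ne'] at hr2'
    have := mul_le_mul_of_nonneg_right (hξα r2 ⟨hr2.1.le, hr2.2.le⟩) hl.le
    linarith
  have mα : m α ≤ m x := hmm ⟨hy.trans hα.1, hαa⟩ ⟨hy.trans hyx, hx⟩ hα.2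
  have mξ : m y ≤ m ξ := hmm ⟨hy, hyx.trans hx⟩ ⟨hξ0, hξ.2.trans hαa⟩ hξ.1
  have hqa : q ∈ Icc a0 a := hsub2 hq
  have hfq : v / 2 ≤ f q := hξα q hq
  have hL := lam_ge (M := M) hn hM1 hE hfyp hfy
  have hqx : q ≤ x := hq.2.trans hα.2
  have hyq : y ≤ q := hξ.1.trans hq.1
  refine ⟨τ, hτ0, ?_, ?_⟩
  · have h1 : v / 2 * (v / 2) ≤ v / 2 * (τ * (α - ξ)) :=
      mul_le_mul_of_nonneg_left e1 (by linarith)
    have h2 := mul_le_mul_of_nonneg_left e2 hτ0.le
    have h3 : 4 * τ * (m α - m ξ) ≤ 4 * τ * (m x - m y) := by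
      apply mul_le_mul_of_nonneg_left _ (by linarith)
      linarith
    nlinarith only [h3, h2, h1]
  · rcases P.rise hn hqa (by rw [← hτ]; exact hτ0) with h2 | h2 | h2
    · rw [← hτ] at h2
      have h3 := h2 a ⟨hqa.2, le_rfl⟩
      have hmono := P.mono_up hqa.1 (le_refl a) (fun u hu => hτ0.le.trans (h2 u hu))
      have h4 := hmono ⟨le_rfl, hqa.2⟩ ⟨hqa.2, le_rfl⟩ hqa.2
      rcases hR with h6 | h6
      · refine le_trans ?_ (le_max_left _ _)
        exact pow_le_pow_left₀ hτ0.le (h3.trans h6) 5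
      · exfalso
        linarith
    · rw [← hτ] at h2
      refine le_trans ?_ (le_max_right _ _)
      obtain ⟨z', hz', hz1', hz2'⟩ := P.rise_left (α := y) hy hyq hqa.2
        (by rw [← hτ]; exact hτ0) (by rw [← hτ]; exact h2)
      rw [← hτ] at hz1' hz2'
      rcases hz2' with h3 | ⟨h3, h4⟩
      · exfalso
        have h5 := (hz1' y ⟨by rw [h3], hyq⟩).1
        rw [hf1] at h5
        linarith
      · refine le_trans ?_ hL.1
        refine h4.trans ?_
        apply mul_le_mul_of_nonneg_left _ (by positivity)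
        have h5 : depth n (f z') ≤ depth n (f y) :=
          depth_anti hfyp (hmin z' ⟨hz'.1, hz'.2.trans hqx⟩)
        have h6 : -M ≤ depth n (f q) := by
          refine (depth_low (n := n) (by linarith) hM1).trans ?_
          exact depth_anti (P.pos q hqa) (hM q hqa)
        linarith
    · rw [← hτ] at h2
      refine le_trans ?_ (le_max_right _ _)
      refine le_trans ?_ hL.2
      refine h2.trans ?_
      apply mul_le_mul_of_nonneg_left _ (by positivity)
      exact Real.rpow_le_rpow_of_nonpos hfyp (hmin q ⟨hyq, hqx⟩) (by linarith)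

end Pool.Agent.Q81.TF
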