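import Pool.Agent.Q81.TF.Setup

open Set MeasureTheory Filter Topology

namespace Pool.Agent.Q81.TF

variable {n x0 x1 t1 t2 : ℝ} {W D : Set (ℝ × ℝ)} {s : ℝ → ℝ} {g h1 h3 ht : ℝ × ℝ → ℝ}

/-- the integral to the right end -/
noncomputable def rI (x1 : ℝ) (k : ℝ × ℝ → ℝ) (z : ℝ × ℝ) : ℝ := ∫ y in z.1..x1, k (y, z.2)

/-- uniform positivity to the right of the points which are not low -/
theorem Flow.pos_right (F : Flow n x0 x1 t1 t2 W D s g h1 h3 ht) {ε : ℝ} (hε : 0 < ε) :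
    ∃ c > 0, ∀ t ∈ Icc t1 t2, ∀ x ∈ Icc x0 x1, ε ≤ g (x, t) → ∀ y ∈ Icc x x1, c ≤ g (y, t) := by
  obtain ⟨Kt, hKt⟩ : ∃ Kt : Set (ℝ × ℝ × ℝ), Kt = {q | q.1 ∈ Icc x0 x1 ∧ q.2.1 ∈ Icc x0 x1 ∧
    q.2.2 ∈ Icc t1 t2} := ⟨_, rfl⟩
  have hcomp : IsCompact Kt := by
    have h1 : Kt = Icc x0 x1 ×ˢ (Icc x0 x1 ×ˢ Icc t1 t2) := by
      rw [hKt]
      ext q
      simp only [mem_setOf_eq, mem_prod]
    rw [h1]
    exact isCompact_Icc.prod (isCompact_Icc.prod isCompact_Icc)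
  have hgc : Continuous (fun z => g (cl x0 x1 t1 t2 z)) := F.clCont F.g_cont
  have hg1 : Continuous (fun q : ℝ × ℝ × ℝ => g (cl x0 x1 t1 t2 (q.1, q.2.2))) :=
    hgc.comp (by fun_prop)
  have hg2 : Continuous (fun q : ℝ × ℝ × ℝ => g (cl x0 x1 t1 t2 (q.2.1, q.2.2))) :=
    hgc.comp (by fun_prop)
  obtain ⟨K3, hK3⟩ : ∃ K3 : Set (ℝ × ℝ × ℝ), K3 = Kt ∩ ({q | q.1 ≤ q.2.1} ∩
    {q | ε ≤ g (cl x0 x1 t1 t2 (q.1, q.2.2))}) := ⟨_, rfl⟩
  have hcomp3 : IsCompact K3 := by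
    rw [hK3]
    apply hcomp.inter_right
    exact (isClosed_le (by fun_prop) (by fun_prop)).inter (isClosed_le continuous_const hg1)
  have hmem : ∀ q ∈ K3, q.1 ∈ Icc x0 x1 ∧ q.2.1 ∈ Icc x0 x1 ∧ q.2.2 ∈ Icc t1 t2 ∧ q.1 ≤ q.2.1 ∧
      ε ≤ g (q.1, q.2.2) := by
    intro q hq
    rw [hK3, hKt] at hq
    obtain ⟨⟨e1, e2, e3⟩, e4, e5⟩ := hq
    have e5' : ε ≤ g (cl x0 x1 t1 t2 (q.1, q.2.2)) := e5
    rw [cl_eq e1 e3] at e5'
    exact ⟨e1, e2, e3, e4, e5'⟩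
  rcases K3.eq_empty_or_nonempty with he | hne
  · refine ⟨1, one_pos, fun t htm x hx hge y hy => ?_⟩
    exfalso
    have : ((x, y, t) : ℝ × ℝ × ℝ) ∈ K3 := by
      rw [hK3, hKt]
      refine ⟨⟨hx, ⟨hx.1.trans hy.1, hy.2⟩, htm⟩, hy.1, ?_⟩
      show ε ≤ g (cl x0 x1 t1 t2 (x, t))
      rw [cl_eq hx htm]
      exact hge
    rw [he] at this
    exact this
  · obtain ⟨q0, hq0, hmin⟩ := hcomp3.exists_isMinOn hne hg2.continuousOn
    obtain ⟨e1, e2, e3, e4, e5⟩ := hmem q0 hq0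
    refine ⟨g (q0.2.1, q0.2.2), ?_, fun t htm x hx hge y hy => ?_⟩
    · apply F.g_pos
      have h1 : (q0.1, q0.2.2) ∈ D := by
        by_contra hcon
        rw [F.g_zero _ (F.R_sub _ e1 _ e3) hcon] at e5
        linarith
      have h2 := (F.D_iff _ e1 _ e3).1 h1
      exact (F.D_iff _ e2 _ e3).2 (h2.trans_le e4)
    · have hm : ((x, y, t) : ℝ × ℝ × ℝ) ∈ K3 := by
        rw [hK3, hKt]
        refine ⟨⟨hx, ⟨hx.1.trans hy.1, hy.2⟩, htm⟩, hy.1, ?_⟩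
        show ε ≤ g (cl x0 x1 t1 t2 (x, t))
        rw [cl_eq hx htm]
        exact hge
      have h3 := hmin hm
      have h4 : g (cl x0 x1 t1 t2 (q0.2.1, q0.2.2)) ≤ g (cl x0 x1 t1 t2 (y, t)) := h3
      rw [cl_eq e2 e3, cl_eq ⟨hx.1.trans hy.1, hy.2⟩ htm] at h4
      exact h4

/-- a continuous cutoff -/
noncomputable def cut (c v : ℝ) : ℝ := max 0 (min 1 (2 * v / c - 1))

theorem cut_cont (c : ℝ) : Continuous (cut c) := by
  unfold cut
  fun_prop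

theorem cut_zero {c v : ℝ} (hc : 0 < c) (hv : v ≤ c / 2) : cut c v = 0 := by
  unfold cut
  apply max_eq_left
  apply (min_le_right _ _).trans
  have : 2 * v / c ≤ 1 := by
    rw [div_le_one hc]
    linarith
  linarith

theorem cut_one {c v : ℝ} (hc : 0 < c) (hv : c ≤ v) : cut c v = 1 := by
  unfold cut
  have : 2 ≤ 2 * v / c := by
    rw [le_div_iff₀ hc]
    linarith
  rw [min_eq_left (by linarith)]
  exact max_eq_right zero_le_one

/-- the integrals to the right end are continuous in `D` -/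
theorem Flow.rI_cont (F : Flow n x0 x1 t1 t2 W D s g h1 h3 ht) {k : ℝ × ℝ → ℝ}
    (hk : ContinuousOn k D) :
    ContinuousOn (rI x1 k) (D ∩ Icc x0 x1 ×ˢ Icc t1 t2) := by
  rintro z ⟨hzD, hz1, hz2⟩
  have hzW := F.R_sub z.1 hz1 z.2 hz2
  have hgz := F.g_pos z hzD
  obtain ⟨c, hc, hc'⟩ := F.pos_right (show 0 < g z / 2 by linarith)
  have cK : ContinuousOn (fun z => cut c (g z) * k z) W :=
    F.cutCont (show 0 < c / 2 by positivity) (cut_cont c) (fun v hv => cut_zero hc hv) hk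
  obtain ⟨G, hG⟩ : ∃ G : ℝ × ℝ → ℝ, G = fun z => cut c (g (cl x0 x1 t1 t2 z)) *
    k (cl x0 x1 t1 t2 z) := ⟨_, rfl⟩
  have cG : Continuous G := by
    rw [hG]
    exact F.clCont (G := fun z => cut c (g z) * k z) cK
  have cP : Continuous (fun z : ℝ × ℝ => prim x0 G (x1, z.2) - prim x0 G z) :=
    ((prim_cont cG).comp (by fun_prop)).sub (prim_cont cG)
  have hgc : ContinuousAt g z := F.g_cont.continuousAt (F.W_open.mem_nhds hzW)
  have hev : ∀ᶠ y in 𝓝 z, g z / 2 < g y := continuousAt_const.eventually_lt hgc (by linarith)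
  have heq : rI x1 k =ᶠ[𝓝[D ∩ Icc x0 x1 ×ˢ Icc t1 t2] z]
      fun z => prim x0 G (x1, z.2) - prim x0 G z := by
    filter_upwards [nhdsWithin_le_nhds hev, self_mem_nhdsWithin] with y hy hyR
    obtain ⟨hyD, hy1, hy2⟩ := hyR
    have h1 : ∫ u in y.1..x1, G (u, y.2) = ∫ u in y.1..x1, k (u, y.2) := by
      apply intervalIntegral.integral_congr
      intro u hu
      rw [uIcc_of_le hy1.2] at hu
      have hu' : u ∈ Icc x0 x1 := ⟨hy1.1.trans hu.1, hu.2⟩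
      have h2 := hc' y.2 hy2 y.1 hy1 hy.le u hu
      rw [hG]
      simp only
      rw [cl_eq hu' hy2, cut_one hc h2, one_mul]
    unfold rI
    rw [← h1]
    unfold prim
    simp only
    have ci : ∀ p q, IntervalIntegrable (fun u => G (u, y.2)) volume p q := fun p q =>
      (cG.comp (show Continuous fun u : ℝ => (u, y.2) by fun_prop)).intervalIntegrable p q
    rw [← intervalIntegral.integral_add_adjacent_intervals (ci x0 y.1) (ci y.1 x1)]
    ring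
  exact (cP.continuousWithinAt).congr_of_eventuallyEq heq
    (heq.self_of_nhdsWithin ⟨hzD, hz1, hz2⟩)

/-- the derivative in time of the integrals to the right end -/
theorem Flow.rI_dt (F : Flow n x0 x1 t1 t2 W D s g h1 h3 ht) {k kt : ℝ × ℝ → ℝ}
    (hk : ContinuousOn k D) (hkt : ContinuousOn kt D)
    (hd : ∀ z ∈ D, HasDerivAt (fun t => k (z.1, t)) (kt z) z.2) {x t : ℝ} (hx : x ∈ Icc x0 x1)
    (htm : t ∈ Ioo t1 t2) (hD : (x, t) ∈ D) :
    HasDerivAt (fun τ => rI x1 k (x, τ)) (rI x1 kt (x, t)) t := by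
  -- a neighbourhood
  have hopen : IsOpen {τ : ℝ | (x, τ) ∈ D} :=
    F.D_open.preimage (show Continuous fun τ : ℝ => (x, τ) by fun_prop)
  have hnh : {τ : ℝ | (x, τ) ∈ D} ∩ Ioo t1 t2 ∈ 𝓝 t :=
    inter_mem (hopen.mem_nhds hD) (Ioo_mem_nhds htm.1 htm.2)
  obtain ⟨r, hr, hr'⟩ := Metric.mem_nhds_iff.1 hnh
  have hball : ∀ τ ∈ Icc (t - r / 2) (t + r / 2), ∀ y ∈ Icc x x1, (y, τ) ∈ D := by
    intro τ hτ y hy
    have h1 := hr' (show τ ∈ Metric.ball t r by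
      rw [Metric.mem_ball, Real.dist_eq, abs_lt]
      constructor <;> linarith [hτ.1, hτ.2])
    have hτ' : τ ∈ Icc t1 t2 := ⟨h1.2.1.le, h1.2.2.le⟩
    have h2 := (F.D_iff x hx τ hτ').1 h1.1
    exact (F.D_iff y ⟨hx.1.trans hy.1, hy.2⟩ τ hτ').2 (h2.trans_le hy.1)
  have hcomp : IsCompact (Icc x x1 ×ˢ Icc (t - r / 2) (t + r / 2)) :=
    isCompact_Icc.prod isCompact_Icc
  obtain ⟨b, hb⟩ := hcomp.exists_bound_of_continuousOn
    (hkt.mono (fun z hz => hball z.2 hz.2 z.1 hz.1))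
  have hsl : ∀ {u : ℝ × ℝ → ℝ}, ContinuousOn u D → ∀ τ ∈ Icc (t - r / 2) (t + r / 2),
      ContinuousOn (fun y => u (y, τ)) (Icc x x1) := by
    intro u hu τ hτ
    exact hu.comp (show Continuous fun y : ℝ => (y, τ) by fun_prop).continuousOn
      (fun y hy => hball τ hτ y hy)
  have hball2 : Metric.ball t (r / 2) ∈ 𝓝 t := Metric.ball_mem_nhds t (by positivity)
  have hb2 : ∀ τ ∈ Metric.ball t (r / 2), τ ∈ Icc (t - r / 2) (t + r / 2) := by
    intro τ hτ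
    rw [Metric.mem_ball, Real.dist_eq, abs_lt] at hτ
    exact ⟨by linarith [hτ.1], by linarith [hτ.2]⟩
  have htt : t ∈ Icc (t - r / 2) (t + r / 2) := ⟨by linarith, by linarith⟩
  have hui : uIoc x x1 = Ioc x x1 := uIoc_of_le hx.2
  have h := intervalIntegral.hasDerivAt_integral_of_dominated_loc_of_deriv_le
    (μ := volume) (a := x) (b := x1) (bound := fun _ => b) (F := fun τ y => k (y, τ))
    (F' := fun τ y => kt (y, τ)) (x₀ := t) (s := Metric.ball t (r / 2)) hball2 ?_ ?_ ?_ ?_ ?_ ?_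
  · exact h.2
  · filter_upwards [hball2] with τ hτ
    rw [hui]
    exact ((hsl hk τ (hb2 τ hτ)).mono Ioc_subset_Icc_self).aestronglyMeasurable measurableSet_Ioc
  · apply ContinuousOn.intervalIntegrable
    rw [uIcc_of_le hx.2]
    exact hsl hk t htt
  · rw [hui]
    exact ((hsl hkt t htt).mono Ioc_subset_Icc_self).aestronglyMeasurable measurableSet_Ioc
  · apply Eventually.of_forall
    intro y hy τ hτ
    rw [hui] at hy
    exact hb (y, τ) ⟨⟨hy.1.le, hy.2⟩, hb2 τ hτ⟩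
  · exact intervalIntegrable_const
  · apply Eventually.of_forall
    intro y hy τ hτ
    rw [hui] at hy
    exact hd (y, τ) (hball τ (hb2 τ hτ) y ⟨hy.1.le, hy.2⟩)

end Pool.Agent.Q81.TF
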