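import Pool.Agent.Q81.TF.Setup
import Pool.Agent.Q81.TF.MassB

open Set MeasureTheory Filter Topology

namespace Pool.Agent.Q81.TF

theorem tendsto_aux {a : ℝ} (ha : 0 < a) :
    Tendsto (fun ε : ℝ => ε ^ a * (1 - Real.log ε) ^ 2) (𝓝[>] 0) (𝓝 0) := by
  have h1 : Tendsto (fun ε : ℝ => ε ^ (a / 2)) (𝓝[>] 0) (𝓝 0) := by
    have h2 : ContinuousAt (fun ε : ℝ => ε ^ (a / 2)) 0 :=
      Real.continuousAt_rpow_const 0 (a / 2) (Or.inr (by positivity))
    have h3 := h2.tendsto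
    rw [Real.zero_rpow (by positivity)] at h3
    exact h3.mono_left nhdsWithin_le_nhds
  have h2 := tendsto_log_mul_rpow_nhdsGT_zero (show 0 < a / 2 by positivity)
  have h3 := (h1.sub h2).pow 2
  rw [sub_zero, zero_pow (by norm_num)] at h3
  apply h3.congr'
  filter_upwards [self_mem_nhdsWithin] with ε hε
  have hε' : 0 < ε := hε
  have h4 : ε ^ a = ε ^ (a / 2) * ε ^ (a / 2) := by
    rw [← Real.rpow_add hε']
    congr 1
    ring
  rw [h4]
  ring

section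
variable {n x0 x1 t1 t2 : ℝ} {W D : Set (ℝ × ℝ)} {s : ℝ → ℝ} {g h1 h3 ht : ℝ × ℝ → ℝ}

theorem Flow.slice_cont (F : Flow n x0 x1 t1 t2 W D s g h1 h3 ht) (τ : ℝ) :
    Continuous (fun x => g (cl x0 x1 t1 t2 (x, τ))) :=
  (F.clCont F.g_cont).comp (show Continuous fun y : ℝ => (y, τ) by fun_prop)

theorem Flow.mF_mono (F : Flow n x0 x1 t1 t2 W D s g h1 h3 ht) {τ x y : ℝ}
    (hx : x0 ≤ x) (hxy : x ≤ y) :
    mF x0 x1 t1 t2 g (x, τ) ≤ mF x0 x1 t1 t2 g (y, τ) := by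
  unfold mF prim
  simp only
  apply intervalIntegral.integral_mono_interval le_rfl hx hxy
  · exact Eventually.of_forall (fun z => F.g_nonneg (F.cl_mem _))
  · exact (F.slice_cont τ).intervalIntegrable _ _

theorem Flow.mF_lower (F : Flow n x0 x1 t1 t2 W D s g h1 h3 ht) {τ y z w : ℝ}
    (hτ : τ ∈ Icc t1 t2) (hy : x0 ≤ y) (hyz : y ≤ z) (hz : z ≤ x1)
    (hg : ∀ u ∈ Icc y z, w ≤ g (u, τ)) : w * (z - y) ≤ mF x0 x1 t1 t2 g (z, τ) := by
  unfold mF prim
  simp only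
  rw [← intervalIntegral.integral_add_adjacent_intervals
    ((F.slice_cont τ).intervalIntegrable x0 y) ((F.slice_cont τ).intervalIntegrable y z)]
  have e1 : 0 ≤ ∫ u in x0..y, g (cl x0 x1 t1 t2 (u, τ)) :=
    intervalIntegral.integral_nonneg hy (fun u _ => F.g_nonneg (F.cl_mem _))
  have e2 : ∫ _u in y..z, w ≤ ∫ u in y..z, g (cl x0 x1 t1 t2 (u, τ)) := by
    apply intervalIntegral.integral_mono_on hyz intervalIntegrable_const
      ((F.slice_cont τ).intervalIntegrable y z)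
    intro u hu
    rw [cl_eq ⟨hy.trans hu.1, hu.2.trans hz⟩ hτ]
    exact hg u hu
  rw [intervalIntegral.integral_const, smul_eq_mul] at e2
  linarith

theorem Flow.mF_upper (F : Flow n x0 x1 t1 t2 W D s g h1 h3 ht) {τ x w : ℝ}
    (hτ : τ ∈ Icc t1 t2) (hx : s τ ≤ x) (hx1 : x ≤ x1)
    (hg : ∀ u ∈ Ioc (s τ) x, g (u, τ) ≤ w) : mF x0 x1 t1 t2 g (x, τ) ≤ w * (x - s τ) := by
  have hst := F.s_mem τ hτ
  unfold mF prim
  simp only
  rw [← intervalIntegral.integral_add_adjacent_intervals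
    ((F.slice_cont τ).intervalIntegrable x0 (s τ)) ((F.slice_cont τ).intervalIntegrable (s τ) x)]
  have e1 : ∫ u in x0..(s τ), g (cl x0 x1 t1 t2 (u, τ)) = 0 := by
    have h2 : ∫ u in x0..(s τ), g (cl x0 x1 t1 t2 (u, τ)) = ∫ _u in x0..(s τ), (0 : ℝ) := by
      apply intervalIntegral.integral_congr
      intro y hy
      rw [uIcc_of_le hst.1.le] at hy
      have hy' : y ∈ Icc x0 x1 := ⟨hy.1, hy.2.trans hst.2.le⟩
      simp only
      rw [cl_eq hy' hτ]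
      exact F.g_zero _ (F.R_sub y hy' τ hτ) (by rw [F.D_iff y hy' τ hτ]; exact not_lt.2 hy.2)
    rw [h2, intervalIntegral.integral_zero]
  have e2 : ∫ u in (s τ)..x, g (cl x0 x1 t1 t2 (u, τ)) ≤ w * (x - s τ) := by
    have h3 : ∫ u in (s τ)..x, g (cl x0 x1 t1 t2 (u, τ)) ≤ ∫ _u in (s τ)..x, w := by
      rw [intervalIntegral.integral_of_le hx, intervalIntegral.integral_of_le hx]
      apply setIntegral_mono_on (F.slice_cont τ).integrableOn_Ioc
        (integrableOn_const (by rw [Real.volume_Ioc]; exact ENNReal.ofReal_ne_top))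
        measurableSet_Ioc
      intro u hu
      rw [cl_eq ⟨hst.1.le.trans hu.1.le, hu.2.trans hx1⟩ hτ]
      exact hg u hu
    rw [intervalIntegral.integral_const, smul_eq_mul] at h3
    linarith
  linarith

theorem eV_nonneg (hF : ∀ z ∈ D, 0 ≤ Fd n g h3 z) (V : Set (ℝ × ℝ)) (τ : ℝ) :
    0 ≤ eV n x0 x1 D V g h3 τ := by
  unfold eV
  apply setIntegral_nonneg measurableSet_Ioc
  intro x _
  exact indicator_nonneg (fun z hz => hF z hz.1) _
end

variable {n δ T : ℝ} {s : ℝ → ℝ} {h : ℝ → ℝ → ℝ}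

theorem has_dx' (S : IsClassicalSolution n δ T s h) {k m : ℕ} (hk : k < 4) (hm : m = k + 1)
    {x t : ℝ} (hz : (x, t) ∈ dom s δ T) :
    HasDerivAt (fun x => dx k h (x, t)) (dx m h (x, t)) x := by
  subst hm
  exact has_dx S hk hz

/-- the profile at one time -/
theorem IsClassicalSolution.prof (S : IsClassicalSolution n δ T s h) (hδ : 0 < δ)
    {x0 x1 t1 t2 : ℝ} (h12 : t1 < t2) (h1 : 0 < t1) (h2 : t2 < T)
    (hs : ∀ t ∈ Icc t1 t2, x0 < s t ∧ s t < x1 ∧ x1 < s t + δ) {τ : ℝ} (hτ : τ ∈ Icc t1 t2)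
    (hint : IntegrableOn (fun x => (dom s δ T).indicator (Fd n (gf s δ T h) (dx 3 h)) (x, τ))
      (Ioc x0 x1)) :
    Prof n (s τ) x1 (eV n x0 x1 (dom s δ T) univ (gf s δ T h) (dx 3 h) τ)
      (fun x => gf s δ T h (x, τ)) (fun x => dx 1 h (x, τ)) (fun x => dx 2 h (x, τ))
      (fun x => dx 3 h (x, τ)) := by
  have F := S.flow hδ h12 h1 h2 hs
  have hst := hs τ hτ
  have hD : ∀ x ∈ Ioc (s τ) x1, (x, τ) ∈ dom s δ T := fun x hx =>
    (F.D_iff x ⟨hst.1.le.trans hx.1.le, hx.2⟩ τ hτ).2 hx.1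
  have hFd : ∀ z ∈ dom s δ T, 0 ≤ Fd n (gf s δ T h) (dx 3 h) z := fun z hz =>
    mul_nonneg (Real.rpow_nonneg (F.g_pos z hz).le _) (sq_nonneg _)
  have hsub : Ioc (s τ) x1 ⊆ Ioc x0 x1 := Ioc_subset_Ioc_left hst.1.le
  have hi1 := hint.mono_set hsub
  have hcongr : ∀ x ∈ Ioc (s τ) x1, (dom s δ T).indicator (Fd n (gf s δ T h) (dx 3 h)) (x, τ) =
      gf s δ T h (x, τ) ^ n * dx 3 h (x, τ) ^ 2 := by
    intro x hx
    rw [indicator_of_mem (hD x hx)]
    rfl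
  have f0 : ∀ x ∈ Ioc (s τ) x1,
      HasDerivAt (fun x => gf s δ T h (x, τ)) (dx 1 h (x, τ)) x := fun x hx => gf_dx S (hD x hx)
  have f1 : ∀ x ∈ Ioc (s τ) x1,
      HasDerivAt (fun x => dx 1 h (x, τ)) (dx 2 h (x, τ)) x :=
    fun x hx => has_dx' S (by norm_num) (by norm_num) (hD x hx)
  have f2 : ∀ x ∈ Ioc (s τ) x1,
      HasDerivAt (fun x => dx 2 h (x, τ)) (dx 3 h (x, τ)) x :=
    fun x hx => has_dx' S (by norm_num) (by norm_num) (hD x hx)
  have f3 : ContinuousOn (fun x => dx 3 h (x, τ)) (Ioc (s τ) x1) := by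
    have c1 : Continuous fun x : ℝ => (x, τ) := by fun_prop
    exact ContinuousOn.comp (g := dx 3 h) (S.continuous_x 3 (by norm_num)) c1.continuousOn hD
  have f4 : ∀ e > 0, ∃ r > s τ, ∀ x ∈ Ioo (s τ) r, gf s δ T h (x, τ) < e := by
    intro e he
    have hmem : s τ ∈ Icc x0 x1 := ⟨hst.1.le, hst.2.1.le⟩
    have hW := F.R_sub (s τ) hmem τ hτ
    have hgc : ContinuousAt (gf s δ T h) (s τ, τ) := F.g_cont.continuousAt (F.W_open.mem_nhds hW)
    have hgc' : ContinuousAt (fun y => gf s δ T h (y, τ)) (s τ) :=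
      ContinuousAt.comp (f := fun y : ℝ => (y, τ)) hgc (by fun_prop)
    have h0 : gf s δ T h (s τ, τ) = 0 := by
      apply gf_zero
      intro hcon
      exact absurd hcon.2.1 (lt_irrefl _)
    have hev : ∀ᶠ y in 𝓝 (s τ), gf s δ T h (y, τ) < e :=
      hgc'.eventually_lt continuousAt_const (by rw [h0]; exact he)
    obtain ⟨l, u, hlu, hsub'⟩ := mem_nhds_iff_exists_Ioo_subset.1 hev
    exact ⟨u, hlu.2, fun x hx => hsub' ⟨hlu.1.trans hx.1, hx.2⟩⟩
  have f5 : IntegrableOn (fun x => gf s δ T h (x, τ) ^ n * dx 3 h (x, τ) ^ 2)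
      (Ioc (s τ) x1) := hi1.congr_fun hcongr measurableSet_Ioc
  have f6 : ∫ x in Ioc (s τ) x1, gf s δ T h (x, τ) ^ n * dx 3 h (x, τ) ^ 2 ≤
      eV n x0 x1 (dom s δ T) univ (gf s δ T h) (dx 3 h) τ := by
    rw [← setIntegral_congr_fun measurableSet_Ioc hcongr]
    unfold eV
    rw [inter_univ]
    apply setIntegral_mono_set hint
    · exact Eventually.of_forall (fun x => indicator_nonneg hFd _)
    · exact (Eventually.of_forall hsub)
  exact ⟨hst.2.1, f0, f1, f2, f3, fun x hx => gf_pos S (hD x hx), f4, f5, f6⟩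

end Pool.Agent.Q81.TF
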