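import Pool.Agent.Q81.TF.FlowR
import Pool.Agent.Q81.TF.ErrB
import Pool.Agent.Q81.TF.Local

open Set MeasureTheory Filter Topology

namespace Pool.Agent.Q81.TF

/-- the second derivative -/
structure Jet (D : Set (ℝ × ℝ)) (h1 h2 h3 : ℝ × ℝ → ℝ) : Prop where
  h2_cont : ContinuousOn h2 D
  d_1 : ∀ z ∈ D, HasDerivAt (fun x => h1 (x, z.2)) (h2 z) z.1
  d_2 : ∀ z ∈ D, HasDerivAt (fun x => h2 (x, z.2)) (h3 z) z.1

variable {n x0 x1 t1 t2 : ℝ} {W D : Set (ℝ × ℝ)} {s : ℝ → ℝ} {g h1 h2 h3 ht : ℝ × ℝ → ℝ}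

/-- the profile at one time -/
theorem Flow.prof (F : Flow n x0 x1 t1 t2 W D s g h1 h3 ht) (J : Jet D h1 h2 h3) {τ : ℝ}
    (hτ : τ ∈ Icc t1 t2)
    (hint : IntegrableOn (fun x => D.indicator (Fd n g h3) (x, τ)) (Ioc x0 x1)) :
    Prof n (s τ) x1 (eV n x0 x1 D univ g h3 τ)
      (fun x => g (x, τ)) (fun x => h1 (x, τ)) (fun x => h2 (x, τ)) (fun x => h3 (x, τ)) := by
  have hst := F.s_mem τ hτ
  have hD : ∀ x ∈ Ioc (s τ) x1, (x, τ) ∈ D := fun x hx =>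
    (F.D_iff x ⟨hst.1.le.trans hx.1.le, hx.2⟩ τ hτ).2 hx.1
  have hFd : ∀ z ∈ D, 0 ≤ Fd n g h3 z := fun z hz =>
    mul_nonneg (Real.rpow_nonneg (F.g_pos z hz).le _) (sq_nonneg _)
  have hsub : Ioc (s τ) x1 ⊆ Ioc x0 x1 := Ioc_subset_Ioc_left hst.1.le
  have hi1 := hint.mono_set hsub
  have hcongr : ∀ x ∈ Ioc (s τ) x1, D.indicator (Fd n g h3) (x, τ) =
      g (x, τ) ^ n * h3 (x, τ) ^ 2 := by
    intro x hx
    rw [indicator_of_mem (hD x hx)]
    rfl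
  have f3 : ContinuousOn (fun x => h3 (x, τ)) (Ioc (s τ) x1) := by
    have c1 : Continuous fun x : ℝ => (x, τ) := by fun_prop
    exact ContinuousOn.comp (g := h3) F.h3_cont c1.continuousOn hD
  have f4 : ∀ e > 0, ∃ r > s τ, ∀ x ∈ Ioo (s τ) r, g (x, τ) < e := by
    intro e he
    have hmem : s τ ∈ Icc x0 x1 := ⟨hst.1.le, hst.2.le⟩
    have hW := F.R_sub (s τ) hmem τ hτ
    have hgc : ContinuousAt g (s τ, τ) := F.g_cont.continuousAt (F.W_open.mem_nhds hW)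
    have hgc' : ContinuousAt (fun y => g (y, τ)) (s τ) :=
      ContinuousAt.comp (f := fun y : ℝ => (y, τ)) hgc (by fun_prop)
    have h0 : g (s τ, τ) = 0 := by
      apply F.g_zero _ hW
      rw [F.D_iff _ hmem τ hτ]
      exact lt_irrefl _
    have hev : ∀ᶠ y in 𝓝 (s τ), g (y, τ) < e :=
      hgc'.eventually_lt continuousAt_const (by rw [h0]; exact he)
    obtain ⟨l, u, hlu, hsub'⟩ := mem_nhds_iff_exists_Ioo_subset.1 hev
    exact ⟨u, hlu.2, fun x hx => hsub' ⟨hlu.1.trans hx.1, hx.2⟩⟩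
  have f5 : IntegrableOn (fun x => g (x, τ) ^ n * h3 (x, τ) ^ 2)
      (Ioc (s τ) x1) := hi1.congr_fun hcongr measurableSet_Ioc
  have f6 : ∫ x in Ioc (s τ) x1, g (x, τ) ^ n * h3 (x, τ) ^ 2 ≤
      eV n x0 x1 D univ g h3 τ := by
    rw [← setIntegral_congr_fun measurableSet_Ioc hcongr]
    unfold eV
    rw [inter_univ]
    apply setIntegral_mono_set hint
    · exact Eventually.of_forall (fun x => indicator_nonneg hFd _)
    · exact (Eventually.of_forall hsub)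
  exact ⟨hst.2, fun x hx => F.d_x (x, τ) (hD x hx), fun x hx => J.d_1 (x, τ) (hD x hx),
    fun x hx => J.d_2 (x, τ) (hD x hx), f3, fun x hx => F.g_pos _ (hD x hx), f4, f5, f6⟩

theorem Flow.rectCut (F : Flow n x0 x1 t1 t2 W D s g h1 h3 ht) {ε : ℝ} (hε : 0 < ε) {ψ : ℝ → ℝ}
    (hψ : Continuous ψ) (hz : ∀ v, v ≤ ε → ψ v = 0) {u : ℝ × ℝ → ℝ}
    (hu : ContinuousOn u (D ∩ Icc x0 x1 ×ˢ Icc t1 t2)) :
    ContinuousOn (fun z => ψ (g z) * u z) (Icc x0 x1 ×ˢ Icc t1 t2) := by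
  rintro z ⟨hz1, hz2⟩
  have hzW := F.R_sub z.1 hz1 z.2 hz2
  have hgc : ContinuousAt g z := F.g_cont.continuousAt (F.W_open.mem_nhds hzW)
  by_cases h : z ∈ D
  · have h1 : ContinuousWithinAt u (Icc x0 x1 ×ˢ Icc t1 t2) z := by
      have h2 := hu z ⟨h, hz1, hz2⟩
      rw [inter_comm] at h2
      exact (continuousWithinAt_inter (F.D_open.mem_nhds h)).1 h2
    exact (hψ.continuousAt.comp hgc).continuousWithinAt.mul h1
  · apply ContinuousAt.continuousWithinAt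
    have h0 : g z = 0 := F.g_zero z hzW h
    have hev : (fun z => ψ (g z) * u z) =ᶠ[𝓝 z] fun _ => 0 := by
      have : ∀ᶠ y in 𝓝 z, g y < ε := hgc.eventually_lt continuousAt_const (by rw [h0]; exact hε)
      filter_upwards [this] with y hy
      rw [hz _ hy.le, zero_mul]
    exact ContinuousAt.congr continuousAt_const hev.symm

/-- the density of `R` -/
noncomputable def kR (n : ℝ) (g : ℝ × ℝ → ℝ) (z : ℝ × ℝ) : ℝ := g z ^ (2 - n)

/-- its derivative in time -/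
noncomputable def kRt (n : ℝ) (g ht : ℝ × ℝ → ℝ) (z : ℝ × ℝ) : ℝ :=
  (2 - n) * (g z ^ (1 - n) * ht z)

theorem Flow.kR_cont (F : Flow n x0 x1 t1 t2 W D s g h1 h3 ht) (hDW : D ⊆ W) :
    ContinuousOn (kR n g) D :=
  (F.g_cont.mono hDW).rpow_const (fun z hz => Or.inl (F.g_pos z hz).ne')

theorem Flow.kRt_cont (F : Flow n x0 x1 t1 t2 W D s g h1 h3 ht) (hDW : D ⊆ W) :
    ContinuousOn (kRt n g ht) D :=
  continuousOn_const.mul (((F.g_cont.mono hDW).rpow_const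
    (fun z hz => Or.inl (F.g_pos z hz).ne')).mul F.ht_cont)

theorem Flow.kR_dt (F : Flow n x0 x1 t1 t2 W D s g h1 h3 ht) {z : ℝ × ℝ} (hz : z ∈ D) :
    HasDerivAt (fun t => kR n g (z.1, t)) (kRt n g ht z) z.2 := by
  have h1 := (F.d_t z hz).rpow_const (p := 2 - n) (Or.inl (F.g_pos z hz).ne')
  refine HasDerivAt.congr_deriv h1 ?_
  unfold kRt
  have h2 : (2 - n - 1 : ℝ) = 1 - n := by ring
  rw [h2]
  ring

/-- the functional density -/
noncomputable def Phi (n x1 : ℝ) (g : ℝ × ℝ → ℝ) (Fr χ : ℝ → ℝ) (z : ℝ × ℝ) : ℝ :=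
  χ (g z) * Fr (rI x1 (kR n g) z)

/-- its derivative in time -/
noncomputable def phi (n x1 : ℝ) (g ht : ℝ × ℝ → ℝ) (Fr w χ χ1 : ℝ → ℝ) (z : ℝ × ℝ) : ℝ :=
  χ (g z) * (-(w (rI x1 (kR n g) z)) * rI x1 (kRt n g ht) z) +
    χ1 (g z) * (Fr (rI x1 (kR n g) z) * ht z)

/-- the good density -/
noncomputable def good (n x1 : ℝ) (g h2 : ℝ × ℝ → ℝ) (w χ : ℝ → ℝ) (z : ℝ × ℝ) : ℝ :=
  χ (g z) * (w (rI x1 (kR n g) z) * rI x1 (fun z => h2 z ^ 2) z)

section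
variable {A B K M N ε : ℝ} {Fr w w1 χ χ1 χ2 : ℝ → ℝ}

theorem Flow.Phi_cont (F : Flow n x0 x1 t1 t2 W D s g h1 h3 ht) (hDW : D ⊆ W) (hε : 0 < ε)
    (FC : FCut B N Fr w w1) (XC : XCut A K M ε χ χ1 χ2) :
    ContinuousOn (Phi n x1 g Fr χ) (Icc x0 x1 ×ˢ Icc t1 t2) := by
  apply F.rectCut hε XC.c0 (fun v hv => (XC.z v hv).1)
  exact FC.c0.comp_continuousOn (F.rI_cont (F.kR_cont hDW))

theorem Flow.phi_cont (F : Flow n x0 x1 t1 t2 W D s g h1 h3 ht) (hDW : D ⊆ W) (hε : 0 < ε)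
    (FC : FCut B N Fr w w1) (XC : XCut A K M ε χ χ1 χ2) :
    ContinuousOn (phi n x1 g ht Fr w χ χ1) (Icc x0 x1 ×ˢ Icc t1 t2) := by
  apply ContinuousOn.add
  · apply F.rectCut hε XC.c0 (fun v hv => (XC.z v hv).1)
    exact ((FC.c1.comp_continuousOn (F.rI_cont (F.kR_cont hDW))).neg).mul
      (F.rI_cont (F.kRt_cont hDW))
  · apply F.rectCut hε XC.c1 (fun v hv => (XC.z v hv).2.1)
    exact (FC.c0.comp_continuousOn (F.rI_cont (F.kR_cont hDW))).mul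
      (F.ht_cont.mono inter_subset_left)

theorem Flow.good_cont (F : Flow n x0 x1 t1 t2 W D s g h1 h3 ht) (J : Jet D h1 h2 h3)
    (hDW : D ⊆ W) (hε : 0 < ε) (FC : FCut B N Fr w w1) (XC : XCut A K M ε χ χ1 χ2) :
    ContinuousOn (good n x1 g h2 w χ) (Icc x0 x1 ×ˢ Icc t1 t2) := by
  apply F.rectCut hε XC.c0 (fun v hv => (XC.z v hv).1)
  exact (FC.c1.comp_continuousOn (F.rI_cont (F.kR_cont hDW))).mul
    (F.rI_cont (J.h2_cont.pow 2))

theorem Flow.Phi_dt (F : Flow n x0 x1 t1 t2 W D s g h1 h3 ht) (hDW : D ⊆ W) (hε : 0 < ε)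
    (FC : FCut B N Fr w w1) (XC : XCut A K M ε χ χ1 χ2) {x t : ℝ} (hx : x ∈ Icc x0 x1)
    (htm : t ∈ Ioo t1 t2) :
    HasDerivAt (fun τ => Phi n x1 g Fr χ (x, τ)) (phi n x1 g ht Fr w χ χ1 (x, t)) t := by
  have htm' : t ∈ Icc t1 t2 := ⟨htm.1.le, htm.2.le⟩
  by_cases h : (x, t) ∈ D
  · have e1 := F.rI_dt (F.kR_cont hDW) (F.kRt_cont hDW) (fun z hz => F.kR_dt hz) hx htm h
    have e2 := (FC.d0 (rI x1 (kR n g) (x, t))).comp t e1
    have e3 := (XC.d0 (g (x, t))).comp t (F.d_t (x, t) h)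
    have e4 := e3.mul e2
    refine HasDerivAt.congr_deriv e4 ?_
    unfold phi
    simp only [Function.comp_apply]
    ring
  · have hW := F.R_sub x hx t htm'
    have h0 : g (x, t) = 0 := F.g_zero _ hW h
    have hgc : ContinuousAt g (x, t) := F.g_cont.continuousAt (F.W_open.mem_nhds hW)
    have hgc' : ContinuousAt (fun τ => g (x, τ)) t :=
      ContinuousAt.comp (f := fun τ : ℝ => (x, τ)) hgc (by fun_prop)
    have hev : (fun τ => Phi n x1 g Fr χ (x, τ)) =ᶠ[𝓝 t] fun _ => 0 := by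
      have : ∀ᶠ τ in 𝓝 t, g (x, τ) < ε :=
        hgc'.eventually_lt continuousAt_const (by rw [h0]; exact hε)
      filter_upwards [this] with y hy
      unfold Phi
      rw [(XC.z _ hy.le).1, zero_mul]
    have hz : phi n x1 g ht Fr w χ χ1 (x, t) = 0 := by
      unfold phi
      rw [h0, (XC.z 0 hε.le).1, (XC.z 0 hε.le).2.1, zero_mul, zero_mul, add_zero]
    rw [hz]
    exact (hasDerivAt_const t (0 : ℝ)).congr_of_eventuallyEq hev

/-- the functional -/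
noncomputable def Xi (n x0 x1 : ℝ) (g : ℝ × ℝ → ℝ) (Fr χ : ℝ → ℝ) (t : ℝ) : ℝ :=
  ∫ x in x0..x1, Phi n x1 g Fr χ (x, t)

/-- joint continuity of the clamped function -/
theorem clC {u : ℝ × ℝ → ℝ} (hx : x0 < x1) (ht12 : t1 < t2)
    (hu : ContinuousOn u (Icc x0 x1 ×ˢ Icc t1 t2)) :
    Continuous (fun z => u (cl x0 x1 t1 t2 z)) :=
  hu.comp_continuous (cl_cont x0 x1 t1 t2)
    (fun z => ⟨cl_fst (t1 := t1) (t2 := t2) hx z, cl_snd (x0 := x0) (x1 := x1) ht12 z⟩)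

theorem slice_c {u : ℝ × ℝ → ℝ} (hu : ContinuousOn u (Icc x0 x1 ×ˢ Icc t1 t2)) {t : ℝ}
    (ht : t ∈ Icc t1 t2) : ContinuousOn (fun x => u (x, t)) (Icc x0 x1) :=
  hu.comp (show Continuous fun x : ℝ => (x, t) by fun_prop).continuousOn (fun _ hx => ⟨hx, ht⟩)

theorem Flow.Xi_diff (F : Flow n x0 x1 t1 t2 W D s g h1 h3 ht) (hDW : D ⊆ W) (hε : 0 < ε)
    (FC : FCut B N Fr w w1) (XC : XCut A K M ε χ χ1 χ2) :
    Xi n x0 x1 g Fr χ t2 - Xi n x0 x1 g Fr χ t1 =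
      ∫ τ in t1..t2, ∫ x in x0..x1, phi n x1 g ht Fr w χ χ1 (x, τ) := by
  have hcP := F.Phi_cont hDW hε FC XC
  have hcp := F.phi_cont hDW hε FC XC
  have cw := clC F.hx F.htt hcp
  have ht1 : t1 ∈ Icc t1 t2 := ⟨le_rfl, F.htt.le⟩
  have ht2 : t2 ∈ Icc t1 t2 := ⟨F.htt.le, le_rfl⟩
  obtain ⟨p, hp⟩ : ∃ p : ℝ × ℝ → ℝ, p = fun z => phi n x1 g ht Fr w χ χ1 (cl x0 x1 t1 t2 z) :=
    ⟨_, rfl⟩
  rw [← hp] at cw
  have hpe : ∀ x ∈ Icc x0 x1, ∀ t ∈ Icc t1 t2, p (x, t) = phi n x1 g ht Fr w χ χ1 (x, t) := by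
    intro x hx t ht
    rw [hp]
    simp only
    rw [cl_eq hx ht]
  have e1 : ∀ x ∈ Icc x0 x1, Phi n x1 g Fr χ (x, t2) - Phi n x1 g Fr χ (x, t1) =
      ∫ τ in t1..t2, p (x, τ) := by
    intro x hx
    symm
    apply intervalIntegral.integral_eq_sub_of_hasDerivAt_of_le F.htt.le
      (f := fun τ => Phi n x1 g Fr χ (x, τ))
    · exact hcP.comp (show Continuous fun τ : ℝ => (x, τ) by fun_prop).continuousOn
        (fun τ hτ => ⟨hx, hτ⟩)
    · intro τ hτ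
      rw [hpe x hx τ ⟨hτ.1.le, hτ.2.le⟩]
      exact F.Phi_dt hDW hε FC XC hx hτ
    · exact (cw.comp (show Continuous fun τ : ℝ => (x, τ) by fun_prop)).intervalIntegrable _ _
  have e2 : Xi n x0 x1 g Fr χ t2 - Xi n x0 x1 g Fr χ t1 =
      ∫ x in x0..x1, ∫ τ in t1..t2, p (x, τ) := by
    unfold Xi
    have i1 : IntervalIntegrable (fun x => Phi n x1 g Fr χ (x, t2)) volume x0 x1 := by
      apply ContinuousOn.intervalIntegrable
      rw [uIcc_of_le F.hx.le]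
      exact slice_c hcP ht2
    have i2 : IntervalIntegrable (fun x => Phi n x1 g Fr χ (x, t1)) volume x0 x1 := by
      apply ContinuousOn.intervalIntegrable
      rw [uIcc_of_le F.hx.le]
      exact slice_c hcP ht1
    rw [← intervalIntegral.integral_sub i1 i2]
    apply intervalIntegral.integral_congr
    intro x hx
    rw [uIcc_of_le F.hx.le] at hx
    exact e1 x hx
  have e3 : ∫ x in x0..x1, ∫ τ in t1..t2, p (x, τ) = ∫ τ in t1..t2, ∫ x in x0..x1, p (x, τ) := by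
    apply intervalIntegral_intervalIntegral_swap (F := fun x τ => p (x, τ))
    apply IntegrableOn.mono_set (t := uIcc x0 x1 ×ˢ uIcc t1 t2)
    · exact ContinuousOn.integrableOn_compact (isCompact_uIcc.prod isCompact_uIcc) cw.continuousOn
    · exact prod_mono uIoc_subset_uIcc uIoc_subset_uIcc
  rw [e2, e3]
  apply intervalIntegral.integral_congr
  intro τ hτ
  rw [uIcc_of_le F.htt.le] at hτ
  simp only
  apply intervalIntegral.integral_congr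
  intro x hx
  rw [uIcc_of_le F.hx.le] at hx
  exact hpe x hx τ hτ

end

end Pool.Agent.Q81.TF
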