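import Pool.Agent.Q81.TF.FuncA

open Set MeasureTheory Filter Topology

namespace Pool.Agent.Q81.TF

variable {n x0 x1 t1 t2 : ℝ} {W D : Set (ℝ × ℝ)} {s : ℝ → ℝ} {g h1 h2 h3 ht : ℝ × ℝ → ℝ}

/-- bounds on the rectangle and at its right end -/
structure Bds (n x0 x1 t1 t2 : ℝ) (g h1 h2 h3 : ℝ × ℝ → ℝ) (M c Pm Gm Hm : ℝ) : Prop where
  hM1 : 1 ≤ M
  hM : ∀ x ∈ Icc x0 x1, ∀ t ∈ Icc t1 t2, g (x, t) ≤ M
  hc : 0 < c
  hc1 : c ≤ 1
  hca : ∀ t ∈ Icc t1 t2, c ≤ g (x1, t)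
  hPm : ∀ t ∈ Icc t1 t2, |h1 (x1, t)| ≤ Pm
  hGm : ∀ t ∈ Icc t1 t2, |Gf (fun x => g (x, t)) (fun x => h1 (x, t)) (fun x => h2 (x, t)) x1| ≤ Gm
  hHm : ∀ t ∈ Icc t1 t2,
    |Hf n (fun x => g (x, t)) (fun x => h1 (x, t)) (fun x => h2 (x, t)) (fun x => h3 (x, t)) x1| ≤ Hm

theorem Flow.exists_bds (F : Flow n x0 x1 t1 t2 W D s g h1 h3 ht) (J : Jet D h1 h2 h3)
    (hDW : D ⊆ W) : ∃ M c Pm Gm Hm, Bds n x0 x1 t1 t2 g h1 h2 h3 M c Pm Gm Hm := by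
  have hRc : IsCompact (Icc x0 x1 ×ˢ Icc t1 t2) := isCompact_Icc.prod isCompact_Icc
  have hRW : Icc x0 x1 ×ˢ Icc t1 t2 ⊆ W := fun z hz => F.R_sub z.1 hz.1 z.2 hz.2
  have hgR : ContinuousOn g (Icc x0 x1 ×ˢ Icc t1 t2) := F.g_cont.mono hRW
  obtain ⟨M0, hM0⟩ := hRc.exists_bound_of_continuousOn hgR
  have hx1m : x1 ∈ Icc x0 x1 := ⟨F.hx.le, le_rfl⟩
  have c1 : Continuous fun t : ℝ => (x1, t) := by fun_prop
  have hend : ContinuousOn (fun t => g (x1, t)) (Icc t1 t2) :=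
    ContinuousOn.comp (g := g) hgR c1.continuousOn (fun t ht => ⟨hx1m, ht⟩)
  obtain ⟨τ0, hτ0, hmin⟩ := isCompact_Icc.exists_isMinOn (nonempty_Icc.2 F.htt.le) hend
  have hc0 : 0 < g (x1, τ0) := F.g_pos _ ((F.D_iff x1 hx1m τ0 hτ0).2 (F.s_mem τ0 hτ0).2)
  have hendD : ∀ t ∈ Icc t1 t2, (x1, t) ∈ D := fun t ht =>
    (F.D_iff x1 hx1m t ht).2 (F.s_mem t ht).2
  have hsl : ∀ {u : ℝ × ℝ → ℝ}, ContinuousOn u D → ContinuousOn (fun t => u (x1, t)) (Icc t1 t2) :=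
    fun hu => hu.comp c1.continuousOn hendD
  have k1 := hsl F.h1_cont
  have k2 := hsl J.h2_cont
  have k3 := hsl F.h3_cont
  have kg1 : ContinuousOn (fun t => g (x1, t) ^ (1 - n)) (Icc t1 t2) :=
    hend.rpow_const (fun t ht => Or.inl (F.g_pos _ (hendD t ht)).ne')
  have kgn : ContinuousOn (fun t => g (x1, t) ^ n) (Icc t1 t2) :=
    hend.rpow_const (fun t ht => Or.inl (F.g_pos _ (hendD t ht)).ne')
  obtain ⟨P1, hP1⟩ := isCompact_Icc.exists_bound_of_continuousOn k1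
  obtain ⟨G1, hG1⟩ := isCompact_Icc.exists_bound_of_continuousOn
    (f := fun t => Gf (fun x => g (x, t)) (fun x => h1 (x, t)) (fun x => h2 (x, t)) x1)
    (((k1.pow 2).div_const 2).sub (hend.mul k2))
  obtain ⟨H1, hH1⟩ := isCompact_Icc.exists_bound_of_continuousOn
    (f := fun t => Hf n (fun x => g (x, t)) (fun x => h1 (x, t)) (fun x => h2 (x, t))
      (fun x => h3 (x, t)) x1)
    ((continuousOn_const.mul (kg1.mul (kgn.mul k3))).add (continuousOn_const.mul (k1.mul k2)))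
  refine ⟨max 1 M0, min 1 (g (x1, τ0)), P1, G1, H1, ⟨le_max_left _ _, ?_, lt_min one_pos hc0,
    min_le_left _ _, fun t ht => (min_le_right _ _).trans (hmin ht), hP1, hG1, hH1⟩⟩
  intro x hx t ht
  have := hM0 (x, t) ⟨hx, ht⟩
  rw [Real.norm_eq_abs] at this
  exact (le_abs_self _).trans (this.trans (le_max_right _ _))

/-- the error constant -/
noncomputable def erK (n L B A M c Pm Gm Hm ν K : ℝ) : ℝ :=
  erC1 n L B A M Hm (1 + slC n c Pm Gm) / ν +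
    erC2 n B A (M ^ (n - 3)) (1 + slC n c Pm Gm) * ν ^ 6 / K

theorem Flow.func_time (F : Flow n x0 x1 t1 t2 W D s g h1 h3 ht) (J : Jet D h1 h2 h3)
    (hDW : D ⊆ W) (hn : 3 ≤ n) {A B K M ε ν c Pm Gm Hm : ℝ} {Fr w w1 χ χ1 χ2 : ℝ → ℝ} (hε : 0 < ε)
    (hν : 1 ≤ ν) (hK : 1 ≤ K) (hA : 0 ≤ A) (hB : 0 ≤ B)
    (FC : FCut B (ν ^ 4) Fr w w1) (XC : XCut A K M ε χ χ1 χ2)
    (Bd : Bds n x0 x1 t1 t2 g h1 h2 h3 M c Pm Gm Hm) {τ : ℝ}
    (hτ : τ ∈ Icc t1 t2)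
    (hint : IntegrableOn (fun x => D.indicator (Fd n g h3) (x, τ)) (Ioc x0 x1)) :
    |(∫ x in x0..x1, phi n x1 g ht Fr w χ χ1 (x, τ)) +
      χ1 (g (x1, τ)) * (g (x1, τ) ^ n * h3 (x1, τ)) -
      (n - 1) * (n - 2) * ∫ x in x0..x1, good n x1 g h2 w χ (x, τ)| ≤
      erK n (x1 - x0) B A M c Pm Gm Hm ν K * (1 + eV n x0 x1 D univ g h3 τ) := by
  have P := F.prof J hτ hint
  have hst := F.s_mem τ hτ
  obtain ⟨r, hr, hr'⟩ := P.lim ε hε
  obtain ⟨ξ, hξ1, hξ2⟩ : ∃ ξ, s τ < ξ ∧ ξ < min r x1 := exists_between (lt_min hr hst.2)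
  have hξr : ξ < r := hξ2.trans_le (min_le_left _ _)
  have hξx : ξ < x1 := hξ2.trans_le (min_le_right _ _)
  have hξm : ξ ∈ Ioc (s τ) x1 := ⟨hξ1, hξx.le⟩
  have hx0ξ : x0 ≤ ξ := hst.1.le.trans hξ1.le
  have hlow : ∀ x ∈ Icc x0 ξ, g (x, τ) ≤ ε := by
    intro x hx
    rcases le_or_gt x (s τ) with h | h
    · rw [F.g_zero _ (F.R_sub x ⟨hx.1, hx.2.trans hξx.le⟩ τ hτ) (by
        rw [F.D_iff x ⟨hx.1, hx.2.trans hξx.le⟩ τ hτ]
        exact not_lt.2 h)]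
      exact hε.le
    · exact (hr' x ⟨h, hx.2.trans_lt hξr⟩).le
  have hD : ∀ x ∈ Ioc (s τ) x1, (x, τ) ∈ D := fun x hx =>
    (F.D_iff x ⟨hst.1.le.trans hx.1.le, hx.2⟩ τ hτ).2 hx.1
  have hct : ContinuousOn (fun x => ht (x, τ)) (Ioc (s τ) x1) :=
    F.ht_cont.comp (show Continuous fun x : ℝ => (x, τ) by fun_prop).continuousOn hD
  have h1 := P.errT hn (ft := fun x => ht (x, τ)) (L := x1 - x0) (M := M) (Pm := Pm) (Gm := Gm)
    (Hm := Hm) (fun x hx => F.d_q (x, τ) (hD x hx)) hct hν hK hA hB FC XC hξm (hlow ξ ⟨hx0ξ, le_rfl⟩)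
    (by linarith [hst.1]) (fun x hx => Bd.hM x ⟨hst.1.le.trans hx.1.le, hx.2⟩ τ hτ) Bd.hc
    (Bd.hca τ hτ) (Bd.hPm τ hτ) (Bd.hGm τ hτ) (Bd.hHm τ hτ)
  have sc : ∀ {u : ℝ × ℝ → ℝ}, ContinuousOn u (Icc x0 x1 ×ˢ Icc t1 t2) → ∀ p q, p ∈ Icc x0 x1 →
      q ∈ Icc x0 x1 → IntervalIntegrable (fun x => u (x, τ)) volume p q := by
    intro u hu p q hp hq
    apply ContinuousOn.intervalIntegrable
    exact (slice_c hu hτ).mono (uIcc_subset_Icc hp hq)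
  have hx0m : x0 ∈ Icc x0 x1 := ⟨le_rfl, F.hx.le⟩
  have hx1m : x1 ∈ Icc x0 x1 := ⟨F.hx.le, le_rfl⟩
  have hξm' : ξ ∈ Icc x0 x1 := ⟨hx0ξ, hξx.le⟩
  have hcp := F.phi_cont hDW hε FC XC
  have hcg := F.good_cont J hDW hε FC XC
  have e1 : ∫ x in x0..x1, phi n x1 g ht Fr w χ χ1 (x, τ) =
      ∫ x in ξ..x1, phT n x1 (fun x => g (x, τ)) (fun x => ht (x, τ)) Fr w χ χ1 x := by
    rw [← intervalIntegral.integral_add_adjacent_intervals (sc hcp _ _ hx0m hξm')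
      (sc hcp _ _ hξm' hx1m)]
    have z1 : ∫ x in x0..ξ, phi n x1 g ht Fr w χ χ1 (x, τ) = ∫ _x in x0..ξ, (0 : ℝ) := by
      apply intervalIntegral.integral_congr
      intro x hx
      rw [uIcc_of_le hx0ξ] at hx
      have := XC.z _ (hlow x hx)
      simp only [phi, this.1, this.2.1, zero_mul, add_zero]
    rw [z1, intervalIntegral.integral_zero, zero_add]
    apply intervalIntegral.integral_congr
    intro x _
    simp only [phi, phT, rI, kR, kRt]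
    ring
  have e2 : ∫ x in x0..x1, good n x1 g h2 w χ (x, τ) =
      ∫ x in ξ..x1, w (∫ y in x..x1, g (y, τ) ^ (2 - n)) * χ (g (x, τ)) *
        ∫ y in x..x1, h2 (y, τ) ^ 2 := by
    rw [← intervalIntegral.integral_add_adjacent_intervals (sc hcg _ _ hx0m hξm')
      (sc hcg _ _ hξm' hx1m)]
    have z1 : ∫ x in x0..ξ, good n x1 g h2 w χ (x, τ) = ∫ _x in x0..ξ, (0 : ℝ) := by
      apply intervalIntegral.integral_congr
      intro x hx
      rw [uIcc_of_le hx0ξ] at hx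
      have := XC.z _ (hlow x hx)
      simp only [good, this.1, zero_mul]
    rw [z1, intervalIntegral.integral_zero, zero_add]
    apply intervalIntegral.integral_congr
    intro x _
    simp only [good, rI, kR]
    ring
  rw [e1, e2]
  exact h1

/-- the integrated estimate -/
theorem Flow.func_ineq (F : Flow n x0 x1 t1 t2 W D s g h1 h3 ht) (J : Jet D h1 h2 h3)
    (hDW : D ⊆ W) (hn : 3 ≤ n) {A B K M ε ν c Pm Gm Hm : ℝ} {Fr w w1 χ χ1 χ2 : ℝ → ℝ} (hε : 0 < ε)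
    (hν : 1 ≤ ν) (hK : 1 ≤ K) (hA : 0 ≤ A) (hB : 0 ≤ B)
    (FC : FCut B (ν ^ 4) Fr w w1) (XC : XCut A K M ε χ χ1 χ2)
    (Bd : Bds n x0 x1 t1 t2 g h1 h2 h3 M c Pm Gm Hm)
    (hfin : IntegrableOn (Fd n g h3) (D ∩ Ioc x0 x1 ×ˢ Ioc t1 t2)) :
    |Xi n x0 x1 g Fr χ t2 - Xi n x0 x1 g Fr χ t1 +
      (∫ τ in t1..t2, χ1 (g (x1, τ)) * (g (x1, τ) ^ n * h3 (x1, τ))) -
      (n - 1) * (n - 2) * ∫ τ in t1..t2, ∫ x in x0..x1, good n x1 g h2 w χ (x, τ)| ≤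
      erK n (x1 - x0) B A M c Pm Gm Hm ν K *
        ∫ τ in Ioc t1 t2, (1 + eV n x0 x1 D univ g h3 τ) := by
  have hDm := F.D_open.measurableSet
  have hcp := F.phi_cont hDW hε FC XC
  have hcg := F.good_cont J hDW hε FC XC
  have cI : ∀ {u : ℝ × ℝ → ℝ}, ContinuousOn u (Icc x0 x1 ×ˢ Icc t1 t2) →
      IntervalIntegrable (fun τ => ∫ x in x0..x1, u (x, τ)) volume t1 t2 := by
    intro u hu
    have h1 : Continuous (fun τ => ∫ x in x0..x1, u (cl x0 x1 t1 t2 (x, τ))) := by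
      apply intervalIntegral.continuous_parametric_intervalIntegral_of_continuous'
        (f := fun τ x => u (cl x0 x1 t1 t2 (x, τ)))
      exact (clC F.hx F.htt hu).comp (by fun_prop)
    apply (h1.intervalIntegrable t1 t2).congr
    intro τ hτ
    rw [uIoc_of_le F.htt.le] at hτ
    apply intervalIntegral.integral_congr
    intro x hx
    rw [uIcc_of_le F.hx.le] at hx
    simp only
    rw [cl_eq hx ⟨hτ.1.le, hτ.2⟩]
  have hx1m : x1 ∈ Icc x0 x1 := ⟨F.hx.le, le_rfl⟩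
  have hendD : ∀ t ∈ Icc t1 t2, (x1, t) ∈ D := fun t ht =>
    (F.D_iff x1 hx1m t ht).2 (F.s_mem t ht).2
  have c1 : Continuous fun t : ℝ => (x1, t) := by fun_prop
  have hend : ContinuousOn (fun t => g (x1, t)) (Icc t1 t2) :=
    ContinuousOn.comp (g := g) F.g_cont c1.continuousOn (fun t ht => F.R_sub x1 hx1m t ht)
  have iB : IntervalIntegrable (fun τ => χ1 (g (x1, τ)) * (g (x1, τ) ^ n * h3 (x1, τ)))
      volume t1 t2 := by
    apply ContinuousOn.intervalIntegrable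
    rw [uIcc_of_le F.htt.le]
    apply (XC.c1.comp_continuousOn hend).mul
    apply ContinuousOn.mul
    · exact hend.rpow_const (fun t ht => Or.inl (F.g_pos _ (hendD t ht)).ne')
    · exact F.h3_cont.comp c1.continuousOn hendD
  have ip := cI hcp
  have ig := cI hcg
  have hE := tail_integrable hDm MeasurableSet.univ hfin
  have iE : IntegrableOn (fun τ => erK n (x1 - x0) B A M c Pm Gm Hm ν K *
      (1 + eV n x0 x1 D univ g h3 τ)) (Ioc t1 t2) := by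
    apply Integrable.const_mul
    exact (integrableOn_const (by rw [Real.volume_Ioc]; exact ENNReal.ofReal_ne_top)).add hE
  rw [F.Xi_diff hDW hε FC XC, ← intervalIntegral.integral_add ip iB,
    ← intervalIntegral.integral_const_mul,
    ← intervalIntegral.integral_sub (ip.add iB) (ig.const_mul _), ← integral_const_mul,
    intervalIntegral.integral_of_le F.htt.le]
  rw [← Real.norm_eq_abs]
  apply norm_integral_le_of_norm_le iE
  filter_upwards [tail_ae hDm hfin, ae_restrict_mem measurableSet_Ioc] with τ g1 g2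
  exact F.func_time J hDW hn hε hν hK hA hB FC XC Bd ⟨g2.1.le, g2.2⟩ g1

end Pool.Agent.Q81.TF
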