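import Pool.Agent.Q81.TF.Local

open Set MeasureTheory Filter Topology

namespace Pool.Agent.Q81.TF

/-- the last point at which a continuous function has the value `c` -/
theorem last_point {f : ℝ → ℝ} {a b c : ℝ} (hab : a ≤ b) (hf : ContinuousOn f (Icc a b))
    (ha : f a ≤ c) (hb : c ≤ f b) : ∃ y ∈ Icc a b, f y = c ∧ ∀ u ∈ Icc y b, c ≤ f u := by
  have hcomp : IsCompact (Icc a b ∩ f ⁻¹' Iic c) :=
    isCompact_Icc.of_isClosed_subset (hf.preimage_isClosed_of_isClosed isClosed_Icc isClosed_Iic)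
      inter_subset_left
  obtain ⟨y, hy, hmax⟩ := hcomp.exists_isGreatest ⟨a, ⟨le_rfl, hab⟩, ha⟩
  have hgt : ∀ u ∈ Ioc y b, c < f u := by
    intro u hu
    by_contra hcon
    have := hmax ⟨⟨hy.1.1.trans hu.1.le, hu.2⟩, not_lt.1 hcon⟩
    exact absurd hu.1 (not_lt.2 this)
  have hfy : f y ≤ c := hy.2
  have hyc : f y = c := by
    rcases eq_or_lt_of_le hy.1.2 with h | h
    · rw [h] at hfy ⊢
      exact le_antisymm hfy hb
    · apply le_antisymm hfy
      have hcw : ContinuousWithinAt f (Icc a b) y := hf y hy.1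
      have hmem : Ioc y b ∈ 𝓝[>] y := Ioc_mem_nhdsGT h
      have ht : Tendsto f (𝓝[>] y) (𝓝 (f y)) := by
        apply hcw.tendsto.mono_left
        apply le_inf nhdsWithin_le_nhds
        rw [le_principal_iff]
        filter_upwards [hmem] with u hu
        exact ⟨hy.1.1.trans hu.1.le, hu.2⟩
      refine ge_of_tendsto ht ?_
      filter_upwards [hmem] with u hu
      exact (hgt u hu).le
  refine ⟨y, hy.1, hyc, fun u hu => ?_⟩
  rcases eq_or_lt_of_le hu.1 with h | h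
  · rw [← h, hyc]
  · exact (hgt u ⟨h, hu.2⟩).le

theorem cs_int {u : ℝ → ℝ} {a b : ℝ} (hab : a < b) (hu : ContinuousOn u (Icc a b)) :
    (∫ x in a..b, u x) ^ 2 ≤ (b - a) * ∫ x in a..b, u x ^ 2 := by
  have hc : ContinuousOn u (uIcc a b) := by rwa [uIcc_of_le hab.le]
  have hi : IntervalIntegrable u volume a b := hc.intervalIntegrable
  have hi2 : IntervalIntegrable (fun x => u x ^ 2) volume a b := (hc.pow 2).intervalIntegrable
  obtain ⟨D, hD⟩ : ∃ D, D = ∫ x in a..b, u x := ⟨_, rfl⟩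
  obtain ⟨l, hl⟩ : ∃ l, l = b - a := ⟨_, rfl⟩
  have hl0 : 0 < l := by rw [hl]; linarith
  rw [← hD, ← hl]
  have e2 : 0 ≤ ∫ x in a..b, (u x - D / l) ^ 2 :=
    intervalIntegral.integral_nonneg hab.le (fun x _ => sq_nonneg _)
  have e3 : ∫ x in a..b, (u x - D / l) ^ 2 = (∫ x in a..b, u x ^ 2) - D ^ 2 / l := by
    have h3 : ∀ x, (u x - D / l) ^ 2 = u x ^ 2 - (2 * (D / l)) * u x + (D / l) ^ 2 := by
      intro x
      ring
    simp_rw [h3]
    rw [intervalIntegral.integral_add (hi2.sub (hi.const_mul _)) intervalIntegrable_const,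
      intervalIntegral.integral_sub hi2 (hi.const_mul _), intervalIntegral.integral_const_mul,
      ← hD, intervalIntegral.integral_const, ← hl, smul_eq_mul]
    field_simp
    ring
  rw [e3] at e2
  have h4 : D ^ 2 / l ≤ ∫ x in a..b, u x ^ 2 := by linarith
  rw [div_le_iff₀ hl0] at h4
  linarith

variable {n x0 x1 t1 t2 : ℝ} {W D : Set (ℝ × ℝ)} {s : ℝ → ℝ} {g h1 h3 ht : ℝ × ℝ → ℝ}

/-- the last point with half the height -/
theorem Flow.half (F : Flow n x0 x1 t1 t2 W D s g h1 h3 ht) {x τ : ℝ} (hx : x ∈ Icc x0 x1)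
    (hτ : τ ∈ Icc t1 t2) (hsx : s τ < x) :
    ∃ y, s τ < y ∧ y < x ∧ g (y, τ) = g (x, τ) / 2 ∧ ∀ u ∈ Icc y x, g (x, τ) / 2 ≤ g (u, τ) := by
  have hst := F.s_mem τ hτ
  have hv : 0 < g (x, τ) := F.g_pos _ ((F.D_iff x hx τ hτ).2 hsx)
  have hsm : s τ ∈ Icc x0 x1 := ⟨hst.1.le, hst.2.le⟩
  have h0 : g (s τ, τ) = 0 := F.g_zero _ (F.R_sub _ hsm τ hτ) (by
    rw [F.D_iff _ hsm τ hτ]
    exact lt_irrefl _)
  have hc : ContinuousOn (fun u => g (u, τ)) (Icc (s τ) x) := by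
    have c1 : Continuous fun u : ℝ => (u, τ) := by fun_prop
    exact ContinuousOn.comp (g := g) F.g_cont c1.continuousOn
      (fun u hu => F.R_sub u ⟨hst.1.le.trans hu.1, hu.2.trans hx.2⟩ τ hτ)
  obtain ⟨y, hy, hy1, hy2⟩ := last_point (c := g (x, τ) / 2) hsx.le hc
    (by simp only [h0]; linarith) (by show g (x, τ) / 2 ≤ g (x, τ); linarith)
  have hy1' : g (y, τ) = g (x, τ) / 2 := hy1
  refine ⟨y, ?_, ?_, hy1, hy2⟩
  · rcases eq_or_lt_of_le hy.1 with h | h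
    · rw [← h, h0] at hy1'
      linarith
    · exact h
  · rcases eq_or_lt_of_le hy.2 with h | h
    · rw [h] at hy1'
      linarith
    · exact h

/-- Lipschitz profiles with a square integrable constant -/
theorem Flow.lip_crit (F : Flow n x0 x1 t1 t2 W D s g h1 h3 ht) (hDW : D ⊆ W) (hn : 3 ≤ n)
    (hfin : IntegrableOn (Fd n g h3) (D ∩ Ioc x0 x1 ×ˢ Ioc t1 t2)) {L : ℝ → ℝ}
    (hL : IntegrableOn (fun τ => L τ ^ 2) (Ioc t1 t2))
    (hlip : ∀ τ ∈ Ioc t1 t2, ∀ x ∈ Icc x0 x1, s τ < x → |h1 (x, τ)| ≤ L τ) : s t1 = s t2 := by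
  have hx := F.hx
  have hRc : IsCompact (Icc x0 x1 ×ˢ Icc t1 t2) := isCompact_Icc.prod isCompact_Icc
  have hRW : Icc x0 x1 ×ˢ Icc t1 t2 ⊆ W := fun z hz => F.R_sub z.1 hz.1 z.2 hz.2
  obtain ⟨M0, hM0⟩ := hRc.exists_bound_of_continuousOn (F.g_cont.mono hRW)
  obtain ⟨M, hM⟩ : ∃ M, M = max 1 M0 := ⟨_, rfl⟩
  have hM1 : 1 ≤ M := by rw [hM]; exact le_max_left _ _
  have hMb : ∀ x ∈ Icc x0 x1, ∀ t ∈ Icc t1 t2, g (x, t) ≤ M := by
    intro x hx' t ht
    have := hM0 (x, t) ⟨hx', ht⟩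
    rw [Real.norm_eq_abs] at this
    rw [hM]
    exact (le_abs_self _).trans (this.trans (le_max_right _ _))
  obtain ⟨C, hC⟩ : ∃ C, C = 4 * M ^ (n - 3) := ⟨_, rfl⟩
  have hMn : 1 ≤ M ^ (n - 3) := Real.one_le_rpow hM1 (by linarith)
  have hC1 : 1 ≤ C := by rw [hC]; linarith
  apply F.criterion hDW hfin (K := fun τ => C * (1 + L τ ^ 2))
  · intro τ
    positivity
  · have i2 : IntegrableOn (fun _ : ℝ => (1 : ℝ)) (Ioc t1 t2) :=
      integrableOn_const (by rw [Real.volume_Ioc]; exact ENNReal.ofReal_ne_top)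
    exact (i2.add hL).const_mul C
  · filter_upwards [ae_restrict_mem measurableSet_Ioc] with τ hτ'
    have hτ : τ ∈ Icc t1 t2 := ⟨hτ'.1.le, hτ'.2⟩
    intro x hxm hsx
    obtain ⟨y, hy1, hy2, hy3, hy4⟩ := F.half hxm hτ hsx
    have hst := F.s_mem τ hτ
    have hv : 0 < g (x, τ) := F.g_pos _ ((F.D_iff x hxm τ hτ).2 hsx)
    have hm : g (x, τ) / 2 * (x - y) ≤ mF x0 x1 t1 t2 g (x, τ) :=
      F.mF_lower hτ (hst.1.le.trans hy1.le) hy2.le hxm.2 hy4
    obtain ⟨c, hc1, hc2⟩ := exists_hasDerivAt_eq_slope (fun u => g (u, τ)) (fun u => h1 (u, τ)) hy2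
      (fun u hu => by
        apply ContinuousAt.continuousWithinAt
        exact (F.d_x (u, τ) ((F.D_iff u ⟨hst.1.le.trans (hy1.le.trans hu.1), hu.2.trans hxm.2⟩ τ
          hτ).2 (hy1.trans_le hu.1))).continuousAt)
      (fun u hu => F.d_x (u, τ) ((F.D_iff u ⟨hst.1.le.trans (hy1.le.trans hu.1.le),
        hu.2.le.trans hxm.2⟩ τ hτ).2 (hy1.trans hu.1)))
    have hlc := hlip τ hτ' c ⟨hst.1.le.trans (hy1.le.trans hc1.1.le), hc1.2.le.trans hxm.2⟩
      (hy1.trans hc1.1)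
    have hL0 : 0 ≤ L τ := (abs_nonneg _).trans hlc
    have h5 : h1 (c, τ) ≤ L τ := (le_abs_self _).trans hlc
    have hc2' : h1 (c, τ) = (g (x, τ) - g (y, τ)) / (x - y) := hc2
    rw [hc2', hy3, div_le_iff₀ (by linarith)] at h5
    have h6 : g (x, τ) ^ 2 ≤ 4 * (1 + L τ ^ 2) * mF x0 x1 t1 t2 g (x, τ) := by
      have h7 : g (x, τ) / 2 * (g (x, τ) / 2) ≤ g (x, τ) / 2 * (L τ * (x - y)) := by
        apply mul_le_mul_of_nonneg_left _ (by linarith)
        linarith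
      have h8 : L τ * (g (x, τ) / 2 * (x - y)) ≤ L τ * mF x0 x1 t1 t2 g (x, τ) :=
        mul_le_mul_of_nonneg_left hm hL0
      have h9 : 0 ≤ mF x0 x1 t1 t2 g (x, τ) := F.mF_nonneg (z := (x, τ)) hxm.1
      have h10 : L τ ≤ 1 + L τ ^ 2 := by nlinarith only [sq_nonneg (L τ - 1)]
      have h11 : L τ * mF x0 x1 t1 t2 g (x, τ) ≤ (1 + L τ ^ 2) * mF x0 x1 t1 t2 g (x, τ) :=
        mul_le_mul_of_nonneg_right h10 h9
      nlinarith only [h10, h9, h8, h7]
    have hm0 : 0 ≤ mF x0 x1 t1 t2 g (x, τ) := F.mF_nonneg (z := (x, τ)) hxm.1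
    have e1 : g (x, τ) ^ (n - 1) = g (x, τ) ^ (n - 3) * g (x, τ) ^ 2 := by
      rw [← Real.rpow_natCast (g (x, τ)) 2, ← Real.rpow_add hv]
      congr 1
      push_cast
      ring
    have e2 : g (x, τ) ^ (n - 3) ≤ M ^ (n - 3) :=
      Real.rpow_le_rpow hv.le (hMb x hxm τ hτ) (by linarith)
    rw [e1]
    calc g (x, τ) ^ (n - 3) * g (x, τ) ^ 2 ≤ M ^ (n - 3) *
        (4 * (1 + L τ ^ 2) * mF x0 x1 t1 t2 g (x, τ)) :=
          mul_le_mul e2 h6 (sq_nonneg _) (by linarith)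
      _ = C * (1 + L τ ^ 2) * (1 * mF x0 x1 t1 t2 g (x, τ)) := by rw [hC]; ring
      _ ≤ C * (1 + L τ ^ 2) * ((1 + |Real.log (mF x0 x1 t1 t2 g (x, τ))|) *
        mF x0 x1 t1 t2 g (x, τ)) := by
          apply mul_le_mul_of_nonneg_left _ (by positivity)
          apply mul_le_mul_of_nonneg_right _ hm0
          have := abs_nonneg (Real.log (mF x0 x1 t1 t2 g (x, τ)))
          linarith
  · intro B hB θ hθ
    obtain ⟨A, hA⟩ : ∃ A, A = (x1 - x0) * (B ^ 2 * 2 ^ n) := ⟨_, rfl⟩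
    have h2n : (0 : ℝ) < 2 ^ n := Real.rpow_pos_of_pos (by norm_num) n
    have hA0 : 0 < A := by
      rw [hA]
      have : 0 < x1 - x0 := by linarith
      positivity
    refine ⟨min 1 (θ / A), lt_min one_pos (by positivity), ?_⟩
    intro ε hε hεlt Fc φ1 φ2 H
    have hε1 : ε < 1 := hεlt.trans_le (min_le_left _ _)
    have hεA : ε < θ / A := hεlt.trans_le (min_le_right _ _)
    rw [lt_div_iff₀ hA0] at hεA
    filter_upwards [ae_restrict_mem measurableSet_Ioc] with τ hτ'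
    have hτ : τ ∈ Icc t1 t2 := ⟨hτ'.1.le, hτ'.2⟩
    obtain ⟨Q, hQ⟩ : ∃ Q, Q = B ^ 2 * 2 ^ n * ε * L τ ^ 2 := ⟨_, rfl⟩
    have hQ0 : 0 ≤ Q := by rw [hQ]; positivity
    have hpt : ∀ x ∈ Icc x0 x1, φ2 (g (cl x0 x1 t1 t2 (x, τ))) ^ 2 *
        (g (cl x0 x1 t1 t2 (x, τ)) ^ n * h1 (cl x0 x1 t1 t2 (x, τ)) ^ 2) ≤ Q := by
      intro x hxm
      rw [cl_eq hxm hτ]
      rcases le_or_gt (g (x, τ)) ε with hle | hgt
      · rw [(H.z _ hle).2.2, zero_pow (by norm_num), zero_mul]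
        exact hQ0
      rcases le_or_gt (2 * ε) (g (x, τ)) with hge | hlt
      · rw [H.z2 _ hge, zero_pow (by norm_num), zero_mul]
        exact hQ0
      have hDx : (x, τ) ∈ D := by
        by_contra hcon
        have h0 := F.g_zero _ (F.R_sub x hxm τ hτ) hcon
        rw [h0] at hgt
        linarith
      have hsx : s τ < x := (F.D_iff x hxm τ hτ).1 hDx
      have hl := hlip τ hτ' x hxm hsx
      have h2 : φ2 (g (x, τ)) ^ 2 ≤ (B / ε) ^ 2 := by
        rw [← sq_abs]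
        exact pow_le_pow_left₀ (abs_nonneg _) (H.b2 _) 2
      have h3' : g (x, τ) ^ n ≤ (2 * ε) ^ n :=
        Real.rpow_le_rpow (by linarith) hlt.le (by linarith)
      have h4 : h1 (x, τ) ^ 2 ≤ L τ ^ 2 := by
        rw [← sq_abs]
        exact pow_le_pow_left₀ (abs_nonneg _) hl 2
      have hgn : 0 ≤ g (x, τ) ^ n := Real.rpow_nonneg (by linarith) _
      have hεn : ε ^ n ≤ ε ^ 3 := by
        have := Real.rpow_le_rpow_of_exponent_ge hε hε1.le hn
        rwa [show (3 : ℝ) = ((3 : ℕ) : ℝ) by norm_num, Real.rpow_natCast] at this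
      calc φ2 (g (x, τ)) ^ 2 * (g (x, τ) ^ n * h1 (x, τ) ^ 2) ≤
          (B / ε) ^ 2 * ((2 * ε) ^ n * L τ ^ 2) := by
            apply mul_le_mul h2 _ (by positivity) (by positivity)
            exact mul_le_mul h3' h4 (sq_nonneg _) (by positivity)
        _ = (B / ε) ^ 2 * (2 ^ n * L τ ^ 2) * ε ^ n := by
            rw [Real.mul_rpow (by norm_num) hε.le]
            ring
        _ ≤ (B / ε) ^ 2 * (2 ^ n * L τ ^ 2) * ε ^ 3 :=
            mul_le_mul_of_nonneg_left hεn (by positivity)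
        _ = Q := by
            rw [hQ]
            field_simp
    have cA : Continuous (fun x => φ2 (g (cl x0 x1 t1 t2 (x, τ))) ^ 2 *
        (g (cl x0 x1 t1 t2 (x, τ)) ^ n * h1 (cl x0 x1 t1 t2 (x, τ)) ^ 2)) := by
      have c1 : Continuous (fun z => φ2 (g (cl x0 x1 t1 t2 z)) ^ 2 *
          (g (cl x0 x1 t1 t2 z) ^ n * h1 (cl x0 x1 t1 t2 z) ^ 2)) := by
        apply F.clCont (G := fun z => φ2 (g z) ^ 2 * (g z ^ n * h1 z ^ 2))
        apply F.cutCont hε (φ := fun v => φ2 v ^ 2) (H.c2.pow 2)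
        · intro v hv
          show φ2 v ^ 2 = 0
          rw [(H.z v hv).2.2]
          norm_num
        · apply ContinuousOn.mul _ (F.h1_cont.pow 2)
          apply (F.g_cont.mono hDW).rpow_const
          exact fun z hz => Or.inl (F.g_pos z hz).ne'
      exact c1.comp (show Continuous fun y : ℝ => (y, τ) by fun_prop)
    have h5 : ∫ x in x0..x1, φ2 (g (cl x0 x1 t1 t2 (x, τ))) ^ 2 *
        (g (cl x0 x1 t1 t2 (x, τ)) ^ n * h1 (cl x0 x1 t1 t2 (x, τ)) ^ 2) ≤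
        ∫ _x in x0..x1, Q :=
      intervalIntegral.integral_mono_on hx.le (cA.intervalIntegrable _ _)
        intervalIntegrable_const hpt
    rw [intervalIntegral.integral_const, smul_eq_mul] at h5
    refine h5.trans ?_
    have h6 : (x1 - x0) * Q = ε * A * L τ ^ 2 := by
      rw [hQ, hA]
      ring
    rw [h6]
    have h7 : ε * A * L τ ^ 2 ≤ θ * (1 + L τ ^ 2) := by nlinarith only [hεA, hε, hA0, sq_nonneg (L τ)]
    have h8 : θ * (1 + L τ ^ 2) ≤ θ * (C * (1 + L τ ^ 2)) := by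
      apply mul_le_mul_of_nonneg_left _ hθ.le
      nlinarith only [hMn, hC, sq_nonneg (L τ)]
    exact h7.trans h8

/-- square integrable gradient of `h ^ ((n - 2) / 2)` -/
theorem Flow.grad_crit (F : Flow n x0 x1 t1 t2 W D s g h1 h3 ht) (hDW : D ⊆ W) (hn : 3 ≤ n)
    (hfin : IntegrableOn (Fd n g h3) (D ∩ Ioc x0 x1 ×ˢ Ioc t1 t2))
    (hgr : IntegrableOn (Fd (n - 4) g h1) (D ∩ Ioc x0 x1 ×ˢ Ioc t1 t2)) : s t1 = s t2 := by
  have hx := F.hx
  have hD : MeasurableSet D := F.D_open.measurableSet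
  obtain ⟨k, hk⟩ : ∃ k : ℝ → ℝ, k = eV (n - 4) x0 x1 D univ g h1 := ⟨_, rfl⟩
  have hFd : ∀ z ∈ D, 0 ≤ Fd (n - 4) g h1 z := fun z hz =>
    mul_nonneg (Real.rpow_nonneg (F.g_pos z hz).le _) (sq_nonneg _)
  have hk0 : ∀ τ, 0 ≤ k τ := fun τ => by
    rw [hk]
    exact eV_nonneg hFd _ _
  obtain ⟨C, hC⟩ : ∃ C, C = 8 * (n - 2) ^ 2 := ⟨_, rfl⟩
  have hC1 : 1 ≤ C := by rw [hC]; nlinarith only [hn]
  obtain ⟨p, hp⟩ : ∃ p, p = (n - 2) / 2 := ⟨_, rfl⟩
  have hp0 : 0 < p := by rw [hp]; linarith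
  have hp1 : 1 / 2 ≤ p := by rw [hp]; linarith
  apply F.criterion hDW hfin (K := fun τ => C * k τ)
  · intro τ
    exact mul_nonneg (by linarith) (hk0 τ)
  · rw [hk]
    exact (tail_integrable hD MeasurableSet.univ hgr).const_mul C
  · filter_upwards [ae_restrict_mem measurableSet_Ioc, tail_ae hD hgr] with τ hτ' hint
    have hτ : τ ∈ Icc t1 t2 := ⟨hτ'.1.le, hτ'.2⟩
    intro x hxm hsx
    obtain ⟨y, hy1, hy2, hy3, hy4⟩ := F.half hxm hτ hsx
    have hst := F.s_mem τ hτ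
    have hv : 0 < g (x, τ) := F.g_pos _ ((F.D_iff x hxm τ hτ).2 hsx)
    have hm : g (x, τ) / 2 * (x - y) ≤ mF x0 x1 t1 t2 g (x, τ) :=
      F.mF_lower hτ (hst.1.le.trans hy1.le) hy2.le hxm.2 hy4
    have hDu : ∀ u ∈ Icc y x, (u, τ) ∈ D := fun u hu =>
      (F.D_iff u ⟨hst.1.le.trans (hy1.le.trans hu.1), hu.2.trans hxm.2⟩ τ hτ).2
        (hy1.trans_le hu.1)
    have c1 : Continuous fun u : ℝ => (u, τ) := by fun_prop
    have hcg : ContinuousOn (fun u => g (u, τ)) (Icc y x) :=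
      ContinuousOn.comp (g := g) (F.g_cont.mono hDW) c1.continuousOn hDu
    have hch : ContinuousOn (fun u => h1 (u, τ)) (Icc y x) :=
      ContinuousOn.comp (g := h1) F.h1_cont c1.continuousOn hDu
    have hcu : ContinuousOn (fun u => h1 (u, τ) * p * g (u, τ) ^ (p - 1)) (Icc y x) := by
      apply (hch.mul continuousOn_const).mul
      exact hcg.rpow_const (fun u hu => Or.inl (F.g_pos _ (hDu u hu)).ne')
    have hftc : ∫ u in y..x, h1 (u, τ) * p * g (u, τ) ^ (p - 1) =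
        g (x, τ) ^ p - g (y, τ) ^ p := by
      apply intervalIntegral.integral_eq_sub_of_hasDerivAt (f := fun u => g (u, τ) ^ p)
      · intro u hu
        rw [uIcc_of_le hy2.le] at hu
        exact (F.d_x (u, τ) (hDu u hu)).rpow_const (Or.inl (F.g_pos _ (hDu u hu)).ne')
      · apply ContinuousOn.intervalIntegrable
        rw [uIcc_of_le hy2.le]
        exact hcu
    have hcs := cs_int hy2 hcu
    rw [hftc, hy3] at hcs
    -- the right hand side
    have e1 : ∫ u in y..x, (h1 (u, τ) * p * g (u, τ) ^ (p - 1)) ^ 2 =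
        p ^ 2 * ∫ u in y..x, D.indicator (Fd (n - 4) g h1) (u, τ) := by
      rw [← intervalIntegral.integral_const_mul]
      apply intervalIntegral.integral_congr
      intro u hu
      rw [uIcc_of_le hy2.le] at hu
      simp only
      rw [indicator_of_mem (hDu u hu)]
      have hgu := F.g_pos _ (hDu u hu)
      unfold Fd
      have e2 : g (u, τ) ^ (n - 4) = (g (u, τ) ^ (p - 1)) ^ 2 := by
        rw [← Real.rpow_natCast (g (u, τ) ^ (p - 1)) 2, ← Real.rpow_mul hgu.le]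
        congr 1
        rw [hp]
        push_cast
        ring
      rw [e2]
      ring
    have e3 : ∫ u in y..x, D.indicator (Fd (n - 4) g h1) (u, τ) ≤ k τ := by
      rw [intervalIntegral.integral_of_le hy2.le, hk]
      unfold eV
      rw [inter_univ]
      apply setIntegral_mono_set hint
      · exact Eventually.of_forall (fun u => indicator_nonneg hFd _)
      · exact Eventually.of_forall (fun u hu =>
          ⟨hst.1.trans (hy1.trans hu.1), hu.2.trans hxm.2⟩)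
    -- the left hand side
    have e4 : g (x, τ) ^ p / 4 ≤ g (x, τ) ^ p - (g (x, τ) / 2) ^ p := by
      rw [Real.div_rpow hv.le (by norm_num)]
      have h5 : (4 : ℝ) / 3 ≤ 2 ^ p := by
        have h6 : (2 : ℝ) ^ ((1 : ℝ) / 2) ≤ 2 ^ p :=
          Real.rpow_le_rpow_of_exponent_le (by norm_num) hp1
        rw [← Real.sqrt_eq_rpow] at h6
        have h7 : (4 : ℝ) / 3 ≤ Real.sqrt 2 := by
          apply Real.le_sqrt_of_sq_le
          norm_num
        exact h7.trans h6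
      have hvp : 0 < g (x, τ) ^ p := Real.rpow_pos_of_pos hv p
      have h8 : g (x, τ) ^ p / 2 ^ p ≤ g (x, τ) ^ p * (3 / 4) := by
        rw [div_le_iff₀ (by positivity)]
        nlinarith only [hvp, h5]
      linarith
    have e5 : (g (x, τ) ^ p / 4) ^ 2 ≤ (x - y) * (p ^ 2 * k τ) := by
      have hvp : 0 < g (x, τ) ^ p := Real.rpow_pos_of_pos hv p
      refine (pow_le_pow_left₀ (by positivity) e4 2).trans (hcs.trans ?_)
      rw [e1]
      apply mul_le_mul_of_nonneg_left _ (by linarith)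
      exact mul_le_mul_of_nonneg_left e3 (sq_nonneg _)
    have e6 : (g (x, τ) ^ p) ^ 2 * g (x, τ) = g (x, τ) ^ (n - 1) := by
      rw [← Real.rpow_natCast (g (x, τ) ^ p) 2, ← Real.rpow_mul hv.le]
      nth_rewrite 2 [← Real.rpow_one (g (x, τ))]
      rw [← Real.rpow_add hv]
      congr 1
      rw [hp]
      push_cast
      ring
    have hm0 : 0 ≤ mF x0 x1 t1 t2 g (x, τ) := F.mF_nonneg (z := (x, τ)) hxm.1
    have e7 : g (x, τ) ^ (n - 1) ≤ C * k τ * mF x0 x1 t1 t2 g (x, τ) := by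
      rw [← e6]
      have h9 : (g (x, τ) ^ p) ^ 2 * g (x, τ) ≤ 16 * ((x - y) * (p ^ 2 * k τ)) * g (x, τ) := by
        apply mul_le_mul_of_nonneg_right _ hv.le
        linarith [e5, show (g (x, τ) ^ p / 4) ^ 2 = (g (x, τ) ^ p) ^ 2 / 16 by ring]
      have h10 : 32 * (p ^ 2 * k τ) * (g (x, τ) / 2 * (x - y)) ≤
          32 * (p ^ 2 * k τ) * mF x0 x1 t1 t2 g (x, τ) := by
        apply mul_le_mul_of_nonneg_left hm
        have := hk0 τ
        positivity
      have h11 : C = 32 * p ^ 2 := by rw [hC, hp]; ring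
      rw [h11]
      nlinarith only [h10, h9]
    calc g (x, τ) ^ (n - 1) ≤ C * k τ * mF x0 x1 t1 t2 g (x, τ) := e7
      _ = C * k τ * (1 * mF x0 x1 t1 t2 g (x, τ)) := by ring
      _ ≤ C * k τ * ((1 + |Real.log (mF x0 x1 t1 t2 g (x, τ))|) *
        mF x0 x1 t1 t2 g (x, τ)) := by
          apply mul_le_mul_of_nonneg_left _ (mul_nonneg (by linarith) (hk0 τ))
          apply mul_le_mul_of_nonneg_right _ hm0
          have := abs_nonneg (Real.log (mF x0 x1 t1 t2 g (x, τ)))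
          linarith
  · intro B hB θ hθ
    refine ⟨min 1 (θ / (16 * B ^ 2)), lt_min one_pos (by positivity), ?_⟩
    intro ε hε hεlt Fc φ1 φ2 H
    have hε1 : ε < 1 := hεlt.trans_le (min_le_left _ _)
    have hεA : ε < θ / (16 * B ^ 2) := hεlt.trans_le (min_le_right _ _)
    rw [lt_div_iff₀ (by positivity)] at hεA
    filter_upwards [ae_restrict_mem measurableSet_Ioc, tail_ae hD hgr] with τ hτ' hint
    have hτ : τ ∈ Icc t1 t2 := ⟨hτ'.1.le, hτ'.2⟩
    have cA : Continuous (fun x => φ2 (g (cl x0 x1 t1 t2 (x, τ))) ^ 2 *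
        (g (cl x0 x1 t1 t2 (x, τ)) ^ n * h1 (cl x0 x1 t1 t2 (x, τ)) ^ 2)) := by
      have c1 : Continuous (fun z => φ2 (g (cl x0 x1 t1 t2 z)) ^ 2 *
          (g (cl x0 x1 t1 t2 z) ^ n * h1 (cl x0 x1 t1 t2 z) ^ 2)) := by
        apply F.clCont (G := fun z => φ2 (g z) ^ 2 * (g z ^ n * h1 z ^ 2))
        apply F.cutCont hε (φ := fun v => φ2 v ^ 2) (H.c2.pow 2)
        · intro v hv
          show φ2 v ^ 2 = 0
          rw [(H.z v hv).2.2]
          norm_num
        · apply ContinuousOn.mul _ (F.h1_cont.pow 2)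
          apply (F.g_cont.mono hDW).rpow_const
          exact fun z hz => Or.inl (F.g_pos z hz).ne'
      exact c1.comp (show Continuous fun y : ℝ => (y, τ) by fun_prop)
    have hpt : ∀ x ∈ Ioc x0 x1, φ2 (g (cl x0 x1 t1 t2 (x, τ))) ^ 2 *
        (g (cl x0 x1 t1 t2 (x, τ)) ^ n * h1 (cl x0 x1 t1 t2 (x, τ)) ^ 2) ≤
        16 * B ^ 2 * ε ^ 2 * D.indicator (Fd (n - 4) g h1) (x, τ) := by
      intro x hxm'
      have hxm : x ∈ Icc x0 x1 := ⟨hxm'.1.le, hxm'.2⟩
      have hnn : 0 ≤ 16 * B ^ 2 * ε ^ 2 * D.indicator (Fd (n - 4) g h1) (x, τ) :=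
        mul_nonneg (by positivity) (indicator_nonneg hFd _)
      rw [cl_eq hxm hτ]
      rcases le_or_gt (g (x, τ)) ε with hle | hgt
      · rw [(H.z _ hle).2.2, zero_pow (by norm_num), zero_mul]
        exact hnn
      rcases le_or_gt (2 * ε) (g (x, τ)) with hge | hlt
      · rw [H.z2 _ hge, zero_pow (by norm_num), zero_mul]
        exact hnn
      have hDx : (x, τ) ∈ D := by
        by_contra hcon
        have h0 := F.g_zero _ (F.R_sub x hxm τ hτ) hcon
        rw [h0] at hgt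
        linarith
      have hg0 : 0 < g (x, τ) := F.g_pos _ hDx
      rw [indicator_of_mem hDx]
      unfold Fd
      have h2 : φ2 (g (x, τ)) ^ 2 ≤ (B / ε) ^ 2 := by
        rw [← sq_abs]
        exact pow_le_pow_left₀ (abs_nonneg _) (H.b2 _) 2
      have h3' : g (x, τ) ^ n = g (x, τ) ^ 4 * g (x, τ) ^ (n - 4) := by
        rw [← Real.rpow_natCast (g (x, τ)) 4, ← Real.rpow_add hg0]
        congr 1
        push_cast
        ring
      have h4 : g (x, τ) ^ 4 ≤ (2 * ε) ^ 4 := pow_le_pow_left₀ hg0.le hlt.le 4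
      have hgn : 0 ≤ g (x, τ) ^ (n - 4) := Real.rpow_nonneg hg0.le _
      rw [h3']
      calc φ2 (g (x, τ)) ^ 2 * (g (x, τ) ^ 4 * g (x, τ) ^ (n - 4) * h1 (x, τ) ^ 2) ≤
          (B / ε) ^ 2 * ((2 * ε) ^ 4 * g (x, τ) ^ (n - 4) * h1 (x, τ) ^ 2) := by
            apply mul_le_mul h2 _ (by positivity) (by positivity)
            apply mul_le_mul_of_nonneg_right _ (sq_nonneg _)
            exact mul_le_mul_of_nonneg_right h4 hgn
        _ = 16 * B ^ 2 * ε ^ 2 * (g (x, τ) ^ (n - 4) * h1 (x, τ) ^ 2) := by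
            field_simp
            ring
    rw [intervalIntegral.integral_of_le hx.le]
    have h5 : ∫ x in Ioc x0 x1, φ2 (g (cl x0 x1 t1 t2 (x, τ))) ^ 2 *
        (g (cl x0 x1 t1 t2 (x, τ)) ^ n * h1 (cl x0 x1 t1 t2 (x, τ)) ^ 2) ≤
        ∫ x in Ioc x0 x1, 16 * B ^ 2 * ε ^ 2 * D.indicator (Fd (n - 4) g h1) (x, τ) :=
      setIntegral_mono_on cA.integrableOn_Ioc (hint.const_mul _) measurableSet_Ioc hpt
    refine h5.trans ?_
    rw [integral_const_mul]
    have h6 : ∫ x in Ioc x0 x1, D.indicator (Fd (n - 4) g h1) (x, τ) = k τ := by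
      rw [hk]
      unfold eV
      rw [inter_univ]
    rw [h6]
    have hkτ := hk0 τ
    have h7 : 16 * B ^ 2 * ε ^ 2 ≤ θ * C := by
      have h8 : ε ^ 2 ≤ ε := by nlinarith only [hε1, hε]
      have h9 : 16 * B ^ 2 * ε ^ 2 ≤ 16 * B ^ 2 * ε := mul_le_mul_of_nonneg_left h8 (by positivity)
      nlinarith only [hεA, hε1, hε, hθ, hC1]
    calc 16 * B ^ 2 * ε ^ 2 * k τ ≤ θ * C * k τ := mul_le_mul_of_nonneg_right h7 hkτ
      _ = θ * (C * k τ) := by ring

end Pool.Agent.Q81.TF
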