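import Pool.Agent.Q81.TF.Step

open Set MeasureTheory Filter Topology

namespace Pool.Agent.Q81.TF

variable {n a0 a E : ℝ} {f f1 f2 f3 : ℝ → ℝ}

/-- the error of one step -/
noncomputable def Xf (n κ β E v : ℝ) : ℝ := 16384 * E * v ^ 3 / (κ * v ^ β) ^ n

theorem Xf_nonneg {n κ β E v : ℝ} (hE : 0 ≤ E) (hκ : 0 < κ) (hv : 0 < v) :
    0 ≤ Xf n κ β E v := by
  unfold Xf
  positivity

theorem Xf_eq {n κ β E v : ℝ} (hκ : 0 < κ) (hv : 0 < v) :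
    Xf n κ β E v = 16384 * E * κ ^ (-n) * v ^ (3 - n * β) := by
  unfold Xf
  have h1 : 0 ≤ v ^ β := Real.rpow_nonneg hv.le _
  rw [Real.mul_rpow hκ.le h1, ← Real.rpow_mul hv.le, Real.rpow_neg hκ.le, Real.rpow_sub hv,
    mul_comm β n]
  have h2 : v ^ (3 : ℝ) = v ^ 3 := by exact_mod_cast Real.rpow_natCast v 3
  rw [h2]
  have h3 : 0 < v ^ (n * β) := Real.rpow_pos_of_pos hv _
  have h4 : 0 < κ ^ n := Real.rpow_pos_of_pos hκ _
  field_simp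

theorem Xf_mono {n κ β E v v' : ℝ} (hE : 0 ≤ E) (hκ : 0 < κ) (hv : 0 < v) (hvv : v ≤ v')
    (hnβ : 3 ≤ n * β) : Xf n κ β E v' ≤ Xf n κ β E v := by
  rw [Xf_eq hκ hv, Xf_eq hκ (hv.trans_le hvv)]
  apply mul_le_mul_of_nonneg_left _ (by positivity)
  exact Real.rpow_le_rpow_of_nonpos hv hvv (by linarith)

theorem Prof.step (P : Prof n a0 a E f f1 f2 f3) (hn : 0 ≤ n) {κ β v A P0 B0 p' : ℝ}
    (hκ : 0 < κ) (hκ1 : κ ≤ 1) (hβ : 1 ≤ β) (hN : Neck κ β a0 a f)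
    (hv : 0 < v) (hv1 : 2 * v ≤ 1) (hva : 2 * v ≤ f a)
    (hA2 : 2 * P0 ≤ A) (hA3 : 4 + 4 * B0 ≤ A)
    (hP0 : |f1 a| ≤ P0) (hB0 : |f2 a| ≤ B0)
    (hp' : ∀ x ∈ Ioc a0 a, (∃ y ∈ Ioc a0 x, 2 * v ≤ f y) → |f1 x| ≤ p') :
    ∀ x ∈ Ioc a0 a, (∃ y ∈ Ioc a0 x, v ≤ f y) →
      |f1 x| ≤ p' + (A + (Xf n κ β E v) ^ ((1 : ℝ) / 5)) := by
  have hE := P.E_nonneg
  obtain ⟨xv, hxv, hfxv, hltv⟩ := P.first hv (by linarith)
  obtain ⟨x2, hx2, hfx2, hlt2⟩ := P.first (show 0 < 2 * v by linarith) hva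
  have hw : 0 < κ * v ^ β := mul_pos hκ (Real.rpow_pos_of_pos hv _)
  have hlow := P.low hκ hκ1 hβ hN hv (by linarith) (by linarith) hxv hfxv.ge
  obtain ⟨w, hwdef⟩ : ∃ w, w = κ * v ^ β := ⟨_, rfl⟩
  have hwn : 0 < w ^ n := by
    rw [hwdef]
    exact Real.rpow_pos_of_pos hw n
  have hX0 := Xf_nonneg (n := n) (β := β) hE hκ hv
  obtain ⟨Y, hY⟩ : ∃ Y, Y = (Xf n κ β E v) ^ ((1 : ℝ) / 5) := ⟨_, rfl⟩
  have hY0 : 0 ≤ Y := by
    rw [hY]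
    exact Real.rpow_nonneg hX0 _
  have hY5 : Y ^ 5 = Xf n κ β E v := by
    rw [hY, ← Real.rpow_natCast, ← Real.rpow_mul hX0]
    norm_num
  have hXw : Xf n κ β E v * w ^ n = 16384 * E * v ^ 3 := by
    unfold Xf
    rw [← hwdef]
    field_simp
  rw [← hY]
  rw [← hwdef] at hw hlow
  have hc1 : ContinuousOn f1 (Icc xv a) := fun x hx =>
    (P.d1 x ⟨hxv.1.trans_le hx.1, hx.2⟩).continuousAt.continuousWithinAt
  obtain ⟨x0, hx0, hmax⟩ := isCompact_Icc.exists_isMaxOn (nonempty_Icc.2 hxv.2) hc1.abs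
  have hmax' : ∀ y ∈ Icc xv a, |f1 y| ≤ |f1 x0| := fun y hy => hmax hy
  intro x hx hxy
  have hxvx : xv ≤ x := by
    obtain ⟨y, hy, hfy⟩ := hxy
    by_contra hcon
    push Not at hcon
    have := hltv y ⟨hy.1, hy.2.trans_lt hcon⟩
    linarith
  refine (hmax' x ⟨hxvx, hx.2⟩).trans ?_
  by_contra hcon
  push Not at hcon
  obtain ⟨p, hp⟩ : ∃ p, p = |f1 x0| := ⟨_, rfl⟩
  rw [← hp] at hcon hmax'
  have hB00 : 0 ≤ B0 := (abs_nonneg _).trans hB0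
  have hp'0 : 0 ≤ p' := (abs_nonneg _).trans
    (hp' a ⟨P.lt, le_rfl⟩ ⟨a, ⟨P.lt, le_rfl⟩, hva⟩)
  have hx0a0 : a0 < x0 := hxv.1.trans_le hx0.1
  have hx02 : x0 < x2 := by
    by_contra hcon2
    push Not at hcon2
    have := hp' x0 ⟨hx0a0, hx0.2⟩ ⟨x2, ⟨hx2.1, hcon2⟩, hfx2.ge⟩
    rw [← hp] at this
    linarith
  have hfx0 : f x0 ≤ 2 * v := (hlt2 x0 ⟨hx0a0, hx02⟩).le
  have hx0a : x0 < a := hx02.trans_le hx2.2
  have hpp : 0 < p := by linarith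
  rcases le_or_gt 0 (f1 x0) with hs | hs
  · -- ascending
    rw [abs_of_nonneg hs] at hp
    have h1 := P.up hn (x0 := x0) (x2 := x2) (p := p) (v := v) (w := w) (δ := p - p') (B0 := B0)
      hx0a0 hx02 hx2.2 (by linarith) (by linarith) hp.symm
      (fun y hy => (le_abs_self _).trans (hmax' y ⟨hx0.1.trans hy.1, hy.2⟩))
      (by
        have := (le_abs_self _).trans (hp' x2 hx2 ⟨x2, ⟨hx2.1, le_rfl⟩, hfx2.ge⟩)
        linarith) hv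
      (by
        intro y hy
        rcases eq_or_lt_of_le hy.2 with h | h
        · rw [h, hfx2]
        · exact (hlt2 y ⟨hx0a0.trans hy.1, h⟩).le)
      hw (fun y hy => hlow y ⟨hx0.1.trans hy.1, hy.2⟩) hB0
      (by
        have h2 : A ≤ p - p' := by linarith
        have h3 : A ≤ p := by linarith
        have h4 : A * A ≤ (p - p') * p := mul_le_mul h2 h3 (by linarith) (by linarith)
        nlinarith only [hp'0, hB00, hcon, hY0, hA3, hv1])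
    have h2 : (p - p') ^ 5 ≤ Y ^ 5 := by
      rw [hY5]
      have h3 : (p - p') ^ 5 * w ^ n ≤ Xf n κ β E v * w ^ n := by
        rw [hXw]
        exact h1
      exact le_of_mul_le_mul_right h3 hwn
    have h3 : p - p' ≤ Y := le_of_pow_le_pow_left₀ (by norm_num) hY0 h2
    linarith
  · -- descending
    have hxvx0 : xv < x0 := by
      rcases eq_or_lt_of_le hx0.1 with h | h
      · have := P.first_slope hxv hfxv hltv
        rw [h] at this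
        linarith
      · exact h
    rw [abs_of_neg hs] at hp
    have hloc : IsLocalMin f1 x0 := by
      have hmem : Icc xv a ∈ 𝓝 x0 := Icc_mem_nhds hxvx0 hx0a
      filter_upwards [hmem] with y hy
      have := neg_le_of_abs_le (hmax' y hy)
      linarith
    have hf2 : f2 x0 = 0 := hloc.hasDerivAt_eq_zero (P.d1 x0 ⟨hx0a0, hx0a.le⟩)
    have h1 := P.down hn (x0 := x0) (p := p) (v := v) (w := w) (P0 := P0) hx0a0 hx0a hpp
      (by linarith) hf2 hfx0 hw (fun y hy => hlow y ⟨hx0.1.trans hy.1, hy.2⟩) hP0 (by linarith)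
    have h2 : p ^ 5 ≤ Y ^ 5 := by
      rw [hY5]
      have h3 : p ^ 5 * w ^ n ≤ Xf n κ β E v * w ^ n := by
        rw [hXw]
        have : 0 ≤ E * v ^ 3 := by positivity
        linarith
      exact le_of_mul_le_mul_right h3 hwn
    have h3 : p ≤ Y := le_of_pow_le_pow_left₀ (by norm_num) hY0 h2
    linarith

theorem Prof.iter (P : Prof n a0 a E f f1 f2 f3) (hn : 0 ≤ n) {κ β c A P0 B0 : ℝ}
    (hκ : 0 < κ) (hκ1 : κ ≤ 1) (hβ : 1 ≤ β) (hnβ : 3 ≤ n * β) (hN : Neck κ β a0 a f)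
    (hc : 0 < c) (hc1 : c ≤ 1) (hca : c ≤ f a)
    (hA2 : 2 * P0 ≤ A) (hA3 : 4 + 4 * B0 ≤ A)
    (hP0 : ∀ x ∈ Ioc a0 a, κ * c ^ β ≤ f x → |f1 x| ≤ P0) (hB0 : |f2 a| ≤ B0) (k : ℕ) :
    ∀ x ∈ Ioc a0 a, (∃ y ∈ Ioc a0 x, c / 2 ^ k ≤ f y) →
      |f1 x| ≤ P0 + k * (A + (Xf n κ β E (c / 2 ^ k)) ^ ((1 : ℝ) / 5)) := by
  have hE := P.E_nonneg
  have hlowa : κ * c ^ β ≤ f a :=
    P.low hκ hκ1 hβ hN hc hc1 hca ⟨P.lt, le_rfl⟩ hca a ⟨le_rfl, le_rfl⟩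
  induction k with
  | zero =>
    intro x hx hxy
    obtain ⟨y, hy, hfy⟩ := hxy
    rw [pow_zero, div_one] at hfy
    have h1 := P.low hκ hκ1 hβ hN hc hc1 hca (xv := y) ⟨hy.1, hy.2.trans hx.2⟩ hfy x ⟨hy.2, hx.2⟩
    have h2 := hP0 x hx h1
    simpa using h2
  | succ k ih =>
    have hv : 0 < c / 2 ^ (k + 1) := by positivity
    have h2v : 2 * (c / 2 ^ (k + 1)) = c / 2 ^ k := by
      rw [pow_succ]
      field_simp
    have h2vc : 2 * (c / 2 ^ (k + 1)) ≤ c := by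
      rw [h2v]
      exact div_le_self hc.le (one_le_pow₀ (by norm_num))
    intro x hx hxy
    have h3 := P.step hn hκ hκ1 hβ hN hv (h2vc.trans hc1) (h2vc.trans hca) hA2 hA3
      (hP0 a ⟨P.lt, le_rfl⟩ hlowa) hB0 (p' := P0 + k * (A + (Xf n κ β E (c / 2 ^ k)) ^ ((1 : ℝ) / 5)))
      (by
        rw [h2v]
        exact ih) x hx hxy
    have h4 : (Xf n κ β E (c / 2 ^ k)) ^ ((1 : ℝ) / 5) ≤
        (Xf n κ β E (c / 2 ^ (k + 1))) ^ ((1 : ℝ) / 5) := by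
      apply Real.rpow_le_rpow (Xf_nonneg hE hκ (by positivity)) _ (by norm_num)
      apply Xf_mono hE hκ hv _ hnβ
      rw [← h2v]
      linarith
    have h5 : (k : ℝ) * (A + (Xf n κ β E (c / 2 ^ k)) ^ ((1 : ℝ) / 5)) ≤
        k * (A + (Xf n κ β E (c / 2 ^ (k + 1))) ^ ((1 : ℝ) / 5)) :=
      mul_le_mul_of_nonneg_left (by linarith) (Nat.cast_nonneg k)
    push_cast
    linarith

end Pool.Agent.Q81.TF
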