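import Pool.Agent.Q81.TF.Dyn

open Set MeasureTheory Filter Topology

namespace Pool.Agent.Q81.TF

variable {n x0 x1 t1 t2 : ℝ} {W D : Set (ℝ × ℝ)} {s : ℝ → ℝ} {g h1 h3 ht : ℝ × ℝ → ℝ}
variable {B ε : ℝ} {Fc φ1 φ2 : ℝ → ℝ} {B' μ m0 : ℝ} {Ω ω : ℝ → ℝ}

theorem Flow.g_nonneg (F : Flow n x0 x1 t1 t2 W D s g h1 h3 ht) {z : ℝ × ℝ} (hz : z ∈ W) :
    0 ≤ g z := by
  by_cases h : z ∈ D
  · exact (F.g_pos z h).le
  · rw [F.g_zero z hz h]

theorem Flow.mE_nonneg (F : Flow n x0 x1 t1 t2 W D s g h1 h3 ht) (H : HCut B ε Fc φ1 φ2)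
    {z : ℝ × ℝ} (hz : x0 ≤ z.1) : 0 ≤ mE x0 x1 t1 t2 Fc g z := by
  unfold mE prim
  apply intervalIntegral.integral_nonneg hz
  intro y _
  exact H.lo _ (F.g_nonneg (F.cl_mem _))

/-- the rate of change -/
noncomputable def wE (n x0 x1 t1 t2 : ℝ) (Fc φ1 φ2 ω : ℝ → ℝ) (g h1 h3 : ℝ × ℝ → ℝ)
    (z : ℝ × ℝ) : ℝ :=
  ω (mE x0 x1 t1 t2 Fc g (cl x0 x1 t1 t2 z)) *
    (rE n x0 x1 t1 t2 φ2 g h1 h3 (cl x0 x1 t1 t2 z) -
      qE n x0 x1 t1 t2 φ1 g h3 (cl x0 x1 t1 t2 z))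

theorem Flow.wE_cont (F : Flow n x0 x1 t1 t2 W D s g h1 h3 ht) (hDW : D ⊆ W) (hε : 0 < ε)
    (H : HCut B ε Fc φ1 φ2) (MC : MCut B' μ m0 Ω ω) :
    Continuous (wE n x0 x1 t1 t2 Fc φ1 φ2 ω g h1 h3) := by
  unfold wE
  apply Continuous.mul
  · apply MC.c1.comp_continuous ((F.mE_cont H).comp (cl_cont _ _ _ _))
    intro z
    exact F.mE_nonneg H (cl_fst (t1 := t1) (t2 := t2) F.hx z).1
  · exact ((F.rE_cont hDW hε H).comp (cl_cont _ _ _ _)).sub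
      ((F.qE_cont hDW hε H).comp (cl_cont _ _ _ _))

/-- the functional -/
noncomputable def Jf (x0 x1 t1 t2 : ℝ) (Fc Ω : ℝ → ℝ) (g : ℝ × ℝ → ℝ) (t : ℝ) : ℝ :=
  ∫ x in x0..x1, Ω (mE x0 x1 t1 t2 Fc g (x, t))

theorem Flow.Omega_cont (F : Flow n x0 x1 t1 t2 W D s g h1 h3 ht)
    (H : HCut B ε Fc φ1 φ2) (MC : MCut B' μ m0 Ω ω) (t : ℝ) :
    ContinuousOn (fun x => Ω (mE x0 x1 t1 t2 Fc g (x, t))) (Icc x0 x1) := by
  have hΩ : ContinuousOn Ω (Ici 0) := fun m hm => (MC.d0 m hm).continuousAt.continuousWithinAt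
  apply hΩ.comp
  · exact ((F.mE_cont H).comp (show Continuous fun x : ℝ => (x, t) by fun_prop)).continuousOn
  · intro x hx
    exact F.mE_nonneg H hx.1

theorem Flow.J_diff (F : Flow n x0 x1 t1 t2 W D s g h1 h3 ht) (hDW : D ⊆ W) (hε : 0 < ε)
    (H : HCut B ε Fc φ1 φ2) (MC : MCut B' μ m0 Ω ω) :
    |Jf x0 x1 t1 t2 Fc Ω g t2 - Jf x0 x1 t1 t2 Fc Ω g t1| ≤
      ∫ τ in t1..t2, ∫ x in x0..x1, |wE n x0 x1 t1 t2 Fc φ1 φ2 ω g h1 h3 (x, τ)| := by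
  have cw := F.wE_cont hDW hε H MC
  have e1 : ∀ x ∈ Icc x0 x1, Ω (mE x0 x1 t1 t2 Fc g (x, t2)) - Ω (mE x0 x1 t1 t2 Fc g (x, t1)) =
      ∫ τ in t1..t2, wE n x0 x1 t1 t2 Fc φ1 φ2 ω g h1 h3 (x, τ) := by
    intro x hx
    symm
    have hΩ : ContinuousOn Ω (Ici 0) := fun m hm => (MC.d0 m hm).continuousAt.continuousWithinAt
    apply intervalIntegral.integral_eq_sub_of_hasDerivAt_of_le F.htt.le
      (f := fun τ => Ω (mE x0 x1 t1 t2 Fc g (x, τ)))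
    · apply hΩ.comp
      · exact ((F.mE_cont H).comp (show Continuous fun τ : ℝ => (x, τ) by fun_prop)).continuousOn
      · intro τ _
        exact F.mE_nonneg H hx.1
    · intro τ hτ
      have hτ' : τ ∈ Icc t1 t2 := ⟨hτ.1.le, hτ.2.le⟩
      have c1 : Continuous (fun τ => rE n x0 x1 t1 t2 φ2 g h1 h3 (x, τ) -
          qE n x0 x1 t1 t2 φ1 g h3 (x, τ)) :=
        ((F.rE_cont hDW hε H).comp (show Continuous fun τ : ℝ => (x, τ) by fun_prop)).sub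
          ((F.qE_cont hDW hε H).comp (show Continuous fun τ : ℝ => (x, τ) by fun_prop))
      have d1 := (c1.integral_hasStrictDerivAt t1 τ).hasDerivAt
      have d2 : HasDerivAt (fun τ => mE x0 x1 t1 t2 Fc g (x, τ))
          (rE n x0 x1 t1 t2 φ2 g h1 h3 (x, τ) - qE n x0 x1 t1 t2 φ1 g h3 (x, τ)) τ := by
        apply (d1.const_add (mE x0 x1 t1 t2 Fc g (x, t1))).congr_of_eventuallyEq
        filter_upwards [Icc_mem_nhds hτ.1 hτ.2] with u hu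
        exact F.mass_evol hDW hε H hx hu
      have d3 := (MC.d0 (mE x0 x1 t1 t2 Fc g (x, τ)) (F.mE_nonneg H hx.1)).comp τ d2
      unfold wE
      rw [cl_eq hx hτ']
      exact d3
    · exact (cw.comp (show Continuous fun τ : ℝ => (x, τ) by fun_prop)).intervalIntegrable _ _
  have e2 : Jf x0 x1 t1 t2 Fc Ω g t2 - Jf x0 x1 t1 t2 Fc Ω g t1 =
      ∫ x in x0..x1, ∫ τ in t1..t2, wE n x0 x1 t1 t2 Fc φ1 φ2 ω g h1 h3 (x, τ) := by
    unfold Jf
    have i1 : IntervalIntegrable (fun x => Ω (mE x0 x1 t1 t2 Fc g (x, t2))) volume x0 x1 := by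
      apply ContinuousOn.intervalIntegrable
      rw [uIcc_of_le F.hx.le]
      exact F.Omega_cont H MC t2
    have i2 : IntervalIntegrable (fun x => Ω (mE x0 x1 t1 t2 Fc g (x, t1))) volume x0 x1 := by
      apply ContinuousOn.intervalIntegrable
      rw [uIcc_of_le F.hx.le]
      exact F.Omega_cont H MC t1
    rw [← intervalIntegral.integral_sub i1 i2]
    apply intervalIntegral.integral_congr
    intro x hx
    rw [uIcc_of_le F.hx.le] at hx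
    exact e1 x hx
  have e3 : ∫ x in x0..x1, ∫ τ in t1..t2, wE n x0 x1 t1 t2 Fc φ1 φ2 ω g h1 h3 (x, τ) =
      ∫ τ in t1..t2, ∫ x in x0..x1, wE n x0 x1 t1 t2 Fc φ1 φ2 ω g h1 h3 (x, τ) := by
    apply intervalIntegral_intervalIntegral_swap
      (F := fun x τ => wE n x0 x1 t1 t2 Fc φ1 φ2 ω g h1 h3 (x, τ))
    apply IntegrableOn.mono_set (t := uIcc x0 x1 ×ˢ uIcc t1 t2)
    · exact ContinuousOn.integrableOn_compact (isCompact_uIcc.prod isCompact_uIcc) cw.continuousOn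
    · exact prod_mono uIoc_subset_uIcc uIoc_subset_uIcc
  rw [e2, e3]
  have c2 : Continuous (fun τ => ∫ x in x0..x1, wE n x0 x1 t1 t2 Fc φ1 φ2 ω g h1 h3 (x, τ)) := by
    apply intervalIntegral.continuous_parametric_intervalIntegral_of_continuous'
      (f := fun τ x => wE n x0 x1 t1 t2 Fc φ1 φ2 ω g h1 h3 (x, τ))
    exact cw.comp (by fun_prop)
  have c3 : Continuous (fun τ => ∫ x in x0..x1, |wE n x0 x1 t1 t2 Fc φ1 φ2 ω g h1 h3 (x, τ)|) := by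
    apply intervalIntegral.continuous_parametric_intervalIntegral_of_continuous'
      (f := fun τ x => |wE n x0 x1 t1 t2 Fc φ1 φ2 ω g h1 h3 (x, τ)|)
    exact (cw.abs).comp (by fun_prop)
  refine (intervalIntegral.abs_integral_le_integral_abs F.htt.le).trans ?_
  apply intervalIntegral.integral_mono_on F.htt.le (c2.abs.intervalIntegrable _ _)
    (c3.intervalIntegrable _ _)
  intro τ _
  exact intervalIntegral.abs_integral_le_integral_abs F.hx.le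

end Pool.Agent.Q81.TF
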