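import Pool.Agent.Q81.TF.ZeroFlux

open Set MeasureTheory Filter Topology

namespace Pool.Agent.Q81.TF

variable {n x0 x1 t1 t2 : ℝ} {W D : Set (ℝ × ℝ)} {s : ℝ → ℝ} {g h1 h2 h3 ht : ℝ × ℝ → ℝ}

/-- the flow on a smaller rectangle -/
theorem Flow.restrict (F : Flow n x0 x1 t1 t2 W D s g h1 h3 ht) {x t' t'' : ℝ} (hx : x ∈ Icc x0 x1)
    (h1' : t1 ≤ t') (h12 : t' < t'') (h2' : t'' ≤ t2) (hs : ∀ τ ∈ Icc t' t'', s τ < x) :
    Flow n x0 x t' t'' W D s g h1 h3 ht := by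
  have hsub : ∀ τ ∈ Icc t' t'', τ ∈ Icc t1 t2 := fun τ hτ => ⟨h1'.trans hτ.1, hτ.2.trans h2'⟩
  have ht' : t' ∈ Icc t' t'' := ⟨le_rfl, h12.le⟩
  exact {
    hx := (F.s_mem t' (hsub t' ht')).1.trans (hs t' ht')
    htt := h12
    W_open := F.W_open
    D_open := F.D_open
    R_sub := fun y hy τ hτ => F.R_sub y ⟨hy.1, hy.2.trans hx.2⟩ τ (hsub τ hτ)
    D_iff := fun y hy τ hτ => F.D_iff y ⟨hy.1, hy.2.trans hx.2⟩ τ (hsub τ hτ)
    s_mem := fun τ hτ => ⟨(F.s_mem τ (hsub τ hτ)).1, hs τ hτ⟩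
    g_cont := F.g_cont
    g_pos := F.g_pos
    g_zero := F.g_zero
    h1_cont := F.h1_cont
    h3_cont := F.h3_cont
    ht_cont := F.ht_cont
    d_x := F.d_x
    d_t := F.d_t
    d_q := F.d_q }

theorem Flow.mF_int (F : Flow n x0 x1 t1 t2 W D s g h1 h3 ht) {x t : ℝ} (hx : x ∈ Icc x0 x1)
    (htm : t ∈ Icc t1 t2) : mF x0 x1 t1 t2 g (x, t) = ∫ y in x0..x, g (y, t) := by
  unfold mF prim
  simp only
  apply intervalIntegral.integral_congr
  intro y hy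
  rw [uIcc_of_le hx.1] at hy
  simp only
  rw [cl_eq ⟨hy.1, hy.2.trans hx.2⟩ htm]

/-- the flux -/
noncomputable def Jx (n : ℝ) (g h3 : ℝ × ℝ → ℝ) (z : ℝ × ℝ) : ℝ := g z ^ n * h3 z

theorem Flow.label_diff (F : Flow n x0 x1 t1 t2 W D s g h1 h3 ht) (J : Jet D h1 h2 h3)
    (hDW : D ⊆ W) (hn : 3 ≤ n)
    (hfin : IntegrableOn (Fd n g h3) (D ∩ Ioc x0 x1 ×ˢ Ioc t1 t2)) {x t' t'' : ℝ}
    (hx : x ∈ Icc x0 x1)
    (h1' : t1 ≤ t') (h12 : t' ≤ t'') (h2' : t'' ≤ t2) (hs : ∀ τ ∈ Icc t' t'', s τ < x) :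
    mF x0 x1 t1 t2 g (x, t'') - mF x0 x1 t1 t2 g (x, t') = -∫ τ in t'..t'', Jx n g h3 (x, τ) := by
  rcases eq_or_lt_of_le h12 with h | h
  · rw [h]
    simp
  have F' := F.restrict hx h1' h h2' hs
  have hfin' : IntegrableOn (Fd n g h3) (D ∩ Ioc x0 x ×ˢ Ioc t' t'') :=
    hfin.mono_set (inter_subset_inter_right _ (prod_mono (Ioc_subset_Ioc_right hx.2)
      (Ioc_subset_Ioc h1' h2')))
  have h3 := (F'.mono_and_mass J hDW hn hfin').2
  have hx' : x ∈ Icc x0 x := ⟨hx.1, le_rfl⟩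
  rw [F'.mF_int hx' ⟨h12, le_rfl⟩, F'.mF_int hx' ⟨le_rfl, h12⟩] at h3
  rw [F.mF_int hx ⟨h1'.trans h12, h2'⟩, F.mF_int hx ⟨h1', h12.trans h2'⟩]
  exact h3

/-- the derivative of the label in time -/
theorem Flow.label_dt (F : Flow n x0 x1 t1 t2 W D s g h1 h3 ht) (J : Jet D h1 h2 h3)
    (hDW : D ⊆ W) (hn : 3 ≤ n)
    (hfin : IntegrableOn (Fd n g h3) (D ∩ Ioc x0 x1 ×ˢ Ioc t1 t2)) {x t : ℝ} (hx : x ∈ Icc x0 x1)
    (htm : t ∈ Ioo t1 t2) (hD : (x, t) ∈ D) :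
    HasDerivAt (fun τ => mF x0 x1 t1 t2 g (x, τ)) (-(Jx n g h3 (x, t))) t := by
  have hopen : IsOpen {τ : ℝ | (x, τ) ∈ D} :=
    F.D_open.preimage (show Continuous fun τ : ℝ => (x, τ) by fun_prop)
  have hnh : {τ : ℝ | (x, τ) ∈ D} ∩ Ioo t1 t2 ∈ 𝓝 t :=
    inter_mem (hopen.mem_nhds hD) (Ioo_mem_nhds htm.1 htm.2)
  obtain ⟨r, hr, hr'⟩ := Metric.mem_nhds_iff.1 hnh
  have hball : ∀ τ ∈ Ioo (t - r) (t + r), (x, τ) ∈ D ∧ τ ∈ Ioo t1 t2 := by
    intro τ hτ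
    have h1 := hr' (show τ ∈ Metric.ball t r by
      rw [Metric.mem_ball, Real.dist_eq, abs_lt]
      constructor <;> linarith [hτ.1, hτ.2])
    exact ⟨h1.1, h1.2⟩
  have hJc : ContinuousOn (fun τ => Jx n g h3 (x, τ)) (Ioo (t - r) (t + r)) :=
    (F.powCont hDW).comp (show Continuous fun τ : ℝ => (x, τ) by fun_prop).continuousOn
      (fun τ hτ => (hball τ hτ).1)
  have htr : t ∈ Ioo (t - r) (t + r) := ⟨by linarith, by linarith⟩
  have hJat : ContinuousAt (fun τ => Jx n g h3 (x, τ)) t :=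
    hJc.continuousAt (Ioo_mem_nhds htr.1 htr.2)
  have hmeas : StronglyMeasurableAtFilter (fun τ => Jx n g h3 (x, τ)) (𝓝 t) :=
    hJc.stronglyMeasurableAtFilter isOpen_Ioo t htr
  have hd := intervalIntegral.integral_hasDerivAt_right
    (f := fun τ => Jx n g h3 (x, τ)) (a := t) (b := t) (by simp) hmeas hJat
  have hd2 := (hd.neg).const_add (mF x0 x1 t1 t2 g (x, t))
  apply hd2.congr_of_eventuallyEq
  filter_upwards [Ioo_mem_nhds htr.1 htr.2] with u hu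
  have hsl : ∀ τ ∈ Ioo (t - r) (t + r), s τ < x := fun τ hτ =>
    (F.D_iff x hx τ ⟨(hball τ hτ).2.1.le, (hball τ hτ).2.2.le⟩).1 (hball τ hτ).1
  rcases le_total t u with h | h
  · have h4 := F.label_diff J hDW hn hfin hx htm.1.le h (hball u hu).2.2.le
      (fun τ hτ => hsl τ ⟨by linarith [hτ.1], by linarith [hτ.2, hu.2]⟩)
    show mF x0 x1 t1 t2 g (x, u) = mF x0 x1 t1 t2 g (x, t) + -∫ τ in t..u, Jx n g h3 (x, τ)
    linarith
  · have h4 := F.label_diff J hDW hn hfin hx (hball u hu).2.1.le h htm.2.le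
      (fun τ hτ => hsl τ ⟨by linarith [hτ.1, hu.1], by linarith [hτ.2]⟩)
    show mF x0 x1 t1 t2 g (x, u) = mF x0 x1 t1 t2 g (x, t) + -∫ τ in t..u, Jx n g h3 (x, τ)
    rw [intervalIntegral.integral_symm t u] at h4
    linarith

theorem Flow.label_dx (F : Flow n x0 x1 t1 t2 W D s g h1 h3 ht) {x t : ℝ} (hx : x ∈ Icc x0 x1)
    (htm : t ∈ Icc t1 t2) :
    HasDerivAt (fun y => mF x0 x1 t1 t2 g (y, t)) (g (x, t)) x := by
  have cG : Continuous (fun z => g (cl x0 x1 t1 t2 z)) := F.clCont F.g_cont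
  have cg : Continuous (fun x => g (cl x0 x1 t1 t2 (x, t))) :=
    cG.comp (show Continuous fun y : ℝ => (y, t) by fun_prop)
  have h1 := (cg.integral_hasStrictDerivAt x0 x).hasDerivAt
  rw [cl_eq hx htm] at h1
  exact h1

theorem Flow.mF_zero (F : Flow n x0 x1 t1 t2 W D s g h1 h3 ht) {x t : ℝ} (hx : x ∈ Icc x0 x1)
    (htm : t ∈ Icc t1 t2) (hD : (x, t) ∉ D) : mF x0 x1 t1 t2 g (x, t) = 0 := by
  rw [F.mF_int hx htm]
  have h1 : ∫ y in x0..x, g (y, t) = ∫ _y in x0..x, (0 : ℝ) := by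
    apply intervalIntegral.integral_congr
    intro y hy
    rw [uIcc_of_le hx.1] at hy
    have hy' : y ∈ Icc x0 x1 := ⟨hy.1, hy.2.trans hx.2⟩
    simp only
    apply F.g_zero _ (F.R_sub y hy' t htm)
    rw [F.D_iff y hy' t htm]
    rw [F.D_iff x hx t htm] at hD
    push Not at hD ⊢
    exact hy.2.trans hD
  rw [h1, intervalIntegral.integral_zero]

/-- continuity of the functions which are cut in the label -/
theorem Flow.labCut (F : Flow n x0 x1 t1 t2 W D s g h1 h3 ht) {ε : ℝ} (hε : 0 < ε) {ψ : ℝ → ℝ}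
    (hψ : Continuous ψ) (hz : ∀ v, v ≤ ε → ψ v = 0) {u : ℝ × ℝ → ℝ} (hu : ContinuousOn u D) :
    ContinuousOn (fun z => ψ (mF x0 x1 t1 t2 g z) * u z) (Icc x0 x1 ×ˢ Icc t1 t2) := by
  rintro z ⟨hz1, hz2⟩
  have hmc : Continuous (mF x0 x1 t1 t2 g) := F.mF_cont
  apply ContinuousAt.continuousWithinAt
  by_cases h : z ∈ D
  · exact (hψ.continuousAt.comp hmc.continuousAt).mul (hu.continuousAt (F.D_open.mem_nhds h))
  · have h0 : mF x0 x1 t1 t2 g z = 0 := F.mF_zero (x := z.1) (t := z.2) hz1 hz2 h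
    have hev : (fun z => ψ (mF x0 x1 t1 t2 g z) * u z) =ᶠ[𝓝 z] fun _ => 0 := by
      have : ∀ᶠ y in 𝓝 z, mF x0 x1 t1 t2 g y < ε :=
        hmc.continuousAt.eventually_lt continuousAt_const (by rw [h0]; exact hε)
      filter_upwards [this] with y hy
      rw [hz _ hy.le, zero_mul]
    exact ContinuousAt.congr continuousAt_const hev.symm

/-- the derivative in time of the functions which are cut in the label -/
theorem Flow.labCut_dt (F : Flow n x0 x1 t1 t2 W D s g h1 h3 ht) (J : Jet D h1 h2 h3)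
    (hDW : D ⊆ W) (hn : 3 ≤ n)
    (hfin : IntegrableOn (Fd n g h3) (D ∩ Ioc x0 x1 ×ˢ Ioc t1 t2)) {ε : ℝ} (hε : 0 < ε)
    {ψ ψ1 : ℝ → ℝ} (hψ : ∀ v, HasDerivAt ψ (ψ1 v) v) (hz : ∀ v, v ≤ ε → ψ v = 0)
    (hz1 : ∀ v, v ≤ ε → ψ1 v = 0)
    {u ut : ℝ × ℝ → ℝ} (hu : ∀ z ∈ D, HasDerivAt (fun t => u (z.1, t)) (ut z) z.2)
    {x t : ℝ} (hx : x ∈ Icc x0 x1) (htm : t ∈ Ioo t1 t2) :
    HasDerivAt (fun τ => ψ (mF x0 x1 t1 t2 g (x, τ)) * u (x, τ))
      (-(ψ1 (mF x0 x1 t1 t2 g (x, t)) * (Jx n g h3 (x, t) * u (x, t))) +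
        ψ (mF x0 x1 t1 t2 g (x, t)) * ut (x, t)) t := by
  have htm' : t ∈ Icc t1 t2 := ⟨htm.1.le, htm.2.le⟩
  by_cases h : (x, t) ∈ D
  · have e1 := (hψ (mF x0 x1 t1 t2 g (x, t))).comp t (F.label_dt J hDW hn hfin hx htm h)
    have e2 := e1.mul (hu (x, t) h)
    refine HasDerivAt.congr_deriv e2 ?_
    simp only [Function.comp_apply]
    ring
  · have h0 := F.mF_zero hx htm' h
    have hmc : Continuous (fun τ => mF x0 x1 t1 t2 g (x, τ)) :=
      F.mF_cont.comp (show Continuous fun τ : ℝ => (x, τ) by fun_prop)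
    have hev : (fun τ => ψ (mF x0 x1 t1 t2 g (x, τ)) * u (x, τ)) =ᶠ[𝓝 t] fun _ => 0 := by
      have : ∀ᶠ τ in 𝓝 t, mF x0 x1 t1 t2 g (x, τ) < ε :=
        hmc.continuousAt.eventually_lt continuousAt_const (by rw [h0]; exact hε)
      filter_upwards [this] with y hy
      rw [hz _ hy.le, zero_mul]
    rw [h0, hz 0 hε.le, hz1 0 hε.le, zero_mul, zero_mul, neg_zero, add_zero]
    exact (hasDerivAt_const t (0 : ℝ)).congr_of_eventuallyEq hev

/-- differentiation under the integral -/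
theorem diff_int {c : ℝ} (hxc : x0 < c) (h12 : t1 < t2) {u ut : ℝ × ℝ → ℝ}
    (hu : ContinuousOn u (Icc x0 c ×ˢ Icc t1 t2)) (hut : ContinuousOn ut (Icc x0 c ×ˢ Icc t1 t2))
    (hd : ∀ x ∈ Icc x0 c, ∀ t ∈ Ioo t1 t2, HasDerivAt (fun τ => u (x, τ)) (ut (x, t)) t) :
    (∫ x in x0..c, u (x, t2)) - ∫ x in x0..c, u (x, t1) =
      ∫ τ in t1..t2, ∫ x in x0..c, ut (x, τ) := by
  have cw := clC hxc h12 hut
  have ht1 : t1 ∈ Icc t1 t2 := ⟨le_rfl, h12.le⟩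
  have ht2 : t2 ∈ Icc t1 t2 := ⟨h12.le, le_rfl⟩
  obtain ⟨p, hp⟩ : ∃ p : ℝ × ℝ → ℝ, p = fun z => ut (cl x0 c t1 t2 z) := ⟨_, rfl⟩
  rw [← hp] at cw
  have hpe : ∀ x ∈ Icc x0 c, ∀ t ∈ Icc t1 t2, p (x, t) = ut (x, t) := by
    intro x hx t ht
    rw [hp]
    simp only
    rw [cl_eq hx ht]
  have e1 : ∀ x ∈ Icc x0 c, u (x, t2) - u (x, t1) = ∫ τ in t1..t2, p (x, τ) := by
    intro x hx
    symm
    apply intervalIntegral.integral_eq_sub_of_hasDerivAt_of_le h12.le (f := fun τ => u (x, τ))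
    · exact hu.comp (show Continuous fun τ : ℝ => (x, τ) by fun_prop).continuousOn
        (fun τ hτ => ⟨hx, hτ⟩)
    · intro τ hτ
      rw [hpe x hx τ ⟨hτ.1.le, hτ.2.le⟩]
      exact hd x hx τ hτ
    · exact (cw.comp (show Continuous fun τ : ℝ => (x, τ) by fun_prop)).intervalIntegrable _ _
  have i1 : IntervalIntegrable (fun x => u (x, t2)) volume x0 c := by
    apply ContinuousOn.intervalIntegrable
    rw [uIcc_of_le hxc.le]
    exact slice_c hu ht2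
  have i2 : IntervalIntegrable (fun x => u (x, t1)) volume x0 c := by
    apply ContinuousOn.intervalIntegrable
    rw [uIcc_of_le hxc.le]
    exact slice_c hu ht1
  rw [← intervalIntegral.integral_sub i1 i2]
  have e2 : ∫ x in x0..c, (u (x, t2) - u (x, t1)) = ∫ x in x0..c, ∫ τ in t1..t2, p (x, τ) := by
    apply intervalIntegral.integral_congr
    intro x hx
    rw [uIcc_of_le hxc.le] at hx
    exact e1 x hx
  have e3 : ∫ x in x0..c, ∫ τ in t1..t2, p (x, τ) = ∫ τ in t1..t2, ∫ x in x0..c, p (x, τ) := by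
    apply intervalIntegral_intervalIntegral_swap (F := fun x τ => p (x, τ))
    apply IntegrableOn.mono_set (t := uIcc x0 c ×ˢ uIcc t1 t2)
    · exact ContinuousOn.integrableOn_compact (isCompact_uIcc.prod isCompact_uIcc) cw.continuousOn
    · exact prod_mono uIoc_subset_uIcc uIoc_subset_uIcc
  rw [e2, e3]
  apply intervalIntegral.integral_congr
  intro τ hτ
  rw [uIcc_of_le h12.le] at hτ
  simp only
  apply intervalIntegral.integral_congr
  intro x hx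
  rw [uIcc_of_le hxc.le] at hx
  exact hpe x hx τ hτ

/-- the slices are integrable in time -/
theorem slice_ii {c : ℝ} (hxc : x0 < c) (h12 : t1 < t2) {u : ℝ × ℝ → ℝ}
    (hu : ContinuousOn u (Icc x0 c ×ˢ Icc t1 t2)) :
    ContinuousOn (fun τ => ∫ x in x0..c, u (x, τ)) (Icc t1 t2) := by
  have h1 : Continuous (fun τ => ∫ x in x0..c, u (cl x0 c t1 t2 (x, τ))) := by
    apply intervalIntegral.continuous_parametric_intervalIntegral_of_continuous'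
      (f := fun τ x => u (cl x0 c t1 t2 (x, τ)))
    exact (clC hxc h12 hu).comp (by fun_prop)
  apply h1.continuousOn.congr
  intro τ hτ
  simp only
  apply intervalIntegral.integral_congr
  intro x hx
  rw [uIcc_of_le hxc.le] at hx
  simp only
  rw [cl_eq hx hτ]

end Pool.Agent.Q81.TF
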