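import Pool.Agent.Q81.TF.Small

open Set MeasureTheory Filter Topology

namespace Pool.Agent.Q81.TF

theorem main_of (a1 : S_K1) (a3 : S_K3) (a4 : S_K4) (a5 : S_K5) (ab : S_BASE) (ak : S_NECK2)
    (ac : S_CRIT) (ag : S_BIG) (aw : S_WRAP) {n δ T : ℝ} {s : ℝ → ℝ} {h : ℝ → ℝ → ℝ}
    (hn : 3 ≤ n) (hδ : 0 < δ) (S : IsClassicalSolution n δ T s h)
    (hfin : FiniteDissipation n δ T s h) : ∃ s₀, ∀ t ∈ Ioo 0 T, s t = s₀ := by
  refine aw n δ T s h hn hδ S hfin ?_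
  intro x0 x1 t1 t2 W D s' g h1 h2 h3 ht S' hs'
  rcases le_or_gt n 9 with h9 | h9
  · exact small_n a1 a3 a4 a5 ab ak ac S' h9 hs'
  · exact ag n x0 x1 t1 t2 W D s' g h1 h2 h3 ht S' h9.le hs'

end Pool.Agent.Q81.TF
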