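import Pool.Agent.Q81.TF.Iter

open Set MeasureTheory Filter Topology

namespace Pool.Agent.Q81.TF

variable {n a0 a E : ℝ} {f f1 f2 f3 : ℝ → ℝ}

/-- the constant in the slope bound -/
noncomputable def slopeC (n κ β P0 B0 : ℝ) : ℝ :=
  P0 + 2 * ((4 + 2 * P0 + 4 * B0) +
    (16384 * κ ^ (-n)) ^ ((1 : ℝ) / 5) * 2 ^ ((n * β - 3) / 5))

theorem slopeC_pos {n κ β P0 B0 : ℝ} (hκ : 0 < κ) (hP : 0 ≤ P0) (hB : 0 ≤ B0) :
    0 < slopeC n κ β P0 B0 := by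
  unfold slopeC
  positivity

theorem Prof.slope (P : Prof n a0 a E f f1 f2 f3) (hn : 0 ≤ n) {κ β c P0 B0 : ℝ}
    (hκ : 0 < κ) (hκ1 : κ ≤ 1) (hβ : 1 ≤ β) (hnβ : 3 ≤ n * β) (hN : Neck κ β a0 a f)
    (hc : 0 < c) (hc1 : c ≤ 1) (hca : c ≤ f a) (hP : 0 ≤ P0) (hB : 0 ≤ B0)
    (hP0 : ∀ x ∈ Ioc a0 a, κ * c ^ β ≤ f x → |f1 x| ≤ P0) (hB0 : |f2 a| ≤ B0)
    {v : ℝ} (hv : 0 < v) (hvc : v ≤ c) :
    ∀ x ∈ Ioc a0 a, (∃ y ∈ Ioc a0 x, v ≤ f y) →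
      |f1 x| ≤ slopeC n κ β P0 B0 * ((1 - Real.log v) * (Real.sqrt (1 + E) *
        v ^ (-((n * β - 3) / 5)))) := by
  have hE := P.E_nonneg
  intro x hx hxy
  obtain ⟨k, hk1, hk2⟩ := exists_nat_pow_near (x := c / v) (y := 2)
    (by rw [le_div_iff₀ hv]; linarith) (by norm_num)
  have hv1 : v ≤ 1 := hvc.trans hc1
  have hlogv : 0 ≤ -Real.log v := by
    have := Real.log_nonpos hv.le hv1
    linarith
  have h1 : c / 2 ^ (k + 1) ≤ v := by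
    rw [div_lt_iff₀ hv] at hk2
    rw [div_le_iff₀ (by positivity)]
    linarith
  have h2 : v / 2 ≤ c / 2 ^ (k + 1) := by
    rw [le_div_iff₀ hv] at hk1
    rw [le_div_iff₀ (by positivity), pow_succ]
    linarith
  have h3 : ((k + 1 : ℕ) : ℝ) ≤ 2 * (1 - Real.log v) := by
    have h4 : Real.log (2 ^ k) ≤ Real.log (c / v) := Real.log_le_log (by positivity) hk1
    rw [Real.log_pow, Real.log_div hc.ne' hv.ne'] at h4
    have h5 : Real.log c ≤ 0 := Real.log_nonpos hc.le hc1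
    have h6 : 0.5 ≤ Real.log 2 := by
      have := Real.log_two_gt_d9
      linarith
    have h7 : (k : ℝ) * 0.5 ≤ k * Real.log 2 := mul_le_mul_of_nonneg_left h6 (Nat.cast_nonneg k)
    push_cast
    linarith
  obtain ⟨y, hy, hfy⟩ := hxy
  have h8 := P.iter hn hκ hκ1 hβ hnβ hN hc hc1 hca (A := 4 + 2 * P0 + 4 * B0) (by linarith)
    (by linarith) hP0 hB0 (k + 1) x hx ⟨y, hy, h1.trans hfy⟩
  refine h8.trans ?_
  obtain ⟨S, hS⟩ : ∃ S, S = Real.sqrt (1 + E) * v ^ (-((n * β - 3) / 5)) := ⟨_, rfl⟩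
  obtain ⟨D, hD⟩ : ∃ D, D = (16384 * κ ^ (-n)) ^ ((1 : ℝ) / 5) * 2 ^ ((n * β - 3) / 5) := ⟨_, rfl⟩
  have hD0 : 0 ≤ D := by rw [hD]; positivity
  have hsq : 1 ≤ Real.sqrt (1 + E) := by
    rw [Real.one_le_sqrt]
    linarith
  have hvg : 1 ≤ v ^ (-((n * β - 3) / 5)) :=
    Real.one_le_rpow_of_pos_of_le_one_of_nonpos hv hv1 (by linarith)
  have hS1 : 1 ≤ S := by
    rw [hS]
    nlinarith only [hvg, hsq]
  have hY : (Xf n κ β E (c / 2 ^ (k + 1))) ^ ((1 : ℝ) / 5) ≤ D * S := by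
    have hck : 0 < c / 2 ^ (k + 1) := by positivity
    rw [Xf_eq hκ hck]
    have e1 : (16384 * E * κ ^ (-n) * (c / 2 ^ (k + 1)) ^ (3 - n * β)) ^ ((1 : ℝ) / 5) =
        (16384 * κ ^ (-n)) ^ ((1 : ℝ) / 5) * (E ^ ((1 : ℝ) / 5) *
          ((c / 2 ^ (k + 1)) ^ (3 - n * β)) ^ ((1 : ℝ) / 5)) := by
      rw [← Real.mul_rpow hE (by positivity), ← Real.mul_rpow (by positivity) (by positivity)]
      congr 1
      ring
    have e2 : ((c / 2 ^ (k + 1)) ^ (3 - n * β)) ^ ((1 : ℝ) / 5) ≤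
        2 ^ ((n * β - 3) / 5) * v ^ (-((n * β - 3) / 5)) := by
      rw [← Real.rpow_mul hck.le]
      have e3 : (c / 2 ^ (k + 1)) ^ ((3 - n * β) * (1 / 5)) ≤
          (v / 2) ^ ((3 - n * β) * (1 / 5)) :=
        Real.rpow_le_rpow_of_nonpos (by positivity) h2 (by linarith)
      refine e3.trans (le_of_eq ?_)
      rw [show (3 - n * β) * (1 / 5) = -((n * β - 3) / 5) by ring,
        Real.div_rpow hv.le (by norm_num), Real.rpow_neg (by norm_num : (0 : ℝ) ≤ 2)]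
      field_simp
    have e4 : E ^ ((1 : ℝ) / 5) ≤ Real.sqrt (1 + E) := by
      rw [Real.sqrt_eq_rpow]
      calc E ^ ((1 : ℝ) / 5) ≤ (1 + E) ^ ((1 : ℝ) / 5) :=
            Real.rpow_le_rpow hE (by linarith) (by norm_num)
        _ ≤ (1 + E) ^ ((1 : ℝ) / 2) := Real.rpow_le_rpow_of_exponent_le (by linarith) (by norm_num)
    rw [e1, hD, hS]
    have e5 : E ^ ((1 : ℝ) / 5) * ((c / 2 ^ (k + 1)) ^ (3 - n * β)) ^ ((1 : ℝ) / 5) ≤
        Real.sqrt (1 + E) * (2 ^ ((n * β - 3) / 5) * v ^ (-((n * β - 3) / 5))) :=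
      mul_le_mul e4 e2 (by positivity) (by positivity)
    calc _ ≤ (16384 * κ ^ (-n)) ^ ((1 : ℝ) / 5) *
          (Real.sqrt (1 + E) * (2 ^ ((n * β - 3) / 5) * v ^ (-((n * β - 3) / 5)))) :=
          mul_le_mul_of_nonneg_left e5 (by positivity)
      _ = _ := by ring
  rw [← hS]
  have hsc : slopeC n κ β P0 B0 = P0 + 2 * ((4 + 2 * P0 + 4 * B0) + D) := by
    rw [hD]
    rfl
  rw [hsc]
  have h9 : (4 + 2 * P0 + 4 * B0) + (Xf n κ β E (c / 2 ^ (k + 1))) ^ ((1 : ℝ) / 5) ≤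
      ((4 + 2 * P0 + 4 * B0) + D) * S := by
    have : 0 ≤ (4 + 2 * P0 + 4 * B0) * (S - 1) := mul_nonneg (by linarith) (by linarith)
    nlinarith only [this, hY]
  have h10 : ((k + 1 : ℕ) : ℝ) * ((4 + 2 * P0 + 4 * B0) +
      (Xf n κ β E (c / 2 ^ (k + 1))) ^ ((1 : ℝ) / 5)) ≤
      (2 * (1 - Real.log v)) * (((4 + 2 * P0 + 4 * B0) + D) * S) := by
    apply mul_le_mul h3 h9 _ (by linarith)
    have := Real.rpow_nonneg (Xf_nonneg (n := n) (β := β) hE hκ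
      (show 0 < c / 2 ^ (k + 1) by positivity)) ((1 : ℝ) / 5)
    linarith
  have h11 : P0 ≤ P0 * ((1 - Real.log v) * S) := by
    have : 1 ≤ (1 - Real.log v) * S := by nlinarith only [hS1, hlogv]
    nlinarith only [this, hP]
  calc P0 + ((k + 1 : ℕ) : ℝ) * ((4 + 2 * P0 + 4 * B0) +
        (Xf n κ β E (c / 2 ^ (k + 1))) ^ ((1 : ℝ) / 5))
      ≤ P0 * ((1 - Real.log v) * S) + (2 * (1 - Real.log v)) *
        (((4 + 2 * P0 + 4 * B0) + D) * S) := add_le_add h11 h10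
    _ = (P0 + 2 * ((4 + 2 * P0 + 4 * B0) + D)) * ((1 - Real.log v) * S) := by ring

end Pool.Agent.Q81.TF
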