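import Pool.Agent.Q81.TF.Stm2

open Set MeasureTheory Filter Topology

namespace Pool.Agent.Q81.TF

theorem neck_fin {n E d v A : ℝ} (hn : 3 ≤ n) (hE : 0 ≤ E) (hd : 0 < d) (hd1 : d ≤ 1)
    (hv : 0 < v) (hA : 0 ≤ A)
    (h1 : (n - 3) * Real.log d⁻¹ ≤ A + 5 * (n - 3) * (-Real.log v) + 3 * Real.log (1 + E) +
      3 * Real.log (1 + Real.log d⁻¹))
    (h2 : Real.log d⁻¹ ≤ A + 5 * |Real.log v| + Real.log (1 + E) + Real.log (1 + Real.log d⁻¹)) :
    depth n d ≤ (Real.exp A * (2 * A + 10) ^ 4 * 256) * (1 + E) ^ 4 *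
      ((1 + |Real.log v|) ^ 5 * v ^ (-(5 * (n - 3)))) := by
  have hl0 : 0 ≤ Real.log d⁻¹ := Real.log_nonneg (by rw [one_le_inv₀ hd]; exact hd1)
  have hdep := depth_le hn hd hd1
  obtain ⟨l, hl⟩ : ∃ l, l = Real.log d⁻¹ := ⟨_, rfl⟩
  rw [← hl] at h1 h2 hl0 hdep
  have hX : 0 ≤ Real.log (1 + E) := Real.log_nonneg (by linarith)
  obtain ⟨X, hXe⟩ : ∃ X, X = Real.log (1 + E) := ⟨_, rfl⟩
  obtain ⟨Y, hYe⟩ : ∃ Y, Y = Real.log (1 + l) := ⟨_, rfl⟩
  obtain ⟨Λ, hΛ⟩ : ∃ Λ, Λ = |Real.log v| := ⟨_, rfl⟩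
  have hΛ0 : 0 ≤ Λ := by rw [hΛ]; exact abs_nonneg _
  rw [← hXe, ← hYe] at h1
  rw [← hXe, ← hYe, ← hΛ] at h2
  rw [← hXe] at hX
  rw [← hΛ]
  have hYl : Y ≤ l / 2 + 1 := by
    have e1 := Real.log_le_sub_one_of_pos (show 0 < (1 + l) / 2 by linarith)
    rw [Real.log_div (by linarith) (by norm_num), ← hYe] at e1
    have := Real.log_two_lt_d9
    linarith
  have hl1 : 1 + l ≤ (2 * A + 10) * ((1 + Λ) * (1 + X)) := by
    have e1 : l ≤ 2 * (A + 1 + 5 * Λ + X) := by linarith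
    nlinarith only [e1, hX, mul_nonneg hA hΛ0, mul_nonneg hA hX, mul_nonneg hΛ0 hX,
      mul_nonneg hA (mul_nonneg hΛ0 hX)]
  have hX4 : (1 + X) ^ 4 ≤ 256 * (1 + E) := by
    have e1 : 1 + X ≤ 4 * Real.exp (X / 4) := by
      have := Real.add_one_le_exp (X / 4)
      linarith
    calc (1 + X) ^ 4 ≤ (4 * Real.exp (X / 4)) ^ 4 := pow_le_pow_left₀ (by linarith) e1 4
      _ = 256 * Real.exp X := by
          rw [mul_pow, ← Real.exp_nat_mul]
          norm_num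
          ring
      _ = 256 * (1 + E) := by rw [hXe, Real.exp_log (by linarith)]
  have hexp : Real.exp ((n - 3) * l) ≤
      Real.exp A * v ^ (-(5 * (n - 3))) * (1 + E) ^ 3 * (1 + l) ^ 3 := by
    have e1 : Real.exp A * v ^ (-(5 * (n - 3))) * (1 + E) ^ 3 * (1 + l) ^ 3 =
        Real.exp (A + 5 * (n - 3) * (-Real.log v) + 3 * X + 3 * Y) := by
      rw [Real.exp_add, Real.exp_add, Real.exp_add, Real.rpow_def_of_pos hv]
      have e2 : (1 + E) ^ 3 = Real.exp (3 * X) := by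
        rw [show (3 : ℝ) * X = ((3 : ℕ) : ℝ) * X by norm_num, Real.exp_nat_mul, hXe,
          Real.exp_log (by linarith)]
      have e3 : (1 + l) ^ 3 = Real.exp (3 * Y) := by
        rw [show (3 : ℝ) * Y = ((3 : ℕ) : ℝ) * Y by norm_num, Real.exp_nat_mul, hYe,
          Real.exp_log (by linarith)]
      rw [e2, e3]
      congr 3
      congr 1
      ring
    rw [e1, Real.exp_le_exp]
    exact h1
  have hv0 : 0 < v ^ (-(5 * (n - 3))) := Real.rpow_pos_of_pos hv _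
  have h4 : (1 + l) ^ 4 ≤ (2 * A + 10) ^ 4 * ((1 + Λ) ^ 4 * (256 * (1 + E))) := by
    calc (1 + l) ^ 4 ≤ ((2 * A + 10) * ((1 + Λ) * (1 + X))) ^ 4 :=
          pow_le_pow_left₀ (by linarith) hl1 4
      _ = (2 * A + 10) ^ 4 * ((1 + Λ) ^ 4 * (1 + X) ^ 4) := by ring
      _ ≤ _ := by
          apply mul_le_mul_of_nonneg_left _ (by positivity)
          exact mul_le_mul_of_nonneg_left hX4 (by positivity)
  have h5 : depth n d ≤ Real.exp A * v ^ (-(5 * (n - 3))) * (1 + E) ^ 3 * (1 + l) ^ 4 := by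
    have e1 : Real.exp ((n - 3) * l) * (1 + l) ≤
        (Real.exp A * v ^ (-(5 * (n - 3))) * (1 + E) ^ 3 * (1 + l) ^ 3) * (1 + l) :=
      mul_le_mul_of_nonneg_right hexp (by linarith)
    have e2 : (Real.exp A * v ^ (-(5 * (n - 3))) * (1 + E) ^ 3 * (1 + l) ^ 3) * (1 + l) =
      Real.exp A * v ^ (-(5 * (n - 3))) * (1 + E) ^ 3 * (1 + l) ^ 4 := by ring
    linarith
  refine h5.trans ?_
  have h6 : (1 + Λ) ^ 4 ≤ (1 + Λ) ^ 5 := pow_le_pow_right₀ (by linarith) (by norm_num)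
  calc Real.exp A * v ^ (-(5 * (n - 3))) * (1 + E) ^ 3 * (1 + l) ^ 4 ≤
      Real.exp A * v ^ (-(5 * (n - 3))) * (1 + E) ^ 3 *
        ((2 * A + 10) ^ 4 * ((1 + Λ) ^ 4 * (256 * (1 + E)))) := by
        apply mul_le_mul_of_nonneg_left h4 (by positivity)
    _ ≤ Real.exp A * v ^ (-(5 * (n - 3))) * (1 + E) ^ 3 *
        ((2 * A + 10) ^ 4 * ((1 + Λ) ^ 5 * (256 * (1 + E)))) := by
        gcongr
    _ = _ := by ring

theorem neck_alg {n l κ A1 A2 A3 lp X Y : ℝ} (hn : 3 ≤ n) (hn9 : n ≤ 9)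
    (hA1 : 0 ≤ A1) (hA2 : 0 ≤ A2) (hA3 : 0 ≤ A3) (hlp : 0 ≤ lp) (hX : 0 ≤ X) (hY : 0 ≤ Y)
    (hκ : rhoP n * κ ≤ rhoP n * A2 + A3 + 2 * lp + (X + (n - 3) * l + Y) / 5)
    (hi : (4 * n - 10) * (l - κ) ≤ A1 + X + Y) :
    (n - 3) * l ≤ 6 * (4 * A2 + 3 * A3 + A1) + 5 * (n - 3) * lp + 3 * X + 3 * Y ∧
      l ≤ (4 * A2 + 3 * A3 + A1) + 5 * lp + X + Y := by
  obtain ⟨δ, hδ⟩ : ∃ δ, δ = n - 3 := ⟨_, rfl⟩
  have hn' : n = δ + 3 := by rw [hδ]; ring
  have hδ0 : 0 ≤ δ := by rw [hδ]; linarith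
  have hδ6 : δ ≤ 6 := by rw [hδ]; linarith
  unfold rhoP at hκ
  rw [← hδ] at hκ ⊢
  have hi' : (2 + 4 * δ) * (l - κ) ≤ A1 + X + Y := by
    rw [hn'] at hi
    have e : (4 * (δ + 3) - 10) = 2 + 4 * δ := by ring
    rw [e] at hi
    exact hi
  obtain ⟨ρ, hρ⟩ : ∃ ρ, ρ = 441 / 1000 + 441 / 2000 * δ := ⟨_, rfl⟩
  rw [← hρ] at hκ
  have hρ0 : 0 < ρ := by rw [hρ]; positivity
  have hu : 0 < 2 + 4 * δ := by linarith
  -- the main inequality
  have hmain : l * ((2 + 4 * δ) * (441 / 1000 + 41 / 2000 * δ)) ≤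
      ρ * (A1 + X + Y) + (2 + 4 * δ) * (ρ * A2 + A3 + 2 * lp + (X + Y) / 5) := by
    have e1 := mul_le_mul_of_nonneg_left hi' hρ0.le
    have e2 := mul_le_mul_of_nonneg_left hκ hu.le
    have e3 : l * ((2 + 4 * δ) * (441 / 1000 + 41 / 2000 * δ)) =
      ρ * ((2 + 4 * δ) * (l - κ)) + (2 + 4 * δ) * (ρ * κ) - (2 + 4 * δ) * (δ * l / 5) := by
      rw [hρ]
      ring
    rw [e3]
    linarith
  have hw : 0 < (2 + 4 * δ) * (441 / 1000 + 41 / 2000 * δ) := by positivity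
  have b1 : 0 ≤ A1 * ((2 + 4 * δ) * (441 / 1000 + 41 / 2000 * δ) - ρ) := by
    apply mul_nonneg hA1
    rw [hρ]
    nlinarith only [hδ, hn]
  have b2 : 0 ≤ A2 * ((2 + 4 * δ) * (4 * (441 / 1000 + 41 / 2000 * δ) - ρ)) := by
    apply mul_nonneg hA2 (mul_nonneg hu.le _)
    rw [hρ]
    linarith
  have b3 : 0 ≤ A3 * ((2 + 4 * δ) * (3 * (441 / 1000 + 41 / 2000 * δ) - 1)) := by
    apply mul_nonneg hA3 (mul_nonneg hu.le _)
    linarith
  have b4 : 0 ≤ lp * ((2 + 4 * δ) * (5 * (441 / 1000 + 41 / 2000 * δ) - 2)) := by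
    apply mul_nonneg hlp (mul_nonneg hu.le _)
    linarith
  have b5 : 0 ≤ (X + Y) * ((2 + 4 * δ) * (441 / 1000 + 41 / 2000 * δ) - ρ - (2 + 4 * δ) / 5) := by
    apply mul_nonneg (by linarith)
    rw [hρ]
    nlinarith only [hδ0]
  have b6 : 0 ≤ (X + Y) * (3 * ((2 + 4 * δ) * (441 / 1000 + 41 / 2000 * δ)) -
      δ * (ρ + (2 + 4 * δ) / 5)) := by
    apply mul_nonneg (by linarith)
    rw [hρ]
    nlinarith only [hδ, hn9, hn]
  constructor
  · by_contra hcon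
    push Not at hcon
    have c1 : (6 * (4 * A2 + 3 * A3 + A1) + 5 * δ * lp + 3 * X + 3 * Y) *
        ((2 + 4 * δ) * (441 / 1000 + 41 / 2000 * δ)) <
        δ * l * ((2 + 4 * δ) * (441 / 1000 + 41 / 2000 * δ)) := mul_lt_mul_of_pos_right hcon hw
    have c2 := mul_le_mul_of_nonneg_left hmain hδ0
    have d1 : δ * (A1 * ρ) ≤ 6 * (A1 * ((2 + 4 * δ) * (441 / 1000 + 41 / 2000 * δ))) := by
      have : δ * (A1 * ρ) ≤ 6 * (A1 * ρ) := mul_le_mul_of_nonneg_right hδ6 (by positivity)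
      linarith
    have d2 : δ * ((2 + 4 * δ) * (ρ * A2)) ≤
        6 * (4 * A2 * ((2 + 4 * δ) * (441 / 1000 + 41 / 2000 * δ))) := by
      have : δ * ((2 + 4 * δ) * (ρ * A2)) ≤ 6 * ((2 + 4 * δ) * (ρ * A2)) :=
        mul_le_mul_of_nonneg_right hδ6 (by positivity)
      linarith
    have d3 : δ * ((2 + 4 * δ) * A3) ≤
        6 * (3 * A3 * ((2 + 4 * δ) * (441 / 1000 + 41 / 2000 * δ))) := by
      have : δ * ((2 + 4 * δ) * A3) ≤ 6 * ((2 + 4 * δ) * A3) :=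
        mul_le_mul_of_nonneg_right hδ6 (by positivity)
      linarith
    have d4 : δ * ((2 + 4 * δ) * (2 * lp)) ≤
        5 * δ * lp * ((2 + 4 * δ) * (441 / 1000 + 41 / 2000 * δ)) := by
      have := mul_nonneg hδ0 b4
      linarith
    linarith
  · by_contra hcon
    push Not at hcon
    have c1 : ((4 * A2 + 3 * A3 + A1) + 5 * lp + X + Y) *
        ((2 + 4 * δ) * (441 / 1000 + 41 / 2000 * δ)) <
        l * ((2 + 4 * δ) * (441 / 1000 + 41 / 2000 * δ)) := mul_lt_mul_of_pos_right hcon hw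
    linarith

theorem t_NECK2 : S_NECK2 := by
  intro n M Pm κ0 m0 c0 hn hn9 hM1 hκ0 hm0 hc0
  have hρ : 0 < rhoP n := by unfold rhoP; linarith
  have hcA : 0 ≤ cA n M Pm := by
    unfold cA
    apply Real.log_nonneg
    have : 0 ≤ |Pm| ^ 5 := by positivity
    linarith
  have hlM : 0 ≤ Real.log M := Real.log_nonneg hM1
  obtain ⟨A2, hA2⟩ : ∃ A2, A2 = κ0 + |Real.log (m0 / 2)| / rhoP n := ⟨_, rfl⟩
  have hA20 : 0 ≤ A2 := by rw [hA2]; positivity
  obtain ⟨A3, hA3⟩ : ∃ A3, A3 = 5 + cA n M Pm := ⟨_, rfl⟩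
  have hA30 : 0 ≤ A3 := by rw [hA3]; linarith
  obtain ⟨A1, hA1⟩ : ∃ A1, A1 = cA n M Pm + 5 * n := ⟨_, rfl⟩
  have hA10 : 0 ≤ A1 := by rw [hA1]; linarith
  obtain ⟨A8, hA8⟩ : ∃ A8, A8 = 4 * A2 + 3 * A3 + A1 := ⟨_, rfl⟩
  have hA80 : 0 ≤ A8 := by rw [hA8]; positivity
  obtain ⟨A, hA⟩ : ∃ A, A = 6 * A8 + 30 * Real.log M + 30 := ⟨_, rfl⟩
  have hA0 : 0 ≤ A := by rw [hA]; positivity
  obtain ⟨c1, hc1⟩ : ∃ c1, c1 = min c0 1 := ⟨_, rfl⟩
  have hc10 : 0 < c1 := by rw [hc1]; exact lt_min hc0 one_pos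
  have hc11 : c1 ≤ 1 := by rw [hc1]; exact min_le_right _ _
  have hc1c : c1 ≤ c0 := by rw [hc1]; exact min_le_left _ _
  have hγ : 0 ≤ 5 * (n - 3) := by linarith
  have hdc := depth_nonneg (n := n) hc10 hc11
  have hMγ : 0 < M ^ (5 * (n - 3)) := Real.rpow_pos_of_pos (by linarith) _
  obtain ⟨CB, hCB⟩ : ∃ CB, CB = Real.exp A * (2 * A + 10) ^ 4 * 256 := ⟨_, rfl⟩
  have hCB0 : 0 ≤ CB := by rw [hCB]; positivity
  refine ⟨1 + depth n c1 * M ^ (5 * (n - 3)) + CB, ?_, ?_⟩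
  · have : 0 ≤ depth n c1 * M ^ (5 * (n - 3)) := mul_nonneg hdc hMγ.le
    linarith
  intro a0 a E f f1 f2 f3 m P hM hPm dm mpos hma hlow hNE x y z hx hxy hyz hz
  have hE := P.E_nonneg
  have hIx : x ∈ Ioc a0 a := ⟨hx, by linarith⟩
  have hIy : y ∈ Ioc a0 a := ⟨by linarith, by linarith⟩
  have hIz : z ∈ Ioc a0 a := ⟨by linarith, hz⟩
  have hfx := P.pos x hIx
  have hfy := P.pos y hIy
  have hfz := P.pos z hIz
  obtain ⟨v, hv⟩ : ∃ v, v = min (f x) (f z) := ⟨_, rfl⟩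
  rw [← hv]
  have hv0 : 0 < v := by rw [hv]; exact lt_min hfx hfz
  have hvx : v ≤ f x := by rw [hv]; exact min_le_left _ _
  have hvz : v ≤ f z := by rw [hv]; exact min_le_right _ _
  have hvM : v ≤ M := hvx.trans (hM x hIx)
  obtain ⟨k0, k1, k2, k3, kG, kw⟩ := P.cont hx hz
  obtain ⟨y0, hy0, hmin⟩ := isCompact_Icc.exists_isMinOn (nonempty_Icc.2 (hxy.trans hyz).le) k0
  have hIy0 : y0 ∈ Ioc a0 a := ⟨hx.trans_le hy0.1, hy0.2.trans hz⟩
  have hd := P.pos y0 hIy0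
  have hdy : f y0 ≤ f y := hmin (⟨hxy.le, hyz.le⟩ : y ∈ Icc x z)
  have hdx : f y0 ≤ f x := hmin (⟨le_rfl, (hxy.trans hyz).le⟩ : x ∈ Icc x z)
  have hdz : f y0 ≤ f z := hmin (⟨(hxy.trans hyz).le, le_rfl⟩ : z ∈ Icc x z)
  have hdep : depth n (f y) ≤ depth n (f y0) := depth_anti hd hdy
  obtain ⟨d, hde⟩ : ∃ d, d = f y0 := ⟨_, rfl⟩
  rw [← hde] at hdep hd hdx hdz
  refine hdep.trans ?_
  have hE4 : 1 ≤ (1 + E) ^ 4 := one_le_pow₀ (by linarith)
  have hvγ : 0 < v ^ (-(5 * (n - 3))) := Real.rpow_pos_of_pos hv0 _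
  have hΛ0 : 0 ≤ |Real.log v| := abs_nonneg _
  have hΛ5 : 1 ≤ (1 + |Real.log v|) ^ 5 := one_le_pow₀ (by linarith)
  obtain ⟨T, hT⟩ : ∃ T, T = (1 + |Real.log v|) ^ 5 * v ^ (-(5 * (n - 3))) := ⟨_, rfl⟩
  have hT0 : 0 ≤ T := by rw [hT]; positivity
  rw [← hT]
  have hETn : 0 ≤ (1 + E) ^ 4 * T := by positivity
  rcases le_or_gt c1 d with hcd | hcd
  · -- the neck is not deep
    have e1 : depth n d ≤ depth n c1 := depth_anti hc10 hcd
    have e2 : 1 ≤ M ^ (5 * (n - 3)) * v ^ (-(5 * (n - 3))) := by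
      rw [Real.rpow_neg hv0.le, ← div_eq_mul_inv, one_le_div (Real.rpow_pos_of_pos hv0 _)]
      exact Real.rpow_le_rpow hv0.le hvM hγ
    have e3 : 1 ≤ M ^ (5 * (n - 3)) * T := by
      rw [hT]
      calc (1 : ℝ) ≤ (1 + |Real.log v|) ^ 5 * (M ^ (5 * (n - 3)) * v ^ (-(5 * (n - 3)))) :=
            one_le_mul_of_one_le_of_one_le hΛ5 e2
        _ = _ := by ring
    have e4 : depth n c1 ≤ depth n c1 * M ^ (5 * (n - 3)) * T := by
      calc depth n c1 = depth n c1 * 1 := (mul_one _).symm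
        _ ≤ depth n c1 * (M ^ (5 * (n - 3)) * T) := mul_le_mul_of_nonneg_left e3 hdc
        _ = _ := by ring
    have e5 : depth n c1 * M ^ (5 * (n - 3)) * T ≤
        depth n c1 * M ^ (5 * (n - 3)) * ((1 + E) ^ 4 * T) := by
      apply mul_le_mul_of_nonneg_left _ (mul_nonneg hdc hMγ.le)
      nlinarith only [hT0, hE4]
    have e6 : 0 ≤ (1 + CB) * ((1 + E) ^ 4 * T) := mul_nonneg (by linarith) hETn
    nlinarith only [e6, e5, e4, e1]
  -- the neck is deep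
  have hd1 : d ≤ 1 := (hcd.trans_le hc11).le
  have hmy0 : m y0 < m0 / 2 := by
    by_contra hcon
    push Not at hcon
    have := hlow y0 hIy0 hcon
    rw [← hde] at this
    linarith
  have hl0 : 0 ≤ Real.log d⁻¹ := Real.log_nonneg (by rw [one_le_inv₀ hd]; exact hd1)
  have hX0 : 0 ≤ Real.log (1 + E) := Real.log_nonneg (by linarith)
  have hY0 : 0 ≤ Real.log (1 + Real.log d⁻¹) := Real.log_nonneg (by linarith)
  have hlogv : -Real.log v ≤ |Real.log v| := neg_le_abs _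
  have hvlM : Real.log v ≤ Real.log M := Real.log_le_log hv0 hvM
  have hlog2 := Real.log_two_lt_d9
  have hlog2' := Real.log_two_gt_d9
  have hfinal : (n - 3) * Real.log d⁻¹ ≤ A + 5 * (n - 3) * (-Real.log v) +
      3 * Real.log (1 + E) + 3 * Real.log (1 + Real.log d⁻¹) →
      Real.log d⁻¹ ≤ A + 5 * |Real.log v| + Real.log (1 + E) + Real.log (1 + Real.log d⁻¹) →
      depth n d ≤ (1 + depth n c1 * M ^ (5 * (n - 3)) + CB) * (1 + E) ^ 4 * T := by
    intro q1 q2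
    have e1 := neck_fin (v := v) hn hE hd hd1 hv0 hA0 q1 q2
    rw [← hCB, ← hT] at e1
    have e2 : 0 ≤ (1 + depth n c1 * M ^ (5 * (n - 3))) * ((1 + E) ^ 4 * T) :=
      mul_nonneg (by have := mul_nonneg hdc hMγ.le; linarith) hETn
    have e3 : (1 + depth n c1 * M ^ (5 * (n - 3)) + CB) * (1 + E) ^ 4 * T =
        (1 + depth n c1 * M ^ (5 * (n - 3))) * ((1 + E) ^ 4 * T) + CB * (1 + E) ^ 4 * T := by ring
    linarith
  rcases lt_or_ge v (2 * d) with hv2 | hv2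
  · -- the sides are not high
    have e1 : Real.log d⁻¹ ≤ Real.log 2 - Real.log v := by
      rw [← Real.log_div (by norm_num) hv0.ne']
      apply Real.log_le_log (by positivity)
      rw [inv_eq_one_div, div_le_div_iff₀ hd hv0]
      linarith
    have e2 : Real.log v ≤ Real.log 2 := by
      apply Real.log_le_log hv0
      linarith
    apply hfinal
    · have e3 : (n - 3) * Real.log d⁻¹ ≤ (n - 3) * (Real.log 2 - Real.log v) :=
        mul_le_mul_of_nonneg_left e1 (by linarith)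
      have e4 : 0 ≤ (n - 3) * (Real.log 2 - Real.log v) := mul_nonneg (by linarith) (by linarith)
      have e5 : (n - 3) * Real.log 2 ≤ 6 * Real.log 2 :=
        mul_le_mul_of_nonneg_right (by linarith) (by linarith)
      rw [hA]
      nlinarith only [e4, e3, hlog2', hlog2, hY0, hX0, hA8, hA10, hA1, hA3, hA20, hlM, hcA]
    · rw [hA]
      linarith
  -- the true neck
  have hxy0 : x < y0 := by
    rcases eq_or_lt_of_le hy0.1 with h | h
    · exfalso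
      rw [← h] at hde
      linarith
    · exact h
  have hy0z : y0 < z := by
    rcases eq_or_lt_of_le hy0.2 with h | h
    · exfalso
      rw [h] at hde
      linarith
    · exact h
  have hf1 : f1 y0 = 0 := by
    apply IsLocalMin.hasDerivAt_eq_zero (f := f) _ (P.d0 y0 hIy0)
    filter_upwards [Icc_mem_nhds hxy0 hy0z] with u hu
    exact hmin hu
  -- the left side
  obtain ⟨r, hr, hr'⟩ := P.lim d hd
  obtain ⟨p, hp1, hp2⟩ : ∃ p, a0 < p ∧ p < min r x := exists_between (lt_min hr hx)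
  have hpx : p < x := hp2.trans_le (min_le_right _ _)
  have hfp : f p < d := hr' p ⟨hp1, hp2.trans_le (min_le_left _ _)⟩
  have hpa : p ≤ a := by linarith
  have S := P.seg hp1 hpa le_rfl
  have hsub : Icc p a ⊆ Ioc a0 a := fun u hu => ⟨hp1.trans_le hu.1, hu.2⟩
  have dm' : ∀ u ∈ Icc p a, HasDerivAt m (f u) u := fun u hu => dm u (hsub hu)
  have hmmS := S.mono_m dm'
  have Tr := S.refl
  have hneg : ∀ u ∈ Icc (-a) (-p), -u ∈ Icc p a := fun u hu =>
    ⟨by linarith [hu.2], by linarith [hu.1]⟩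
  have dmT : ∀ u ∈ Icc (-a) (-p), HasDerivAt (fun u => -m (-u)) (f (-u)) u := by
    intro u hu
    have h := ((dm' (-u) (hneg u hu)).comp u (hasDerivAt_neg u)).neg
    refine HasDerivAt.congr_deriv h ?_
    ring
  obtain ⟨τ, hτ0, hτ1, hτ2⟩ := Tr.neck_mass hn (M := M) (Pm := Pm) (v := v)
    (fun u hu => hM _ (hsub (hneg u hu))) hM1 (m := fun u => -m (-u)) dmT (y := -y0) (x := -x)
    (by linarith [hIy0.2]) (by linarith) (by linarith) (fun u hu => by
      simp only [neg_neg]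
      exact hmin (⟨by linarith [hu.2], by linarith [hu.1]⟩ : -u ∈ Icc x z))
    (by simp only [neg_neg, hf1, neg_zero]) (by simp only [neg_neg]; rw [← hde]; exact hd1) hv0
    (by simp only [neg_neg]; rw [← hde]; exact hv2) (by simpa using hvx)
    (Or.inr (by simp only [neg_neg]; rw [← hde]; exact hfp))
  simp only [neg_neg] at hτ1 hτ2
  rw [← hde] at hτ2
  have hmy00 := mpos y0 hIy0
  have hmx0 := mpos x hIx
  have hL := lam_le Pm hn hM1 hE hd hd1
  have hτ5 := hτ2.trans hL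
  -- the scale
  obtain ⟨l, hl⟩ : ∃ l, l = Real.log d⁻¹ := ⟨_, rfl⟩
  obtain ⟨X, hX⟩ : ∃ X, X = Real.log (1 + E) := ⟨_, rfl⟩
  obtain ⟨Y, hY⟩ : ∃ Y, Y = Real.log (1 + l) := ⟨_, rfl⟩
  rw [← hl, ← hX, ← hY] at hτ5
  rw [← hl, ← hX, ← hY] at hfinal
  rw [← hl] at hl0 hY0
  rw [← hX] at hX0
  rw [← hY] at hY0
  have hlogτ : 5 * Real.log τ ≤ cA n M Pm + X + (n - 3) * l + Y := by
    have e1 := Real.log_le_log (by positivity) hτ5
    rw [Real.log_exp, Real.log_pow] at e1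
    push_cast at e1
    exact e1
  have hmass : 2 * Real.log v ≤ Real.log 4 + Real.log τ + Real.log (m y0) := by
    have e1 : v ^ 2 ≤ 4 * τ * m y0 := by
      refine hτ1.trans ?_
      apply mul_le_mul_of_nonneg_left _ (by positivity)
      linarith
    have e2 := Real.log_le_log (by positivity) e1
    rw [Real.log_pow, Real.log_mul (by positivity) hmy00.ne', Real.log_mul (by norm_num) hτ0.ne']
      at e2
    push_cast at e2
    exact e2
  have hlog4 : Real.log 4 ≤ 2 := by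
    rw [show (4 : ℝ) = 2 ^ 2 by norm_num, Real.log_pow]
    push_cast
    linarith
  have hlog17 : Real.log 17 ≤ 3 := by
    rw [Real.log_le_iff_le_exp (by norm_num)]
    have e1 : (27 / 10 : ℝ) ≤ Real.exp 1 := by
      have := Real.exp_one_gt_d9
      linarith
    have e2 : Real.exp 3 = Real.exp 1 ^ 3 := by
      rw [← Real.exp_nat_mul]
      norm_num
    rw [e2]
    calc (17 : ℝ) ≤ (27 / 10) ^ 3 := by norm_num
      _ ≤ Real.exp 1 ^ 3 := pow_le_pow_left₀ (by norm_num) e1 3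
  obtain ⟨lp, hlp⟩ : ∃ lp, lp = max 0 (-Real.log v) := ⟨_, rfl⟩
  have hlp0 : 0 ≤ lp := by rw [hlp]; exact le_max_left _ _
  have hlpv : -Real.log v ≤ lp := by rw [hlp]; exact le_max_right _ _
  have hlpa : lp ≤ |Real.log v| := by
    rw [hlp]
    exact max_le hΛ0 hlogv
  have hlpM : lp ≤ -Real.log v + Real.log M := by
    rw [hlp]
    exact max_le (by linarith) (by linarith)
  obtain ⟨k2', hk2⟩ : ∃ k2', k2' = max 0 ((Real.log 17 - Real.log (m y0)) / rhoP n) := ⟨_, rfl⟩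
  have hk20 : 0 ≤ k2' := by rw [hk2]; exact le_max_left _ _
  obtain ⟨κ, hκ⟩ : ∃ κ, κ = A2 + k2' := ⟨_, rfl⟩
  have hq1 : 0 ≤ |Real.log (m0 / 2)| / rhoP n := by positivity
  have hκκ0 : κ0 ≤ κ := by rw [hκ, hA2]; linarith
  have hκ0' : 0 ≤ κ := hκ0.trans hκκ0
  have hν1 : nuK n κ ≤ m0 / 2 := by
    unfold nuK
    have e1 : -(rhoP n * κ) ≤ Real.log (m0 / 2) := by
      have e2 : |Real.log (m0 / 2)| / rhoP n ≤ κ := by rw [hκ, hA2]; linarith
      rw [div_le_iff₀ hρ] at e2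
      have e3 := neg_le_abs (Real.log (m0 / 2))
      linarith
    calc Real.exp (-(rhoP n * κ)) ≤ Real.exp (Real.log (m0 / 2)) := Real.exp_le_exp.2 e1
      _ = m0 / 2 := Real.exp_log (by positivity)
  have hν2 : 17 * nuK n κ ≤ m y0 := by
    unfold nuK
    have e1 : Real.log 17 + -(rhoP n * κ) ≤ Real.log (m y0) := by
      have e2 : (Real.log 17 - Real.log (m y0)) / rhoP n ≤ κ := by
        have : (Real.log 17 - Real.log (m y0)) / rhoP n ≤ k2' := by rw [hk2]; exact le_max_right _ _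
        rw [hκ]
        linarith
      rw [div_le_iff₀ hρ] at e2
      linarith
    calc 17 * Real.exp (-(rhoP n * κ)) = Real.exp (Real.log 17 + -(rhoP n * κ)) := by
          rw [Real.exp_add, Real.exp_log (by norm_num)]
      _ ≤ Real.exp (Real.log (m y0)) := Real.exp_le_exp.2 e1
      _ = m y0 := Real.exp_log hmy00
  have hν0 := nuK_pos n κ
  -- the right side
  have hIy0S : y0 ∈ Icc p a := ⟨by linarith, hIy0.2⟩
  obtain ⟨z2, hz2, hz2v, hz5⟩ := S.neck_right hn (M := M) (Pm := Pm)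
    (fun u hu => hM _ (hsub hu)) hM1 (y := y0) (x := z) hIy0S.1 hy0z.le hz
    (fun u hu => hmin ⟨hxy0.le.trans hu.1, hu.2⟩) hf1 (by rw [← hde]; exact hd1)
    (by rw [← hde]; linarith) (Or.inl ((le_abs_self _).trans hPm))
  rw [← hde] at hz2v hz5
  have hconv := conv1 Pm hn hn9 hM1 hE hd hd1 hκ0' (show 0 ≤ z2 - y0 by linarith [hz2.1]) hz5
    (by
      intro w hw1 hw2 hw3
      have h3 := hNE (nuK n κ) hν0 κ hκκ0 (m y0) (by linarith) (by linarith) y0 (y0 + w) (2 * d)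
        hIy0.1 (by linarith) (by linarith [hz2.2]) (by linarith) (fun u hu => by
          have hu1 : f u ≤ 2 * d := hz2v u ⟨hu.1, by linarith [hu.2]⟩
          refine ⟨hu1, ?_⟩
          have huS : u ∈ Icc p a := ⟨hIy0S.1.trans hu.1, by linarith [hu.2, hz2.2]⟩
          have h4 := S.label_lip dm' (u := y0) (v := u) (V := 2 * d) hIy0S.1 hu.1 huS.2
            (fun r hr => hz2v r ⟨hr.1, by linarith [hu.2, hr.2]⟩)
          have h5 := hmmS hIy0S huS hu.1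
          rw [abs_of_nonneg (by linarith)]
          have h6 : 2 * d * (u - y0) ≤ 2 * d * w := by
            apply mul_le_mul_of_nonneg_left _ (by linarith)
            linarith [hu.2]
          linarith)
      have e : y0 + w - y0 = w := by ring
      rw [e] at h3
      exact h3)
  rw [← hl, ← hX, ← hY, ← hA1] at hconv
  have hκ' : rhoP n * κ ≤ rhoP n * A2 + A3 + 2 * lp + (X + (n - 3) * l + Y) / 5 := by
    have e1 : rhoP n * k2' ≤ A3 + 2 * lp + (X + (n - 3) * l + Y) / 5 := by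
      have e0 : 0 ≤ (n - 3) * l := mul_nonneg (by linarith) hl0
      rw [hk2]
      rcases max_choice 0 ((Real.log 17 - Real.log (m y0)) / rhoP n) with h | h
      · rw [h, mul_zero]
        positivity
      · rw [h, mul_div_cancel₀ _ hρ.ne']
        rw [hA3]
        linarith
    rw [hκ, mul_add]
    linarith
  have halg := neck_alg hn hn9 hA10 hA20 hA30 hlp0 hX0 hY0 hκ' hconv
  rw [← hA8] at halg
  apply hfinal
  · have e1 : 5 * (n - 3) * lp ≤ 5 * (n - 3) * (-Real.log v) + 30 * Real.log M := by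
      have e2 := mul_le_mul_of_nonneg_left hlpM hγ
      have e3 : 5 * (n - 3) * Real.log M ≤ 30 * Real.log M :=
        mul_le_mul_of_nonneg_right (by linarith) hlM
      linarith
    rw [hA]
    linarith [halg.1]
  · rw [hA]
    linarith [halg.2]

end Pool.Agent.Q81.TF
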