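import Pool.Agent.Q81.TF.Jfun

open Set MeasureTheory Filter Topology

namespace Pool.Agent.Q81.TF

theorem int_log {x0 x1 μ M1 : ℝ} {u : ℝ → ℝ} (hu : Continuous u) (hμ : 0 < μ) (hμM : μ ≤ M1)
    (h0 : 0 ≤ ∫ y in x0..x1, u y) (hM : ∫ y in x0..x1, u y ≤ M1) :
    ∫ x in x0..x1, 1 / max (∫ y in x0..x, u y) μ * u x ≤ 1 + Real.log (M1 / μ) := by
  have hψ : Continuous (fun v : ℝ => 1 / max v μ) := by
    apply Continuous.div continuous_const (by fun_prop)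
    intro v
    exact (lt_max_of_lt_right hμ).ne'
  have e1 : ∫ x in x0..x1, 1 / max (∫ y in x0..x, u y) μ * u x =
      ∫ v in (∫ y in x0..x0, u y)..(∫ y in x0..x1, u y), 1 / max v μ :=
    intervalIntegral.integral_comp_mul_deriv (f := fun x => ∫ y in x0..x, u y) (f' := u)
      (g := fun v => 1 / max v μ)
      (fun x _ => (hu.integral_hasStrictDerivAt x0 x).hasDerivAt) hu.continuousOn hψ
  rw [e1, intervalIntegral.integral_same]
  obtain ⟨m, hm⟩ : ∃ m, m = ∫ y in x0..x1, u y := ⟨_, rfl⟩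
  rw [← hm] at h0 hM ⊢
  have e2 : ∫ v in (0 : ℝ)..m, 1 / max v μ ≤ ∫ v in (0 : ℝ)..M1, 1 / max v μ := by
    apply intervalIntegral.integral_mono_interval le_rfl h0 hM
    · exact Eventually.of_forall (fun v => by
        have : 0 < max v μ := lt_max_of_lt_right hμ
        simp only [Pi.zero_apply]
        positivity)
    · exact hψ.intervalIntegrable _ _
  have e3 : ∫ v in (0 : ℝ)..M1, 1 / max v μ =
      (∫ v in (0 : ℝ)..μ, 1 / max v μ) + ∫ v in μ..M1, 1 / max v μ :=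
    (intervalIntegral.integral_add_adjacent_intervals (hψ.intervalIntegrable _ _)
      (hψ.intervalIntegrable _ _)).symm
  have e4 : ∫ v in (0 : ℝ)..μ, 1 / max v μ = 1 := by
    have : ∫ v in (0 : ℝ)..μ, 1 / max v μ = ∫ v in (0 : ℝ)..μ, 1 / μ := by
      apply intervalIntegral.integral_congr
      intro v hv
      rw [uIcc_of_le hμ.le] at hv
      simp only
      rw [max_eq_right hv.2]
    rw [this, intervalIntegral.integral_const, sub_zero, smul_eq_mul]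
    field_simp
  have e5 : ∫ v in μ..M1, 1 / max v μ = Real.log (M1 / μ) := by
    have : ∫ v in μ..M1, 1 / max v μ = ∫ v in μ..M1, 1 / v := by
      apply intervalIntegral.integral_congr
      intro v hv
      rw [uIcc_of_le hμM] at hv
      simp only
      rw [max_eq_left hv.1]
    rw [this, integral_one_div_of_pos hμ (hμ.trans_le hμM)]
  linarith

variable {n x0 x1 t1 t2 : ℝ} {W D : Set (ℝ × ℝ)} {s : ℝ → ℝ} {g h1 h3 ht : ℝ × ℝ → ℝ}
variable {B ε : ℝ} {Fc φ1 φ2 : ℝ → ℝ} {B' μ m0 : ℝ} {Ω ω : ℝ → ℝ}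

/-- the density of the dissipation -/
noncomputable def Fd (n : ℝ) (g h3 : ℝ × ℝ → ℝ) (z : ℝ × ℝ) : ℝ := g z ^ n * h3 z ^ 2

/-- the full mass to the left of a point -/
noncomputable def mF (x0 x1 t1 t2 : ℝ) (g : ℝ × ℝ → ℝ) : ℝ × ℝ → ℝ :=
  prim x0 (fun z => g (cl x0 x1 t1 t2 z))

theorem Flow.mF_cont (F : Flow n x0 x1 t1 t2 W D s g h1 h3 ht) :
    Continuous (mF x0 x1 t1 t2 g) := by
  apply prim_cont
  exact F.clCont F.g_cont

theorem Flow.mF_nonneg (F : Flow n x0 x1 t1 t2 W D s g h1 h3 ht)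
    {z : ℝ × ℝ} (hz : x0 ≤ z.1) : 0 ≤ mF x0 x1 t1 t2 g z := by
  unfold mF prim
  apply intervalIntegral.integral_nonneg hz
  intro y _
  exact F.g_nonneg (F.cl_mem _)

/-- comparison of the cut mass with the full mass -/
theorem Flow.mE_mF (F : Flow n x0 x1 t1 t2 W D s g h1 h3 ht) (hε : 0 < ε)
    (H : HCut B ε Fc φ1 φ2) {x t : ℝ} (hx : x ∈ Icc x0 x1) :
    mE x0 x1 t1 t2 Fc g (x, t) ≤ mF x0 x1 t1 t2 g (x, t) ∧
      mF x0 x1 t1 t2 g (x, t) - 2 * ε * (x1 - x0) ≤ mE x0 x1 t1 t2 Fc g (x, t) := by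
  have cF : Continuous (fun z => Fc (g (cl x0 x1 t1 t2 z))) :=
    F.clCont (G := fun z => Fc (g z)) (H.c0.comp_continuousOn F.g_cont)
  have cG : Continuous (fun z => g (cl x0 x1 t1 t2 z)) := F.clCont F.g_cont
  have i1 : IntervalIntegrable (fun y => Fc (g (cl x0 x1 t1 t2 (y, t)))) volume x0 x :=
    (cF.comp (show Continuous fun y : ℝ => (y, t) by fun_prop)).intervalIntegrable _ _
  have i2 : IntervalIntegrable (fun y => g (cl x0 x1 t1 t2 (y, t))) volume x0 x :=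
    (cG.comp (show Continuous fun y : ℝ => (y, t) by fun_prop)).intervalIntegrable _ _
  unfold mE mF prim
  simp only
  constructor
  · apply intervalIntegral.integral_mono_on hx.1 i1 i2
    intro y _
    exact H.up _ (F.g_nonneg (F.cl_mem _))
  · have e1 : ∫ y in x0..x, (g (cl x0 x1 t1 t2 (y, t)) - 2 * ε) ≤
        ∫ y in x0..x, Fc (g (cl x0 x1 t1 t2 (y, t))) := by
      apply intervalIntegral.integral_mono_on hx.1 (i2.sub intervalIntegrable_const) i1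
      intro y _
      exact H.near _ (F.g_nonneg (F.cl_mem _))
    rw [intervalIntegral.integral_sub i2 intervalIntegrable_const,
      intervalIntegral.integral_const, smul_eq_mul] at e1
    have e2 : (x - x0) * (2 * ε) ≤ 2 * ε * (x1 - x0) := by nlinarith only [hε, hx.2]
    linarith

/-- bound for the remainder term at one time -/
noncomputable def RE (n x0 x1 t1 t2 : ℝ) (φ2 : ℝ → ℝ) (g h1 h3 : ℝ × ℝ → ℝ) (τ : ℝ) : ℝ :=
  ∫ y in x0..x1, |φ2 (g (cl x0 x1 t1 t2 (y, τ))) * (h1 (cl x0 x1 t1 t2 (y, τ)) *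
    (g (cl x0 x1 t1 t2 (y, τ)) ^ n * h3 (cl x0 x1 t1 t2 (y, τ))))|

theorem Flow.rE_le (F : Flow n x0 x1 t1 t2 W D s g h1 h3 ht) (hDW : D ⊆ W) (hε : 0 < ε)
    (H : HCut B ε Fc φ1 φ2) {x τ : ℝ} (hx : x ∈ Icc x0 x1) :
    |rE n x0 x1 t1 t2 φ2 g h1 h3 (x, τ)| ≤ RE n x0 x1 t1 t2 φ2 g h1 h3 τ := by
  have cR : Continuous (fun z => φ2 (g (cl x0 x1 t1 t2 z)) * (h1 (cl x0 x1 t1 t2 z) *
      (g (cl x0 x1 t1 t2 z) ^ n * h3 (cl x0 x1 t1 t2 z)))) :=
    F.clCont (G := fun z => φ2 (g z) * (h1 z * (g z ^ n * h3 z)))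
      (F.cutCont hε H.c2 (fun v hv => (H.z v hv).2.2) (F.h1_cont.mul (F.powCont hDW)))
  unfold rE RE prim
  simp only
  refine (intervalIntegral.abs_integral_le_integral_abs hx.1).trans ?_
  apply intervalIntegral.integral_mono_interval le_rfl hx.1 hx.2
  · exact Eventually.of_forall (fun y => abs_nonneg _)
  · exact ((cR.abs).comp (show Continuous fun y : ℝ => (y, τ) by fun_prop)).intervalIntegrable _ _

/-- the part of the dissipation in the set `V`, at one time -/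
noncomputable def eV (n x0 x1 : ℝ) (D V : Set (ℝ × ℝ)) (g h3 : ℝ × ℝ → ℝ) (τ : ℝ) : ℝ :=
  ∫ x in Ioc x0 x1, (D ∩ V).indicator (Fd n g h3) (x, τ)

theorem indicator_int {n x0 x1 τ : ℝ} {D V : Set (ℝ × ℝ)} {g h3 : ℝ × ℝ → ℝ}
    (hV : MeasurableSet V)
    (hint : IntegrableOn (fun x => D.indicator (Fd n g h3) (x, τ)) (Ioc x0 x1)) :
    IntegrableOn (fun x => (D ∩ V).indicator (Fd n g h3) (x, τ)) (Ioc x0 x1) := by
  have hm : MeasurableSet {x : ℝ | (x, τ) ∈ V} :=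
    measurable_prodMk_right hV
  have e1 : (fun x => (D ∩ V).indicator (Fd n g h3) (x, τ)) =
      {x : ℝ | (x, τ) ∈ V}.indicator (fun x => D.indicator (Fd n g h3) (x, τ)) := by
    funext x
    by_cases h1 : (x, τ) ∈ V
    · by_cases h2 : (x, τ) ∈ D
      · rw [indicator_of_mem (show (x, τ) ∈ D ∩ V from ⟨h2, h1⟩),
          indicator_of_mem (show x ∈ {x : ℝ | (x, τ) ∈ V} from h1), indicator_of_mem h2]
      · rw [indicator_of_notMem (show (x, τ) ∉ D ∩ V from fun h => h2 h.1),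
          indicator_of_mem (show x ∈ {x : ℝ | (x, τ) ∈ V} from h1), indicator_of_notMem h2]
    · rw [indicator_of_notMem (show (x, τ) ∉ D ∩ V from fun h => h1 h.2),
        indicator_of_notMem (show x ∉ {x : ℝ | (x, τ) ∈ V} from h1)]
  rw [e1]
  exact hint.indicator hm

theorem two_mul_le' (a b l : ℝ) (hl : 0 < l) : |a * b| ≤ l / 2 * a ^ 2 + 1 / (2 * l) * b ^ 2 := by
  have h1 : 0 ≤ (l * |a| - |b|) ^ 2 := sq_nonneg _
  have h2 : l / 2 * a ^ 2 + 1 / (2 * l) * b ^ 2 - |a| * |b| = (l * |a| - |b|) ^ 2 / (2 * l) := by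
    rw [← sq_abs a, ← sq_abs b]
    field_simp
    ring
  rw [abs_mul]
  have h3 : 0 ≤ (l * |a| - |b|) ^ 2 / (2 * l) := by positivity
  linarith

theorem Flow.RE_le (F : Flow n x0 x1 t1 t2 W D s g h1 h3 ht) (hDW : D ⊆ W) (hε : 0 < ε)
    (H : HCut B ε Fc φ1 φ2) {τ A : ℝ} (hτ : τ ∈ Icc t1 t2)
    (hint : IntegrableOn (fun x => D.indicator (Fd n g h3) (x, τ)) (Ioc x0 x1))
    (hA : ∫ x in x0..x1, φ2 (g (cl x0 x1 t1 t2 (x, τ))) ^ 2 *
      (g (cl x0 x1 t1 t2 (x, τ)) ^ n * h1 (cl x0 x1 t1 t2 (x, τ)) ^ 2) ≤ A) :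
    RE n x0 x1 t1 t2 φ2 g h1 h3 τ ≤
      1 / 2 * eV n x0 x1 D {z | g (cl x0 x1 t1 t2 z) < 2 * ε} g h3 τ + 1 / 2 * A := by
  have hV : MeasurableSet {z : ℝ × ℝ | g (cl x0 x1 t1 t2 z) < 2 * ε} :=
    (isOpen_lt (F.clCont F.g_cont) continuous_const).measurableSet
  have i1 := indicator_int hV hint
  have cA : Continuous (fun z => φ2 (g (cl x0 x1 t1 t2 z)) ^ 2 *
      (g (cl x0 x1 t1 t2 z) ^ n * h1 (cl x0 x1 t1 t2 z) ^ 2)) := by
    apply F.clCont (G := fun z => φ2 (g z) ^ 2 * (g z ^ n * h1 z ^ 2))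
    apply F.cutCont hε (φ := fun v => φ2 v ^ 2) (H.c2.pow 2)
    · intro v hv
      show φ2 v ^ 2 = 0
      rw [(H.z v hv).2.2]
      norm_num
    · apply ContinuousOn.mul _ (F.h1_cont.pow 2)
      apply (F.g_cont.mono hDW).rpow_const
      exact fun z hz => Or.inl (F.g_pos z hz).ne'
  have i2 : IntegrableOn (fun x => φ2 (g (cl x0 x1 t1 t2 (x, τ))) ^ 2 *
      (g (cl x0 x1 t1 t2 (x, τ)) ^ n * h1 (cl x0 x1 t1 t2 (x, τ)) ^ 2)) (Ioc x0 x1) :=
    (cA.comp (show Continuous fun y : ℝ => (y, τ) by fun_prop)).integrableOn_Ioc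
  have cR : Continuous (fun z => φ2 (g (cl x0 x1 t1 t2 z)) * (h1 (cl x0 x1 t1 t2 z) *
      (g (cl x0 x1 t1 t2 z) ^ n * h3 (cl x0 x1 t1 t2 z)))) :=
    F.clCont (G := fun z => φ2 (g z) * (h1 z * (g z ^ n * h3 z)))
      (F.cutCont hε H.c2 (fun v hv => (H.z v hv).2.2) (F.h1_cont.mul (F.powCont hDW)))
  have i3 : IntegrableOn (fun y => |φ2 (g (cl x0 x1 t1 t2 (y, τ))) *
      (h1 (cl x0 x1 t1 t2 (y, τ)) * (g (cl x0 x1 t1 t2 (y, τ)) ^ n *
        h3 (cl x0 x1 t1 t2 (y, τ))))|) (Ioc x0 x1) :=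
    ((cR.abs).comp (show Continuous fun y : ℝ => (y, τ) by fun_prop)).integrableOn_Ioc
  have i4 : IntegrableOn (fun x => 1 / 2 * (D ∩ {z | g (cl x0 x1 t1 t2 z) < 2 * ε}).indicator
      (Fd n g h3) (x, τ) + 1 / 2 * (φ2 (g (cl x0 x1 t1 t2 (x, τ))) ^ 2 *
      (g (cl x0 x1 t1 t2 (x, τ)) ^ n * h1 (cl x0 x1 t1 t2 (x, τ)) ^ 2))) (Ioc x0 x1) :=
    (i1.const_mul _).add (i2.const_mul _)
  unfold RE eV
  rw [intervalIntegral.integral_of_le F.hx.le] at hA ⊢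
  have e1 : ∫ y in Ioc x0 x1, |φ2 (g (cl x0 x1 t1 t2 (y, τ))) *
      (h1 (cl x0 x1 t1 t2 (y, τ)) * (g (cl x0 x1 t1 t2 (y, τ)) ^ n *
        h3 (cl x0 x1 t1 t2 (y, τ))))| ≤
      ∫ x in Ioc x0 x1, (1 / 2 * (D ∩ {z | g (cl x0 x1 t1 t2 z) < 2 * ε}).indicator
        (Fd n g h3) (x, τ) + 1 / 2 * (φ2 (g (cl x0 x1 t1 t2 (x, τ))) ^ 2 *
      (g (cl x0 x1 t1 t2 (x, τ)) ^ n * h1 (cl x0 x1 t1 t2 (x, τ)) ^ 2))) := by
    apply setIntegral_mono_on i3 i4 measurableSet_Ioc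
    intro x hx
    have hx' : x ∈ Icc x0 x1 := ⟨hx.1.le, hx.2⟩
    rw [cl_eq hx' hτ]
    by_cases hD : (x, τ) ∈ D
    · have hg := F.g_pos _ hD
      rcases lt_or_ge (g (x, τ)) (2 * ε) with hlt | hge
      · rw [indicator_of_mem (show (x, τ) ∈ D ∩ {z | g (cl x0 x1 t1 t2 z) < 2 * ε} from
          ⟨hD, by
            show g (cl x0 x1 t1 t2 (x, τ)) < 2 * ε
            rw [cl_eq hx' hτ]
            exact hlt⟩)]
        unfold Fd
        have hgn : 0 < g (x, τ) ^ n := Real.rpow_pos_of_pos hg n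
        obtain ⟨r, hr, hr2⟩ : ∃ r, 0 < r ∧ r ^ 2 = g (x, τ) ^ n :=
          ⟨Real.sqrt (g (x, τ) ^ n), Real.sqrt_pos.2 hgn, Real.sq_sqrt hgn.le⟩
        have h5 := two_mul_le' (r * h3 (x, τ)) (r * (φ2 (g (x, τ)) * h1 (x, τ))) 1 one_pos
        have h6 : (r * h3 (x, τ)) * (r * (φ2 (g (x, τ)) * h1 (x, τ))) =
            φ2 (g (x, τ)) * (h1 (x, τ) * (g (x, τ) ^ n * h3 (x, τ))) := by
          rw [← hr2]
          ring
        rw [h6, mul_pow, mul_pow, mul_pow, hr2] at h5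
        linarith
      · rw [H.z2 _ hge, zero_mul, abs_zero]
        have h7 : 0 ≤ (D ∩ {z | g (cl x0 x1 t1 t2 z) < 2 * ε}).indicator (Fd n g h3) (x, τ) := by
          apply indicator_nonneg
          intro z hz
          exact mul_nonneg (Real.rpow_nonneg (F.g_pos z hz.1).le _) (sq_nonneg _)
        have h8 : (0 : ℝ) ^ 2 * (g (x, τ) ^ n * h1 (x, τ) ^ 2) = 0 := by
          rw [zero_pow (by norm_num), zero_mul]
        rw [h8]
        linarith
    · have h0 : g (x, τ) = 0 := F.g_zero _ (F.R_sub x hx' τ hτ) hD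
      rw [indicator_of_notMem (show (x, τ) ∉ D ∩ {z | g (cl x0 x1 t1 t2 z) < 2 * ε} from
        fun h => hD h.1), h0, (H.z 0 hε.le).2.2]
      simp
  refine e1.trans ?_
  rw [integral_add (i1.const_mul _) (i2.const_mul _), integral_const_mul, integral_const_mul]
  linarith

end Pool.Agent.Q81.TF
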