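import Pool.Agent.Q81.TF.Per

open Set MeasureTheory Filter Topology

namespace Pool.Agent.Q81.TF

variable {n x0 x1 t1 t2 : ℝ} {W D : Set (ℝ × ℝ)} {s : ℝ → ℝ} {g h1 h3 ht : ℝ × ℝ → ℝ}
variable {B ε : ℝ} {Fc φ1 φ2 : ℝ → ℝ} {B' μ m0 : ℝ} {Ω ω : ℝ → ℝ}

theorem Flow.omega_le (F : Flow n x0 x1 t1 t2 W D s g h1 h3 ht)
    (H : HCut B ε Fc φ1 φ2) (MC : MCut B' μ m0 Ω ω) (hμ : 0 < μ) (hμm : μ < m0) (hB' : 0 ≤ B')
    {x τ : ℝ} (hx : x ∈ Icc x0 x1) :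
    |ω (mE x0 x1 t1 t2 Fc g (x, τ))| ≤ B' / (Real.log (m0 / μ) * μ) := by
  have hΛ : 0 < Real.log (m0 / μ) := Real.log_pos ((one_lt_div hμ).2 hμm)
  have h0 := F.mE_nonneg H (z := (x, τ)) hx.1
  rcases le_or_gt (mE x0 x1 t1 t2 Fc g (x, τ)) μ with h | h
  · rw [(MC.z _ h0 h).2, abs_zero]
    positivity
  · refine (MC.b1 _ (hμ.trans h)).trans ?_
    apply div_le_div_of_nonneg_left hB' (by positivity)
    exact mul_le_mul_of_nonneg_left h.le hΛ.le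

theorem Flow.flux_le (F : Flow n x0 x1 t1 t2 W D s g h1 h3 ht) (hε : 0 < ε)
    (H : HCut B ε Fc φ1 φ2) (MC : MCut B' μ m0 Ω ω) (hμ : 0 < μ) (hμm : μ < m0) (hB' : 0 ≤ B')
    (hm0 : 2 * m0 ≤ 1) (hεμ : 2 * ε * (x1 - x0) ≤ μ) {x τ l K : ℝ} (hx : x ∈ Icc x0 x1)
    (hτ : τ ∈ Icc t1 t2) (hl : 0 < l) (hK : 0 ≤ K)
    (hA2 : s τ < x → g (x, τ) ^ (n - 1) ≤ K * ((1 + |Real.log (mF x0 x1 t1 t2 g (x, τ))|) *
      mF x0 x1 t1 t2 g (x, τ))) :
    |ω (mE x0 x1 t1 t2 Fc g (x, τ)) * qE n x0 x1 t1 t2 φ1 g h3 (x, τ)| ≤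
      l / 2 * (D ∩ {z | mF x0 x1 t1 t2 g z < 2 * m0}).indicator (Fd n g h3) (x, τ) +
      1 / (2 * l) * ((2 * B' * B / Real.log (m0 / μ)) ^ 2 * (K * (1 - Real.log μ)) *
        (1 / max (mF x0 x1 t1 t2 g (x, τ)) μ * g (x, τ))) := by
  have hΛ : 0 < Real.log (m0 / μ) := Real.log_pos ((one_lt_div hμ).2 hμm)
  have hB : 0 ≤ B := (abs_nonneg _).trans (H.b1 0)
  have hμ1 : μ ≤ 1 := by linarith
  have hlogμ : 0 ≤ -Real.log μ := by
    have := Real.log_nonpos hμ.le hμ1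
    linarith
  have hg0 := F.g_nonneg (F.R_sub x hx τ hτ)
  have hn1 : 0 ≤ (D ∩ {z | mF x0 x1 t1 t2 g z < 2 * m0}).indicator (Fd n g h3) (x, τ) := by
    apply indicator_nonneg
    intro z hz
    exact mul_nonneg (Real.rpow_nonneg (F.g_pos z hz.1).le _) (sq_nonneg _)
  have hmax : 0 < max (mF x0 x1 t1 t2 g (x, τ)) μ := lt_max_of_lt_right hμ
  have hn2 : 0 ≤ 1 / (2 * l) * ((2 * B' * B / Real.log (m0 / μ)) ^ 2 *
      (K * (1 - Real.log μ)) * (1 / max (mF x0 x1 t1 t2 g (x, τ)) μ * g (x, τ))) := by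
    have : 0 ≤ K * (1 - Real.log μ) := mul_nonneg hK (by linarith)
    positivity
  have hrhs := add_nonneg (mul_nonneg (show 0 ≤ l / 2 by positivity) hn1) hn2
  by_cases hD : (x, τ) ∈ D
  swap
  · have h0 : g (x, τ) = 0 := F.g_zero _ (F.R_sub x hx τ hτ) hD
    unfold qE
    rw [cl_eq hx hτ, h0, (H.z 0 hε.le).2.1, zero_mul, mul_zero, abs_zero]
    rw [h0] at hrhs
    exact hrhs
  by_cases hω : ω (mE x0 x1 t1 t2 Fc g (x, τ)) = 0
  · rw [hω, zero_mul, abs_zero]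
    exact hrhs
  obtain ⟨me, hme⟩ : ∃ me, me = mE x0 x1 t1 t2 Fc g (x, τ) := ⟨_, rfl⟩
  obtain ⟨m, hm⟩ : ∃ m, m = mF x0 x1 t1 t2 g (x, τ) := ⟨_, rfl⟩
  have hme0 := F.mE_nonneg H (z := (x, τ)) hx.1
  obtain ⟨hc1, hc2⟩ := F.mE_mF hε H (t := τ) hx
  rw [← hme] at hω hc1 hc2 hme0
  rw [← hm] at hc1 hc2 hmax hA2
  rw [← hme, ← hm]
  have h1 : μ < me := by
    by_contra hcon
    exact hω (MC.z _ hme0 (not_lt.1 hcon)).2
  have h2 : me < m0 := by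
    by_contra hcon
    exact hω (MC.one _ (not_lt.1 hcon)).2
  have h3' : m ≤ 2 * me := by linarith
  have h4 : m < 2 * m0 := by linarith
  have hm0' : 0 < m := by linarith
  have hme0' : 0 < me := by linarith
  have hmax' : max m μ = m := max_eq_left (by linarith)
  rw [hmax', indicator_of_mem (show (x, τ) ∈ D ∩ {z | mF x0 x1 t1 t2 g z < 2 * m0} from ⟨hD, by
    show mF x0 x1 t1 t2 g (x, τ) < 2 * m0
    rw [← hm]
    exact h4⟩)]
  have hg := F.g_pos _ hD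
  have hgn : 0 < g (x, τ) ^ n := Real.rpow_pos_of_pos hg n
  obtain ⟨r, hr, hr2⟩ : ∃ r, 0 < r ∧ r ^ 2 = g (x, τ) ^ n :=
    ⟨Real.sqrt (g (x, τ) ^ n), Real.sqrt_pos.2 hgn, Real.sq_sqrt hgn.le⟩
  have h5 := two_mul_le' (r * h3 (x, τ)) (r * (ω me * φ1 (g (x, τ)))) l hl
  have h6 : (r * h3 (x, τ)) * (r * (ω me * φ1 (g (x, τ)))) =
      ω me * qE n x0 x1 t1 t2 φ1 g h3 (x, τ) := by
    unfold qE
    rw [cl_eq hx hτ, ← hr2]
    ring
  rw [h6] at h5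
  have h7 : (r * h3 (x, τ)) ^ 2 = Fd n g h3 (x, τ) := by
    unfold Fd
    rw [mul_pow, hr2]
  rw [h7] at h5
  refine h5.trans ?_
  have h8 : (r * (ω me * φ1 (g (x, τ)))) ^ 2 ≤ (2 * B' * B / Real.log (m0 / μ)) ^ 2 *
      (K * (1 - Real.log μ)) * (1 / m * g (x, τ)) := by
    have e1 : |ω me * φ1 (g (x, τ))| ≤ 2 * B' * B / Real.log (m0 / μ) * (1 / m) := by
      rw [abs_mul]
      have e2 := MC.b1 me hme0'
      have e3 : B' / (Real.log (m0 / μ) * me) ≤ 2 * B' / Real.log (m0 / μ) * (1 / m) := by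
        rw [div_mul_div_comm, mul_one, div_le_div_iff₀ (by positivity) (by positivity)]
        have e4 : Real.log (m0 / μ) * m ≤ Real.log (m0 / μ) * (2 * me) :=
          mul_le_mul_of_nonneg_left h3' hΛ.le
        have e5 := mul_le_mul_of_nonneg_left e4 hB'
        linarith
      calc |ω me| * |φ1 (g (x, τ))| ≤ (2 * B' / Real.log (m0 / μ) * (1 / m)) * B :=
            mul_le_mul (e2.trans e3) (H.b1 _) (abs_nonneg _) (by positivity)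
        _ = 2 * B' * B / Real.log (m0 / μ) * (1 / m) := by ring
    have e6 : (ω me * φ1 (g (x, τ))) ^ 2 ≤ (2 * B' * B / Real.log (m0 / μ) * (1 / m)) ^ 2 := by
      rw [← sq_abs]
      exact pow_le_pow_left₀ (abs_nonneg _) e1 2
    have e7 : g (x, τ) ^ n ≤ K * (1 - Real.log μ) * m * g (x, τ) := by
      have e8 : g (x, τ) ^ n = g (x, τ) ^ (n - 1) * g (x, τ) := by
        rw [← Real.rpow_add_one hg.ne']
        congr 1
        ring
      rw [e8]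
      apply mul_le_mul_of_nonneg_right _ hg.le
      refine (hA2 ((F.D_iff x hx τ hτ).1 hD)).trans ?_
      have e9 : |Real.log m| ≤ -Real.log μ := by
        rw [abs_of_nonpos (Real.log_nonpos hm0'.le (by linarith))]
        have := Real.log_le_log hμ (show μ ≤ m by linarith)
        linarith
      have e10 : (1 + |Real.log m|) * m ≤ (1 - Real.log μ) * m :=
        mul_le_mul_of_nonneg_right (by linarith) hm0'.le
      calc K * ((1 + |Real.log m|) * m) ≤ K * ((1 - Real.log μ) * m) :=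
            mul_le_mul_of_nonneg_left e10 hK
        _ = K * (1 - Real.log μ) * m := by ring
    rw [mul_pow, hr2]
    calc g (x, τ) ^ n * (ω me * φ1 (g (x, τ))) ^ 2 ≤
          (K * (1 - Real.log μ) * m * g (x, τ)) *
            (2 * B' * B / Real.log (m0 / μ) * (1 / m)) ^ 2 :=
          mul_le_mul e7 e6 (sq_nonneg _) (by
            have : 0 ≤ K * (1 - Real.log μ) := mul_nonneg hK (by linarith)
            positivity)
      _ = (2 * B' * B / Real.log (m0 / μ)) ^ 2 *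
      (K * (1 - Real.log μ)) * (1 / m * g (x, τ)) := by
          field_simp
  have h9 : 1 / (2 * l) * (r * (ω me * φ1 (g (x, τ)))) ^ 2 ≤ 1 / (2 * l) *
      ((2 * B' * B / Real.log (m0 / μ)) ^ 2 * (K * (1 - Real.log μ)) * (1 / m * g (x, τ))) :=
    mul_le_mul_of_nonneg_left h8 (by positivity)
  linarith

theorem Flow.per_time (F : Flow n x0 x1 t1 t2 W D s g h1 h3 ht) (hDW : D ⊆ W) (hε : 0 < ε)
    (H : HCut B ε Fc φ1 φ2) (MC : MCut B' μ m0 Ω ω) (hμ : 0 < μ) (hμm : μ < m0) (hB' : 0 ≤ B')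
    (hm0 : 2 * m0 ≤ 1) (hεμ : 2 * ε * (x1 - x0) ≤ μ) {τ l K A M1 : ℝ}
    (hτ : τ ∈ Icc t1 t2) (hl : 0 < l) (hK : 0 ≤ K)
    (hint : IntegrableOn (fun x => D.indicator (Fd n g h3) (x, τ)) (Ioc x0 x1))
    (hA2 : ∀ x ∈ Icc x0 x1, s τ < x → g (x, τ) ^ (n - 1) ≤ K *
      ((1 + |Real.log (mF x0 x1 t1 t2 g (x, τ))|) * mF x0 x1 t1 t2 g (x, τ)))
    (hA : ∫ x in x0..x1, φ2 (g (cl x0 x1 t1 t2 (x, τ))) ^ 2 *
      (g (cl x0 x1 t1 t2 (x, τ)) ^ n * h1 (cl x0 x1 t1 t2 (x, τ)) ^ 2) ≤ A)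
    (hM1 : mF x0 x1 t1 t2 g (x1, τ) ≤ M1) (hμM : μ ≤ M1) :
    ∫ x in x0..x1, |wE n x0 x1 t1 t2 Fc φ1 φ2 ω g h1 h3 (x, τ)| ≤
      l / 2 * eV n x0 x1 D {z | mF x0 x1 t1 t2 g z < 2 * m0} g h3 τ +
      1 / (2 * l) * ((2 * B' * B / Real.log (m0 / μ)) ^ 2 * (K * (1 - Real.log μ)) *
        (1 + Real.log (M1 / μ))) +
      B' / (Real.log (m0 / μ) * μ) * ((x1 - x0) *
        (1 / 2 * eV n x0 x1 D {z | g (cl x0 x1 t1 t2 z) < 2 * ε} g h3 τ + 1 / 2 * A)) := by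
  have hΛ : 0 < Real.log (m0 / μ) := Real.log_pos ((one_lt_div hμ).2 hμm)
  have hμ1 : μ ≤ 1 := by linarith
  have hlogμ : 0 ≤ -Real.log μ := by
    have := Real.log_nonpos hμ.le hμ1
    linarith
  have hL : 0 < x1 - x0 := by linarith [F.hx]
  have hRE := F.RE_le hDW hε H hτ hint hA
  have hV1 : MeasurableSet {z : ℝ × ℝ | mF x0 x1 t1 t2 g z < 2 * m0} :=
    (isOpen_lt F.mF_cont continuous_const).measurableSet
  have i1 := indicator_int hV1 hint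
  have cG : Continuous (fun z => g (cl x0 x1 t1 t2 z)) := F.clCont F.g_cont
  have cg : Continuous (fun x => g (cl x0 x1 t1 t2 (x, τ))) :=
    cG.comp (show Continuous fun y : ℝ => (y, τ) by fun_prop)
  have cm : Continuous (fun x => 1 / max (mF x0 x1 t1 t2 g (x, τ)) μ *
      g (cl x0 x1 t1 t2 (x, τ))) := by
    apply Continuous.mul _ cg
    apply Continuous.div continuous_const
    · exact (F.mF_cont.comp (show Continuous fun y : ℝ => (y, τ) by fun_prop)).max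
        continuous_const
    · intro x
      exact (lt_max_of_lt_right hμ).ne'
  have i2 : IntegrableOn (fun x => 1 / max (mF x0 x1 t1 t2 g (x, τ)) μ *
      g (cl x0 x1 t1 t2 (x, τ))) (Ioc x0 x1) := cm.integrableOn_Ioc
  obtain ⟨C1, hC1⟩ : ∃ C1, C1 = (2 * B' * B / Real.log (m0 / μ)) ^ 2 *
    (K * (1 - Real.log μ)) := ⟨_, rfl⟩
  have hC10 : 0 ≤ C1 := by
    rw [hC1]
    exact mul_nonneg (sq_nonneg _) (mul_nonneg hK (by linarith))
  obtain ⟨C2, hC2⟩ : ∃ C2, C2 = B' / (Real.log (m0 / μ) * μ) := ⟨_, rfl⟩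
  have hC20 : 0 ≤ C2 := by
    rw [hC2]
    positivity
  have i3 : IntegrableOn (fun x => l / 2 * (D ∩ {z | mF x0 x1 t1 t2 g z < 2 * m0}).indicator
      (Fd n g h3) (x, τ) + 1 / (2 * l) * (C1 * (1 / max (mF x0 x1 t1 t2 g (x, τ)) μ *
      g (cl x0 x1 t1 t2 (x, τ)))) + C2 * RE n x0 x1 t1 t2 φ2 g h1 h3 τ) (Ioc x0 x1) :=
    ((i1.const_mul _).add ((i2.const_mul _).const_mul _)).add (by
      exact integrableOn_const (by rw [Real.volume_Ioc]; exact ENNReal.ofReal_ne_top))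
  have cw : Continuous (fun x => |wE n x0 x1 t1 t2 Fc φ1 φ2 ω g h1 h3 (x, τ)|) :=
    (F.wE_cont hDW hε H MC).abs.comp (show Continuous fun y : ℝ => (y, τ) by fun_prop)
  rw [intervalIntegral.integral_of_le F.hx.le]
  have e1 : ∫ x in Ioc x0 x1, |wE n x0 x1 t1 t2 Fc φ1 φ2 ω g h1 h3 (x, τ)| ≤
      ∫ x in Ioc x0 x1, (l / 2 * (D ∩ {z | mF x0 x1 t1 t2 g z < 2 * m0}).indicator
      (Fd n g h3) (x, τ) + 1 / (2 * l) * (C1 * (1 / max (mF x0 x1 t1 t2 g (x, τ)) μ *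
      g (cl x0 x1 t1 t2 (x, τ)))) + C2 * RE n x0 x1 t1 t2 φ2 g h1 h3 τ) := by
    apply setIntegral_mono_on cw.integrableOn_Ioc i3 measurableSet_Ioc
    intro x hx
    have hx' : x ∈ Icc x0 x1 := ⟨hx.1.le, hx.2⟩
    have h5 := F.flux_le hε H MC hμ hμm hB' hm0 hεμ hx' hτ hl hK (hA2 x hx')
    have h6 := F.omega_le (t1 := t1) (t2 := t2) H MC hμ hμm hB' (τ := τ) hx'
    have h7 := F.rE_le hDW hε H (τ := τ) hx'
    rw [← hC1] at h5
    rw [← hC2] at h6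
    unfold wE
    rw [cl_eq hx' hτ, mul_sub]
    have h8 : |ω (mE x0 x1 t1 t2 Fc g (x, τ)) * rE n x0 x1 t1 t2 φ2 g h1 h3 (x, τ)| ≤
        C2 * RE n x0 x1 t1 t2 φ2 g h1 h3 τ := by
      rw [abs_mul]
      exact mul_le_mul h6 h7 (abs_nonneg _) hC20
    have h9 := abs_sub (ω (mE x0 x1 t1 t2 Fc g (x, τ)) * rE n x0 x1 t1 t2 φ2 g h1 h3 (x, τ))
      (ω (mE x0 x1 t1 t2 Fc g (x, τ)) * qE n x0 x1 t1 t2 φ1 g h3 (x, τ))
    linarith
  refine e1.trans ?_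
  have e2 : ∫ x in Ioc x0 x1, (l / 2 * (D ∩ {z | mF x0 x1 t1 t2 g z < 2 * m0}).indicator
      (Fd n g h3) (x, τ) + 1 / (2 * l) * (C1 * (1 / max (mF x0 x1 t1 t2 g (x, τ)) μ *
      g (cl x0 x1 t1 t2 (x, τ)))) + C2 * RE n x0 x1 t1 t2 φ2 g h1 h3 τ) =
      l / 2 * eV n x0 x1 D {z | mF x0 x1 t1 t2 g z < 2 * m0} g h3 τ +
      1 / (2 * l) * (C1 * ∫ x in Ioc x0 x1, (1 / max (mF x0 x1 t1 t2 g (x, τ)) μ *
      g (cl x0 x1 t1 t2 (x, τ)))) + (x1 - x0) * (C2 * RE n x0 x1 t1 t2 φ2 g h1 h3 τ) := by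
    unfold eV
    have j1 : IntegrableOn (fun x => l / 2 * (D ∩ {z | mF x0 x1 t1 t2 g z < 2 * m0}).indicator
        (Fd n g h3) (x, τ)) (Ioc x0 x1) := i1.const_mul _
    have j2 : IntegrableOn (fun x => 1 / (2 * l) * (C1 * (1 / max (mF x0 x1 t1 t2 g (x, τ)) μ *
        g (cl x0 x1 t1 t2 (x, τ))))) (Ioc x0 x1) := (i2.const_mul _).const_mul _
    have j3 : IntegrableOn (fun x => l / 2 * (D ∩ {z | mF x0 x1 t1 t2 g z < 2 * m0}).indicator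
        (Fd n g h3) (x, τ) + 1 / (2 * l) * (C1 * (1 / max (mF x0 x1 t1 t2 g (x, τ)) μ *
        g (cl x0 x1 t1 t2 (x, τ))))) (Ioc x0 x1) := j1.add j2
    have j4 : IntegrableOn (fun _ : ℝ => C2 * RE n x0 x1 t1 t2 φ2 g h1 h3 τ) (Ioc x0 x1) :=
      integrableOn_const (by rw [Real.volume_Ioc]; exact ENNReal.ofReal_ne_top)
    rw [integral_add j3 j4, integral_add j1 j2, integral_const_mul, integral_const_mul,
      integral_const_mul, setIntegral_const, smul_eq_mul]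
    congr 2
    rw [measureReal_def, Real.volume_Ioc, ENNReal.toReal_ofReal hL.le]
  rw [e2]
  have e3 : ∫ x in Ioc x0 x1, (1 / max (mF x0 x1 t1 t2 g (x, τ)) μ *
      g (cl x0 x1 t1 t2 (x, τ))) ≤ 1 + Real.log (M1 / μ) := by
    rw [← intervalIntegral.integral_of_le F.hx.le]
    exact int_log cg hμ hμM (F.mF_nonneg (z := (x1, τ)) F.hx.le) hM1
  have e4 : 1 / (2 * l) * (C1 * ∫ x in Ioc x0 x1, (1 / max (mF x0 x1 t1 t2 g (x, τ)) μ *
      g (cl x0 x1 t1 t2 (x, τ)))) ≤ 1 / (2 * l) * (C1 * (1 + Real.log (M1 / μ))) :=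
    mul_le_mul_of_nonneg_left (mul_le_mul_of_nonneg_left e3 hC10) (by positivity)
  have e5 : (x1 - x0) * (C2 * RE n x0 x1 t1 t2 φ2 g h1 h3 τ) ≤ C2 * ((x1 - x0) *
        (1 / 2 * eV n x0 x1 D {z | g (cl x0 x1 t1 t2 z) < 2 * ε} g h3 τ + 1 / 2 * A)) := by
    have := mul_le_mul_of_nonneg_left hRE (mul_nonneg hC20 hL.le)
    linarith
  rw [← hC1, ← hC2]
  linarith

end Pool.Agent.Q81.TF
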