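import Pool.Agent.Q81.TF.Deep

open Set MeasureTheory Filter Topology

namespace Pool.Agent.Q81.TF

variable {n a0 a E : ℝ} {f f1 f2 f3 : ℝ → ℝ}

theorem Prof.inv_above (P : Prof n a0 a E f f1 f2 f3) {p q lev : ℝ} (hp : a0 < p)
    (hq : q ≤ a) (h0 : lev ≤ f1 p) (hb : ∀ x ∈ Icc p q, f1 x = lev → 0 < f2 x) :
    ∀ x ∈ Icc p q, lev ≤ f1 x := by
  have hsub : Icc p q ⊆ Ioc a0 a := fun x hx => ⟨hp.trans_le hx.1, hx.2.trans hq⟩
  obtain ⟨c0, c1, c2, c3, cG, cw⟩ := P.cont hp hq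
  intro x hx
  have h1 := image_le_of_deriv_right_lt_deriv_boundary (f := fun y => -f1 y) (f' := fun y => -f2 y)
    (B := fun _ => -lev) (B' := fun _ => 0) c1.neg
    (fun y hy => (P.d1 y (hsub ⟨hy.1, hy.2.le⟩)).neg.hasDerivWithinAt) (by simpa using h0)
    (fun y => hasDerivAt_const y (-lev)) (fun y hy h => by
      have := hb y ⟨hy.1, hy.2.le⟩ (by simpa using h)
      simpa using this) hx
  simpa using h1

/-- barriers from the right -/
theorem Prof.back_above (P : Prof n a0 a E f f1 f2 f3) {p q lev : ℝ} (hp : a0 < p)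
    (hq : q ≤ a) (h0 : lev ≤ f1 q) (hb : ∀ x ∈ Icc p q, f1 x = lev → f2 x < 0) :
    ∀ x ∈ Icc p q, lev ≤ f1 x := by
  have hsub : Icc p q ⊆ Ioc a0 a := fun x hx => ⟨hp.trans_le hx.1, hx.2.trans hq⟩
  obtain ⟨c0, c1, c2, c3, cG, cw⟩ := P.cont hp hq
  intro x hx
  have hd : ∀ y ∈ Icc (-q) (-p), HasDerivAt (fun y => -f1 (-y)) (f2 (-y)) y := by
    intro y hy
    have h1 := P.d1 (-y) (hsub ⟨by linarith [hy.2], by linarith [hy.1]⟩)
    have h2 := (h1.comp y (hasDerivAt_neg y)).neg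
    refine HasDerivAt.congr_deriv h2 ?_
    ring
  have h1 := image_le_of_deriv_right_lt_deriv_boundary (f := fun y => -f1 (-y))
    (f' := fun y => f2 (-y)) (a := -q) (b := -p)
    (B := fun _ => -lev) (B' := fun _ => 0)
    (fun y hy => (hd y hy).continuousAt.continuousWithinAt)
    (fun y hy => (hd y ⟨hy.1, hy.2.le⟩).hasDerivWithinAt) (by simpa using h0)
    (fun y => hasDerivAt_const y (-lev)) (fun y hy h => by
      have := hb (-y) ⟨by linarith [hy.2], by linarith [hy.1]⟩ (by simpa using h)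
      simpa using this) (x := -x) ⟨by linarith [hx.2], by linarith [hx.1]⟩
  simpa using h1

theorem Prof.back_below (P : Prof n a0 a E f f1 f2 f3) {p q lev : ℝ} (hp : a0 < p)
    (hq : q ≤ a) (h0 : f1 q ≤ lev) (hb : ∀ x ∈ Icc p q, f1 x = lev → 0 < f2 x) :
    ∀ x ∈ Icc p q, f1 x ≤ lev := by
  have hsub : Icc p q ⊆ Ioc a0 a := fun x hx => ⟨hp.trans_le hx.1, hx.2.trans hq⟩
  intro x hx
  have hd : ∀ y ∈ Icc (-q) (-p), HasDerivAt (fun y => f1 (-y)) (-f2 (-y)) y := by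
    intro y hy
    have h1 := P.d1 (-y) (hsub ⟨by linarith [hy.2], by linarith [hy.1]⟩)
    have h2 := h1.comp y (hasDerivAt_neg y)
    simpa [Function.comp_def] using h2
  have h1 := image_le_of_deriv_right_lt_deriv_boundary (f := fun y => f1 (-y))
    (f' := fun y => -f2 (-y)) (a := -q) (b := -p)
    (B := fun _ => lev) (B' := fun _ => 0)
    (fun y hy => (hd y hy).continuousAt.continuousWithinAt)
    (fun y hy => (hd y ⟨hy.1, hy.2.le⟩).hasDerivWithinAt) (by simpa using h0)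
    (fun y => hasDerivAt_const y lev) (fun y hy h => by
      have := hb (-y) ⟨by linarith [hy.2], by linarith [hy.1]⟩ (by simpa using h)
      simpa using this) (x := -x) ⟨by linarith [hx.2], by linarith [hx.1]⟩
  simpa using h1

theorem Prof.mono_up (P : Prof n a0 a E f f1 f2 f3) {p q : ℝ} (hp : a0 < p)
    (hq : q ≤ a) (h : ∀ x ∈ Icc p q, 0 ≤ f1 x) : MonotoneOn f (Icc p q) := by
  obtain ⟨c0, c1, c2, c3, cG, cw⟩ := P.cont hp hq
  apply monotoneOn_of_deriv_nonneg (convex_Icc p q) c0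
  · intro y hy
    rw [interior_Icc] at hy
    exact (P.d0 y ⟨hp.trans hy.1, hy.2.le.trans hq⟩).differentiableAt.differentiableWithinAt
  · intro y hy
    rw [interior_Icc] at hy
    rw [(P.d0 y ⟨hp.trans hy.1, hy.2.le.trans hq⟩).deriv]
    exact h y ⟨hy.1.le, hy.2.le⟩

theorem Prof.mono_down (P : Prof n a0 a E f f1 f2 f3) {p q : ℝ} (hp : a0 < p)
    (hq : q ≤ a) (h : ∀ x ∈ Icc p q, f1 x ≤ 0) : AntitoneOn f (Icc p q) := by
  obtain ⟨c0, c1, c2, c3, cG, cw⟩ := P.cont hp hq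
  apply antitoneOn_of_deriv_nonpos (convex_Icc p q) c0
  · intro y hy
    rw [interior_Icc] at hy
    exact (P.d0 y ⟨hp.trans hy.1, hy.2.le.trans hq⟩).differentiableAt.differentiableWithinAt
  · intro y hy
    rw [interior_Icc] at hy
    rw [(P.d0 y ⟨hp.trans hy.1, hy.2.le.trans hq⟩).deriv]
    exact h y ⟨hy.1.le, hy.2.le⟩

/-- the cost of a convex steep branch: `∫ f ^ (2 - n) ≤ w ^ (3 - n) * 8 / (3 σ)` -/
theorem Prof.convex_cost (P : Prof n a0 a E f f1 f2 f3) (hn : 3 ≤ n) {p q σ w : ℝ} (hp : a0 < p)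
    (hpq : p ≤ q) (hq : q ≤ a) (hσ : 0 < σ) (hw : 0 < w) (hwf : ∀ x ∈ Icc p q, w ≤ f x)
    (hs : ∀ x ∈ Icc p q, σ ≤ |f1 x|) (hG : ∀ x ∈ Icc p q, Gf f f1 f2 x ≤ σ ^ 2 / 8) :
    ∫ x in p..q, f x ^ (2 - n) ≤ w ^ (3 - n) * (8 / (3 * σ)) := by
  have hsub : Icc p q ⊆ Ioc a0 a := fun x hx => ⟨hp.trans_le hx.1, hx.2.trans hq⟩
  obtain ⟨c0, c1, c2, c3, cG, cw⟩ := P.cont hp hq
  have hne : ∀ x ∈ Icc p q, f1 x ≠ 0 := fun x hx h => by
    have := hs x hx
    rw [h, abs_zero] at this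
    linarith
  have hd : ∀ x ∈ uIcc p q, HasDerivAt (fun x => -(f1 x)⁻¹) (f2 x / f1 x ^ 2) x := by
    intro x hx
    rw [uIcc_of_le hpq] at hx
    have h1 := ((P.d1 x (hsub hx)).inv (hne x hx)).neg
    apply HasDerivAt.congr_deriv h1
    ring
  have hci : IntervalIntegrable (fun x => f2 x / f1 x ^ 2) volume p q := by
    apply ContinuousOn.intervalIntegrable
    rw [uIcc_of_le hpq]
    exact c2.div (c1.pow 2) (fun x hx => pow_ne_zero 2 (hne x hx))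
  have hftc := intervalIntegral.integral_eq_sub_of_hasDerivAt hd hci
  have hii := P.ii hp hpq hq
  have hle : ∫ x in p..q, f x ^ (2 - n) ≤ ∫ x in p..q, w ^ (3 - n) * (8 / 3) *
      (f2 x / f1 x ^ 2) := by
    apply intervalIntegral.integral_mono_on hpq hii (hci.const_mul _)
    intro x hx
    have hfx := P.pos x (hsub hx)
    have e1 : f x ^ (2 - n) = f x ^ (3 - n) / f x := by
      rw [← Real.rpow_sub_one hfx.ne']
      congr 1
      ring
    have e2 : f x ^ (3 - n) ≤ w ^ (3 - n) :=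
      Real.rpow_le_rpow_of_nonpos hw (hwf x hx) (by linarith)
    have e3 : 0 ≤ w ^ (3 - n) := Real.rpow_nonneg hw.le _
    have e4 := hG x hx
    unfold Gf at e4
    have e5 := hs x hx
    have e6 : σ ^ 2 ≤ f1 x ^ 2 := by
      rw [← sq_abs (f1 x)]
      exact pow_le_pow_left₀ hσ.le e5 2
    have e7 : 0 < f1 x ^ 2 := by
      have : 0 < σ ^ 2 := by positivity
      linarith
    have e8 : 3 / 8 * f1 x ^ 2 ≤ f x * f2 x := by linarith
    have e9 : 1 / f x ≤ 8 / 3 * (f2 x / f1 x ^ 2) := by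
      rw [mul_div_assoc', div_le_div_iff₀ hfx e7]
      linarith
    rw [e1]
    calc f x ^ (3 - n) / f x = f x ^ (3 - n) * (1 / f x) := by ring
      _ ≤ w ^ (3 - n) * (8 / 3 * (f2 x / f1 x ^ 2)) := by
          apply mul_le_mul e2 e9 (by positivity) e3
      _ = _ := by ring
  rw [intervalIntegral.integral_const_mul, hftc] at hle
  have h3 : -(f1 q)⁻¹ - -(f1 p)⁻¹ ≤ 1 / σ := by
    have hpm : p ∈ Icc p q := ⟨le_rfl, hpq⟩
    have hqm : q ∈ Icc p q := ⟨hpq, le_rfl⟩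
    -- `f1` has a constant sign
    rcases lt_or_gt_of_ne (hne p hpm) with h1 | h1
    · have h2 : (f1 p)⁻¹ ≤ 0 := inv_nonpos.2 h1.le
      have h4 : -(f1 q)⁻¹ ≤ 1 / σ := by
        rw [one_div]
        refine (neg_le_abs _).trans ?_
        rw [abs_inv]
        exact inv_anti₀ hσ (hs q hqm)
      linarith
    · have h4 : (f1 p)⁻¹ ≤ 1 / σ := by
        rw [one_div]
        refine (le_abs_self _).trans ?_
        rw [abs_inv]
        exact inv_anti₀ hσ (hs p hpm)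
      have h5 : 0 < f1 q := by
        by_contra hcon
        push Not at hcon
        obtain ⟨y, hy, hy0⟩ := intermediate_value_Icc' hpq c1 ⟨hcon, h1.le⟩
        exact hne y hy hy0
      have h6 : 0 < (f1 q)⁻¹ := inv_pos.2 h5
      linarith
  have h4 : 0 ≤ w ^ (3 - n) * (8 / 3) := mul_nonneg (Real.rpow_nonneg hw.le _) (by norm_num)
  calc ∫ x in p..q, f x ^ (2 - n) ≤ _ := hle
    _ ≤ w ^ (3 - n) * (8 / 3) * (1 / σ) := mul_le_mul_of_nonneg_left h3 h4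
    _ = _ := by field_simp

/-- a steep rising point: the branch reaches the right end, or the point is expensive -/
theorem Prof.rise (P : Prof n a0 a E f f1 f2 f3) (hn : 3 ≤ n) {x : ℝ} (hx : x ∈ Ioc a0 a)
    (hσ : 0 < f1 x) : f1 x ≤ f1 a ∨ f1 x ^ 2 / 16 ≤ Gf f f1 f2 x ∨
      f1 x ^ 5 ≤ 683 * E * f x ^ (3 - n) := by
  rcases le_or_gt (f1 x ^ 2 / 16) (Gf f f1 f2 x) with hG | hG
  · exact Or.inr (Or.inl hG)
  obtain ⟨σ, hσe⟩ : ∃ σ, σ = f1 x := ⟨_, rfl⟩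
  rw [← hσe] at hσ hG ⊢
  have hE := P.E_nonneg
  have hσ2 : 0 < σ ^ 2 := by positivity
  obtain ⟨c0, c1, c2, c3, cG, cw⟩ := P.cont hx.1 (le_refl a)
  obtain ⟨z, hz, hz1, hz2⟩ := split_right (u := fun y => -Gf f f1 f2 y) (κ := -(σ ^ 2 / 8)) hx.2
    cG.neg (by linarith)
  have hz1' : ∀ y ∈ Icc x z, Gf f f1 f2 y ≤ σ ^ 2 / 8 := fun y hy => by
    have := hz1 y hy
    linarith
  have hup : ∀ y ∈ Icc x z, σ ≤ f1 y := by
    apply P.inv_above hx.1 hz.2 hσe.le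
    intro y hy heq
    have h1 := hz1' y hy
    unfold Gf at h1
    rw [heq] at h1
    have h2 := P.pos y ⟨hx.1.trans_le hy.1, hy.2.trans hz.2⟩
    have h3 : 0 < f y * f2 y := by linarith
    by_contra hcon
    push Not at hcon
    exact absurd h3 (not_lt.2 (mul_nonpos_of_nonneg_of_nonpos h2.le hcon))
  rcases hz2 with h | h
  · left
    rw [← h]
    exact hup z ⟨hz.1, le_rfl⟩
  · right; right
    have hze : Gf f f1 f2 z = σ ^ 2 / 8 := by linarith
    have hmono := P.mono_up hx.1 hz.2 (fun y hy => hσ.le.trans (hup y hy))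
    have hxm : x ∈ Icc x z := ⟨le_rfl, hz.1⟩
    have hcost := P.convex_cost hn hx.1 hz.1 hz.2 hσ (P.pos x hx)
      (fun y hy => hmono hxm hy hy.1) (fun y hy => (hup y hy).trans (le_abs_self _)) hz1'
    have hGd := P.Gdiff hx.1 hz.1 hz.2
    rw [hze] at hGd
    have h3 : (σ ^ 2 / 16) ^ 2 ≤ (Gf f f1 f2 x - σ ^ 2 / 8) ^ 2 := by
      rw [← sq_abs (Gf f f1 f2 x - σ ^ 2 / 8)]
      apply pow_le_pow_left₀ (by positivity)
      rw [abs_sub_comm]
      refine le_trans ?_ (le_abs_self _)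
      linarith
    have h4 : (σ ^ 2 / 16) ^ 2 ≤ f x ^ (3 - n) * (8 / (3 * σ)) * E :=
      h3.trans (hGd.trans (mul_le_mul_of_nonneg_right hcost hE))
    have h5 : (σ ^ 2 / 16) ^ 2 * (768 * σ) ≤ f x ^ (3 - n) * (8 / (3 * σ)) * E * (768 * σ) :=
      mul_le_mul_of_nonneg_right h4 (by positivity)
    have h6 : f x ^ (3 - n) * (8 / (3 * σ)) * E * (768 * σ) = 2048 * E * f x ^ (3 - n) := by
      field_simp
      ring
    have h7 : (σ ^ 2 / 16) ^ 2 * (768 * σ) = 3 * σ ^ 5 := by ring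
    rw [h6, h7] at h5
    have h8 : 0 ≤ E * f x ^ (3 - n) := mul_nonneg hE (Real.rpow_nonneg (P.pos x hx).le _)
    nlinarith only [h8, h5]

/-- a steep falling point is expensive -/
theorem Prof.fall (P : Prof n a0 a E f f1 f2 f3) (hn : 3 ≤ n) {x : ℝ} (hx : x ∈ Ioc a0 a)
    (hσ : f1 x < 0) : f1 x ^ 2 / 16 ≤ Gf f f1 f2 x ∨ |f1 x| ^ 5 ≤ 683 * E * f x ^ (3 - n) := by
  rcases le_or_gt (f1 x ^ 2 / 16) (Gf f f1 f2 x) with hG | hG
  · exact Or.inl hG
  right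
  obtain ⟨σ, hσe⟩ : ∃ σ, σ = |f1 x| := ⟨_, rfl⟩
  have hfx : f1 x = -σ := by rw [hσe, abs_of_neg hσ]; ring
  rw [← hσe]
  rw [hfx] at hG
  have hσ0 : 0 < σ := by rw [hσe]; exact abs_pos.2 hσ.ne
  have hE := P.E_nonneg
  have hσ2 : 0 < σ ^ 2 := by positivity
  have hGx : Gf f f1 f2 x < σ ^ 2 / 16 := by
    have : (-σ) ^ 2 = σ ^ 2 := by ring
    linarith
  have hfpos := P.pos x hx
  obtain ⟨r, hr, hr'⟩ := P.lim (f x) hfpos
  obtain ⟨α, hα1, hα2⟩ : ∃ α, a0 < α ∧ α < min r x := exists_between (lt_min hr hx.1)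
  have hαr : α < r := hα2.trans_le (min_le_left _ _)
  have hαx : α < x := hα2.trans_le (min_le_right _ _)
  have hfα := hr' α ⟨hα1, hαr⟩
  obtain ⟨c0, c1, c2, c3, cG, cw⟩ := P.cont hα1 hx.2
  obtain ⟨z, hz, hz1, hz2⟩ := split_left (u := fun y => -Gf f f1 f2 y) (κ := -(σ ^ 2 / 8)) hαx.le
    cG.neg (by linarith)
  have hzs : a0 < z := hα1.trans_le hz.1
  have hz1' : ∀ y ∈ Icc z x, Gf f f1 f2 y ≤ σ ^ 2 / 8 := fun y hy => by
    have := hz1 y hy
    linarith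
  have hdn : ∀ y ∈ Icc z x, f1 y ≤ -σ := by
    apply P.back_below hzs hx.2 hfx.le
    intro y hy heq
    have h1 := hz1' y hy
    unfold Gf at h1
    rw [heq] at h1
    have h2 := P.pos y ⟨hzs.trans_le hy.1, hy.2.trans hx.2⟩
    have h3 : 0 < f y * f2 y := by nlinarith only [h1, hfx, hσ]
    by_contra hcon
    push Not at hcon
    exact absurd h3 (not_lt.2 (mul_nonpos_of_nonneg_of_nonpos h2.le hcon))
  have hmono := P.mono_down hzs hx.2 (fun y hy => (hdn y hy).trans (by linarith))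
  have hxm : x ∈ Icc z x := ⟨hz.2, le_rfl⟩
  rcases hz2 with h | h
  · exfalso
    have h1 := hmono (⟨le_rfl, hz.2⟩ : z ∈ Icc z x) hxm hz.2
    rw [h] at h1
    linarith
  · have hze : Gf f f1 f2 z = σ ^ 2 / 8 := by linarith
    have hcost := P.convex_cost hn hzs hz.2 hx.2 hσ0 hfpos
      (fun y hy => hmono hy hxm hy.2) (fun y hy => by
        have h1 := hdn y hy
        exact (by linarith : σ ≤ -f1 y).trans (neg_le_abs _)) hz1'
    have hGd := P.Gdiff hzs hz.2 hx.2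
    rw [hze] at hGd
    have h3 : (σ ^ 2 / 16) ^ 2 ≤ (σ ^ 2 / 8 - Gf f f1 f2 x) ^ 2 := by
      apply pow_le_pow_left₀ (by positivity)
      linarith
    have h4 : (σ ^ 2 / 16) ^ 2 ≤ f x ^ (3 - n) * (8 / (3 * σ)) * E :=
      h3.trans (hGd.trans (mul_le_mul_of_nonneg_right hcost hE))
    have h5 : (σ ^ 2 / 16) ^ 2 * (768 * σ) ≤ f x ^ (3 - n) * (8 / (3 * σ)) * E * (768 * σ) :=
      mul_le_mul_of_nonneg_right h4 (by positivity)
    have h6 : f x ^ (3 - n) * (8 / (3 * σ)) * E * (768 * σ) = 2048 * E * f x ^ (3 - n) := by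
      field_simp
      ring
    have h7 : (σ ^ 2 / 16) ^ 2 * (768 * σ) = 3 * σ ^ 5 := by ring
    rw [h6, h7] at h5
    have h8 : 0 ≤ E * f x ^ (3 - n) := mul_nonneg hE (Real.rpow_nonneg hfpos.le _)
    nlinarith only [h8, h5]

/-- the branch to the left of an expensive rising point -/
theorem Prof.rise_left (P : Prof n a0 a E f f1 f2 f3) {α x : ℝ} (hα : a0 < α) (hαx : α ≤ x)
    (hx : x ≤ a) (hσ : 0 < f1 x) (hG : f1 x ^ 2 / 16 ≤ Gf f f1 f2 x) :
    ∃ z ∈ Icc α x, (∀ y ∈ Icc z x, f1 x / 8 ≤ f1 y ∧ f1 x ^ 2 / 32 ≤ Gf f f1 f2 y) ∧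
      (z = α ∨ (Gf f f1 f2 z = f1 x ^ 2 / 32 ∧
        f1 x ^ 5 ≤ 8192 * E * (depth n (f z) - depth n (f x)))) := by
  obtain ⟨σ, hσe⟩ : ∃ σ, σ = f1 x := ⟨_, rfl⟩
  rw [← hσe] at hσ hG ⊢
  have hE := P.E_nonneg
  have hσ2 : 0 < σ ^ 2 := by positivity
  obtain ⟨c0, c1, c2, c3, cG, cw⟩ := P.cont hα hx
  obtain ⟨z, hz, hz1, hz2⟩ := split_left (u := Gf f f1 f2) (κ := σ ^ 2 / 32) hαx cG (by linarith)
  have hzs : a0 < z := hα.trans_le hz.1
  have hup : ∀ y ∈ Icc z x, σ / 8 ≤ f1 y := by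
    apply P.back_above hzs hx (by linarith)
    intro y hy heq
    have h1 := hz1 y hy
    unfold Gf at h1
    rw [heq] at h1
    have h2 := P.pos y ⟨hzs.trans_le hy.1, hy.2.trans hx⟩
    have h3 : f y * f2 y < 0 := by nlinarith only [h1, hσ2]
    by_contra hcon
    push Not at hcon
    exact absurd h3 (not_lt.2 (mul_nonneg h2.le hcon))
  refine ⟨z, hz, fun y hy => ⟨hup y hy, hz1 y hy⟩, ?_⟩
  rcases hz2 with h | h
  · exact Or.inl h
  right
  refine ⟨h, ?_⟩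
  have hzm : z ∈ Icc z x := ⟨le_rfl, hz.2⟩
  have hxm : x ∈ Icc z x := ⟨hz.2, le_rfl⟩
  have hmono := P.mono_up hzs hx (fun y hy => (by positivity : (0:ℝ) ≤ σ / 8).trans (hup y hy))
  have hzp := P.pos z ⟨hzs, hz.2.trans hx⟩
  have hcost := P.phase (κ := σ / 8) (d := f z) (M := f x) hzs hz.2 hx hzp
    (fun y hy => hmono hzm hy hy.1) (fun y hy => hmono hy hxm hy.2) (Or.inl hup)
  have hGd := P.Gdiff hzs hz.2 hx
  rw [h] at hGd
  have h3 : (σ ^ 2 / 32) ^ 2 ≤ (σ ^ 2 / 32 - Gf f f1 f2 x) ^ 2 := by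
    rw [← sq_abs (σ ^ 2 / 32 - Gf f f1 f2 x), abs_sub_comm]
    apply pow_le_pow_left₀ (by positivity)
    refine le_trans ?_ (le_abs_self _)
    linarith
  obtain ⟨I, hI⟩ : ∃ I, I = ∫ y in z..x, f y ^ (2 - n) := ⟨_, rfl⟩
  rw [← hI] at hGd hcost
  have h4 : (σ ^ 2 / 32) ^ 2 ≤ I * E := h3.trans hGd
  have h5 : (σ ^ 2 / 32) ^ 2 * (σ / 8) ≤ I * E * (σ / 8) :=
    mul_le_mul_of_nonneg_right h4 (by positivity)
  have h6 : σ / 8 * I * E ≤ (depth n (f z) - depth n (f x)) * E :=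
    mul_le_mul_of_nonneg_right hcost hE
  nlinarith only [h6, h5]

end Pool.Agent.Q81.TF
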