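import Pool.Agent.Q81.TF.SSlice

open Set MeasureTheory Filter Topology

namespace Pool.Agent.Q81.TF

variable {n x0 x1 t1 t2 : ℝ} {W D : Set (ℝ × ℝ)} {s : ℝ → ℝ} {g h1 h2 h3 ht : ℝ × ℝ → ℝ}

/-- the negative moment of the height in a window of the label -/
noncomputable def Sf (n x0 x1 t1 t2 : ℝ) (g : ℝ × ℝ → ℝ) (w0 : ℝ → ℝ) (t : ℝ) : ℝ :=
  ∫ x in x0..x1, w0 (mF x0 x1 t1 t2 g (x, t)) * g (x, t) ^ (8 / 5 - n)

/-- its rate of change, density -/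
noncomputable def Sd (n x0 x1 t1 t2 : ℝ) (g h3 ht : ℝ × ℝ → ℝ) (w0 w1 : ℝ → ℝ) (z : ℝ × ℝ) : ℝ :=
  -(w1 (mF x0 x1 t1 t2 g z) * (Jx n g h3 z * g z ^ (8 / 5 - n))) +
    w0 (mF x0 x1 t1 t2 g z) * ((8 / 5 - n) * (g z ^ (3 / 5 - n) * ht z))

/-- points with a given label -/
theorem Flow.label_ex (F : Flow n x0 x1 t1 t2 W D s g h1 h3 ht) {τ v c : ℝ} (hτ : τ ∈ Icc t1 t2)
    (hc : c ∈ Icc x0 x1) (hv : 0 < v) (hvc : v ≤ mF x0 x1 t1 t2 g (c, τ)) :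
    ∃ u ∈ Ioc (s τ) c, mF x0 x1 t1 t2 g (u, τ) = v := by
  have hst := F.s_mem τ hτ
  have hsm : s τ ∈ Icc x0 x1 := ⟨hst.1.le, hst.2.le⟩
  have h0 : mF x0 x1 t1 t2 g (s τ, τ) = 0 := by
    apply F.mF_zero hsm hτ
    rw [F.D_iff _ hsm τ hτ]
    exact lt_irrefl _
  have hsc : s τ ≤ c := by
    by_contra hcon
    push Not at hcon
    have : mF x0 x1 t1 t2 g (c, τ) = 0 := by
      apply F.mF_zero hc hτ
      rw [F.D_iff _ hc τ hτ]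
      exact not_lt.2 hcon.le
    linarith
  have hcont : ContinuousOn (fun x => mF x0 x1 t1 t2 g (x, τ)) (Icc (s τ) c) :=
    (F.mF_cont.comp (show Continuous fun x : ℝ => (x, τ) by fun_prop)).continuousOn
  obtain ⟨u, hu, hu'⟩ := intermediate_value_Icc hsc hcont
    (show v ∈ Icc (mF x0 x1 t1 t2 g (s τ, τ)) (mF x0 x1 t1 t2 g (c, τ)) from
      ⟨by rw [h0]; exact hv.le, hvc⟩)
  refine ⟨u, ⟨?_, hu.2⟩, hu'⟩
  rcases eq_or_lt_of_le hu.1 with h | h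
  · exfalso
    have hu'' : mF x0 x1 t1 t2 g (u, τ) = v := hu'
    rw [← h, h0] at hu''
    linarith
  · exact h

theorem Flow.slD (F : Flow n x0 x1 t1 t2 W D s g h1 h3 ht) {τ : ℝ} (hτ : τ ∈ Icc t1 t2) {u v : ℝ}
    (hu : s τ < u) (hv : v ≤ x1) : ∀ x ∈ Icc u v, (x, τ) ∈ D := fun x hx =>
  (F.D_iff x ⟨(F.s_mem τ hτ).1.le.trans (hu.le.trans hx.1), hx.2.trans hv⟩ τ hτ).2
    (hu.trans_le hx.1)

theorem Flow.uD_cont (F : Flow n x0 x1 t1 t2 W D s g h1 h3 ht) (hDW : D ⊆ W) (p : ℝ) :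
    ContinuousOn (fun z => g z ^ p) D :=
  (F.g_cont.mono hDW).rpow_const (fun z hz => Or.inl (F.g_pos z hz).ne')

section
variable {b μ Z : ℝ} {w0 w1 w2 : ℝ → ℝ}

theorem Flow.Sf_cont (F : Flow n x0 x1 t1 t2 W D s g h1 h3 ht) (hDW : D ⊆ W)
    (WC : WCut b μ Z w0 w1 w2) (hb : 0 < b - 2 * μ) :
    ContinuousOn (fun z => w0 (mF x0 x1 t1 t2 g z) * g z ^ (8 / 5 - n)) (Icc x0 x1 ×ˢ Icc t1 t2) :=
  F.labCut hb WC.c0 (fun v hv => (WC.lo v hv).1) (F.uD_cont hDW _)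

theorem Flow.Sd_cont (F : Flow n x0 x1 t1 t2 W D s g h1 h3 ht) (hDW : D ⊆ W)
    (WC : WCut b μ Z w0 w1 w2) (hb : 0 < b - 2 * μ) :
    ContinuousOn (Sd n x0 x1 t1 t2 g h3 ht w0 w1) (Icc x0 x1 ×ˢ Icc t1 t2) := by
  unfold Sd
  apply ContinuousOn.add
  · apply ContinuousOn.neg
    exact F.labCut hb WC.c1 (fun v hv => (WC.lo v hv).2.1)
      ((F.powCont hDW).mul (F.uD_cont hDW _))
  · exact F.labCut hb WC.c0 (fun v hv => (WC.lo v hv).1)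
      (continuousOn_const.mul ((F.uD_cont hDW _).mul F.ht_cont))

theorem Flow.S_time (F : Flow n x0 x1 t1 t2 W D s g h1 h3 ht) (J : Jet D h1 h2 h3)
    (hDW : D ⊆ W) (hn : 3 ≤ n) (hμ : 0 < μ) (hZ : 0 ≤ Z) (WC : WCut b μ Z w0 w1 w2)
    (hb : 0 < b - 2 * μ) {τ H : ℝ} (hτ : τ ∈ Icc t1 t2)
    (hx1 : b + 2 * μ ≤ mF x0 x1 t1 t2 g (x1, τ))
    (hH : ∀ x ∈ Icc x0 x1, s τ < x → b - 2 * μ ≤ mF x0 x1 t1 t2 g (x, τ) →
      mF x0 x1 t1 t2 g (x, τ) ≤ b + 2 * μ → g (x, τ) ≤ H) :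
    ∫ x in x0..x1, Sd n x0 x1 t1 t2 g h3 ht w0 w1 (x, τ) ≤
      sC n * (Z / μ) ^ 4 * H ^ ((23 : ℝ) / 5) * (4 * μ) := by
  have hst := F.s_mem τ hτ
  have hx1m : x1 ∈ Icc x0 x1 := ⟨F.hx.le, le_rfl⟩
  have hx0m : x0 ∈ Icc x0 x1 := ⟨le_rfl, F.hx.le⟩
  obtain ⟨u2, hu2, hm2⟩ := F.label_ex hτ hx1m (show 0 < b + 2 * μ by linarith) hx1
  have hu2m : u2 ∈ Icc x0 x1 := ⟨hst.1.le.trans hu2.1.le, hu2.2⟩
  obtain ⟨u1, hu1, hm1⟩ := F.label_ex hτ hu2m hb (by rw [hm2]; linarith)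
  have hu1m : u1 ∈ Icc x0 x1 := ⟨hst.1.le.trans hu1.1.le, hu1.2.trans hu2.2⟩
  have hc := F.Sd_cont hDW WC hb
  have hi : ∀ p q, p ∈ Icc x0 x1 → q ∈ Icc x0 x1 →
      IntervalIntegrable (fun x => Sd n x0 x1 t1 t2 g h3 ht w0 w1 (x, τ)) volume p q := by
    intro p q hp hq
    apply ContinuousOn.intervalIntegrable
    exact (slice_c hc hτ).mono (uIcc_subset_Icc hp hq)
  rw [← intervalIntegral.integral_add_adjacent_intervals (hi x0 u1 hx0m hu1m)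
    (hi u1 x1 hu1m hx1m), ← intervalIntegral.integral_add_adjacent_intervals (hi u1 u2 hu1m hu2m)
    (hi u2 x1 hu2m hx1m)]
  have z1 : ∫ x in x0..u1, Sd n x0 x1 t1 t2 g h3 ht w0 w1 (x, τ) = ∫ _x in x0..u1, (0 : ℝ) := by
    apply intervalIntegral.integral_congr
    intro x hx
    rw [uIcc_of_le hu1m.1] at hx
    have h := F.mF_mono (τ := τ) hx.1 hx.2
    rw [hm1] at h
    simp only [Sd, (WC.lo _ h).1, (WC.lo _ h).2.1, zero_mul, neg_zero, add_zero]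
  have z2 : ∫ x in u2..x1, Sd n x0 x1 t1 t2 g h3 ht w0 w1 (x, τ) = ∫ _x in u2..x1, (0 : ℝ) := by
    apply intervalIntegral.integral_congr
    intro x hx
    rw [uIcc_of_le hu2.2] at hx
    have h := F.mF_mono (τ := τ) hu2m.1 hx.1
    rw [hm2] at h
    simp only [Sd, (WC.hi _ h).1, (WC.hi _ h).2.1, zero_mul, neg_zero, add_zero]
  rw [z1, z2, intervalIntegral.integral_zero, intervalIntegral.integral_zero, zero_add, add_zero]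
  have hD := F.slD hτ hu1.1 hu2.2
  have hsl : ∀ {u : ℝ × ℝ → ℝ}, ContinuousOn u D → ContinuousOn (fun y => u (y, τ)) (Icc u1 u2) :=
    fun hu => hu.comp (show Continuous fun y : ℝ => (y, τ) by fun_prop).continuousOn
      (fun y hy => hD y hy)
  have key := s_slice (f := fun x => g (x, τ)) (f1 := fun x => h1 (x, τ)) (f2 := fun x => h2 (x, τ))
    (f3 := fun x => h3 (x, τ)) (ft := fun x => ht (x, τ))
    (m := fun x => mF x0 x1 t1 t2 g (x, τ)) (H := H) hn hμ hZ WC hu1.2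
    (fun x hx => F.g_pos _ (hD x hx)) (fun x hx => F.d_x (x, τ) (hD x hx))
    (fun x hx => J.d_1 (x, τ) (hD x hx)) (fun x hx => J.d_2 (x, τ) (hD x hx)) (hsl F.h3_cont)
    (hsl F.ht_cont) (fun x hx => F.d_q (x, τ) (hD x hx))
    (fun x hx => F.label_dx ⟨hu1m.1.trans hx.1, hx.2.trans hu2m.2⟩ hτ) hm1 hm2
    (fun x hx => by
      have e1 := F.mF_mono (τ := τ) hu1m.1 hx.1
      have e2 := F.mF_mono (τ := τ) (hu1m.1.trans hx.1) hx.2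
      rw [hm1] at e1
      rw [hm2] at e2
      exact hH x ⟨hu1m.1.trans hx.1, hx.2.trans hu2m.2⟩ (hu1.1.trans_le hx.1) e1 e2)
  exact key

/-- the evolution of the functional -/
theorem Flow.S_evol (F : Flow n x0 x1 t1 t2 W D s g h1 h3 ht) (J : Jet D h1 h2 h3)
    (hDW : D ⊆ W) (hn : 3 ≤ n)
    (hfin : IntegrableOn (Fd n g h3) (D ∩ Ioc x0 x1 ×ˢ Ioc t1 t2)) (WC : WCut b μ Z w0 w1 w2)
    (hb : 0 < b - 2 * μ) {t' t'' : ℝ} (h1' : t1 ≤ t') (h12 : t' < t'') (h2' : t'' ≤ t2)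
    {R : ℝ → ℝ} (hR : IntegrableOn R (Ioc t' t''))
    (hle : ∀ᵐ τ ∂(volume.restrict (Ioc t' t'')),
      ∫ x in x0..x1, Sd n x0 x1 t1 t2 g h3 ht w0 w1 (x, τ) ≤ R τ) :
    Sf n x0 x1 t1 t2 g w0 t'' - Sf n x0 x1 t1 t2 g w0 t' ≤ ∫ τ in Ioc t' t'', R τ := by
  have hsub : Icc x0 x1 ×ˢ Icc t' t'' ⊆ Icc x0 x1 ×ˢ Icc t1 t2 :=
    prod_mono (Subset.refl _) (Icc_subset_Icc h1' h2')
  have c0 := (F.Sf_cont hDW WC hb).mono hsub
  have c1 := (F.Sd_cont hDW WC hb).mono hsub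
  have hd := diff_int F.hx h12 c0 c1 (fun x hx t htt => by
    have h := F.labCut_dt J hDW hn hfin hb (ψ := w0) (ψ1 := w1) WC.d0
      (fun v hv => (WC.lo v hv).1) (fun v hv => (WC.lo v hv).2.1)
      (u := fun z => g z ^ (8 / 5 - n)) (ut := fun z => (8 / 5 - n) * (g z ^ (3 / 5 - n) * ht z))
      (fun z hz => by
        have h1 := (F.d_t z hz).rpow_const (p := 8 / 5 - n) (Or.inl (F.g_pos z hz).ne')
        refine HasDerivAt.congr_deriv h1 ?_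
        have h2 : (8 / 5 - n - 1 : ℝ) = 3 / 5 - n := by ring
        rw [h2]
        ring) hx ⟨h1'.trans_lt htt.1, htt.2.trans_le h2'⟩
    exact h)
  have e : Sf n x0 x1 t1 t2 g w0 t'' - Sf n x0 x1 t1 t2 g w0 t' =
      ∫ τ in t'..t'', ∫ x in x0..x1, Sd n x0 x1 t1 t2 g h3 ht w0 w1 (x, τ) := hd
  rw [e, intervalIntegral.integral_of_le h12.le]
  apply integral_mono_ae _ hR hle
  have := (slice_ii F.hx h12 c1)
  exact this.integrableOn_Icc.mono_set Ioc_subset_Icc_self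

theorem Flow.Sf_contT (F : Flow n x0 x1 t1 t2 W D s g h1 h3 ht) (hDW : D ⊆ W)
    (WC : WCut b μ Z w0 w1 w2) (hb : 0 < b - 2 * μ) :
    ContinuousOn (Sf n x0 x1 t1 t2 g w0) (Icc t1 t2) :=
  slice_ii F.hx F.htt (F.Sf_cont hDW WC hb)

end

end Pool.Agent.Q81.TF
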