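import Pool.Agent.Q81.TF.Label

open Set MeasureTheory Filter Topology

namespace Pool.Agent.Q81.TF

/-- a bump in the label at `b` of width `μ` -/
structure WCut (b μ Z : ℝ) (w0 w1 w2 : ℝ → ℝ) : Prop where
  c2 : Continuous w2
  d0 : ∀ m, HasDerivAt w0 (w1 m) m
  d1 : ∀ m, HasDerivAt w1 (w2 m) m
  lo : ∀ m, m ≤ b - 2 * μ → w0 m = 0 ∧ w1 m = 0 ∧ w2 m = 0
  hi : ∀ m, b + 2 * μ ≤ m → w0 m = 0 ∧ w1 m = 0 ∧ w2 m = 0
  one : ∀ m, |m - b| ≤ μ → w0 m = 1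
  range : ∀ m, 0 ≤ w0 m ∧ w0 m ≤ 1
  four : ∀ m, ∃ ζ, 0 ≤ ζ ∧ ζ ≤ 1 ∧ w0 m = ζ ^ 4 ∧ |w1 m| ≤ 4 * ζ ^ 3 * (Z / μ) ∧
    |w2 m| ≤ 16 * ζ ^ 2 * (Z / μ) ^ 2

theorem exists_wcut : ∃ Z : ℝ, 1 ≤ Z ∧ ∀ b μ, 0 < μ → ∃ w0 w1 w2, WCut b μ Z w0 w1 w2 := by
  obtain ⟨B, S, S1, S2, hB, hc2, hd0, hd1, hz, ho, hS, hb1, hb2⟩ := exists_smooth_step
  have hcS1 : Continuous S1 := continuous_iff_continuousAt.2 fun x => (hd1 x).continuousAt
  have hcS : Continuous S := continuous_iff_continuousAt.2 fun x => (hd0 x).continuousAt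
  refine ⟨2 * B, by linarith, fun b μ hμ => ?_⟩
  obtain ⟨ζ0, hζ0⟩ : ∃ ζ0 : ℝ → ℝ, ζ0 = fun m => S (2 - (m - b) / μ) * S (2 + (m - b) / μ) :=
    ⟨_, rfl⟩
  obtain ⟨ζ1, hζ1⟩ : ∃ ζ1 : ℝ → ℝ, ζ1 = fun m => (-S1 (2 - (m - b) / μ) * S (2 + (m - b) / μ) +
    S (2 - (m - b) / μ) * S1 (2 + (m - b) / μ)) / μ := ⟨_, rfl⟩
  obtain ⟨ζ2, hζ2⟩ : ∃ ζ2 : ℝ → ℝ, ζ2 = fun m => (S2 (2 - (m - b) / μ) * S (2 + (m - b) / μ) -
    2 * (S1 (2 - (m - b) / μ) * S1 (2 + (m - b) / μ)) +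
    S (2 - (m - b) / μ) * S2 (2 + (m - b) / μ)) / μ ^ 2 := ⟨_, rfl⟩
  have hin1 : ∀ m : ℝ, HasDerivAt (fun m => 2 - (m - b) / μ) (-(1 / μ)) m := fun m => by
    have := (((hasDerivAt_id m).sub_const b).div_const μ).const_sub 2
    simpa using this
  have hin2 : ∀ m : ℝ, HasDerivAt (fun m => 2 + (m - b) / μ) (1 / μ) m := fun m => by
    have := (((hasDerivAt_id m).sub_const b).div_const μ).const_add 2
    simpa using this
  have dζ0 : ∀ m, HasDerivAt ζ0 (ζ1 m) m := by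
    intro m
    have h1 := ((hd0 _).comp m (hin1 m)).mul ((hd0 _).comp m (hin2 m))
    rw [hζ0, hζ1]
    refine HasDerivAt.congr_deriv h1 ?_
    simp only [Function.comp_apply]
    field_simp
  have dζ1 : ∀ m, HasDerivAt ζ1 (ζ2 m) m := by
    intro m
    have h1 := ((((hd1 _).comp m (hin1 m)).neg.mul ((hd0 _).comp m (hin2 m))).add
      (((hd0 _).comp m (hin1 m)).mul ((hd1 _).comp m (hin2 m)))).div_const μ
    rw [hζ1, hζ2]
    refine HasDerivAt.congr_deriv h1 ?_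
    simp only [Function.comp_apply, Pi.neg_apply]
    field_simp
    ring
  have cζ2 : Continuous ζ2 := by
    rw [hζ2]
    fun_prop
  have cζ1 : Continuous ζ1 := continuous_iff_continuousAt.2 fun x => (dζ1 x).continuousAt
  have cζ0 : Continuous ζ0 := continuous_iff_continuousAt.2 fun x => (dζ0 x).continuousAt
  have rζ : ∀ m, 0 ≤ ζ0 m ∧ ζ0 m ≤ 1 := by
    intro m
    rw [hζ0]
    exact ⟨mul_nonneg (hS _).1 (hS _).1, mul_le_one₀ (hS _).2 (hS _).1 (hS _).2⟩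
  have aS : ∀ x, |S x| ≤ 1 := fun x => abs_le.2 ⟨by linarith [(hS x).1], (hS x).2⟩
  have bζ1 : ∀ m, |ζ1 m| ≤ 2 * B / μ := by
    intro m
    rw [hζ1]
    simp only
    rw [abs_div, abs_of_pos hμ]
    apply div_le_div_of_nonneg_right _ hμ.le
    refine (abs_add_le _ _).trans ?_
    rw [abs_mul, abs_mul, abs_neg]
    have e1 : |S1 (2 - (m - b) / μ)| * |S (2 + (m - b) / μ)| ≤ B * 1 :=
      mul_le_mul (hb1 _) (aS _) (abs_nonneg _) (by linarith)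
    have e2 : |S (2 - (m - b) / μ)| * |S1 (2 + (m - b) / μ)| ≤ 1 * B :=
      mul_le_mul (aS _) (hb1 _) (abs_nonneg _) (by norm_num)
    linarith
  have bζ2 : ∀ m, |ζ2 m| ≤ (2 * B / μ) ^ 2 := by
    intro m
    rw [hζ2]
    simp only
    rw [abs_div, abs_of_pos (show 0 < μ ^ 2 by positivity), div_pow]
    apply div_le_div_of_nonneg_right _ (by positivity)
    refine (abs_add_le _ _).trans ?_
    have e0 := abs_sub (S2 (2 - (m - b) / μ) * S (2 + (m - b) / μ))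
      (2 * (S1 (2 - (m - b) / μ) * S1 (2 + (m - b) / μ)))
    have e1 : |S2 (2 - (m - b) / μ) * S (2 + (m - b) / μ)| ≤ B * 1 := by
      rw [abs_mul]
      exact mul_le_mul (hb2 _) (aS _) (abs_nonneg _) (by linarith)
    have e2 : |S (2 - (m - b) / μ) * S2 (2 + (m - b) / μ)| ≤ 1 * B := by
      rw [abs_mul]
      exact mul_le_mul (aS _) (hb2 _) (abs_nonneg _) (by norm_num)
    have e3 : |2 * (S1 (2 - (m - b) / μ) * S1 (2 + (m - b) / μ))| ≤ 2 * (B * B) := by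
      rw [abs_mul, abs_mul, abs_of_pos (show (0 : ℝ) < 2 by norm_num)]
      exact mul_le_mul_of_nonneg_left (mul_le_mul (hb1 _) (hb1 _) (abs_nonneg _) (by linarith))
        (by norm_num)
    nlinarith only [e3, e2, e1, e0, hB]
  have zlo : ∀ m, m ≤ b - 2 * μ → ζ0 m = 0 ∧ ζ1 m = 0 := by
    intro m hm
    have h1 : 2 + (m - b) / μ ≤ 0 := by
      have : (m - b) / μ ≤ -2 := by
        rw [div_le_iff₀ hμ]
        linarith
      linarith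
    obtain ⟨e0, e1, e2⟩ := hz _ h1
    rw [hζ0, hζ1]
    simp only [e0, e1, mul_zero, add_zero, zero_div, and_self]
  have zhi : ∀ m, b + 2 * μ ≤ m → ζ0 m = 0 ∧ ζ1 m = 0 := by
    intro m hm
    have h1 : 2 - (m - b) / μ ≤ 0 := by
      have : 2 ≤ (m - b) / μ := by
        rw [le_div_iff₀ hμ]
        linarith
      linarith
    obtain ⟨e0, e1, e2⟩ := hz _ h1
    rw [hζ0, hζ1]
    simp only [e0, e1, neg_zero, zero_mul, add_zero, zero_div, and_self]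
  refine ⟨fun m => ζ0 m ^ 4, fun m => 4 * ζ0 m ^ 3 * ζ1 m,
    fun m => 12 * ζ0 m ^ 2 * ζ1 m ^ 2 + 4 * ζ0 m ^ 3 * ζ2 m, ?_⟩
  constructor
  · fun_prop
  · intro m
    have h1 := (dζ0 m).pow 4
    refine HasDerivAt.congr_deriv h1 ?_
    norm_num
  · intro m
    have h1 := (((dζ0 m).pow 3).const_mul 4).mul (dζ1 m)
    refine HasDerivAt.congr_deriv h1 ?_
    norm_num
    ring
  · intro m hm
    obtain ⟨e0, e1⟩ := zlo m hm
    simp only [e0, e1]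
    norm_num
  · intro m hm
    obtain ⟨e0, e1⟩ := zhi m hm
    simp only [e0, e1]
    norm_num
  · intro m hm
    have h1 := abs_le.1 hm
    have h2 : 1 ≤ 2 - (m - b) / μ := by
      have : (m - b) / μ ≤ 1 := by
        rw [div_le_iff₀ hμ]
        linarith
      linarith
    have h3 : 1 ≤ 2 + (m - b) / μ := by
      have : -1 ≤ (m - b) / μ := by
        rw [le_div_iff₀ hμ]
        linarith
      linarith
    have h4 : ζ0 m = 1 := by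
      rw [hζ0]
      simp only [(ho _ h2).1, (ho _ h3).1, mul_one]
    simp only [h4, one_pow]
  · intro m
    exact ⟨pow_nonneg (rζ m).1 4, pow_le_one₀ (rζ m).1 (rζ m).2⟩
  · intro m
    have h0 := (rζ m).1
    refine ⟨ζ0 m, h0, (rζ m).2, rfl, ?_, ?_⟩
    · rw [abs_mul, abs_of_nonneg (show 0 ≤ 4 * ζ0 m ^ 3 by positivity)]
      exact mul_le_mul_of_nonneg_left (bζ1 m) (by positivity)
    · refine (abs_add_le _ _).trans ?_
      rw [abs_of_nonneg (show 0 ≤ 12 * ζ0 m ^ 2 * ζ1 m ^ 2 by positivity), abs_mul _ (ζ2 m),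
        abs_of_nonneg (show 0 ≤ 4 * ζ0 m ^ 3 by positivity)]
      have e1 : ζ1 m ^ 2 ≤ (2 * B / μ) ^ 2 := by
        rw [← sq_abs]
        exact pow_le_pow_left₀ (abs_nonneg _) (bζ1 m) 2
      have e2 : ζ0 m ^ 3 ≤ ζ0 m ^ 2 := pow_le_pow_of_le_one h0 (rζ m).2 (by norm_num)
      have e3 : 12 * ζ0 m ^ 2 * ζ1 m ^ 2 ≤ 12 * ζ0 m ^ 2 * (2 * B / μ) ^ 2 :=
        mul_le_mul_of_nonneg_left e1 (by positivity)
      have e4 : 4 * ζ0 m ^ 3 * |ζ2 m| ≤ 4 * ζ0 m ^ 2 * (2 * B / μ) ^ 2 :=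
        mul_le_mul (by linarith) (bζ2 m) (abs_nonneg _) (by positivity)
      linarith

/-- the constant of the quadratic form -/
noncomputable def quadC (A B1 l a : ℝ) : ℝ :=
  (((16 * B1 ^ 2 + 16 * l ^ 2) / (A / 50)) ^ 2 + 256 * (1 + a) ^ 2) / (A / 50)

theorem quadC_nonneg {A B1 l a : ℝ} (hA : 0 < A) : 0 ≤ quadC A B1 l a := by
  unfold quadC
  positivity

theorem quad {A B1 l a x Y U V T1 T2 T3 : ℝ} (hA : 0 < A) (ha : 0 ≤ a)
    (hU : U ^ 2 = Y * V)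
    (h1 : T1 ≤ 4 * |x| * U) (h1' : -(4 * |x| * U) ≤ T1) (h2 : T2 ≤ 4 * Y * U)
    (h2' : -(4 * Y * U) ≤ T2) (h3 : T3 ≤ 16 * |x| * V)
    (hx0 : 0 ≤ U) (hY : 0 ≤ Y) (hl : 0 ≤ l) :
    -A * (x ^ 2 - 47 / 50 * (Y * x) + 63 / 250 * Y ^ 2) + B1 * T1 + l * T2 + (1 + a) * T3 ≤
      quadC A B1 l a * V ^ 2 := by
  obtain ⟨c, hc⟩ : ∃ c, c = A / 50 := ⟨_, rfl⟩
  have hc0 : 0 < c := by rw [hc]; positivity
  obtain ⟨k, hk⟩ : ∃ k, k = (16 * B1 ^ 2 + 16 * l ^ 2) / c := ⟨_, rfl⟩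
  have hkc : k * c = 16 * B1 ^ 2 + 16 * l ^ 2 := by
    rw [hk]
    field_simp
  unfold quadC
  rw [← hc, ← hk]
  have e1 : -A * (x ^ 2 - 47 / 50 * (Y * x) + 63 / 250 * Y ^ 2) ≤ -c * (x ^ 2 + Y ^ 2) := by
    have h4 : 0 ≤ 98 / 100 * x ^ 2 - 94 / 100 * (Y * x) + 232 / 1000 * Y ^ 2 := by
      nlinarith only [sq_nonneg (x - 47 / 98 * Y), sq_nonneg Y]
    rw [hc]
    nlinarith only [h4, hc0, hc]
  have e2 : B1 * T1 ≤ 4 * |B1| * (|x| * U) := by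
    have h4 : |T1| ≤ 4 * |x| * U := abs_le.2 ⟨h1', h1⟩
    calc B1 * T1 ≤ |B1 * T1| := le_abs_self _
      _ = |B1| * |T1| := abs_mul _ _
      _ ≤ |B1| * (4 * |x| * U) := mul_le_mul_of_nonneg_left h4 (abs_nonneg _)
      _ = _ := by ring
  have e3 : l * T2 ≤ 4 * l * (Y * U) := by
    calc l * T2 ≤ l * (4 * Y * U) := mul_le_mul_of_nonneg_left h2 hl
      _ = _ := by ring
  have e4 : (1 + a) * T3 ≤ 16 * (1 + a) * (|x| * V) := by
    calc (1 + a) * T3 ≤ (1 + a) * (16 * |x| * V) := mul_le_mul_of_nonneg_left h3 (by linarith)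
      _ = _ := by ring
  have hx2 : |x| ^ 2 = x ^ 2 := sq_abs x
  have f1 : 4 * |B1| * (|x| * U) ≤ c / 4 * x ^ 2 + 16 * B1 ^ 2 / c * U ^ 2 := by
    have h4 : 16 * B1 ^ 2 / c * U ^ 2 = 16 * |B1| ^ 2 / c * U ^ 2 := by rw [sq_abs]
    have h5 : 0 ≤ (c / 2 * |x| - 4 * |B1| * U) ^ 2 / c := by positivity
    have h6 : (c / 2 * |x| - 4 * |B1| * U) ^ 2 / c = c / 4 * |x| ^ 2 - 4 * |B1| * (|x| * U) +
        16 * |B1| ^ 2 / c * U ^ 2 := by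
      field_simp
      ring
    rw [h4, ← hx2]
    linarith
  have f2 : 4 * l * (Y * U) ≤ c / 4 * Y ^ 2 + 16 * l ^ 2 / c * U ^ 2 := by
    have h5 : 0 ≤ (c / 2 * Y - 4 * l * U) ^ 2 / c := by positivity
    have h6 : (c / 2 * Y - 4 * l * U) ^ 2 / c = c / 4 * Y ^ 2 - 4 * l * (Y * U) +
        16 * l ^ 2 / c * U ^ 2 := by
      field_simp
      ring
    linarith
  have f3 : 16 * B1 ^ 2 / c * U ^ 2 + 16 * l ^ 2 / c * U ^ 2 ≤ c / 4 * Y ^ 2 + k ^ 2 / c * V ^ 2 := by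
    have h5 : 0 ≤ (c / 2 * Y - k * V) ^ 2 / c := by positivity
    have h6 : (c / 2 * Y - k * V) ^ 2 / c = c / 4 * Y ^ 2 - k * (Y * V) + k ^ 2 / c * V ^ 2 := by
      field_simp
      ring
    have h7 : 16 * B1 ^ 2 / c * U ^ 2 + 16 * l ^ 2 / c * U ^ 2 = k * (Y * V) := by
      rw [hU, hk]
      ring
    linarith
  have f4 : 16 * (1 + a) * (|x| * V) ≤ c / 4 * x ^ 2 + 256 * (1 + a) ^ 2 / c * V ^ 2 := by
    have h5 : 0 ≤ (c / 2 * |x| - 16 * (1 + a) * V) ^ 2 / c := by positivity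
    have h6 : (c / 2 * |x| - 16 * (1 + a) * V) ^ 2 / c = c / 4 * |x| ^ 2 -
        16 * (1 + a) * (|x| * V) + 256 * (1 + a) ^ 2 / c * V ^ 2 := by
      field_simp
      ring
    rw [← hx2]
    linarith
  have e5 : (k ^ 2 + 256 * (1 + a) ^ 2) / c * V ^ 2 = k ^ 2 / c * V ^ 2 +
      256 * (1 + a) ^ 2 / c * V ^ 2 := by ring
  rw [e5]
  nlinarith only [f4, f3, f2, f1, e4, e3, e2, e1, hc0, sq_nonneg x, sq_nonneg Y]

end Pool.Agent.Q81.TF
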