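import Pool.Agent.Q81.TF.SFun

open Set MeasureTheory Filter Topology

namespace Pool.Agent.Q81.TF

theorem WCut.c1 {b μ Z : ℝ} {w0 w1 w2 : ℝ → ℝ} (WC : WCut b μ Z w0 w1 w2) : Continuous w1 :=
  continuous_iff_continuousAt.2 fun x => (WC.d1 x).continuousAt

theorem WCut.c0 {b μ Z : ℝ} {w0 w1 w2 : ℝ → ℝ} (WC : WCut b μ Z w0 w1 w2) : Continuous w0 :=
  continuous_iff_continuousAt.2 fun x => (WC.d0 x).continuousAt

/-- the constant in the growth of the functional -/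
noncomputable def sC (n : ℝ) : ℝ :=
  quadC ((n - 8 / 5) * (n - 3 / 5)) ((n - 3 / 5) * (8 / 5) - (n - 8 / 5) * (n - 3 / 5))
    (9 / 50 * ((n - 8 / 5) * (n - 3 / 5))) (n - 8 / 5)

theorem sC_nonneg {n : ℝ} (hn : 3 ≤ n) : 0 ≤ sC n := by
  unfold sC
  apply quadC_nonneg
  apply mul_pos <;> linarith

/-- the rate of change of the functional at one point -/
noncomputable def sT (n : ℝ) (f f3 ft m w0 w1 : ℝ → ℝ) (x : ℝ) : ℝ :=
  -(w1 (m x) * (f x ^ n * f3 x * f x ^ (8 / 5 - n))) +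
    w0 (m x) * ((8 / 5 - n) * (f x ^ (3 / 5 - n) * ft x))

/-- the remainder -/
noncomputable def sW (n : ℝ) (f f1 f2 m w0 w1 w2 : ℝ → ℝ) (x : ℝ) : ℝ :=
  -((n - 8 / 5) * (n - 3 / 5)) * (w0 (m x) * f x ^ (-(2 / 5) : ℝ) *
      (f2 x ^ 2 - 2 / 5 * (f1 x ^ 2 * f2 x / f x))) +
    ((n - 3 / 5) * (8 / 5) - (n - 8 / 5) * (n - 3 / 5)) *
      (w1 (m x) * f x * f x ^ (-(2 / 5) : ℝ) * f1 x * f2 x) +
    (n - 3 / 5) * (w2 (m x) * f x ^ 3 * f x ^ (-(2 / 5) : ℝ) * f2 x) +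
    9 / 50 * ((n - 8 / 5) * (n - 3 / 5)) * (w1 (m x) * f x ^ (-(2 / 5) : ℝ) * f1 x ^ 3 -
      7 / 5 * (w0 (m x) * f x ^ (-(2 / 5) : ℝ) * f1 x ^ 4 / f x ^ 2) +
      3 * (w0 (m x) * f x ^ (-(2 / 5) : ℝ) * f1 x ^ 2 * f2 x / f x))

/-- the primitive -/
noncomputable def sTh (n : ℝ) (f f1 f2 f3 m w0 w1 : ℝ → ℝ) (x : ℝ) : ℝ :=
  (n - 8 / 5) * (w0 (m x) * (f x ^ (8 / 5 - n) / f x) * (f x ^ n * f3 x)) +
    (n - 8 / 5) * (n - 3 / 5) * (w0 (m x) * f x ^ (-(2 / 5) : ℝ) * (f1 x * f2 x)) -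
    (n - 3 / 5) * (w1 (m x) * (f x ^ 2 * f x ^ (-(2 / 5) : ℝ)) * f2 x) -
    9 / 50 * ((n - 8 / 5) * (n - 3 / 5)) * (w0 (m x) * (f x ^ (-(2 / 5) : ℝ) / f x) * f1 x ^ 3)

theorem sTh_deriv {n : ℝ} {f f1 f2 f3 ft m w0 w1 w2 : ℝ → ℝ} {x : ℝ} (hf : 0 < f x)
    (d0 : HasDerivAt f (f1 x) x) (d1 : HasDerivAt f1 (f2 x) x) (d2 : HasDerivAt f2 (f3 x) x)
    (dq : HasDerivAt (fun y => f y ^ n * f3 y) (-(ft x)) x) (dm : HasDerivAt m (f x) x)
    (hw0 : HasDerivAt w0 (w1 (m x)) (m x)) (hw1 : HasDerivAt w1 (w2 (m x)) (m x)) :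
    HasDerivAt (sTh n f f1 f2 f3 m w0 w1)
      (sT n f f3 ft m w0 w1 x - sW n f f1 f2 m w0 w1 w2 x) x := by
  have e0 := hw0.comp x dm
  have e1 := hw1.comp x dm
  have hQ : HasDerivAt (fun y => f y ^ (8 / 5 - n)) ((8 / 5 - n) * (f x ^ (8 / 5 - n) / f x) * f1 x)
      x := by
    have h := d0.rpow_const (p := 8 / 5 - n) (Or.inl hf.ne')
    refine HasDerivAt.congr_deriv h ?_
    rw [Real.rpow_sub_one hf.ne']
    ring
  have hP : HasDerivAt (fun y => f y ^ (-(2 / 5) : ℝ))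
      (-(2 / 5) * (f x ^ (-(2 / 5) : ℝ) / f x) * f1 x) x := by
    have h := d0.rpow_const (p := (-(2 / 5) : ℝ)) (Or.inl hf.ne')
    refine HasDerivAt.congr_deriv h ?_
    rw [Real.rpow_sub_one hf.ne']
    ring
  have t1 := (((e0.mul (hQ.div d0 hf.ne')).mul dq).const_mul (n - 8 / 5))
  have t2 := (((e0.mul hP).mul (d1.mul d2)).const_mul ((n - 8 / 5) * (n - 3 / 5)))
  have t3 := (((e1.mul ((d0.pow 2).mul hP)).mul d2).const_mul (n - 3 / 5))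
  have t4 := (((e0.mul (hP.div d0 hf.ne')).mul (d1.pow 3)).const_mul
    (9 / 50 * ((n - 8 / 5) * (n - 3 / 5))))
  have t := ((t1.add t2).sub t3).sub t4
  refine HasDerivAt.congr_deriv t ?_
  have hrel : f x ^ (8 / 5 - n) * (f x ^ n) = f x ^ 2 * f x ^ (-(2 / 5) : ℝ) := by
    rw [← Real.rpow_add hf, ← Real.rpow_natCast (f x) 2, ← Real.rpow_add hf]
    congr 1
    push_cast
    ring
  have hQ' : f x ^ (3 / 5 - n) = f x ^ (8 / 5 - n) / f x := by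
    rw [← Real.rpow_sub_one hf.ne']
    congr 1
    ring
  have hQ0 : 0 < f x ^ (8 / 5 - n) := Real.rpow_pos_of_pos hf _
  have hn : f x ^ n = f x ^ 2 * f x ^ (-(2 / 5) : ℝ) / f x ^ (8 / 5 - n) := by
    rw [eq_div_iff hQ0.ne', ← hrel]
    ring
  unfold sT sW
  rw [hQ']
  simp only [Function.comp_apply, Pi.pow_apply, Pi.mul_apply, Pi.div_apply]
  obtain ⟨Q, hQe⟩ : ∃ Q, Q = f x ^ (8 / 5 - n) := ⟨_, rfl⟩
  obtain ⟨P, hPe⟩ : ∃ P, P = f x ^ (-(2 / 5) : ℝ) := ⟨_, rfl⟩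
  obtain ⟨N, hNe⟩ : ∃ N, N = f x ^ n := ⟨_, rfl⟩
  rw [← hQe, ← hPe, ← hNe] at hn
  rw [← hQe, ← hPe, ← hNe]
  rw [← hQe] at hQ0
  rw [hn]
  have hf' := hf.ne'
  have hQ1 := hQ0.ne'
  field_simp
  ring

theorem sW_le {n b μ Z H : ℝ} (hn : 3 ≤ n) (hμ : 0 < μ) (hZ : 0 ≤ Z)
    {f f1 f2 m w0 w1 w2 : ℝ → ℝ} (WC : WCut b μ Z w0 w1 w2) {x : ℝ} (hf : 0 < f x)
    (hH : f x ≤ H) :
    sW n f f1 f2 m w0 w1 w2 x ≤ sC n * (Z / μ) ^ 4 * H ^ ((23 : ℝ) / 5) * f x := by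
  obtain ⟨ζ, hζ0, hζ1, q0, q1, q2⟩ := WC.four (m x)
  obtain ⟨z, hz⟩ : ∃ z, z = Z / μ := ⟨_, rfl⟩
  have hz0 : 0 ≤ z := by rw [hz]; positivity
  rw [← hz] at q1 q2 ⊢
  obtain ⟨R, hR⟩ : ∃ R, R = f x ^ (-(1 / 5) : ℝ) := ⟨_, rfl⟩
  have hR0 : 0 < R := by rw [hR]; exact Real.rpow_pos_of_pos hf _
  have hP : f x ^ (-(2 / 5) : ℝ) = R ^ 2 := by
    rw [hR, ← Real.rpow_natCast _ 2, ← Real.rpow_mul hf.le]
    congr 1
    push_cast
    ring
  have hA : 0 < (n - 8 / 5) * (n - 3 / 5) := by apply mul_pos <;> linarith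
  have hmain := quad (A := (n - 8 / 5) * (n - 3 / 5))
    (B1 := (n - 3 / 5) * (8 / 5) - (n - 8 / 5) * (n - 3 / 5))
    (l := 9 / 50 * ((n - 8 / 5) * (n - 3 / 5))) (a := n - 8 / 5)
    (x := ζ ^ 2 * R * f2 x) (Y := ζ ^ 2 * R * (f1 x ^ 2 / f x)) (U := ζ * z * R * f x * |f1 x|)
    (V := z ^ 2 * R * f x ^ 3) (T1 := w1 (m x) * f x * R ^ 2 * f1 x * f2 x)
    (T2 := w1 (m x) * R ^ 2 * f1 x ^ 3) (T3 := w2 (m x) * f x ^ 3 * R ^ 2 * f2 x)
    hA (by linarith) ?_ ?_ ?_ ?_ ?_ ?_ (by positivity) (by positivity) (by positivity)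
  · have e1 : (z ^ 2 * R * f x ^ 3) ^ 2 ≤ z ^ 4 * H ^ ((23 : ℝ) / 5) * f x := by
      have e2 : R ^ 2 * f x ^ 6 = f x ^ ((23 : ℝ) / 5) * f x := by
        rw [← hP, ← Real.rpow_natCast (f x) 6, ← Real.rpow_add hf, ← Real.rpow_add_one hf.ne']
        congr 1
        push_cast
        norm_num
      have e3 : f x ^ ((23 : ℝ) / 5) ≤ H ^ ((23 : ℝ) / 5) :=
        Real.rpow_le_rpow hf.le hH (by norm_num)
      calc (z ^ 2 * R * f x ^ 3) ^ 2 = z ^ 4 * (R ^ 2 * f x ^ 6) := by ring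
        _ = z ^ 4 * (f x ^ ((23 : ℝ) / 5) * f x) := by rw [e2]
        _ ≤ z ^ 4 * (H ^ ((23 : ℝ) / 5) * f x) := by gcongr
        _ = _ := by ring
    have hsC := sC_nonneg hn
    have e4 : sW n f f1 f2 m w0 w1 w2 x ≤ sC n * (z ^ 2 * R * f x ^ 3) ^ 2 := by
      unfold sC
      refine le_trans (le_of_eq ?_) hmain
      unfold sW
      rw [hP, q0]
      field_simp
      ring
    refine e4.trans ?_
    calc sC n * (z ^ 2 * R * f x ^ 3) ^ 2 ≤ sC n * (z ^ 4 * H ^ ((23 : ℝ) / 5) * f x) :=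
          mul_le_mul_of_nonneg_left e1 hsC
      _ = _ := by ring
  · have : (ζ * z * R * f x * |f1 x|) ^ 2 = ζ ^ 2 * z ^ 2 * R ^ 2 * f x ^ 2 * |f1 x| ^ 2 := by ring
    rw [this, sq_abs]
    field_simp
  · have h1 : w1 (m x) * f x * R ^ 2 * f1 x * f2 x ≤ |w1 (m x)| * f x * R ^ 2 * |f1 x| * |f2 x| := by
      refine (le_abs_self _).trans (le_of_eq ?_)
      rw [abs_mul, abs_mul, abs_mul, abs_mul, abs_of_pos hf, abs_of_pos (show 0 < R ^ 2 by positivity)]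
    refine h1.trans ?_
    rw [abs_mul, abs_of_nonneg (show 0 ≤ ζ ^ 2 * R by positivity)]
    calc |w1 (m x)| * f x * R ^ 2 * |f1 x| * |f2 x| ≤ (4 * ζ ^ 3 * z) * f x * R ^ 2 * |f1 x| *
        |f2 x| := by gcongr
      _ = _ := by ring
  · have h1 : -(|w1 (m x)| * f x * R ^ 2 * |f1 x| * |f2 x|) ≤ w1 (m x) * f x * R ^ 2 * f1 x * f2 x := by
      have h2 := neg_abs_le (w1 (m x) * f x * R ^ 2 * f1 x * f2 x)
      rw [abs_mul, abs_mul, abs_mul, abs_mul, abs_of_pos hf,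
        abs_of_pos (show 0 < R ^ 2 by positivity)] at h2
      exact h2
    refine le_trans ?_ h1
    rw [neg_le_neg_iff, abs_mul (ζ ^ 2 * R), abs_of_nonneg (show 0 ≤ ζ ^ 2 * R by positivity)]
    calc |w1 (m x)| * f x * R ^ 2 * |f1 x| * |f2 x| ≤ (4 * ζ ^ 3 * z) * f x * R ^ 2 * |f1 x| *
        |f2 x| := by gcongr
      _ = _ := by ring
  · have h1 : w1 (m x) * R ^ 2 * f1 x ^ 3 ≤ |w1 (m x)| * R ^ 2 * |f1 x| ^ 3 := by
      refine (le_abs_self _).trans (le_of_eq ?_)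
      rw [abs_mul, abs_mul, abs_of_pos (show 0 < R ^ 2 by positivity), abs_pow]
    refine h1.trans ?_
    calc |w1 (m x)| * R ^ 2 * |f1 x| ^ 3 ≤ (4 * ζ ^ 3 * z) * R ^ 2 * |f1 x| ^ 3 := by gcongr
      _ = 4 * (ζ ^ 2 * R * (|f1 x| ^ 2 / f x)) * (ζ * z * R * f x * |f1 x|) := by
          field_simp
      _ = _ := by rw [sq_abs]
  · have h1 : -(|w1 (m x)| * R ^ 2 * |f1 x| ^ 3) ≤ w1 (m x) * R ^ 2 * f1 x ^ 3 := by
      have h2 := neg_abs_le (w1 (m x) * R ^ 2 * f1 x ^ 3)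
      rw [abs_mul, abs_mul, abs_of_pos (show 0 < R ^ 2 by positivity), abs_pow] at h2
      exact h2
    refine le_trans ?_ h1
    rw [neg_le_neg_iff]
    calc |w1 (m x)| * R ^ 2 * |f1 x| ^ 3 ≤ (4 * ζ ^ 3 * z) * R ^ 2 * |f1 x| ^ 3 := by gcongr
      _ = 4 * (ζ ^ 2 * R * (|f1 x| ^ 2 / f x)) * (ζ * z * R * f x * |f1 x|) := by
          field_simp
      _ = _ := by rw [sq_abs]
  · have h1 : w2 (m x) * f x ^ 3 * R ^ 2 * f2 x ≤ |w2 (m x)| * f x ^ 3 * R ^ 2 * |f2 x| := by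
      refine (le_abs_self _).trans (le_of_eq ?_)
      rw [abs_mul, abs_mul, abs_mul, abs_of_pos (show 0 < f x ^ 3 by positivity),
        abs_of_pos (show 0 < R ^ 2 by positivity)]
    refine h1.trans ?_
    rw [abs_mul, abs_of_nonneg (show 0 ≤ ζ ^ 2 * R by positivity)]
    calc |w2 (m x)| * f x ^ 3 * R ^ 2 * |f2 x| ≤ (16 * ζ ^ 2 * z ^ 2) * f x ^ 3 * R ^ 2 * |f2 x| := by
          gcongr
      _ = _ := by ring

/-- the growth of the functional at one time -/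
theorem s_slice {n b μ Z H : ℝ} (hn : 3 ≤ n) (hμ : 0 < μ) (hZ : 0 ≤ Z)
    {f f1 f2 f3 ft m w0 w1 w2 : ℝ → ℝ} (WC : WCut b μ Z w0 w1 w2) {u1 u2 : ℝ} (hu : u1 ≤ u2)
    (hf : ∀ x ∈ Icc u1 u2, 0 < f x)
    (d0 : ∀ x ∈ Icc u1 u2, HasDerivAt f (f1 x) x) (d1 : ∀ x ∈ Icc u1 u2, HasDerivAt f1 (f2 x) x)
    (d2 : ∀ x ∈ Icc u1 u2, HasDerivAt f2 (f3 x) x) (c3 : ContinuousOn f3 (Icc u1 u2))
    (ct : ContinuousOn ft (Icc u1 u2))
    (dq : ∀ x ∈ Icc u1 u2, HasDerivAt (fun y => f y ^ n * f3 y) (-(ft x)) x)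
    (dm : ∀ x ∈ Icc u1 u2, HasDerivAt m (f x) x) (hm1 : m u1 = b - 2 * μ) (hm2 : m u2 = b + 2 * μ)
    (hH : ∀ x ∈ Icc u1 u2, f x ≤ H) :
    ∫ x in u1..u2, sT n f f3 ft m w0 w1 x ≤ sC n * (Z / μ) ^ 4 * H ^ ((23 : ℝ) / 5) * (4 * μ) := by
  have cf : ContinuousOn f (Icc u1 u2) := fun x hx => (d0 x hx).continuousAt.continuousWithinAt
  have cf1 : ContinuousOn f1 (Icc u1 u2) := fun x hx => (d1 x hx).continuousAt.continuousWithinAt
  have cf2 : ContinuousOn f2 (Icc u1 u2) := fun x hx => (d2 x hx).continuousAt.continuousWithinAt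
  have cm : ContinuousOn m (Icc u1 u2) := fun x hx => (dm x hx).continuousAt.continuousWithinAt
  have cr : ∀ p : ℝ, ContinuousOn (fun x => f x ^ p) (Icc u1 u2) := fun p =>
    cf.rpow_const (fun x hx => Or.inl (hf x hx).ne')
  have cw0 : ContinuousOn (fun x => w0 (m x)) (Icc u1 u2) := WC.c0.comp_continuousOn cm
  have cw1 : ContinuousOn (fun x => w1 (m x)) (Icc u1 u2) := WC.c1.comp_continuousOn cm
  have cw2 : ContinuousOn (fun x => w2 (m x)) (Icc u1 u2) := WC.c2.comp_continuousOn cm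
  have hne : ∀ x ∈ Icc u1 u2, f x ≠ 0 := fun x hx => (hf x hx).ne'
  have cT : ContinuousOn (sT n f f3 ft m w0 w1) (Icc u1 u2) := by
    unfold sT
    exact ((cw1.mul (((cr n).mul c3).mul (cr _))).neg).add
      (cw0.mul (continuousOn_const.mul ((cr _).mul ct)))
  have cW : ContinuousOn (sW n f f1 f2 m w0 w1 w2) (Icc u1 u2) := by
    unfold sW
    have k1 : ContinuousOn (fun x => w0 (m x) * f x ^ (-(2 / 5) : ℝ) *
        (f2 x ^ 2 - 2 / 5 * (f1 x ^ 2 * f2 x / f x))) (Icc u1 u2) :=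
      (cw0.mul (cr _)).mul ((cf2.pow 2).sub (continuousOn_const.mul
        (((cf1.pow 2).mul cf2).div cf hne)))
    have k2 : ContinuousOn (fun x => w1 (m x) * f x * f x ^ (-(2 / 5) : ℝ) * f1 x * f2 x)
        (Icc u1 u2) := (((cw1.mul cf).mul (cr _)).mul cf1).mul cf2
    have k3 : ContinuousOn (fun x => w2 (m x) * f x ^ 3 * f x ^ (-(2 / 5) : ℝ) * f2 x)
        (Icc u1 u2) := ((cw2.mul (cf.pow 3)).mul (cr _)).mul cf2
    have k4 : ContinuousOn (fun x => w1 (m x) * f x ^ (-(2 / 5) : ℝ) * f1 x ^ 3 -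
      7 / 5 * (w0 (m x) * f x ^ (-(2 / 5) : ℝ) * f1 x ^ 4 / f x ^ 2) +
      3 * (w0 (m x) * f x ^ (-(2 / 5) : ℝ) * f1 x ^ 2 * f2 x / f x)) (Icc u1 u2) :=
      ((((cw1.mul (cr _)).mul (cf1.pow 3)).sub (continuousOn_const.mul
        (((cw0.mul (cr _)).mul (cf1.pow 4)).div (cf.pow 2) (fun x hx => pow_ne_zero 2 (hne x hx))))).add
        (continuousOn_const.mul ((((cw0.mul (cr _)).mul (cf1.pow 2)).mul cf2).div cf hne)))
    exact (((continuousOn_const.mul k1).add (continuousOn_const.mul k2)).add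
      (continuousOn_const.mul k3)).add (continuousOn_const.mul k4)
  have iT : IntervalIntegrable (sT n f f3 ft m w0 w1) volume u1 u2 := by
    apply ContinuousOn.intervalIntegrable
    rw [uIcc_of_le hu]
    exact cT
  have iW : IntervalIntegrable (sW n f f1 f2 m w0 w1 w2) volume u1 u2 := by
    apply ContinuousOn.intervalIntegrable
    rw [uIcc_of_le hu]
    exact cW
  have iF : IntervalIntegrable f volume u1 u2 := by
    apply ContinuousOn.intervalIntegrable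
    rw [uIcc_of_le hu]
    exact cf
  have hftc : ∫ x in u1..u2, (sT n f f3 ft m w0 w1 x - sW n f f1 f2 m w0 w1 w2 x) =
      sTh n f f1 f2 f3 m w0 w1 u2 - sTh n f f1 f2 f3 m w0 w1 u1 := by
    apply intervalIntegral.integral_eq_sub_of_hasDerivAt
    · intro x hx
      rw [uIcc_of_le hu] at hx
      exact sTh_deriv (hf x hx) (d0 x hx) (d1 x hx) (d2 x hx) (dq x hx) (dm x hx) (WC.d0 _)
        (WC.d1 _)
    · exact iT.sub iW
  have z2 : sTh n f f1 f2 f3 m w0 w1 u2 = 0 := by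
    unfold sTh
    rw [hm2, (WC.hi _ le_rfl).1, (WC.hi _ le_rfl).2.1]
    ring
  have z1 : sTh n f f1 f2 f3 m w0 w1 u1 = 0 := by
    unfold sTh
    rw [hm1, (WC.lo _ le_rfl).1, (WC.lo _ le_rfl).2.1]
    ring
  rw [z1, z2, intervalIntegral.integral_sub iT iW, sub_zero] at hftc
  have hW : ∫ x in u1..u2, sW n f f1 f2 m w0 w1 w2 x ≤
      ∫ x in u1..u2, sC n * (Z / μ) ^ 4 * H ^ ((23 : ℝ) / 5) * f x := by
    apply intervalIntegral.integral_mono_on hu iW (iF.const_mul _)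
    intro x hx
    exact sW_le hn hμ hZ WC (hf x hx) (hH x hx)
  have hmass : ∫ x in u1..u2, f x = m u2 - m u1 := by
    apply intervalIntegral.integral_eq_sub_of_hasDerivAt _ iF
    intro x hx
    rw [uIcc_of_le hu] at hx
    exact dm x hx
  rw [intervalIntegral.integral_const_mul, hmass, hm1, hm2] at hW
  have e1 : b + 2 * μ - (b - 2 * μ) = 4 * μ := by ring
  rw [e1] at hW
  linarith

end Pool.Agent.Q81.TF
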