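import Pool.Agent.Q81.TF.Track

open Set MeasureTheory Filter Topology

namespace Pool.Agent.Q81.TF

/-- A positive profile on `[a0, a]`, three times differentiable, with energy at most `E`. -/
structure Seg (n a0 a E : ℝ) (f f1 f2 f3 : ℝ → ℝ) : Prop where
  le : a0 ≤ a
  d0 : ∀ x ∈ Icc a0 a, HasDerivAt f (f1 x) x
  d1 : ∀ x ∈ Icc a0 a, HasDerivAt f1 (f2 x) x
  d2 : ∀ x ∈ Icc a0 a, HasDerivAt f2 (f3 x) x
  c3 : ContinuousOn f3 (Icc a0 a)
  pos : ∀ x ∈ Icc a0 a, 0 < f x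
  en : ∫ x in a0..a, f x ^ n * f3 x ^ 2 ≤ E

variable {n a0 a E : ℝ} {f f1 f2 f3 : ℝ → ℝ}

theorem Seg.dG (P : Seg n a0 a E f f1 f2 f3) {x : ℝ} (hx : x ∈ Icc a0 a) :
    HasDerivAt (Gf f f1 f2) (-(f x * f3 x)) x := by
  have h1 := (((P.d1 x hx).pow 2).div_const 2).sub ((P.d0 x hx).mul (P.d2 x hx))
  apply HasDerivAt.congr_deriv h1
  simp only [Nat.cast_ofNat, pow_one, Nat.add_one_sub_one]
  ring

theorem Seg.cont (P : Seg n a0 a E f f1 f2 f3) {ξ η : ℝ} (h0 : a0 ≤ ξ) (h2 : η ≤ a) :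
    ContinuousOn f (Icc ξ η) ∧ ContinuousOn f1 (Icc ξ η) ∧ ContinuousOn f2 (Icc ξ η) ∧
      ContinuousOn f3 (Icc ξ η) ∧ ContinuousOn (Gf f f1 f2) (Icc ξ η) ∧
      ContinuousOn (fun x => f x ^ (2 - n)) (Icc ξ η) := by
  have hsub : Icc ξ η ⊆ Icc a0 a := fun x hx => ⟨h0.trans hx.1, hx.2.trans h2⟩
  have c0 : ContinuousOn f (Icc ξ η) :=
    fun x hx => (P.d0 x (hsub hx)).continuousAt.continuousWithinAt
  refine ⟨c0, fun x hx => (P.d1 x (hsub hx)).continuousAt.continuousWithinAt,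
    fun x hx => (P.d2 x (hsub hx)).continuousAt.continuousWithinAt, P.c3.mono hsub,
    fun x hx => (P.dG (hsub hx)).continuousAt.continuousWithinAt, ?_⟩
  exact c0.rpow_const (fun x hx => Or.inl (P.pos x (hsub hx)).ne')

theorem Seg.ii (P : Seg n a0 a E f f1 f2 f3) {ξ η : ℝ} (h0 : a0 ≤ ξ) (h1 : ξ ≤ η) (h2 : η ≤ a) :
    IntervalIntegrable (fun x => f x ^ (2 - n)) volume ξ η := by
  apply ContinuousOn.intervalIntegrable
  rw [uIcc_of_le h1]
  exact (P.cont h0 h2).2.2.2.2.2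

theorem Seg.en_sub (P : Seg n a0 a E f f1 f2 f3) {ξ η : ℝ} (h0 : a0 ≤ ξ) (h1 : ξ ≤ η)
    (h2 : η ≤ a) : ∫ x in ξ..η, f x ^ n * f3 x ^ 2 ≤ E := by
  refine le_trans ?_ P.en
  obtain ⟨c0, c1, c2, c3, cG, cw⟩ := P.cont (le_refl a0) (le_refl a)
  apply intervalIntegral.integral_mono_interval h0 h1 h2
  · rw [EventuallyLE, ae_restrict_iff' measurableSet_Ioc]
    exact Eventually.of_forall (fun x hx =>
      mul_nonneg (Real.rpow_nonneg (P.pos x ⟨hx.1.le, hx.2⟩).le _) (sq_nonneg _))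
  · apply ContinuousOn.intervalIntegrable
    rw [uIcc_of_le P.le]
    exact (c0.rpow_const (fun x hx => Or.inl (P.pos x hx).ne')).mul (c3.pow 2)

theorem Seg.E_nonneg (P : Seg n a0 a E f f1 f2 f3) : 0 ≤ E := by
  have := P.en_sub (le_refl a0) (le_refl a0) P.le
  simpa using this

theorem Seg.Gdiff (P : Seg n a0 a E f f1 f2 f3) {ξ η : ℝ} (h0 : a0 ≤ ξ) (h1 : ξ ≤ η)
    (h2 : η ≤ a) : (Gf f f1 f2 ξ - Gf f f1 f2 η) ^ 2 ≤ (∫ x in ξ..η, f x ^ (2 - n)) * E := by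
  rcases eq_or_lt_of_le h1 with h | h
  · rw [h, sub_self, intervalIntegral.integral_same, zero_mul]
    norm_num
  have hsub : Icc ξ η ⊆ Icc a0 a := fun x hx => ⟨h0.trans hx.1, hx.2.trans h2⟩
  obtain ⟨c0, c1, c2, c3, cG, cw⟩ := P.cont h0 h2
  have cu : ContinuousOn (fun x => f x ^ (n / 2) * f3 x) (Icc ξ η) :=
    (c0.rpow_const (fun x hx => Or.inl (P.pos x (hsub hx)).ne')).mul c3
  have cv : ContinuousOn (fun x => f x ^ ((2 - n) / 2)) (Icc ξ η) :=
    c0.rpow_const (fun x hx => Or.inl (P.pos x (hsub hx)).ne')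
  have hcs := cs_int2 h cu cv (fun x hx => Real.rpow_pos_of_pos (P.pos x (hsub hx)) _)
  have e1 : ∫ x in ξ..η, f x ^ ((2 - n) / 2) * (f x ^ (n / 2) * f3 x) =
      Gf f f1 f2 ξ - Gf f f1 f2 η := by
    have h3 : ∫ x in ξ..η, -(f x * f3 x) = Gf f f1 f2 η - Gf f f1 f2 ξ := by
      apply intervalIntegral.integral_eq_sub_of_hasDerivAt
      · intro x hx
        rw [uIcc_of_le h1] at hx
        exact P.dG (hsub hx)
      · apply ContinuousOn.intervalIntegrable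
        rw [uIcc_of_le h1]
        exact (c0.mul c3).neg
    rw [intervalIntegral.integral_neg] at h3
    have h4 : ∫ x in ξ..η, f x ^ ((2 - n) / 2) * (f x ^ (n / 2) * f3 x) =
        ∫ x in ξ..η, f x * f3 x := by
      apply intervalIntegral.integral_congr
      intro x hx
      rw [uIcc_of_le h1] at hx
      simp only
      rw [← mul_assoc, ← Real.rpow_add (P.pos x (hsub hx))]
      have h5 : (2 - n) / 2 + n / 2 = 1 := by ring
      rw [h5, Real.rpow_one]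
    rw [h4]
    linarith
  have e2 : ∫ x in ξ..η, (f x ^ ((2 - n) / 2)) ^ 2 = ∫ x in ξ..η, f x ^ (2 - n) := by
    apply intervalIntegral.integral_congr
    intro x hx
    rw [uIcc_of_le h1] at hx
    simp only
    rw [← Real.rpow_natCast (f x ^ ((2 - n) / 2)) 2, ← Real.rpow_mul (P.pos x (hsub hx)).le]
    congr 1
    push_cast
    ring
  have e3 : ∫ x in ξ..η, (f x ^ (n / 2) * f3 x) ^ 2 ≤ E := by
    have h4 : ∫ x in ξ..η, (f x ^ (n / 2) * f3 x) ^ 2 = ∫ x in ξ..η, f x ^ n * f3 x ^ 2 := by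
      apply intervalIntegral.integral_congr
      intro x hx
      rw [uIcc_of_le h1] at hx
      simp only
      rw [mul_pow, ← Real.rpow_natCast (f x ^ (n / 2)) 2, ← Real.rpow_mul (P.pos x (hsub hx)).le]
      congr 2
      push_cast
      ring
    rw [h4]
    exact P.en_sub h0 h1 h2
  rw [e1, e2] at hcs
  refine hcs.trans (mul_le_mul_of_nonneg_left e3 ?_)
  exact intervalIntegral.integral_nonneg h1
    (fun x hx => Real.rpow_nonneg (P.pos x (hsub hx)).le _)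

theorem Seg.phase (P : Seg n a0 a E f f1 f2 f3) {p q κ d M : ℝ} (hp : a0 ≤ p)
    (hpq : p ≤ q) (hq : q ≤ a) (hd : 0 < d) (hdf : ∀ x ∈ Icc p q, d ≤ f x)
    (hM : ∀ x ∈ Icc p q, f x ≤ M)
    (hs : (∀ x ∈ Icc p q, κ ≤ f1 x) ∨ (∀ x ∈ Icc p q, f1 x ≤ -κ)) :
    κ * ∫ x in p..q, f x ^ (2 - n) ≤ depth n d - depth n M := by
  have hsub : Icc p q ⊆ Icc a0 a := fun x hx => ⟨hp.trans hx.1, hx.2.trans hq⟩
  obtain ⟨c0, c1, c2, c3, cG, cw⟩ := P.cont hp hq
  have hpm : p ∈ Icc p q := ⟨le_rfl, hpq⟩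
  have hqm : q ∈ Icc p q := ⟨hpq, le_rfl⟩
  have hd' : ∀ x ∈ Icc p q, HasDerivAt (fun x => depth n (f x)) (-(f x ^ (2 - n)) * f1 x) x :=
    fun x hx => (hasDerivAt_depth (P.pos x (hsub hx))).comp x (P.d0 x (hsub hx))
  have hint : IntervalIntegrable (fun x => -(f x ^ (2 - n)) * f1 x) volume p q := by
    apply ContinuousOn.intervalIntegrable
    rw [uIcc_of_le hpq]
    exact cw.neg.mul c1
  have hftc : ∫ x in p..q, -(f x ^ (2 - n)) * f1 x = depth n (f q) - depth n (f p) := by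
    apply intervalIntegral.integral_eq_sub_of_hasDerivAt _ hint
    intro x hx
    rw [uIcc_of_le hpq] at hx
    exact hd' x hx
  have b1 : ∀ x ∈ Icc p q, depth n (f x) ≤ depth n d := fun x hx => depth_anti hd (hdf x hx)
  have b2 : ∀ x ∈ Icc p q, depth n M ≤ depth n (f x) := fun x hx =>
    depth_anti (P.pos x (hsub hx)) (hM x hx)
  have b3 := b1 p hpm
  have b4 := b1 q hqm
  have b5 := b2 p hpm
  have b6 := b2 q hqm
  have hii := P.ii hp hpq hq
  rw [← intervalIntegral.integral_const_mul]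
  rcases hs with hs | hs
  · have h1 : ∫ x in p..q, κ * f x ^ (2 - n) ≤ ∫ x in p..q, -(-(f x ^ (2 - n)) * f1 x) := by
      apply intervalIntegral.integral_mono_on hpq (hii.const_mul _) hint.neg
      intro x hx
      have h2 := hs x hx
      have h3 : 0 ≤ f x ^ (2 - n) := Real.rpow_nonneg (P.pos x (hsub hx)).le _
      show κ * f x ^ (2 - n) ≤ -(-(f x ^ (2 - n)) * f1 x)
      nlinarith only [h3, h2]
    rw [intervalIntegral.integral_neg, hftc] at h1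
    linarith
  · have h1 : ∫ x in p..q, κ * f x ^ (2 - n) ≤ ∫ x in p..q, -(f x ^ (2 - n)) * f1 x := by
      apply intervalIntegral.integral_mono_on hpq (hii.const_mul _) hint
      intro x hx
      have h2 := hs x hx
      have h3 : 0 ≤ f x ^ (2 - n) := Real.rpow_nonneg (P.pos x (hsub hx)).le _
      nlinarith only [h3, h2]
    rw [hftc] at h1
    linarith

theorem Seg.inv_above (P : Seg n a0 a E f f1 f2 f3) {p q lev : ℝ} (hp : a0 ≤ p)
    (hq : q ≤ a) (h0 : lev ≤ f1 p) (hb : ∀ x ∈ Icc p q, f1 x = lev → 0 < f2 x) :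
    ∀ x ∈ Icc p q, lev ≤ f1 x := by
  have hsub : Icc p q ⊆ Icc a0 a := fun x hx => ⟨hp.trans hx.1, hx.2.trans hq⟩
  obtain ⟨c0, c1, c2, c3, cG, cw⟩ := P.cont hp hq
  intro x hx
  have h1 := image_le_of_deriv_right_lt_deriv_boundary (f := fun y => -f1 y) (f' := fun y => -f2 y)
    (B := fun _ => -lev) (B' := fun _ => 0) c1.neg
    (fun y hy => (P.d1 y (hsub ⟨hy.1, hy.2.le⟩)).neg.hasDerivWithinAt) (by simpa using h0)
    (fun y => hasDerivAt_const y (-lev)) (fun y hy h => by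
      have := hb y ⟨hy.1, hy.2.le⟩ (by simpa using h)
      simpa using this) hx
  simpa using h1

theorem Seg.back_above (P : Seg n a0 a E f f1 f2 f3) {p q lev : ℝ} (hp : a0 ≤ p)
    (hq : q ≤ a) (h0 : lev ≤ f1 q) (hb : ∀ x ∈ Icc p q, f1 x = lev → f2 x < 0) :
    ∀ x ∈ Icc p q, lev ≤ f1 x := by
  have hsub : Icc p q ⊆ Icc a0 a := fun x hx => ⟨hp.trans hx.1, hx.2.trans hq⟩
  obtain ⟨c0, c1, c2, c3, cG, cw⟩ := P.cont hp hq
  intro x hx
  have hd : ∀ y ∈ Icc (-q) (-p), HasDerivAt (fun y => -f1 (-y)) (f2 (-y)) y := by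
    intro y hy
    have h1 := P.d1 (-y) (hsub ⟨by linarith [hy.2], by linarith [hy.1]⟩)
    have h2 := (h1.comp y (hasDerivAt_neg y)).neg
    refine HasDerivAt.congr_deriv h2 ?_
    ring
  have h1 := image_le_of_deriv_right_lt_deriv_boundary (f := fun y => -f1 (-y))
    (f' := fun y => f2 (-y)) (a := -q) (b := -p)
    (B := fun _ => -lev) (B' := fun _ => 0)
    (fun y hy => (hd y hy).continuousAt.continuousWithinAt)
    (fun y hy => (hd y ⟨hy.1, hy.2.le⟩).hasDerivWithinAt) (by simpa using h0)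
    (fun y => hasDerivAt_const y (-lev)) (fun y hy h => by
      have := hb (-y) ⟨by linarith [hy.2], by linarith [hy.1]⟩ (by simpa using h)
      simpa using this) (x := -x) ⟨by linarith [hx.2], by linarith [hx.1]⟩
  simpa using h1

theorem Seg.mono_up (P : Seg n a0 a E f f1 f2 f3) {p q : ℝ} (hp : a0 ≤ p)
    (hq : q ≤ a) (h : ∀ x ∈ Icc p q, 0 ≤ f1 x) : MonotoneOn f (Icc p q) := by
  obtain ⟨c0, c1, c2, c3, cG, cw⟩ := P.cont hp hq
  apply monotoneOn_of_deriv_nonneg (convex_Icc p q) c0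
  · intro y hy
    rw [interior_Icc] at hy
    exact (P.d0 y ⟨hp.trans hy.1.le, hy.2.le.trans hq⟩).differentiableAt.differentiableWithinAt
  · intro y hy
    rw [interior_Icc] at hy
    rw [(P.d0 y ⟨hp.trans hy.1.le, hy.2.le.trans hq⟩).deriv]
    exact h y ⟨hy.1.le, hy.2.le⟩

theorem Seg.convex_cost (P : Seg n a0 a E f f1 f2 f3) (hn : 3 ≤ n) {p q σ w : ℝ} (hp : a0 ≤ p)
    (hpq : p ≤ q) (hq : q ≤ a) (hσ : 0 < σ) (hw : 0 < w) (hwf : ∀ x ∈ Icc p q, w ≤ f x)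
    (hs : ∀ x ∈ Icc p q, σ ≤ |f1 x|) (hG : ∀ x ∈ Icc p q, Gf f f1 f2 x ≤ σ ^ 2 / 8) :
    ∫ x in p..q, f x ^ (2 - n) ≤ w ^ (3 - n) * (8 / (3 * σ)) := by
  have hsub : Icc p q ⊆ Icc a0 a := fun x hx => ⟨hp.trans hx.1, hx.2.trans hq⟩
  obtain ⟨c0, c1, c2, c3, cG, cw⟩ := P.cont hp hq
  have hne : ∀ x ∈ Icc p q, f1 x ≠ 0 := fun x hx h => by
    have := hs x hx
    rw [h, abs_zero] at this
    linarith
  have hd : ∀ x ∈ uIcc p q, HasDerivAt (fun x => -(f1 x)⁻¹) (f2 x / f1 x ^ 2) x := by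
    intro x hx
    rw [uIcc_of_le hpq] at hx
    have h1 := ((P.d1 x (hsub hx)).inv (hne x hx)).neg
    apply HasDerivAt.congr_deriv h1
    ring
  have hci : IntervalIntegrable (fun x => f2 x / f1 x ^ 2) volume p q := by
    apply ContinuousOn.intervalIntegrable
    rw [uIcc_of_le hpq]
    exact c2.div (c1.pow 2) (fun x hx => pow_ne_zero 2 (hne x hx))
  have hftc := intervalIntegral.integral_eq_sub_of_hasDerivAt hd hci
  have hii := P.ii hp hpq hq
  have hle : ∫ x in p..q, f x ^ (2 - n) ≤ ∫ x in p..q, w ^ (3 - n) * (8 / 3) *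
      (f2 x / f1 x ^ 2) := by
    apply intervalIntegral.integral_mono_on hpq hii (hci.const_mul _)
    intro x hx
    have hfx := P.pos x (hsub hx)
    have e1 : f x ^ (2 - n) = f x ^ (3 - n) / f x := by
      rw [← Real.rpow_sub_one hfx.ne']
      congr 1
      ring
    have e2 : f x ^ (3 - n) ≤ w ^ (3 - n) :=
      Real.rpow_le_rpow_of_nonpos hw (hwf x hx) (by linarith)
    have e3 : 0 ≤ w ^ (3 - n) := Real.rpow_nonneg hw.le _
    have e4 := hG x hx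
    unfold Gf at e4
    have e5 := hs x hx
    have e6 : σ ^ 2 ≤ f1 x ^ 2 := by
      rw [← sq_abs (f1 x)]
      exact pow_le_pow_left₀ hσ.le e5 2
    have e7 : 0 < f1 x ^ 2 := by
      have : 0 < σ ^ 2 := by positivity
      linarith
    have e8 : 3 / 8 * f1 x ^ 2 ≤ f x * f2 x := by linarith
    have e9 : 1 / f x ≤ 8 / 3 * (f2 x / f1 x ^ 2) := by
      rw [mul_div_assoc', div_le_div_iff₀ hfx e7]
      linarith
    rw [e1]
    calc f x ^ (3 - n) / f x = f x ^ (3 - n) * (1 / f x) := by ring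
      _ ≤ w ^ (3 - n) * (8 / 3 * (f2 x / f1 x ^ 2)) := by
          apply mul_le_mul e2 e9 (by positivity) e3
      _ = _ := by ring
  rw [intervalIntegral.integral_const_mul, hftc] at hle
  have h3 : -(f1 q)⁻¹ - -(f1 p)⁻¹ ≤ 1 / σ := by
    have hpm : p ∈ Icc p q := ⟨le_rfl, hpq⟩
    have hqm : q ∈ Icc p q := ⟨hpq, le_rfl⟩
    -- `f1` has a constant sign
    rcases lt_or_gt_of_ne (hne p hpm) with h1 | h1
    · have h2 : (f1 p)⁻¹ ≤ 0 := inv_nonpos.2 h1.le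
      have h4 : -(f1 q)⁻¹ ≤ 1 / σ := by
        rw [one_div]
        refine (neg_le_abs _).trans ?_
        rw [abs_inv]
        exact inv_anti₀ hσ (hs q hqm)
      linarith
    · have h4 : (f1 p)⁻¹ ≤ 1 / σ := by
        rw [one_div]
        refine (le_abs_self _).trans ?_
        rw [abs_inv]
        exact inv_anti₀ hσ (hs p hpm)
      have h5 : 0 < f1 q := by
        by_contra hcon
        push Not at hcon
        obtain ⟨y, hy, hy0⟩ := intermediate_value_Icc' hpq c1 ⟨hcon, h1.le⟩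
        exact hne y hy hy0
      have h6 : 0 < (f1 q)⁻¹ := inv_pos.2 h5
      linarith
  have h4 : 0 ≤ w ^ (3 - n) * (8 / 3) := mul_nonneg (Real.rpow_nonneg hw.le _) (by norm_num)
  calc ∫ x in p..q, f x ^ (2 - n) ≤ _ := hle
    _ ≤ w ^ (3 - n) * (8 / 3) * (1 / σ) := mul_le_mul_of_nonneg_left h3 h4
    _ = _ := by field_simp

theorem Seg.rise (P : Seg n a0 a E f f1 f2 f3) (hn : 3 ≤ n) {x : ℝ} (hx : x ∈ Icc a0 a)
    (hσ : 0 < f1 x) : (∀ y ∈ Icc x a, f1 x ≤ f1 y) ∨ f1 x ^ 2 / 16 ≤ Gf f f1 f2 x ∨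
      f1 x ^ 5 ≤ 683 * E * f x ^ (3 - n) := by
  rcases le_or_gt (f1 x ^ 2 / 16) (Gf f f1 f2 x) with hG | hG
  · exact Or.inr (Or.inl hG)
  obtain ⟨σ, hσe⟩ : ∃ σ, σ = f1 x := ⟨_, rfl⟩
  rw [← hσe] at hσ hG ⊢
  have hE := P.E_nonneg
  have hσ2 : 0 < σ ^ 2 := by positivity
  obtain ⟨c0, c1, c2, c3, cG, cw⟩ := P.cont hx.1 (le_refl a)
  obtain ⟨z, hz, hz1, hz2⟩ := split_right (u := fun y => -Gf f f1 f2 y) (κ := -(σ ^ 2 / 8)) hx.2
    cG.neg (by linarith)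
  have hz1' : ∀ y ∈ Icc x z, Gf f f1 f2 y ≤ σ ^ 2 / 8 := fun y hy => by
    have := hz1 y hy
    linarith
  have hup : ∀ y ∈ Icc x z, σ ≤ f1 y := by
    apply P.inv_above hx.1 hz.2 hσe.le
    intro y hy heq
    have h1 := hz1' y hy
    unfold Gf at h1
    rw [heq] at h1
    have h2 := P.pos y ⟨hx.1.trans hy.1, hy.2.trans hz.2⟩
    have h3 : 0 < f y * f2 y := by linarith
    by_contra hcon
    push Not at hcon
    exact absurd h3 (not_lt.2 (mul_nonpos_of_nonneg_of_nonpos h2.le hcon))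
  rcases hz2 with h | h
  · left
    rw [← h]
    exact hup
  · right; right
    have hze : Gf f f1 f2 z = σ ^ 2 / 8 := by linarith
    have hmono := P.mono_up hx.1 hz.2 (fun y hy => hσ.le.trans (hup y hy))
    have hxm : x ∈ Icc x z := ⟨le_rfl, hz.1⟩
    have hcost := P.convex_cost hn hx.1 hz.1 hz.2 hσ (P.pos x hx)
      (fun y hy => hmono hxm hy hy.1) (fun y hy => (hup y hy).trans (le_abs_self _)) hz1'
    have hGd := P.Gdiff hx.1 hz.1 hz.2
    rw [hze] at hGd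
    have h3 : (σ ^ 2 / 16) ^ 2 ≤ (Gf f f1 f2 x - σ ^ 2 / 8) ^ 2 := by
      rw [← sq_abs (Gf f f1 f2 x - σ ^ 2 / 8)]
      apply pow_le_pow_left₀ (by positivity)
      rw [abs_sub_comm]
      refine le_trans ?_ (le_abs_self _)
      linarith
    have h4 : (σ ^ 2 / 16) ^ 2 ≤ f x ^ (3 - n) * (8 / (3 * σ)) * E :=
      h3.trans (hGd.trans (mul_le_mul_of_nonneg_right hcost hE))
    have h5 : (σ ^ 2 / 16) ^ 2 * (768 * σ) ≤ f x ^ (3 - n) * (8 / (3 * σ)) * E * (768 * σ) :=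
      mul_le_mul_of_nonneg_right h4 (by positivity)
    have h6 : f x ^ (3 - n) * (8 / (3 * σ)) * E * (768 * σ) = 2048 * E * f x ^ (3 - n) := by
      field_simp
      ring
    have h7 : (σ ^ 2 / 16) ^ 2 * (768 * σ) = 3 * σ ^ 5 := by ring
    rw [h6, h7] at h5
    have h8 : 0 ≤ E * f x ^ (3 - n) := mul_nonneg hE (Real.rpow_nonneg (P.pos x hx).le _)
    nlinarith only [h8, h5]

theorem Seg.rise_left (P : Seg n a0 a E f f1 f2 f3) {α x : ℝ} (hα : a0 ≤ α) (hαx : α ≤ x)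
    (hx : x ≤ a) (hσ : 0 < f1 x) (hG : f1 x ^ 2 / 16 ≤ Gf f f1 f2 x) :
    ∃ z ∈ Icc α x, (∀ y ∈ Icc z x, f1 x / 8 ≤ f1 y ∧ f1 x ^ 2 / 32 ≤ Gf f f1 f2 y) ∧
      (z = α ∨ (Gf f f1 f2 z = f1 x ^ 2 / 32 ∧
        f1 x ^ 5 ≤ 8192 * E * (depth n (f z) - depth n (f x)))) := by
  obtain ⟨σ, hσe⟩ : ∃ σ, σ = f1 x := ⟨_, rfl⟩
  rw [← hσe] at hσ hG ⊢
  have hE := P.E_nonneg
  have hσ2 : 0 < σ ^ 2 := by positivity
  obtain ⟨c0, c1, c2, c3, cG, cw⟩ := P.cont hα hx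
  obtain ⟨z, hz, hz1, hz2⟩ := split_left (u := Gf f f1 f2) (κ := σ ^ 2 / 32) hαx cG (by linarith)
  have hzs : a0 ≤ z := hα.trans hz.1
  have hup : ∀ y ∈ Icc z x, σ / 8 ≤ f1 y := by
    apply P.back_above hzs hx (by linarith)
    intro y hy heq
    have h1 := hz1 y hy
    unfold Gf at h1
    rw [heq] at h1
    have h2 := P.pos y ⟨hzs.trans hy.1, hy.2.trans hx⟩
    have h3 : f y * f2 y < 0 := by nlinarith only [h1, hσ2]
    by_contra hcon
    push Not at hcon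
    exact absurd h3 (not_lt.2 (mul_nonneg h2.le hcon))
  refine ⟨z, hz, fun y hy => ⟨hup y hy, hz1 y hy⟩, ?_⟩
  rcases hz2 with h | h
  · exact Or.inl h
  right
  refine ⟨h, ?_⟩
  have hzm : z ∈ Icc z x := ⟨le_rfl, hz.2⟩
  have hxm : x ∈ Icc z x := ⟨hz.2, le_rfl⟩
  have hmono := P.mono_up hzs hx (fun y hy => (by positivity : (0:ℝ) ≤ σ / 8).trans (hup y hy))
  have hzp := P.pos z ⟨hzs, hz.2.trans hx⟩
  have hcost := P.phase (κ := σ / 8) (d := f z) (M := f x) hzs hz.2 hx hzp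
    (fun y hy => hmono hzm hy hy.1) (fun y hy => hmono hy hxm hy.2) (Or.inl hup)
  have hGd := P.Gdiff hzs hz.2 hx
  rw [h] at hGd
  have h3 : (σ ^ 2 / 32) ^ 2 ≤ (σ ^ 2 / 32 - Gf f f1 f2 x) ^ 2 := by
    rw [← sq_abs (σ ^ 2 / 32 - Gf f f1 f2 x), abs_sub_comm]
    apply pow_le_pow_left₀ (by positivity)
    refine le_trans ?_ (le_abs_self _)
    linarith
  obtain ⟨I, hI⟩ : ∃ I, I = ∫ y in z..x, f y ^ (2 - n) := ⟨_, rfl⟩
  rw [← hI] at hGd hcost
  have h4 : (σ ^ 2 / 32) ^ 2 ≤ I * E := h3.trans hGd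
  have h5 : (σ ^ 2 / 32) ^ 2 * (σ / 8) ≤ I * E * (σ / 8) :=
    mul_le_mul_of_nonneg_right h4 (by positivity)
  have h6 : σ / 8 * I * E ≤ (depth n (f z) - depth n (f x)) * E :=
    mul_le_mul_of_nonneg_right hcost hE
  nlinarith only [h6, h5]

/-- the reflected profile -/
theorem Seg.refl (P : Seg n a0 a E f f1 f2 f3) : Seg n (-a) (-a0) E (fun x => f (-x))
    (fun x => -f1 (-x)) (fun x => f2 (-x)) (fun x => -f3 (-x)) := by
  have hm : ∀ x ∈ Icc (-a) (-a0), -x ∈ Icc a0 a := fun x hx =>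
    ⟨by linarith [hx.2], by linarith [hx.1]⟩
  refine ⟨by linarith [P.le], ?_, ?_, ?_, ?_, fun x hx => P.pos _ (hm x hx), ?_⟩
  · intro x hx
    have h := (P.d0 (-x) (hm x hx)).comp x (hasDerivAt_neg x)
    refine HasDerivAt.congr_deriv h ?_
    ring
  · intro x hx
    have h := ((P.d1 (-x) (hm x hx)).comp x (hasDerivAt_neg x)).neg
    refine HasDerivAt.congr_deriv h ?_
    ring
  · intro x hx
    have h := (P.d2 (-x) (hm x hx)).comp x (hasDerivAt_neg x)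
    refine HasDerivAt.congr_deriv h ?_
    ring
  · exact (P.c3.comp continuous_neg.continuousOn hm).neg
  · have h1 : ∫ x in (-a)..(-a0), f (-x) ^ n * (-f3 (-x)) ^ 2 =
        ∫ x in (-a)..(-a0), (fun u => f u ^ n * f3 u ^ 2) (-x) := by
      apply intervalIntegral.integral_congr
      intro x _
      simp only [neg_sq]
    rw [h1, intervalIntegral.integral_comp_neg (fun u => f u ^ n * f3 u ^ 2), neg_neg, neg_neg]
    exact P.en

theorem Seg.restrict (P : Seg n a0 a E f f1 f2 f3) {p q : ℝ} (hp : a0 ≤ p) (hpq : p ≤ q)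
    (hq : q ≤ a) : Seg n p q E f f1 f2 f3 := by
  have hsub : Icc p q ⊆ Icc a0 a := Icc_subset_Icc hp hq
  exact ⟨hpq, fun x hx => P.d0 x (hsub hx), fun x hx => P.d1 x (hsub hx),
    fun x hx => P.d2 x (hsub hx), P.c3.mono hsub, fun x hx => P.pos x (hsub hx),
    P.en_sub hp hpq hq⟩

/-- the mass below a steep branch -/
theorem Seg.mass_below (P : Seg n a0 a E f f1 f2 f3) {m : ℝ → ℝ}
    (dm : ∀ x ∈ Icc a0 a, HasDerivAt m (f x) x) {z y σ : ℝ} (hz : a0 ≤ z) (hzy : z ≤ y)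
    (hy : y ≤ a) (hσ : 0 < σ) (h : ∀ u ∈ Icc z y, σ / 8 ≤ f1 u) :
    m y - m z ≤ 4 * f y ^ 2 / σ := by
  have hsub : Icc z y ⊆ Icc a0 a := Icc_subset_Icc hz hy
  have hmono : MonotoneOn (fun u => f u ^ 2 - σ / 4 * m u) (Icc z y) := by
    apply monotoneOn_of_deriv_nonneg (convex_Icc z y)
    · intro u hu
      exact (((P.d0 u (hsub hu)).pow 2).sub ((dm u (hsub hu)).const_mul _)).continuousAt.continuousWithinAt
    · intro u hu
      rw [interior_Icc] at hu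
      have hu' := hsub ⟨hu.1.le, hu.2.le⟩
      exact (((P.d0 u hu').pow 2).sub
        ((dm u hu').const_mul _)).differentiableAt.differentiableWithinAt
    · intro u hu
      rw [interior_Icc] at hu
      have hu' := hsub ⟨hu.1.le, hu.2.le⟩
      have hd := ((P.d0 u hu').pow 2).sub ((dm u hu').const_mul (σ / 4))
      have e : deriv (fun u => f u ^ 2 - σ / 4 * m u) u = 2 * f u * f1 u - σ / 4 * f u := by
        rw [show (fun u => f u ^ 2 - σ / 4 * m u) = (f ^ 2 - fun u => σ / 4 * m u) from rfl,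
          hd.deriv]
        norm_num
      rw [e]
      have h1 := h u ⟨hu.1.le, hu.2.le⟩
      have h2 := P.pos u hu'
      nlinarith only [h2, h1]
  have h1 := hmono ⟨le_rfl, hzy⟩ ⟨hzy, le_rfl⟩ hzy
  simp only at h1
  have h2 := P.pos z (hsub ⟨le_rfl, hzy⟩)
  rw [le_div_iff₀ hσ]
  nlinarith only [h1, sq_nonneg (f z)]

end Pool.Agent.Q81.TF
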