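import Pool.Agent.Q81.TF.Defs
import Pool.Agent.Q81.TF.Crit

open Set MeasureTheory Filter Topology

namespace Pool.Agent.Q81.TF

variable {n δ T : ℝ} {s : ℝ → ℝ} {h : ℝ → ℝ → ℝ}

/-- the region to the left of the right end of the strip -/
def domW (s : ℝ → ℝ) (δ T : ℝ) : Set (ℝ × ℝ) := {z | (0 < z.2 ∧ z.2 < T) ∧ z.1 < s z.2 + δ}

/-- the height, extended by zero -/
noncomputable def gf (s : ℝ → ℝ) (δ T : ℝ) (h : ℝ → ℝ → ℝ) : ℝ × ℝ → ℝ :=
  (dom s δ T).indicator (fun z => h z.1 z.2)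

theorem s_contOn (S : IsClassicalSolution n δ T s h) :
    ContinuousOn (fun z : ℝ × ℝ => z.1 - s z.2) (Prod.snd ⁻¹' Ioo 0 T) := by
  apply continuousOn_fst.sub
  exact S.contact_continuous.comp continuousOn_snd (fun z hz => hz)

theorem domW_open (S : IsClassicalSolution n δ T s h) : IsOpen (domW s δ T) := by
  have h1 := (s_contOn S).isOpen_inter_preimage (isOpen_Ioo.preimage continuous_snd)
    (isOpen_Iio (a := δ))
  have h2 : domW s δ T = Prod.snd ⁻¹' Ioo 0 T ∩ (fun z : ℝ × ℝ => z.1 - s z.2) ⁻¹' Iio δ := by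
    ext z
    constructor
    · rintro ⟨h3, h4⟩
      exact ⟨h3, by show z.1 - s z.2 < δ; linarith⟩
    · rintro ⟨h3, h4⟩
      have h5 : z.1 - s z.2 < δ := h4
      exact ⟨h3, by linarith⟩
  rw [h2]
  exact h1

theorem dom_open (S : IsClassicalSolution n δ T s h) : IsOpen (dom s δ T) := by
  have h1 := (s_contOn S).isOpen_inter_preimage (isOpen_Ioo.preimage continuous_snd)
    (isOpen_Ioo (a := (0 : ℝ)) (b := δ))
  have h2 : dom s δ T = Prod.snd ⁻¹' Ioo 0 T ∩ (fun z : ℝ × ℝ => z.1 - s z.2) ⁻¹' Ioo 0 δ := by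
    ext z
    constructor
    · rintro ⟨h3, h4, h5⟩
      exact ⟨h3, by show 0 < z.1 - s z.2; linarith, by show z.1 - s z.2 < δ; linarith⟩
    · rintro ⟨h3, h4, h5⟩
      have h6 : 0 < z.1 - s z.2 := h4
      have h7 : z.1 - s z.2 < δ := h5
      exact ⟨h3, by linarith, by linarith⟩
  rw [h2]
  exact h1

theorem dom_sub : dom s δ T ⊆ domW s δ T := fun _ hz => ⟨hz.1, hz.2.2⟩

theorem gf_pos (S : IsClassicalSolution n δ T s h) {z : ℝ × ℝ} (hz : z ∈ dom s δ T) :
    0 < gf s δ T h z := by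
  unfold gf
  rw [indicator_of_mem hz]
  exact S.positive z hz

theorem gf_zero {z : ℝ × ℝ} (hz : z ∉ dom s δ T) : gf s δ T h z = 0 := by
  unfold gf
  rw [indicator_of_notMem hz]

theorem gf_ev (S : IsClassicalSolution n δ T s h) {z : ℝ × ℝ} (hz : z ∈ dom s δ T) :
    gf s δ T h =ᶠ[𝓝 z] fun z => h z.1 z.2 := by
  filter_upwards [(dom_open S).mem_nhds hz] with y hy
  unfold gf
  rw [indicator_of_mem hy]

theorem mem_closure_dom (hδ : 0 < δ) {t : ℝ} (ht : t ∈ Ioo 0 T) : (s t, t) ∈ closure (dom s δ T) := by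
  rw [mem_closure_iff_seq_limit]
  refine ⟨fun k => (s t + δ / ((k : ℝ) + 2), t), ?_, ?_⟩
  · intro k
    have h1 : 0 < δ / ((k : ℝ) + 2) := by positivity
    have h2 : δ / ((k : ℝ) + 2) < δ := by
      apply div_lt_self hδ
      have : (0 : ℝ) ≤ k := Nat.cast_nonneg k
      linarith
    exact ⟨ht, by show s t < s t + δ / ((k : ℝ) + 2); linarith,
      by show s t + δ / ((k : ℝ) + 2) < s t + δ; linarith⟩
  · apply Tendsto.prodMk_nhds _ tendsto_const_nhds
    have h1 : Tendsto (fun k : ℕ => δ / ((k : ℝ) + 2)) atTop (𝓝 0) := by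
      apply tendsto_const_nhds.div_atTop
      exact tendsto_atTop_add_const_right _ _ tendsto_natCast_atTop_atTop
    simpa using h1.const_add (s t)

theorem gf_cont (S : IsClassicalSolution n δ T s h) (hδ : 0 < δ) :
    ContinuousOn (gf s δ T h) (domW s δ T) := by
  intro z hz
  apply ContinuousAt.continuousWithinAt
  by_cases hD : z ∈ dom s δ T
  · have h1 : ContinuousAt (fun z : ℝ × ℝ => h z.1 z.2) z :=
      (S.continuous_closure.mono subset_closure).continuousAt ((dom_open S).mem_nhds hD)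
    exact h1.congr (gf_ev S hD).symm
  · have hle : z.1 ≤ s z.2 := by
      by_contra hcon
      exact hD ⟨hz.1, not_le.1 hcon, hz.2⟩
    rcases eq_or_lt_of_le hle with heq | hlt
    · -- on the contact line
      have hzc : z ∈ closure (dom s δ T) := by
        have := mem_closure_dom (s := s) hδ hz.1
        rwa [← heq] at this
      have h0 : h z.1 z.2 = 0 := by
        rw [heq]
        exact S.contact z.2 hz.1
      have h1 := S.continuous_closure z hzc
      rw [ContinuousAt, gf_zero hD, Metric.tendsto_nhds]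
      intro e he
      have h2 : ∀ᶠ y in 𝓝[closure (dom s δ T)] z, dist (h y.1 y.2) 0 < e := by
        have h3 := Metric.tendsto_nhds.1 h1 e he
        simp only [h0] at h3
        exact h3
      rw [eventually_nhdsWithin_iff] at h2
      filter_upwards [h2] with y hy
      by_cases hyD : y ∈ dom s δ T
      · unfold gf
        rw [indicator_of_mem hyD]
        exact hy (subset_closure hyD)
      · rw [gf_zero hyD, dist_self]
        exact he
    · -- outside
      have hopen := (s_contOn S).isOpen_inter_preimage (isOpen_Ioo.preimage continuous_snd)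
        (isOpen_Iio (a := (0 : ℝ)))
      have hmem : z ∈ Prod.snd ⁻¹' Ioo 0 T ∩ (fun z : ℝ × ℝ => z.1 - s z.2) ⁻¹' Iio 0 :=
        ⟨hz.1, by show z.1 - s z.2 < 0; linarith⟩
      have hev : gf s δ T h =ᶠ[𝓝 z] fun _ => 0 := by
        filter_upwards [hopen.mem_nhds hmem] with y hy
        apply gf_zero
        intro hcon
        have h5 : y.1 - s y.2 < 0 := hy.2
        linarith [hcon.2.1]
      exact ContinuousAt.congr continuousAt_const hev.symm

theorem has_dx (S : IsClassicalSolution n δ T s h) {k : ℕ} (hk : k < 4) {z : ℝ × ℝ}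
    (hz : z ∈ dom s δ T) : HasDerivAt (fun x => dx k h (x, z.2)) (dx (k + 1) h z) z.1 := by
  have h1 := (S.differentiable_x k hk z hz).hasDerivAt
  unfold dx
  rw [iteratedDeriv_succ]
  exact h1

theorem slice_ev (S : IsClassicalSolution n δ T s h) {z : ℝ × ℝ} (hz : z ∈ dom s δ T) :
    (fun x => gf s δ T h (x, z.2)) =ᶠ[𝓝 z.1] fun x => h x z.2 := by
  have h1 : Tendsto (fun x : ℝ => (x, z.2)) (𝓝 z.1) (𝓝 z) := by
    have : ContinuousAt (fun x : ℝ => (x, z.2)) z.1 := by fun_prop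
    exact this
  exact h1.eventually (gf_ev S hz)

theorem slice_ev_t (S : IsClassicalSolution n δ T s h) {z : ℝ × ℝ} (hz : z ∈ dom s δ T) :
    (fun t => gf s δ T h (z.1, t)) =ᶠ[𝓝 z.2] fun t => h z.1 t := by
  have h1 : Tendsto (fun t : ℝ => (z.1, t)) (𝓝 z.2) (𝓝 z) := by
    have : ContinuousAt (fun t : ℝ => (z.1, t)) z.2 := by fun_prop
    exact this
  exact h1.eventually (gf_ev S hz)

theorem gf_dx (S : IsClassicalSolution n δ T s h) {z : ℝ × ℝ} (hz : z ∈ dom s δ T) :
    HasDerivAt (fun x => gf s δ T h (x, z.2)) (dx 1 h z) z.1 := by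
  have h1 := has_dx S (k := 0) (by norm_num) hz
  have h2 : (fun x => dx 0 h (x, z.2)) = fun x => h x z.2 := by
    funext x
    simp only [dx, iteratedDeriv_zero]
  rw [h2] at h1
  exact h1.congr_of_eventuallyEq (slice_ev S hz)

theorem gf_dt (S : IsClassicalSolution n δ T s h) {z : ℝ × ℝ} (hz : z ∈ dom s δ T) :
    HasDerivAt (fun t => gf s δ T h (z.1, t)) (dt h z) z.2 :=
  (S.differentiable_t z hz).hasDerivAt.congr_of_eventuallyEq (slice_ev_t S hz)

theorem gf_dq (S : IsClassicalSolution n δ T s h) {z : ℝ × ℝ} (hz : z ∈ dom s δ T) :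
    HasDerivAt (fun x => gf s δ T h (x, z.2) ^ n * dx 3 h (x, z.2)) (-(dt h z)) z.1 := by
  have h3 := has_dx S (k := 3) (by norm_num) hz
  have h0 : HasDerivAt (fun x => h x z.2) (dx 1 h z) z.1 :=
    (gf_dx S hz).congr_of_eventuallyEq (slice_ev S hz).symm
  have hpos := S.positive z hz
  have h4 : HasDerivAt (fun x => h x z.2 ^ n) (dx 1 h z * n * h z.1 z.2 ^ (n - 1)) z.1 :=
    h0.rpow_const (Or.inl hpos.ne')
  have h5 := h4.mul h3
  have h6 := S.equation z hz
  have h7 : deriv (fun x => h x z.2 ^ n * dx 3 h (x, z.2)) z.1 = -(dt h z) := by linarith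
  have h8 : HasDerivAt (fun x => h x z.2 ^ n * dx 3 h (x, z.2)) (-(dt h z)) z.1 := by
    rw [← h7]
    exact h5.differentiableAt.hasDerivAt
  apply h8.congr_of_eventuallyEq
  filter_upwards [slice_ev S hz] with x hx
  rw [hx]

/-- the flow on a rectangle -/
theorem IsClassicalSolution.flow (S : IsClassicalSolution n δ T s h) (hδ : 0 < δ)
    {x0 x1 t1 t2 : ℝ} (h12 : t1 < t2) (h1 : 0 < t1) (h2 : t2 < T)
    (hs : ∀ t ∈ Icc t1 t2, x0 < s t ∧ s t < x1 ∧ x1 < s t + δ) :
    Flow n x0 x1 t1 t2 (domW s δ T) (dom s δ T) s (gf s δ T h) (dx 1 h) (dx 3 h) (dt h) := by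
  have ht1 : t1 ∈ Icc t1 t2 := ⟨le_rfl, h12.le⟩
  have hT : ∀ t ∈ Icc t1 t2, 0 < t ∧ t < T := fun t ht => ⟨h1.trans_le ht.1, ht.2.trans_lt h2⟩
  exact {
    hx := (hs t1 ht1).1.trans (hs t1 ht1).2.1
    htt := h12
    W_open := domW_open S
    D_open := dom_open S
    R_sub := fun x hx t ht => ⟨hT t ht, by
      show x < s t + δ
      linarith [hx.2, (hs t ht).2.2]⟩
    D_iff := fun x hx t ht => ⟨fun h => h.2.1, fun h => ⟨hT t ht, h, by
      show x < s t + δ
      linarith [hx.2, (hs t ht).2.2]⟩⟩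
    s_mem := fun t ht => ⟨(hs t ht).1, (hs t ht).2.1⟩
    g_cont := gf_cont S hδ
    g_pos := fun z hz => gf_pos S hz
    g_zero := fun z _ hz => gf_zero hz
    h1_cont := S.continuous_x 1 (by norm_num)
    h3_cont := S.continuous_x 3 (by norm_num)
    ht_cont := S.continuous_t
    d_x := fun z hz => gf_dx S hz
    d_t := fun z hz => gf_dt S hz
    d_q := fun z hz => gf_dq S hz }

theorem fin_dis (hfin : FiniteDissipation n δ T s h) (x0 x1 t1 t2 : ℝ)
    (hD : MeasurableSet (dom s δ T)) :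
    IntegrableOn (Fd n (gf s δ T h) (dx 3 h)) (dom s δ T ∩ Ioc x0 x1 ×ˢ Ioc t1 t2) := by
  have h1 : IntegrableOn (Fd n (gf s δ T h) (dx 3 h)) (dom s δ T) := by
    apply hfin.congr_fun _ hD
    intro z hz
    unfold Fd gf
    rw [indicator_of_mem hz]
  exact h1.mono_set inter_subset_left

/-- locally constant functions are constant -/
theorem const_of_local {T : ℝ} {s : ℝ → ℝ} (h : ∀ t ∈ Ioo 0 T, ∃ r > 0, ∀ t1 t2,
    t - r < t1 → t1 < t2 → t2 < t + r → 0 < t1 → t2 < T → s t1 = s t2) :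
    ∃ s0, ∀ t ∈ Ioo 0 T, s t = s0 := by
  have hd : ∀ t ∈ Ioo 0 T, HasDerivAt s 0 t := by
    intro t ht
    obtain ⟨r, hr, hr'⟩ := h t ht
    have hev : s =ᶠ[𝓝 t] fun _ => s t := by
      filter_upwards [Ioo_mem_nhds (show t - r < t by linarith) (show t < t + r by linarith),
        Ioo_mem_nhds ht.1 ht.2] with u hu hu'
      rcases lt_trichotomy u t with hlt | heq | hgt
      · exact hr' u t hu.1 hlt (by linarith) hu'.1 ht.2
      · rw [heq]
      · exact (hr' t u (by linarith) hgt hu.2 ht.1 hu'.2).symm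
    exact (hasDerivAt_const t (s t)).congr_of_eventuallyEq hev
  by_cases hT : (Ioo 0 T).Nonempty
  · obtain ⟨t0, ht0⟩ := hT
    refine ⟨s t0, fun t ht => ?_⟩
    exact isOpen_Ioo.is_const_of_deriv_eq_zero isPreconnected_Ioo
      (fun u hu => (hd u hu).differentiableAt.differentiableWithinAt)
      (fun u hu => (hd u hu).deriv) ht ht0
  · exact ⟨0, fun t ht => absurd ⟨t, ht⟩ hT⟩

end Pool.Agent.Q81.TF
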