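import Pool.Agent.Q81.TF.Conv

open Set MeasureTheory Filter Topology

namespace Pool.Agent.Q81.TF

variable {n sl x1 E : ℝ} {f f1 f2 f3 : ℝ → ℝ}

theorem Prof.seg (P : Prof n sl x1 E f f1 f2 f3) {p q : ℝ} (hp : sl < p) (hpq : p ≤ q)
    (hq : q ≤ x1) : Seg n p q E f f1 f2 f3 := by
  have hsub : Icc p q ⊆ Ioc sl x1 := fun x hx => ⟨hp.trans_le hx.1, hx.2.trans hq⟩
  refine ⟨hpq, fun x hx => P.d0 x (hsub hx), fun x hx => P.d1 x (hsub hx),
    fun x hx => P.d2 x (hsub hx), P.c3.mono hsub, fun x hx => P.pos x (hsub hx), ?_⟩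
  refine le_trans ?_ P.en
  rw [intervalIntegral.integral_of_le hpq]
  apply setIntegral_mono_set P.int
  · rw [EventuallyLE, ae_restrict_iff' measurableSet_Ioc]
    exact Eventually.of_forall (fun x hx =>
      mul_nonneg (Real.rpow_nonneg (P.pos x hx).le _) (sq_nonneg _))
  · exact (Eventually.of_forall (fun x hx => ⟨hp.trans hx.1, hx.2.trans hq⟩))

/-- no event at the scales above `κ0` -/
def NE (n sl x1 bl mc κ0 : ℝ) (f m : ℝ → ℝ) : Prop :=
  ∀ κ, κ0 ≤ κ → ∀ b, bl + 16 * nuK n κ ≤ b → b + nuK n κ < mc → ∀ u1 u2 V, sl < u1 → u1 ≤ u2 →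
    u2 ≤ x1 → 0 < V → (∀ u ∈ Icc u1 u2, f u ≤ V ∧ |m u - b| ≤ muK n κ) →
      (u2 - u1) * V ^ (-(n - 8 / 5)) ≤ SgK n κ

theorem Seg.label_lip {a0 a : ℝ} (P : Seg n a0 a E f f1 f2 f3) {m : ℝ → ℝ}
    (dm : ∀ x ∈ Icc a0 a, HasDerivAt m (f x) x) {u v V : ℝ} (hu : a0 ≤ u) (huv : u ≤ v)
    (hv : v ≤ a) (hV : ∀ x ∈ Icc u v, f x ≤ V) : m v - m u ≤ V * (v - u) := by
  have hsub : Icc u v ⊆ Icc a0 a := Icc_subset_Icc hu hv
  rcases eq_or_lt_of_le huv with h | h
  · rw [h]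
    simp
  have cm : ContinuousOn m (Icc u v) := fun x hx => (dm x (hsub hx)).continuousAt.continuousWithinAt
  obtain ⟨r, hr, hr'⟩ := exists_hasDerivAt_eq_slope m f h cm
    (fun x hx => dm x (hsub ⟨hx.1.le, hx.2.le⟩))
  have hl : 0 < v - u := by linarith
  rw [eq_div_iff hl.ne'] at hr'
  have := mul_le_mul_of_nonneg_right (hV r ⟨hr.1.le, hr.2.le⟩) hl.le
  linarith

/-- the height to the right of a neck -/
theorem Prof.heightR (P : Prof n sl x1 E f f1 f2 f3) (hn : 3 ≤ n) (hn9 : n ≤ 9) {M Pm : ℝ}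
    (hE : 0 ≤ E)
    (hM : ∀ u ∈ Ioc sl x1, f u ≤ M) (hM1 : 1 ≤ M) (hPm : f1 x1 ≤ Pm) {m : ℝ → ℝ}
    (dm : ∀ x ∈ Ioc sl x1, HasDerivAt m (f x) x) (mlim : ∀ e > 0, ∃ r > sl, ∀ x ∈ Ioo sl r, m x < e)
    {bl mc K b : ℝ} (hK : 0 ≤ K) (hμν : 4 * muK n K ≤ nuK n K)
    (hNE : NE n sl x1 bl mc (lamP * K) f m) (hbl : 0 ≤ bl) (hb : bl + 16 * nuK n K ≤ b) {c y x : ℝ}
    (hc : c ≤ x1) (hmc : m c = mc) (hy : sl < y) (hyb : |m y - b| ≤ 2 * muK n K)
    (hyx : y ≤ x) (hxc : x ≤ c) (hxb : m x ≤ b + nuK n K) :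
    f x ≤ 2 * f y ∨ f x ≤ 2 * thK K ∨
      f x ^ 2 ≤ 8 * PK n M Pm E (lamP * K) * max (m x - m y) (muK n K) := by
  rcases le_or_gt (f x) (2 * f y) with h1 | h1
  · exact Or.inl h1
  rcases le_or_gt (f x) (2 * thK K) with h2 | h2
  · exact Or.inr (Or.inl h2)
  right; right
  have hκ : 0 ≤ lamP * K := by unfold lamP; positivity
  have hth : thK K ≤ 1 := by
    unfold thK
    rw [Real.exp_le_one_iff]
    linarith
  have hthp := thK_pos K
  have hμ := muK_pos n K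
  have hν := nuK_pos n K
  obtain ⟨μ, hμe⟩ : ∃ μ, μ = muK n K := ⟨_, rfl⟩
  obtain ⟨ν, hνe⟩ : ∃ ν, ν = nuK n K := ⟨_, rfl⟩
  have hnl : nuK n (lamP * K) = μ := by rw [nu_lam, hμe]
  rw [← hμe] at hμ hμν hyb ⊢
  rw [← hνe] at hν hμν hb hxb
  have hyb' := abs_le.1 hyb
  obtain ⟨r, hr, hr'⟩ := mlim ν hν
  obtain ⟨p, hp1, hp2⟩ : ∃ p, sl < p ∧ p < min r y := exists_between (lt_min hr hy)
  have hpy : p < y := hp2.trans_le (min_le_right _ _)
  have hmp : m p < ν := hr' p ⟨hp1, hp2.trans_le (min_le_left _ _)⟩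
  have hx1 : x ≤ x1 := hxc.trans hc
  have S := P.seg hp1 (hpy.le.trans (hyx.trans hx1)) le_rfl
  have hsub : Icc p x1 ⊆ Ioc sl x1 := fun u hu => ⟨hp1.trans_le hu.1, hu.2⟩
  have dm' : ∀ u ∈ Icc p x1, HasDerivAt m (f u) u := fun u hu => dm u (hsub hu)
  have hmm := S.mono_m dm'
  have hypm : y ∈ Icc p x1 := ⟨hpy.le, hyx.trans hx1⟩
  have hxpm : x ∈ Icc p x1 := ⟨hpy.le.trans hyx, hx1⟩
  have hcpm : c ∈ Icc p x1 := ⟨hpy.le.trans (hyx.trans hxc), hc⟩
  have hmyx := hmm hypm hxpm hyx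
  have hmxc := hmm hxpm hcpm hxc
  obtain ⟨σ, hσ0, hσ1, hσ2⟩ := S.flank hn (θ := thK K) (Pm := Pm) (fun u hu => hM u (hsub hu)) hM1
    hthp hth dm' hpy.le hyx hx1 h1.le h2.le (Or.inl hPm) (by linarith)
  have hPK0 : 0 < PK n M Pm E (lamP * K) := Real.exp_pos _
  have hPK1 := PK_one (Pm := Pm) hn hM1 hE hκ
  have hmax : m x - m y ≤ max (m x - m y) μ := le_max_left _ _
  have hmaxμ : μ ≤ max (m x - m y) μ := le_max_right _ _
  have hfin : σ ≤ PK n M Pm E (lamP * K) →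
      f x ^ 2 ≤ 8 * PK n M Pm E (lamP * K) * max (m x - m y) μ := by
    intro h
    refine hσ1.trans ?_
    apply mul_le_mul _ hmax (by linarith) (by positivity)
    linarith
  rcases hσ2 with h | h | ⟨z, z2, hz0, hzz2, hz2x, hzθ, hz2v, hmz, hz5, hz6, hz7⟩
  · exact hfin (h.trans (PK_Pm hn hM1 hE hκ))
  · exact hfin (PK_th hn hn9 hM1 hE hK h)
  have hz2m : z2 ≤ x1 := hz2x.trans hx1
  have hzm : z ∈ Icc p x1 := ⟨hz0, hzz2.trans hz2m⟩
  have hzp := S.pos z hzm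
  have hz1 : f z ≤ 1 := by linarith
  have hfxp := S.pos x hxpm
  obtain ⟨w0, hw0⟩ : ∃ w0, w0 = mc - m z := ⟨_, rfl⟩
  have hmxz : m x - m z ≤ w0 := by rw [hw0, ← hmc]; linarith
  have hw0p : 0 < w0 := by
    by_contra hcon
    push Not at hcon
    have h3 : 4 * σ * (m x - m z) ≤ 0 :=
      mul_nonpos_of_nonneg_of_nonpos (by positivity) (by linarith)
    have : 0 < f x ^ 2 := by positivity
    linarith
  have hlowz : b - 4 * ν - 18 * μ ≤ m z := by linarith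
  have hmz2 : m z ≤ m x := hmm hzm hxpm (hzz2.trans hz2x)
  -- the bound from no event
  have key : ∀ κ, lamP * K ≤ κ → nuK n κ ≤ μ → m z + nuK n κ < mc → σ ≤ PK n M Pm E κ := by
    intro κ hκ1 hκ2 hκ3
    have hκ0 : 0 ≤ κ := hκ.trans hκ1
    apply PK_neck hn hn9 hM1 hE hzp hz1 hκ0 hz6
    apply conv1 Pm hn hn9 hM1 hE hzp hz1 hκ0 (show 0 ≤ z2 - z by linarith)
    · refine hz7.trans ?_
      apply mul_le_mul_of_nonneg_right (le_max_right _ _)
      exact pow_nonneg (by linarith) 5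
    · intro w hw1 hw2 hw3
      have h3 := hNE κ hκ1 (m z) (by linarith) hκ3 z (z + w) (2 * f z) (hp1.trans_le hz0)
        (by linarith) (by linarith) (by linarith) (fun u hu => by
          have hu1 : f u ≤ 2 * f z := hz2v u ⟨hu.1, by linarith [hu.2]⟩
          refine ⟨hu1, ?_⟩
          have h4 := S.label_lip dm' (u := z) (v := u) (V := 2 * f z) hz0 hu.1
            (by linarith [hu.2]) (fun r hr => hz2v r ⟨hr.1, by linarith [hu.2, hr.2]⟩)
          have h5 := hmm hzm ⟨hz0.trans hu.1, by linarith [hu.2]⟩ hu.1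
          rw [abs_of_nonneg (by linarith)]
          have h6 : 2 * f z * (u - z) ≤ 2 * f z * w := by
            apply mul_le_mul_of_nonneg_left _ (by linarith)
            linarith [hu.2]
          linarith)
      have e : z + w - z = w := by ring
      rw [e] at h3
      exact h3
  rcases lt_or_ge μ w0 with hcase | hcase
  · apply hfin
    apply key _ le_rfl hnl.le
    rw [hnl]
    linarith
  · -- the label is close to the label of `c`
    obtain ⟨κ, hκe⟩ : ∃ κ, κ = -Real.log (w0 / 2) / rhoP n := ⟨_, rfl⟩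
    have hρ : 0 < rhoP n := by unfold rhoP; linarith
    have hνκ : nuK n κ = w0 / 2 := by
      unfold nuK
      rw [hκe, mul_div_cancel₀ _ hρ.ne', neg_neg, Real.exp_log (by positivity)]
    have hkl : lamP * K ≤ κ := by
      have h3 : nuK n κ ≤ nuK n (lamP * K) := by
        rw [hνκ, hnl]
        linarith
      unfold nuK at h3
      rw [Real.exp_le_exp] at h3
      have h4 : rhoP n * (lamP * K) ≤ rhoP n * κ := by linarith
      exact le_of_mul_le_mul_left h4 hρ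
    have hσκ := key κ hkl (by rw [hνκ]; linarith) (by rw [hνκ]; linarith)
    have hdec := PK_decay (M := M) (Pm := Pm) (E := E) hn hκ hkl
    rw [hνκ, hnl] at hdec
    calc f x ^ 2 ≤ 4 * σ * (m x - m z) := hz5
      _ ≤ 4 * σ * w0 := mul_le_mul_of_nonneg_left hmxz (by positivity)
      _ ≤ 4 * PK n M Pm E κ * w0 := by
          apply mul_le_mul_of_nonneg_right _ hw0p.le
          linarith
      _ = 8 * (PK n M Pm E κ * (w0 / 2)) := by ring
      _ ≤ 8 * (PK n M Pm E (lamP * K) * μ) := by linarith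
      _ ≤ _ := by
          rw [mul_assoc]
          apply mul_le_mul_of_nonneg_left _ (by norm_num)
          exact mul_le_mul_of_nonneg_left hmaxμ hPK0.le

/-- the height to the left of a neck -/
theorem Prof.heightL (P : Prof n sl x1 E f f1 f2 f3) (hn : 3 ≤ n) (hn9 : n ≤ 9) {M Pm : ℝ}
    (hE : 0 ≤ E)
    (hM : ∀ u ∈ Ioc sl x1, f u ≤ M) (hM1 : 1 ≤ M) {m : ℝ → ℝ}
    (dm : ∀ x ∈ Ioc sl x1, HasDerivAt m (f x) x)
    {bl mc K b : ℝ} (hK : 0 ≤ K) (hμν : 4 * muK n K ≤ nuK n K)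
    (hNE : NE n sl x1 bl mc (lamP * K) f m) (hb : bl + 16 * nuK n K ≤ b) {c y x : ℝ}
    (hc : c ≤ x1) (hmc : m c = mc) (hbc : b + 32 * muK n K ≤ mc)
    (hx : sl < x) (hyb : |m y - b| ≤ 2 * muK n K) (hxb : |m x - b| ≤ 2 * muK n K)
    (hxy : x ≤ y) (hyc : y ≤ c) :
    f x ≤ 2 * f y ∨ f x ≤ 2 * thK K ∨
      f x ^ 2 ≤ 16 * PK n M Pm E (lamP * K) * muK n K := by
  rcases le_or_gt (f x) (2 * f y) with h1 | h1
  · exact Or.inl h1
  rcases le_or_gt (f x) (2 * thK K) with h2 | h2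
  · exact Or.inr (Or.inl h2)
  right; right
  have hκ : 0 ≤ lamP * K := by unfold lamP; positivity
  have hth : thK K ≤ 1 := by
    unfold thK
    rw [Real.exp_le_one_iff]
    linarith
  have hthp := thK_pos K
  have hμ := muK_pos n K
  have hν := nuK_pos n K
  obtain ⟨μ, hμe⟩ : ∃ μ, μ = muK n K := ⟨_, rfl⟩
  obtain ⟨ν, hνe⟩ : ∃ ν, ν = nuK n K := ⟨_, rfl⟩
  have hnl : nuK n (lamP * K) = μ := by rw [nu_lam, hμe]
  rw [← hμe] at hμ hμν hyb hxb hbc ⊢
  rw [← hνe] at hν hμν hb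
  have hyb' := abs_le.1 hyb
  have hxb' := abs_le.1 hxb
  obtain ⟨r, hr, hr'⟩ := P.lim (thK K) hthp
  obtain ⟨p, hp1, hp2⟩ : ∃ p, sl < p ∧ p < min r x := exists_between (lt_min hr hx)
  have hpx : p < x := hp2.trans_le (min_le_right _ _)
  have hfp : f p < thK K := hr' p ⟨hp1, hp2.trans_le (min_le_left _ _)⟩
  have S := P.seg hp1 (hpx.le.trans (hxy.trans hyc)) hc
  have hsub : Icc p c ⊆ Ioc sl x1 := fun u hu => ⟨hp1.trans_le hu.1, hu.2.trans hc⟩
  have dm' : ∀ u ∈ Icc p c, HasDerivAt m (f u) u := fun u hu => dm u (hsub hu)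
  have hmm := S.mono_m dm'
  have hypm : y ∈ Icc p c := ⟨hpx.le.trans hxy, hyc⟩
  have hxpm : x ∈ Icc p c := ⟨hpx.le, hxy.trans hyc⟩
  have hcpm : c ∈ Icc p c := ⟨hpx.le.trans (hxy.trans hyc), le_rfl⟩
  have hmxy := hmm hxpm hypm hxy
  have T := S.refl
  have hneg : ∀ u ∈ Icc (-c) (-p), -u ∈ Icc p c := fun u hu =>
    ⟨by linarith [hu.2], by linarith [hu.1]⟩
  have dmT : ∀ u ∈ Icc (-c) (-p), HasDerivAt (fun u => -m (-u)) (f (-u)) u := by
    intro u hu
    have h := ((dm' (-u) (hneg u hu)).comp u (hasDerivAt_neg u)).neg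
    refine HasDerivAt.congr_deriv h ?_
    ring
  obtain ⟨σ, hσ0, hσ1, hσ2⟩ := T.flank hn (θ := thK K) (Pm := Pm) (m := fun u => -m (-u))
    (y := -y) (x := -x)
    (fun u hu => hM _ (hsub (hneg u hu))) hM1 hthp hth dmT (by linarith) (by linarith)
    (by linarith) (by simpa using h1.le) (by simpa using h2.le)
    (Or.inr (by simpa using hfp)) (by
      simp only [neg_neg]
      linarith)
  simp only [neg_neg] at hσ1 hσ2
  have hPK0 : 0 < PK n M Pm E (lamP * K) := Real.exp_pos _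
  have hfin : σ ≤ PK n M Pm E (lamP * K) → f x ^ 2 ≤ 16 * PK n M Pm E (lamP * K) * μ := by
    intro h
    refine hσ1.trans ?_
    have h3 : -m x - -m y ≤ 4 * μ := by linarith
    calc 4 * σ * (-m x - -m y) ≤ 4 * PK n M Pm E (lamP * K) * (4 * μ) := by
          apply mul_le_mul _ h3 (by linarith) (by positivity)
          linarith
      _ = _ := by ring
  rcases hσ2 with h | h | ⟨z, z2, hz0, hzz2, hz2x, hzθ, hz2v, hmz, hz5, hz6, hz7⟩
  · exact hfin (h.trans (PK_Pm hn hM1 hE hκ))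
  · exact hfin (PK_th hn hn9 hM1 hE hK h)
  apply hfin
  have hzm : -z ∈ Icc p c := ⟨by linarith, by linarith⟩
  have hzp := S.pos (-z) hzm
  have hz1 : f (-z) ≤ 1 := by linarith
  have hmzx : m x ≤ m (-z) := hmm hxpm hzm (by linarith)
  apply PK_neck hn hn9 hM1 hE hzp hz1 hκ hz6
  apply conv1 Pm hn hn9 hM1 hE hzp hz1 hκ (show 0 ≤ z2 - z by linarith)
  · refine hz7.trans ?_
    apply mul_le_mul_of_nonneg_right (le_max_right _ _)
    exact pow_nonneg (by linarith) 5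
  · intro w hw1 hw2 hw3
    have h3 := hNE (lamP * K) le_rfl (m (-z)) (by rw [hnl]; linarith) (by rw [hnl]; linarith)
      (-z - w) (-z) (2 * f (-z)) (by linarith) (by linarith) (by linarith) (by linarith)
      (fun u hu => by
        have hu1 : f u ≤ 2 * f (-z) := by
          have := hz2v (-u) ⟨by linarith [hu.2], by linarith [hu.1]⟩
          rwa [neg_neg] at this
        refine ⟨hu1, ?_⟩
        have hum : u ∈ Icc p c := ⟨by linarith [hu.1], by linarith [hu.2]⟩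
        have h4 := S.label_lip dm' (u := u) (v := -z) (V := 2 * f (-z)) hum.1 hu.2
          hzm.2 (fun r hr => by
            have := hz2v (-r) ⟨by linarith [hr.2], by linarith [hr.1, hu.1]⟩
            rwa [neg_neg] at this)
        have h5 := hmm hum hzm hu.2
        rw [abs_of_nonpos (by linarith)]
        have h6 : 2 * f (-z) * (-z - u) ≤ 2 * f (-z) * w := by
          apply mul_le_mul_of_nonneg_left _ (by linarith)
          linarith [hu.1]
        linarith)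
    have e : -z - (-z - w) = w := by ring
    rw [e] at h3
    exact h3

end Pool.Agent.Q81.TF
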