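import Pool.Agent.Q81.TF.Rise

open Set MeasureTheory Filter Topology

namespace Pool.Agent.Q81.TF

variable {n a0 a E : ℝ} {f f1 f2 f3 : ℝ → ℝ}

/-- the constant in the bound of the slopes -/
noncomputable def slC (n c Pm Gm : ℝ) : ℝ :=
  Pm ^ 4 + 512 * (Gm ^ 2 + 2) + 683 * (2 : ℝ) ^ n + (1 + 683 * (c / 2) ^ (3 - n))

theorem slC_one {n c Pm Gm : ℝ} (hc : 0 < c) : 1 ≤ slC n c Pm Gm := by
  unfold slC
  have h1 : 0 ≤ (c / 2) ^ (3 - n) := Real.rpow_nonneg (by positivity) _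
  have h2 : 0 ≤ (2 : ℝ) ^ n := Real.rpow_nonneg (by norm_num) _
  have h3 : 0 ≤ Pm ^ 4 := by positivity
  have h4 : 0 ≤ Gm ^ 2 := sq_nonneg _
  linarith

theorem Prof.lip (P : Prof n a0 a E f f1 f2 f3) {x y σ : ℝ} (hx : a0 < x) (hxy : x ≤ y)
    (hy : y ≤ a) (h : ∀ u ∈ Icc x y, |f1 u| ≤ σ) : |f y - f x| ≤ σ * (y - x) := by
  rcases eq_or_lt_of_le hxy with he | hlt
  · rw [he, sub_self, sub_self, abs_zero, mul_zero]
  obtain ⟨c, hc1, hc2⟩ := exists_hasDerivAt_eq_slope f f1 hlt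
    (fun u hu => (P.d0 u ⟨hx.trans_le hu.1, hu.2.trans hy⟩).continuousAt.continuousWithinAt)
    (fun u hu => P.d0 u ⟨hx.trans hu.1, hu.2.le.trans hy⟩)
  have h1 := h c ⟨hc1.1.le, hc1.2.le⟩
  rw [hc2, abs_div, abs_of_pos (show 0 < y - x by linarith), div_le_iff₀ (by linarith)] at h1
  exact h1

/-- the bound of the slopes at the points which are not screened from the right end -/
theorem Prof.slopeR (P : Prof n a0 a E f f1 f2 f3) (hn : 3 ≤ n) {x N c Pm Gm : ℝ}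
    (hx : x ∈ Ioc a0 a) (hN : 1 ≤ N) (hR : ∫ y in x..a, f y ^ (2 - n) ≤ 2 * N) (hc : 0 < c)
    (hca : c ≤ f a) (hPm : |f1 a| ≤ Pm) (hGm : |Gf f f1 f2 a| ≤ Gm) :
    |f1 x| ^ 4 ≤ slC n c Pm Gm * (1 + E * N) := by
  have hE := P.E_nonneg
  obtain ⟨c0, c1, c2, c3, cG, cw⟩ := P.cont hx.1 (le_refl a)
  obtain ⟨u, hu, hmax⟩ := isCompact_Icc.exists_isMaxOn (nonempty_Icc.2 hx.2) c1.abs
  have hmax' : ∀ y ∈ Icc x a, |f1 y| ≤ |f1 u| := fun y hy => hmax hy
  have hum : u ∈ Ioc a0 a := ⟨hx.1.trans_le hu.1, hu.2⟩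
  have hEN : 0 ≤ E * N := mul_nonneg hE (by linarith)
  have hC1 : 1 ≤ slC n c Pm Gm := slC_one hc
  have hC : 0 ≤ Pm ^ 4 ∧ 0 ≤ Gm ^ 2 ∧ 0 ≤ (2 : ℝ) ^ n ∧ 0 ≤ (c / 2) ^ (3 - n) :=
    ⟨by positivity, sq_nonneg _, Real.rpow_nonneg (by norm_num) _,
      Real.rpow_nonneg (by positivity) _⟩
  obtain ⟨C, hCe⟩ : ∃ C, C = slC n c Pm Gm := ⟨_, rfl⟩
  rw [← hCe] at hC1 ⊢
  have hCv : C = Pm ^ 4 + 512 * (Gm ^ 2 + 2) + 683 * (2 : ℝ) ^ n +
    (1 + 683 * (c / 2) ^ (3 - n)) := by rw [hCe]; rfl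
  suffices hkey : |f1 u| ^ 4 ≤ C * (1 + E * N) from
    (pow_le_pow_left₀ (abs_nonneg _) (hmax' x ⟨le_rfl, hx.2⟩) 4).trans hkey
  obtain ⟨σ, hσ⟩ : ∃ σ, σ = |f1 u| := ⟨_, rfl⟩
  have hσ0 : 0 ≤ σ := by rw [hσ]; exact abs_nonneg _
  rw [← hσ] at hmax' ⊢
  have hCE : C ≤ C * (1 + E * N) := by nlinarith only [hC1, hEN]
  -- the case of a large value of `G`
  have hGcase : σ ^ 2 / 16 ≤ Gf f f1 f2 u → σ ^ 4 ≤ C * (1 + E * N) := by
    intro hG
    have h1 := P.Gdiff hum.1 hum.2 (le_refl a)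
    have h2 : ∫ y in u..a, f y ^ (2 - n) ≤ 2 * N := by
      refine le_trans ?_ hR
      rw [← intervalIntegral.integral_add_adjacent_intervals
        (P.ii hx.1 hu.1 hu.2) (P.ii hum.1 hu.2 (le_refl a))]
      have : 0 ≤ ∫ y in x..u, f y ^ (2 - n) := intervalIntegral.integral_nonneg hu.1
        (fun y hy => Real.rpow_nonneg (P.pos y ⟨hx.1.trans_le hy.1, hy.2.trans hu.2⟩).le _)
      linarith
    have h3 : (Gf f f1 f2 u - Gf f f1 f2 a) ^ 2 ≤ 2 * N * E :=
      h1.trans (mul_le_mul_of_nonneg_right h2 hE)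
    have h4 : Gf f f1 f2 a ^ 2 ≤ Gm ^ 2 := by
      rw [← sq_abs (Gf f f1 f2 a)]
      exact pow_le_pow_left₀ (abs_nonneg _) hGm 2
    have h5 : Gf f f1 f2 u ^ 2 ≤ 2 * (Gm ^ 2 + 2 * N * E) := by
      nlinarith only [h4, h3, sq_nonneg (Gf f f1 f2 u - 2 * Gf f f1 f2 a)]
    have h6 : (σ ^ 2 / 16) ^ 2 ≤ Gf f f1 f2 u ^ 2 := pow_le_pow_left₀ (by positivity) hG 2
    have h7 : σ ^ 4 = 256 * (σ ^ 2 / 16) ^ 2 := by ring
    rw [h7, hCv]
    nlinarith only [h6, h5, hC, hEN]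
  -- the case of large slopes
  have hScase : σ ^ 5 ≤ 683 * E * f u ^ (3 - n) → σ ^ 4 ≤ C * (1 + E * N) := by
    intro hS
    rcases eq_or_lt_of_le hσ0 with h0 | hpos
    · rw [← h0, zero_pow (by norm_num)]
      positivity
    have hfu := P.pos u hum
    obtain ⟨ρ, hρ⟩ : ∃ ρ, ρ = f u / σ := ⟨_, rfl⟩
    have hρ0 : 0 < ρ := by rw [hρ]; positivity
    have hρσ : σ * ρ = f u := by rw [hρ]; field_simp
    have hlip : ∀ y ∈ Icc u a, y ≤ u + ρ → f y ≤ 2 * f u := by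
      intro y hy hyρ
      have h1 := P.lip hum.1 hy.1 hy.2 (fun v hv => hmax' v ⟨hu.1.trans hv.1, hv.2.trans hy.2⟩)
      have h2 := (abs_le.1 h1).2
      nlinarith only [h2, hyρ, hρσ, hρ0, hfu]
    rcases le_or_gt (u + ρ) a with hle | hgt
    · have h1 : ρ * (2 * f u) ^ (2 - n) ≤ 2 * N := by
        have h2 : ∫ _y in u..(u + ρ), (2 * f u) ^ (2 - n) ≤ ∫ y in u..(u + ρ), f y ^ (2 - n) := by
          apply intervalIntegral.integral_mono_on (by linarith) intervalIntegrable_const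
            (P.ii hum.1 (by linarith) hle)
          intro y hy
          apply Real.rpow_le_rpow_of_nonpos (P.pos y ⟨hum.1.trans_le hy.1, hy.2.trans hle⟩)
            (hlip y ⟨hy.1, hy.2.trans hle⟩ hy.2) (by linarith)
        rw [intervalIntegral.integral_const, smul_eq_mul] at h2
        have h3 : ∫ y in u..(u + ρ), f y ^ (2 - n) ≤ ∫ y in x..a, f y ^ (2 - n) := by
          apply intervalIntegral.integral_mono_interval hu.1 (by linarith) hle
          · rw [EventuallyLE, ae_restrict_iff' measurableSet_Ioc]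
            exact Eventually.of_forall (fun y hy =>
              Real.rpow_nonneg (P.pos y ⟨hx.1.trans hy.1, hy.2⟩).le _)
          · exact P.ii hx.1 hx.2 (le_refl a)
        have h4 : u + ρ - u = ρ := by ring
        rw [h4] at h2
        linarith
      have h2 : f u ^ (3 - n) ≤ (2 : ℝ) ^ n * (N * σ) := by
        have e1 : (2 * f u) ^ (2 - n) = (2 : ℝ) ^ (2 - n) * f u ^ (2 - n) :=
          Real.mul_rpow (by norm_num) hfu.le
        have e2 : f u ^ (3 - n) = f u ^ (2 - n) * f u := by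
          rw [← Real.rpow_add_one hfu.ne']
          congr 1
          ring
        have e3 : (2 : ℝ) ^ n * (2 : ℝ) ^ (2 - n) = 4 := by
          rw [← Real.rpow_add (by norm_num)]
          have : n + (2 - n) = (2 : ℕ) := by push_cast; ring
          rw [this, Real.rpow_natCast]
          norm_num
        have e4 : ρ * ((2 : ℝ) ^ (2 - n) * f u ^ (2 - n)) * ((2 : ℝ) ^ n * σ) ≤
            2 * N * ((2 : ℝ) ^ n * σ) := by
          rw [e1] at h1
          exact mul_le_mul_of_nonneg_right h1 (mul_nonneg hC.2.2.1 hσ0)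
        have e5 : ρ * ((2 : ℝ) ^ (2 - n) * f u ^ (2 - n)) * ((2 : ℝ) ^ n * σ) =
            4 * f u ^ (3 - n) := by
          calc ρ * ((2 : ℝ) ^ (2 - n) * f u ^ (2 - n)) * ((2 : ℝ) ^ n * σ) =
              ((2 : ℝ) ^ n * (2 : ℝ) ^ (2 - n)) * (f u ^ (2 - n) * (σ * ρ)) := by ring
            _ = 4 * f u ^ (3 - n) := by rw [e3, hρσ, e2]
        rw [e5] at e4
        have e6 : 0 ≤ (2 : ℝ) ^ n * (N * σ) := mul_nonneg hC.2.2.1 (by positivity)
        nlinarith only [e6, e4]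
      have h3 : σ ^ 5 ≤ 683 * E * ((2 : ℝ) ^ n * (N * σ)) :=
        hS.trans (mul_le_mul_of_nonneg_left h2 (by positivity))
      have h4 : σ * σ ^ 4 ≤ σ * (683 * (2 : ℝ) ^ n * (E * N)) := by
        calc σ * σ ^ 4 = σ ^ 5 := by ring
          _ ≤ _ := h3
          _ = _ := by ring
      have h5 := le_of_mul_le_mul_left h4 hpos
      rw [hCv]
      nlinarith only [h5, hC, hEN]
    · have h1 := hlip a ⟨hu.2, le_rfl⟩ hgt.le
      have h2 : f u ^ (3 - n) ≤ (c / 2) ^ (3 - n) :=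
        Real.rpow_le_rpow_of_nonpos (by positivity) (by linarith) (by linarith)
      have h3 : σ ^ 5 ≤ 683 * E * (c / 2) ^ (3 - n) :=
        hS.trans (mul_le_mul_of_nonneg_left h2 (by positivity))
      have h4 : σ ^ 4 ≤ 1 + σ ^ 5 := by
        rcases le_or_gt σ 1 with h | h
        · have := pow_le_one₀ (n := 4) hσ0 h
          have h5 : 0 ≤ σ ^ 5 := by positivity
          linarith
        · have := pow_le_pow_right₀ h.le (show 4 ≤ 5 by norm_num)
          linarith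
      rw [hCv]
      have h6 : E * 1 ≤ E * N := mul_le_mul_of_nonneg_left hN hE
      nlinarith only [h6, h4, h3, hC, hE]
  rcases lt_trichotomy (f1 u) 0 with hneg | hzero | hpos
  · rcases P.fall hn hum hneg with h | h
    · apply hGcase
      rw [hσ, sq_abs]
      exact h
    · apply hScase
      rw [hσ]
      exact h
  · rw [hσ, hzero, abs_zero, zero_pow (by norm_num)]
    positivity
  · have hab : |f1 u| = f1 u := abs_of_pos hpos
    rcases P.rise hn hum hpos with h | h | h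
    · have h1 : σ ≤ Pm := by
        rw [hσ, hab]
        exact h.trans ((le_abs_self _).trans hPm)
      have h2 := pow_le_pow_left₀ hσ0 h1 4
      refine le_trans ?_ hCE
      rw [hCv]
      linarith [hC.2.1, hC.2.2.1, hC.2.2.2]
    · apply hGcase
      rw [hσ, sq_abs]
      exact h
    · apply hScase
      rw [hσ, hab]
      exact h

end Pool.Agent.Q81.TF
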