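import Pool.Agent.Q81.TF.Stm

open Set MeasureTheory Filter Topology

namespace Pool.Agent.Q81.TF

/-- NECK2: as `S_NECK`, but the absence of events is only assumed for labels `b > 16 nuK n κ`
(`NE n a0 a bl ..` for every `bl > 0`). In the proof `κ` is chosen with `m y0 ≥ 17 nuK n κ`, so take
`bl = nuK n κ` (or `m y0 - 16 nuK n κ`). -/
def S_NECK2 : Prop :=
  ∀ n M Pm κ0 m0 c0 : ℝ, 3 ≤ n → n ≤ 9 → 1 ≤ M → 0 ≤ κ0 → 0 < m0 → 0 < c0 →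
    ∃ C : ℝ, 1 ≤ C ∧ ∀ (a0 a E : ℝ) (f f1 f2 f3 m : ℝ → ℝ), Prof n a0 a E f f1 f2 f3 →
      (∀ x ∈ Ioc a0 a, f x ≤ M) → |f1 a| ≤ Pm → (∀ x ∈ Ioc a0 a, HasDerivAt m (f x) x) →
      (∀ x ∈ Ioc a0 a, 0 < m x) → m0 ≤ m a →
      (∀ x ∈ Ioc a0 a, m0 / 2 ≤ m x → c0 ≤ f x) →
      (∀ bl > 0, NE n a0 a bl (m a) κ0 f m) →
      NeckD n (5 * (n - 3)) (C * (1 + E) ^ 4) a0 a f

end Pool.Agent.Q81.TF
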