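import Pool.Agent.Q81.TF.Chain
import Pool.Agent.Q81.TF.Stm2

open Set MeasureTheory Filter Topology

namespace Pool.Agent.Q81.TF

variable {n x0 x1 t1 t2 : ℝ} {W D : Set (ℝ × ℝ)} {s : ℝ → ℝ} {g h1 h2 h3 ht : ℝ × ℝ → ℝ}

theorem descend {P : ℝ → Prop} {K0 K1 : ℝ} (h0 : 0 < K0)
    (hs : ∀ K, K0 ≤ K → (∀ κ, lamP * K ≤ κ → P κ) → P K) (hb : ∀ κ, K1 ≤ κ → P κ) :
    ∀ K, K0 ≤ K → P K := by
  intro K hK
  by_contra hcon
  have key : ∀ j : ℕ, ∃ K', K0 * lamP ^ j ≤ K' ∧ ¬ P K' := by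
    intro j
    induction j with
    | zero => exact ⟨K, by simpa using hK, hcon⟩
    | succ j ih =>
      obtain ⟨K', h1, h2⟩ := ih
      have hlp : 1 ≤ lamP ^ j := one_le_pow₀ (by unfold lamP; norm_num)
      have hK0 : K0 ≤ K' := by nlinarith only [hlp, h1, h0]
      have h3 : ¬ ∀ κ, lamP * K' ≤ κ → P κ := fun h => h2 (hs K' hK0 h)
      push Not at h3
      obtain ⟨κ, h4, h5⟩ := h3
      refine ⟨κ, ?_, h5⟩
      refine le_trans ?_ h4
      have h6 : 0 ≤ lamP := by unfold lamP; norm_num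
      calc K0 * lamP ^ (j + 1) = lamP * (K0 * lamP ^ j) := by ring
        _ ≤ lamP * K' := mul_le_mul_of_nonneg_left h1 h6
  have hun : ∃ j : ℕ, K1 / K0 < lamP ^ j :=
    pow_unbounded_of_one_lt _ (by unfold lamP; norm_num)
  obtain ⟨j, hj⟩ := hun
  obtain ⟨K', h1, h2⟩ := key j
  apply h2
  apply hb
  rw [div_lt_iff₀ h0] at hj
  linarith

theorem cK_ev {x c : ℝ} (h : x < c) : ∃ K0 : ℝ, ∀ K, K0 ≤ K → x < cK c K := by
  have h1 := tendsto_rpow_neg_atTop (show (0 : ℝ) < 1 / 4 by norm_num)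
  have h2 : ∀ᶠ K : ℝ in atTop, K ^ (-((1 : ℝ) / 4)) < c - x :=
    h1.eventually_lt_const (by linarith)
  obtain ⟨K0, hK0⟩ := eventually_atTop.1 h2
  refine ⟨K0, fun K hK => ?_⟩
  have := hK0 K hK
  unfold cK
  linarith

theorem chain_all (a1 : S_K1) (a3 : S_K3) (a4 : S_K4) (a5 : S_K5) (ab : S_BASE)
    (S : Sit n x0 x1 t1 t2 W D s g h1 h2 h3 ht) (hn9 : n ≤ 9)
    {M c Pm Gm Hm Z : ℝ}
    (Bd : Bds n x0 x1 t1 t2 g h1 h2 h3 M c Pm Gm Hm)
    (hZ0 : 0 ≤ Z) (hZ : ∀ b μ, 0 < μ → ∃ w0 w1 w2, WCut b μ Z w0 w1 w2) :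
    ∃ K0 > 0, ∀ K, K0 ≤ K → ∀ t' ∈ Icc t1 t2, ∀ b, 16 * nuK n K < b →
      Event n x0 x1 t1 t2 Z g K b t' →
      mF x0 x1 t1 t2 g (cK (s t1) K, t') ≤ b + nuK n K := by
  have F := S.F
  have hn := S.hn
  have hL : 0 < x1 - x0 := by linarith [F.hx]
  have ht1m : t1 ∈ Icc t1 t2 := ⟨le_rfl, F.htt.le⟩
  have hst1 := F.s_mem t1 ht1m
  obtain ⟨B, hB1, hB⟩ := exists_lcut
  have hFd : ∀ z ∈ D, 0 ≤ Fd n g h3 z := fun z hz =>
    mul_nonneg (Real.rpow_nonneg (F.g_pos z hz).le _) (sq_nonneg _)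
  obtain ⟨I, hI⟩ : ∃ I, I = ∫ τ in Ioc t1 t2, (1 + eV n x0 x1 D univ g h3 τ) := ⟨_, rfl⟩
  have hI0 : 0 ≤ I := by
    rw [hI]
    apply setIntegral_nonneg measurableSet_Ioc
    intro τ _
    have := eV_nonneg (n := n) (x0 := x0) (x1 := x1) hFd univ τ
    linarith
  obtain ⟨K1, hK1⟩ := a1 n hn
  obtain ⟨K2, hK2⟩ := cK_ev hst1.1
  obtain ⟨K3, hK3⟩ := a3 n (x1 - x0) M Pm Z I hn hn9 hL Bd.hM1 hZ0 hI0
  obtain ⟨K4, hK4⟩ := a4 n M Pm B I hn hn9 Bd.hM1 (by linarith) hI0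
  obtain ⟨K5, hK5⟩ := a5 n (x1 - x0) M Pm hn hn9 hL Bd.hM1
  obtain ⟨K0, hK0⟩ : ∃ K0, K0 = max 1 (max K1 (max K2 (max K3 (max K4 K5)))) := ⟨_, rfl⟩
  have g0 : 1 ≤ K0 := by rw [hK0]; exact le_max_left _ _
  have g1 : K1 ≤ K0 := by rw [hK0]; exact (le_max_left _ _).trans (le_max_right _ _)
  have g2 : K2 ≤ K0 := by
    rw [hK0]
    exact (le_max_left _ _).trans ((le_max_right _ _).trans (le_max_right _ _))
  have g3 : K3 ≤ K0 := by
    rw [hK0]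
    exact (le_max_left _ _).trans ((le_max_right _ _).trans ((le_max_right _ _).trans
      (le_max_right _ _)))
  have g4 : K4 ≤ K0 := by
    rw [hK0]
    exact (le_max_left _ _).trans ((le_max_right _ _).trans ((le_max_right _ _).trans
      ((le_max_right _ _).trans (le_max_right _ _))))
  have g5 : K5 ≤ K0 := by
    rw [hK0]
    exact (le_max_right _ _).trans ((le_max_right _ _).trans ((le_max_right _ _).trans
      ((le_max_right _ _).trans (le_max_right _ _))))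
  have hNum : ∀ K, K0 ≤ K → Num n (x1 - x0) M Pm Z B I K x0 (s t1) := by
    intro K hK
    exact ⟨by linarith, hK1 K (g1.trans hK), hK2 K (g2.trans hK), hK3 K (g3.trans hK),
      hK4 K (g4.trans hK), hK5 K (g5.trans hK)⟩
  refine ⟨K0, by linarith, ?_⟩
  intro K hK t' ht' b hb hev
  have hbl : 0 < b - 16 * nuK n K := by linarith
  obtain ⟨κ1, hκ1⟩ := ab n x0 x1 t1 t2 W D s g h1 h2 h3 ht S Z (b - 16 * nuK n K) hbl
  obtain ⟨bl, hble⟩ : ∃ bl, bl = b - 16 * nuK n K := ⟨_, rfl⟩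
  rw [← hble] at hbl hκ1
  have key := descend (P := fun κ => ∀ t' ∈ Icc t1 t2, ∀ b', bl + 16 * nuK n κ ≤ b' →
    Event n x0 x1 t1 t2 Z g κ b' t' → mF x0 x1 t1 t2 g (cK (s t1) κ, t') ≤ b' + nuK n κ) (K0 := K0)
    (K1 := κ1) (by linarith)
    (fun κ hκ IH => chain_step S hn9 Bd hZ0 hZ hB1 hB hI hbl.le (hNum κ hκ) IH)
    (fun κ hκ t ht b' hb' hEv => by
      exfalso
      have := nuK_pos n κ
      exact hκ1 κ hκ t ht b' (by linarith) hEv)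
  exact key K hK t' ht' b (by rw [hble]; linarith) hev

/-- a positive lower bound of the height at labels bounded from below -/
theorem Flow.low_bd (F : Flow n x0 x1 t1 t2 W D s g h1 h3 ht) {v : ℝ} (hv : 0 < v) :
    ∃ c0 > 0, ∀ x ∈ Icc x0 x1, ∀ t ∈ Icc t1 t2, v ≤ mF x0 x1 t1 t2 g (x, t) → c0 ≤ g (x, t) := by
  have hRc : IsCompact (Icc x0 x1 ×ˢ Icc t1 t2) := isCompact_Icc.prod isCompact_Icc
  have hRW : Icc x0 x1 ×ˢ Icc t1 t2 ⊆ W := fun z hz => F.R_sub z.1 hz.1 z.2 hz.2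
  have hcl : IsClosed {z : ℝ × ℝ | v ≤ mF x0 x1 t1 t2 g z} := isClosed_le continuous_const F.mF_cont
  have hC : IsCompact ((Icc x0 x1 ×ˢ Icc t1 t2) ∩ {z : ℝ × ℝ | v ≤ mF x0 x1 t1 t2 g z}) :=
    hRc.inter_right hcl
  rcases ((Icc x0 x1 ×ˢ Icc t1 t2) ∩ {z : ℝ × ℝ | v ≤ mF x0 x1 t1 t2 g z}).eq_empty_or_nonempty
    with he | hne
  · refine ⟨1, one_pos, fun x hx t ht h => ?_⟩
    exfalso
    have : ((x, t) : ℝ × ℝ) ∈ (Icc x0 x1 ×ˢ Icc t1 t2) ∩ {z : ℝ × ℝ | v ≤ mF x0 x1 t1 t2 g z} :=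
      ⟨⟨hx, ht⟩, h⟩
    rw [he] at this
    exact this
  · obtain ⟨z, hz, hmin⟩ := hC.exists_isMinOn hne (F.g_cont.mono (inter_subset_left.trans hRW))
    refine ⟨g z, ?_, fun x hx t ht h => hmin ⟨⟨hx, ht⟩, h⟩⟩
    apply F.g_pos
    by_contra hD
    have h0 := F.mF_zero (x := z.1) (t := z.2) hz.1.1 hz.1.2 hD
    have h5 : v ≤ mF x0 x1 t1 t2 g z := hz.2
    have h6 : mF x0 x1 t1 t2 g z = 0 := h0
    linarith

/-- the contact point does not move for `n ≤ 9` -/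
theorem small_n (a1 : S_K1) (a3 : S_K3) (a4 : S_K4) (a5 : S_K5) (ab : S_BASE) (ak : S_NECK2)
    (ac : S_CRIT) (S : Sit n x0 x1 t1 t2 W D s g h1 h2 h3 ht) (hn9 : n ≤ 9)
    (hsc : ContinuousOn s (Icc t1 t2)) : s t1 = s t2 := by
  obtain ⟨F, J, hDW, hn, hfin⟩ := id S
  have hmono : s t2 ≤ s t1 := (F.mono_and_mass J hDW hn hfin).1
  by_contra hne
  have hlt : s t2 < s t1 := lt_of_le_of_ne hmono (fun h => hne h.symm)
  obtain ⟨η, hη⟩ : ∃ η, η = (s t1 - s t2) / 3 := ⟨_, rfl⟩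
  have hη0 : 0 < η := by rw [hη]; linarith
  have ht1m : t1 ∈ Icc t1 t2 := ⟨le_rfl, F.htt.le⟩
  have ht2m : t2 ∈ Icc t1 t2 := ⟨F.htt.le, le_rfl⟩
  have hst1 := F.s_mem t1 ht1m
  have hst2 := F.s_mem t2 ht2m
  -- the time `ts`
  obtain ⟨ts, hts, hsts⟩ : ∃ ts ∈ Icc t1 t2, s ts = s t1 - 2 * η := by
    have := intermediate_value_Icc' F.htt.le hsc
    exact this ⟨by rw [hη]; linarith, by linarith⟩
  have hts2 : ts < t2 := by
    rcases eq_or_lt_of_le hts.2 with h | h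
    · exfalso
      rw [h, hη] at hsts
      linarith
    · exact h
  have hmon : ∀ t ∈ Icc ts t2, s t ≤ s t1 - 2 * η := by
    intro t ht
    rcases eq_or_lt_of_le ht.1 with h | h
    · rw [← h, hsts]
    · have F' := F.restrict (x := x1) ⟨F.hx.le, le_rfl⟩ hts.1 h ht.2 (fun τ hτ =>
        (F.s_mem τ ⟨hts.1.trans hτ.1, hτ.2.trans ht.2⟩).2)
      have h5 := (F'.mono_and_mass J hDW hn (hfin.mono_set (inter_subset_inter_right _
        (prod_mono (Subset.refl _) (Ioc_subset_Ioc hts.1 ht.2))))).1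
      rw [← hsts]
      exact h5
  obtain ⟨xb, hxb⟩ : ∃ xb, xb = s t1 - η := ⟨_, rfl⟩
  have hxbm : xb ∈ Icc x0 x1 := by
    constructor
    · rw [hxb, hη]
      linarith
    · rw [hxb]
      linarith
  have F' := F.restrict hxbm hts.1 hts2 le_rfl (fun τ hτ => by
    have := hmon τ hτ
    rw [hxb]
    linarith)
  have hfin' : IntegrableOn (Fd n g h3) (D ∩ Ioc x0 xb ×ˢ Ioc ts t2) :=
    hfin.mono_set (inter_subset_inter_right _ (prod_mono (Ioc_subset_Ioc_right hxbm.2)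
      (Ioc_subset_Ioc_left hts.1)))
  have hsubt : ∀ t ∈ Icc ts t2, t ∈ Icc t1 t2 := fun t ht => ⟨hts.1.trans ht.1, ht.2⟩
  have hmm : ∀ x ∈ Icc x0 xb, ∀ t ∈ Icc ts t2,
      mF x0 xb ts t2 g (x, t) = mF x0 x1 t1 t2 g (x, t) := by
    intro x hx t ht
    rw [F'.mF_int hx ht, F.mF_int ⟨hx.1, hx.2.trans hxbm.2⟩ (hsubt t ht)]
  have hxb' : xb ∈ Icc x0 xb := ⟨hxbm.1, le_rfl⟩
  -- the smallest mass
  have hmc : ContinuousOn (fun t => mF x0 xb ts t2 g (xb, t)) (Icc ts t2) :=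
    (F'.mF_cont.comp (show Continuous fun t : ℝ => (xb, t) by fun_prop)).continuousOn
  obtain ⟨τ0, hτ0, hmin⟩ := isCompact_Icc.exists_isMinOn (nonempty_Icc.2 hts2.le) hmc
  obtain ⟨m0, hm0⟩ : ∃ m0, m0 = mF x0 xb ts t2 g (xb, τ0) := ⟨_, rfl⟩
  have hm0p : 0 < m0 := by
    rw [hm0]
    exact F'.mF_pos hxb' hτ0 (F'.s_mem τ0 hτ0).2
  have hm0' : ∀ t ∈ Icc ts t2, m0 ≤ mF x0 xb ts t2 g (xb, t) := fun t ht => by
    rw [hm0]
    exact hmin ht
  obtain ⟨c0, hc0, hc0'⟩ := F'.low_bd (v := m0 / 2) (by linarith)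
  -- the constants
  obtain ⟨M, c, Pm, Gm, Hm, Bd⟩ := F.exists_bds J hDW
  obtain ⟨M', c', Pm', Gm', Hm', Bd'⟩ := F'.exists_bds J hDW
  obtain ⟨Z, hZ1, hZ⟩ := exists_wcut
  obtain ⟨K0, hK0, hK⟩ := chain_all a1 a3 a4 a5 ab S hn9 Bd (by linarith) hZ
  obtain ⟨K1, hK1⟩ := cK_ev (x := xb) (c := s t1) (by rw [hxb]; linarith)
  obtain ⟨κ0, hκ0⟩ : ∃ κ0, κ0 = max K0 K1 := ⟨_, rfl⟩
  have hκ00 : K0 ≤ κ0 := by rw [hκ0]; exact le_max_left _ _
  have hκ01 : K1 ≤ κ0 := by rw [hκ0]; exact le_max_right _ _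
  have hκ0n : 0 ≤ κ0 := hK0.le.trans hκ00
  obtain ⟨C, hC1, hC⟩ := ak n M' Pm' κ0 m0 c0 hn hn9 Bd'.hM1 hκ0n hm0p hc0
  obtain ⟨Pq, hPq⟩ : ∃ Pq, Pq = |Pm'| + 8 * (1 + |Gm'|) := ⟨_, rfl⟩
  have hFd : ∀ z ∈ D, 0 ≤ Fd n g h3 z := fun z hz =>
    mul_nonneg (Real.rpow_nonneg (F.g_pos z hz).le _) (sq_nonneg _)
  obtain ⟨E, hE⟩ : ∃ E : ℝ → ℝ, E = eV n x0 xb D univ g h3 := ⟨_, rfl⟩
  have hE0 : ∀ τ, 0 ≤ E τ := fun τ => by
    rw [hE]
    exact eV_nonneg hFd _ _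
  have hEi : IntegrableOn E (Ioc ts t2) := by
    rw [hE]
    exact tail_integrable F.D_open.measurableSet MeasurableSet.univ hfin'
  obtain ⟨A, hA⟩ : ∃ A, A = |massD n (5 * (n - 3)) c' M' Pq| * (1 + C) := ⟨_, rfl⟩
  have hA0 : 0 ≤ A := by
    rw [hA]
    have : 0 ≤ 1 + C := by linarith
    positivity
  have hfinal := ac n x0 xb ts t2 W D s g h1 h2 h3 ht ⟨F', J, hDW, hn, hfin'⟩
    (fun τ => A * (1 + E τ)) (fun τ => mul_nonneg hA0 (by have := hE0 τ; linarith))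
    (int_mono_sub hE0 hA0 hEi le_rfl le_rfl).1 (by
      have hae := tail_ae (n := n) (g := g) (h3 := h3) F.D_open.measurableSet hfin'
      filter_upwards [hae, ae_restrict_mem measurableSet_Ioc] with τ g1 g2
      have hτ : τ ∈ Icc ts t2 := ⟨g2.1.le, g2.2⟩
      have hτb := hsubt τ hτ
      have hsτ := F'.s_mem τ hτ
      have P := F'.prof J hτ g1
      obtain ⟨Eτ, hEτ⟩ : ∃ Eτ, Eτ = E τ := ⟨_, rfl⟩
      have hEe : eV n x0 xb D univ g h3 τ = Eτ := by rw [hEτ, hE]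
      rw [hEe] at P
      have hEτ0 : 0 ≤ Eτ := by rw [hEτ]; exact hE0 τ
      have hIoc : ∀ x ∈ Ioc (s τ) xb, x ∈ Icc x0 xb := fun x hx => ⟨hsτ.1.le.trans hx.1.le, hx.2⟩
      have hNE : ∀ bl > 0, NE n (s τ) xb bl (mF x0 xb ts t2 g (xb, τ)) κ0 (fun x => g (x, τ))
          (fun x => mF x0 xb ts t2 g (x, τ)) := by
        intro bl hbl
        have h5 := F.ne_of hDW hn hZ (bl := bl) (mc := mF x0 x1 t1 t2 g (xb, τ)) (κ0 := κ0) hτb
          hκ0n hbl.le (by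
            intro κ hκ b hb hlt hEv
            have h6 := hK κ (hκ00.trans hκ) τ hτb b (by linarith) hEv
            have h7 : xb ≤ cK (s t1) κ := (hK1 κ (hκ01.trans hκ)).le
            have h8 := F.mF_mono (τ := τ) hxbm.1 h7
            linarith)
        intro κ hκ b hb hlt u1 u2 V hu1 hu12 hu2 hV h
        rw [hmm xb hxb' τ hτ] at hlt
        exact h5 κ hκ b hb hlt u1 u2 V hu1 hu12 (hu2.trans hxbm.2) hV (fun u hu => by
          have h9 := h u hu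
          have hum : u ∈ Icc x0 xb := hIoc u ⟨hu1.trans_le hu.1, hu.2.trans hu2⟩
          simp only at h9
          rw [hmm u hum τ hτ] at h9
          exact h9)
      have hNk := hC (s τ) xb Eτ (fun x => g (x, τ)) (fun x => h1 (x, τ)) (fun x => h2 (x, τ))
        (fun x => h3 (x, τ)) (fun x => mF x0 xb ts t2 g (x, τ)) P
        (fun x hx => Bd'.hM x (hIoc x hx) τ hτ) (Bd'.hPm τ hτ)
        (fun x hx => F'.label_dx (hIoc x hx) hτ)
        (fun x hx => F'.mF_pos (hIoc x hx) hτ hx.1) (hm0' τ hτ)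
        (fun x hx hx' => hc0' x (hIoc x hx) τ hτ hx') hNE
      have hE1 : 1 ≤ 1 + Eτ := by linarith
      have hl1 : 1 ≤ C * (1 + Eτ) ^ 4 := one_le_mul_of_one_le_of_one_le hC1 (one_le_pow₀ hE1)
      have hPq0 : |Pm'| ≤ Pq := by
        rw [hPq]
        have := abs_nonneg Gm'
        linarith
      have hmass := P.massD hn (γ := 5 * (n - 3)) (l := C * (1 + Eτ) ^ 4) (c := c') (M := M')
        (Pm := Pq) (by linarith) le_rfl hl1 hNk Bd'.hc Bd'.hc1 (Bd'.hca τ hτ) Bd'.hM1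
        (fun x hx => Bd'.hM x (hIoc x hx) τ hτ)
        ((Bd'.hPm τ hτ).trans ((le_abs_self _).trans hPq0))
        (by
          have e1 := (le_abs_self _).trans ((Bd'.hGm τ hτ).trans (le_abs_self Gm'))
          refine e1.trans ?_
          have e2 := abs_nonneg Pm'
          have e3 := abs_nonneg Gm'
          rw [hPq]
          nlinarith only [e2])
        (m := fun x => mF x0 xb ts t2 g (x, τ))
        (fun y z w hy hyz hz _ hw => F'.mF_lower hτ (hsτ.1.le.trans hy.le) hyz hz hw)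
        (fun x y hx hxy _ => F'.mF_mono (hsτ.1.le.trans hx.le) hxy)
      intro x hx hsx
      have hx' : x ∈ Ioc (s τ) xb := ⟨hsx, hx.2⟩
      refine (hmass x hx').trans ?_
      have hq1 : (Eτ * (C * (1 + Eτ) ^ 4)) ^ ((1 : ℝ) / 5) ≤ C * (1 + Eτ) := by
        have e1 : Eτ * (C * (1 + Eτ) ^ 4) ≤ (C * (1 + Eτ)) ^ (5 : ℕ) := by
          have e2 : Eτ * (C * (1 + Eτ) ^ 4) ≤ C * (1 + Eτ) ^ 5 := by
            have : 0 ≤ C * (1 + Eτ) ^ 4 := by positivity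
            nlinarith only [hl1]
          refine e2.trans ?_
          rw [mul_pow]
          apply mul_le_mul_of_nonneg_right _ (by positivity)
          calc C = C ^ 1 := (pow_one C).symm
            _ ≤ C ^ 5 := pow_le_pow_right₀ hC1 (by norm_num)
        calc (Eτ * (C * (1 + Eτ) ^ 4)) ^ ((1 : ℝ) / 5) ≤
            ((C * (1 + Eτ)) ^ (5 : ℕ)) ^ ((1 : ℝ) / 5) :=
              Real.rpow_le_rpow (by positivity) e1 (by norm_num)
          _ = C * (1 + Eτ) := by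
              rw [← Real.rpow_natCast, ← Real.rpow_mul (by positivity)]
              norm_num
      have hq2 : 1 + (Eτ * (C * (1 + Eτ) ^ 4)) ^ ((1 : ℝ) / 5) ≤ (1 + C) * (1 + Eτ) := by
        nlinarith only [hq1, hE1]
      have hmx : 0 < mF x0 xb ts t2 g (x, τ) := F'.mF_pos hx hτ hsx
      obtain ⟨Y, hY⟩ : ∃ Y, Y = (1 + |Real.log (mF x0 xb ts t2 g (x, τ))|) *
          mF x0 xb ts t2 g (x, τ) := ⟨_, rfl⟩
      have hY0 : 0 ≤ Y := by rw [hY]; positivity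
      rw [← hY]
      have hq0 : 0 ≤ (Eτ * (C * (1 + Eτ) ^ 4)) ^ ((1 : ℝ) / 5) :=
        Real.rpow_nonneg (by positivity) _
      calc massD n (5 * (n - 3)) c' M' Pq * ((1 + (Eτ * (C * (1 + Eτ) ^ 4)) ^ ((1 : ℝ) / 5)) * Y) ≤
          |massD n (5 * (n - 3)) c' M' Pq| *
            ((1 + (Eτ * (C * (1 + Eτ) ^ 4)) ^ ((1 : ℝ) / 5)) * Y) := by
            apply mul_le_mul_of_nonneg_right (le_abs_self _)
            positivity
        _ ≤ |massD n (5 * (n - 3)) c' M' Pq| * (((1 + C) * (1 + Eτ)) * Y) := by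
            apply mul_le_mul_of_nonneg_left _ (abs_nonneg _)
            exact mul_le_mul_of_nonneg_right hq2 hY0
        _ = A * (1 + E τ) * Y := by
            rw [hA, ← hEτ]
            ring)
  rw [hsts, hη] at hfinal
  linarith

end Pool.Agent.Q81.TF
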