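import Pool.Agent.Q81.TF.Slope

open Set MeasureTheory Filter Topology

namespace Pool.Agent.Q81.TF

variable {n a0 a E : ℝ} {f f1 f2 f3 : ℝ → ℝ}

/-- descending case: if the largest slope is attained with a negative sign -/
theorem Prof.down (P : Prof n a0 a E f f1 f2 f3) (hn : 0 ≤ n) {x0 p v w P0 : ℝ}
    (hx0 : a0 < x0) (hx1 : x0 < a) (hp : 0 < p) (hfp : f1 x0 = -p) (hf2 : f2 x0 = 0)
    (hv : f x0 ≤ 2 * v) (hw : 0 < w) (hlow : ∀ y ∈ Icc x0 a, w ≤ f y)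
    (hP0 : |f1 a| ≤ P0) (hpP : 2 * P0 ≤ p) : p ^ 5 * w ^ n ≤ 256 * E * v ^ 3 := by
  obtain ⟨v0, hv0⟩ : ∃ v0, v0 = f x0 := ⟨_, rfl⟩
  rw [← hv0] at hv
  have hv0p : 0 < v0 := by
    rw [hv0]
    exact P.pos x0 ⟨hx0, hx1.le⟩
  have hE := P.E_nonneg
  have hwn : 0 < w ^ n := Real.rpow_pos_of_pos hw n
  obtain ⟨l, hl⟩ : ∃ l, l = 2 * v0 / p := ⟨_, rfl⟩
  have hlp : l * p = 2 * v0 := by rw [hl]; field_simp
  have hl0 : 0 < l := by rw [hl]; positivity
  -- the point where the slope has relaxed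
  have h1 : ∃ ξ, x0 < ξ ∧ ξ ≤ a ∧ ξ ≤ x0 + l ∧ -(p / 2) ≤ f1 ξ := by
    by_cases hla : x0 + l ≤ a
    · obtain ⟨c, hc1, hc2⟩ := exists_hasDerivAt_eq_slope f f1 (show x0 < x0 + l by linarith)
        (fun x hx' => (P.d0 x ⟨hx0.trans_le hx'.1, hx'.2.trans hla⟩).continuousAt.continuousWithinAt)
        (fun x hx' => P.d0 x ⟨hx0.trans hx'.1, hx'.2.le.trans hla⟩)
      refine ⟨c, hc1.1, hc1.2.le.trans hla, hc1.2.le, ?_⟩
      have h2 : 0 < f (x0 + l) := P.pos _ ⟨by linarith, hla⟩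
      rw [hc2, show x0 + l - x0 = l by ring, ← hv0, le_div_iff₀ hl0]
      nlinarith only [h2, hlp]
    · refine ⟨a, hx1, le_rfl, by linarith, ?_⟩
      have := neg_le_of_abs_le hP0
      linarith
  obtain ⟨ξ, h2, h3, h4, h5⟩ := h1
  obtain ⟨ζ, hζ1, hζ2⟩ := exists_hasDerivAt_eq_slope f1 f2 h2
    (fun x hx' => (P.d1 x ⟨hx0.trans_le hx'.1, hx'.2.trans h3⟩).continuousAt.continuousWithinAt)
    (fun x hx' => P.d1 x ⟨hx0.trans hx'.1, hx'.2.le.trans h3⟩)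
  have h6 : p ^ 2 / (4 * v0) ≤ f2 ζ := by
    rw [hζ2, hfp, div_le_div_iff₀ (by positivity) (by linarith)]
    have h7 : ξ - x0 ≤ l := by linarith
    have h8 : p ^ 2 * (ξ - x0) ≤ p ^ 2 * l := mul_le_mul_of_nonneg_left h7 (sq_nonneg _)
    nlinarith only [h5, h4, hlp, hv0p, hp]
  have h9 := P.cs hn hx0 hζ1.1 (hζ1.2.le.trans h3) hw
    (fun y hy => hlow y ⟨hy.1, hy.2.trans (hζ1.2.le.trans h3)⟩)
  rw [hf2, sub_zero] at h9
  have h10 : (p ^ 2 / (4 * v0)) ^ 2 ≤ f2 ζ ^ 2 := pow_le_pow_left₀ (by positivity) h6 2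
  have h11 : (p ^ 2 / (4 * v0)) ^ 2 * w ^ n ≤ l * E :=
    ((mul_le_mul_of_nonneg_right h10 hwn.le).trans h9).trans
      (mul_le_mul_of_nonneg_right (by linarith [hζ1.2]) hE)
  have h12 : p ^ 5 * w ^ n ≤ 32 * E * v0 ^ 3 := by
    have h13 : (p ^ 2 / (4 * v0)) ^ 2 * w ^ n * (16 * v0 ^ 2 * p) = p ^ 5 * w ^ n := by
      field_simp
      ring
    rw [← h13]
    calc (p ^ 2 / (4 * v0)) ^ 2 * w ^ n * (16 * v0 ^ 2 * p) ≤ l * E * (16 * v0 ^ 2 * p) :=
          mul_le_mul_of_nonneg_right h11 (by positivity)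
      _ = (l * p) * (16 * E * v0 ^ 2) := by ring
      _ = 32 * E * v0 ^ 3 := by rw [hlp]; ring
  have h14 : v0 ^ 3 ≤ (2 * v) ^ 3 := pow_le_pow_left₀ hv0p.le hv 3
  nlinarith only [h14, h12, hE]

/-- ascending case -/
theorem Prof.up (P : Prof n a0 a E f f1 f2 f3) (hn : 0 ≤ n) {x0 x2 p v w δ B0 : ℝ}
    (hx0 : a0 < x0) (hx1 : x0 < x2) (hx2 : x2 ≤ a) (hδ : 0 < δ) (hδp : δ ≤ p) (hfp : f1 x0 = p)
    (hmax : ∀ y ∈ Icc x0 a, f1 y ≤ p) (h2v : f1 x2 ≤ p - δ) (hv : 0 < v)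
    (hlt : ∀ y ∈ Ioc x0 x2, f y ≤ 2 * v)
    (hw : 0 < w) (hlow : ∀ y ∈ Icc x0 a, w ≤ f y) (hB0 : |f2 a| ≤ B0)
    (hpB : 16 * B0 * v ≤ δ * p) : δ ^ 5 * w ^ n ≤ 16384 * E * v ^ 3 := by
  have hE := P.E_nonneg
  have hwn : 0 < w ^ n := Real.rpow_pos_of_pos hw n
  have hp : 0 < p := hδ.trans_le hδp
  have hx0a : x0 < a := hx1.trans_le hx2
  -- first point where the slope has dropped
  have hc1 : ContinuousOn f1 (Icc x0 x2) := fun x hx =>
    (P.d1 x ⟨hx0.trans_le hx.1, hx.2.trans hx2⟩).continuousAt.continuousWithinAt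
  have hcomp : IsCompact (Icc x0 x2 ∩ f1 ⁻¹' Iic (p - δ / 2)) :=
    (isCompact_Icc).of_isClosed_subset (hc1.preimage_isClosed_of_isClosed isClosed_Icc isClosed_Iic)
      inter_subset_left
  obtain ⟨ξ1, hξ1, hξ2⟩ := hcomp.exists_isLeast ⟨x2, ⟨hx1.le, le_rfl⟩, by
    simp only [mem_preimage, mem_Iic]; linarith⟩
  have hξa : ξ1 ≤ p - δ / 2 ∨ True := Or.inr trivial
  have hξ3 : f1 ξ1 ≤ p - δ / 2 := hξ1.2
  have hξ4 : x0 < ξ1 := by
    rcases eq_or_lt_of_le hξ1.1.1 with h | h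
    · rw [← h, hfp] at hξ3
      linarith
    · exact h
  have hξ5 : ∀ y ∈ Ico x0 ξ1, p - δ / 2 < f1 y := by
    intro y hy
    by_contra hcon
    have : ξ1 ≤ y := hξ2 ⟨⟨hy.1, hy.2.le.trans hξ1.1.2⟩, not_lt.1 hcon⟩
    exact absurd hy.2 (not_lt.2 this)
  have hξa' : ξ1 ≤ a := hξ1.1.2.trans hx2
  -- the length of this interval
  have hlen : (ξ1 - x0) * p ≤ 4 * v := by
    obtain ⟨c, hc1, hc2⟩ := exists_hasDerivAt_eq_slope f f1 hξ4
      (fun x hx' => (P.d0 x ⟨hx0.trans_le hx'.1, hx'.2.trans hξa'⟩).continuousAt.continuousWithinAt)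
      (fun x hx' => P.d0 x ⟨hx0.trans hx'.1, hx'.2.le.trans hξa'⟩)
    have h1 := hξ5 c ⟨hc1.1.le, hc1.2⟩
    have h2 : p / 2 ≤ f1 c := by linarith
    rw [hc2, le_div_iff₀ (by linarith)] at h2
    have h3 := hlt ξ1 ⟨hξ4, hξ1.1.2⟩
    have h4 := P.pos x0 ⟨hx0, hx0a.le⟩
    nlinarith only [h4, h3, h2]
  obtain ⟨ξ, hξ6, hξ7⟩ := exists_hasDerivAt_eq_slope f1 f2 hξ4
    (fun x hx' => (P.d1 x ⟨hx0.trans_le hx'.1, hx'.2.trans hξa'⟩).continuousAt.continuousWithinAt)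
    (fun x hx' => P.d1 x ⟨hx0.trans hx'.1, hx'.2.le.trans hξa'⟩)
  obtain ⟨k, hk⟩ : ∃ k, k = δ * p / (8 * v) := ⟨_, rfl⟩
  have hk0 : 0 < k := by rw [hk]; positivity
  have hkv : k * (8 * v) = δ * p := by rw [hk]; field_simp
  have hξ8 : f2 ξ ≤ -k := by
    rw [hξ7, hfp, div_le_iff₀ (by linarith)]
    have h1 : k * (ξ1 - x0) ≤ δ / 2 := by
      have h2 : k * (ξ1 - x0) * (8 * v) ≤ δ / 2 * (8 * v) := by
        calc k * (ξ1 - x0) * (8 * v) = (k * (8 * v)) * (ξ1 - x0) := by ring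
          _ = δ * ((ξ1 - x0) * p) := by rw [hkv]; ring
          _ ≤ δ * (4 * v) := mul_le_mul_of_nonneg_left hlen hδ.le
          _ = δ / 2 * (8 * v) := by ring
      exact le_of_mul_le_mul_right h2 (by positivity)
    linarith
  have hξx : x0 < ξ := hξ6.1
  have hξ0 : a0 < ξ := hx0.trans hξx
  have hξa2 : ξ < a := hξ6.2.trans_le hξa'
  obtain ⟨l, hl⟩ : ∃ l, l = 64 * v / δ := ⟨_, rfl⟩
  have hl0 : 0 < l := by rw [hl]; positivity
  have hlδ : l * δ = 64 * v := by rw [hl]; field_simp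
  -- the second derivative recovers
  have hη : ∃ η, ξ < η ∧ η ≤ a ∧ η ≤ ξ + l ∧ -(k / 2) ≤ f2 η := by
    by_contra hcon
    push Not at hcon
    by_cases hla : ξ + l ≤ a
    · -- contradiction with positivity
      have h1 : ∀ x ∈ Ioc ξ (ξ + l), f1 x - f1 ξ ≤ -(k / 2) * (x - ξ) := by
        intro x hx
        obtain ⟨c, hc1, hc2⟩ := exists_hasDerivAt_eq_slope f1 f2 hx.1
          (fun y hy => (P.d1 y ⟨hξ0.trans_le hy.1,
            hy.2.trans (hx.2.trans hla)⟩).continuousAt.continuousWithinAt)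
          (fun y hy => P.d1 y ⟨hξ0.trans hy.1, hy.2.le.trans (hx.2.trans hla)⟩)
        have h2 := hcon c hc1.1 (hc1.2.le.trans (hx.2.trans hla)) (hc1.2.le.trans hx.2)
        rw [hc2, div_lt_iff₀ (by linarith [hx.1])] at h2
        exact h2.le
      have h3 : ∀ x ∈ Icc ξ (ξ + l), f x ≤ f ξ + f1 ξ * (x - ξ) - k / 4 * (x - ξ) ^ 2 := by
        have h4 : AntitoneOn (fun x => f x - (f ξ + f1 ξ * (x - ξ) - k / 4 * (x - ξ) ^ 2))
            (Icc ξ (ξ + l)) := by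
          have hd : ∀ x ∈ Icc ξ (ξ + l), HasDerivAt
              (fun x => f x - (f ξ + f1 ξ * (x - ξ) - k / 4 * (x - ξ) ^ 2))
              (f1 x - (f1 ξ - k / 2 * (x - ξ))) x := by
            intro x hx
            have e1 := P.d0 x ⟨hξ0.trans_le hx.1, hx.2.trans hla⟩
            have e2 : HasDerivAt (fun x => f ξ + f1 ξ * (x - ξ) - k / 4 * (x - ξ) ^ 2)
                (f1 ξ - k / 2 * (x - ξ)) x := by
              have e3 : HasDerivAt (fun x : ℝ => x - ξ) 1 x := (hasDerivAt_id x).sub_const ξ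
              have e4 := ((e3.const_mul (f1 ξ)).const_add (f ξ)).sub ((e3.pow 2).const_mul (k / 4))
              exact e4.congr_deriv (by norm_num; ring)
            exact e1.sub e2
          apply antitoneOn_of_deriv_nonpos (convex_Icc _ _)
          · exact fun x hx => (hd x hx).continuousAt.continuousWithinAt
          · intro x hx
            rw [interior_Icc] at hx
            exact (hd x ⟨hx.1.le, hx.2.le⟩).differentiableAt.differentiableWithinAt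
          · intro x hx
            rw [interior_Icc] at hx
            rw [(hd x ⟨hx.1.le, hx.2.le⟩).deriv]
            have := h1 x ⟨hx.1, hx.2.le⟩
            linarith
        intro x hx
        have h5 := h4 ⟨le_rfl, by linarith⟩ hx hx.1
        simp only [sub_self, mul_zero, add_zero, ne_eq, OfNat.ofNat_ne_zero, not_false_eq_true,
          zero_pow, sub_zero] at h5
        linarith
      have h6 := h3 (ξ + l) ⟨by linarith, le_rfl⟩
      rw [show ξ + l - ξ = l by ring] at h6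
      have h7 : 0 < f (ξ + l) := P.pos _ ⟨by linarith, hla⟩
      have h8 : f ξ ≤ 2 * v := hlt ξ ⟨hξx, hξ6.2.le.trans hξ1.1.2⟩
      have h9 : f1 ξ ≤ p := hmax ξ ⟨hξx.le, hξa2.le⟩
      have h10 : k * l ^ 2 = 8 * p * l := by
        have h11 : k * l ^ 2 * (8 * v) = 8 * p * l * (8 * v) := by
          calc k * l ^ 2 * (8 * v) = (k * (8 * v)) * l ^ 2 := by ring
            _ = (l * δ) * (p * l) := by rw [hkv]; ring
            _ = 8 * p * l * (8 * v) := by rw [hlδ]; ring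
        exact mul_right_cancel₀ (by positivity) h11
      have h12 : f1 ξ * l ≤ p * l := mul_le_mul_of_nonneg_right h9 hl0.le
      have h13 : 64 * v ≤ p * l := by
        rw [← hlδ]
        nlinarith only [hl0, hδp]
      nlinarith only [h13, h12, h10, h8, h7, h6, hk0]
    · have h1 := hcon a hξa2 le_rfl (by linarith)
      have h2 := neg_le_of_abs_le hB0
      have h3 : k < 2 * B0 := by linarith
      have h4 : k * (8 * v) < 2 * B0 * (8 * v) := mul_lt_mul_of_pos_right h3 (by positivity)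
      rw [hkv] at h4
      linarith
  obtain ⟨η, h1, h2, h3, h4⟩ := hη
  have h5 := P.cs hn hξ0 h1 h2 hw (fun y hy => hlow y ⟨hξx.le.trans hy.1, hy.2.trans h2⟩)
  have h6 : (k / 2) ^ 2 ≤ (f2 η - f2 ξ) ^ 2 := pow_le_pow_left₀ (by positivity) (by linarith) 2
  have h7 : (k / 2) ^ 2 * w ^ n ≤ l * E :=
    ((mul_le_mul_of_nonneg_right h6 hwn.le).trans h5).trans
      (mul_le_mul_of_nonneg_right (by linarith) hE)
  have h8 : δ ^ 3 * p ^ 2 * w ^ n ≤ 16384 * E * v ^ 3 := by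
    have h9 : (k / 2) ^ 2 * w ^ n * (256 * v ^ 2 * δ) = δ ^ 3 * p ^ 2 * w ^ n := by
      calc (k / 2) ^ 2 * w ^ n * (256 * v ^ 2 * δ) = (k * (8 * v)) ^ 2 * δ * w ^ n := by ring
        _ = δ ^ 3 * p ^ 2 * w ^ n := by rw [hkv]; ring
    rw [← h9]
    calc (k / 2) ^ 2 * w ^ n * (256 * v ^ 2 * δ) ≤ l * E * (256 * v ^ 2 * δ) :=
          mul_le_mul_of_nonneg_right h7 (by positivity)
      _ = (l * δ) * (256 * E * v ^ 2) := by ring
      _ = 16384 * E * v ^ 3 := by rw [hlδ]; ring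
  refine le_trans ?_ h8
  apply mul_le_mul_of_nonneg_right _ hwn.le
  calc δ ^ 5 = δ ^ 3 * δ ^ 2 := by ring
    _ ≤ δ ^ 3 * p ^ 2 := mul_le_mul_of_nonneg_left (pow_le_pow_left₀ hδ.le hδp 2) (by positivity)

end Pool.Agent.Q81.TF
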