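import Pool.Agent.Q81.TF.Event
import Pool.Agent.Q81.TF.DeepB
import Pool.Agent.Q81.TF.Rect

/-! Project TF (thin film, MP_e83d7b_an): the remaining lemmas, each stated as a proposition
`S_...`; the proofs are sketched in the comments. `Flow`, `Jet`, `Prof`, `Seg`, `Bds` are the
structures of this folder. -/

open Set MeasureTheory Filter Topology

namespace Pool.Agent.Q81.TF

/-- the general situation -/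
structure Sit (n x0 x1 t1 t2 : ℝ) (W D : Set (ℝ × ℝ)) (s : ℝ → ℝ) (g h1 h2 h3 ht : ℝ × ℝ → ℝ) :
    Prop where
  F : Flow n x0 x1 t1 t2 W D s g h1 h3 ht
  J : Jet D h1 h2 h3
  DW : D ⊆ W
  hn : 3 ≤ n
  fin : IntegrableOn (Fd n g h3) (D ∩ Ioc x0 x1 ×ˢ Ioc t1 t2)

/-- CRIT. If `g ^ (n - 1) ≤ K(t) (1 + |log m|) m` (`m` = the label) then the contact point does not
move.
Proof. Adapt `Flow.P_time`, `flux_slice` and `Flow.P_evol` (file Track) with `b = 0`, `q = 1`,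
`c = x1`, `ν = m0`, `μ = m0 ^ 2`, and the cut `LCut B 0 μ ν Ω ω` of `exists_lcut`. The only change:
in `P_time` the dissipation is estimated by the one over the set `V = {z | mF z < 2 * m0}`
(`ω (m)` vanishes outside `μ ≤ m ≤ m0`), which is small by `tail_small` (see `Crit.lean`, where the
same is done; there `K`, `tail_small`, `tail_ae`, `tail_integrable` are used). Per time:
`∫ |ω(m) J| ≤ l/2 e(τ) + (1/(2l)) ∫ ω² g^n`, and `∫ ω² g^n ≤ (B/Λ)² K (1+|log μ|) ∫ g/m ≤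
3 B² K` with `Λ = log (m0/μ) = |log m0|`, `|log m| ≤ |log μ| = 2Λ` on `μ ≤ m ≤ m0`, `Λ ≥ 1`.
So `∫ Ω(m)(t2) - ∫ Ω(m)(t1) ≤ l/2 ∫ e + (3B²/(2l)) ∫ K`, small: first `l` large, then `m0` small.
At a fixed time `∫_{x0}^{x1} Ω(m) dx` is at most `x1 - s t` (`Ω(0) = 0`, `Ω ≤ 1`) and at least
`x1 - s t - θ` as soon as `m0 ≤ mF (s t + θ, t)`. Hence `x1 - s t2 ≤ x1 - s t1 + small`, i.e.
`s t1 ≤ s t2`, and `s t2 ≤ s t1` is `Flow.mono_and_mass`. -/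
def S_CRIT : Prop :=
  ∀ (n x0 x1 t1 t2 : ℝ) (W D : Set (ℝ × ℝ)) (s : ℝ → ℝ) (g h1 h2 h3 ht : ℝ × ℝ → ℝ),
    Sit n x0 x1 t1 t2 W D s g h1 h2 h3 ht → ∀ K : ℝ → ℝ, (∀ τ, 0 ≤ K τ) →
    IntegrableOn K (Ioc t1 t2) →
    (∀ᵐ τ ∂(volume.restrict (Ioc t1 t2)), ∀ x ∈ Icc x0 x1, s τ < x →
      g (x, τ) ^ (n - 1) ≤ K τ *
        ((1 + |Real.log (mF x0 x1 t1 t2 g (x, τ))|) * mF x0 x1 t1 t2 g (x, τ))) →
    s t1 = s t2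

/-- K1. `muK / nuK = exp (-(1/20) rhoP K)`. -/
def S_K1 : Prop := ∀ n : ℝ, 3 ≤ n → ∃ K0 : ℝ, ∀ K, K0 ≤ K → 64 * muK n K ≤ nuK n K

/-- K3. Each of the three terms, divided by `SgK = exp (σ K)`, tends to 0. Exponents (all are
linear or simple in n): `σ = (4n-10)/5`, `ρ' = rhoQ n = (21/20)(441/1000 + (441/2000)(n-3))`;
`muK^(-4) * muK = exp (3 ρ' K)`; `hS ^ (23/5) = C exp (-(23/5) σ K/(n-8/5))`, need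
`σ - 3ρ' + (23/5)σ/(n-8/5) > 0` (n = 3: 0.32; n = 9: 2.87); `thK ^ (23/5) = exp (-(483/100) K)`,
need `σ + 4.83 - 3ρ' > 0`; the third: `PK n M Pm 0 κ = exp (c + (1/4) log (1+κ) + (n-3)/5 κ)`, so
`(32 PK muK)^(23/10) = C (1+κ)^(23/40) exp ((23/50)(n-3)κ - (23/10)ρ' K)`, `κ = (21/20) K`; need
`σ - (7/10)ρ' - (23/50)(n-3)(21/20) > 0` (n = 3: 0.0759; n = 9: 1.0). -/
def S_K3 : Prop :=
  ∀ n L M Pm Z I : ℝ, 3 ≤ n → n ≤ 9 → 0 < L → 1 ≤ M → 0 ≤ Z → 0 ≤ I → ∃ K0 : ℝ, ∀ K, K0 ≤ K →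
    sC n * (Z / muK n K) ^ 4 * ((2 * hS n L K) ^ ((23 : ℝ) / 5) + (2 * thK K) ^ ((23 : ℝ) / 5) +
      (32 * PK n M Pm 0 (lamP * K) * muK n K) ^ ((23 : ℝ) / 10)) * (4 * muK n K) * I ≤
        SgK n K / 4

/-- the rate of the flux -/
noncomputable def kapK (n M Pm B K : ℝ) : ℝ :=
  B ^ 2 * (16 * PK n M Pm 0 (lamP * K)) ^ ((n - 1) / 2) * nuK n K ^ ((n - 1) / 2 - 1) /
    Real.log (nuK n K / (32 * muK n K))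

/-- K4. With `q = (n-1)/2`: `kapK ≤ C (1+κ)^(q/4) exp (e K)/(K (ρ'-ρ) - log 32)`, `κ = (21/20)K`,
`e = q (n-3)/5 (21/20) - ρ (q-1) = -(21/4000)(n-3)(n-1) ≤ 0`, `ρ = rhoP n`, `ρ' - ρ = ρ/20`. For
`n > 3` it decays exponentially; for `n = 3`, `q = 1` and `kapK ≤ C K^(1/4)/K`, hence
`sqrt kapK ≤ C K^(-3/8)`, whereas the right side is `K^(-1/4) (1 - (20/21)^(1/4))`. (Treat both
cases at once if convenient: `kapK * K^(3/4)` is bounded for large `K`.) -/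
def S_K4 : Prop :=
  ∀ n M Pm B I : ℝ, 3 ≤ n → n ≤ 9 → 1 ≤ M → 0 ≤ B → 0 ≤ I → ∃ K0 : ℝ, ∀ K, K0 ≤ K →
    Real.sqrt (kapK n M Pm B K) * I < K ^ (-((1 : ℝ) / 4)) - (lamP * K) ^ (-((1 : ℝ) / 4))

/-- K5. Exponents: `hS ^ 2 = C exp (-2σK/(n-8/5))` against
`PK muK ≥ c exp ((n-3)/5 (21/20) K - ρ' K)`: need `2σ/(n-8/5) > ρ' - (21/100)(n-3)`
(n = 3: 0.571 > 0.463; n = 9: 1.40 > 0.592; in between: `(8n-20)/(5n-8) > 0.463 + 0.0215 (n-3)`);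
`thK ^ 2 = exp (-(21/10) K)` is much smaller. -/
def S_K5 : Prop :=
  ∀ n L M Pm : ℝ, 3 ≤ n → n ≤ 9 → 0 < L → 1 ≤ M → ∃ K0 : ℝ, ∀ K, K0 ≤ K →
    (2 * hS n L K) ^ 2 ≤ 16 * PK n M Pm 0 (lamP * K) * (32 * muK n K) ∧
      (2 * thK K) ^ 2 ≤ 16 * PK n M Pm 0 (lamP * K) * (32 * muK n K)

/-- BASE. No event at a fixed positive label when `κ` is large.
Proof. `{z ∈ Icc x0 x1 ×ˢ Icc t1 t2 | bl/2 ≤ mF z}` is compact and contained in `D` (`F.mF_zero`),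
so `g ≥ c > 0` there. If `Event n x0 x1 t1 t2 Z g κ b t` with `bl ≤ b`, `2 muK n κ ≤ bl/2`: the
integrand of `Sf` vanishes where `mF ≤ b - 2 muK` (`WCut.lo`), elsewhere it is at most
`c ^ (8/5 - n)`; so `SgK n κ ≤ Sf ≤ (x1 - x0) c ^ (8/5 - n)` (see `Flow.neck_ex` for the pattern),
while `SgK n κ = exp (sigP n * κ) → ∞`, `muK n κ → 0`. -/
def S_BASE : Prop :=
  ∀ (n x0 x1 t1 t2 : ℝ) (W D : Set (ℝ × ℝ)) (s : ℝ → ℝ) (g h1 h2 h3 ht : ℝ × ℝ → ℝ),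
    Sit n x0 x1 t1 t2 W D s g h1 h2 h3 ht → ∀ Z bl : ℝ, 0 < bl → ∃ κ1 : ℝ, ∀ κ, κ1 ≤ κ →
      ∀ t ∈ Icc t1 t2, ∀ b, bl ≤ b → ¬ Event n x0 x1 t1 t2 Z g κ b t

/-- NECK (main estimate of necks without events, `3 ≤ n ≤ 9`).
Proof. Let `a0 < x < y < z ≤ a`, `v = min (f x) (f z)`, `ℓ = |log v|`. Let `y0` be a minimum
point of `f` on `[x, z]`, `d = f y0 ≤ f y`, `depth n (f y) ≤ depth n d` (`depth_anti`). If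
`d ≥ min (c0) (v/2)`, or `d > 1`, the claim is clear from `1 + depth n d ≤ d^(3-n)(1 + log d⁻¹)`
(`depth_le`), since `(n-3) ≤ 5(n-3)`. Otherwise `d < v/2`, `y0` is interior, `f1 y0 = 0`, and
`m y0 < m0/2` by the hypothesis on large labels. Apply `Seg.neck_mass` to the reflected profile
(`Prof.seg`, `Seg.refl`) on `[x, y0]` (left end `p` close to `a0` with `f p < d`: `hR` right
alternative): `v² ≤ 4 τ (m y0 - m x) ≤ 4 τ (m y0)`, `τ^5 ≤ max (Pm^5) (lam n M E d)`. Put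
`κ = max κ0 (log (17/m y0)/ρ)`, `ρ = rhoP n`, enlarged so that `nuK n κ < m0/2`; then
`16 nuK n κ ≤ m y0` and `m y0 + nuK n κ < m a`. `Seg.neck_right` on `[y0, z]` and `conv1` (with
`hNE` for `b = m y0`, as in the proof of `Prof.heightR`, file Slice, step `key`) give
`(4n-10)(ℓ0 - κ) ≤ cA + 5n + log (1+E) + log (1+ℓ0)`, `ℓ0 = log d⁻¹`. With `lam_le`:
`log τ ≤ (1/5)(cA + log (1+E) + (n-3) ℓ0 + log (1+ℓ0))` (or `τ ≤ Pm`), and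
`log (1/m y0) ≤ 2ℓ + log 4 + log τ`. Hence
`ℓ0 (1 - (n-3)/(5ρ)) ≤ C + 2ℓ/ρ + (1/(5ρ) + 1/(4n-10)) (log (1+E) + log (1+ℓ0))`. Here
`1 - (n-3)/(5ρ) ≥ 0.319` for `n ≤ 9`, `2/ρ ≤ 4.54 (1 - (n-3)/(5ρ))`-like:
`ℓ0 ≤ C + 4.54 ℓ + 0.96 log (1+E) + 0.96 log (1+ℓ0)` for n = 3, and
`ℓ0 ≤ C + 3.6 ℓ + 0.48 log(1+E) + 0.48 log(1+ℓ0)` for n = 9; in general
`(n-3) ℓ0 ≤ C + 5(n-3) ℓ + 3 log (1+E) + 3 log (1+ℓ0)` and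
`1 + ℓ0 ≤ C (1 + ℓ)(1 + log (1+E))`. So `1 + depth n d ≤ exp ((n-3)ℓ0)(1+ℓ0)
≤ C v^(-5(n-3)) (1+E)^3 (1+ℓ0)^4 ≤ C (1+E)^4 (1+ℓ)^4 v^(-5(n-3))`. (Check the intermediate `n`: all
quotients are monotone or `nlinarith`-friendly after clearing the positive denominators
`ρ`, `5ρ - (n-3)`, `4n - 10`.) -/
def S_NECK : Prop :=
  ∀ n M Pm κ0 m0 c0 : ℝ, 3 ≤ n → n ≤ 9 → 1 ≤ M → 0 ≤ κ0 → 0 < m0 → 0 < c0 →
    ∃ C : ℝ, 1 ≤ C ∧ ∀ (a0 a E : ℝ) (f f1 f2 f3 m : ℝ → ℝ), Prof n a0 a E f f1 f2 f3 →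
      (∀ x ∈ Ioc a0 a, f x ≤ M) → |f1 a| ≤ Pm → (∀ x ∈ Ioc a0 a, HasDerivAt m (f x) x) →
      (∀ x ∈ Ioc a0 a, 0 < m x) → m0 ≤ m a →
      (∀ x ∈ Ioc a0 a, m0 / 2 ≤ m x → c0 ≤ f x) → NE n a0 a 0 (m a) κ0 f m →
      NeckD n (5 * (n - 3)) (C * (1 + E) ^ 4) a0 a f

/-! ## Part II, large n -/

/-- the cutoff of the labels, fourth power type -/
structure ZCut (b : ℝ) (ζ ζ1 : ℝ → ℝ) : Prop where
  c1 : Continuous ζ1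
  d0 : ∀ v, HasDerivAt ζ (ζ1 v) v
  lo : ∀ v, v ≤ b → ζ v = 0 ∧ ζ1 v = 0
  hi : ∀ v, 2 * b ≤ v → ζ v = 1 ∧ ζ1 v = 0
  range : ∀ v, 0 ≤ ζ v ∧ ζ v ≤ 1
  mono : Monotone ζ
  four : ∀ v, ζ1 v ^ 4 * b ^ 4 ≤ 20736 * ζ v ^ 3
  dbl : ∀ v, b ≤ v → ζ v ≤ 36 * ζ ((v + b) / 2)
  low : ∀ v, b ≤ v → b ^ 4 * ζ v ≤ 9 * (v - b) ^ 4

/-- ZCUT. Take `ζ v = (3 r^2 - 2 r^3)^2`, `r = max 0 (min 1 ((v-b)/b))`,
`ζ1 v = 12 (3 r^2 - 2 r^3)(r - r^2)/b`. For `0 ≤ r ≤ 1` and `θ = 3r^2 - 2r^3`: `r^2 ≤ θ ≤ 3 r^2`,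
`θ ≤ 1`, `ζ1 = 2 θ 6 r (1-r)/b`, `ζ1^2 b^2 ≤ 144 θ^2 r^2 ≤ 144 θ^3`, so `ζ1^4 b^4 ≤ 144^2 θ^6`;
`θ(r/2) = (r^2/4)(3 - r) ≥ r^2/2 ≥ θ(r)/6`; for `v ≥ 2b`: `(v+b)/2 ≥ 3b/2` and
`θ(1/2) = 1/2`, `36/4 ≥ 1`. -/
def S_ZCUT : Prop := ∀ b : ℝ, 0 < b → ∃ ζ ζ1 : ℝ → ℝ, ZCut b ζ ζ1

/-- CW. Where `G = f1²/2 - f f2 ≥ G0 > 0` the square root of `f` is concave.
Proof. `r = √f`, `r'' = -G/(2 f^(3/2)) ≤ -G0/(2 H^(3/2))`. With `q(x) = (x-p)(y-x)`, `w = y - p`: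
`∫ q r'' = w (r(p)+r(y)) - 2 ∫ r ≥ -2 w √H` (integrate by parts twice), and
`∫ q r'' ≤ -(G0/(2 H^(3/2))) w³/6`. So `G0 w² ≤ 24 H²`. Finally `m y - m p ≤ H w`
(mean value theorem, `Seg.label_lip`), so `G0 (m y - m p)² ≤ 24 H⁴`. -/
def S_CW : Prop :=
  ∀ (n p y E H G0 : ℝ) (f f1 f2 f3 m : ℝ → ℝ), Seg n p y E f f1 f2 f3 → p < y → 0 < G0 →
    (∀ x ∈ Icc p y, f x ≤ H) → (∀ x ∈ Icc p y, G0 ≤ Gf f f1 f2 x) →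
    (∀ x ∈ Icc p y, HasDerivAt m (f x) x) → G0 * (m y - m p) ^ 2 ≤ 24 * H ^ 4

/-- WS, the weighted bound of the slopes at points which are not screened from the left.
Proof. Let `p` be the point with `m p = b` (intermediate values, `mlim`), and let `u` maximise
`φ = ζ(m)^(1/4) |f1|` on `[p, x]`; `z = ζ(m u)`, `σ = |f1 u|`; if `φ u = 0` done. It suffices:
`z^(1/2) σ² ≤` right side. Let `q` be the point with label `(m u + b)/2`; on `[q, u]`: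
`ζ(m) ≥ z/36` (`dbl`, `mono`), so `|f1| ≤ 36^(1/4) σ ≤ 3σ`, and `∫_y^u f^(2-n) ≤ 72 N/z`.
`Prof.rise`/`Prof.fall` at `u`: (0) `σ ≤ f1 a ≤ Pm`; (1) `G(u) ≥ σ²/16`; (2) `σ^5 ≤ 683 E f(u)^(3-n)`.
(1): by `Prof.Gdiff` `|G(y) - G(u)|² ≤ 72 N E/z` on `[q, u]`. If `G(u) ≤ 2 sqrt (72 N E/z)`: done
(`sqrt (N E) ≤ (1+E) sqrt N`). Else `G ≥ G(u)/2` on `[q,u]`. If `m u ≤ 3b` use `hCW` on `[q, u]`
(`f ≤ H` there): `G(u)/2 ((m u - b)/2)² ≤ 24 H⁴`, and `m u - b ≥ b z^(1/4)/9^(1/4)` (`low`):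
`G(u) ≤ C H⁴ b^(-2) z^(-1/2)`. If `m u > 3b`: here compare with `G` on the points with labels in
`[2b, 3b]`, where `ζ = 1` and still `∫_y^u f^(2-n) ≤ 2N`; `hCW` on that window (mass `b`).
(2): let `ρ = f(u)/(6σ)`. If `u - ρ ≥ q`: on `[u-ρ, u]`, `f ≤ 2 f(u)`, so
`(z/36) ρ (2 f(u))^(2-n) ≤ ∫ ζ f^(2-n) ≤ 2N`, i.e. `f(u)^(3-n) ≤ C_n N σ/z`, hence
`z σ⁴ ≤ C_n E N`. If `u - ρ < q`: `(m u - b)/2 = ∫_q^u f ≤ 2 f(u) ρ = f(u)²/(3σ)`, so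
`f(u)² ≥ (3/2) σ (m u - b) ≥ σ b z^(1/4)/2`; with `S = σ z^(1/4)`:
`S^5 ≤ σ^5 ≤ 683 E (S b/2)^(-(n-3)/2)`, so `S^((n+7)/2) ≤ C_n E b^(-(n-3)/2)`,
`S² ≤ C_n (1+E) b^(-2(n-3)/(n+7))` (`E^(4/(n+7)) ≤ 1 + E`). -/
def S_WS : Prop :=
  ∀ n : ℝ, 3 ≤ n → ∃ C : ℝ, 1 ≤ C ∧ ∀ (a0 a E b N H Pm : ℝ) (f f1 f2 f3 m ζ ζ1 : ℝ → ℝ),
    Prof n a0 a E f f1 f2 f3 → (∀ x ∈ Ioc a0 a, HasDerivAt m (f x) x) →
    (∀ e > 0, ∃ r > a0, ∀ x ∈ Ioo a0 r, m x < e) → (∀ x ∈ Ioc a0 a, 0 < m x) →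
    |f1 a| ≤ Pm → 0 < b → b ≤ 1 → 1 ≤ N → ZCut b ζ ζ1 → ∀ x ∈ Ioc a0 a, b < m x →
    (∀ y ∈ Ioc a0 x, m y ≤ 3 * b → f y ≤ H) →
    (∀ y ∈ Ioc a0 x, ∫ u in y..x, ζ (m u) * f u ^ (2 - n) ≤ 2 * N) →
    Real.sqrt (ζ (m x)) * f1 x ^ 2 ≤ C * (H ^ 4 / b ^ 2 +
      (1 + E) * (Real.sqrt N + b ^ (-(2 * (n - 3) / (n + 7)))) + Pm ^ 2)

/-- the density of `R` with a cut in the label -/
noncomputable def kL (n x0 x1 t1 t2 : ℝ) (g : ℝ × ℝ → ℝ) (ζ : ℝ → ℝ) (z : ℝ × ℝ) : ℝ :=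
  ζ (mF x0 x1 t1 t2 g z) * g z ^ (2 - n)

/-- its derivative in time -/
noncomputable def kLt (n x0 x1 t1 t2 : ℝ) (g h3 ht : ℝ × ℝ → ℝ) (ζ ζ1 : ℝ → ℝ) (z : ℝ × ℝ) : ℝ :=
  -(ζ1 (mF x0 x1 t1 t2 g z) * (Jx n g h3 z * g z ^ (2 - n))) +
    ζ (mF x0 x1 t1 t2 g z) * ((2 - n) * (g z ^ (1 - n) * ht z))

/-- `R`, counted from the left -/
noncomputable def RL (n x0 x1 t1 t2 : ℝ) (g : ℝ × ℝ → ℝ) (ζ : ℝ → ℝ) (z : ℝ × ℝ) : ℝ :=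
  ∫ y in x0..z.1, kL n x0 x1 t1 t2 g ζ (y, z.2)

/-- the forward functional -/
noncomputable def Psi (n x0 x1 t1 t2 : ℝ) (g : ℝ × ℝ → ℝ) (ζ Fr : ℝ → ℝ) (t : ℝ) : ℝ :=
  ∫ x in x0..x1, (1 - Fr (RL n x0 x1 t1 t2 g ζ (x, t)))

/-- PSI. Evolution of the forward functional.
Proof. `kL`, `kLt` are continuous on the closed rectangle (`Flow.labCut`) and `kLt` is the time
derivative of `kL` (`Flow.labCut_dt`, `u = g^(2-n)`), as in the proof of `Flow.S_evol` (file SFlow).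
For fixed `x`, `diff_int` on `[x0, x] × [t', t]` gives
`RL (x, t) - RL (x, t') = ∫_{t'}^t ∫_{x0}^x kLt`, so `RL (x, ·)` has the derivative
`∫_{x0}^x kLt (y, t) dy` at interior times. Both are continuous on the rectangle. Then `diff_int`
again for `u (x,t) = 1 - Fr (RL (x,t))`, `ut = w (RL) * ∫ kLt`, and `integral_mono_ae`. -/
def S_PSI : Prop :=
  ∀ (n x0 x1 t1 t2 : ℝ) (W D : Set (ℝ × ℝ)) (s : ℝ → ℝ) (g h1 h2 h3 ht : ℝ × ℝ → ℝ),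
    Sit n x0 x1 t1 t2 W D s g h1 h2 h3 ht → ∀ (b B N : ℝ) (ζ ζ1 Fr w w1 : ℝ → ℝ), 0 < b →
    ZCut b ζ ζ1 → FCut B N Fr w w1 → ∀ t' t'' : ℝ, t1 ≤ t' → t' < t'' → t'' ≤ t2 →
    ∀ R : ℝ → ℝ, IntegrableOn R (Ioc t' t'') →
    (∀ᵐ τ ∂(volume.restrict (Ioc t' t'')), ∫ x in x0..x1,
      w (RL n x0 x1 t1 t2 g ζ (x, τ)) *
        ∫ y in x0..x, kLt n x0 x1 t1 t2 g h3 ht ζ ζ1 (y, τ) ≤ R τ) →
    Psi n x0 x1 t1 t2 g ζ Fr t'' - Psi n x0 x1 t1 t2 g ζ Fr t' ≤ ∫ τ in Ioc t' t'', R τ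

/-- the data at one time, on `[p, a]`, where `m p = b` -/
structure SL (n p a E b N H Y : ℝ) (f f1 f2 f3 ft m R ζ ζ1 : ℝ → ℝ) : Prop where
  P : Seg n p a E f f1 f2 f3
  hn : 3 ≤ n
  dm : ∀ x ∈ Icc p a, HasDerivAt m (f x) x
  dq : ∀ x ∈ Icc p a, HasDerivAt (fun x => f x ^ n * f3 x) (-(ft x)) x
  cft : ContinuousOn ft (Icc p a)
  mp : m p = b
  hb : 0 < b
  hN : 1 ≤ N
  Z : ZCut b ζ ζ1
  hR : ∀ x ∈ Icc p a, R x = ∫ y in p..x, ζ (m y) * f y ^ (2 - n)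
  hH0 : 0 ≤ H
  hH : ∀ x ∈ Icc p a, m x ≤ 2 * b → f x ≤ H
  hY0 : 0 ≤ Y
  hY : ∀ x ∈ Icc p a, R x ≤ 2 * N → Real.sqrt (ζ (m x)) * f1 x ^ 2 ≤ Y

/-- the time derivative of the density at one time -/
noncomputable def kft (n : ℝ) (f f3 ft m ζ ζ1 : ℝ → ℝ) (y : ℝ) : ℝ :=
  -(ζ1 (m y) * (f y ^ n * f3 y * f y ^ (2 - n))) + ζ (m y) * ((2 - n) * (f y ^ (1 - n) * ft y))

/-- SLID. The identity for the time derivative of `R`.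
Proof. With `q = f^n f3`, `q' = -ft`: `(2-n) ζ f^(1-n) ft = (n-2) ζ f^(1-n) q'`; the function
`(n-2) ζ(m) f f3 + (n-1)(n-2) ζ(m) f1 f2` written with `q` (`f f3 = f^(1-n) q`) has the derivative
`(n-2)[ζ1 f f^(1-n) q + (1-n) ζ f^(-n) f1 q + ζ f^(1-n) q'] + (n-1)(n-2)[ζ1 f f1 f2 + ζ f2² +
ζ f1 f3]`; it vanishes at `p` (`ζ b = 0`). The terms `ζ f1 f3` cancel. Fundamental theorem. -/
def S_SLID : Prop :=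
  ∀ (n p a E b N H Y : ℝ) (f f1 f2 f3 ft m R ζ ζ1 : ℝ → ℝ),
    SL n p a E b N H Y f f1 f2 f3 ft m R ζ ζ1 → ∀ x ∈ Icc p a,
    ∫ y in p..x, kft n f f3 ft m ζ ζ1 y = -((n - 1) * ∫ y in p..x, ζ1 (m y) * (f y ^ 2 * f3 y)) +
      (n - 2) * (ζ (m x) * (f x * f3 x)) + (n - 1) * (n - 2) * (ζ (m x) * (f1 x * f2 x) +
        ∫ y in p..x, (-(ζ1 (m y) * (f y * (f1 y * f2 y))) - ζ (m y) * f2 y ^ 2))

/-- SL1. Cauchy-Schwarz: `(∫ ζ1 f² f3)² ≤ ∫ ζ1² f^(4-n) * ∫ f^n f3²`; `ζ1² b² ≤ 144 ζ^(3/2) ≤ 144 ζ`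
(`four`), `ζ1 = 0` unless `m < 2b`, where `f ≤ H`; so the first factor is at most
`(144/b²) H² ∫ ζ f^(2-n) ≤ (144/b²) H² 2N` when `R x ≤ 2N`. -/
def S_SL1 : Prop :=
  ∀ (n p a E b N H Y : ℝ) (f f1 f2 f3 ft m R ζ ζ1 : ℝ → ℝ),
    SL n p a E b N H Y f f1 f2 f3 ft m R ζ ζ1 → ∀ x ∈ Icc p a, R x ≤ 2 * N →
    |∫ y in p..x, ζ1 (m y) * (f y ^ 2 * f3 y)| ≤ 17 * H / b * Real.sqrt (N * E)

/-- SL2. Pointwise `-(ζ1 f f1 f2) - ζ f2² ≤ (1/4)(ζ1²/ζ) f² f1² ≤ (36/b²) √ζ f1² f²` (`four`: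
`ζ1² b² ≤ 144 ζ √ζ`; if `ζ = 0` then `ζ1 = 0`), it is `≤ 0` where `ζ1 = 0` (`m ≥ 2b`); with
`√ζ f1² ≤ Y` (`R y ≤ R x ≤ 2N`), `f² ≤ H f`, and `∫_{m ≤ 2b} f ≤ b` (label variable). -/
def S_SL2 : Prop :=
  ∀ (n p a E b N H Y : ℝ) (f f1 f2 f3 ft m R ζ ζ1 : ℝ → ℝ),
    SL n p a E b N H Y f f1 f2 f3 ft m R ζ ζ1 → ∀ x ∈ Icc p a, R x ≤ 2 * N →
    ∫ y in p..x, (-(ζ1 (m y) * (f y * (f1 y * f2 y))) - ζ (m y) * f2 y ^ 2) ≤ 36 * (Y * H) / b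

/-- SL3. `∫ w(R) ζ f1 f2 = [w(R) ζ f1²/2] - (1/2) ∫ (w1(R) ζ² f^(2-n) + w(R) ζ1 f) f1²`.
Boundary term `≤ (B/N) Pm²/2`. First integral: `|w1(R)| ≤ B/N²`, `w1(R) = 0` unless `R ≤ 2N`,
`ζ f1² ≤ √ζ f1² ≤ Y`, and `∫_{R ≤ 2N} ζ f^(2-n) ≤ 2N` (`R` is monotone, `R' = ζ f^(2-n)`). Second:
`ζ1 ≤ (12/b) ζ^(3/4) ≤ (12/b) √ζ` in absolute value (`four`), zero for `m ≥ 2b`, `∫_{m≤2b} f ≤ b`. -/
def S_SL3 : Prop :=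
  ∀ (n p a E b N H Y B Pm : ℝ) (f f1 f2 f3 ft m R ζ ζ1 Fr w w1 : ℝ → ℝ), 0 ≤ B →
    SL n p a E b N H Y f f1 f2 f3 ft m R ζ ζ1 → FCut B N Fr w w1 → |f1 a| ≤ Pm →
    ∫ x in p..a, w (R x) * (ζ (m x) * (f1 x * f2 x)) ≤ B * Pm ^ 2 / (2 * N) + 7 * (B * Y) / N

/-- SL4. Cauchy-Schwarz: `(∫ w(R) ζ f f3)² ≤ ∫ w(R)² ζ² f^(2-n) * ∫ f^n f3²`, and
`w(R)² ζ² f^(2-n) ≤ (B/N)² 1_{R ≤ 2N} ζ f^(2-n)`, integral `≤ (B/N)² 2N`. -/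
def S_SL4 : Prop :=
  ∀ (n p a E b N H Y B : ℝ) (f f1 f2 f3 ft m R ζ ζ1 Fr w w1 : ℝ → ℝ), 0 ≤ B →
    SL n p a E b N H Y f f1 f2 f3 ft m R ζ ζ1 → FCut B N Fr w w1 →
    ∫ x in p..a, w (R x) * (ζ (m x) * (f x * f3 x)) ≤ 2 * B * Real.sqrt (E / N)

/-- SLA, the sum. From `SLID`, `SL1`, `SL2`, `SL3`, `SL4` (may be assumed as hypotheses):
`w(R x) = 0` unless `R x ≤ 2N`, `0 ≤ w ≤ B/N`, `∫_p^a w(R) ≤ (B/N)(a-p)`,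
`√(N E)/N = √(E/N)`. -/
def S_SLA : Prop :=
  ∀ (n p a E b N H Y B Pm : ℝ) (f f1 f2 f3 ft m R ζ ζ1 Fr w w1 : ℝ → ℝ), 0 ≤ B →
    SL n p a E b N H Y f f1 f2 f3 ft m R ζ ζ1 → FCut B N Fr w w1 → |f1 a| ≤ Pm →
    ∫ x in p..a, w (R x) * ∫ y in p..x, kft n f f3 ft m ζ ζ1 y ≤
      50 * (n ^ 2 * B * (Pm ^ 2 / N + Y / N + (a - p) * (Y * H) / (N * b) +
        (1 + (a - p) * H / b) * Real.sqrt (E / N)))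

/-- the bound of the weighted slopes, `N = b^(-3)` -/
noncomputable def Yb (n C E b H Pm : ℝ) : ℝ :=
  C * (H ^ 4 / b ^ 2 + (1 + E) * (Real.sqrt (b ^ (-(3 : ℝ))) + b ^ (-(2 * (n - 3) / (n + 7)))) +
    Pm ^ 2)

/-- EPS. With `N = b^(-3)` the bound of `SLA` is at most `θ (1 + E)` when `b` and `H` are small.
`Y/N = C (H⁴ b + (1+E)(b^(3/2) + b^(1+20/(n+7))) + Pm² b³)` since `2(n-3)/(n+7) = 2 - 20/(n+7)`;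
`Y H/(N b) = C (H⁵ + H (1+E)(b^(1/2) + b^(20/(n+7))) + H Pm² b²)`;
`(1 + L H/b) √(E b³) ≤ (1+E)(b^(3/2) + L H b^(1/2))`. Everything is `(1+E)` times a function
tending to 0 as `b, H → 0` (uniformly in `E ≥ 0`). -/
def S_EPS : Prop :=
  ∀ n C B L Pm θ : ℝ, 3 ≤ n → 1 ≤ C → 0 ≤ B → 0 ≤ L → 0 < θ → ∃ r : ℝ, 0 < r ∧
    ∀ b H E l : ℝ, 0 < b → b ≤ r → 0 ≤ H → H ≤ r → 0 ≤ E → 0 ≤ l → l ≤ L →
      50 * (n ^ 2 * B * (Pm ^ 2 / b ^ (-(3 : ℝ)) + Yb n C E b H Pm / b ^ (-(3 : ℝ)) +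
        l * (Yb n C E b H Pm * H) / (b ^ (-(3 : ℝ)) * b) +
        (1 + l * H / b) * Real.sqrt (E / b ^ (-(3 : ℝ))))) ≤ θ * (1 + E)

/-- HSM. Small labels have small heights, uniformly.
Proof. Otherwise there are points `z_k` of the compact rectangle with `mF z_k ≤ 1/k` and
`g z_k > H`; a limit point `z` has `mF z = 0` (`F.mF_cont`) and `g z ≥ H > 0`, so `z ∈ D` and
`mF z > 0` (`F.mF_pos`). Or: the compact set `{H ≤ g}` of the rectangle has a positive minimum of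
`mF`. -/
def S_HSM : Prop :=
  ∀ (n x0 x1 t1 t2 : ℝ) (W D : Set (ℝ × ℝ)) (s : ℝ → ℝ) (g h1 h3 ht : ℝ × ℝ → ℝ),
    Flow n x0 x1 t1 t2 W D s g h1 h3 ht → ∀ H > 0, ∃ b0 > 0, ∀ x ∈ Icc x0 x1, ∀ t ∈ Icc t1 t2,
      mF x0 x1 t1 t2 g (x, t) ≤ b0 → g (x, t) ≤ H

/-- FWD, the forward estimate (from ZCUT, WS, PSI, SLA, EPS, HSM, which may be assumed).
Proof. `Flow.exists_bds` gives `M c Pm Gm Hm`. `FCut` from `exists_cuts2` with its constant `B`.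
Let `θ' = θ/(1 + ∫_{t1}^{t2} (1+E(τ)))`, `E τ = eV n x0 x1 D univ g h3 τ`; `r` from `S_EPS`
(`L = x1 - x0`, `θ'`), `b0 ≤ 1` from `S_HSM` (`H = r`, labels `≤ 3 b0`) and also
`b0 ≤ r`, `b0 < mF (x1, t)` for all `t` (compactness). For `b < b0`, `N = b^(-3) ≥ 1`. For a.e. `τ`
(`tail_ae`) `Flow.prof` gives the profile; `p` = the point with label `b` (`Flow.label_ex`), the
integrands vanish to the left of `p`; `SL` holds with `Y = Yb n C E b r Pm` by `S_WS`; `S_SLA`,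
`S_EPS` bound the inner quantity of `S_PSI` by `θ' (1 + E τ)`. So
`Psi t' ≤ Psi t1 + θ/2·... ≤ Psi t1 + θ`. `Psi t1 ≤ x1 - s t1` because `RL = 0` for `x ≤ s t1`
(`mF = 0`, `ζ 0 = 0`, `Fr 0 = 1`). If `RL (x, t') > 2 b^(-3)` then (`RL` is monotone in `x`)
`Psi t' ≥ x1 - x`, so `x1 - x ≤ x1 - s t1 + θ`, i.e. `x ≥ s t1 - θ`. -/
def S_FWD : Prop :=
  ∀ (n x0 x1 t1 t2 : ℝ) (W D : Set (ℝ × ℝ)) (s : ℝ → ℝ) (g h1 h2 h3 ht : ℝ × ℝ → ℝ),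
    Sit n x0 x1 t1 t2 W D s g h1 h2 h3 ht → ∀ θ > 0, ∃ b0 > 0, ∀ b, 0 < b → b < b0 →
      ∀ ζ ζ1 : ℝ → ℝ, ZCut b ζ ζ1 → ∀ t' ∈ Icc t1 t2, ∀ x ∈ Icc x0 x1, x < s t1 - θ →
        RL n x0 x1 t1 t2 g ζ (x, t') ≤ 2 * b ^ (-(3 : ℝ))

/-- BIG. The contact point does not move for `n ≥ 9` (from FWD, CRIT, ZCUT, BIG1, which may be
assumed as hypotheses).
Proof. `s t2 ≤ s t1` (`Flow.mono_and_mass`); suppose `<`, `η = (s t1 - s t2)/3`; `s` is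
nonincreasing on `[t1,t2]` (`Flow.restrict`, `mono_and_mass`) and continuous, so
`s t* = s t1 - 2η` for some `t*`, and
`s ≤ s t1 - 2η` on `[t*, t2]`. Let `x̄ = s t1 - η`. Restrict the flow to
`[x0, x̄] × [t*, t2]` (`Flow.restrict`); `mF` of the restriction agrees with `mF` on the small
rectangle (`Flow.mF_int`). FWD with `θ = η/2` for the large rectangle: for `0 < b < b0`,
`∫_y^x̄ g^(2-n) ≤ 2 b^(-3)` whenever the label of `y` is `≥ 2b` (`ζ = 1` there). So for a point `x`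
with label `m ≤ b0` (`b = m/2`): `∫_x^x̄ g^(2-n) ≤ 16 m^(-3)`. For a.e. time (`tail_ae`) `Flow.prof`
for the restriction and `BIG1` (constants from `Flow.exists_bds` for the restriction) give
`g^(n-1) ≤ K (1 + E τ) m`; `S_CRIT` for the restriction gives `s t* = s t2`, a contradiction. -/
def S_BIG : Prop :=
  ∀ (n x0 x1 t1 t2 : ℝ) (W D : Set (ℝ × ℝ)) (s : ℝ → ℝ) (g h1 h2 h3 ht : ℝ × ℝ → ℝ),
    Sit n x0 x1 t1 t2 W D s g h1 h2 h3 ht → 9 ≤ n → ContinuousOn s (Icc t1 t2) → s t1 = s t2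

/-- BIG1, the estimate at one time (`GROW` may be assumed).
Proof. `Prof.slopeR` with `N = 8 (m x)^(-3)` (`≥ 1` for `m x ≤ 1`; take
labels `≤ c'' = min c' 1`): `|f1 x|^4 ≤ C (1 + E) (m x)^(-3)`, so `f1 x ≤ A (m x)^(-3/4)`,
`A = (C (1+E))^(1/4)`. `GROW`: `f^2 ≤ 8 A m^(1/4)`, `f^8 ≤ 8^4 A^4 m = 8^4 C (1+E) m`, and
`f^(n-1) = f^(n-9) f^8 ≤ M^(n-9) 8^4 C (1+E) m`. For labels `≥ c''`: `f^(n-1) ≤ M^(n-1) m/c''`. -/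
def S_BIG1 : Prop :=
  ∀ n M c Pm Gm c' : ℝ, 9 ≤ n → 1 ≤ M → 0 < c → 0 < c' → ∃ K : ℝ, 0 ≤ K ∧
    ∀ (a0 a E : ℝ) (f f1 f2 f3 m : ℝ → ℝ), Prof n a0 a E f f1 f2 f3 →
      (∀ x ∈ Ioc a0 a, f x ≤ M) → c ≤ f a → |f1 a| ≤ Pm → |Gf f f1 f2 a| ≤ Gm →
      (∀ x ∈ Ioc a0 a, HasDerivAt m (f x) x) → (∀ x ∈ Ioc a0 a, 0 < m x) →
      (∀ x ∈ Ioc a0 a, m x ≤ c' → ∫ y in x..a, f y ^ (2 - n) ≤ 16 * m x ^ (-(3 : ℝ))) →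
      ∀ x ∈ Ioc a0 a, f x ^ (n - 1) ≤ K * (1 + E) * m x

/-- GROW, the pure estimate inside BIG: growth of the height from the bound of the slopes.
Proof. `(f²)' = 2 f f1` and `dm = f dx`: for `x` with `m x ≤ c'`, compare `f(x)²` with
`8 A (m x)^(1/4)`: the function `f² - 8 A m^(1/4)` has the derivative
`2 f (f1 - A m^(-3/4)) ≤ 0` on the points with label `≤ c'`, and its liminf at `a0` is `≤ 0`. -/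
def S_GROW : Prop :=
  ∀ (n a0 a E A c' : ℝ) (f f1 f2 f3 m : ℝ → ℝ), Prof n a0 a E f f1 f2 f3 → 0 ≤ A →
    (∀ x ∈ Ioc a0 a, HasDerivAt m (f x) x) → (∀ x ∈ Ioc a0 a, 0 < m x) →
    (∀ x ∈ Ioc a0 a, m x ≤ c' → f1 x ≤ A * m x ^ (-((3 : ℝ) / 4))) →
    ∀ x ∈ Ioc a0 a, m x ≤ c' → f x ^ 2 ≤ 8 * A * m x ^ ((1 : ℝ) / 4)

/-- WRAP. From rectangles to the statement of the problem.
Proof. `IsClassicalSolution.const_of_rect` (file Rect, with `ρ = δ`), `IsClassicalSolution.flow`,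
`fin_dis` (file Setup), `Jet` from `IsClassicalSolution.continuous_x 2` and `has_dx'` (file Local);
the pattern is the beginning of the proof of `IsClassicalSolution.local_deep` (file DeepC). -/
def S_WRAP : Prop :=
  ∀ (n δ T : ℝ) (s : ℝ → ℝ) (h : ℝ → ℝ → ℝ), 3 ≤ n → 0 < δ → IsClassicalSolution n δ T s h →
    FiniteDissipation n δ T s h →
    (∀ (x0 x1 t1 t2 : ℝ) (W D : Set (ℝ × ℝ)) (s' : ℝ → ℝ) (g h1 h2 h3 ht : ℝ × ℝ → ℝ),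
      Sit n x0 x1 t1 t2 W D s' g h1 h2 h3 ht → ContinuousOn s' (Icc t1 t2) → s' t1 = s' t2) →
    ∃ s₀, ∀ t ∈ Ioo 0 T, s t = s₀

end Pool.Agent.Q81.TF
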