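import Pool.Agent.Q81.TF.PerB

open Set MeasureTheory Filter Topology

namespace Pool.Agent.Q81.TF

variable {n x0 x1 t1 t2 : ℝ} {W D : Set (ℝ × ℝ)} {s : ℝ → ℝ} {g h1 h3 ht : ℝ × ℝ → ℝ}
variable {B ε : ℝ} {Fc φ1 φ2 : ℝ → ℝ} {B' μ m0 : ℝ} {Ω ω : ℝ → ℝ}

theorem tail_int (hD : MeasurableSet D) {V : Set (ℝ × ℝ)} (hV : MeasurableSet V)
    (hfin : IntegrableOn (Fd n g h3) (D ∩ Ioc x0 x1 ×ˢ Ioc t1 t2)) :
    Integrable ((D ∩ V).indicator (Fd n g h3))
      ((volume.restrict (Ioc x0 x1)).prod (volume.restrict (Ioc t1 t2))) := by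
  rw [Measure.prod_restrict, ← Measure.volume_eq_prod, integrable_indicator_iff (hD.inter hV),
    IntegrableOn, Measure.restrict_restrict (hD.inter hV)]
  apply hfin.mono_set
  rintro z ⟨⟨h1, h2⟩, h3⟩
  exact ⟨h1, h3⟩

theorem tail_ae (hD : MeasurableSet D)
    (hfin : IntegrableOn (Fd n g h3) (D ∩ Ioc x0 x1 ×ˢ Ioc t1 t2)) :
    ∀ᵐ τ ∂(volume.restrict (Ioc t1 t2)),
      IntegrableOn (fun x => D.indicator (Fd n g h3) (x, τ)) (Ioc x0 x1) := by
  have h1 := (tail_int hD MeasurableSet.univ hfin).prod_left_ae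
  rw [inter_univ] at h1
  exact h1

theorem tail_integrable (hD : MeasurableSet D) {V : Set (ℝ × ℝ)} (hV : MeasurableSet V)
    (hfin : IntegrableOn (Fd n g h3) (D ∩ Ioc x0 x1 ×ˢ Ioc t1 t2)) :
    IntegrableOn (eV n x0 x1 D V g h3) (Ioc t1 t2) :=
  (tail_int hD hV hfin).integral_prod_right

theorem tail_eq (hD : MeasurableSet D) {V : Set (ℝ × ℝ)} (hV : MeasurableSet V)
    (hfin : IntegrableOn (Fd n g h3) (D ∩ Ioc x0 x1 ×ˢ Ioc t1 t2)) :
    ∫ τ in Ioc t1 t2, eV n x0 x1 D V g h3 τ =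
      ∫ z in (D ∩ V) ∩ Ioc x0 x1 ×ˢ Ioc t1 t2, Fd n g h3 z := by
  have h1 := integral_prod_symm _ (tail_int hD hV hfin)
  rw [Measure.prod_restrict, ← Measure.volume_eq_prod, integral_indicator (hD.inter hV),
    Measure.restrict_restrict (hD.inter hV)] at h1
  exact h1.symm

/-- the dissipation in small neighbourhoods of the contact line is small -/
theorem tail_small (hD : MeasurableSet D) (hg : ∀ z ∈ D, 0 ≤ Fd n g h3 z)
    (hfin : IntegrableOn (Fd n g h3) (D ∩ Ioc x0 x1 ×ˢ Ioc t1 t2))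
    {u : ℝ × ℝ → ℝ} (hu : Continuous u)
    (hpos : ∀ z ∈ D ∩ Ioc x0 x1 ×ˢ Ioc t1 t2, 0 < u z) {θ : ℝ} (hθ : 0 < θ) :
    ∃ a > 0, ∀ b, b ≤ a → ∫ τ in Ioc t1 t2, eV n x0 x1 D {z | u z < b} g h3 τ ≤ θ := by
  have hR : MeasurableSet (Ioc x0 x1 ×ˢ Ioc t1 t2) := measurableSet_Ioc.prod measurableSet_Ioc
  have hm : ∀ b : ℝ, MeasurableSet {z : ℝ × ℝ | u z < b} := fun b =>
    (isOpen_lt hu continuous_const).measurableSet
  have h1 : Tendsto (fun k : ℕ => ∫ z in (D ∩ {z | u z < 1 / ((k : ℝ) + 1)}) ∩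
      Ioc x0 x1 ×ˢ Ioc t1 t2, Fd n g h3 z) atTop
      (𝓝 (∫ z in ⋂ k : ℕ, (D ∩ {z | u z < 1 / ((k : ℝ) + 1)}) ∩ Ioc x0 x1 ×ˢ Ioc t1 t2,
        Fd n g h3 z)) := by
    apply tendsto_setIntegral_of_antitone
    · intro k
      exact (hD.inter (hm _)).inter hR
    · intro i j hij z hz
      have h5 : (i : ℝ) ≤ j := by exact_mod_cast hij
      have h6 : 1 / ((j : ℝ) + 1) ≤ 1 / ((i : ℝ) + 1) :=
        one_div_le_one_div_of_le (by positivity) (by linarith)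
      have h7 : u z < 1 / ((j : ℝ) + 1) := hz.1.2
      exact ⟨⟨hz.1.1, h7.trans_le h6⟩, hz.2⟩
    · exact ⟨0, hfin.mono_set (fun z hz => ⟨hz.1.1, hz.2⟩)⟩
  have h2 : (⋂ k : ℕ, (D ∩ {z | u z < 1 / ((k : ℝ) + 1)}) ∩ Ioc x0 x1 ×ˢ Ioc t1 t2) = ∅ := by
    ext z
    simp only [mem_iInter, mem_empty_iff_false, iff_false, not_forall]
    by_cases hz : z ∈ D ∩ Ioc x0 x1 ×ˢ Ioc t1 t2
    · obtain ⟨k, hk⟩ := exists_nat_one_div_lt (hpos z hz)
      refine ⟨k, fun h => ?_⟩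
      exact absurd h.1.2 (not_lt.2 hk.le)
    · exact ⟨0, fun h => hz ⟨h.1.1, h.2⟩⟩
  rw [h2, setIntegral_empty] at h1
  obtain ⟨k, hk⟩ := (h1.eventually (Iio_mem_nhds hθ)).exists
  refine ⟨1 / ((k : ℝ) + 1), by positivity, ?_⟩
  intro b hb
  rw [tail_eq hD (hm b) hfin]
  refine le_trans ?_ (le_of_lt hk)
  apply setIntegral_mono_set (hfin.mono_set (fun z hz => ⟨hz.1.1, hz.2⟩))
  · rw [EventuallyLE, ae_restrict_iff' ((hD.inter (hm _)).inter hR)]
    exact Eventually.of_forall (fun z hz => hg z hz.1.1)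
  · exact (Eventually.of_forall (fun z hz =>
      ⟨⟨hz.1.1, lt_of_lt_of_le (show u z < b from hz.1.2) hb⟩, hz.2⟩))

/-- the functional is close to the position of the contact line -/
theorem Flow.J_near (F : Flow n x0 x1 t1 t2 W D s g h1 h3 ht) (hε : 0 < ε)
    (H : HCut B ε Fc φ1 φ2) (MC : MCut B' μ m0 Ω ω) (hμ : 0 < μ)
    (hεμ : 2 * ε * (x1 - x0) ≤ μ) {t θ : ℝ} (htm : t ∈ Icc t1 t2) (hθ : 0 < θ)
    (hθ1 : s t + θ ≤ x1) (hm : m0 + μ ≤ mF x0 x1 t1 t2 g (s t + θ, t)) :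
    x1 - s t - θ ≤ Jf x0 x1 t1 t2 Fc Ω g t ∧ Jf x0 x1 t1 t2 Fc Ω g t ≤ x1 - s t := by
  have hst := F.s_mem t htm
  have cF : Continuous (fun z => Fc (g (cl x0 x1 t1 t2 z))) :=
    F.clCont (G := fun z => Fc (g z)) (H.c0.comp_continuousOn F.g_cont)
  have cF' : Continuous (fun y => Fc (g (cl x0 x1 t1 t2 (y, t)))) :=
    cF.comp (show Continuous fun y : ℝ => (y, t) by fun_prop)
  have hc := F.Omega_cont H MC t
  have i1 : ∀ a b, a ∈ Icc x0 x1 → b ∈ Icc x0 x1 →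
      IntervalIntegrable (fun x => Ω (mE x0 x1 t1 t2 Fc g (x, t))) volume a b := by
    intro a b ha hb
    apply ContinuousOn.intervalIntegrable
    exact hc.mono (uIcc_subset_Icc ha hb)
  have hm0 : x0 ∈ Icc x0 x1 := ⟨le_rfl, F.hx.le⟩
  have hm1 : x1 ∈ Icc x0 x1 := ⟨F.hx.le, le_rfl⟩
  have hms : s t ∈ Icc x0 x1 := ⟨hst.1.le, hst.2.le⟩
  have hmθ : s t + θ ∈ Icc x0 x1 := ⟨by linarith, hθ1⟩
  have hz : ∀ x ∈ Icc x0 (s t), Ω (mE x0 x1 t1 t2 Fc g (x, t)) = 0 := by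
    intro x hx
    have h1 : mE x0 x1 t1 t2 Fc g (x, t) = 0 := by
      unfold mE prim
      simp only
      have h2 : ∫ y in x0..x, Fc (g (cl x0 x1 t1 t2 (y, t))) = ∫ y in x0..x, (0 : ℝ) := by
        apply intervalIntegral.integral_congr
        intro y hy
        rw [uIcc_of_le hx.1] at hy
        have hy' : y ∈ Icc x0 x1 := ⟨hy.1, hy.2.trans (hx.2.trans hst.2.le)⟩
        simp only
        rw [cl_eq hy' htm, F.g_zero _ (F.R_sub y hy' t htm)
          (by rw [F.D_iff y hy' t htm]; exact not_lt.2 (hy.2.trans hx.2))]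
        exact (H.z 0 hε.le).1
      rw [h2, intervalIntegral.integral_zero]
    rw [h1]
    exact (MC.z 0 le_rfl hμ.le).1
  have e1 : Jf x0 x1 t1 t2 Fc Ω g t = ∫ x in (s t)..x1, Ω (mE x0 x1 t1 t2 Fc g (x, t)) := by
    unfold Jf
    rw [← intervalIntegral.integral_add_adjacent_intervals (i1 x0 (s t) hm0 hms)
      (i1 (s t) x1 hms hm1)]
    have h2 : ∫ x in x0..(s t), Ω (mE x0 x1 t1 t2 Fc g (x, t)) = ∫ x in x0..(s t), (0 : ℝ) := by
      apply intervalIntegral.integral_congr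
      intro x hx
      rw [uIcc_of_le hst.1.le] at hx
      exact hz x hx
    rw [h2, intervalIntegral.integral_zero, zero_add]
  constructor
  · rw [e1, ← intervalIntegral.integral_add_adjacent_intervals (i1 (s t) (s t + θ) hms hmθ)
      (i1 (s t + θ) x1 hmθ hm1)]
    have h3 : 0 ≤ ∫ x in (s t)..(s t + θ), Ω (mE x0 x1 t1 t2 Fc g (x, t)) :=
      intervalIntegral.integral_nonneg (by linarith) (fun x _ => MC.lo _)
    have h4 : ∫ x in (s t + θ)..x1, Ω (mE x0 x1 t1 t2 Fc g (x, t)) =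
        ∫ x in (s t + θ)..x1, (1 : ℝ) := by
      apply intervalIntegral.integral_congr
      intro x hx
      rw [uIcc_of_le hθ1] at hx
      apply (MC.one _ _).1
      have h5 := (F.mE_mF hε H (t := t) hmθ).2
      have h6 : mE x0 x1 t1 t2 Fc g (s t + θ, t) ≤ mE x0 x1 t1 t2 Fc g (x, t) := by
        unfold mE prim
        simp only
        apply intervalIntegral.integral_mono_interval le_rfl (by linarith) hx.1
        · exact Eventually.of_forall (fun y => H.lo _ (F.g_nonneg (F.cl_mem _)))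
        · exact cF'.intervalIntegrable _ _
      linarith
    rw [h4, intervalIntegral.integral_const, smul_eq_mul, mul_one]
    linarith
  · rw [e1]
    have h3 : ∫ x in (s t)..x1, Ω (mE x0 x1 t1 t2 Fc g (x, t)) ≤ ∫ x in (s t)..x1, (1 : ℝ) := by
      apply intervalIntegral.integral_mono_on hst.2.le (i1 (s t) x1 hms hm1)
        intervalIntegrable_const
      intro x _
      exact MC.up _
    rw [intervalIntegral.integral_const, smul_eq_mul, mul_one] at h3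
    exact h3

end Pool.Agent.Q81.TF
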