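import Pool.Agent.Q81.TF.SFlow

open Set MeasureTheory Filter Topology

namespace Pool.Agent.Q81.TF

variable {n x0 x1 t1 t2 : ℝ} {W D : Set (ℝ × ℝ)} {s : ℝ → ℝ} {g h1 h2 h3 ht : ℝ × ℝ → ℝ}

/-- a logarithmic cut in the label, starting at `b` -/
structure LCut (B b μ ν : ℝ) (Ω ω : ℝ → ℝ) : Prop where
  c1 : Continuous ω
  d0 : ∀ m, HasDerivAt Ω (ω m) m
  lo : ∀ m, m ≤ b + μ → Ω m = 0 ∧ ω m = 0
  hi : ∀ m, b + ν ≤ m → Ω m = 1 ∧ ω m = 0
  range : ∀ m, 0 ≤ Ω m ∧ Ω m ≤ 1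
  b1 : ∀ m, b < m → |ω m| ≤ B / (Real.log (ν / μ) * (m - b))

theorem exists_lcut : ∃ B : ℝ, 1 ≤ B ∧ ∀ b μ ν, 0 < μ → μ < ν → ∃ Ω ω, LCut B b μ ν Ω ω := by
  obtain ⟨B, hB, -, hM⟩ := exists_cuts
  refine ⟨B, hB, fun b μ ν hμ hν => ?_⟩
  obtain ⟨Ω, ω, MC⟩ := hM μ ν hμ hν
  have zΩ : ∀ m, m ≤ b + μ → (if b ≤ m then Ω (m - b) else 0) = 0 := by
    intro m hm
    split_ifs with h
    · exact (MC.z _ (by linarith) (by linarith)).1
    · rfl
  have zω : ∀ m, m ≤ b + μ → (if b ≤ m then ω (m - b) else 0) = 0 := by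
    intro m hm
    split_ifs with h
    · exact (MC.z _ (by linarith) (by linarith)).2
    · rfl
  refine ⟨fun m => if b ≤ m then Ω (m - b) else 0, fun m => if b ≤ m then ω (m - b) else 0, ?_⟩
  constructor
  · rw [continuous_iff_continuousAt]
    intro m
    rcases lt_or_ge m (b + μ) with h | h
    · have hev : (fun m => if b ≤ m then ω (m - b) else 0) =ᶠ[𝓝 m] fun _ => 0 := by
        filter_upwards [Iio_mem_nhds h] with y hy
        exact zω y (le_of_lt hy)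
      exact ContinuousAt.congr continuousAt_const hev.symm
    · have hev : (fun m => if b ≤ m then ω (m - b) else 0) =ᶠ[𝓝 m] fun m => ω (m - b) := by
        filter_upwards [Ioi_mem_nhds (show b < m by linarith)] with y hy
        exact if_pos (le_of_lt hy)
      refine ContinuousAt.congr ?_ hev.symm
      have h1 : ContinuousAt ω (m - b) :=
        (MC.c1 (m - b) (show (0 : ℝ) ≤ m - b by linarith)).continuousAt
          (Ici_mem_nhds (show (0 : ℝ) < m - b by linarith))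
      exact ContinuousAt.comp (f := fun m => m - b) h1 (by fun_prop)
  · intro m
    rcases lt_or_ge m (b + μ) with h | h
    · have hev : (fun m => if b ≤ m then Ω (m - b) else 0) =ᶠ[𝓝 m] fun _ => 0 := by
        filter_upwards [Iio_mem_nhds h] with y hy
        exact zΩ y (le_of_lt hy)
      simp only [zω m h.le]
      exact (hasDerivAt_const m (0 : ℝ)).congr_of_eventuallyEq hev
    · have hev : (fun m => if b ≤ m then Ω (m - b) else 0) =ᶠ[𝓝 m] fun m => Ω (m - b) := by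
        filter_upwards [Ioi_mem_nhds (show b < m by linarith)] with y hy
        exact if_pos (le_of_lt hy)
      simp only [if_pos (show b ≤ m by linarith)]
      have h1 := (MC.d0 (m - b) (by linarith)).comp m ((hasDerivAt_id m).sub_const b)
      rw [mul_one] at h1
      exact HasDerivAt.congr_of_eventuallyEq h1 hev
  · exact fun m hm => ⟨zΩ m hm, zω m hm⟩
  · intro m hm
    have h := MC.one (m - b) (by linarith)
    simp only [if_pos (show b ≤ m by linarith), h, and_self]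
  · intro m
    split_ifs with h
    · exact ⟨MC.lo _, MC.up _⟩
    · exact ⟨le_rfl, zero_le_one⟩
  · intro m hm
    simp only [if_pos hm.le]
    exact MC.b1 _ (by linarith)

/-- the weight of the flux -/
theorem flux_slice {b μ ν B Q q : ℝ} (hμ : 0 < μ) (hμν : μ < ν) (hQ : 0 ≤ Q) (hq : 1 ≤ q)
    {Ω ω : ℝ → ℝ} (LC : LCut B b μ ν Ω ω) {f m : ℝ → ℝ} {u1 u2 : ℝ} (hu : u1 ≤ u2)
    (hf : ∀ x ∈ Icc u1 u2, 0 < f x) (cf : ContinuousOn f (Icc u1 u2))
    (dm : ∀ x ∈ Icc u1 u2, HasDerivAt m (f x) x) (hm1 : m u1 = b + μ) (hm2 : m u2 ≤ b + ν)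
    (hmm : ∀ x ∈ Icc u1 u2, m u1 ≤ m x ∧ m x ≤ m u2)
    (hg : ∀ x ∈ Icc u1 u2, f x ^ (n - 1) ≤ Q * (m x - b) ^ q) :
    ∫ x in u1..u2, ω (m x) ^ 2 * f x ^ n ≤ B ^ 2 * Q * ν ^ (q - 1) / Real.log (ν / μ) := by
  have cm : ContinuousOn m (Icc u1 u2) := fun x hx => (dm x hx).continuousAt.continuousWithinAt
  have hΛ : 0 < Real.log (ν / μ) := Real.log_pos ((one_lt_div hμ).2 hμν)
  have hν0 : 0 < ν := hμ.trans hμν
  obtain ⟨Λ, hΛe⟩ : ∃ Λ, Λ = Real.log (ν / μ) := ⟨_, rfl⟩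
  have hb1 := LC.b1
  rw [← hΛe] at hΛ hb1 ⊢
  have hmb : ∀ x ∈ Icc u1 u2, μ ≤ m x - b ∧ m x - b ≤ ν := fun x hx => by
    have := hmm x hx
    constructor <;> linarith
  have i1 : IntervalIntegrable (fun x => ω (m x) ^ 2 * f x ^ n) volume u1 u2 := by
    apply ContinuousOn.intervalIntegrable
    rw [uIcc_of_le hu]
    exact ((LC.c1.comp_continuousOn cm).pow 2).mul
      (cf.rpow_const (fun x hx => Or.inl (hf x hx).ne'))
  have hdl : ∀ x ∈ Icc u1 u2, HasDerivAt (fun x => Real.log (m x - b)) (f x / (m x - b)) x := by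
    intro x hx
    exact ((dm x hx).sub_const b).log (by linarith [(hmb x hx).1])
  have i2 : IntervalIntegrable (fun x => f x / (m x - b)) volume u1 u2 := by
    apply ContinuousOn.intervalIntegrable
    rw [uIcc_of_le hu]
    exact cf.div (cm.sub continuousOn_const) (fun x hx => by linarith [(hmb x hx).1])
  have hftc : ∫ x in u1..u2, f x / (m x - b) = Real.log (m u2 - b) - Real.log (m u1 - b) := by
    apply intervalIntegral.integral_eq_sub_of_hasDerivAt _ i2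
    intro x hx
    rw [uIcc_of_le hu] at hx
    exact hdl x hx
  have hlog : Real.log (m u2 - b) - Real.log (m u1 - b) ≤ Λ := by
    have h2 := hmb u2 ⟨hu, le_rfl⟩
    rw [hΛe, Real.log_div hν0.ne' hμ.ne', hm1]
    have e1 : b + μ - b = μ := by ring
    rw [e1]
    have := Real.log_le_log (show 0 < m u2 - b by linarith) h2.2
    linarith
  have hle : ∫ x in u1..u2, ω (m x) ^ 2 * f x ^ n ≤
      ∫ x in u1..u2, B ^ 2 * Q * ν ^ (q - 1) / Λ ^ 2 * (f x / (m x - b)) := by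
    apply intervalIntegral.integral_mono_on hu i1 (i2.const_mul _)
    intro x hx
    have hfx := hf x hx
    obtain ⟨y, hy⟩ : ∃ y, y = m x - b := ⟨_, rfl⟩
    have h1 := hmb x hx
    have h2 := hb1 (m x) (by linarith)
    have h3 := hg x hx
    rw [← hy] at h1 h2 h3 ⊢
    have hy0 : 0 < y := by linarith
    have e1 : ω (m x) ^ 2 ≤ (B / (Λ * y)) ^ 2 := by
      rw [← sq_abs]
      exact pow_le_pow_left₀ (abs_nonneg _) h2 2
    have e2 : f x ^ n = f x ^ (n - 1) * f x := by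
      rw [← Real.rpow_add_one hfx.ne']
      congr 1
      ring
    have e3 : y ^ q = y ^ (q - 1) * y := by
      rw [← Real.rpow_add_one hy0.ne']
      congr 1
      ring
    have e4 : y ^ (q - 1) ≤ ν ^ (q - 1) := Real.rpow_le_rpow hy0.le h1.2 (by linarith)
    have e5 : f x ^ n ≤ Q * (ν ^ (q - 1) * y) * f x := by
      rw [e2]
      apply mul_le_mul_of_nonneg_right _ hfx.le
      refine h3.trans ?_
      rw [e3]
      gcongr
    have e6 : 0 ≤ f x ^ n := Real.rpow_nonneg hfx.le _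
    calc ω (m x) ^ 2 * f x ^ n ≤ (B / (Λ * y)) ^ 2 * (Q * (ν ^ (q - 1) * y) * f x) :=
          mul_le_mul e1 e5 e6 (sq_nonneg _)
      _ = _ := by
          field_simp
  rw [intervalIntegral.integral_const_mul, hftc] at hle
  have hν1 : 0 ≤ ν ^ (q - 1) := Real.rpow_nonneg hν0.le _
  calc ∫ x in u1..u2, ω (m x) ^ 2 * f x ^ n ≤ _ := hle
    _ ≤ B ^ 2 * Q * ν ^ (q - 1) / Λ ^ 2 * Λ := mul_le_mul_of_nonneg_left hlog (by positivity)
    _ = _ := by
        field_simp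

theorem Flow.P_time (F : Flow n x0 x1 t1 t2 W D s g h1 h3 ht)
    (hDW : D ⊆ W) {b μ ν B Q q l : ℝ} (hμ : 0 < μ) (hμν : μ < ν) (hb : 0 ≤ b)
    (hQ : 0 ≤ Q) (hq : 1 ≤ q) (hl : 0 < l)
    {Ω ω : ℝ → ℝ} (LC : LCut B b μ ν Ω ω) {τ c : ℝ} (hτ : τ ∈ Icc t1 t2) (hc : c ∈ Icc x0 x1)
    (hint : IntegrableOn (fun x => D.indicator (Fd n g h3) (x, τ)) (Ioc x0 x1))
    (hg : ∀ x ∈ Icc x0 c, s τ < x → b + μ ≤ mF x0 x1 t1 t2 g (x, τ) →
      mF x0 x1 t1 t2 g (x, τ) ≤ b + ν →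
      g (x, τ) ^ (n - 1) ≤ Q * (mF x0 x1 t1 t2 g (x, τ) - b) ^ q) :
    ∫ x in x0..c, |ω (mF x0 x1 t1 t2 g (x, τ)) * Jx n g h3 (x, τ)| ≤
      l / 2 * eV n x0 x1 D univ g h3 τ +
        1 / (2 * l) * (B ^ 2 * Q * ν ^ (q - 1) / Real.log (ν / μ)) := by
  have hst := F.s_mem τ hτ
  have hx1m : x1 ∈ Icc x0 x1 := ⟨F.hx.le, le_rfl⟩
  have hx0m : x0 ∈ Icc x0 x1 := ⟨le_rfl, F.hx.le⟩
  have hFd : ∀ z ∈ D, 0 ≤ Fd n g h3 z := fun z hz =>
    mul_nonneg (Real.rpow_nonneg (F.g_pos z hz).le _) (sq_nonneg _)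
  have hE0 := eV_nonneg (n := n) (x0 := x0) (x1 := x1) hFd univ τ
  have hν0 : 0 < ν := hμ.trans hμν
  have hΛ : 0 < Real.log (ν / μ) := Real.log_pos ((one_lt_div hμ).2 hμν)
  have hν1 : 0 ≤ ν ^ (q - 1) := Real.rpow_nonneg hν0.le _
  have hrhs : 0 ≤ 1 / (2 * l) * (B ^ 2 * Q * ν ^ (q - 1) / Real.log (ν / μ)) := by positivity
  have hcu := F.labCut (u := Jx n g h3) (show 0 < b + μ by linarith) LC.c1
    (fun v hv => (LC.lo v hv).2) (F.powCont hDW)
  have hca : ContinuousOn (fun x => |ω (mF x0 x1 t1 t2 g (x, τ)) * Jx n g h3 (x, τ)|)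
      (Icc x0 x1) := (slice_c hcu hτ).abs
  have hi : ∀ p q, p ∈ Icc x0 x1 → q ∈ Icc x0 x1 →
      IntervalIntegrable (fun x => |ω (mF x0 x1 t1 t2 g (x, τ)) * Jx n g h3 (x, τ)|)
        volume p q := by
    intro p q hp hq
    apply ContinuousOn.intervalIntegrable
    exact hca.mono (uIcc_subset_Icc hp hq)
  rcases lt_or_ge (mF x0 x1 t1 t2 g (c, τ)) (b + μ) with hlt | hge
  · have z1 : ∫ x in x0..c, |ω (mF x0 x1 t1 t2 g (x, τ)) * Jx n g h3 (x, τ)| =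
        ∫ _x in x0..c, (0 : ℝ) := by
      apply intervalIntegral.integral_congr
      intro x hx
      rw [uIcc_of_le hc.1] at hx
      have h := F.mF_mono (τ := τ) hx.1 hx.2
      simp only [(LC.lo _ (h.trans hlt.le)).2, zero_mul, abs_zero]
    rw [z1, intervalIntegral.integral_zero]
    positivity
  obtain ⟨u2, hu2, hm2, hout⟩ : ∃ u2 ∈ Ioc (s τ) c, (mF x0 x1 t1 t2 g (u2, τ) ≤ b + ν ∧
      b + μ ≤ mF x0 x1 t1 t2 g (u2, τ)) ∧
      ∀ x ∈ Icc u2 c, x ≠ u2 → ω (mF x0 x1 t1 t2 g (x, τ)) = 0 := by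
    rcases le_total (b + ν) (mF x0 x1 t1 t2 g (c, τ)) with h | h
    · obtain ⟨u2, hu2, hm2⟩ := F.label_ex hτ hc (show 0 < b + ν by linarith) h
      refine ⟨u2, hu2, ⟨hm2.le, by rw [hm2]; linarith⟩, fun x hx _ => ?_⟩
      apply (LC.hi _ _).2
      rw [← hm2]
      exact F.mF_mono (hst.1.le.trans hu2.1.le) hx.1
    · obtain ⟨u2, hu2, hm2⟩ := F.label_ex hτ hc (show 0 < b + μ by linarith) hge
      refine ⟨c, ⟨hu2.1.trans_le hu2.2, le_rfl⟩, ⟨h, hge⟩, fun x hx hne => ?_⟩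
      exact absurd (le_antisymm hx.2 hx.1) hne
  have hu2m : u2 ∈ Icc x0 x1 := ⟨hst.1.le.trans hu2.1.le, hu2.2.trans hc.2⟩
  obtain ⟨u1, hu1, hm1⟩ := F.label_ex hτ hu2m (show 0 < b + μ by linarith) hm2.2
  have hu1m : u1 ∈ Icc x0 x1 := ⟨hst.1.le.trans hu1.1.le, hu1.2.trans hu2m.2⟩
  rw [← intervalIntegral.integral_add_adjacent_intervals (hi x0 u1 hx0m hu1m)
    (hi u1 c hu1m hc), ← intervalIntegral.integral_add_adjacent_intervals (hi u1 u2 hu1m hu2m)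
    (hi u2 c hu2m hc)]
  have z1 : ∫ x in x0..u1, |ω (mF x0 x1 t1 t2 g (x, τ)) * Jx n g h3 (x, τ)| =
      ∫ _x in x0..u1, (0 : ℝ) := by
    apply intervalIntegral.integral_congr
    intro x hx
    rw [uIcc_of_le hu1m.1] at hx
    have h := F.mF_mono (τ := τ) hx.1 hx.2
    rw [hm1] at h
    simp only [(LC.lo _ h).2, zero_mul, abs_zero]
  have z2 : ∫ x in u2..c, |ω (mF x0 x1 t1 t2 g (x, τ)) * Jx n g h3 (x, τ)| = 0 := by
    rw [intervalIntegral.integral_of_le hu2.2]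
    have : ∀ x ∈ Ioc u2 c, |ω (mF x0 x1 t1 t2 g (x, τ)) * Jx n g h3 (x, τ)| = 0 := by
      intro x hx
      rw [hout x ⟨hx.1.le, hx.2⟩ hx.1.ne', zero_mul, abs_zero]
    rw [setIntegral_congr_fun measurableSet_Ioc this]
    simp
  rw [z1, z2, intervalIntegral.integral_zero, zero_add, add_zero]
  have hD := F.slD hτ hu1.1 hu2m.2
  have hsl : ∀ {u : ℝ × ℝ → ℝ}, ContinuousOn u D → ContinuousOn (fun y => u (y, τ)) (Icc u1 u2) :=
    fun hu => hu.comp (show Continuous fun y : ℝ => (y, τ) by fun_prop).continuousOn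
      (fun y hy => hD y hy)
  have hmm : ∀ x ∈ Icc u1 u2, mF x0 x1 t1 t2 g (u1, τ) ≤ mF x0 x1 t1 t2 g (x, τ) ∧
      mF x0 x1 t1 t2 g (x, τ) ≤ mF x0 x1 t1 t2 g (u2, τ) := fun x hx =>
    ⟨F.mF_mono (τ := τ) hu1m.1 hx.1, F.mF_mono (τ := τ) (hu1m.1.trans hx.1) hx.2⟩
  have cg : ContinuousOn (fun x => g (x, τ)) (Icc u1 u2) := hsl (F.g_cont.mono hDW)
  have key := flux_slice (n := n) (f := fun x => g (x, τ)) (m := fun x => mF x0 x1 t1 t2 g (x, τ))
    hμ hμν hQ hq LC hu1.2 (fun x hx => F.g_pos _ (hD x hx)) cg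
    (fun x hx => F.label_dx ⟨hu1m.1.trans hx.1, hx.2.trans hu2m.2⟩ hτ) hm1 hm2.1 hmm
    (fun x hx => by
      have h := hmm x hx
      rw [hm1] at h
      exact hg x ⟨hu1m.1.trans hx.1, hx.2.trans hu2.2⟩ (hu1.1.trans_le hx.1) h.1
        (h.2.trans hm2.1))
  -- the dissipation
  have hi3 : IntervalIntegrable (fun x => Fd n g h3 (x, τ)) volume u1 u2 := by
    apply ContinuousOn.intervalIntegrable
    rw [uIcc_of_le hu1.2]
    exact hsl ((F.uD_cont hDW n).mul (F.h3_cont.pow 2))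
  have hen : ∫ x in u1..u2, Fd n g h3 (x, τ) ≤ eV n x0 x1 D univ g h3 τ := by
    rw [intervalIntegral.integral_of_le hu1.2]
    have e1 : ∫ x in Ioc u1 u2, Fd n g h3 (x, τ) =
        ∫ x in Ioc u1 u2, D.indicator (Fd n g h3) (x, τ) := by
      apply setIntegral_congr_fun measurableSet_Ioc
      intro x hx
      simp only
      rw [indicator_of_mem (hD x ⟨hx.1.le, hx.2⟩)]
    rw [e1]
    unfold eV
    rw [inter_univ]
    apply setIntegral_mono_set hint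
    · exact Eventually.of_forall (fun x => indicator_nonneg hFd _)
    · exact (Eventually.of_forall (Ioc_subset_Ioc hu1m.1 hu2m.2))
  have hi4 : IntervalIntegrable (fun x => ω (mF x0 x1 t1 t2 g (x, τ)) ^ 2 * g (x, τ) ^ n)
      volume u1 u2 := by
    apply ContinuousOn.intervalIntegrable
    rw [uIcc_of_le hu1.2]
    have cm : ContinuousOn (fun x => mF x0 x1 t1 t2 g (x, τ)) (Icc u1 u2) :=
      (F.mF_cont.comp (show Continuous fun x : ℝ => (x, τ) by fun_prop)).continuousOn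
    exact ((LC.c1.comp_continuousOn cm).pow 2).mul
      (cg.rpow_const (fun x hx => Or.inl (F.g_pos _ (hD x hx)).ne'))
  have hpt : ∫ x in u1..u2, |ω (mF x0 x1 t1 t2 g (x, τ)) * Jx n g h3 (x, τ)| ≤
      ∫ x in u1..u2, (l / 2 * Fd n g h3 (x, τ) +
        1 / (2 * l) * (ω (mF x0 x1 t1 t2 g (x, τ)) ^ 2 * g (x, τ) ^ n)) := by
    apply intervalIntegral.integral_mono_on hu1.2 (hi u1 u2 hu1m hu2m)
      ((hi3.const_mul _).add (hi4.const_mul _))
    intro x hx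
    have hgx := F.g_pos _ (hD x hx)
    have h := two_mul_le' (g (x, τ) ^ (n / 2) * h3 (x, τ))
      (ω (mF x0 x1 t1 t2 g (x, τ)) * g (x, τ) ^ (n / 2)) l hl
    have e1 : g (x, τ) ^ (n / 2) * g (x, τ) ^ (n / 2) = g (x, τ) ^ n := by
      rw [← Real.rpow_add hgx]
      congr 1
      ring
    have e2 : (g (x, τ) ^ (n / 2)) ^ 2 = g (x, τ) ^ n := by rw [sq, e1]
    have e3 : g (x, τ) ^ (n / 2) * h3 (x, τ) * (ω (mF x0 x1 t1 t2 g (x, τ)) * g (x, τ) ^ (n / 2)) =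
        ω (mF x0 x1 t1 t2 g (x, τ)) * Jx n g h3 (x, τ) := by
      unfold Jx
      rw [← e1]
      ring
    rw [e3, mul_pow, mul_pow, e2] at h
    unfold Fd
    exact h
  rw [intervalIntegral.integral_add (hi3.const_mul _) (hi4.const_mul _),
    intervalIntegral.integral_const_mul, intervalIntegral.integral_const_mul] at hpt
  refine hpt.trans ?_
  gcongr

/-- the evolution of the position of the labels -/
theorem Flow.P_evol (F : Flow n x0 x1 t1 t2 W D s g h1 h3 ht) (J : Jet D h1 h2 h3)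
    (hDW : D ⊆ W) (hn : 3 ≤ n)
    (hfin : IntegrableOn (Fd n g h3) (D ∩ Ioc x0 x1 ×ˢ Ioc t1 t2)) {b μ ν B : ℝ} {Ω ω : ℝ → ℝ}
    (hμ : 0 < μ) (hb : 0 ≤ b) (LC : LCut B b μ ν Ω ω) {c : ℝ} (hc : c ∈ Ioc x0 x1)
    {t' t'' : ℝ} (h1' : t1 ≤ t') (h12 : t' < t'') (h2' : t'' ≤ t2)
    {R : ℝ → ℝ} (hR : IntegrableOn R (Ioc t' t''))
    (hle : ∀ᵐ τ ∂(volume.restrict (Ioc t' t'')),
      ∫ x in x0..c, |ω (mF x0 x1 t1 t2 g (x, τ)) * Jx n g h3 (x, τ)| ≤ R τ) :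
    (∫ x in x0..c, Ω (mF x0 x1 t1 t2 g (x, t''))) - (∫ x in x0..c, Ω (mF x0 x1 t1 t2 g (x, t'))) ≤
      ∫ τ in Ioc t' t'', R τ := by
  have hsub : Icc x0 c ×ˢ Icc t' t'' ⊆ Icc x0 x1 ×ˢ Icc t1 t2 :=
    prod_mono (Icc_subset_Icc_right hc.2) (Icc_subset_Icc h1' h2')
  have hΩ0 : 0 < b + μ := by linarith
  have cΩ : Continuous Ω := continuous_iff_continuousAt.2 fun x => (LC.d0 x).continuousAt
  have c0 : ContinuousOn (fun z => Ω (mF x0 x1 t1 t2 g z)) (Icc x0 c ×ˢ Icc t' t'') :=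
    (cΩ.comp F.mF_cont).continuousOn
  have c1 : ContinuousOn (fun z => -(ω (mF x0 x1 t1 t2 g z) * Jx n g h3 z))
      (Icc x0 c ×ˢ Icc t' t'') :=
    (((F.labCut (u := Jx n g h3) hΩ0 LC.c1 (fun v hv => (LC.lo v hv).2)
      (F.powCont hDW))).mono hsub).neg
  have hd := diff_int hc.1 h12 c0 c1 (fun x hx t htt => by
    have h := F.labCut_dt J hDW hn hfin hΩ0 (ψ := Ω) (ψ1 := ω) LC.d0
      (fun v hv => (LC.lo v hv).1) (fun v hv => (LC.lo v hv).2)
      (u := fun _ => 1) (ut := fun _ => 0)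
      (fun z _ => hasDerivAt_const z.2 (1 : ℝ)) (x := x) ⟨hx.1, hx.2.trans hc.2⟩
      ⟨h1'.trans_lt htt.1, htt.2.trans_le h2'⟩
    simp only [mul_one, mul_zero, add_zero] at h
    exact h)
  have e : (∫ x in x0..c, Ω (mF x0 x1 t1 t2 g (x, t''))) -
      (∫ x in x0..c, Ω (mF x0 x1 t1 t2 g (x, t'))) =
      ∫ τ in t'..t'', ∫ x in x0..c, -(ω (mF x0 x1 t1 t2 g (x, τ)) * Jx n g h3 (x, τ)) := hd
  rw [e, intervalIntegral.integral_of_le h12.le]
  have hi1 : IntegrableOn (fun τ => ∫ x in x0..c, -(ω (mF x0 x1 t1 t2 g (x, τ)) *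
      Jx n g h3 (x, τ))) (Ioc t' t'') :=
    (slice_ii hc.1 h12 c1).integrableOn_Icc.mono_set Ioc_subset_Icc_self
  apply integral_mono_ae hi1 hR
  filter_upwards [hle, ae_restrict_mem measurableSet_Ioc] with τ g1 g2
  refine le_trans ?_ g1
  have h5 : (∫ x in x0..c, -(ω (mF x0 x1 t1 t2 g (x, τ)) * Jx n g h3 (x, τ))) ≤
      |∫ x in x0..c, -(ω (mF x0 x1 t1 t2 g (x, τ)) * Jx n g h3 (x, τ))| := le_abs_self _
  refine h5.trans ?_
  refine (intervalIntegral.abs_integral_le_integral_abs hc.1.le).trans (le_of_eq ?_)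
  apply intervalIntegral.integral_congr
  intro x _
  simp only [abs_neg]

end Pool.Agent.Q81.TF
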