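import Pool.Agent.Q81.TF.Stm

/-! Project TF: the weighted bound of the slopes (`S_WS`). -/

open Set MeasureTheory Filter Topology

namespace Pool.Agent.Q81.TF

theorem ws_aux1 {E : ℝ} (hE : 0 ≤ E) : 72 * E ≤ 81 * (1 + E) ^ 2 := by nlinarith only [sq_nonneg E]

theorem ws_aux2 {E : ℝ} (hE : 0 ≤ E) : E ≤ (1 + E) ^ 2 := by nlinarith only [sq_nonneg E]

theorem t_WS (hCW : S_CW) : S_WS := by
  intro n hn
  have h2n : (1 : ℝ) ≤ 2 ^ n := Real.one_le_rpow (by norm_num) (by linarith)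
  refine ⟨10000 * (2 : ℝ) ^ n, by linarith, ?_⟩
  intro a0 a E b N H Pm f f1 f2 f3 m ζ ζ1 P dm mlim mpos hPm hb hb1 hN Z x hx hbx hH hR
  have hE := P.E_nonneg
  obtain ⟨X, hX⟩ : ∃ X, X = H ^ 4 / b ^ 2 +
      (1 + E) * (Real.sqrt N + b ^ (-(2 * (n - 3) / (n + 7)))) + Pm ^ 2 := ⟨_, rfl⟩
  rw [← hX]
  have t1 : 0 ≤ H ^ 4 / b ^ 2 := by positivity
  have t2 : 0 ≤ (1 + E) * Real.sqrt N := by positivity
  have t3 : 0 ≤ (1 + E) * b ^ (-(2 * (n - 3) / (n + 7))) :=
    mul_nonneg (by linarith) (Real.rpow_nonneg hb.le _)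
  have t4 : 0 ≤ Pm ^ 2 := sq_nonneg _
  have hXe : X = H ^ 4 / b ^ 2 + (1 + E) * Real.sqrt N +
      (1 + E) * b ^ (-(2 * (n - 3) / (n + 7))) + Pm ^ 2 := by rw [hX]; ring
  have hX0 : 0 ≤ X := by rw [hXe]; positivity
  have hCX : ∀ v : ℝ, v ≤ 10000 * X → v ≤ 10000 * (2 : ℝ) ^ n * X := by
    intro v hv
    refine hv.trans ?_
    have : 10000 * X * 1 ≤ 10000 * X * (2 : ℝ) ^ n :=
      mul_le_mul_of_nonneg_left h2n (by positivity)
    linarith
  -- the interval
  obtain ⟨r, hr, hr'⟩ := mlim b hb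
  obtain ⟨α, hα1, hα2⟩ : ∃ α, a0 < α ∧ α < min r x := exists_between (lt_min hr hx.1)
  have hαr : α < r := hα2.trans_le (min_le_left _ _)
  have hαx : α < x := hα2.trans_le (min_le_right _ _)
  have hmα := hr' α ⟨hα1, hαr⟩
  have hsub : Icc α a ⊆ Ioc a0 a := fun y hy => ⟨hα1.trans_le hy.1, hy.2⟩
  have S := P.seg hα1 (hαx.le.trans hx.2) le_rfl
  have dmS : ∀ y ∈ Icc α a, HasDerivAt m (f y) y := fun y hy => dm y (hsub hy)
  have hmono := S.mono_m dmS
  have cm : ContinuousOn m (Icc α a) := fun y hy => (dmS y hy).continuousAt.continuousWithinAt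
  have ivt : ∀ u ∈ Icc α a, ∀ w ∈ Icc u a, ∀ v, m u ≤ v → v ≤ m w → ∃ q ∈ Icc u w, m q = v := by
    intro u hu w hw v h1 h2
    have h3 := intermediate_value_Icc hw.1
      (cm.mono (Icc_subset_Icc hu.1 hw.2)) (⟨h1, h2⟩ : v ∈ Icc (m u) (m w))
    obtain ⟨q, hq, hq'⟩ := h3
    exact ⟨q, hq, hq'⟩
  have hxS : x ∈ Icc α a := ⟨hαx.le, hx.2⟩
  obtain ⟨p, hp, hmp⟩ := ivt α ⟨le_rfl, hαx.le.trans hx.2⟩ x hxS b hmα.le hbx.le
  have hpS : p ∈ Icc α a := ⟨hp.1, hp.2.trans hx.2⟩
  have cζ : Continuous ζ := continuous_iff_continuousAt.2 (fun v => (Z.d0 v).continuousAt)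
  obtain ⟨c0, c1, c2, c3, cG, cw⟩ := S.cont (le_refl α) (le_refl a)
  have cζm : ContinuousOn (fun w => ζ (m w)) (Icc α a) := cζ.comp_continuousOn cm
  have cΦ : ContinuousOn (fun w => ζ (m w) * f1 w ^ 4) (Icc p x) :=
    (cζm.mul (c1.pow 4)).mono (Icc_subset_Icc hp.1 hx.2)
  obtain ⟨u, hu, hmax⟩ := isCompact_Icc.exists_isMaxOn (nonempty_Icc.2 hp.2) cΦ
  have hmax' : ∀ w ∈ Icc p x, ζ (m w) * f1 w ^ 4 ≤ ζ (m u) * f1 u ^ 4 := fun w hw => hmax hw
  have huS : u ∈ Icc α a := ⟨hp.1.trans hu.1, hu.2.trans hx.2⟩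
  have huP : u ∈ Ioc a0 a := hsub huS
  obtain ⟨z, hz⟩ : ∃ z, z = ζ (m u) := ⟨_, rfl⟩
  obtain ⟨σ, hσ⟩ : ∃ σ, σ = |f1 u| := ⟨_, rfl⟩
  have hσ2 : σ ^ 2 = f1 u ^ 2 := by rw [hσ, sq_abs]
  have hσ4 : σ ^ 4 = f1 u ^ 4 := by
    have : σ ^ 4 = (σ ^ 2) ^ 2 := by ring
    rw [this, hσ2]; ring
  have hσ0 : 0 ≤ σ := by rw [hσ]; exact abs_nonneg _
  have hz0 : 0 ≤ z := by rw [hz]; exact (Z.range _).1
  have hz1 : z ≤ 1 := by rw [hz]; exact (Z.range _).2
  rw [← hz, ← hσ4] at hmax'
  have hsz : Real.sqrt z ^ 2 = z := Real.sq_sqrt hz0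
  have hsz0 : 0 ≤ Real.sqrt z := Real.sqrt_nonneg _
  have hsz1 : Real.sqrt z ≤ 1 := Real.sqrt_le_one.2 hz1
  have key0 : Real.sqrt (ζ (m x)) * f1 x ^ 2 ≤ Real.sqrt z * σ ^ 2 := by
    rw [← pow_le_pow_iff_left₀ (by positivity) (by positivity) (two_ne_zero)]
    have e1 : (Real.sqrt (ζ (m x)) * f1 x ^ 2) ^ 2 = ζ (m x) * f1 x ^ 4 := by
      rw [mul_pow, Real.sq_sqrt (Z.range _).1]; ring
    have e2 : (Real.sqrt z * σ ^ 2) ^ 2 = z * σ ^ 4 := by
      rw [mul_pow, hsz]; ring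
    rw [e1, e2]
    exact hmax' x ⟨hp.2, le_rfl⟩
  refine key0.trans ?_
  rcases eq_or_lt_of_le hz0 with hz00 | hzp
  · rw [← hz00, Real.sqrt_zero, zero_mul]
    positivity
  rcases eq_or_lt_of_le hσ0 with hσ00 | hσp
  · rw [← hσ00]
    have : Real.sqrt z * (0 : ℝ) ^ 2 = 0 := by ring
    rw [this]
    positivity
  have hbu : b < m u := by
    by_contra hcon
    have h1 := (Z.lo (m u) (not_lt.1 hcon)).1
    rw [← hz] at h1
    linarith
  have hpu := hu.1
  obtain ⟨q, hq, hmq⟩ := ivt p hpS u ⟨hu.1, huS.2⟩ ((m u + b) / 2) (by rw [hmp]; linarith)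
    (by linarith)
  have hqu : q < u := by
    rcases eq_or_lt_of_le hq.2 with h | h
    · rw [h] at hmq
      linarith
    · exact h
  have hqS : q ∈ Icc α a := ⟨hp.1.trans hq.1, hq.2.trans huS.2⟩
  have hfu := P.pos u huP
  -- the interval `[q, u]`
  have hζq : ∀ w ∈ Icc q u, z / 36 ≤ ζ (m w) := by
    intro w hw
    have h1 := Z.dbl (m u) hbu.le
    rw [← hz, ← hmq] at h1
    have h2 := Z.mono (hmono hqS ⟨hqS.1.trans hw.1, hw.2.trans huS.2⟩ hw.1)
    linarith
  have hsl : ∀ w ∈ Icc q u, |f1 w| ≤ 3 * σ := by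
    intro w hw
    have h1 := hmax' w ⟨hq.1.trans hw.1, hw.2.trans hu.2⟩
    have h2 := mul_le_mul_of_nonneg_right (hζq w hw) (show 0 ≤ f1 w ^ 4 by positivity)
    have h3 : f1 w ^ 4 ≤ 36 * σ ^ 4 := by
      have h4 : z * f1 w ^ 4 ≤ z * (36 * σ ^ 4) := by linarith
      exact le_of_mul_le_mul_left h4 hzp
    have h5 : |f1 w| ^ 4 = f1 w ^ 4 := by
      have : |f1 w| ^ 4 = (|f1 w| ^ 2) ^ 2 := by ring
      rw [this, sq_abs]; ring
    rw [← pow_le_pow_iff_left₀ (abs_nonneg _) (by positivity) (show (4 : ℕ) ≠ 0 by norm_num), h5]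
    have h6 : (3 * σ) ^ 4 = 81 * σ ^ 4 := by ring
    rw [h6]
    have : 0 ≤ σ ^ 4 := by positivity
    linarith
  have ciζ : ∀ s t, α ≤ s → s ≤ t → t ≤ a →
      IntervalIntegrable (fun w => ζ (m w) * f w ^ (2 - n)) volume s t := by
    intro s t h1 h2 h3
    apply ContinuousOn.intervalIntegrable
    rw [uIcc_of_le h2]
    exact (cζm.mul cw).mono (Icc_subset_Icc h1 h3)
  have hζI : ∀ y ∈ Icc α u, ∫ w in y..u, ζ (m w) * f w ^ (2 - n) ≤ 2 * N := by
    intro y hy
    have h1 := hR y ⟨hα1.trans_le hy.1, hy.2.trans hu.2⟩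
    have h2 := intervalIntegral.integral_add_adjacent_intervals
      (ciζ y u hy.1 hy.2 huS.2) (ciζ u x huS.1 hu.2 hx.2)
    have h3 : 0 ≤ ∫ w in u..x, ζ (m w) * f w ^ (2 - n) := by
      apply intervalIntegral.integral_nonneg hu.2
      intro w hw
      exact mul_nonneg (Z.range _).1
        (Real.rpow_nonneg (P.pos w ⟨huP.1.trans_le hw.1, hw.2.trans hx.2⟩).le _)
    linarith
  have hII : ∀ y ∈ Icc q u, ∫ w in y..u, f w ^ (2 - n) ≤ 72 * N / z := by
    intro y hy
    have hyα : α ≤ y := hqS.1.trans hy.1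
    have h1 := hζI y ⟨hyα, hy.2⟩
    have h2 : ∫ w in y..u, z / 36 * f w ^ (2 - n) ≤ ∫ w in y..u, ζ (m w) * f w ^ (2 - n) := by
      apply intervalIntegral.integral_mono_on hy.2 ((S.ii hyα hy.2 huS.2).const_mul _)
        (ciζ y u hyα hy.2 huS.2)
      intro w hw
      exact mul_le_mul_of_nonneg_right (hζq w ⟨hy.1.trans hw.1, hw.2⟩)
        (Real.rpow_nonneg (S.pos w ⟨hyα.trans hw.1, hw.2.trans huS.2⟩).le _)
    rw [intervalIntegral.integral_const_mul] at h2
    rw [le_div_iff₀ hzp]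
    linarith
  -- the alternatives at `u`
  have halt : σ ≤ Pm ∨ σ ^ 2 / 16 ≤ Gf f f1 f2 u ∨ σ ^ 5 ≤ 683 * E * f u ^ (3 - n) := by
    rcases lt_trichotomy (f1 u) 0 with h | h | h
    · have h1 := P.fall hn huP h
      rw [← hσ, ← hσ2] at h1
      exact Or.inr h1
    · rw [h, abs_zero] at hσ
      linarith
    · have h1 := P.rise hn huP h
      rw [← hσ2] at h1
      have h2 : f1 u = σ := by rw [hσ, abs_of_pos h]
      rw [h2] at h1
      rcases h1 with h1 | h1
      · exact Or.inl (h1.trans ((le_abs_self _).trans hPm))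
      · exact Or.inr h1
  rcases halt with h0 | h1 | h2
  · -- reaches the right end
    apply hCX
    have e1 : Real.sqrt z * σ ^ 2 ≤ 1 * σ ^ 2 := mul_le_mul_of_nonneg_right hsz1 (sq_nonneg _)
    have e2 : σ ^ 2 ≤ Pm ^ 2 := pow_le_pow_left₀ hσ0 h0 2
    rw [hXe]
    linarith
  · -- large `G`
    apply hCX
    obtain ⟨G, hG⟩ : ∃ G, G = Gf f f1 f2 u := ⟨_, rfl⟩
    rw [← hG] at h1
    have hGp : 0 < G := by
      have : 0 < σ ^ 2 := by positivity
      linarith
    obtain ⟨D, hD⟩ : ∃ D, D = 72 * N / z * E := ⟨_, rfl⟩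
    have hD0 : 0 ≤ D := by rw [hD]; positivity
    have e0 : Real.sqrt z * σ ^ 2 ≤ 16 * (Real.sqrt z * G) := by
      have := mul_le_mul_of_nonneg_left h1 hsz0
      linarith
    by_cases hsm : G ≤ 2 * Real.sqrt D
    · have e1 : Real.sqrt z * Real.sqrt D ≤ 9 * ((1 + E) * Real.sqrt N) := by
        rw [← Real.sqrt_mul hz0, Real.sqrt_le_iff]
        refine ⟨by positivity, ?_⟩
        have e2 : z * D = 72 * N * E := by
          rw [hD]
          field_simp
        have e3 : (9 * ((1 + E) * Real.sqrt N)) ^ 2 = 81 * (1 + E) ^ 2 * N := by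
          have : (9 * ((1 + E) * Real.sqrt N)) ^ 2 = 81 * (1 + E) ^ 2 * Real.sqrt N ^ 2 := by ring
          rw [this, Real.sq_sqrt (by linarith)]
        rw [e2, e3]
        have e4 := ws_aux1 hE
        have e4' := mul_le_mul_of_nonneg_right e4 (show 0 ≤ N by linarith)
        linarith
      have e5 := mul_le_mul_of_nonneg_left hsm hsz0
      rw [hXe]
      linarith
    · push Not at hsm
      have hGy : ∀ y, (Gf f f1 f2 y - G) ^ 2 ≤ D → G / 2 ≤ Gf f f1 f2 y := by
        intro y hy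
        have h3 := Real.abs_le_sqrt hy
        have h4 := (abs_le.1 h3).1
        linarith
      by_cases h3b : m u ≤ 3 * b
      · have hGq : ∀ y ∈ Icc q u, G / 2 ≤ Gf f f1 f2 y := by
          intro y hy
          apply hGy
          have h3 := S.Gdiff (hqS.1.trans hy.1) hy.2 huS.2
          rw [← hG] at h3
          rw [hD]
          exact h3.trans (mul_le_mul_of_nonneg_right (hII y hy) hE)
        have h4 := hCW n q u E H (G / 2) f f1 f2 f3 m (S.restrict hqS.1 hqu.le huS.2) hqu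
          (by linarith) (fun w hw => hH w ⟨hα1.trans_le (hqS.1.trans hw.1), hw.2.trans hu.2⟩
            ((hmono ⟨hqS.1.trans hw.1, hw.2.trans huS.2⟩ huS hw.2).trans h3b)) hGq
          (fun w hw => dmS w ⟨hqS.1.trans hw.1, hw.2.trans huS.2⟩)
        rw [hmq] at h4
        have h5 : b ^ 2 * Real.sqrt z ≤ 3 * (m u - b) ^ 2 := by
          rw [← pow_le_pow_iff_left₀ (by positivity) (by positivity) (two_ne_zero)]
          have h6 := Z.low (m u) hbu.le
          rw [← hz] at h6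
          have e1 : (b ^ 2 * Real.sqrt z) ^ 2 = b ^ 4 * z := by
            rw [mul_pow, hsz]; ring
          have e2 : (3 * (m u - b) ^ 2) ^ 2 = 9 * (m u - b) ^ 4 := by ring
          rw [e1, e2]
          exact h6
        have h6 : G * (m u - b) ^ 2 ≤ 192 * H ^ 4 := by linarith
        have h7 : b ^ 2 * (Real.sqrt z * G) ≤ 576 * H ^ 4 := by
          have := mul_le_mul_of_nonneg_right h5 hGp.le
          linarith
        have h8 : Real.sqrt z * G ≤ 576 * (H ^ 4 / b ^ 2) := by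
          rw [mul_div_assoc', le_div_iff₀ (by positivity)]
          linarith
        rw [hXe]
        linarith
      · push Not at h3b
        have hz1' : z = 1 := by
          rw [hz]
          exact (Z.hi (m u) (by linarith)).1
        obtain ⟨q2, hq2, hmq2⟩ := ivt p hpS u ⟨hu.1, huS.2⟩ (2 * b) (by rw [hmp]; linarith)
          (by linarith)
        have hq2S : q2 ∈ Icc α a := ⟨hp.1.trans hq2.1, hq2.2.trans huS.2⟩
        obtain ⟨q3, hq3, hmq3⟩ := ivt q2 hq2S u ⟨hq2.2, huS.2⟩ (3 * b) (by rw [hmq2]; linarith)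
          h3b.le
        have hq23 : q2 < q3 := by
          rcases eq_or_lt_of_le hq3.1 with h | h
          · rw [← h, hmq2] at hmq3
            linarith
          · exact h
        have hq3S : q3 ∈ Icc α a := ⟨hq2S.1.trans hq3.1, hq3.2.trans huS.2⟩
        have hI2 : ∀ y ∈ Icc q2 u, ∫ w in y..u, f w ^ (2 - n) ≤ 72 * N / z := by
          intro y hy
          have hyα : α ≤ y := hq2S.1.trans hy.1
          have e1 := hζI y ⟨hyα, hy.2⟩
          have e2 : ∫ w in y..u, f w ^ (2 - n) = ∫ w in y..u, ζ (m w) * f w ^ (2 - n) := by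
            apply intervalIntegral.integral_congr
            intro w hw
            rw [uIcc_of_le hy.2] at hw
            have e3 : 2 * b ≤ m w := by
              rw [← hmq2]
              exact hmono hq2S ⟨hyα.trans hw.1, hw.2.trans huS.2⟩ (hy.1.trans hw.1)
            simp only
            rw [(Z.hi _ e3).1, one_mul]
          rw [e2, hz1', div_one]
          linarith
        have hGq : ∀ y ∈ Icc q2 q3, G / 2 ≤ Gf f f1 f2 y := by
          intro y hy
          apply hGy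
          have hyu : y ∈ Icc q2 u := ⟨hy.1, hy.2.trans hq3.2⟩
          have h3 := S.Gdiff (hq2S.1.trans hy.1) hyu.2 huS.2
          rw [← hG] at h3
          rw [hD]
          exact h3.trans (mul_le_mul_of_nonneg_right (hI2 y hyu) hE)
        have h4 := hCW n q2 q3 E H (G / 2) f f1 f2 f3 m (S.restrict hq2S.1 hq23.le hq3S.2) hq23
          (by linarith) (fun w hw => hH w ⟨hα1.trans_le (hq2S.1.trans hw.1),
            (hw.2.trans hq3.2).trans hu.2⟩
            ((hmono ⟨hq2S.1.trans hw.1, hw.2.trans hq3S.2⟩ hq3S hw.2).trans hmq3.le)) hGq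
          (fun w hw => dmS w ⟨hq2S.1.trans hw.1, hw.2.trans hq3S.2⟩)
        rw [hmq2, hmq3] at h4
        have h5 : b ^ 2 * G ≤ 48 * H ^ 4 := by linarith
        have h8 : G ≤ 48 * (H ^ 4 / b ^ 2) := by
          rw [mul_div_assoc', le_div_iff₀ (by positivity)]
          linarith
        rw [hz1', Real.sqrt_one] at e0 ⊢
        rw [hXe]
        linarith
  · -- expensive points
    obtain ⟨ρ, hρ⟩ : ∃ ρ, ρ = f u / (6 * σ) := ⟨_, rfl⟩
    have hρ0 : 0 < ρ := by rw [hρ]; positivity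
    have hρσ : 3 * σ * ρ = f u / 2 := by
      rw [hρ]
      field_simp
      ring
    have hfw : ∀ w ∈ Icc q u, u - w ≤ ρ → f w ≤ 2 * f u := by
      intro w hw h3
      have h4 := P.lip (x := w) (y := u) (σ := 3 * σ) (hα1.trans_le (hqS.1.trans hw.1)) hw.2
        huS.2 (fun v hv => hsl v ⟨hw.1.trans hv.1, hv.2⟩)
      have h5 := (abs_le.1 h4).1
      have h6 : 3 * σ * (u - w) ≤ 3 * σ * ρ := mul_le_mul_of_nonneg_left h3 (by positivity)
      linarith
    by_cases hcase : q ≤ u - ρ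
    · -- the whole window is in `[q, u]`
      have hwα : α ≤ u - ρ := hqS.1.trans hcase
      have hwu : u - ρ ≤ u := by linarith
      have e1 := hζI (u - ρ) ⟨hwα, hwu⟩
      have e2 : ∫ w in (u - ρ)..u, z / 36 * (2 * f u) ^ (2 - n) ≤
          ∫ w in (u - ρ)..u, ζ (m w) * f w ^ (2 - n) := by
        apply intervalIntegral.integral_mono_on hwu intervalIntegrable_const
          (ciζ (u - ρ) u hwα hwu huS.2)
        intro w hw
        have hwq : w ∈ Icc q u := ⟨hcase.trans hw.1, hw.2⟩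
        have hfw' := hfw w hwq (by linarith [hw.1])
        have hfp := S.pos w ⟨hwα.trans hw.1, hw.2.trans huS.2⟩
        exact mul_le_mul (hζq w hwq) (Real.rpow_le_rpow_of_nonpos hfp hfw' (by linarith))
          (Real.rpow_nonneg (by positivity) _) (Z.range _).1
      rw [intervalIntegral.integral_const, smul_eq_mul, sub_sub_cancel] at e2
      obtain ⟨A, hA⟩ : ∃ A, A = f u ^ (3 - n) := ⟨_, rfl⟩
      have hA0 : 0 < A := by rw [hA]; exact Real.rpow_pos_of_pos hfu _
      have e3 : (2 * f u) ^ (2 - n) * f u * 2 ^ n = 4 * A := by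
        rw [Real.mul_rpow (by norm_num) hfu.le, hA]
        have e4 : f u ^ (3 - n) = f u ^ (2 - n) * f u := by
          rw [← Real.rpow_add_one hfu.ne']
          congr 1
          ring
        have e5 : (2 : ℝ) ^ (2 - n) * 2 ^ n = 4 := by
          rw [← Real.rpow_add (by norm_num)]
          have : 2 - n + n = ((2 : ℕ) : ℝ) := by push_cast; ring
          rw [this, Real.rpow_natCast]
          norm_num
        rw [e4]
        calc (2 : ℝ) ^ (2 - n) * f u ^ (2 - n) * f u * 2 ^ n =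
            ((2 : ℝ) ^ (2 - n) * 2 ^ n) * (f u ^ (2 - n) * f u) := by ring
          _ = _ := by rw [e5]
      have e6 : ρ * (z / 36 * (2 * f u) ^ (2 - n)) ≤ 2 * N := e2.trans e1
      have e7 : z * A ≤ 108 * 2 ^ n * N * σ := by
        have e8 := mul_le_mul_of_nonneg_right e6 (show 0 ≤ 216 * σ * 2 ^ n by positivity)
        have e9 : ρ * (z / 36 * (2 * f u) ^ (2 - n)) * (216 * σ * 2 ^ n) =
            (3 * σ * ρ) * 2 * z * ((2 * f u) ^ (2 - n) * 2 ^ n) := by ring
        rw [e9, hρσ] at e8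
        have e10 : f u / 2 * 2 * z * ((2 * f u) ^ (2 - n) * 2 ^ n) =
            z * ((2 * f u) ^ (2 - n) * f u * 2 ^ n) := by ring
        rw [e10, e3] at e8
        linarith
      have e11 : z * σ ^ 4 ≤ 683 * E * (108 * 2 ^ n * N) := by
        have e12 : z * σ ^ 4 * σ ≤ 683 * E * (108 * 2 ^ n * N) * σ := by
          calc z * σ ^ 4 * σ = z * σ ^ 5 := by ring
            _ ≤ z * (683 * E * f u ^ (3 - n)) := mul_le_mul_of_nonneg_left h2 hz0
            _ = 683 * E * (z * A) := by rw [hA]; ring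
            _ ≤ 683 * E * (108 * 2 ^ n * N * σ) := mul_le_mul_of_nonneg_left e7 (by positivity)
            _ = _ := by ring
        exact le_of_mul_le_mul_right e12 hσp
      have e13 : Real.sqrt z * σ ^ 2 ≤ 10000 * 2 ^ n * ((1 + E) * Real.sqrt N) := by
        rw [← pow_le_pow_iff_left₀ (by positivity) (by positivity) (two_ne_zero)]
        have e14 : (Real.sqrt z * σ ^ 2) ^ 2 = z * σ ^ 4 := by
          rw [mul_pow, hsz]; ring
        have e15 : (10000 * (2 : ℝ) ^ n * ((1 + E) * Real.sqrt N)) ^ 2 =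
            100000000 * ((2 : ℝ) ^ n * 2 ^ n) * ((1 + E) ^ 2 * N) := by
          have : (10000 * (2 : ℝ) ^ n * ((1 + E) * Real.sqrt N)) ^ 2 =
            100000000 * ((2 : ℝ) ^ n * 2 ^ n) * ((1 + E) ^ 2 * Real.sqrt N ^ 2) := by ring
          rw [this, Real.sq_sqrt (by linarith)]
        rw [e14, e15]
        refine e11.trans ?_
        have e16 := ws_aux2 hE
        have e17 : (2 : ℝ) ^ n ≤ 2 ^ n * 2 ^ n := le_mul_of_one_le_left (by positivity) h2n
        have e18 : E * N ≤ (1 + E) ^ 2 * N := mul_le_mul_of_nonneg_right e16 (by linarith)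
        have e19 : (2 : ℝ) ^ n * (E * N) ≤ (2 ^ n * 2 ^ n) * ((1 + E) ^ 2 * N) :=
          mul_le_mul e17 e18 (by positivity) (by positivity)
        have e20 : 0 ≤ (2 : ℝ) ^ n * (E * N) := by positivity
        linarith
      refine e13.trans (mul_le_mul_of_nonneg_left ?_ (by positivity))
      rw [hXe]
      linarith
    · push Not at hcase
      have e1 : m u - m q ≤ 2 * f u * (u - q) :=
        S.label_lip dmS hqS.1 hqu.le huS.2 (fun w hw => hfw w hw (by linarith [hw.1]))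
      have e2 : 2 * f u * (u - q) ≤ 2 * f u * ρ :=
        mul_le_mul_of_nonneg_left (by linarith) (by positivity)
      have e3 : 3 / 2 * (σ * (m u - b)) ≤ f u ^ 2 := by
        have e4 : (m u - b) / 2 ≤ 2 * f u * ρ := by
          rw [hmq] at e1
          linarith
        have e5 := mul_le_mul_of_nonneg_right e4 (show 0 ≤ 3 * σ by positivity)
        have e6 : 2 * f u * ρ * (3 * σ) = 2 * f u * (3 * σ * ρ) := by ring
        rw [e6, hρσ] at e5
        linarith
      obtain ⟨ω, hω⟩ : ∃ ω, ω = Real.sqrt (Real.sqrt z) := ⟨_, rfl⟩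
      have hszp : 0 < Real.sqrt z := Real.sqrt_pos.2 hzp
      have hωp : 0 < ω := by rw [hω]; exact Real.sqrt_pos.2 hszp
      have hω2 : ω ^ 2 = Real.sqrt z := by rw [hω]; exact Real.sq_sqrt hsz0
      have hω4 : ω ^ 4 = z := by
        have : ω ^ 4 = (ω ^ 2) ^ 2 := by ring
        rw [this, hω2, hsz]
      have hω1 : ω ≤ 1 := by rw [hω]; exact Real.sqrt_le_one.2 hsz1
      have e7 : b * ω ≤ 2 * (m u - b) := by
        have hmb : 0 ≤ m u - b := by linarith
        rw [← pow_le_pow_iff_left₀ (by positivity) (by positivity) (show (4 : ℕ) ≠ 0 by norm_num)]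
        have h6 := Z.low (m u) hbu.le
        rw [← hz, ← hω4] at h6
        have e8 : 0 ≤ (m u - b) ^ 4 := by positivity
        linarith
      obtain ⟨Sg, hSg⟩ : ∃ Sg, Sg = σ * ω := ⟨_, rfl⟩
      have hSg0 : 0 < Sg := by rw [hSg]; positivity
      have e9 : Sg * b / 2 ≤ f u ^ 2 := by
        have := mul_le_mul_of_nonneg_left e7 hσ0
        have e8 : 0 ≤ σ * (m u - b) := mul_nonneg hσ0 (by linarith)
        rw [hSg]
        linarith
      obtain ⟨μ, hμ⟩ : ∃ μ, μ = (n - 3) / 2 := ⟨_, rfl⟩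
      have hμ0 : 0 ≤ μ := by rw [hμ]; linarith
      have e10 : f u ^ (3 - n) ≤ (Sg * b / 2) ^ (-μ) := by
        have e11 : f u ^ (3 - n) = (f u ^ 2) ^ (-μ) := by
          rw [← Real.rpow_natCast (f u) 2, ← Real.rpow_mul hfu.le]
          congr 1
          rw [hμ]
          push_cast
          ring
        rw [e11]
        exact Real.rpow_le_rpow_of_nonpos (by positivity) e9 (by linarith)
      have e12 : Sg ^ (5 + μ) ≤ 683 * E * ((2 : ℝ) ^ μ * b ^ (-μ)) := by
        have e13 : Sg ^ 5 ≤ σ ^ 5 := by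
          apply pow_le_pow_left₀ hSg0.le
          rw [hSg]
          exact mul_le_of_le_one_right hσ0 hω1
        have e14 : Sg ^ (5 + μ) = Sg ^ 5 * Sg ^ μ := by
          rw [Real.rpow_add hSg0]
          congr 1
          rw [← Real.rpow_natCast Sg 5]
          norm_num
        have e15 : (Sg * b / 2) ^ (-μ) = Sg ^ (-μ) * ((2 : ℝ) ^ μ * b ^ (-μ)) := by
          have e16 : Sg * b / 2 = Sg * (b * 2⁻¹) := by ring
          rw [e16, Real.mul_rpow hSg0.le (by positivity), Real.mul_rpow hb.le (by positivity),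
            Real.inv_rpow (by norm_num), Real.rpow_neg (by norm_num : (0:ℝ) ≤ 2), inv_inv]
          ring
        have e17 : Sg ^ (-μ) * Sg ^ μ = 1 := by
          rw [← Real.rpow_add hSg0]
          simp
        have e18 : 0 ≤ Sg ^ μ := Real.rpow_nonneg hSg0.le _
        rw [e14]
        calc Sg ^ 5 * Sg ^ μ ≤ (683 * E * f u ^ (3 - n)) * Sg ^ μ :=
              mul_le_mul_of_nonneg_right (e13.trans h2) e18
          _ ≤ (683 * E * (Sg * b / 2) ^ (-μ)) * Sg ^ μ :=
              mul_le_mul_of_nonneg_right (mul_le_mul_of_nonneg_left e10 (by positivity)) e18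
          _ = 683 * E * ((2 : ℝ) ^ μ * b ^ (-μ)) * (Sg ^ (-μ) * Sg ^ μ) := by
              rw [e15]; ring
          _ = _ := by rw [e17, mul_one]
      obtain ⟨θ, hθ⟩ : ∃ θ, θ = 4 / (n + 7) := ⟨_, rfl⟩
      have hn7 : 0 < n + 7 := by linarith
      have hθ0 : 0 < θ := by rw [hθ]; positivity
      have hθ1 : θ ≤ 1 := by
        rw [hθ, div_le_one hn7]
        linarith
      have e19 : (5 + μ) * θ = 2 := by
        rw [hμ, hθ]
        field_simp
        ring
      have e20 : -μ * θ = -(2 * (n - 3) / (n + 7)) := by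
        rw [hμ, hθ]
        field_simp
        ring
      have e21 : Sg ^ 2 ≤ (683 * E * (2 : ℝ) ^ μ) ^ θ * b ^ (-(2 * (n - 3) / (n + 7))) := by
        have e22 := Real.rpow_le_rpow (Real.rpow_nonneg hSg0.le _) e12 hθ0.le
        rw [← Real.rpow_mul hSg0.le, e19] at e22
        have e23 : 683 * E * ((2 : ℝ) ^ μ * b ^ (-μ)) = (683 * E * (2 : ℝ) ^ μ) * b ^ (-μ) := by
          ring
        rw [e23, Real.mul_rpow (by positivity) (Real.rpow_nonneg hb.le _), ← Real.rpow_mul hb.le,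
          e20] at e22
        have e24 : Sg ^ (2 : ℝ) = Sg ^ 2 := by
          rw [← Real.rpow_natCast Sg 2]
          norm_num
        rw [← e24]
        exact e22
      have e25 : (683 * E * (2 : ℝ) ^ μ) ^ θ ≤ 10000 * 2 ^ n * (1 + E) := by
        have e26 : (1 : ℝ) ≤ 2 ^ μ := Real.one_le_rpow (by norm_num) hμ0
        have e27 : (2 : ℝ) ^ μ ≤ 2 ^ n :=
          Real.rpow_le_rpow_of_exponent_le (by norm_num) (by rw [hμ]; linarith)
        have e28 : (1 : ℝ) ≤ 683 * (1 + E) * 2 ^ μ := by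
          have e29 : (1 : ℝ) ≤ (1 + E) * 2 ^ μ :=
            one_le_mul_of_one_le_of_one_le (by linarith) e26
          linarith
        calc (683 * E * (2 : ℝ) ^ μ) ^ θ ≤ (683 * (1 + E) * (2 : ℝ) ^ μ) ^ θ := by
              apply Real.rpow_le_rpow (by positivity) _ hθ0.le
              apply mul_le_mul_of_nonneg_right (by linarith) (by positivity)
          _ ≤ (683 * (1 + E) * (2 : ℝ) ^ μ) ^ (1 : ℝ) :=
              Real.rpow_le_rpow_of_exponent_le e28 hθ1
          _ = 683 * (1 + E) * (2 : ℝ) ^ μ := Real.rpow_one _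
          _ ≤ 683 * (1 + E) * (2 : ℝ) ^ n := mul_le_mul_of_nonneg_left e27 (by positivity)
          _ ≤ _ := by
              have : 0 ≤ (1 + E) * (2 : ℝ) ^ n := by positivity
              linarith
      have e29 : Real.sqrt z * σ ^ 2 = Sg ^ 2 := by
        rw [hSg, mul_pow, hω2]
        ring
      rw [e29]
      refine e21.trans ?_
      have e30 : 0 ≤ b ^ (-(2 * (n - 3) / (n + 7))) := Real.rpow_nonneg hb.le _
      refine (mul_le_mul_of_nonneg_right e25 e30).trans ?_
      rw [mul_assoc]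
      refine mul_le_mul_of_nonneg_left ?_ (by positivity)
      rw [hXe]
      linarith

end Pool.Agent.Q81.TF
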