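import Pool.Agent.Q81.TF.CutX

open Set MeasureTheory Filter Topology

namespace Pool.Agent.Q81.TF

variable {n x0 x1 t1 t2 : ℝ} {W D : Set (ℝ × ℝ)} {s : ℝ → ℝ} {g h1 h2 h3 ht : ℝ × ℝ → ℝ}

theorem Flow.R_le (F : Flow n x0 x1 t1 t2 W D s g h1 h3 ht) (hn : 2 ≤ n) {x t c : ℝ}
    (hx : x ∈ Icc x0 x1) (hc : 0 < c) (hg : ∀ y ∈ Icc x x1, c ≤ g (y, t)) :
    rI x1 (kR n g) (x, t) ≤ (x1 - x0) * c ^ (2 - n) := by
  unfold rI kR
  have hcp : 0 ≤ c ^ (2 - n) := Real.rpow_nonneg hc.le _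
  have h1 : ‖∫ y in x..x1, g (y, t) ^ (2 - n)‖ ≤ c ^ (2 - n) * |x1 - x| := by
    apply intervalIntegral.norm_integral_le_of_norm_le_const
    intro y hy
    rw [uIoc_of_le hx.2] at hy
    have h2 := hg y ⟨hy.1.le, hy.2⟩
    rw [Real.norm_eq_abs, abs_of_nonneg (Real.rpow_nonneg (hc.le.trans h2) _)]
    exact Real.rpow_le_rpow_of_nonpos hc h2 (by linarith)
  rw [Real.norm_eq_abs, abs_of_nonneg (show 0 ≤ x1 - x by linarith [hx.2])] at h1
  refine (le_abs_self _).trans (h1.trans ?_)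
  rw [mul_comm]
  exact mul_le_mul_of_nonneg_right (by linarith [hx.1]) hcp

/-- the functionals at one time -/
theorem Flow.Xi_near (F : Flow n x0 x1 t1 t2 W D s g h1 h3 ht) (hDW : D ⊆ W) (hn : 2 ≤ n) {M c : ℝ}
    (hM1 : 1 ≤ M) (hM : ∀ x ∈ Icc x0 x1, ∀ t ∈ Icc t1 t2, g (x, t) ≤ M) (hc : 0 < c)
    {t : ℝ} (htm : t ∈ Icc t1 t2) {θ B : ℝ} (hθ : 0 < θ) (hB : 1 ≤ B) :
    ∃ N0 > 0, ∃ K0 ≥ 1, ∀ {N K A ε : ℝ} {Fr w w1 χ χ1 χ2 ψ1 ψ2 : ℝ → ℝ}, N0 ≤ N → K0 ≤ K → 0 < ε →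
      FCut B N Fr w w1 → XCut A K M ε χ χ1 χ2 → XCut A K M ε (fun v => v * χ v) ψ1 ψ2 →
      (∀ v, 0 ≤ χ v ∧ χ v ≤ 1) → (∀ v, 0 < v → 1 - χ v ≤ B * |Real.log (v / c)| / K) →
      (x1 - s t - θ ≤ Xi n x0 x1 g Fr χ t ∧ Xi n x0 x1 g Fr χ t ≤ x1 - s t) ∧
      |Xi n x0 x1 g Fr (fun v => v * χ v) t - mF x0 x1 t1 t2 g (x1, t)| ≤ θ := by
  have hst := F.s_mem t htm
  have hL : 0 < x1 - x0 := by linarith [F.hx]
  have hM0 : 0 < M := by linarith
  obtain ⟨θ', hθ'0, hθ'1⟩ : ∃ θ', 0 < θ' ∧ θ' < min (min 1 (x1 - s t)) (θ / (M * (1 + (x1 - x0)))) :=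
    exists_between (lt_min (lt_min one_pos (by linarith)) (by positivity))
  have a1 : θ' < 1 := hθ'1.trans_le ((min_le_left _ _).trans (min_le_left _ _))
  have a2 : θ' < x1 - s t := hθ'1.trans_le ((min_le_left _ _).trans (min_le_right _ _))
  have a3 : θ' * (M * (1 + (x1 - x0))) ≤ θ := by
    have := hθ'1.trans_le (min_le_right _ _)
    rw [lt_div_iff₀ (by positivity)] at this
    exact this.le
  obtain ⟨p, hp⟩ : ∃ p, p = s t + θ' := ⟨_, rfl⟩
  have hpm : p ∈ Icc x0 x1 := ⟨by rw [hp]; linarith, by rw [hp]; linarith⟩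
  have hpD : (p, t) ∈ D := (F.D_iff p hpm t htm).2 (by rw [hp]; linarith)
  obtain ⟨c', hc', hc''⟩ := F.pos_right (F.g_pos _ hpD)
  have hlow := hc'' t htm p hpm le_rfl
  obtain ⟨Λ, hΛ⟩ : ∃ Λ, Λ = |Real.log (c' / c)| + |Real.log (M / c)| := ⟨_, rfl⟩
  have hΛ0 : 0 ≤ Λ := by rw [hΛ]; positivity
  have hlog : ∀ v, c' ≤ v → v ≤ M → |Real.log (v / c)| ≤ Λ := by
    intro v h1 h2
    have hv : 0 < v := lt_of_lt_of_le hc' h1
    have e1 : Real.log (c' / c) ≤ Real.log (v / c) :=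
      Real.log_le_log (div_pos hc' hc) (div_le_div_of_nonneg_right h1 hc.le)
    have e2 : Real.log (v / c) ≤ Real.log (M / c) :=
      Real.log_le_log (div_pos hv hc) (div_le_div_of_nonneg_right h2 hc.le)
    rw [hΛ, abs_le]
    have e3 := neg_abs_le (Real.log (c' / c))
    have e4 := le_abs_self (Real.log (M / c))
    have e5 := abs_nonneg (Real.log (c' / c))
    have e6 := abs_nonneg (Real.log (M / c))
    constructor <;> linarith
  refine ⟨(x1 - x0) * c' ^ (2 - n), by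
    have := Real.rpow_pos_of_pos hc' (2 - n)
    positivity, max 1 (B * Λ / θ'), le_max_left _ _, ?_⟩
  intro N K A ε Fr w w1 χ χ1 χ2 ψ1 ψ2 hN hK hε FC XC XC2 hχ hχ'
  have hK1 : 1 ≤ K := (le_max_left _ _).trans hK
  have hK2 : B * Λ / K ≤ θ' := by
    have h1 := (le_max_right _ _).trans hK
    rw [div_le_iff₀ hθ'0] at h1
    rw [div_le_iff₀ (by linarith)]
    linarith
  have hχlow : ∀ v, c' ≤ v → v ≤ M → 1 - θ' ≤ χ v := by
    intro v h1 h2
    have h3 := hχ' v (lt_of_lt_of_le hc' h1)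
    have h4 : B * |Real.log (v / c)| / K ≤ B * Λ / K := by
      apply div_le_div_of_nonneg_right _ (by linarith)
      exact mul_le_mul_of_nonneg_left (hlog v h1 h2) (by linarith)
    linarith
  have hR : ∀ x ∈ Icc p x1, Fr (rI x1 (kR n g) (x, t)) = 1 := by
    intro x hx
    apply (FC.lo _ _).1
    exact (F.R_le hn ⟨hpm.1.trans hx.1, hx.2⟩ hc' (fun y hy => hlow y ⟨hx.1.trans hy.1, hy.2⟩)).trans
      hN
  have hx0m : x0 ∈ Icc x0 x1 := ⟨le_rfl, F.hx.le⟩
  have hx1m : x1 ∈ Icc x0 x1 := ⟨F.hx.le, le_rfl⟩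
  have hsm : s t ∈ Icc x0 x1 := ⟨hst.1.le, hst.2.le⟩
  have sc : ∀ {u : ℝ × ℝ → ℝ}, ContinuousOn u (Icc x0 x1 ×ˢ Icc t1 t2) → ∀ p q, p ∈ Icc x0 x1 →
      q ∈ Icc x0 x1 → IntervalIntegrable (fun x => u (x, t)) volume p q := by
    intro u hu p q hp hq
    apply ContinuousOn.intervalIntegrable
    exact (slice_c hu htm).mono (uIcc_subset_Icc hp hq)
  have c1 := F.Phi_cont hDW hε FC XC
  have c2 := F.Phi_cont hDW hε FC XC2
  have hgR : ContinuousOn g (Icc x0 x1 ×ˢ Icc t1 t2) :=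
    F.g_cont.mono (fun z hz => F.R_sub z.1 hz.1 z.2 hz.2)
  have hg0 : ∀ x ∈ Icc x0 (s t), g (x, t) = 0 := by
    intro x hx
    apply F.g_zero _ (F.R_sub x ⟨hx.1, hx.2.trans hst.2.le⟩ t htm)
    rw [F.D_iff x ⟨hx.1, hx.2.trans hst.2.le⟩ t htm]
    exact not_lt.2 hx.2
  have hF01 := FC.F01
  refine ⟨⟨?_, ?_⟩, ?_⟩
  · unfold Xi
    rw [← intervalIntegral.integral_add_adjacent_intervals (sc c1 _ _ hx0m hpm) (sc c1 _ _ hpm hx1m)]
    have e1 : 0 ≤ ∫ x in x0..p, Phi n x1 g Fr χ (x, t) := by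
      apply intervalIntegral.integral_nonneg hpm.1
      intro x _
      exact mul_nonneg (hχ _).1 (hF01 _).1
    have e2 : ∫ _x in p..x1, (1 - θ') ≤ ∫ x in p..x1, Phi n x1 g Fr χ (x, t) := by
      apply intervalIntegral.integral_mono_on hpm.2 intervalIntegrable_const (sc c1 _ _ hpm hx1m)
      intro x hx
      have h3 := hχlow _ (hlow x hx) (hM x ⟨hpm.1.trans hx.1, hx.2⟩ t htm)
      unfold Phi
      rw [hR x hx, mul_one]
      exact h3
    rw [intervalIntegral.integral_const, smul_eq_mul] at e2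
    have e3 : x1 - s t - θ ≤ (x1 - p) * (1 - θ') := by
      rw [hp]
      have h4 : (x1 - (s t + θ')) * (1 - θ') = x1 - s t - θ' * (1 + (x1 - s t - θ')) := by ring
      rw [h4]
      have h5 : θ' * (1 + (x1 - s t - θ')) ≤ θ' * (M * (1 + (x1 - x0))) := by
        apply mul_le_mul_of_nonneg_left _ hθ'0.le
        nlinarith only [a2, hθ'0, hM1, hst.1]
      linarith
    linarith
  · unfold Xi
    rw [← intervalIntegral.integral_add_adjacent_intervals (sc c1 _ _ hx0m hsm) (sc c1 _ _ hsm hx1m)]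
    have e1 : ∫ x in x0..(s t), Phi n x1 g Fr χ (x, t) = ∫ _x in x0..(s t), (0 : ℝ) := by
      apply intervalIntegral.integral_congr
      intro x hx
      rw [uIcc_of_le hst.1.le] at hx
      simp only [Phi, hg0 x hx, (XC.z 0 hε.le).1, zero_mul]
    have e2 : ∫ x in (s t)..x1, Phi n x1 g Fr χ (x, t) ≤ ∫ _x in (s t)..x1, (1 : ℝ) := by
      apply intervalIntegral.integral_mono_on hst.2.le (sc c1 _ _ hsm hx1m) intervalIntegrable_const
      intro x _
      unfold Phi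
      calc χ (g (x, t)) * Fr (rI x1 (kR n g) (x, t)) ≤ 1 * 1 :=
            mul_le_mul (hχ _).2 (hF01 _).2 (hF01 _).1 zero_le_one
        _ = 1 := one_mul 1
    rw [intervalIntegral.integral_const, smul_eq_mul, mul_one] at e2
    rw [e1, intervalIntegral.integral_zero]
    linarith
  · have hmF : mF x0 x1 t1 t2 g (x1, t) = ∫ x in x0..x1, g (x, t) := by
      unfold mF prim
      simp only
      apply intervalIntegral.integral_congr
      intro x hx
      rw [uIcc_of_le F.hx.le] at hx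
      simp only
      rw [cl_eq hx htm]
    have hmp : ∫ x in x0..p, g (x, t) ≤ M * θ' := by
      have h1 := F.mF_upper htm (show s t ≤ p by rw [hp]; linarith) hpm.2
        (fun u hu => hM u ⟨hst.1.le.trans hu.1.le, hu.2.trans hpm.2⟩ t htm)
      have h2 : mF x0 x1 t1 t2 g (p, t) = ∫ x in x0..p, g (x, t) := by
        unfold mF prim
        simp only
        apply intervalIntegral.integral_congr
        intro x hx
        rw [uIcc_of_le hpm.1] at hx
        simp only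
        rw [cl_eq ⟨hx.1, hx.2.trans hpm.2⟩ htm]
      rw [h2, hp] at h1
      rw [hp]
      calc ∫ x in x0..(s t + θ'), g (x, t) ≤ M * (s t + θ' - s t) := h1
        _ = M * θ' := by ring
    have hgn : ∀ x ∈ Icc x0 x1, 0 ≤ g (x, t) := fun x hx => F.g_nonneg (F.R_sub x hx t htm)
    have hup : Xi n x0 x1 g Fr (fun v => v * χ v) t ≤ ∫ x in x0..x1, g (x, t) := by
      unfold Xi
      apply intervalIntegral.integral_mono_on F.hx.le (sc c2 _ _ hx0m hx1m) (sc hgR _ _ hx0m hx1m)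
      intro x hx
      unfold Phi
      calc g (x, t) * χ (g (x, t)) * Fr (rI x1 (kR n g) (x, t)) ≤ g (x, t) * 1 * 1 := by
            apply mul_le_mul _ (hF01 _).2 (hF01 _).1 (by linarith [hgn x hx])
            exact mul_le_mul_of_nonneg_left (hχ _).2 (hgn x hx)
        _ = g (x, t) := by ring
    have hlo : (1 - θ') * ∫ x in p..x1, g (x, t) ≤ Xi n x0 x1 g Fr (fun v => v * χ v) t := by
      unfold Xi
      rw [← intervalIntegral.integral_add_adjacent_intervals (sc c2 _ _ hx0m hpm)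
        (sc c2 _ _ hpm hx1m), ← intervalIntegral.integral_const_mul]
      have e1 : 0 ≤ ∫ x in x0..p, Phi n x1 g Fr (fun v => v * χ v) (x, t) := by
        apply intervalIntegral.integral_nonneg hpm.1
        intro x hx
        exact mul_nonneg (mul_nonneg (hgn x ⟨hx.1, hx.2.trans hpm.2⟩) (hχ _).1) (hF01 _).1
      have e2 : ∫ x in p..x1, (1 - θ') * g (x, t) ≤
          ∫ x in p..x1, Phi n x1 g Fr (fun v => v * χ v) (x, t) := by
        apply intervalIntegral.integral_mono_on hpm.2 ((sc hgR _ _ hpm hx1m).const_mul _)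
          (sc c2 _ _ hpm hx1m)
        intro x hx
        have h3 := hχlow _ (hlow x hx) (hM x ⟨hpm.1.trans hx.1, hx.2⟩ t htm)
        unfold Phi
        rw [hR x hx, mul_one, mul_comm]
        exact mul_le_mul_of_nonneg_left h3 (hgn x ⟨hpm.1.trans hx.1, hx.2⟩)
      linarith
    have hsplit := intervalIntegral.integral_add_adjacent_intervals (sc hgR _ _ hx0m hpm)
      (sc hgR _ _ hpm hx1m)
    have hpx : ∫ x in p..x1, g (x, t) ≤ M * (x1 - x0) := by
      have h3 : ∫ x in p..x1, g (x, t) ≤ ∫ _x in p..x1, M := by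
        apply intervalIntegral.integral_mono_on hpm.2 (sc hgR _ _ hpm hx1m)
          intervalIntegrable_const
        intro x hx
        exact hM x ⟨hpm.1.trans hx.1, hx.2⟩ t htm
      rw [intervalIntegral.integral_const, smul_eq_mul] at h3
      nlinarith only [h3, hM1, hpm.1]
    rw [hmF, abs_le]
    constructor
    · have h6 : θ' * ∫ x in p..x1, g (x, t) ≤ θ' * (M * (x1 - x0)) :=
        mul_le_mul_of_nonneg_left hpx hθ'0.le
      have h7 : θ' * (M * (1 + (x1 - x0))) = M * θ' + θ' * (M * (x1 - x0)) := by ring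
      linarith
    · linarith

/-- the contact point does not increase, and the mass is transported without a flux at the contact
line -/
theorem Flow.mono_and_mass (F : Flow n x0 x1 t1 t2 W D s g h1 h3 ht) (J : Jet D h1 h2 h3)
    (hDW : D ⊆ W) (hn : 3 ≤ n)
    (hfin : IntegrableOn (Fd n g h3) (D ∩ Ioc x0 x1 ×ˢ Ioc t1 t2)) :
    s t2 ≤ s t1 ∧ mF x0 x1 t1 t2 g (x1, t2) - mF x0 x1 t1 t2 g (x1, t1) =
      -∫ τ in t1..t2, g (x1, τ) ^ n * h3 (x1, τ) := by
  obtain ⟨M, c, Pm, Gm, Hm, Bd⟩ := F.exists_bds J hDW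
  obtain ⟨B, hB, hFC, hXC⟩ := exists_cuts2
  have hL : 0 < x1 - x0 := by linarith [F.hx]
  have ht1 : t1 ∈ Icc t1 t2 := ⟨le_rfl, F.htt.le⟩
  have ht2 : t2 ∈ Icc t1 t2 := ⟨F.htt.le, le_rfl⟩
  have hFd : ∀ z ∈ D, 0 ≤ Fd n g h3 z := fun z hz =>
    mul_nonneg (Real.rpow_nonneg (F.g_pos z hz).le _) (sq_nonneg _)
  obtain ⟨EI, hEI⟩ : ∃ EI, EI = ∫ τ in Ioc t1 t2, (1 + eV n x0 x1 D univ g h3 τ) := ⟨_, rfl⟩
  have hEI0 : 0 ≤ EI := by
    rw [hEI]
    apply setIntegral_nonneg measurableSet_Ioc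
    intro τ _
    have := eV_nonneg (n := n) (x0 := x0) (x1 := x1) hFd univ τ
    linarith
  obtain ⟨κ, hκ⟩ : ∃ κ, κ = (n - 1) * (n - 2) := ⟨_, rfl⟩
  have hM1 := Bd.hM1
  have key : ∀ θ > 0, s t2 ≤ s t1 + 2 * θ ∧
      |mF x0 x1 t1 t2 g (x1, t2) - mF x0 x1 t1 t2 g (x1, t1) +
        ∫ τ in t1..t2, g (x1, τ) ^ n * h3 (x1, τ)| ≤ θ * (x1 - x0 + θ) + 3 * θ := by
    intro θ hθ
    obtain ⟨N1, hN1, K1, hK1, H1⟩ := F.Xi_near hDW (by linarith) hM1 Bd.hM Bd.hc ht1 hθ hB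
    obtain ⟨N2, hN2, K2, hK2, H2⟩ := F.Xi_near hDW (by linarith) hM1 Bd.hM Bd.hc ht2 hθ hB
    obtain ⟨c3, hc3, hc3'⟩ := F.pos_right hθ
    obtain ⟨N3, hN3⟩ : ∃ N3, N3 = (x1 - x0) * c3 ^ (2 - n) := ⟨_, rfl⟩
    -- the constants
    obtain ⟨e1, he1⟩ : ∃ e1, e1 = erC1 n (x1 - x0) B (8 * B * M) M Hm (1 + slC n c Pm Gm) :=
      ⟨_, rfl⟩
    obtain ⟨e2, he2⟩ : ∃ e2, e2 = erC2 n B (8 * B * M) (M ^ (n - 3)) (1 + slC n c Pm Gm) :=
      ⟨_, rfl⟩
    obtain ⟨ν, hν⟩ : ∃ ν, ν = 1 + (N1 + N2 + |N3| + 2 * |e1| * EI / θ) := ⟨_, rfl⟩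
    have hab1 := abs_nonneg e1
    have hab2 := abs_nonneg e2
    have hab3 := abs_nonneg N3
    have hq0 : 0 ≤ 2 * |e1| * EI / θ := by positivity
    have hν1 : 1 ≤ ν := by rw [hν]; linarith
    have hν0 : 0 < ν := by linarith
    have hν4 : ν ≤ ν ^ 4 := by
      calc ν = ν ^ 1 := (pow_one ν).symm
        _ ≤ ν ^ 4 := pow_le_pow_right₀ hν1 (by norm_num)
    obtain ⟨K, hK⟩ : ∃ K, K = K1 + K2 + 2 * |e2| * ν ^ 6 * EI / θ := ⟨_, rfl⟩
    have hq1 : 0 ≤ 2 * |e2| * ν ^ 6 * EI / θ := by positivity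
    have hKa : K1 ≤ K := by rw [hK]; linarith
    have hKb : K2 ≤ K := by rw [hK]; linarith
    have hKone : 1 ≤ K := le_trans hK1 hKa
    have hK0 : 0 < K := by linarith
    obtain ⟨Fr, w, w1, FC⟩ := hFC (ν ^ 4) (by positivity)
    obtain ⟨χ, χ1, χ2, ψ1, ψ2, XC, XC2, hχ, hχc, hχl⟩ := hXC c K M Bd.hc hKone hM1
    obtain ⟨ε, hε⟩ : ∃ ε, ε = c * Real.exp (-K) := ⟨_, rfl⟩
    have hc0 := Bd.hc
    have hε0 : 0 < ε := by rw [hε]; positivity
    rw [← hε] at XC XC2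
    have herr : erK n (x1 - x0) B (8 * B * M) M c Pm Gm Hm ν K * EI ≤ θ := by
      unfold erK
      rw [← he1, ← he2, add_mul]
      have z1 : e1 / ν * EI ≤ θ / 2 := by
        have h1 : 2 * |e1| * EI / θ ≤ ν := by rw [hν]; linarith
        rw [div_le_iff₀ hθ] at h1
        rw [div_mul_eq_mul_div, div_le_iff₀ hν0]
        have h2 : e1 * EI ≤ |e1| * EI := mul_le_mul_of_nonneg_right (le_abs_self _) hEI0
        linarith
      have z2 : e2 * ν ^ 6 / K * EI ≤ θ / 2 := by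
        have h1 : 2 * |e2| * ν ^ 6 * EI / θ ≤ K := by rw [hK]; linarith
        rw [div_le_iff₀ hθ] at h1
        rw [div_mul_eq_mul_div, div_le_iff₀ hK0]
        have h2 : e2 * (ν ^ 6 * EI) ≤ |e2| * (ν ^ 6 * EI) :=
          mul_le_mul_of_nonneg_right (le_abs_self _) (by positivity)
        linarith
      linarith
    have hA : 0 ≤ 8 * B * M := by positivity
    have I1 := F.func_ineq J hDW hn hε0 hν1 hKone hA (by linarith) FC XC Bd hfin
    have I2 := F.func_ineq J hDW hn hε0 hν1 hKone hA (by linarith) FC XC2 Bd hfin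
    rw [← hEI, ← hκ] at I1 I2
    have X1 := H1 (A := 8 * B * M) (by linarith) hKa hε0 FC XC XC2 hχ hχl
    have X2 := H2 (A := 8 * B * M) (by linarith) hKb hε0 FC XC XC2 hχ hχl
    -- the boundary terms
    have hx1m : x1 ∈ Icc x0 x1 := ⟨F.hx.le, le_rfl⟩
    have b1 : ∫ τ in t1..t2, χ1 (g (x1, τ)) * (g (x1, τ) ^ n * h3 (x1, τ)) = 0 := by
      have : ∫ τ in t1..t2, χ1 (g (x1, τ)) * (g (x1, τ) ^ n * h3 (x1, τ)) =
          ∫ _τ in t1..t2, (0 : ℝ) := by
        apply intervalIntegral.integral_congr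
        intro τ hτ
        rw [uIcc_of_le F.htt.le] at hτ
        simp only [(hχc _ (Bd.hca τ hτ)).2.1, zero_mul]
      rw [this, intervalIntegral.integral_zero]
    have b2 : ∫ τ in t1..t2, ψ1 (g (x1, τ)) * (g (x1, τ) ^ n * h3 (x1, τ)) =
        ∫ τ in t1..t2, g (x1, τ) ^ n * h3 (x1, τ) := by
      apply intervalIntegral.integral_congr
      intro τ hτ
      rw [uIcc_of_le F.htt.le] at hτ
      simp only [(hχc _ (Bd.hca τ hτ)).2.2, one_mul]
    -- the good terms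
    have g1 : ∀ z ∈ Icc x0 x1 ×ˢ Icc t1 t2, 0 ≤ good n x1 g h2 w χ z := by
      intro z hz
      unfold good
      apply mul_nonneg (hχ _).1 (mul_nonneg (FC.w0 _) _)
      exact intervalIntegral.integral_nonneg hz.1.2 (fun y _ => sq_nonneg _)
    have g2 : ∀ z ∈ Icc x0 x1 ×ˢ Icc t1 t2, good n x1 g h2 w (fun v => v * χ v) z ≤
        θ * good n x1 g h2 w χ z := by
      rintro ⟨x, t⟩ ⟨hz1, hz2⟩
      have hz1' : x ∈ Icc x0 x1 := hz1
      have hz2' : t ∈ Icc t1 t2 := hz2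
      have h5 : good n x1 g h2 w (fun v => v * χ v) (x, t) = g (x, t) * good n x1 g h2 w χ (x, t) := by
        unfold good
        ring
      rw [h5]
      rcases le_or_gt θ (g (x, t)) with h | h
      · have h6 := F.R_le (n := n) (t := t) (by linarith) hz1' hc3 (hc3' t hz2' x hz1' h)
        have h7 : w (rI x1 (kR n g) (x, t)) = 0 := by
          apply (FC.lo _ _).2.1
          refine h6.trans ?_
          rw [← hN3]
          refine le_trans ?_ hν4
          rw [hν]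
          linarith [le_abs_self N3]
        have h8 : good n x1 g h2 w χ (x, t) = 0 := by
          unfold good
          rw [h7, zero_mul, mul_zero]
        rw [h8, mul_zero, mul_zero]
      · exact mul_le_mul_of_nonneg_right h.le (g1 _ ⟨hz1, hz2⟩)
    have g3 : ∀ z ∈ Icc x0 x1 ×ˢ Icc t1 t2, 0 ≤ good n x1 g h2 w (fun v => v * χ v) z := by
      rintro ⟨x, t⟩ ⟨hz1, hz2⟩
      have h5 : good n x1 g h2 w (fun v => v * χ v) (x, t) = g (x, t) * good n x1 g h2 w χ (x, t) := by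
        unfold good
        ring
      rw [h5]
      exact mul_nonneg (F.g_nonneg (F.R_sub x hz1 t hz2)) (g1 _ ⟨hz1, hz2⟩)
    obtain ⟨S1, hS1⟩ : ∃ S1, S1 = ∫ τ in t1..t2, ∫ x in x0..x1, good n x1 g h2 w χ (x, τ) :=
      ⟨_, rfl⟩
    obtain ⟨S2, hS2⟩ : ∃ S2, S2 = ∫ τ in t1..t2, ∫ x in x0..x1,
      good n x1 g h2 w (fun v => v * χ v) (x, τ) := ⟨_, rfl⟩
    have cg1 := F.good_cont J hDW hε0 FC XC
    have cg2 := F.good_cont J hDW hε0 FC XC2
    have cI : ∀ {u : ℝ × ℝ → ℝ}, ContinuousOn u (Icc x0 x1 ×ˢ Icc t1 t2) →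
        IntervalIntegrable (fun τ => ∫ x in x0..x1, u (x, τ)) volume t1 t2 := by
      intro u hu
      have h1 : Continuous (fun τ => ∫ x in x0..x1, u (cl x0 x1 t1 t2 (x, τ))) := by
        apply intervalIntegral.continuous_parametric_intervalIntegral_of_continuous'
          (f := fun τ x => u (cl x0 x1 t1 t2 (x, τ)))
        exact (clC F.hx F.htt hu).comp (by fun_prop)
      apply (h1.intervalIntegrable t1 t2).congr
      intro τ hτ
      rw [uIoc_of_le F.htt.le] at hτ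
      apply intervalIntegral.integral_congr
      intro x hx
      rw [uIcc_of_le F.hx.le] at hx
      simp only
      rw [cl_eq hx ⟨hτ.1.le, hτ.2⟩]
    have sI : ∀ {u : ℝ × ℝ → ℝ}, ContinuousOn u (Icc x0 x1 ×ˢ Icc t1 t2) → ∀ τ ∈ Icc t1 t2,
        IntervalIntegrable (fun x => u (x, τ)) volume x0 x1 := by
      intro u hu τ hτ
      apply ContinuousOn.intervalIntegrable
      rw [uIcc_of_le F.hx.le]
      exact slice_c hu hτ
    have hS10 : 0 ≤ S1 := by
      rw [hS1]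
      apply intervalIntegral.integral_nonneg F.htt.le
      intro τ hτ
      exact intervalIntegral.integral_nonneg F.hx.le (fun x hx => g1 _ ⟨hx, hτ⟩)
    have hS20 : 0 ≤ S2 := by
      rw [hS2]
      apply intervalIntegral.integral_nonneg F.htt.le
      intro τ hτ
      exact intervalIntegral.integral_nonneg F.hx.le (fun x hx => g3 _ ⟨hx, hτ⟩)
    have hS21 : S2 ≤ θ * S1 := by
      rw [hS1, hS2, ← intervalIntegral.integral_const_mul]
      apply intervalIntegral.integral_mono_on F.htt.le (cI cg2) ((cI cg1).const_mul _)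
      intro τ hτ
      rw [← intervalIntegral.integral_const_mul]
      apply intervalIntegral.integral_mono_on F.hx.le (sI cg2 τ hτ) ((sI cg1 τ hτ).const_mul _)
      intro x hx
      exact g2 _ ⟨hx, hτ⟩
    rw [b1, ← hS1] at I1
    rw [b2, ← hS2] at I2
    have I1' := abs_le.1 (I1.trans herr)
    have I2' := abs_le.1 (I2.trans herr)
    have hκ0 : 0 ≤ κ := by rw [hκ]; exact mul_nonneg (by linarith) (by linarith)
    have s1 := F.s_mem t1 ht1
    have s2 := F.s_mem t2 ht2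
    have hκS1 : 0 ≤ κ * S1 := mul_nonneg hκ0 hS10
    have hκS1' : κ * S1 ≤ x1 - x0 + θ := by
      have q1 := X2.1.2
      have q2 : 0 ≤ Xi n x0 x1 g Fr χ t1 := by
        unfold Xi
        apply intervalIntegral.integral_nonneg F.hx.le
        intro x _
        exact mul_nonneg (hχ _).1 (FC.F01 _).1
      linarith [I1'.1]
    have hκS2 : κ * S2 ≤ θ * (x1 - x0 + θ) := by
      calc κ * S2 ≤ κ * (θ * S1) := mul_le_mul_of_nonneg_left hS21 hκ0
        _ = θ * (κ * S1) := by ring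
        _ ≤ _ := mul_le_mul_of_nonneg_left hκS1' hθ.le
    have hκS2' : 0 ≤ κ * S2 := mul_nonneg hκ0 hS20
    constructor
    · linarith [I1'.1, X1.1.1, X2.1.2]
    · have y1 := abs_le.1 X1.2
      have y2 := abs_le.1 X2.2
      rw [abs_le]
      constructor
      · linarith [I2'.1, y1.1, y1.2, y2.1, y2.2]
      · linarith [I2'.2, y1.1, y1.2, y2.1, y2.2]
  constructor
  · apply le_of_forall_pos_le_add
    intro θ hθ
    have := (key (θ / 2) (by positivity)).1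
    linarith
  · have h0 : |mF x0 x1 t1 t2 g (x1, t2) - mF x0 x1 t1 t2 g (x1, t1) +
        ∫ τ in t1..t2, g (x1, τ) ^ n * h3 (x1, τ)| ≤ 0 := by
      apply le_of_forall_pos_le_add
      intro θ hθ
      obtain ⟨θ', h1, h2⟩ : ∃ θ', 0 < θ' ∧ θ' < min 1 (θ / (x1 - x0 + 4)) :=
        exists_between (lt_min one_pos (by positivity))
      have h3 := (key θ' h1).2
      have h4 : θ' < 1 := h2.trans_le (min_le_left _ _)
      have h5 := h2.trans_le (min_le_right _ _)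
      rw [lt_div_iff₀ (by linarith)] at h5
      nlinarith only [h5, h4, h3, h1]
    have := abs_eq_zero.1 (le_antisymm h0 (abs_nonneg _))
    linarith

end Pool.Agent.Q81.TF
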